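import Mathlib
import Pool.Agent.Lib.H55N.Defs

/-!
# H55P: definitions

Inheritance of the rank part and the p-part of the conjecture of Birch and Swinnerton-Dyer in Galois
p-extensions of number fields, for elliptic curves with complex multiplication. See PROOF.md.
-/

open NumberField IsDedekindDomain

namespace H55P

open H55N
open H55B (g)

/-- An imaginary quadratic field of class number one with a complex embedding. -/
class IQ (F : Type) [Field F] [NumberField F] where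
  emb : F →+* ℂ
  deg : Module.finrank ℚ F = 2
  im : ∃ x : F, (emb x).im ≠ 0
  pid : IsPrincipalIdealRing (𝓞 F)

/-- The complex embedding. -/
noncomputable def embF (F : Type) [Field F] [NumberField F] [IQ F] : F →+* ℂ := IQ.emb

/-- The complex embedding of the integers. -/
noncomputable def eF (F : Type) [Field F] [NumberField F] [IQ F] : 𝓞 F →+* ℂ :=
  (embF F).comp (algebraMap (𝓞 F) F)

instance instPIDF (F : Type) [Field F] [NumberField F] [IQ F] : IsPrincipalIdealRing (𝓞 F) := IQ.pid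

/-- The embeddings of K over the fixed embedding of F. -/
structure Emb (F : Type) [Field F] [NumberField F] [IQ F] {K : Type} [Field K] [NumberField K]
    [Algebra F K] {m : ℕ} (σ : Fin (m + 1) → K →+* ℂ) : Prop where
  ovr : ∀ i (x : F), σ i (algebraMap F K x) = embF F x
  inj : Function.Injective σ
  fin : Module.finrank F K = m + 1

/-- The summand conj N(x) |N(x)|^(-2s). -/
noncomputable def nf (F : Type) [Field F] [NumberField F] [IQ F] {K : Type} [Field K] [NumberField K]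
    [Algebra F K] (s : ℂ) (x : 𝓞 K) : ℂ := g s (embF F (Algebra.norm F (x : K)))

variable {F : Type} [Field F] [NumberField F] [IQ F] {K : Type} [Field K] [NumberField K]
  [Algebra F K] {m : ℕ}

/-! ### The context -/

/-- The data of the analytic core. -/
structure Ctx (F : Type) [Field F] [NumberField F] [IQ F] (K : Type) [Field K] [NumberField K] [Algebra F K] (m : ℕ) where
  σ : Fin (m + 1) → K →+* ℂ
  I : Ideal (𝓞 K)
  c₀ : 𝓞 K
  c : Fin (m + 1) × Fin 2 → Ideal (𝓞 K)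
  p : Fin (m + 1) × Fin 2 → ℕ

namespace Ctx

variable (D : Ctx F K m)

/-- The residue class. -/
def X : Set (𝓞 K) := XS D.I D.c₀

/-- The weight. -/
noncomputable def g (x : 𝓞 K) : ℂ := gw D.c D.p x

/-- The assumptions. -/
structure Ok : Prop where
  emb : Emb F D.σ
  ne : D.c₀ ∉ D.I
  smooth : Smooth D.c D.p

/-- The quadratic forms. -/
noncomputable def Q (t : Fin (m + 1) → ℝ) (x : 𝓞 K) : ℝ := ∑ i, t i * ‖D.σ i x‖ ^ 2

/-- The size. -/
noncomputable def sz (x : 𝓞 K) : ℝ := 1 + ∑ i, ‖D.σ i x‖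

/-- The norm. -/
noncomputable def N (x : 𝓞 K) : ℂ := ∏ i, D.σ i x

/-- The trace of a x. -/
noncomputable def Tr (a : K) (x : 𝓞 K) : ℂ := ∑ i, D.σ i ((x : K) * a)

/-- The cutoff functions. -/
noncomputable def cut (B : Matrix (Fin (m + 1)) (Fin (m + 1)) ℂ) (R : ℝ) (x : 𝓞 K) : ℝ :=
  (R ^ 2 / (R ^ 2 + ∑ i, ‖∑ j, B i j * D.σ j x‖ ^ 2)) ^ (m + 2)

/-- The product cutoff functions. -/
noncomputable def pcut (A : Fin (m + 1) → K) (R : ℝ) (x : 𝓞 K) : ℝ :=
  ∏ k, R ^ 2 / (R ^ 2 + ‖D.Tr (A k) x‖ ^ 2)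

/-- S is the regularised sum of g h over X. -/
def HasReg (h : 𝓞 K → ℂ) (S : ℂ) : Prop :=
  (∃ C : ℝ, ∀ x ∈ D.X, ‖h x‖ ≤ C) ∧
  ∀ B : Matrix (Fin (m + 1)) (Fin (m + 1)) ℂ, B.det ≠ 0 →
    Filter.Tendsto (fun R : ℝ => ∑' x : D.X, D.g x * h x * (D.cut B R x : ℂ)) Filter.atTop (nhds S)

/-- The row of a label. -/
noncomputable def row (l : Lab K m) (x : 𝓞 K) (i : Fin (m + 1)) : ℂ :=
  match l with
  | .T t => (starRingEnd ℂ) (D.σ i x) * t i / D.Q t x
  | .A a => D.σ i a / D.Tr a x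

/-- The determinant of the rows of m + 1 labels. -/
noncomputable def Idet (L : Fin (m + 1) → Lab K m) (x : 𝓞 K) : ℂ :=
  Matrix.det (Matrix.of fun j i => D.row (L j) x i)

open Classical in
/-- The regularised sum of the determinant. -/
noncomputable def Jv (L : Fin (m + 1) → Lab K m) : ℂ :=
  if h : ∃ S, D.HasReg (D.Idet L) S then h.choose else 0

/-- A dual pair of a basis of K/F and directions adapted to the smoothing primes. -/
structure Dirs (A : Fin (m + 1) → K) (w : Fin (m + 1) × Fin 2 → 𝓞 K) : Prop where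
  mem : ∀ i, w i ∈ D.I
  self : ∀ i, w i ∉ D.c i
  oth : ∀ i k, k ≠ i → w i ∈ D.c k
  orth : ∀ i k, k ≠ i.1 → D.Tr (A k) (w i) = 0
  int : ∀ x ∈ D.X, ∀ k, ∃ y : (𝓞 F), D.Tr (A k) x = (eF F) y
  low : ∀ x ∈ D.X, ∀ k, 1 ≤ ‖D.Tr (A k) x‖
  ind : LinearIndependent F A

/-- The gains in the directions w. -/
noncomputable def gl (A : Fin (m + 1) → K) (i : Fin (m + 1) × Fin 2) (x : 𝓞 K) : ℝ :=
  (1 + ‖D.Tr (A i.1) x‖)⁻¹

/-- The weight of the regularisable functions. -/
noncomputable def bl (A : Fin (m + 1) → K) (x : 𝓞 K) : ℝ := ∏ k, (1 + ‖D.Tr (A k) x‖)⁻¹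

/-- G is a bounded function with g = D G (summation by parts). -/
def GSpec (w : Fin (m + 1) × Fin 2 → 𝓞 K) (G : 𝓞 K → ℂ) : Prop :=
  (∃ C : ℝ, ∀ x, ‖G x‖ ≤ C) ∧ ∀ h : 𝓞 K → ℂ, Summable (fun x : D.X => ‖h x‖) →
    ∑' x : D.X, D.g x * h x = ∑' x : D.X, G x * Dif w Finset.univ h x

/-- The logarithms of the units. -/
noncomputable def lm (u : Fin m → (𝓞 K)ˣ) (i : Fin (m + 1)) (j : Fin m) : ℝ :=
  2 * Real.log ‖D.σ i ((u j : 𝓞 K) : K)‖

/-- Units of norm one acting on X, with nonzero regulator. -/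
structure UOk (u : Fin m → (𝓞 K)ˣ) : Prop where
  act : ∀ j, ((u j : 𝓞 K) - 1) * D.c₀ ∈ D.I
  norm : ∀ j, ∏ i, D.σ i ((u j : 𝓞 K) : K) = 1
  reg : Delta (D.lm u) ≠ 0

/-- The action of the units on the labels. -/
noncomputable def act (v : (𝓞 K)ˣ) (l : Lab K m) : Lab K m :=
  match l with
  | .T t => .T fun i => ‖D.σ i ((v : 𝓞 K) : K)‖ ^ 2 * t i
  | .A a => .A (((v : 𝓞 K) : K) * a)

/-- The family conj N(x) Q_t(x)^(-(m+1)s). -/
noncomputable def fs (t : Fin (m + 1) → ℝ) (s : ℂ) (x : 𝓞 K) : ℂ :=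
  (starRingEnd ℂ) (D.N x) * (D.Q t x : ℂ) ^ (-((m + 1 : ℕ) * s))

/-- The regularised sum of conj N / prod Q. -/
noncomputable def Bv (w : Fin (m + 1) × Fin 2 → 𝓞 K) (G : 𝓞 K → ℂ)
    (t : Fin (m + 1) → Fin (m + 1) → ℝ) : ℂ :=
  ∑' x : D.X, G x * Dif w Finset.univ (fun x => (starRingEnd ℂ) (D.N x) / ∏ j, (D.Q (t j) x : ℂ)) x

end Ctx

/-- Integrality above the prime pi. -/
def IntP (p : ℂ) (z : ℂ) : Prop := ∀ V : ValuationSubring ℂ, V.valuation p < 1 → V.valuation z ≤ 1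

end H55P
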