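import Mathlib
import Pool.Agent.Lib.H55P.Defs

/-! The lattice of integers of an imaginary quadratic field of class number one. -/

open NumberField IsDedekindDomain

namespace H55P

open H55N
open H55B (g)

variable {F : Type} [Field F] [NumberField F] [IQ F]

theorem eF_apply (x : (𝓞 F)) : (eF F) x = embF F (x : F) := rfl

theorem eF_inj : Function.Injective (eF F) := by
  intro x y h
  exact RingOfIntegers.coe_injective ((embF F).injective h)

theorem eF_ne {x : (𝓞 F)} (hx : x ≠ 0) : (eF F) x ≠ 0 := fun h => hx (eF_inj (by rw [h, map_zero]))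

/-- The norm of an integer, as a natural number. -/
noncomputable def Nm (x : 𝓞 F) : ℕ := Ideal.absNorm (Ideal.span {x})

theorem Nm_eq_zero {x : (𝓞 F)} : Nm x = 0 ↔ x = 0 := by
  unfold Nm
  rw [Ideal.absNorm_eq_zero_iff, Ideal.span_singleton_eq_bot]

/-- An integral basis. -/
noncomputable def bF (F : Type) [Field F] [NumberField F] [IQ F] : Module.Basis (Fin 2) ℤ (𝓞 F) :=
  (RingOfIntegers.basis F).reindex (Fintype.equivFinOfCardEq (by
    rw [← Module.finrank_eq_card_basis (RingOfIntegers.basis F), RingOfIntegers.rank, IQ.deg]))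

theorem bF_repr (x : (𝓞 F)) : x = ((bF F).repr x 0 : (𝓞 F)) * bF F 0 + ((bF F).repr x 1 : (𝓞 F)) * bF F 1 := by
  have h := (bF F).sum_repr x
  rw [Fin.sum_univ_two, zsmul_eq_mul, zsmul_eq_mul] at h
  exact h.symm

theorem eF_repr (x : (𝓞 F)) : (eF F) x = ((bF F).repr x 0 : ℂ) * (eF F) (bF F 0) + ((bF F).repr x 1 : ℂ) * (eF F) (bF F 1) := by
  conv_lhs => rw [bF_repr x]
  rw [map_add, map_mul, map_mul, map_intCast, map_intCast]

theorem F0_im : ∃ x : (𝓞 F), ((eF F) x).im ≠ 0 := by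
  obtain ⟨x, hx⟩ := IQ.im (F := F)
  obtain ⟨⟨a, b⟩, hab⟩ := IsLocalization.surj (nonZeroDivisors (𝓞 F)) x
  simp only at hab
  by_contra hcon
  push Not at hcon
  apply hx
  have hb : algebraMap (𝓞 F) F (b : (𝓞 F)) ≠ 0 := by
    intro h
    have h1 : (b : (𝓞 F)) = 0 := RingOfIntegers.coe_injective (by rw [h]; exact (map_zero _).symm)
    exact nonZeroDivisors.ne_zero b.2 h1
  have h1 : (embF F) x * (eF F) (b : (𝓞 F)) = (eF F) a := by
    have := congrArg (embF F) hab
    rw [map_mul] at this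
    exact this
  have h2 : (eF F) (b : (𝓞 F)) ≠ 0 := eF_ne (nonZeroDivisors.ne_zero b.2)
  have h3 : (embF F) x = (eF F) a / (eF F) (b : (𝓞 F)) := (eq_div_iff h2).2 h1
  change ((embF F) x).im = 0
  rw [h3, Complex.div_im, hcon a, hcon (b : (𝓞 F))]
  simp

theorem LF_indep : LinearIndependent ℝ ![(eF F) (bF F 0), (eF F) (bF F 1)] := by
  rw [LinearIndependent.pair_iff]
  intro s t h
  by_contra hcon
  have hb0 : (eF F) (bF F 0) ≠ 0 := eF_ne ((bF F).ne_zero 0)
  have hb1 : (eF F) (bF F 1) ≠ 0 := eF_ne ((bF F).ne_zero 1)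
  rw [Complex.real_smul, Complex.real_smul] at h
  have ht : t ≠ 0 := by
    rintro rfl
    rw [Complex.ofReal_zero, zero_mul, add_zero] at h
    rcases mul_eq_zero.1 h with h1 | h1
    · exact hcon ⟨by exact_mod_cast h1, rfl⟩
    · exact hb0 h1
  have h1 : (eF F) (bF F 1) = ((-s / t : ℝ) : ℂ) * (eF F) (bF F 0) := by
    have : ((t : ℝ) : ℂ) ≠ 0 := by exact_mod_cast ht
    push_cast
    field_simp
    linear_combination h
  have h2 : ∀ x : (𝓞 F), ∃ r : ℝ, (eF F) x = (r : ℂ) * (eF F) (bF F 0) := by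
    intro x
    refine ⟨((bF F).repr x 0 : ℝ) + ((bF F).repr x 1 : ℝ) * (-s / t), ?_⟩
    rw [eF_repr x, h1]
    push_cast
    ring
  obtain ⟨r1, hr1⟩ := h2 1
  rw [map_one] at hr1
  have hr : (r1 : ℂ) ≠ 0 := by
    intro h0
    rw [h0, zero_mul] at hr1
    exact one_ne_zero hr1
  obtain ⟨x, hx⟩ := F0_im (F := F)
  obtain ⟨r, hrx⟩ := h2 x
  apply hx
  have h3 : (eF F) (bF F 0) = ((r1⁻¹ : ℝ) : ℂ) := by
    push_cast
    field_simp
    linear_combination -hr1
  rw [hrx, h3, ← Complex.ofReal_mul, Complex.ofReal_im]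

/-- The period lattice of integers. -/
noncomputable def LF (F : Type) [Field F] [NumberField F] [IQ F] : PeriodPair :=
  ⟨eF F (bF F 0), eF F (bF F 1), LF_indep⟩

theorem mem_LF (z : ℂ) : z ∈ (LF F).lattice ↔ ∃ y : (𝓞 F), z = (eF F) y := by
  rw [PeriodPair.mem_lattice]
  constructor
  · rintro ⟨m, n, h⟩
    refine ⟨(m : (𝓞 F)) * bF F 0 + (n : (𝓞 F)) * bF F 1, ?_⟩
    rw [← h, map_add, map_mul, map_mul, map_intCast, map_intCast]
    rfl
  · rintro ⟨y, rfl⟩
    exact ⟨(bF F).repr y 0, (bF F).repr y 1, (eF_repr y).symm⟩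

/-- Integers as lattice points. -/
noncomputable def LF_equiv (F : Type) [Field F] [NumberField F] [IQ F] : 𝓞 F ≃ (LF F).lattice :=
  Equiv.ofBijective (fun y => ⟨eF F y, (mem_LF _).2 ⟨y, rfl⟩⟩) (by
    constructor
    · intro x y h
      exact eF_inj (congrArg Subtype.val h)
    · rintro ⟨z, hz⟩
      obtain ⟨y, rfl⟩ := (mem_LF z).1 hz
      exact ⟨y, rfl⟩)

theorem LF_equiv_coe (y : (𝓞 F)) : ((LF_equiv F y : (LF F).lattice) : ℂ) = (eF F) y := rfl

theorem F0_cpx : (InfinitePlace.mk (embF F)).IsComplex := by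
  rw [InfinitePlace.isComplex_mk_iff]
  intro h
  obtain ⟨x, hx⟩ := IQ.im (F := F)
  apply hx
  have h1 := ComplexEmbedding.isReal_iff.1 h
  have h2 := RingHom.congr_fun h1 x
  rw [ComplexEmbedding.conjugate_coe_eq] at h2
  exact Complex.conj_eq_iff_im.1 h2

theorem F0_card : InfinitePlace.nrRealPlaces F = 0 ∧ InfinitePlace.nrComplexPlaces F = 1 := by
  classical
  have h := InfinitePlace.card_add_two_mul_card_eq_rank F
  rw [IQ.deg] at h
  have h1 : 0 < InfinitePlace.nrComplexPlaces F := by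
    unfold InfinitePlace.nrComplexPlaces
    rw [Fintype.card_pos_iff]
    exact ⟨⟨_, F0_cpx⟩⟩
  omega

theorem F0_place (w : InfinitePlace F) : w = InfinitePlace.mk (embF F) := by
  classical
  have h := F0_card (F := F)
  have h1 : w.IsComplex := by
    rw [← InfinitePlace.not_isReal_iff_isComplex]
    intro hr
    have : 0 < InfinitePlace.nrRealPlaces F := by
      unfold InfinitePlace.nrRealPlaces
      rw [Fintype.card_pos_iff]
      exact ⟨⟨w, hr⟩⟩
    omega
  have h2 := h.2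
  unfold InfinitePlace.nrComplexPlaces at h2
  have h3 := Fintype.card_le_one_iff.1 h2.le ⟨w, h1⟩ ⟨_, F0_cpx⟩
  exact congrArg Subtype.val h3

theorem Nm_eq (x : (𝓞 F)) : (Nm x : ℝ) = ‖(eF F) x‖ ^ 2 := by
  have h1 := InfinitePlace.prod_eq_abs_norm (x : F)
  have h2 : ∏ w : InfinitePlace F, w (x : F) ^ w.mult = ‖(eF F) x‖ ^ 2 := by
    have : Unique (InfinitePlace F) := ⟨⟨InfinitePlace.mk (embF F)⟩, F0_place⟩
    rw [Fintype.prod_unique]
    have h3 : (default : InfinitePlace F) = InfinitePlace.mk (embF F) := F0_place _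
    rw [h3, InfinitePlace.mult_isComplex ⟨_, F0_cpx⟩, InfinitePlace.apply]
    rfl
  rw [h2] at h1
  rw [h1]
  unfold Nm
  rw [Ideal.absNorm_span_singleton]
  have h4 : Algebra.norm ℚ (x : F) = ((Algebra.norm ℤ x : ℤ) : ℚ) := by
    rw [← Algebra.coe_norm_int]
  rw [h4]
  rw [Nat.cast_natAbs]
  push_cast
  rfl

theorem one_le_e {x : (𝓞 F)} (hx : x ≠ 0) : 1 ≤ ‖(eF F) x‖ := by
  have h1 := Nm_eq x
  have h2 : 1 ≤ Nm x := Nat.one_le_iff_ne_zero.2 fun h0 => hx (Nm_eq_zero.1 h0)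
  have h3 : (1 : ℝ) ≤ Nm x := by exact_mod_cast h2
  rw [h1] at h3
  nlinarith [norm_nonneg ((eF F) x)]

theorem summable_e {r : ℝ} (hr : 2 < r) : Summable (fun x : (𝓞 F) => (1 + ‖(eF F) x‖) ^ (-r)) := by
  have h1 : Summable fun z : (LF F).lattice => ‖(z : ℂ)‖ ^ (-r) := by
    refine ZLattice.summable_norm_rpow (L := (LF F).lattice) (-r) ?_
    rw [PeriodPair.finrank_lattice]
    push_cast
    linarith
  rw [← (LF_equiv F).summable_iff] at h1
  refine h1.of_norm_bounded_eventually ?_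
  rw [Filter.eventually_cofinite]
  refine Set.Finite.subset (Set.finite_singleton (0 : (𝓞 F))) ?_
  intro x hx
  rw [Set.mem_singleton_iff]
  by_contra hne
  apply hx
  have h2 : 0 < ‖(eF F) x‖ := norm_pos_iff.2 (eF_ne hne)
  rw [Real.norm_of_nonneg (by positivity)]
  change (1 + ‖(eF F) x‖) ^ (-r) ≤ ‖(eF F) x‖ ^ (-r)
  exact Real.rpow_le_rpow_of_nonpos h2 (by linarith) (by linarith)

end H55P
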