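import Mathlib
import Pool.Agent.Lib.H55P.F0

/-! Definitions for the elliptic part: Eisenstein sums with a cutoff, periods of y^2 = x^3 + A x + B. -/

open NumberField IsDedekindDomain

namespace H55P

/-- The first Eisenstein sum of the lattice of integers with a rational cutoff. -/
noncomputable def sR (F : Type) [Field F] [NumberField F] [IQ F] (R : ℝ) (z : ℂ) : ℂ :=
  ∑' x : 𝓞 F, (z + eF F x)⁻¹ * ((R ^ 2 / (R ^ 2 + ‖z + eF F x‖ ^ 2) : ℝ) : ℂ)

/-- The period lattice of y^2 = x^3 + A x + B is Om times the lattice of integers of F. -/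
structure Per (F : Type) [Field F] [NumberField F] [IQ F] (A B Om : ℂ) : Prop where
  ne : Om ≠ 0
  g2 : (LF F).g₂ = -4 * A * Om ^ 4
  g3 : (LF F).g₃ = -4 * B * Om ^ 6

/-- y^2 = x^3 + A x + B has good reduction at V, of residue characteristic not 2. -/
structure GoodV {k : Type} [Field k] (A B : k) (V : ValuationSubring k) : Prop where
  a : A ∈ V
  b : B ∈ V
  two : V.valuation 2 = 1
  disc : V.valuation (4 * A ^ 3 + 27 * B ^ 2) = 1

end H55P
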