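import Mathlib
import Pool.Agent.Lib.H55P.Defs

open NumberField IsDedekindDomain

namespace H55P

open H55N

variable {F : Type} [Field F] [NumberField F] [IQ F]

open H55B (g)

/-! Chunk A1 (M). The embeddings over F, norm and trace. PROOF. letI := emb.toAlgebra (so C is an F-algebra). K/F is
finite separable, C is algebraically closed, so the F-algebra maps K -> C number finrank F K
(AlgHom.card); σ = a bijection with Fin (m+1), composed with AlgHom.toRingHom. A ring homomorphism tau with
tau (algebraMap F K x) = (embF F) x IS an F-algebra map. For σ with Emb F σ the map i -> σ i (as AlgHom) is injective between finite types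
of the same cardinality, hence bijective; then Algebra.norm_eq_prod_embeddings, trace_eq_sum_embeddings, reindexed. -/

/-- The algebra structure given by the fixed embedding. -/
@[reducible] noncomputable def a1Alg : Algebra F ℂ := (embF F).toAlgebra

attribute [local instance] a1Alg

theorem a1_algebraMap (x : F) : algebraMap F ℂ x = (embF F) x := rfl

/-- The embedding as an algebra homomorphism. -/
noncomputable def a1Hom {K : Type} [Field K] [NumberField K] [Algebra F K] {m : ℕ}
    {σ : Fin (m + 1) → K →+* ℂ} (h : Emb F σ) (i : Fin (m + 1)) : K →ₐ[F] ℂ :=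
  { σ i with commutes' := fun x => h.ovr i x }

theorem a1_fin {K : Type} [Field K] [NumberField K] [Algebra F K] {m : ℕ}
    (hm : Module.finrank F K = m + 1) : FiniteDimensional F K :=
  Module.finite_of_finrank_pos (by omega)

theorem a1_bij {K : Type} [Field K] [NumberField K] [Algebra F K] {m : ℕ}
    {σ : Fin (m + 1) → K →+* ℂ} (h : Emb F σ) : Function.Bijective (a1Hom h) := by
  haveI := a1_fin h.fin
  rw [Fintype.bijective_iff_injective_and_card]
  refine ⟨fun i j hij => h.inj ?_, ?_⟩
  · ext x
    exact DFunLike.congr_fun hij x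
  · rw [AlgHom.card F K ℂ, h.fin, Fintype.card_fin]

theorem emb_exists (K : Type) [Field K] [NumberField K] [Algebra F K] (m : ℕ)
    (hm : Module.finrank F K = m + 1) : ∃ σ : Fin (m + 1) → K →+* ℂ, Emb F σ := by
  haveI := a1_fin hm
  have hc : Fintype.card (K →ₐ[F] ℂ) = m + 1 := by
    rw [AlgHom.card F K ℂ, hm]
  have eq : Fin (m + 1) ≃ (K →ₐ[F] ℂ) :=
    Fintype.equivOfCardEq (by rw [hc, Fintype.card_fin])
  refine ⟨fun i => (eq i : K →ₐ[F] ℂ).toRingHom, ⟨fun i x => (eq i).commutes x, ?_, hm⟩⟩
  intro i j hij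
  apply eq.injective
  ext x
  exact DFunLike.congr_fun hij x

theorem norm_eq {K : Type} [Field K] [NumberField K] [Algebra F K] {m : ℕ}
    {σ : Fin (m + 1) → K →+* ℂ} (h : Emb F σ) (x : K) : ∏ i, σ i x = (embF F) (Algebra.norm F x) := by
  haveI := a1_fin h.fin
  rw [← a1_algebraMap, Algebra.norm_eq_prod_embeddings F ℂ x, ← (a1_bij h).prod_comp]
  rfl

theorem trace_eq {K : Type} [Field K] [NumberField K] [Algebra F K] {m : ℕ}
    {σ : Fin (m + 1) → K →+* ℂ} (h : Emb F σ) (x : K) :
    ∑ i, σ i x = (embF F) (Algebra.trace F K x) := by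
  haveI := a1_fin h.fin
  rw [← a1_algebraMap, trace_eq_sum_embeddings ℂ (K := F) (x := x), ← (a1_bij h).sum_comp]
  rfl

theorem emb_all {K : Type} [Field K] [NumberField K] [Algebra F K] {m : ℕ}
    {σ : Fin (m + 1) → K →+* ℂ} (h : Emb F σ) (τ : K →+* ℂ)
    (hτ : ∀ x : F, τ (algebraMap F K x) = (embF F) x) : ∃ i, τ = σ i := by
  obtain ⟨i, hi⟩ := (a1_bij h).2 ({ τ with commutes' := hτ } : K →ₐ[F] ℂ)
  refine ⟨i, ?_⟩
  ext x
  exact (DFunLike.congr_fun hi x).symm

end H55P
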