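import Mathlib
import Pool.Agent.Lib.H55P.Defs

/-! Simple facts used everywhere. -/

open NumberField IsDedekindDomain

namespace H55P

open H55N
open H55B (g)

variable {F : Type} [Field F] [NumberField F] [IQ F] {K : Type} [Field K] [NumberField K]
  [Algebra F K] {m : ℕ}

namespace Ctx

variable (D : Ctx F K m)

theorem mem_X (x : 𝓞 K) : x ∈ D.X ↔ x - D.c₀ ∈ D.I := Iff.rfl

theorem X_sub {x y : 𝓞 K} (hx : x ∈ D.X) (hy : y ∈ D.I) : x - y ∈ D.X := by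
  rw [mem_X] at hx ⊢
  have : x - y - D.c₀ = (x - D.c₀) - y := by ring
  rw [this]
  exact D.I.sub_mem hx hy

theorem X_add {x y : 𝓞 K} (hx : x ∈ D.X) (hy : y ∈ D.I) : x + y ∈ D.X := by
  rw [mem_X] at hx ⊢
  have : x + y - D.c₀ = (x - D.c₀) + y := by ring
  rw [this]
  exact D.I.add_mem hx hy

theorem X_ne (h : D.c₀ ∉ D.I) {x : 𝓞 K} (hx : x ∈ D.X) : x ≠ 0 := by
  rintro rfl
  rw [mem_X, zero_sub] at hx
  exact h (neg_mem_iff.1 hx)

theorem Tr_add (a : K) (x y : 𝓞 K) : D.Tr a (x + y) = D.Tr a x + D.Tr a y := by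
  simp only [Tr, map_add, add_mul, Finset.sum_add_distrib]

theorem Tr_sub (a : K) (x y : 𝓞 K) : D.Tr a (x - y) = D.Tr a x - D.Tr a y := by
  simp only [Tr, map_sub, sub_mul, Finset.sum_sub_distrib]

theorem Tr_zero (a : K) : D.Tr a 0 = 0 := by
  simp [Tr]

theorem one_le_sz (x : 𝓞 K) : 1 ≤ D.sz x := by
  unfold sz
  have : 0 ≤ ∑ i, ‖D.σ i x‖ := Finset.sum_nonneg fun i _ => norm_nonneg _
  linarith

theorem sz_pos (x : 𝓞 K) : 0 < D.sz x := lt_of_lt_of_le one_pos (D.one_le_sz x)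

theorem norm_le_sz (x : 𝓞 K) (i : Fin (m + 1)) : ‖D.σ i x‖ ≤ D.sz x := by
  unfold sz
  have : ‖D.σ i x‖ ≤ ∑ i, ‖D.σ i x‖ :=
    Finset.single_le_sum (f := fun i => ‖D.σ i x‖) (fun i _ => norm_nonneg _) (Finset.mem_univ i)
  linarith

end Ctx

/-- The gain 1/sz in every direction. -/
noncomputable def Ctx.gs (D : Ctx F K m) {ι : Type} (_ : ι) (x : 𝓞 K) : ℝ := (D.sz x)⁻¹

end H55P
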