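import Mathlib
import Pool.Agent.Lib.H55P.A1
import Pool.Agent.Lib.H55P.Basic
import Pool.Agent.Lib.H55P.F0

open NumberField IsDedekindDomain

namespace H55P

open H55N
open H55B (g)

variable {F : Type} [Field F] [NumberField F] [IQ F] {K : Type} [Field K] [NumberField K] [Algebra F K] {m : ℕ}

/-! Chunk A2 (M). Nonvanishing determinants and lower bounds.
(1) det (σ_i (A_k)) is nonzero for A linearly independent over F: distinct ring homomorphisms K -> C are linearly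
independent over C (linearIndependent_monoidHom); if c is a vector with sum_i c_i σ_i(A_k) = 0 for all k, then sum_i c_i σ_i(y) = 0 for
all y in K (A is an F-basis of K by Emb.fin: m+1 independent vectors; y = sum_k f_k A_k, σ_i f_k = (embF F) f_k), hence c = 0.
(2) For x in O_K nonzero the norm N_{K/F} x is a nonzero element y of O and |e y| >= 1 (|e y|^2 = Nm y, H55B.Nm_eq, is a
positive natural number), and prod |σ_i x| = |(embF F) (norm x)| (norm_eq).
(3) Tr_eq: definition, trace_eq. (4) If D.Tr (A k) x = D.Tr (A k) y for all k then x = y, for A independent: the trace form is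
nondegenerate, or directly from (1). -/

theorem det_ne {σ : Fin (m + 1) → K →+* ℂ} (h : Emb F σ) (A : Fin (m + 1) → K)
    (hA : LinearIndependent F A) :
    Matrix.det (Matrix.of fun k i : Fin (m + 1) => σ i (A k)) ≠ 0 := by
  haveI := a1_fin h.fin
  intro hdet
  obtain ⟨c, hc, hc0⟩ := Matrix.exists_mulVec_eq_zero_iff.2 hdet
  apply hc
  have h1 : ∀ k, ∑ i, σ i (A k) * c i = 0 := fun k => congrFun hc0 k
  have hspan : Submodule.span F (Set.range A) = ⊤ :=
    hA.span_eq_top_of_card_eq_finrank (by rw [h.fin, Fintype.card_fin])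
  have h2 : ∀ y : K, ∑ i, σ i y * c i = 0 := by
    intro y
    have hy : y ∈ Submodule.span F (Set.range A) := by rw [hspan]; trivial
    induction hy using Submodule.span_induction with
    | mem x hx =>
      obtain ⟨k, rfl⟩ := hx
      exact h1 k
    | zero => simp
    | add x y _ _ hx hy =>
      simp only [map_add, add_mul, Finset.sum_add_distrib]
      rw [hx, hy, add_zero]
    | smul a x _ hx =>
      have : ∀ i, σ i (a • x) * c i = (embF F) a * (σ i x * c i) := by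
        intro i
        rw [Algebra.smul_def, map_mul, h.ovr, mul_assoc]
      rw [Finset.sum_congr rfl fun i _ => this i, ← Finset.mul_sum, hx, mul_zero]
  have hli : LinearIndependent ℂ (fun i : Fin (m + 1) => ((σ i : K →* ℂ) : K → ℂ)) := by
    apply (linearIndependent_monoidHom K ℂ).comp (fun i : Fin (m + 1) => (σ i : K →* ℂ))
    intro i j hij
    apply h.inj
    ext x
    exact DFunLike.congr_fun hij x
  funext i
  refine Fintype.linearIndependent_iff.1 hli c ?_ i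
  funext y
  rw [Finset.sum_apply]
  simp only [Pi.smul_apply, smul_eq_mul, Pi.zero_apply]
  rw [← h2 y]
  refine Finset.sum_congr rfl fun i _ => ?_
  rw [mul_comm]
  rfl

theorem a2_norm_int {σ : Fin (m + 1) → K →+* ℂ} (h : Emb F σ) (x : 𝓞 K) (hx : x ≠ 0) :
    ∃ y : (𝓞 F), y ≠ 0 ∧ (embF F) (Algebra.norm F (x : K)) = (eF F) y := by
  haveI := a1_fin h.fin
  have hi : IsIntegral ℤ (Algebra.norm F (x : K)) := Algebra.isIntegral_norm F x.2
  refine ⟨⟨Algebra.norm F (x : K), hi⟩, ?_, rfl⟩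
  intro h0
  have h1 : Algebra.norm F (x : K) = 0 := congrArg (algebraMap (𝓞 F) F) h0
  rw [Algebra.norm_eq_zero_iff] at h1
  apply hx
  exact RingOfIntegers.coe_injective (h1.trans (map_zero (algebraMap (𝓞 K) K)).symm)

theorem one_le_norm {σ : Fin (m + 1) → K →+* ℂ} (h : Emb F σ) (x : 𝓞 K) (hx : x ≠ 0) :
    1 ≤ ∏ i, ‖σ i (x : K)‖ := by
  obtain ⟨y, hy, hxy⟩ := a2_norm_int h x hx
  rw [← norm_prod, norm_eq h, hxy]
  have h1 := Nm_eq y
  have h2 : 1 ≤ Nm y := by
    rw [Nat.one_le_iff_ne_zero]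
    exact fun h0 => hy (Nm_eq_zero.1 h0)
  have h3 : (1 : ℝ) ≤ Nm y := by exact_mod_cast h2
  rw [h1] at h3
  nlinarith [norm_nonneg ((eF F) y)]

theorem Tr_eq (D : Ctx F K m) (h : Emb F D.σ) (a : K) (x : 𝓞 K) :
    D.Tr a x = (embF F) (Algebra.trace F K ((x : K) * a)) := by
  unfold Ctx.Tr
  exact trace_eq h _

theorem Tr_inj (D : Ctx F K m) (h : Emb F D.σ) (A : Fin (m + 1) → K) (hA : LinearIndependent F A)
    (x y : 𝓞 K) (hxy : ∀ k, D.Tr (A k) x = D.Tr (A k) y) : x = y := by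
  have h1 : (Matrix.of fun k i : Fin (m + 1) => D.σ i (A k)).mulVec
      (fun i => D.σ i ((x - y : 𝓞 K) : K)) = 0 := by
    funext k
    have h2 : D.Tr (A k) (x - y) = 0 := by rw [Ctx.Tr_sub, hxy k, sub_self]
    rw [Pi.zero_apply, ← h2]
    unfold Ctx.Tr
    rw [Matrix.mulVec, dotProduct]
    refine Finset.sum_congr rfl fun i _ => ?_
    rw [map_mul, mul_comm]
    rfl
  have h2 := Matrix.eq_zero_of_mulVec_eq_zero (det_ne h A hA) h1
  have h3 := congrFun h2 0
  have h4 : ((x - y : 𝓞 K) : K) = 0 := by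
    have : D.σ 0 ((x - y : 𝓞 K) : K) = 0 := h3
    exact (map_eq_zero _).1 this
  have h5 : x - y = 0 := RingOfIntegers.coe_injective (h4.trans (map_zero (algebraMap (𝓞 K) K)).symm)
  exact sub_eq_zero.1 h5

/-- Every x has a conjugate of absolute value at least 1, hence sz x <= 2 * (sum of |x_i|). -/
theorem sz_le (D : Ctx F K m) (h : Emb F D.σ) (x : 𝓞 K) (hx : x ≠ 0) :
    1 ≤ ∑ i, ‖D.σ i x‖ ∧ D.sz x ≤ 2 * ∑ i, ‖D.σ i x‖ := by
  have h1 := one_le_norm h x hx
  have h2 : ∃ i, 1 ≤ ‖D.σ i x‖ := by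
    by_contra hc
    push Not at hc
    have h3 : ∏ i, ‖D.σ i (x : K)‖ < ∏ _i : Fin (m + 1), (1 : ℝ) := by
      apply Finset.prod_lt_prod_of_nonempty
      · intro i _
        rw [norm_pos_iff, Ne, map_eq_zero]
        intro h0
        exact hx (RingOfIntegers.coe_injective (h0.trans (map_zero (algebraMap (𝓞 K) K)).symm))
      · intro i _
        exact hc i
      · exact Finset.univ_nonempty
    rw [Finset.prod_const_one] at h3
    linarith
  obtain ⟨i, hi⟩ := h2
  have h3 : ‖D.σ i x‖ ≤ ∑ i, ‖D.σ i x‖ :=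
    Finset.single_le_sum (f := fun i => ‖D.σ i x‖) (fun i _ => norm_nonneg _) (Finset.mem_univ i)
  refine ⟨by linarith, ?_⟩
  unfold Ctx.sz
  linarith

/-- Lower bound for the quadratic forms. -/
theorem Q_low (D : Ctx F K m) (h : Emb F D.σ) (a : ℝ) (ha : 0 < a) : ∃ c : ℝ, 0 < c ∧
    ∀ t : Fin (m + 1) → ℝ, (∀ i, a ≤ t i) → ∀ x : 𝓞 K, x ≠ 0 → c * D.sz x ^ 2 ≤ D.Q t x := by
  refine ⟨a / (4 * (m + 1)), by positivity, fun t ht x hx => ?_⟩
  obtain ⟨h1, h2⟩ := sz_le D h x hx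
  have h3 : (∑ i, ‖D.σ i x‖) ^ 2 ≤ (m + 1) * ∑ i, ‖D.σ i x‖ ^ 2 := by
    have := sq_sum_le_card_mul_sum_sq (s := (Finset.univ : Finset (Fin (m + 1))))
      (f := fun i => ‖D.σ i x‖)
    rw [Finset.card_univ, Fintype.card_fin] at this
    push_cast at this
    exact this
  have h4 : a * ∑ i, ‖D.σ i x‖ ^ 2 ≤ D.Q t x := by
    unfold Ctx.Q
    rw [Finset.mul_sum]
    exact Finset.sum_le_sum fun i _ => mul_le_mul_of_nonneg_right (ht i) (by positivity)
  have h5 : D.sz x ^ 2 ≤ (2 * ∑ i, ‖D.σ i x‖) ^ 2 :=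
    pow_le_pow_left₀ (D.sz_pos x).le h2 2
  have h6 : D.sz x ^ 2 ≤ 4 * ((m + 1) * ∑ i, ‖D.σ i x‖ ^ 2) := by nlinarith
  calc a / (4 * (m + 1)) * D.sz x ^ 2 ≤
      a / (4 * (m + 1)) * (4 * ((m + 1) * ∑ i, ‖D.σ i x‖ ^ 2)) :=
        mul_le_mul_of_nonneg_left h6 (by positivity)
    _ = a * ∑ i, ‖D.σ i x‖ ^ 2 := by field_simp
    _ ≤ _ := h4

/-- Upper bound for the quadratic forms. -/
theorem Q_up (D : Ctx F K m) (b : ℝ) (hb : 0 ≤ b) : ∃ c : ℝ, 0 < c ∧
    ∀ t : Fin (m + 1) → ℝ, (∀ i, |t i| ≤ b) → ∀ x : 𝓞 K, |D.Q t x| ≤ c * D.sz x ^ 2 := by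
  refine ⟨(m + 1) * b + 1, by positivity, fun t ht x => ?_⟩
  have h1 : |D.Q t x| ≤ ∑ _i : Fin (m + 1), b * D.sz x ^ 2 := by
    unfold Ctx.Q
    refine (Finset.abs_sum_le_sum_abs _ _).trans (Finset.sum_le_sum fun i _ => ?_)
    rw [abs_mul, abs_of_nonneg (by positivity : 0 ≤ ‖D.σ i x‖ ^ 2)]
    exact mul_le_mul (ht i) (pow_le_pow_left₀ (norm_nonneg _) (D.norm_le_sz x i) 2)
      (by positivity) hb
  rw [Finset.sum_const, Finset.card_univ, Fintype.card_fin, nsmul_eq_mul] at h1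
  push_cast at h1
  have := sq_nonneg (D.sz x)
  nlinarith

end H55P
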