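import Mathlib
import Pool.Agent.Lib.H55P.A2

open NumberField IsDedekindDomain

namespace H55P

open H55N
open H55B (g)

variable {F : Type} [Field F] [NumberField F] [IQ F] {K : Type} [Field K] [NumberField K]
  [Algebra F K] {m : ℕ}

/-! Definitions of the arithmetic part of the analytic core. -/

/-- The modulus M of a Hecke character, prime to p; l is a prime element dividing it; the only unit of O congruent to 1
modulo M is 1. -/
structure Mod (p : ℕ) (M : Ideal (𝓞 F)) (l : 𝓞 F) : Prop where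
  ne : M ≠ ⊥
  cop : IsCoprime M (Ideal.span {(p : 𝓞 F)})
  prime : Prime l
  le : M ≤ Ideal.span {l}
  unit : ∀ η : (𝓞 F)ˣ, (η : 𝓞 F) - 1 ∈ M → η = 1

/-- The ideal of K generated by the modulus. -/
noncomputable def mK (K : Type) [Field K] [NumberField K] [Algebra F K] (M : Ideal (𝓞 F)) : Ideal (𝓞 K) :=
  M.map (algebraMap (𝓞 F) (𝓞 K))

/-- p is unramified in K. -/
def UnrP (p : ℕ) (K : Type) [Field K] [NumberField K] : Prop := Squarefree (Ideal.span {(p : 𝓞 K)})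

/-- Rational labels. -/
structure LabP (p : ℕ) (l : 𝓞 F) (b : Ideal (𝓞 K)) (c₀ : 𝓞 K) (u : Fin m → (𝓞 K)ˣ)
    (L : (Fin m → ℤ) → K) : Prop where
  equi : ∀ a z : Fin m → ℤ, L (a + ((m + 1 : ℕ) : ℤ) • z) = ((uu u z : 𝓞 K) : K) * L a
  int : ∀ a, ∀ x ∈ b, ∃ y : 𝓞 F, Algebra.trace F K ((x : K) * L a) = algebraMap (𝓞 F) F y
  one : ∀ a, ∃ y : 𝓞 F, Algebra.trace F K ((c₀ : K) * L a) = algebraMap (𝓞 F) F (1 + l * y)
  cop : ∀ (a : Fin m → ℤ) (π : Equiv.Perm (Fin m)), ∃ d : 𝓞 F, IsCoprime d (p : 𝓞 F) ∧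
    ∀ y : Fin (m + 1) → 𝓞 F, ∃ x ∈ b, ∀ k : Fin (m + 1),
      Algebra.trace F K ((x : K) * L (kv a π k)) = algebraMap (𝓞 F) F (d * y k)

end H55P
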