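import Mathlib
import Pool.Agent.Lib.H55N.HD
import Pool.Agent.Lib.H55P.Defs
import Pool.Agent.Lib.H55P.GD

open NumberField IsDedekindDomain

namespace H55P

open H55N
open H55B (g)

variable {F : Type} [Field F] [NumberField F] [IQ F] {K : Type} [Field K] [NumberField K]
  [Algebra F K] {m : ℕ}

/-! Definitions for the tower part: Hecke characters with values in O, their base changes, L-series, characters of order p. -/

/-- ψ is a Hecke character of type (1,0) of F with values in O and modulus M. -/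
structure IsHecke (M : Ideal (𝓞 F)) (ψ : Ideal (𝓞 F) →*₀ 𝓞 F) : Prop where
  ne : M ≠ ⊥
  ntop : M ≠ ⊤
  gen : ∀ J, IsCoprime J M → Ideal.span {ψ J} = J
  zero : ∀ J, ¬ IsCoprime J M → ψ J = 0
  per : ∀ x y : 𝓞 F, IsCoprime (Ideal.span {x}) M → IsCoprime (Ideal.span {y}) M → x - y ∈ M →
    ψ (Ideal.span {x}) * y = ψ (Ideal.span {y}) * x

/-- The complex conjugate of the Hecke character over K, as a function on ideals. -/
noncomputable def PsiP (K : Type) [Field K] [NumberField K] [Algebra F K]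
    (ψ : Ideal (𝓞 F) →*₀ 𝓞 F) : Ideal (𝓞 K) →*₀ ℂ :=
  (((starRingEnd ℂ).comp (eF F)).toMonoidWithZeroHom.comp ψ).comp
    (Ideal.relNorm (𝓞 F) : Ideal (𝓞 K) →*₀ Ideal (𝓞 F))

theorem PsiP_apply (ψ : Ideal (𝓞 F) →*₀ 𝓞 F) (a : Ideal (𝓞 K)) :
    PsiP K ψ a = (starRingEnd ℂ) (eF F (ψ (Ideal.relNorm (𝓞 F) a))) := rfl

/-- The L-series of h converges for Re s > 3/2, continues to Re s > 1/2 and its value at 1, divided by
the power of the period, is a unit at V. -/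
def LVP (F : Type) [Field F] [NumberField F] [IQ F] {K : Type} [Field K] [NumberField K] [Algebra F K]
    (V : ValuationSubring ℂ) (Om : ℂ) (h : Ideal (𝓞 K) →*₀ ℂ) : Prop :=
  ∃ Λ : ℂ → ℂ, AnalyticOnNhd ℂ Λ {s | 1 / 2 < s.re} ∧
    (∀ s : ℂ, 3 / 2 < s.re → HasSum (tm h s) (Λ s)) ∧
    V.valuation (Λ 1 / Om ^ Module.finrank F K) = 1

/-- Characters of order dividing p with modulus f prime to p, on ideals. -/
structure PChr {K : Type} [Field K] [NumberField K] (p : ℕ) (f : Ideal (𝓞 K))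
    (χ : Ideal (𝓞 K) →*₀ ℂ) : Prop where
  ne : f ≠ ⊥
  cop : IsCoprime f (Ideal.span {(p : 𝓞 K)})
  val : ∀ a : Ideal (𝓞 K), a ≠ ⊥ → IsCoprime a f → χ a ^ p = 1
  zero : ∀ a : Ideal (𝓞 K), ¬ IsCoprime a f → χ a = 0
  per : ∀ x y : 𝓞 K, x ≠ 0 → y ≠ 0 → IsCoprime (Ideal.span {x}) f → x - y ∈ f →
    χ (Ideal.span {x}) = χ (Ideal.span {y})

/-- The decomposition law in a cyclic extension K'/K of prime degree p with character χ. -/
def SplitP (K K' : Type) [Field K] [NumberField K] [Field K'] [NumberField K'] [Algebra K K'] (p : ℕ)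
    (χ : Ideal (𝓞 K) →*₀ ℂ) : Prop :=
  ∀ w : HeightOneSpectrum (𝓞 K), ∃ T : Finset (HeightOneSpectrum (𝓞 K')),
    (∀ W, W ∈ T ↔ W.asIdeal.under (𝓞 K) = w.asIdeal) ∧
    ((χ w.asIdeal = 1 ∧ T.card = p ∧ ∀ W ∈ T, Ideal.relNorm (𝓞 K) W.asIdeal = w.asIdeal) ∨
     (χ w.asIdeal ^ p = 1 ∧ χ w.asIdeal ≠ 1 ∧ T.card = 1 ∧
       ∀ W ∈ T, Ideal.relNorm (𝓞 K) W.asIdeal = w.asIdeal ^ p) ∨
     (χ w.asIdeal = 0 ∧ T.card = 1 ∧ ∀ W ∈ T, Ideal.relNorm (𝓞 K) W.asIdeal = w.asIdeal))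

/-- The powers χ^(j+1). -/
noncomputable def chp {K : Type} [Field K] [NumberField K] (χ : Ideal (𝓞 K) →*₀ ℂ) :
    ℕ → (Ideal (𝓞 K) →*₀ ℂ)
  | 0 => χ
  | j + 1 => chp χ j * χ

theorem chp_apply {K : Type} [Field K] [NumberField K] (χ : Ideal (𝓞 K) →*₀ ℂ) (j : ℕ)
    (a : Ideal (𝓞 K)) : chp χ j a = χ a ^ (j + 1) := by
  induction j with
  | zero => simp [chp]
  | succ j ih =>
    show chp χ j a * χ a = _
    rw [ih, pow_succ (χ a) (j + 1)]

/-- There is an ideal a prime to p and M with 1 - Ψ(a) a unit at V. -/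
def NTP (K : Type) [Field K] [NumberField K] [Algebra F K] (p : ℕ) (M : Ideal (𝓞 F))
    (ψ : Ideal (𝓞 F) →*₀ 𝓞 F) (V : ValuationSubring ℂ) : Prop :=
  ∃ a : Ideal (𝓞 K), IsCoprime a (Ideal.span {(p : 𝓞 K)}) ∧ IsCoprime a (mK K M) ∧
    V.valuation (1 - PsiP K ψ a) = 1

end H55P
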