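import Mathlib
import Pool.Agent.Lib.H16C.FR2
import Pool.Agent.Lib.H55P.SD
import Pool.Agent.Lib.H55P.Sel

open NumberField IsDedekindDomain WeierstrassCurve
open scoped Pointwise

namespace H55P

variable {F : Type} [Field F] [NumberField F] {Ω : Type} [Field Ω] [DecidableEq Ω] [Algebra F Ω]
  [IsAlgClosed Ω] [Algebra.IsAlgebraic F Ω] [CharZero Ω]

/-! Chunk PS9 (M/L). Elements fixed by the decomposition group reduce into the residue field of M.
PROOF. G = Ω ≃ₐ[M] Ω (Galois group of Ω over M, profinite: the Krull topology instances), B = the integral closure of 𝓞 M (or of ℤ) in Ω with the action of G and the discrete topology, A = 𝓞 M, P = v, Q = the elements b of B with V.valuation b < 1 (all elements of B are in V).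
Algebra.IsInvariant A B G: an integer fixed by G is in M (Galois theory), so in 𝓞 M. ContinuousSMul: stabilizers are open. Ideal.Quotient.stabilizerHom_surjective_of_profinite (Mathlib/RingTheory/Invariant/Profinite.lean): the stabilizer of Q maps onto Aut((B/Q)/(A/P)). An element s of the stabilizer
of Q satisfies Dec V s: for x in Ω, x = b / c with b in B, c in A nonzero or better: V is the localization of B at Q: for x in V there are b, c in B, c not in Q, x = b / c (frac_rep in Lib/H16C/FR1.lean for the field F(x); if V.valuation q = 1 for all primes q, V is everything and the statement is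
trivial: then v = ⊥, excluded). A/P is a finite field, B/Q is algebraic over it and normal (Ideal.Quotient.normal or B/Q is algebraically closed), so it is Galois (perfect field) and the elements fixed by all automorphisms are in A/P. x = b / c with c not in Q; the class of b/c in B/Q (a field) is fixed by
the stabilizer since s x = x: s b / s c = b / c. So it is the class of an element a of A: b - a c in Q, V.valuation (x - a) < 1. An alternative is the finite level: N = a finite Galois extension of M containing x, and lifting of elements of the decomposition group of V ∩ N to Dec V. -/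

/-- fixed points of the Frobenius map -/
theorem ps9_fin {k L : Type} [Field k] [Fintype k] [Field L] (i : k →+* L) (y : L)
    (hy : y ^ Fintype.card k = y) : ∃ a : k, i a = y := by
  classical
  set f : Polynomial L := Polynomial.X ^ Fintype.card k - Polynomial.X with hf
  have hf0 : f ≠ 0 := FiniteField.X_pow_card_sub_X_ne_zero L Fintype.one_lt_card
  have hroot : ∀ z : L, z ∈ f.roots.toFinset ↔ z ^ Fintype.card k = z := by
    intro z
    rw [Multiset.mem_toFinset, Polynomial.mem_roots hf0, Polynomial.IsRoot.def, hf, Polynomial.eval_sub,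
      Polynomial.eval_pow, Polynomial.eval_X, sub_eq_zero]
  have hsub : (Finset.univ.image i) ⊆ f.roots.toFinset := by
    intro z hz
    obtain ⟨a, -, rfl⟩ := Finset.mem_image.1 hz
    rw [hroot, ← map_pow, FiniteField.pow_card]
  have hcard : f.roots.toFinset.card ≤ (Finset.univ.image i).card := by
    rw [Finset.card_image_of_injective _ i.injective, Finset.card_univ]
    calc f.roots.toFinset.card ≤ Multiset.card f.roots := Multiset.toFinset_card_le _
      _ ≤ f.natDegree := Polynomial.card_roots' f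
      _ = Fintype.card k := FiniteField.X_pow_card_sub_X_natDegree_eq L Fintype.one_lt_card
  have heq := Finset.eq_of_subset_of_card_le hsub hcard
  have hy' : y ∈ Finset.univ.image i := by
    rw [heq, hroot]
    exact hy
  obtain ⟨a, -, ha⟩ := Finset.mem_image.1 hy'
  exact ⟨a, ha⟩

theorem ps9_mem (V : ValuationSubring Ω) (z : 𝓞 Ω) : (z : Ω) ∈ V :=
  (V.valuation_le_one_iff _).1 (H16C.FR_le_one V z.isIntegral_coe)

/-- the map to V -/
noncomputable def ps9c (V : ValuationSubring Ω) : 𝓞 Ω →+* V :=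
  (algebraMap (𝓞 Ω) Ω).codRestrict V (fun x => ps9_mem V x)

/-- the prime of the algebraic integers below V -/
noncomputable def ps9Q (V : ValuationSubring Ω) : Ideal (𝓞 Ω) :=
  (IsLocalRing.maximalIdeal V).comap (ps9c V)

theorem ps9_lt (V : ValuationSubring Ω) (z : 𝓞 Ω) : z ∈ ps9Q V ↔ V.valuation (z : Ω) < 1 := by
  unfold ps9Q
  rw [Ideal.mem_comap, ValuationSubring.valuation_lt_one_iff]
  rfl

theorem ps9_prime (V : ValuationSubring Ω) : (ps9Q V).IsPrime := by
  unfold ps9Q
  infer_instance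

theorem ps9_one (V : ValuationSubring Ω) (z : 𝓞 Ω) : z ∉ ps9Q V ↔ V.valuation (z : Ω) = 1 := by
  rw [ps9_lt, not_lt]
  have h := (V.valuation_le_one_iff _).2 (ps9_mem V z)
  exact ⟨fun h1 => le_antisymm h h1, fun h1 => h1.ge⟩

/-- fractions -/
theorem ps9_frac (F : Type) [Field F] [NumberField F] [Algebra F Ω] [Algebra.IsAlgebraic F Ω] (V : ValuationSubring Ω) (q : ℕ) (hq : q.Prime) (hV : V.valuation (q : Ω) < 1) (x : Ω)
    (hx : x ∈ V) : ∃ a c : 𝓞 Ω, V.valuation (c : Ω) = 1 ∧ x = (a : Ω) / (c : Ω) := by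
  have hint : IsIntegral F x := Algebra.IsIntegral.isIntegral x
  have hfd : FiniteDimensional F (IntermediateField.adjoin F {x}) :=
    IntermediateField.adjoin.finiteDimensional hint
  obtain ⟨a, c, -, -, ha, hc, hc1, hxac⟩ := H16C.frac_rep (IntermediateField.adjoin F {x}) V q hq hV
    (IntermediateField.mem_adjoin_simple_self F x) ((V.valuation_le_one_iff _).2 hx)
  exact ⟨⟨a, ha⟩, ⟨c, hc⟩, hc1, hxac⟩

theorem ps9_inv (M : IntermediateField F Ω) [FiniteDimensional F M] :
    Algebra.IsInvariant (𝓞 M) (𝓞 Ω) Gal(Ω/M) := by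
  have hal : Algebra.IsAlgebraic M Ω := Algebra.IsAlgebraic.tower_top (K := F) M
  have hcl : IsAlgClosure M Ω := ⟨inferInstance, hal⟩
  have hc0 : CharZero M := charZero_of_injective_algebraMap (algebraMap F M).injective
  have hG : IsGalois M Ω := IsAlgClosure.isGalois M Ω
  refine ⟨fun x hx => ?_⟩
  have h1 : ∀ g : Gal(Ω/M), g (x : Ω) = x := fun g =>
    congrArg (fun y : 𝓞 Ω => (y : Ω)) (hx g)
  have h2 : (x : Ω) ∈ (⊥ : IntermediateField M Ω) := by
    rw [← InfiniteGalois.fixedField_bot]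
    rw [IntermediateField.mem_fixedField_iff]
    intro g _
    exact h1 g
  obtain ⟨y, hy⟩ := IntermediateField.mem_bot.1 h2
  have h3 : IsIntegral ℤ y := by
    have h4 : IsIntegral ℤ (algebraMap M Ω y) := by
      rw [hy]; exact x.isIntegral_coe
    exact (isIntegral_algebraMap_iff (algebraMap M Ω).injective).1 h4
  refine ⟨⟨y, h3⟩, ?_⟩
  apply RingOfIntegers.coe_injective
  exact hy

theorem ps9_dec (q : ℕ) (hq : q.Prime) (V : ValuationSubring Ω) (hV : V.valuation (q : Ω) < 1)
    (s : Ω ≃ₐ[F] Ω) (hs : ∀ z : 𝓞 Ω, ∀ w : 𝓞 Ω, (w : Ω) = s (z : Ω) → (w ∈ ps9Q V ↔ z ∈ ps9Q V)) (x : Ω)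
    (hx : x ∈ V) : s x ∈ V := by
  obtain ⟨a, c, hc, rfl⟩ := ps9_frac F V q hq hV x hx
  have hint : ∀ z : 𝓞 Ω, IsIntegral ℤ (s (z : Ω)) := fun z => z.isIntegral_coe.map (s.toAlgHom.restrictScalars ℤ)
  have h1 : V.valuation (s (c : Ω)) = 1 := by
    have h2 := (hs c ⟨s (c : Ω), hint c⟩ rfl)
    have h3 := (ps9_one V c).2 hc
    exact (ps9_one V ⟨s (c : Ω), hint c⟩).1 (fun h4 => h3 (h2.1 h4))
  rw [← V.valuation_le_one_iff, map_div₀ s, map_div₀, h1, div_one]
  exact H16C.FR_le_one V (hint a)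

theorem res_descent (M : IntermediateField F Ω) [FiniteDimensional F M] (V : ValuationSubring Ω)
    (v : HeightOneSpectrum (𝓞 M)) (hv : Below V M v.asIdeal) (x : Ω) (hx : x ∈ V)
    (hf : ∀ s ∈ M.fixingSubgroup, Dec V s → s x = x) :
    ∃ a : 𝓞 M, V.valuation (x - ((a : M) : Ω)) < 1 := by
  classical
  have hMn : NumberField M := NumberField.of_module_finite F M
  have hal : Algebra.IsAlgebraic M Ω := Algebra.IsAlgebraic.tower_top (K := F) M
  have hcl : IsAlgClosure M Ω := ⟨inferInstance, hal⟩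
  have hG : IsGalois M Ω := IsAlgClosure.isGalois M Ω
  have hvm := v.isMaximal
  let _ : Field (𝓞 M ⧸ v.asIdeal) := Ideal.Quotient.field v.asIdeal
  have hfin : Finite (𝓞 M ⧸ v.asIdeal) := Ideal.finiteQuotientOfFreeOfNeBot _ v.ne_bot
  let _ : Fintype (𝓞 M ⧸ v.asIdeal) := Fintype.ofFinite _
  -- the residue characteristic
  obtain ⟨q, hqc⟩ := CharP.exists (𝓞 M ⧸ v.asIdeal)
  have hq : q.Prime := by
    rcases CharP.char_is_prime_or_zero (𝓞 M ⧸ v.asIdeal) q with h | h
    · exact h
    · exact absurd h (CharP.char_ne_zero_of_finite (𝓞 M ⧸ v.asIdeal) q)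
  have hqv : (q : 𝓞 M) ∈ v.asIdeal := by
    rw [← Ideal.Quotient.eq_zero_iff_mem, map_natCast]
    exact CharP.cast_eq_zero _ q
  have hV : V.valuation (q : Ω) < 1 := by
    have h1 := (hv (q : 𝓞 M)).1 hqv
    simpa using h1
  -- the prime of the integers of Ω
  set Q : Ideal (𝓞 Ω) := ps9Q V with hQ
  have hQp : Q.IsPrime := ps9_prime V
  have hlo : Q.LiesOver v.asIdeal := by
    constructor
    ext z
    rw [hv z, Ideal.mem_comap, hQ, ps9_lt]
    rfl
  have hinv := ps9_inv (Ω := Ω) M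
  have hsc : SMulCommClass Gal(Ω/M) (𝓞 M) (𝓞 Ω) := by
    constructor
    intro g a z
    rw [Algebra.smul_def, Algebra.smul_def, smul_mul']
    congr 1
    apply RingOfIntegers.ext
    exact g.commutes (a : M)
  let _ : TopologicalSpace (𝓞 Ω) := ⊥
  have : DiscreteTopology (𝓞 Ω) := ⟨rfl⟩
  have hcont : ContinuousSMul Gal(Ω/M) (𝓞 Ω) := by
    rw [continuousSMul_iff_stabilizer_isOpen]
    intro z
    have h1 := stabilizer_isOpen_of_isIntegral (K := M) (z : Ω)
    convert! h1 using 1
    ext g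
    simp only [SetLike.mem_coe, MulAction.mem_stabilizer_iff]
    constructor
    · intro h
      exact congrArg (fun y : 𝓞 Ω => (y : Ω)) h
    · intro h
      exact RingOfIntegers.coe_injective h
  have hint : Algebra.IsIntegral (𝓞 M) (𝓞 Ω) := Algebra.IsInvariant.isIntegral_of_profinite (G := Gal(Ω/M))
  have hQm : Q.IsMaximal := Ideal.isMaximal_of_isIntegral_of_isMaximal_comap Q (by
    have h1 : v.asIdeal = Q.comap (algebraMap (𝓞 M) (𝓞 Ω)) := hlo.over
    rw [← h1]
    exact hvm)
  let _ : Field (𝓞 Ω ⧸ Q) := Ideal.Quotient.field Q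
  have halg : Algebra.IsAlgebraic (𝓞 M ⧸ v.asIdeal) (𝓞 Ω ⧸ Q) := by
    have : Algebra.IsIntegral (𝓞 M ⧸ v.asIdeal) (𝓞 Ω ⧸ Q) := inferInstance
    infer_instance
  obtain ⟨σ, hσ⟩ := Ideal.Quotient.stabilizerHom_surjective_of_profinite (G := Gal(Ω/M)) v.asIdeal Q
    (FiniteField.frobeniusAlgEquivOfAlgebraic (𝓞 M ⧸ v.asIdeal) (𝓞 Ω ⧸ Q))
  have hσ1 : ∀ z : 𝓞 Ω, (σ : Gal(Ω/M)) • z - z ^ Fintype.card (𝓞 M ⧸ v.asIdeal) ∈ Q := by
    intro z
    rw [← Ideal.Quotient.eq]
    exact DFunLike.congr_fun hσ (Ideal.Quotient.mk Q z)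
  -- the automorphism over F
  set s : Ω ≃ₐ[F] Ω := (σ : Gal(Ω/M)).restrictScalars F with hs
  have hsz : ∀ z : 𝓞 Ω, ((((σ : Gal(Ω/M)) • z : 𝓞 Ω)) : Ω) = s (z : Ω) := fun z => rfl
  have hsM : s ∈ M.fixingSubgroup := fun y => (σ : Gal(Ω/M)).commutes y
  have hmem : ∀ (τ : MulAction.stabilizer Gal(Ω/M) Q) (z : 𝓞 Ω), (τ : Gal(Ω/M)) • z ∈ Q ↔ z ∈ Q := by
    rintro ⟨g, hg⟩ z
    have h1 : g • Q = Q := hg
    have h2 : g • z ∈ g • Q ↔ z ∈ Q := Ideal.smul_mem_pointwise_smul_iff
    rwa [h1] at h2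
  have hdec1 : ∀ (τ : MulAction.stabilizer Gal(Ω/M) Q) (y : Ω), y ∈ V →
      ((τ : Gal(Ω/M)).restrictScalars F) y ∈ V := by
    intro τ y hy
    refine ps9_dec q hq V hV _ ?_ y hy
    intro z w hw
    have h1 : w = (τ : Gal(Ω/M)) • z := RingOfIntegers.coe_injective hw
    rw [h1]
    exact hmem τ z
  have hdec : Dec V s := by
    intro y
    refine ⟨fun h => ?_, hdec1 σ y⟩
    have h1 := hdec1 σ⁻¹ (s y) h
    have h2 : ((σ⁻¹ : MulAction.stabilizer Gal(Ω/M) Q) : Gal(Ω/M)).restrictScalars F (s y) = y :=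
      (σ : Gal(Ω/M)).symm_apply_apply y
    rwa [h2] at h1
  have hfix := hf s hsM hdec
  obtain ⟨a, c, hc, hxac⟩ := ps9_frac F V q hq hV x hx
  set N := Fintype.card (𝓞 M ⧸ v.asIdeal) with hN
  have key : ∀ z : 𝓞 Ω, V.valuation (s (z : Ω) - (z : Ω) ^ N) < 1 := by
    intro z
    have h1 := (ps9_lt V _).1 (hσ1 z)
    rw [← hsz z]
    simpa using h1
  have hxN : V.valuation (x - x ^ N) < 1 := by
    have h1 : V.valuation (s (a : Ω) / s (c : Ω) - (a : Ω) ^ N / (c : Ω) ^ N) < 1 := by
      refine H16C.FR_div_congr V (key a) (key c) ?_ ?_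
      · rw [map_pow]
        exact pow_le_one' (H16C.FR_le_one V a.isIntegral_coe) _
      · rw [map_pow, hc, one_pow]
    rw [← map_div₀ s, ← div_pow, ← hxac, hfix] at h1
    exact h1
  -- the residue field of V
  let i : (𝓞 M ⧸ v.asIdeal) →+* IsLocalRing.ResidueField V :=
    Ideal.Quotient.lift v.asIdeal ((IsLocalRing.residue V).comp ((ps9c V).comp (algebraMap (𝓞 M) (𝓞 Ω)))) (by
      intro z hz
      rw [RingHom.comp_apply, IsLocalRing.residue_eq_zero_iff, ValuationSubring.valuation_lt_one_iff]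
      exact (hv z).1 hz)
  obtain ⟨y, hy⟩ := ps9_fin i (IsLocalRing.residue V ⟨x, hx⟩) (by
    rw [← map_pow, ← sub_eq_zero, ← map_sub, IsLocalRing.residue_eq_zero_iff,
      ValuationSubring.valuation_lt_one_iff]
    rw [← Valuation.map_neg]
    have h1 : -(((⟨x, hx⟩ : V) ^ Fintype.card (𝓞 M ⧸ v.asIdeal) - ⟨x, hx⟩ : V) : Ω) = x - x ^ N := by
      push_cast
      ring
    rw [h1]
    exact hxN)
  obtain ⟨b, rfl⟩ := Ideal.Quotient.mk_surjective y
  refine ⟨b, ?_⟩
  have h1 : IsLocalRing.residue V (ps9c V (algebraMap (𝓞 M) (𝓞 Ω) b)) = IsLocalRing.residue V ⟨x, hx⟩ := hy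
  rw [eq_comm, ← sub_eq_zero, ← map_sub, IsLocalRing.residue_eq_zero_iff,
    ValuationSubring.valuation_lt_one_iff] at h1
  exact h1

end H55P
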