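import Mathlib
import Pool.Agent.Lib.H55P.EDef
import Pool.Agent.Lib.H55P.Stm
import Pool.Agent.Lib.H55P.TD

/-!
# H55P: the statement for all curves with complex multiplication by the integers of a field of class number one

F is an imaginary quadratic field of class number one, Ω = AlgebraicClosure F, W₀ a Weierstrass equation over the
integers of F, M and K number fields between F and Ω.
-/

open NumberField IsDedekindDomain WeierstrassCurve

namespace H55P

/-- W₀ is an elliptic curve over F with complex multiplication by the integers of F: its period lattice is Om times the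
lattice of integers (y^2 = x^3 - (c4/48) x - (c6/864) is isomorphic to W₀); ψ is a Hecke character of F of type (1,0)
with values in F and modulus m. -/
structure CMData (F : Type) [Field F] [NumberField F] [IQ F] (W₀ : WeierstrassCurve (𝓞 F)) (Om : ℂ)
    (m : Ideal (𝓞 F)) (ψ : Ideal (𝓞 F) →*₀ 𝓞 F) : Prop where
  ell : W₀.Δ ≠ 0
  per : Per F (-(eF F W₀.c₄) / 48) (-(eF F W₀.c₆) / 864) Om
  hecke : IsHecke m ψ

section fields

variable {F : Type} [Field F] [NumberField F] [IQ F]

/-- The prime v of M divides neither the discriminant of W₀ nor the modulus m nor p, and p divides neither the number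
of points of W₀ over the residue field nor the norm of 1 - ψ(N v), N the norm from M to F (by a theorem of Deuring these two
numbers are equal if ψ is the Hecke character of W₀). -/
structure GoodG (p : ℕ) (W₀ : WeierstrassCurve (𝓞 F)) (m : Ideal (𝓞 F)) (ψ : Ideal (𝓞 F) →*₀ 𝓞 F)
    (M : IntermediateField F (AlgebraicClosure F)) [NumberField M] (v : HeightOneSpectrum (𝓞 M)) : Prop where
  disc : algebraMap (𝓞 F) (𝓞 M) W₀.Δ ∉ v.asIdeal
  modulus : ¬ mK M m ≤ v.asIdeal
  res : (p : 𝓞 M) ∉ v.asIdeal
  pts : ¬ p ∣ Nat.card (W₀⁄(𝓞 M ⧸ v.asIdeal)).toAffine.Point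
  hecke : ¬ p ∣ Ideal.absNorm (Ideal.span {1 - ψ (Ideal.relNorm (𝓞 F) v.asIdeal)})

open Classical in
/-- The p-Selmer group of W₀ over M is zero (cocycles on the absolute Galois group of M). -/
def SelG (p : ℕ) (W₀ : WeierstrassCurve (𝓞 F)) (M : IntermediateField F (AlgebraicClosure F)) : Prop :=
  SelZero (W₀⁄F) p M

open Classical in
/-- The p-torsion of the Tate-Shafarevich group of W₀ over M is zero. -/
def ShaG (p : ℕ) (W₀ : WeierstrassCurve (𝓞 F)) (M : IntermediateField F (AlgebraicClosure F)) : Prop :=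
  ShaZero (W₀⁄F) p M

/-- The Hecke L-series of the complex conjugate of ψ ∘ N over M, absolutely convergent for Re s > 3/2, continues to
Re s > 1/2, does not vanish at 1 and its value at 1 divided by the power of the period is a p-adic unit. -/
def ValG (p : ℕ) (Om : ℂ) (ψ : Ideal (𝓞 F) →*₀ 𝓞 F) (M : IntermediateField F (AlgebraicClosure F))
    [NumberField M] : Prop :=
  ∃ Λ : ℂ → ℂ, AnalyticOnNhd ℂ Λ {s | 1 / 2 < s.re} ∧
    (∀ s : ℂ, 3 / 2 < s.re → HasSum (H55N.tm (PsiP M ψ) s) (Λ s)) ∧ Λ 1 ≠ 0 ∧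
    UnitP p (Λ 1 / Om ^ Module.finrank F M)

/-- The Hecke L-series of the complex conjugate of ψ ∘ N over M, absolutely convergent for Re s > 3/2, continues to
Re s > 1/2, and its value at 1 divided by the power of the period is integral above p: in all valuation rings of the complex
numbers above p (in particular it is an algebraic number). -/
def IntG (p : ℕ) (Om : ℂ) (ψ : Ideal (𝓞 F) →*₀ 𝓞 F) (M : IntermediateField F (AlgebraicClosure F))
    [NumberField M] : Prop :=
  ∃ Λ : ℂ → ℂ, AnalyticOnNhd ℂ Λ {s | 1 / 2 < s.re} ∧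
    (∀ s : ℂ, 3 / 2 < s.re → HasSum (H55N.tm (PsiP M ψ) s) (Λ s)) ∧
    ∀ A : ValuationSubring ℂ, A.valuation (p : ℂ) < 1 → Λ 1 / Om ^ Module.finrank F M ∈ A

/-- The group of points of W₀ over M is finite of order prime to p. -/
def PtsG (p : ℕ) (W₀ : WeierstrassCurve (𝓞 F)) (M : IntermediateField F (AlgebraicClosure F)) : Prop :=
  Finite ((W₀⁄F)⁄M).toAffine.Point ∧ ¬ p ∣ Nat.card ((W₀⁄F)⁄M).toAffine.Point

/-- The Euler product of the L-function of W₀ over M is the one of ψ and its conjugate (a theorem of Deuring if ψ is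
the Hecke character of W₀ and the primes dividing m remain of bad reduction over M). -/
def DeuG (W₀ : WeierstrassCurve (𝓞 F)) (ψ : Ideal (𝓞 F) →*₀ 𝓞 F)
    (M : IntermediateField F (AlgebraicClosure F)) [NumberField M] : Prop :=
  ∀ n : ℕ, ((((W₀⁄F)⁄M).LFunction n : ℤ) : ℂ) =
    (H55N.AI (PsiP M ψ) * H55N.AI (fun a => (starRingEnd ℂ) (PsiP M ψ a))) n

/-- The L-series of W₀ over M converges absolutely for Re s > 3/2, continues to Re s > 1/2, does not vanish at 1, and its
value at 1 divided by the power of the square of the absolute value of the period is a p-adic unit. -/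
def LvalG (p : ℕ) (W₀ : WeierstrassCurve (𝓞 F)) (Om : ℂ) (M : IntermediateField F (AlgebraicClosure F))
    [NumberField M] : Prop :=
  ∃ Λ : ℂ → ℂ, AnalyticOnNhd ℂ Λ {s | 1 / 2 < s.re} ∧
    (∀ s : ℂ, 3 / 2 < s.re →
      LSeriesSummable (fun n => ((((W₀⁄F)⁄M).LFunction n : ℤ) : ℂ)) s ∧
      Λ s = ((W₀⁄F)⁄M).LSeries s) ∧ Λ 1 ≠ 0 ∧
    UnitP p (Λ 1 / ((‖Om‖ ^ 2 : ℝ) : ℂ) ^ Module.finrank F M)

end fields

end H55P
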