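import Mathlib
import Pool.Agent.Lib.H55P.GD
import Pool.Agent.Lib.H55P.SD

open NumberField IsDedekindDomain WeierstrassCurve

namespace H55P

section gen

variable {F : Type} [Field F] [NumberField F] {Ω : Type} [Field Ω] [Algebra F Ω]

/-- The prime v of F is ramified in L. -/
def RamF (L : IntermediateField F Ω) (v : Ideal (𝓞 F)) : Prop :=
  ∃ W : Ideal (𝓞 L), W.IsPrime ∧ v.map (algebraMap (𝓞 F) (𝓞 L)) ≤ W ^ 2

/-! Chunk PZ10 (M). Conversions.
bot_conv: the ring homomorphism algebraMap : 𝓞 F → 𝓞 ⊥ is bijective (IntermediateField.botEquiv; see T2_equiv in Lib/H55N/T2.lean), v₀ = the inverse image of v. Ram: unfold, x in v₀. The residue rings are isomorphic as O_F-algebras, so the sets of points are in bijection: a point (x, y) goes to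
(f x, f y) (Affine.map_nonsingular, Affine.Point is an inductive type: build the Equiv, or use nonsingularPointEquiv and Nat.card_congr).
unr_sub: e(W|v) = e(W|w) e(w|v) (Ideal.ramificationIdx_tower), W a prime of L above w: if e(W|v) >= 2 then v.map <= W^2, so RamF. unrP_sub: let W be a prime of L with W^2 dividing (p) (a nonunit square divisor has a prime factor), v = W ∩ F. hsq: (p) = v a with v not dividing a; if v.map is not contained
in W^2 then W does not divide a.map (W ∩ F = v does not contain a) and W^2 does not divide v.map * a.map (multiplicities of the prime W), contradiction. So RamF L v and p not in v, but p is in v. -/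

/-- The points of a curve over isomorphic fields. -/
theorem pz10_card {A B : Type} [CommRing A] [CommRing B] (W : WeierstrassCurve A) (f : A ≃+* B) :
    Nat.card ((W.map (f : A →+* B)).toAffine.Point) = Nat.card W.toAffine.Point := by
  have h : ∀ x y, (W.map (f : A →+* B)).toAffine.Nonsingular ((f : A →+* B) x) ((f : A →+* B) y) ↔
      W.toAffine.Nonsingular x y := fun x y =>
    WeierstrassCurve.Affine.map_nonsingular (W := W.toAffine) (f := (f : A →+* B)) f.injective x y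
  have h' : ∀ x y, (W.map (f : A →+* B)).toAffine.Nonsingular x y →
      W.toAffine.Nonsingular (f.symm x) (f.symm y) := by
    intro x y hxy
    rw [← h]
    show (W.map (f : A →+* B)).toAffine.Nonsingular (f (f.symm x)) (f (f.symm y))
    rw [f.apply_symm_apply, f.apply_symm_apply]
    exact hxy
  have hsome : ∀ {R : Type} [CommRing R] (V : WeierstrassCurve.Affine R) {x y x' y' : R}
      (hx : x = x') (hy : y = y') (h1 : V.Nonsingular x y) (h2 : V.Nonsingular x' y'),
      WeierstrassCurve.Affine.Point.some x y h1 = WeierstrassCurve.Affine.Point.some x' y' h2 := by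
    intro R _ V x y x' y' hx hy h1 h2
    subst hx
    subst hy
    rfl
  refine Nat.card_congr ?_
  refine
    { toFun := fun P => match P with
        | .zero => .zero
        | .some x y hxy => .some (f.symm x) (f.symm y) (h' x y hxy)
      invFun := fun P => match P with
        | .zero => .zero
        | .some x y hxy => .some (f x) (f y) ((h x y).2 hxy)
      left_inv := ?_
      right_inv := ?_ }
  · rintro (_ | ⟨x, y, hxy⟩)
    · rfl
    · exact hsome _ (f.apply_symm_apply x) (f.apply_symm_apply y) _ _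
  · rintro (_ | ⟨x, y, hxy⟩)
    · rfl
    · exact hsome _ (f.symm_apply_apply x) (f.symm_apply_apply y) _ _

theorem bot_conv (W₀ : WeierstrassCurve (𝓞 F)) (L : IntermediateField F Ω)
    (v : HeightOneSpectrum (𝓞 (⊥ : IntermediateField F Ω))) :
    ∃ v₀ : HeightOneSpectrum (𝓞 F),
      (∀ x : 𝓞 F, x ∈ v₀.asIdeal ↔ algebraMap (𝓞 F) (𝓞 (⊥ : IntermediateField F Ω)) x ∈ v.asIdeal) ∧
      (Ram (⊥ : IntermediateField F Ω) L v.asIdeal → RamF L v₀.asIdeal) ∧
      Nat.card (W₀⁄(𝓞 (⊥ : IntermediateField F Ω) ⧸ v.asIdeal)).toAffine.Point =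
        Nat.card (W₀⁄(𝓞 F ⧸ v₀.asIdeal)).toAffine.Point := by
  obtain ⟨g, hg⟩ : ∃ g : 𝓞 F →+* 𝓞 (⊥ : IntermediateField F Ω),
    g = algebraMap (𝓞 F) (𝓞 (⊥ : IntermediateField F Ω)) := ⟨_, rfl⟩
  have hsurj : Function.Surjective g := by
    intro x
    obtain ⟨y, hy⟩ := IntermediateField.mem_bot.1 ((x : (⊥ : IntermediateField F Ω))).2
    have hyi : IsIntegral ℤ y := by
      have h2 : IsIntegral ℤ ((x : (⊥ : IntermediateField F Ω)) : Ω) :=
        (RingOfIntegers.isIntegral_coe x).map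
          ((⊥ : IntermediateField F Ω).val.toRingHom.toIntAlgHom)
      rw [← hy] at h2
      exact (isIntegral_algebraMap_iff (algebraMap F Ω).injective).1 h2
    refine ⟨⟨y, hyi⟩, ?_⟩
    rw [hg]
    apply RingOfIntegers.ext
    apply Subtype.ext
    rw [← hy]
    rfl
  have hvp := v.isPrime
  have hne : v.asIdeal.comap g ≠ ⊥ := by
    intro h0
    apply v.ne_bot
    rw [eq_bot_iff]
    intro x hx
    obtain ⟨y, rfl⟩ := hsurj x
    have h1 : y ∈ v.asIdeal.comap g := hx
    rw [h0, Ideal.mem_bot] at h1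
    rw [Ideal.mem_bot, h1, map_zero]
  have hp : (v.asIdeal.comap g).IsPrime := Ideal.IsPrime.comap g
  refine ⟨⟨v.asIdeal.comap g, hp, hne⟩, ?_, ?_, ?_⟩
  · intro x
    rw [← hg]
    exact Iff.rfl
  · rintro ⟨W, hW, h⟩
    refine ⟨W, hW, ?_⟩
    rw [Ideal.map_le_iff_le_comap]
    intro x hx
    have h1 : g x ∈ v.asIdeal := hx
    rw [Ideal.mem_comap]
    refine h (g x) (algebraMap (𝓞 F) (𝓞 L) x) h1 ?_
    rw [hg]
    rfl
  · have hinj : Function.Injective g := by
      intro x y hxy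
      have h1 : algebraMap F Ω (x : F) = algebraMap F Ω (y : F) := by
        rw [hg] at hxy
        exact congrArg (fun z : 𝓞 (⊥ : IntermediateField F Ω) =>
          ((z : (⊥ : IntermediateField F Ω)) : Ω)) hxy
      exact RingOfIntegers.ext ((algebraMap F Ω).injective h1)
    obtain ⟨gE, hgE⟩ : ∃ gE : 𝓞 F ≃+* 𝓞 (⊥ : IntermediateField F Ω), (gE : 𝓞 F →+* _) = g :=
      ⟨RingEquiv.ofBijective g ⟨hinj, hsurj⟩, rfl⟩
    have hIJ : v.asIdeal = (v.asIdeal.comap g).map (gE : 𝓞 F →+* 𝓞 (⊥ : IntermediateField F Ω)) := by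
      rw [hgE, Ideal.map_comap_of_surjective g hsurj]
    have e : W₀⁄(𝓞 (⊥ : IntermediateField F Ω) ⧸ v.asIdeal) =
        (W₀⁄(𝓞 F ⧸ v.asIdeal.comap g)).map
          ((Ideal.quotientEquiv (v.asIdeal.comap g) v.asIdeal gE hIJ : _ ≃+* _) :
            (𝓞 F ⧸ v.asIdeal.comap g) →+* (𝓞 (⊥ : IntermediateField F Ω) ⧸ v.asIdeal)) := by
      show W₀.map (algebraMap (𝓞 F) (𝓞 (⊥ : IntermediateField F Ω) ⧸ v.asIdeal)) =
        (W₀.map (algebraMap (𝓞 F) (𝓞 F ⧸ v.asIdeal.comap g))).map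
          ((Ideal.quotientEquiv (v.asIdeal.comap g) v.asIdeal gE hIJ : _ ≃+* _) :
            (𝓞 F ⧸ v.asIdeal.comap g) →+* (𝓞 (⊥ : IntermediateField F Ω) ⧸ v.asIdeal))
      rw [WeierstrassCurve.map_map]
      have h1 : algebraMap (𝓞 F) (𝓞 (⊥ : IntermediateField F Ω) ⧸ v.asIdeal) =
          ((Ideal.quotientEquiv (v.asIdeal.comap g) v.asIdeal gE hIJ : _ ≃+* _) :
            (𝓞 F ⧸ v.asIdeal.comap g) →+* (𝓞 (⊥ : IntermediateField F Ω) ⧸ v.asIdeal)).comp
            (algebraMap (𝓞 F) (𝓞 F ⧸ v.asIdeal.comap g)) := by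
        refine RingHom.ext fun x => ?_
        have h2 : (gE : 𝓞 F →+* 𝓞 (⊥ : IntermediateField F Ω)) x = algebraMap (𝓞 F) _ x := by
          rw [hgE, hg]
        exact (congrArg (Ideal.Quotient.mk v.asIdeal) h2).symm
      rw [← h1]
    rw [e]
    exact pz10_card _ _

theorem unr_sub (K L : IntermediateField F Ω) [FiniteDimensional F L] (hKL : K ≤ L) (n : ℕ) (hn : n ≠ 0)
    (h : ∀ v : HeightOneSpectrum (𝓞 F), RamF L v.asIdeal → (n : 𝓞 F) ∉ v.asIdeal)
    (w : HeightOneSpectrum (𝓞 K)) (hw : (n : 𝓞 K) ∈ w.asIdeal) :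
    w.asIdeal.ramificationIdx (𝓞 F) = 1 := by
  have hKf : FiniteDimensional F K :=
    FiniteDimensional.of_injective (IntermediateField.inclusion hKL).toLinearMap
      (IntermediateField.inclusion_injective hKL)
  have hKn : NumberField K := NumberField.of_module_finite F K
  have hLn : NumberField L := NumberField.of_module_finite F L
  let _ : Algebra K L := (IntermediateField.inclusion hKL).toRingHom.toAlgebra
  have t1 : IsScalarTower F K L := IsScalarTower.of_algebraMap_eq fun x => rfl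
  have hwp := w.isPrime
  have hnv : (n : 𝓞 F) ∈ w.asIdeal.under (𝓞 F) := by
    rw [Ideal.mem_under, map_natCast]
    exact hw
  have hvne : w.asIdeal.under (𝓞 F) ≠ ⊥ := by
    intro h0
    rw [h0, Ideal.mem_bot] at hnv
    exact hn (Nat.cast_eq_zero.1 hnv)
  obtain ⟨v, hv⟩ : ∃ v : HeightOneSpectrum (𝓞 F), v.asIdeal = w.asIdeal.under (𝓞 F) :=
    ⟨⟨_, inferInstance, hvne⟩, rfl⟩
  have hlies : w.asIdeal.LiesOver v.asIdeal := ⟨hv⟩
  rw [← Ideal.ramificationIdx'_eq_ramificationIdx v.asIdeal w.asIdeal v.ne_bot]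
  refine Ideal.ramificationIdx'_spec ?_ ?_
  · rw [pow_one, Ideal.map_le_iff_le_comap, hv]
  · intro h2
    obtain ⟨W, hW, hWl⟩ := Ideal.exists_maximal_ideal_liesOver_of_isIntegral (S := 𝓞 L) w.asIdeal
    refine h v ⟨W, hW.isPrime, ?_⟩ ?_
    · have e : v.asIdeal.map (algebraMap (𝓞 F) (𝓞 L)) =
          (v.asIdeal.map (algebraMap (𝓞 F) (𝓞 K))).map (algebraMap (𝓞 K) (𝓞 L)) := by
        rw [Ideal.map_map, ← IsScalarTower.algebraMap_eq]
      rw [e]
      refine (Ideal.map_mono h2).trans ?_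
      rw [Ideal.map_pow]
      apply Ideal.pow_right_mono
      rw [Ideal.map_le_iff_le_comap]
      exact le_of_eq hWl.over
    · rw [hv]
      exact hnv

theorem pz10_sq {R : Type} [CommRing R] [IsDedekindDomain R] (I x : Ideal R) (hI : I ≠ ⊥) (hx : x * x ∣ I)
    (hu : ¬ IsUnit x) : ∃ W : Ideal R, W.IsMaximal ∧ W ≠ ⊥ ∧ I ≤ W ^ 2 := by
  rw [Ideal.isUnit_iff] at hu
  obtain ⟨W, hW, hle⟩ := Ideal.exists_le_maximal x hu
  refine ⟨W, hW, ?_, ?_⟩
  · rintro rfl
    have h1 : x = ⊥ := le_bot_iff.1 hle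
    apply hI
    rw [h1] at hx
    obtain ⟨c, hc⟩ := hx
    rw [hc]
    simp
  · rw [← Ideal.dvd_iff_le, pow_two]
    exact (mul_dvd_mul (Ideal.dvd_iff_le.2 hle) (Ideal.dvd_iff_le.2 hle)).trans hx

theorem unrP_sub (p : ℕ) (hp : p.Prime) (L : IntermediateField F Ω) [FiniteDimensional F L]
    [NumberField L] (hsq : Squarefree (Ideal.span {(p : 𝓞 F)}))
    (h : ∀ v : HeightOneSpectrum (𝓞 F), RamF L v.asIdeal → (p : 𝓞 F) ∉ v.asIdeal) : UnrP p L := by
  intro x hx
  by_contra hu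
  have hp0 : (p : 𝓞 L) ≠ 0 := Nat.cast_ne_zero.2 hp.ne_zero
  obtain ⟨W, hW, hWb, hle⟩ := pz10_sq (Ideal.span {(p : 𝓞 L)}) x
    (by rw [Ne, Ideal.span_singleton_eq_bot]; exact hp0) hx hu
  have hWp := hW.isPrime
  have hpW : (p : 𝓞 L) ∈ W := by
    have h1 : (p : 𝓞 L) ∈ W ^ 2 := hle (Ideal.mem_span_singleton_self _)
    exact Ideal.pow_le_self two_ne_zero h1
  have hpv : (p : 𝓞 F) ∈ W.under (𝓞 F) := by
    rw [Ideal.mem_under, map_natCast]
    exact hpW
  have hvne : W.under (𝓞 F) ≠ ⊥ := by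
    intro h0
    rw [h0, Ideal.mem_bot] at hpv
    exact hp.ne_zero (Nat.cast_eq_zero.1 hpv)
  obtain ⟨v, hv⟩ : ∃ v : HeightOneSpectrum (𝓞 F), v.asIdeal = W.under (𝓞 F) :=
    ⟨⟨_, inferInstance, hvne⟩, rfl⟩
  refine h v ⟨W, hWp, ?_⟩ (by rw [hv]; exact hpv)
  have hdvd : v.asIdeal ∣ Ideal.span {(p : 𝓞 F)} := by
    rw [Ideal.dvd_iff_le, Ideal.span_singleton_le_iff_mem, hv]
    exact hpv
  obtain ⟨a, ha⟩ := hdvd
  have hav : ¬ a ≤ v.asIdeal := by
    intro hle2
    have h1 : v.asIdeal * v.asIdeal ∣ Ideal.span {(p : 𝓞 F)} := by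
      rw [ha]
      exact mul_dvd_mul_left _ (Ideal.dvd_iff_le.2 hle2)
    have h2 := hsq _ h1
    rw [Ideal.isUnit_iff] at h2
    exact v.isPrime.ne_top h2
  have haW : ¬ a.map (algebraMap (𝓞 F) (𝓞 L)) ≤ W := by
    rw [Ideal.map_le_iff_le_comap]
    intro hle2
    apply hav
    rw [hv]
    exact hle2
  have hcop : IsCoprime (W ^ 2) (a.map (algebraMap (𝓞 F) (𝓞 L))) := by
    apply IsCoprime.pow_left
    rw [Ideal.isCoprime_iff_sup_eq]
    refine hW.1.2 _ (lt_of_le_of_ne le_sup_left fun he => haW ?_)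
    rw [he]
    exact le_sup_right
  rw [← Ideal.dvd_iff_le]
  apply hcop.dvd_of_dvd_mul_right
  rw [← Ideal.map_mul, ← ha, Ideal.map_span, Set.image_singleton, map_natCast, Ideal.dvd_iff_le]
  exact hle

end gen

/-- p >= 5 is unramified in the field of cube roots of unity: the discriminant is -3 (H55C.W7_discrF in Lib/H55C/W7.lean; NumberField.not_dvd_discr_iff_forall_mem), or p is prime or a product of two coprime primes. -/
theorem sqfree_E (p : ℕ) (hp : p.Prime) (h5 : 5 ≤ p) : Squarefree (Ideal.span {(p : H55B.O)}) := by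
  have hpp : Prime (p : ℤ) := Nat.prime_iff_prime_int.1 hp
  have hd : ¬ (p : ℤ) ∣ NumberField.discr H55B.F := by
    have : Fact (Nat.Prime 3) := ⟨by norm_num⟩
    have h : NumberField.discr H55B.F = (-1) ^ ((3 - 1) / 2) * 3 ^ (3 - 2) :=
      IsCyclotomicExtension.Rat.discr_prime 3 H55B.F
    rw [h]
    intro hdv
    have h1 : (p : ℤ) ∣ 3 := by
      have h2 : ((-1) ^ ((3 - 1) / 2) * 3 ^ (3 - 2) : ℤ) = -3 := by norm_num
      rw [h2] at hdv
      exact (dvd_neg (a := (p : ℤ))).1 hdv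
    have h3 := Int.le_of_dvd (by norm_num) h1
    omega
  rw [NumberField.not_dvd_discr_iff_forall_mem H55B.F H55B.O hpp] at hd
  intro x hx
  by_contra hu
  have hp0 : (p : H55B.O) ≠ 0 := Nat.cast_ne_zero.2 hp.ne_zero
  obtain ⟨W, hW, hWb, hle⟩ := pz10_sq (Ideal.span {(p : H55B.O)}) x
    (by rw [Ne, Ideal.span_singleton_eq_bot]; exact hp0) hx hu
  have hWp := hW.isPrime
  have hpW : (p : H55B.O) ∈ W := by
    have h1 : (p : H55B.O) ∈ W ^ 2 := hle (Ideal.mem_span_singleton_self _)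
    exact Ideal.pow_le_self two_ne_zero h1
  have hF := hd W hWp (by exact_mod_cast hpW)
  have he2 : W.ramificationIdx ℤ = 1 := Ideal.ramificationIdx_eq_one_iff.2 hF
  have hover : W.under ℤ = Ideal.span {(p : ℤ)} := by
    have hmax : (Ideal.span {(p : ℤ)}).IsMaximal :=
      PrincipalIdealRing.isMaximal_of_irreducible hpp.irreducible
    refine (hmax.eq_of_le (Ideal.IsPrime.ne_top inferInstance) ?_).symm
    rw [Ideal.span_singleton_le_iff_mem, Ideal.under_def, Ideal.mem_comap, map_natCast]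
    exact hpW
  have : W.LiesOver (Ideal.span {(p : ℤ)}) := ⟨hover.symm⟩
  have hne : Ideal.span {(p : ℤ)} ≠ ⊥ := by
    rw [Ne, Ideal.span_singleton_eq_bot]
    exact hpp.ne_zero
  rw [← Ideal.ramificationIdx'_eq_ramificationIdx (Ideal.span {(p : ℤ)}) W hne] at he2
  have hmap : Ideal.map (algebraMap ℤ H55B.O) (Ideal.span {(p : ℤ)}) = Ideal.span {(p : H55B.O)} := by
    rw [Ideal.map_span, Set.image_singleton, map_natCast]
  refine (Ideal.ramificationIdx'_ne_one_iff (p := Ideal.span {(p : ℤ)}) (P := W) ?_).2 ?_ he2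
  · rw [hmap, Ideal.span_singleton_le_iff_mem]
    exact hpW
  · rw [hmap]
    exact hle

end H55P
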