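import Mathlib
import Pool.Agent.Lib.H55P.Sel

open NumberField IsDedekindDomain WeierstrassCurve

namespace H55P

/-! Chunk PS4 (M). The change of variables (x, y) -> (x', y') with x = u^2 x' + r, y = u^3 y' + u^2 s x' + t is an isomorphism of the groups of points, natural in the field.
Mathlib: WeierstrassCurve.VariableChange, the curve C • W (VariableChange.lean: variableChange_a₁ ..), W.exists_variableChange_isShortNF (NormalForms.lean; characteristic 0: 2 and 3 invertible). Only the short form is needed: in characteristic 0 the change is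
x' = x + (a1^2 + 4 a2)/12, y' = y + (a1 x + a3)/2, with a4' = -c4/48, a6' = -c6/864; doing only this explicit change (u = 1) by hand is enough: Equation, then the map on points (all points of W⁄Ω are nonsingular, IsElliptic: Affine.equation_iff_nonsingular), then
additivity: the slope transforms by slope' = slope + a1/2 (cases x1 = x2 and y1 = negY: sum zero; equal points; x1 <> x2), with the lemmas Affine.Point.add_some, slope_of_Y_ne, slope_of_X_ne, add_of_Y_eq. Naturality: map_some. -/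

/-- The coefficients of the two curves are related by the change of variables
`x' = x + β`, `y' = y + s x + t`. -/
structure PS4_D {Ω : Type} [Field Ω] (W₁ W₂ : WeierstrassCurve Ω) (β s t : Ω) : Prop where
  b1 : W₂.a₁ = 0
  b2 : W₂.a₂ = 0
  b3 : W₂.a₃ = 0
  h1 : 2 * s = W₁.a₁
  h3 : 2 * t = W₁.a₃
  h2 : 3 * β = W₁.a₂ + s ^ 2
  h4 : W₂.a₄ = W₁.a₄ + 2 * s * t - 3 * β ^ 2
  h6 : W₂.a₆ = W₁.a₆ + t ^ 2 - β ^ 3 - W₂.a₄ * β

section

variable {Ω : Type} [Field Ω] {W₁ W₂ : WeierstrassCurve Ω} {β s t : Ω}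

theorem PS4_eq (D : PS4_D W₁ W₂ β s t) (x y : Ω) :
    W₁.toAffine.Equation x y ↔ W₂.toAffine.Equation (x + β) (y + s * x + t) := by
  have e1 : W₂.toAffine.a₁ = 0 := D.b1
  have e2 : W₂.toAffine.a₂ = 0 := D.b2
  have e3 : W₂.toAffine.a₃ = 0 := D.b3
  have h1 : 2 * s = W₁.toAffine.a₁ := D.h1
  have h3 : 2 * t = W₁.toAffine.a₃ := D.h3
  have h2 : 3 * β = W₁.toAffine.a₂ + s ^ 2 := D.h2
  have h4 : W₂.toAffine.a₄ = W₁.toAffine.a₄ + 2 * s * t - 3 * β ^ 2 := D.h4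
  have h6 : W₂.toAffine.a₆ = W₁.toAffine.a₆ + t ^ 2 - β ^ 3 - W₂.toAffine.a₄ * β := D.h6
  rw [Affine.equation_iff, Affine.equation_iff, e1, e2, e3]
  constructor
  · intro h
    linear_combination h + x * y * h1 + y * h3 - x ^ 2 * h2 - x * h4 - h6
  · intro h
    linear_combination h - x * y * h1 - y * h3 + x ^ 2 * h2 + x * h4 + h6

theorem PS4_negY (D : PS4_D W₁ W₂ β s t) (x y : Ω) :
    W₂.toAffine.negY (x + β) (y + s * x + t) = W₁.toAffine.negY x y + s * x + t := by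
  have e1 : W₂.toAffine.a₁ = 0 := D.b1
  have e3 : W₂.toAffine.a₃ = 0 := D.b3
  have h1 : 2 * s = W₁.toAffine.a₁ := D.h1
  have h3 : 2 * t = W₁.toAffine.a₃ := D.h3
  rw [Affine.negY, Affine.negY, e1, e3]
  linear_combination (-x) * h1 - h3

theorem PS4_cond (D : PS4_D W₁ W₂ β s t) (x₁ y₁ x₂ y₂ : Ω) :
    (x₁ + β = x₂ + β ∧ y₁ + s * x₁ + t = W₂.toAffine.negY (x₂ + β) (y₂ + s * x₂ + t)) ↔
      (x₁ = x₂ ∧ y₁ = W₁.toAffine.negY x₂ y₂) := by
  rw [PS4_negY D]
  constructor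
  · rintro ⟨h1, h2⟩
    have h3 : x₁ = x₂ := by linear_combination h1
    refine ⟨h3, ?_⟩
    rw [h3] at h2
    linear_combination h2
  · rintro ⟨h1, h2⟩
    rw [h1, h2]
    exact ⟨rfl, rfl⟩

theorem PS4_slope [DecidableEq Ω] (D : PS4_D W₁ W₂ β s t) {x₁ y₁ x₂ y₂ : Ω}
    (E₁ : W₁.toAffine.Equation x₁ y₁) (E₂ : W₁.toAffine.Equation x₂ y₂)
    (hxy : ¬(x₁ = x₂ ∧ y₁ = W₁.toAffine.negY x₂ y₂)) :
    W₂.toAffine.slope (x₁ + β) (x₂ + β) (y₁ + s * x₁ + t) (y₂ + s * x₂ + t) =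
      W₁.toAffine.slope x₁ x₂ y₁ y₂ + s := by
  by_cases hx : x₁ = x₂
  · have hy : y₁ ≠ W₁.toAffine.negY x₂ y₂ := fun h => hxy ⟨hx, h⟩
    have hy' : y₁ + s * x₁ + t ≠ W₂.toAffine.negY (x₂ + β) (y₂ + s * x₂ + t) := fun h =>
      hxy ((PS4_cond D x₁ y₁ x₂ y₂).1 ⟨by rw [hx], h⟩)
    have hyy : y₁ = y₂ := Affine.Y_eq_of_Y_ne E₁ E₂ hx hy
    rw [Affine.slope_of_Y_ne (by rw [hx]) hy', Affine.slope_of_Y_ne hx hy, PS4_negY D]
    have hne : y₁ - W₁.toAffine.negY x₁ y₁ ≠ 0 := by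
      rw [sub_ne_zero]
      rw [← hx, ← hyy] at hy
      exact hy
    have e1 : W₂.toAffine.a₁ = 0 := D.b1
    have e2 : W₂.toAffine.a₂ = 0 := D.b2
    have h1 : 2 * s = W₁.toAffine.a₁ := D.h1
    have h3 : 2 * t = W₁.toAffine.a₃ := D.h3
    have h2 : 3 * β = W₁.toAffine.a₂ + s ^ 2 := D.h2
    have h4 : W₂.toAffine.a₄ = W₁.toAffine.a₄ + 2 * s * t - 3 * β ^ 2 := D.h4
    have e5 : y₁ + s * x₁ + t - (W₁.toAffine.negY x₁ y₁ + s * x₁ + t) = y₁ - W₁.toAffine.negY x₁ y₁ := by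
      ring
    rw [e5, div_add' _ _ _ hne]
    congr 1
    rw [e1, e2, Affine.negY]
    linear_combination h4 + 2 * x₁ * h2 + (-y₁ + s * x₁) * h1 + s * h3
  · have hx' : x₁ + β ≠ x₂ + β := fun h => hx (by linear_combination h)
    have h0 : x₁ - x₂ ≠ 0 := sub_ne_zero.2 hx
    rw [Affine.slope_of_X_ne hx', Affine.slope_of_X_ne hx, add_sub_add_right_eq_sub,
      add_sub_add_right_eq_sub, div_add' _ _ _ h0]
    congr 1
    ring

theorem PS4_addX (D : PS4_D W₁ W₂ β s t) (x₁ x₂ l : Ω) :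
    W₂.toAffine.addX (x₁ + β) (x₂ + β) (l + s) = W₁.toAffine.addX x₁ x₂ l + β := by
  have e1 : W₂.toAffine.a₁ = 0 := D.b1
  have e2 : W₂.toAffine.a₂ = 0 := D.b2
  have h1 : 2 * s = W₁.toAffine.a₁ := D.h1
  have h2 : 3 * β = W₁.toAffine.a₂ + s ^ 2 := D.h2
  rw [Affine.addX, Affine.addX, e1, e2]
  linear_combination l * h1 - h2

theorem PS4_addY (D : PS4_D W₁ W₂ β s t) (x₁ x₂ y₁ l : Ω) :
    W₂.toAffine.addY (x₁ + β) (x₂ + β) (y₁ + s * x₁ + t) (l + s) =
      W₁.toAffine.addY x₁ x₂ y₁ l + s * W₁.toAffine.addX x₁ x₂ l + t := by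
  have h : W₂.toAffine.negAddY (x₁ + β) (x₂ + β) (y₁ + s * x₁ + t) (l + s) =
      W₁.toAffine.negAddY x₁ x₂ y₁ l + s * W₁.toAffine.addX x₁ x₂ l + t := by
    rw [Affine.negAddY, Affine.negAddY, PS4_addX D]
    ring
  rw [Affine.addY, Affine.addY, h, PS4_addX D, PS4_negY D]

theorem PS4_ns [W₁.IsElliptic] [W₂.IsElliptic] (D : PS4_D W₁ W₂ β s t) (x y : Ω) :
    W₁.toAffine.Nonsingular x y ↔ W₂.toAffine.Nonsingular (x + β) (y + s * x + t) := by
  rw [← Affine.equation_iff_nonsingular (W := W₁.toAffine),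
    ← Affine.equation_iff_nonsingular (W := W₂.toAffine)]
  exact PS4_eq D x y

/-- The map on points. -/
noncomputable def PS4_f [W₁.IsElliptic] [W₂.IsElliptic] (D : PS4_D W₁ W₂ β s t) :
    W₁.toAffine.Point → W₂.toAffine.Point
  | 0 => 0
  | .some x y h => .some (x + β) (y + s * x + t) ((PS4_ns D x y).1 h)

theorem PS4_f_add [DecidableEq Ω] [W₁.IsElliptic] [W₂.IsElliptic] (D : PS4_D W₁ W₂ β s t)
    (P Q : W₁.toAffine.Point) : PS4_f D (P + Q) = PS4_f D P + PS4_f D Q := by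
  rcases P with _ | ⟨x₁, y₁, h₁⟩
  · change PS4_f D (0 + Q) = 0 + PS4_f D Q
    rw [zero_add, zero_add]
  rcases Q with _ | ⟨x₂, y₂, h₂⟩
  · change PS4_f D (_ + 0) = _ + 0
    rw [add_zero, add_zero]
  by_cases hxy : x₁ = x₂ ∧ y₁ = W₁.toAffine.negY x₂ y₂
  · rw [Affine.Point.add_of_Y_eq hxy.1 hxy.2]
    have h := (PS4_cond D x₁ y₁ x₂ y₂).2 hxy
    exact (Affine.Point.add_of_Y_eq (h₁ := (PS4_ns D x₁ y₁).1 h₁) (h₂ := (PS4_ns D x₂ y₂).1 h₂)
      h.1 h.2).symm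
  · have hxy' : ¬(x₁ + β = x₂ + β ∧ y₁ + s * x₁ + t = W₂.toAffine.negY (x₂ + β) (y₂ + s * x₂ + t)) :=
      fun h => hxy ((PS4_cond D x₁ y₁ x₂ y₂).1 h)
    have e1 := Affine.Point.add_some hxy' (h₁ := (PS4_ns D x₁ y₁).1 h₁) (h₂ := (PS4_ns D x₂ y₂).1 h₂)
    rw [Affine.Point.add_some hxy]
    refine Eq.trans ?_ e1.symm
    change Affine.Point.some _ _ _ = Affine.Point.some _ _ _
    rw [Affine.Point.some.injEq]
    rw [PS4_slope D h₁.1 h₂.1 hxy, PS4_addX D, PS4_addY D]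
    exact ⟨rfl, rfl⟩

theorem PS4_f_inj [W₁.IsElliptic] [W₂.IsElliptic] (D : PS4_D W₁ W₂ β s t) :
    Function.Injective (PS4_f D) := by
  intro P Q hPQ
  rcases P with _ | ⟨x₁, y₁, h₁⟩
  · rcases Q with _ | ⟨x₂, y₂, h₂⟩
    · rfl
    · exact absurd hPQ (Affine.Point.some_ne_zero _).symm
  · rcases Q with _ | ⟨x₂, y₂, h₂⟩
    · exact absurd hPQ (Affine.Point.some_ne_zero _)
    · have h := Affine.Point.some.inj hPQ
      have hx : x₁ = x₂ := by linear_combination h.1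
      have hy : y₁ = y₂ := by linear_combination h.2 - s * hx
      subst hx hy
      rfl

theorem PS4_f_surj [W₁.IsElliptic] [W₂.IsElliptic] (D : PS4_D W₁ W₂ β s t) :
    Function.Surjective (PS4_f D) := by
  intro P
  rcases P with _ | ⟨x, y, h⟩
  · exact ⟨0, rfl⟩
  · have e1 : x - β + β = x := by ring
    have e2 : y - s * (x - β) - t + s * (x - β) + t = y := by ring
    have h' : W₁.toAffine.Nonsingular (x - β) (y - s * (x - β) - t) := by
      rw [PS4_ns D, e1, e2]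
      exact h
    refine ⟨.some (x - β) (y - s * (x - β) - t) h', ?_⟩
    change Affine.Point.some _ _ _ = Affine.Point.some _ _ _
    rw [Affine.Point.some.injEq]
    exact ⟨e1, e2⟩

/-- The isomorphism of the groups of points. -/
noncomputable def PS4_iso [DecidableEq Ω] [W₁.IsElliptic] [W₂.IsElliptic] (D : PS4_D W₁ W₂ β s t) :
    W₁.toAffine.Point ≃+ W₂.toAffine.Point :=
  AddEquiv.ofBijective (AddMonoidHom.mk' (PS4_f D) (PS4_f_add D)) ⟨PS4_f_inj D, PS4_f_surj D⟩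

end

/-- The relation is preserved by base change. -/
theorem PS4_map {k Ω : Type} [Field k] [Field Ω] [Algebra k Ω] {W₁ W₂ : WeierstrassCurve k} {β s t : k}
    (D : PS4_D W₁ W₂ β s t) :
    PS4_D (W₁⁄Ω) (W₂⁄Ω) (algebraMap k Ω β) (algebraMap k Ω s) (algebraMap k Ω t) where
  b1 := by
    change algebraMap k Ω W₂.a₁ = 0
    rw [D.b1, map_zero]
  b2 := by
    change algebraMap k Ω W₂.a₂ = 0
    rw [D.b2, map_zero]
  b3 := by
    change algebraMap k Ω W₂.a₃ = 0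
    rw [D.b3, map_zero]
  h1 := by
    change _ = algebraMap k Ω W₁.a₁
    rw [← D.h1, map_mul, map_ofNat]
  h3 := by
    change _ = algebraMap k Ω W₁.a₃
    rw [← D.h3, map_mul, map_ofNat]
  h2 := by
    change _ = algebraMap k Ω W₁.a₂ + _
    have h := congrArg (algebraMap k Ω) D.h2
    rw [map_mul, map_ofNat, map_add, map_pow] at h
    exact h
  h4 := by
    change algebraMap k Ω W₂.a₄ = algebraMap k Ω W₁.a₄ + _ - _
    have h := congrArg (algebraMap k Ω) D.h4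
    simp only [map_sub, map_add, map_mul, map_pow, map_ofNat] at h
    exact h
  h6 := by
    change algebraMap k Ω W₂.a₆ = algebraMap k Ω W₁.a₆ + _ - _ - algebraMap k Ω W₂.a₄ * _
    have h := congrArg (algebraMap k Ω) D.h6
    simp only [map_sub, map_add, map_mul, map_pow] at h
    exact h

theorem exists_short {k : Type} [Field k] [CharZero k] (W : WeierstrassCurve k) [W.IsElliptic] :
    ∃ W' : WeierstrassCurve k, W'.IsShortNF ∧ W'.IsElliptic ∧
      ∃ φ : ∀ (Ω : Type) [Field Ω] [DecidableEq Ω] [Algebra k Ω], Pt W Ω ≃+ Pt W' Ω,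
        ∀ (Ω Ω' : Type) [Field Ω] [DecidableEq Ω] [Algebra k Ω] [Field Ω'] [DecidableEq Ω'] [Algebra k Ω']
          (f : Ω →ₐ[k] Ω') (P : Pt W Ω), φ Ω' (Affine.Point.map (W' := W.toAffine) f P) =
            Affine.Point.map (W' := W'.toAffine) f (φ Ω P) := by
  set s : k := W.a₁ / 2 with hs
  set t : k := W.a₃ / 2 with ht
  set β : k := (W.a₂ + s ^ 2) / 3 with hβ
  set A : k := W.a₄ + 2 * s * t - 3 * β ^ 2 with hA
  set B : k := W.a₆ + t ^ 2 - β ^ 3 - A * β with hB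
  set W' : WeierstrassCurve k := ⟨0, 0, 0, A, B⟩ with hW'
  have D : PS4_D W W' β s t := by
    refine ⟨rfl, rfl, rfl, ?_, ?_, ?_, rfl, rfl⟩
    · rw [hs]
      field_simp
    · rw [ht]
      field_simp
    · rw [hβ]
      field_simp
  have hΔ : W'.Δ = W.Δ := by
    have h1 := D.h1
    have h3 := D.h3
    have h2 : W.a₂ = 3 * β - s ^ 2 := by linear_combination -D.h2
    have h4 : W.a₄ = A - 2 * s * t + 3 * β ^ 2 := by rw [hA]; ring
    have h6 : W.a₆ = B - t ^ 2 + β ^ 3 + A * β := by rw [hB]; ring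
    simp only [WeierstrassCurve.Δ, WeierstrassCurve.b₂, WeierstrassCurve.b₄, WeierstrassCurve.b₆,
      WeierstrassCurve.b₈]
    rw [← h1, ← h3, h2, h4, h6]
    simp only [hW']
    ring
  have hE : W'.IsElliptic := ⟨by rw [hΔ]; exact W.isUnit_Δ⟩
  have i1 : ∀ (Ω : Type) [Field Ω] [Algebra k Ω], (W⁄Ω).IsElliptic := fun Ω _ _ =>
    inferInstanceAs (W.map (algebraMap k Ω)).IsElliptic
  have i2 : ∀ (Ω : Type) [Field Ω] [Algebra k Ω], (W'⁄Ω).IsElliptic := fun Ω _ _ =>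
    inferInstanceAs (W'.map (algebraMap k Ω)).IsElliptic
  refine ⟨W', ⟨rfl, rfl, rfl⟩, hE, fun Ω _ _ _ => PS4_iso (PS4_map (Ω := Ω) D), ?_⟩
  intro Ω Ω' _ _ _ _ _ _ f P
  rcases P with _ | ⟨x, y, h⟩
  · rfl
  · have e1 : f (algebraMap k Ω β) = algebraMap k Ω' β := f.commutes _
    have e2 : f (algebraMap k Ω s) = algebraMap k Ω' s := f.commutes _
    have e3 : f (algebraMap k Ω t) = algebraMap k Ω' t := f.commutes _
    change Affine.Point.some _ _ _ = Affine.Point.some _ _ _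
    rw [Affine.Point.some.injEq]
    constructor
    · change f x + algebraMap k Ω' β = f (x + algebraMap k Ω β)
      rw [map_add, e1]
    · change f y + algebraMap k Ω' s * f x + algebraMap k Ω' t =
        f (y + algebraMap k Ω s * x + algebraMap k Ω t)
      rw [map_add, map_add, map_mul, e2, e3]

end H55P
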