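import Mathlib
import Pool.Agent.Lib.H16C.MW3
import Pool.Agent.Lib.H55P.S4

open NumberField IsDedekindDomain WeierstrassCurve

namespace H55P

variable {F : Type} [Field F] [NumberField F] {Ω : Type} [Field Ω] [DecidableEq Ω] [Algebra F Ω]
  [IsAlgClosed Ω] [Algebra.IsAlgebraic F Ω] [CharZero Ω]

/-! Chunk PS5 (M). Divisibility, torsion, Mordell-Weil, fixed points.
div_pt, tors_fin: exists_short (S4) and divisible, tors_finite of Lib/H16C/T1.lean (short curves; Pt of H16C is the same type). fix_iff: P = 0 or (x, y) with x, y fixed by K.fixingSubgroup, so in K (Ω/F is Galois, characteristic 0: InfiniteGalois.fixedField_fixingSubgroup;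
see Setup.mem_L in Lib/H16C/SE3.lean, MW3_lift in MW3.lean). mw: short curve by exists_short; E the splitting field over K of x^3 + a4 x + a6 (number field), weak_mw (Lib/H16C/MW1.lean), mordell_weil (MW2.lean) for the curve over E; Pt W K embeds into Pt W E
(Affine.Point.map_injective) and subgroups of finitely generated abelian groups are finitely generated (Module.Finite over the noetherian ring ℤ: Module.Finite.of_injective). Model: MW3_fg in Lib/H16C/MW3.lean (the types Pt W E and the points of the curve over E agree:
baseChange_baseChange or map_map, see there). -/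

theorem div_pt (W : WeierstrassCurve F) [W.IsElliptic] (n : ℕ) (hn : 0 < n) (P : Pt W Ω) :
    ∃ Q : Pt W Ω, n • Q = P := by
  obtain ⟨W', hs, he, φ, -⟩ := exists_short W
  obtain ⟨Q, hQ⟩ := H16C.divisible (W := (W'⁄Ω).toAffine) n hn (φ Ω P)
  refine ⟨(φ Ω).symm Q, ?_⟩
  rw [← map_nsmul, hQ, AddEquiv.symm_apply_apply]

theorem tors_fin (W : WeierstrassCurve F) [W.IsElliptic] (n : ℕ) (hn : 0 < n) :
    {P : Pt W Ω | n • P = 0}.Finite := by
  obtain ⟨W', hs, he, φ, -⟩ := exists_short W
  have h1 := H16C.tors_finite (W'⁄Ω).toAffine n hn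
  refine Set.Finite.subset (h1.preimage (φ Ω).injective.injOn) ?_
  intro P hP
  have hP' : n • P = 0 := hP
  show n • (φ Ω P) = 0
  rw [← map_nsmul, hP', map_zero]

omit [NumberField F] [DecidableEq Ω] in
theorem ps5_mem [CharZero F] (K : IntermediateField F Ω) {x : Ω}
    (h : ∀ g ∈ K.fixingSubgroup, g x = x) : x ∈ K := by
  have h1 : IsAlgClosure F Ω := ⟨inferInstance, inferInstance⟩
  have h2 : Normal F Ω := IsAlgClosure.normal F Ω
  have h3 : IsGalois F Ω := { }
  rw [← InfiniteGalois.fixedField_fixingSubgroup K, IntermediateField.mem_fixedField_iff]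
  exact h

theorem fix_iff (W : WeierstrassCurve F) [W.IsElliptic] (K : IntermediateField F Ω) [DecidableEq K]
    (P : Pt W Ω) : (∀ s ∈ K.fixingSubgroup, ac W s P = P) ↔
      ∃ Q : Pt W K, Affine.Point.map (W' := W.toAffine) K.val Q = P := by
  constructor
  · intro h
    cases P with
    | zero => exact ⟨0, map_zero _⟩
    | some x y hxy =>
      have hx : x ∈ K := by
        refine ps5_mem K fun g hg => ?_
        have h1 := h g hg
        unfold ac at h1
        rw [Affine.Point.map_some] at h1
        exact (Affine.Point.some.inj h1).1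
      have hy : y ∈ K := by
        refine ps5_mem K fun g hg => ?_
        have h1 := h g hg
        unfold ac at h1
        rw [Affine.Point.map_some] at h1
        exact (Affine.Point.some.inj h1).2
      have h2 : (W⁄K).toAffine.Nonsingular ⟨x, hx⟩ ⟨y, hy⟩ := by
        have h3 := Affine.baseChange_nonsingular W.toAffine (f := K.val)
          (RingHom.injective K.val.toRingHom) (⟨x, hx⟩ : K) (⟨y, hy⟩ : K)
        exact h3.1 hxy
      exact ⟨.some _ _ h2, rfl⟩
  · rintro ⟨Q, rfl⟩ s hs
    unfold ac
    rw [Affine.Point.map_map]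
    congr 2
    ext x
    exact (IntermediateField.mem_fixingSubgroup_iff K s).1 hs x x.2

theorem mw (W : WeierstrassCurve F) [W.IsElliptic] (K : Type) [Field K] [NumberField K] [DecidableEq K]
    [Algebra F K] : Module.Finite ℤ (Pt W K) := by
  classical
  obtain ⟨W', hs, he, φ, -⟩ := exists_short W
  obtain ⟨e, he'⟩ := H16C.MW3_cubic (algebraMap F (AlgebraicClosure K) W'.a₄)
    (algebraMap F (AlgebraicClosure K) W'.a₆)
  let L : IntermediateField K (AlgebraicClosure K) := IntermediateField.adjoin K (Set.range e)
  have hL : FiniteDimensional K L := by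
    refine IntermediateField.finiteDimensional_adjoin fun x _ => ?_
    exact Algebra.IsIntegral.isIntegral x
  have hN : NumberField L := NumberField.of_module_finite K L
  have hw := H16C.weak_mw (W'⁄L).toAffine
    (fun i => (⟨e i, IntermediateField.subset_adjoin K _ (Set.mem_range_self i)⟩ : L)) (fun x => by
      apply Subtype.ext
      push_cast
      exact he' x)
  have h1 : Module.Finite ℤ (Pt W' L) := H16C.mordell_weil _ hw
  have h2 : Module.Finite ℤ (Pt W' K) := by
    refine Module.Finite.of_injective
      (Affine.Point.map (W' := W'.toAffine) (IsScalarTower.toAlgHom F K L)).toIntLinearMap ?_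
    exact Affine.Point.map_injective _
  exact Module.Finite.equiv (φ K).symm.toIntLinearEquiv

end H55P
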