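import Mathlib
import Pool.Agent.Lib.H55P.Sel

open NumberField IsDedekindDomain WeierstrassCurve

namespace H55P

variable {F : Type} [Field F] {Ω : Type} [Field Ω] [DecidableEq Ω] [Algebra F Ω]

/-! Chunk PS1 (S/M). Elementary facts on the action, inertia and decomposition.
acR: ac W s = Affine.Point.map, map_map, map_id. inert_dec: x in V implies s x in V (s x - x in V). If s x in V but x not in V, then x⁻¹ in V with value < 1, v(s x⁻¹ - x⁻¹) < 1, so v(s x⁻¹) < 1 and s x = (s x⁻¹)⁻¹ has value > 1, contradiction.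
inS: closed under products (v(s t x - x) <= max(v(s (t x) - t x), v(t x - x))), inverses by inert_dec. inS_conj: V' = V.comap of the automorphism g (ValuationSubring.comap), valuation < 1 means nonunit of V: see exists_comap in Lib/H16C/VC.lean.
pt_open: P = 0 or (x, y): L = F(x, y) (IntermediateField.adjoin F {x, y}, finite since algebraic). -/

/-- The action as a homomorphism of monoids. -/
noncomputable def acR (W : WeierstrassCurve F) : (Ω ≃ₐ[F] Ω) →* AddMonoid.End (Pt W Ω) where
  toFun s := ac W s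
  map_one' := by
    ext P
    cases P <;> rfl
  map_mul' s t := by
    ext P
    cases P <;> rfl

theorem acR_apply (W : WeierstrassCurve F) (s : Ω ≃ₐ[F] Ω) (P : Pt W Ω) : acR W s P = ac W s P := rfl

theorem lt1_iff (V : ValuationSubring Ω) (x : Ω) : V.valuation x < 1 ↔ x = 0 ∨ x⁻¹ ∉ V := by
  by_cases hx : x = 0
  · subst hx
    simp
  · have h1 : V.valuation x ≠ 0 := by simpa using hx
    rw [← V.valuation_le_one_iff, map_inv₀]
    constructor
    · intro h
      right
      rw [not_le]
      exact (one_lt_inv₀ (zero_lt_iff.2 h1)).2 h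
    · rintro (h | h)
      · exact absurd h hx
      · rw [not_le] at h
        exact (one_lt_inv₀ (zero_lt_iff.2 h1)).1 h

theorem dec_lt1 (V : ValuationSubring Ω) (s : Ω ≃ₐ[F] Ω) (h : Dec V s) (x : Ω) :
    V.valuation (s x) < 1 ↔ V.valuation x < 1 := by
  rw [lt1_iff, lt1_iff, ← map_inv₀, h x⁻¹]
  simp

theorem inert_dec (V : ValuationSubring Ω) (s : Ω ≃ₐ[F] Ω) (h : Inert V s) : Dec V s := by
  have key : ∀ x ∈ V, s x ∈ V := by
    intro x hx
    have h1 : s x - x ∈ V := by
      rw [← V.valuation_le_one_iff]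
      exact (h x hx).le
    have := V.add_mem _ _ h1 hx
    simpa using this
  intro x
  refine ⟨fun hs => ?_, key x⟩
  by_contra hx
  have hx0 : x ≠ 0 := by
    rintro rfl
    exact hx V.zero_mem
  have hi : V.valuation x⁻¹ < 1 := by
    rw [lt1_iff, inv_inv]
    exact Or.inr hx
  have hi' : x⁻¹ ∈ V := by
    rw [← V.valuation_le_one_iff]
    exact hi.le
  have h2 := h _ hi'
  have h3 : V.valuation (s x⁻¹) < 1 := by
    have : s x⁻¹ = (s x⁻¹ - x⁻¹) + x⁻¹ := by ring
    rw [this]
    exact lt_of_le_of_lt (V.valuation.map_add _ _) (max_lt h2 hi)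
  rw [lt1_iff, map_inv₀, inv_inv] at h3
  rcases h3 with h3 | h3
  · simp [hx0] at h3
  · exact h3 hs

/-- The inertia group. -/
def inS (F : Type) [Field F] {Ω : Type} [Field Ω] [Algebra F Ω] (V : ValuationSubring Ω) :
    Subgroup (Ω ≃ₐ[F] Ω) where
  carrier := {s | Inert V s}
  one_mem' := by
    intro x _
    simp
  mul_mem' := by
    intro s t hs ht x hx
    have h1 : (s * t) x - x = (s (t x) - t x) + (t x - x) := by
      rw [AlgEquiv.mul_apply]
      ring
    rw [h1]
    classical
    exact lt_of_le_of_lt (V.valuation.map_add _ _) (max_lt (hs _ ((inert_dec V t ht x).2 hx)) (ht x hx))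
  inv_mem' := by
    intro s hs x hx
    classical
    have hy : s⁻¹ x ∈ V := by
      rw [← inert_dec V s hs]
      have : s (s⁻¹ x) = x := s.apply_symm_apply x
      rwa [this]
    have h1 := hs _ hy
    have h2 : s (s⁻¹ x) = x := s.apply_symm_apply x
    rw [h2, ← Valuation.map_neg] at h1
    have h3 : -(x - s⁻¹ x) = s⁻¹ x - x := by ring
    rwa [h3] at h1

/-- The decomposition group. -/
def decS (F : Type) [Field F] {Ω : Type} [Field Ω] [Algebra F Ω] (V : ValuationSubring Ω) :
    Subgroup (Ω ≃ₐ[F] Ω) where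
  carrier := {s | Dec V s}
  one_mem' := by
    intro x
    rfl
  mul_mem' := by
    intro s t hs ht x
    rw [AlgEquiv.mul_apply, hs, ht]
  inv_mem' := by
    intro s hs x
    have h2 : s (s⁻¹ x) = x := s.apply_symm_apply x
    rw [← hs (s⁻¹ x), h2]

theorem mem_inS (V : ValuationSubring Ω) (s : Ω ≃ₐ[F] Ω) : s ∈ inS F V ↔ Inert V s := Iff.rfl

theorem mem_decS (V : ValuationSubring Ω) (s : Ω ≃ₐ[F] Ω) : s ∈ decS F V ↔ Dec V s := Iff.rfl

theorem inS_conj (V : ValuationSubring Ω) (g : Ω ≃ₐ[F] Ω) : ∃ V' : ValuationSubring Ω,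
    ∀ s, s ∈ inS F V' ↔ g * s * g⁻¹ ∈ inS F V := by
  refine ⟨V.comap (g : Ω →+* Ω), fun s => ?_⟩
  have hm : ∀ x, x ∈ V.comap (g : Ω →+* Ω) ↔ g x ∈ V := fun x => ValuationSubring.mem_comap
  have hlt : ∀ x, (V.comap (g : Ω →+* Ω)).valuation x < 1 ↔ V.valuation (g x) < 1 := by
    intro x
    rw [lt1_iff, lt1_iff, hm, map_inv₀]
    simp
  rw [mem_inS, mem_inS]
  constructor
  · intro h x hx
    have h2 : g (g⁻¹ x) = x := g.apply_symm_apply x
    have h1 := h (g⁻¹ x) ((hm _).2 (by rwa [h2]))
    rw [hlt, map_sub, h2] at h1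
    exact h1
  · intro h x hx
    have h1 := h (g x) ((hm _).1 hx)
    have h2 : g⁻¹ (g x) = x := g.symm_apply_apply x
    rw [AlgEquiv.mul_apply, AlgEquiv.mul_apply, h2] at h1
    rw [hlt, map_sub]
    exact h1

theorem inS_dec (V : ValuationSubring Ω) (φ : Ω ≃ₐ[F] Ω) (hφ : φ ∈ decS F V) (s : Ω ≃ₐ[F] Ω)
    (hs : s ∈ inS F V) : φ * s * φ⁻¹ ∈ inS F V := by
  intro x hx
  have h2 : φ (φ⁻¹ x) = x := φ.apply_symm_apply x
  have hy : φ⁻¹ x ∈ V := by
    rw [← hφ (φ⁻¹ x), h2]
    exact hx
  have h1 := hs _ hy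
  rw [← dec_lt1 V φ hφ, map_sub, h2] at h1
  exact h1

theorem pt_open [Algebra.IsAlgebraic F Ω] (W : WeierstrassCurve F) (P : Pt W Ω) :
    ∃ L : IntermediateField F Ω, FiniteDimensional F L ∧ ∀ s ∈ L.fixingSubgroup, ac W s P = P := by
  cases P with
  | zero => exact ⟨⊥, inferInstance, fun s _ => rfl⟩
  | some x y h =>
    refine ⟨IntermediateField.adjoin F {x, y}, ?_, ?_⟩
    · exact IntermediateField.finiteDimensional_adjoin_pair (Algebra.IsIntegral.isIntegral x)
        (Algebra.IsIntegral.isIntegral y)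
    · intro s hs
      rw [IntermediateField.mem_fixingSubgroup_iff] at hs
      have hx : s x = x := hs x (IntermediateField.subset_adjoin F _ (by simp))
      have hy : s y = y := hs y (IntermediateField.subset_adjoin F _ (by simp))
      have : ac W s (Affine.Point.some x y h) = Affine.Point.some (s x) (s y)
          ((Affine.baseChange_nonsingular _ s.toAlgHom.injective ..).mpr h) := rfl
      rw [this]
      simp only [hx, hy]

end H55P
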