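import Mathlib
import Pool.Agent.Lib.H55P.S1

open NumberField IsDedekindDomain WeierstrassCurve

namespace H55P

variable {k F Ω : Type} [Field k] [Field F] [Field Ω] [DecidableEq Ω] [Algebra k F] [Algebra k Ω]
  [Algebra F Ω] [IsScalarTower k F Ω]

/-! Chunk PZ11 (M). Change of the base field and descent for SelZero.
base_iso: W⁄Ω and (W⁄F)⁄Ω are the same curve (WeierstrassCurve.map_map, IsScalarTower.algebraMap_eq); the identity on coordinates (a general lemma: an equality W1 = W2 of curves gives an additive equivalence preserving coordinates: subst; see TR3_act in Lib/H16C/TR3.lean). The action commutes.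
sel_base: c on Gal(Ω/k) for K.restrictScalars k; c' s = φ (c (s.restrictScalars k)) on Gal(Ω/F) for K. Coc: continuity: L/k finite, L' = the field generated by L over F, finite over F. Inert, fixingSubgroup: same condition on functions. SelZero for F gives T'; T = φ⁻¹ T'. Every s in
(K.restrictScalars k).fixingSubgroup fixes the image of F (contained in K), so it is t.restrictScalars k for some t in K.fixingSubgroup (AlgEquiv over F with the same function).
tors_base: the same for the points fixed by the group.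
sel_down: c on K₀, its restriction to K₁ is killed by T: c' = c - (ac W s T - T) is zero on the group of K₁. For s in the group of K₀ and t in the group of K₁: c' (t s) = ac W t (c' s), c' (s t') = c' s with t' = s⁻¹ t s in the group of K₁; so c' s is fixed by the group of K₁, and
p c' s = 0; c' s = 0 by h0. -/

omit [DecidableEq Ω] in
theorem Z11_curve (W : WeierstrassCurve k) : (W⁄F)⁄Ω = W⁄Ω := by
  have h : ((algebraMap F Ω).comp (algebraMap k F)) = algebraMap k Ω :=
    (IsScalarTower.algebraMap_eq k F Ω).symm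
  exact congrArg W.map h

/-- The identity on coordinates for equal curves. -/
noncomputable def z11_cast {W₁ W₂ : WeierstrassCurve Ω} (h : W₁ = W₂) :
    W₁.toAffine.Point ≃+ W₂.toAffine.Point := by
  subst h
  exact AddEquiv.refl _

theorem z11_cast_some {W₁ W₂ : WeierstrassCurve Ω} (h : W₁ = W₂) (x y : Ω)
    (hn : W₁.toAffine.Nonsingular x y) :
    z11_cast h (Affine.Point.some x y hn) = Affine.Point.some x y (h ▸ hn) := by
  subst h
  rfl

theorem base_iso (W : WeierstrassCurve k) : ∃ φ : Pt W Ω ≃+ Pt (W⁄F) Ω,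
    ∀ (s : Ω ≃ₐ[F] Ω) (P : Pt W Ω), φ (ac W (s.restrictScalars k) P) = ac (W⁄F) s (φ P) := by
  refine ⟨z11_cast (Z11_curve (F := F) W).symm, ?_⟩
  intro s P
  rcases P with _ | ⟨x, y, h⟩
  · show z11_cast _ (ac W (s.restrictScalars k) 0) = ac (W⁄F) s (z11_cast _ 0)
    rw [map_zero, map_zero, map_zero]
  · have e1 : ac W (s.restrictScalars k) (Affine.Point.some x y h) = Affine.Point.some (s x) (s y)
        ((Affine.baseChange_nonsingular (W := W.toAffine) (f := (s.restrictScalars k).toAlgHom)
          (s.restrictScalars k).toAlgHom.injective ..).2 h) := rfl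
    rw [e1, z11_cast_some, z11_cast_some]
    rfl

omit [DecidableEq Ω] in
theorem Z11_lift (K : IntermediateField F Ω) (s : Ω ≃ₐ[k] Ω)
    (hs : s ∈ (K.restrictScalars k).fixingSubgroup) :
    ∃ t : Ω ≃ₐ[F] Ω, t.restrictScalars k = s ∧ t ∈ K.fixingSubgroup := by
  rw [IntermediateField.mem_fixingSubgroup_iff] at hs
  have h1 : ∀ x : F, s (algebraMap F Ω x) = algebraMap F Ω x := fun x =>
    hs _ (K.algebraMap_mem x)
  refine ⟨AlgEquiv.ofRingEquiv (f := (s : Ω ≃+* Ω)) h1, AlgEquiv.ext fun x => rfl, ?_⟩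
  rw [IntermediateField.mem_fixingSubgroup_iff]
  exact hs

omit [DecidableEq Ω] in
theorem Z11_mem (K : IntermediateField F Ω) (s : Ω ≃ₐ[F] Ω) (hs : s ∈ K.fixingSubgroup) :
    s.restrictScalars k ∈ (K.restrictScalars k).fixingSubgroup := by
  rw [IntermediateField.mem_fixingSubgroup_iff] at hs ⊢
  exact hs

omit [DecidableEq Ω] in
theorem Z11_field (L : IntermediateField k Ω) [FiniteDimensional k L] :
    ∃ L' : IntermediateField F Ω, FiniteDimensional F L' ∧
      ∀ g ∈ L'.fixingSubgroup, g.restrictScalars k ∈ L.fixingSubgroup := by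
  let b := Module.finBasis k L
  refine ⟨IntermediateField.adjoin F (Set.range fun i => ((b i : L) : Ω)), ?_, ?_⟩
  · refine IntermediateField.finiteDimensional_adjoin fun x hx => ?_
    obtain ⟨i, rfl⟩ := hx
    have h1 : IsIntegral k (b i) := IsIntegral.of_finite k (b i)
    have h2 : IsIntegral k ((b i : L) : Ω) := h1.map L.val
    exact IsIntegral.tower_top (R := k) h2
  · intro g hg
    rw [IntermediateField.mem_fixingSubgroup_iff] at hg ⊢
    intro x hx
    have h1 := congrArg (algebraMap L Ω) (b.sum_repr ⟨x, hx⟩)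
    rw [map_sum] at h1
    have h2 : x = ∑ i, b.repr ⟨x, hx⟩ i • ((b i : L) : Ω) := by
      refine Eq.trans ?_ (h1.symm.trans ?_)
      · rfl
      · rfl
    rw [h2, map_sum]
    refine Finset.sum_congr rfl fun i _ => ?_
    rw [map_smul]
    congr 1
    exact hg _ (IntermediateField.subset_adjoin F _ ⟨i, rfl⟩)

theorem sel_base [FiniteDimensional k F] (W : WeierstrassCurve k) (p : ℕ) (K : IntermediateField F Ω)
    [FiniteDimensional F K] (hS : SelZero (W⁄F) p K) : SelZero W p (K.restrictScalars k) := by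
  intro c hc hp hV
  obtain ⟨φ, hφ⟩ := base_iso (F := F) (Ω := Ω) W
  have g1 : Coc (W⁄F) K (fun s => φ (c (s.restrictScalars k))) := by
    refine ⟨?_, ?_⟩
    · intro s hs t ht
      have h1 := hc.mul _ (Z11_mem (k := k) K s hs) _ (Z11_mem (k := k) K t ht)
      have h2 : (s * t).restrictScalars k = s.restrictScalars k * t.restrictScalars k := rfl
      show φ (c ((s * t).restrictScalars k)) = _
      rw [h2, h1, map_add, hφ]
    · obtain ⟨L, hL, hLc⟩ := hc.cont
      obtain ⟨L', hL', hg⟩ := Z11_field (F := F) L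
      refine ⟨L', hL', ?_⟩
      intro s hs hsL
      show φ (c (s.restrictScalars k)) = 0
      rw [hLc _ (Z11_mem K s hs) (hg s hsL), map_zero]
  have g2 : ∀ s ∈ K.fixingSubgroup, p • (fun s => φ (c (s.restrictScalars k))) s = 0 := by
    intro s hs
    show p • φ (c (s.restrictScalars k)) = 0
    rw [← map_nsmul, hp _ (Z11_mem K s hs), map_zero]
  obtain ⟨T', hT', hcT⟩ := hS (fun s => φ (c (s.restrictScalars k))) g1 g2 (by
    intro V
    obtain ⟨P, hP⟩ := hV V
    refine ⟨φ P, ?_⟩
    intro s hs hI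
    show φ (c (s.restrictScalars k)) = _
    rw [hP _ (Z11_mem K s hs) hI, map_sub, hφ])
  refine ⟨φ.symm T', ?_, ?_⟩
  · rw [← map_nsmul, hT', map_zero]
  · intro s hs
    obtain ⟨t, rfl, ht⟩ := Z11_lift K s hs
    apply φ.injective
    rw [map_sub, hφ, AddEquiv.apply_symm_apply]
    exact hcT t ht

theorem tors_base (W : WeierstrassCurve k) (p : ℕ) (K : IntermediateField F Ω)
    (h : ∀ T : Pt (W⁄F) Ω, p • T = 0 → (∀ s ∈ K.fixingSubgroup, ac (W⁄F) s T = T) → T = 0)
    (T : Pt W Ω) (hT : p • T = 0) (hf : ∀ s ∈ (K.restrictScalars k).fixingSubgroup, ac W s T = T) :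
    T = 0 := by
  obtain ⟨φ, hφ⟩ := base_iso (F := F) (Ω := Ω) W
  apply φ.injective
  rw [map_zero]
  apply h
  · rw [← map_nsmul, hT, map_zero]
  · intro s hs
    rw [← hφ, hf _ (Z11_mem K s hs)]

theorem sel_down (W : WeierstrassCurve k) (p : ℕ) (K₀ K₁ : IntermediateField k Ω) (h : K₀ ≤ K₁)
    [FiniteDimensional k K₁]
    (hn : ∀ s ∈ K₀.fixingSubgroup, ∀ t ∈ K₁.fixingSubgroup, s * t * s⁻¹ ∈ K₁.fixingSubgroup)
    (h0 : ∀ T : Pt W Ω, p • T = 0 → (∀ s ∈ K₁.fixingSubgroup, ac W s T = T) → T = 0)
    (hS : SelZero W p K₁) : SelZero W p K₀ := by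
  intro c hc hp hV
  have hle : ∀ s ∈ K₁.fixingSubgroup, s ∈ K₀.fixingSubgroup := by
    intro s hs
    rw [IntermediateField.mem_fixingSubgroup_iff] at hs ⊢
    exact fun x hx => hs x (h hx)
  have hac : ∀ (s t : Ω ≃ₐ[k] Ω) (P : Pt W Ω), ac W (s * t) P = ac W s (ac W t P) := by
    intro s t P
    have h1 := (acR W).map_mul s t
    have h2 := DFunLike.congr_fun h1 P
    exact h2
  obtain ⟨T, hT, hcT⟩ := hS c ⟨fun s hs t ht => hc.mul s (hle s hs) t (hle t ht), by
      obtain ⟨L, hL, hLc⟩ := hc.cont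
      exact ⟨L, hL, fun s hs hsL => hLc s (hle s hs) hsL⟩⟩ (fun s hs => hp s (hle s hs)) (by
      intro V
      obtain ⟨P, hP⟩ := hV V
      exact ⟨P, fun s hs hI => hP s (hle s hs) hI⟩)
  refine ⟨T, hT, ?_⟩
  intro s hs
  have hd : c s - (ac W s T - T) = 0 := by
    apply h0
    · rw [nsmul_sub, nsmul_sub, hp s hs, ← map_nsmul, hT, map_zero, sub_zero, sub_zero]
    · intro t ht
      have ht' : s⁻¹ * t * s ∈ K₁.fixingSubgroup := by
        have h1 := hn s⁻¹ (inv_mem hs) t ht
        rwa [inv_inv] at h1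
      have e1 : s * (s⁻¹ * t * s) = t * s := by group
      have h2 := hc.mul s hs _ (hle _ ht')
      have h3 := hc.mul t (hle t ht) s hs
      rw [e1] at h2
      rw [h2, hcT t ht, hcT _ ht', map_sub, ← hac, e1, hac] at h3
      rw [map_sub, map_sub]
      -- h3 : c s + (ac t (ac s T) - ac s T) = (ac t T - T) + ac t (c s)
      have h4 : ac W t (c s) = c s + (ac W t (ac W s T) - ac W s T) - (ac W t T - T) := by
        rw [h3]
        abel
      rw [h4]
      abel
  rw [← sub_eq_zero]
  exact hd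

end H55P
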