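import Mathlib
import Pool.Agent.Lib.H55P.Stm
import Pool.Agent.Lib.H55P.Z11

open NumberField IsDedekindDomain WeierstrassCurve

namespace H55P

/-! Chunk PZ12 (M). From fields inside Ω to abstract fields.
PROOF. The field Ω with the algebra structure over K given by ι is an algebraic closure of K (IsAlgClosed Ω, algebraic over k hence over K), so there is an isomorphism θ : AlgebraicClosure K → Ω of K-algebras (IsAlgClosure.equiv). It gives the bijection s -> θ s θ⁻¹ from
Gal(AlgebraicClosure K / K) to the automorphisms of Ω over k fixing ι.fieldRange, the bijection V -> V.comap of the valuation rings, and an additive equivalence Φ : Pt (W⁄K) (AlgebraicClosure K) ≃+ Pt W Ω (the curves (W⁄K)⁄(AlgebraicClosure K) and W⁄(AlgebraicClosure K) agree: base_iso in Z11.lean with F = K; then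
Affine.Point.map θ restricted to k, bijective), compatible with the actions. Given a cocycle c for K put c' t = Φ (c (θ⁻¹ t θ)) for t in ι.fieldRange.fixingSubgroup (0 otherwise). Coc: continuity: the image of L under θ is finite over K, hence over k (K finite over k). Inert V t iff Inert (comap V) (θ⁻¹ t θ).
The set of all s corresponds to the fixing subgroup. Transport the conclusion back by Φ⁻¹. DecidableEq instances: Subsingleton.elim (the group law of the points depends on them; open Classical in the statement, DecidableEq Ω arbitrary: use Subsingleton.elim to rewrite). -/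
section z12

variable {k : Type} [Field k]

/-- The isomorphism on points given by an isomorphism of fields. -/
noncomputable def z12_pt (W : WeierstrassCurve k) {A B : Type} [Field A] [Field B] [DecidableEq A]
    [DecidableEq B] [Algebra k A] [Algebra k B] (θ : A ≃ₐ[k] B) : Pt W A ≃+ Pt W B where
  toFun := Affine.Point.map (W' := W.toAffine) θ.toAlgHom
  invFun := Affine.Point.map (W' := W.toAffine) θ.symm.toAlgHom
  left_inv := by
    intro P
    rw [Affine.Point.map_map]
    have h : (θ.symm.toAlgHom.comp θ.toAlgHom) = AlgHom.id k A := by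
      ext x
      exact θ.symm_apply_apply x
    rw [h]
    cases P <;> rfl
  right_inv := by
    intro P
    rw [Affine.Point.map_map]
    have h : (θ.toAlgHom.comp θ.symm.toAlgHom) = AlgHom.id k B := by
      ext x
      exact θ.apply_symm_apply x
    rw [h]
    cases P <;> rfl
  map_add' P Q := map_add _ P Q

/-- Conjugation with θ. -/
noncomputable def z12_hat {K : Type} [Field K] [Algebra k K] {A B : Type} [Field A] [Field B]
    [Algebra k A] [Algebra K A] [IsScalarTower k K A] [Algebra k B] (θ : A ≃ₐ[k] B) (s : A ≃ₐ[K] A) :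
    B ≃ₐ[k] B := (θ.symm.trans (s.restrictScalars k)).trans θ

theorem z12_hat_apply {K : Type} [Field K] [Algebra k K] {A B : Type} [Field A] [Field B]
    [Algebra k A] [Algebra K A] [IsScalarTower k K A] [Algebra k B] (θ : A ≃ₐ[k] B) (s : A ≃ₐ[K] A)
    (x : B) : z12_hat θ s x = θ (s (θ.symm x)) := rfl

theorem z12_core (W : WeierstrassCurve k) (K : Type) [Field K]
    [Algebra k K] [FiniteDimensional k K] {Ω : Type} [Field Ω] [DecidableEq Ω] [Algebra k Ω]
    [IsAlgClosed Ω] [Algebra.IsAlgebraic k Ω] (ι : K →ₐ[k] Ω) [DecidableEq (AlgebraicClosure K)] :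
    ∃ (Φ : Pt (W⁄K) (AlgebraicClosure K) ≃+ Pt W Ω)
      (hat : (AlgebraicClosure K ≃ₐ[K] AlgebraicClosure K) → (Ω ≃ₐ[k] Ω)),
      Function.Injective hat ∧ (∀ s t, hat (s * t) = hat s * hat t) ∧
      (∀ t, t ∈ ι.fieldRange.fixingSubgroup ↔ ∃ s, hat s = t) ∧
      (∀ s P, Φ (ac (W⁄K) s P) = ac W (hat s) (Φ P)) ∧
      (∀ L : IntermediateField K (AlgebraicClosure K), FiniteDimensional K L →
        ∃ L' : IntermediateField k Ω, FiniteDimensional k L' ∧
          ∀ s, hat s ∈ L'.fixingSubgroup → s ∈ L.fixingSubgroup) ∧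
      (∀ V : ValuationSubring Ω, ∃ V' : ValuationSubring (AlgebraicClosure K), (V ≠ ⊤ → V' ≠ ⊤) ∧ ∀ s,
        (Inert V' s → Inert V (hat s)) ∧ (Inert V (hat s) → Inert V' s) ∧
        (Dec V (hat s) → Dec V' s)) := by
  let algKΩ : Algebra K Ω := ι.toRingHom.toAlgebra
  have htow : IsScalarTower k K Ω := IsScalarTower.of_algebraMap_eq fun x => (ι.commutes x).symm
  have halg : Algebra.IsAlgebraic K Ω := Algebra.IsAlgebraic.tower_top (K := k) K
  have hcl : IsAlgClosure K Ω := ⟨inferInstance, halg⟩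
  let θ : AlgebraicClosure K ≃ₐ[K] Ω := IsAlgClosure.equiv K (AlgebraicClosure K) Ω
  let θk : AlgebraicClosure K ≃ₐ[k] Ω := θ.restrictScalars k
  obtain ⟨φ, hφ⟩ := base_iso (k := k) (F := K) (Ω := AlgebraicClosure K) W
  refine ⟨φ.symm.trans (z12_pt W θk), z12_hat θk, ?_, ?_, ?_, ?_, ?_, ?_⟩
  · intro s t hst
    apply AlgEquiv.ext
    intro x
    have h1 := DFunLike.congr_fun hst (θk x)
    rw [z12_hat_apply, z12_hat_apply, θk.symm_apply_apply] at h1
    exact θk.injective h1
  · intro s t
    apply AlgEquiv.ext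
    intro x
    rw [AlgEquiv.mul_apply, z12_hat_apply, z12_hat_apply, z12_hat_apply, θk.symm_apply_apply,
      AlgEquiv.mul_apply]
  · intro t
    rw [IntermediateField.mem_fixingSubgroup_iff]
    constructor
    · intro ht
      have h1 : ∀ x : K, t (algebraMap K Ω x) = algebraMap K Ω x := fun x => ht _ ⟨x, rfl⟩
      let tK : Ω ≃ₐ[K] Ω := AlgEquiv.ofRingEquiv (f := (t : Ω ≃+* Ω)) h1
      refine ⟨(θ.trans tK).trans θ.symm, AlgEquiv.ext fun x => ?_⟩
      rw [z12_hat_apply]
      show θ (θ.symm (t (θ (θ.symm x)))) = t x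
      rw [θ.apply_symm_apply, θ.apply_symm_apply]
    · rintro ⟨s, rfl⟩ x ⟨y, rfl⟩
      rw [z12_hat_apply]
      show θ (s (θ.symm (algebraMap K Ω y))) = algebraMap K Ω y
      rw [θ.symm.commutes, s.commutes, θ.commutes]
  · intro s P
    have h1 : φ.symm (ac (W⁄K) s P) = ac W (s.restrictScalars k) (φ.symm P) := by
      apply φ.injective
      rw [hφ, φ.apply_symm_apply, φ.apply_symm_apply]
    show z12_pt W θk (φ.symm (ac (W⁄K) s P)) = ac W (z12_hat θk s) (z12_pt W θk (φ.symm P))
    rw [h1]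
    generalize φ.symm P = Q
    show Affine.Point.map (W' := W.toAffine) θk.toAlgHom
      (Affine.Point.map (W' := W.toAffine) (s.restrictScalars k).toAlgHom Q) =
      Affine.Point.map (W' := W.toAffine) (z12_hat θk s).toAlgHom
        (Affine.Point.map (W' := W.toAffine) θk.toAlgHom Q)
    rw [Affine.Point.map_map, Affine.Point.map_map]
    congr 1
    congr 1
    ext x
    show θk (s x) = z12_hat θk s (θk x)
    rw [z12_hat_apply, θk.symm_apply_apply]
  · intro L hL
    have h1 : FiniteDimensional k (L.restrictScalars k) := FiniteDimensional.trans k K L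
    let e := IntermediateField.intermediateFieldMap θk (L.restrictScalars k)
    refine ⟨(L.restrictScalars k).map θk.toAlgHom, Module.Finite.equiv e.toLinearEquiv, ?_⟩
    intro s hs
    rw [IntermediateField.mem_fixingSubgroup_iff] at hs ⊢
    intro x hx
    have h2 := hs (θk x) ⟨x, hx, rfl⟩
    rw [z12_hat_apply, θk.symm_apply_apply] at h2
    exact θk.injective h2
  · intro V
    have hm : ∀ x, x ∈ V.comap (θk : AlgebraicClosure K →+* Ω) ↔ θk x ∈ V := fun x =>
      ValuationSubring.mem_comap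
    refine ⟨V.comap (θk : AlgebraicClosure K →+* Ω), fun hV h => hV ?_, fun s => ?_⟩
    · refine eq_top_iff.2 fun x _ => ?_
      have h1 : θk.symm x ∈ V.comap (θk : AlgebraicClosure K →+* Ω) := by
        rw [h]
        exact ValuationSubring.mem_top _
      rwa [hm, θk.apply_symm_apply] at h1
    have hlt : ∀ x, (V.comap (θk : AlgebraicClosure K →+* Ω)).valuation x < 1 ↔
        V.valuation (θk x) < 1 := by
      intro x
      rw [lt1_iff, lt1_iff, hm, map_inv₀]
      simp
    refine ⟨fun h x hx => ?_, fun h x hx => ?_, fun h x => ?_⟩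
    · have h1 := h (θk.symm x) ((hm _).2 (by rwa [θk.apply_symm_apply]))
      rw [hlt, map_sub, θk.apply_symm_apply] at h1
      exact h1
    · have h1 := h (θk x) ((hm _).1 hx)
      rw [z12_hat_apply, θk.symm_apply_apply] at h1
      rw [hlt, map_sub]
      exact h1
    · have h1 := h (θk x)
      rw [z12_hat_apply, θk.symm_apply_apply] at h1
      rw [hm, hm]
      exact h1

end z12

theorem sel_transport {k : Type} [Field k] (W : WeierstrassCurve k) (p : ℕ) (K : Type) [Field K]
    [Algebra k K] [FiniteDimensional k K] {Ω : Type} [Field Ω] [DecidableEq Ω] [Algebra k Ω]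
    [IsAlgClosed Ω] [Algebra.IsAlgebraic k Ω] (ι : K →ₐ[k] Ω) (hS : SelZero W p ι.fieldRange) :
    SelTriv (W⁄K) p := by
  classical
  unfold SelTriv
  intro c hc hp hV
  obtain ⟨Φ, hat, hinj, hmul, hfix, hact, hfield, hval⟩ := z12_core W K ι
  have hinv : ∀ s, Function.invFun hat (hat s) = s := Function.leftInverse_invFun hinj
  have g1 : Coc W ι.fieldRange (fun t => Φ (c (Function.invFun hat t))) := by
    refine ⟨?_, ?_⟩
    · intro s hs t ht
      obtain ⟨s, rfl⟩ := (hfix _).1 hs
      obtain ⟨t, rfl⟩ := (hfix _).1 ht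
      simp only [← hmul, hinv]
      rw [hc.mul, map_add, hact]
    · obtain ⟨L, hL, hLc⟩ := hc.cont
      obtain ⟨L', hL', h1⟩ := hfield L hL
      refine ⟨L', hL', ?_⟩
      intro s hs hsL
      obtain ⟨s, rfl⟩ := (hfix _).1 hs
      simp only [hinv]
      rw [hLc s (h1 s hsL), map_zero]
  have g2 : ∀ s ∈ ι.fieldRange.fixingSubgroup,
      p • (fun t => Φ (c (Function.invFun hat t))) s = 0 := by
    intro s hs
    simp only
    rw [← map_nsmul, hp, map_zero]
  have g3 : ∀ V : ValuationSubring Ω, ∃ P : Pt W Ω, ∀ s ∈ ι.fieldRange.fixingSubgroup,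
      Inert V s → (fun t => Φ (c (Function.invFun hat t))) s = ac W s P - P := by
    intro V
    obtain ⟨V', -, hV'⟩ := hval V
    obtain ⟨P, hP⟩ := hV V'
    refine ⟨Φ P, ?_⟩
    intro s hs hI
    obtain ⟨s, rfl⟩ := (hfix _).1 hs
    simp only [hinv]
    rw [hP s ((hV' s).2.1 hI), map_sub, hact]
  obtain ⟨T, hT, hcT⟩ := hS _ g1 g2 g3
  refine ⟨Φ.symm T, ?_, fun s => ?_⟩
  · rw [← map_nsmul, hT, map_zero]
  · have h1 := hcT (hat s) ((hfix _).2 ⟨s, rfl⟩)
    simp only [hinv] at h1
    apply Φ.injective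
    rw [h1, map_sub, hact, Φ.apply_symm_apply]

theorem sha_transport {k : Type} [Field k] (W : WeierstrassCurve k) (p : ℕ) (K : Type) [Field K]
    [Algebra k K] [FiniteDimensional k K] {Ω : Type} [Field Ω] [DecidableEq Ω] [Algebra k Ω]
    [IsAlgClosed Ω] [Algebra.IsAlgebraic k Ω] (ι : K →ₐ[k] Ω) (hS : ShaZero W p ι.fieldRange) :
    ShaTriv (W⁄K) p := by
  classical
  unfold ShaTriv
  intro c hc hQ hV
  obtain ⟨Φ, hat, hinj, hmul, hfix, hact, hfield, hval⟩ := z12_core W K ι
  have hinv : ∀ s, Function.invFun hat (hat s) = s := Function.leftInverse_invFun hinj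
  have g1 : Coc W ι.fieldRange (fun t => Φ (c (Function.invFun hat t))) := by
    refine ⟨?_, ?_⟩
    · intro s hs t ht
      obtain ⟨s, rfl⟩ := (hfix _).1 hs
      obtain ⟨t, rfl⟩ := (hfix _).1 ht
      simp only [← hmul, hinv]
      rw [hc.mul, map_add, hact]
    · obtain ⟨L, hL, hLc⟩ := hc.cont
      obtain ⟨L', hL', h1⟩ := hfield L hL
      refine ⟨L', hL', ?_⟩
      intro s hs hsL
      obtain ⟨s, rfl⟩ := (hfix _).1 hs
      simp only [hinv]
      rw [hLc s (h1 s hsL), map_zero]
  have g2 : ∃ Q : Pt W Ω, ∀ s ∈ ι.fieldRange.fixingSubgroup,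
      p • (fun t => Φ (c (Function.invFun hat t))) s = ac W s Q - Q := by
    obtain ⟨Q, hQ⟩ := hQ
    refine ⟨Φ Q, ?_⟩
    intro s hs
    obtain ⟨s, rfl⟩ := (hfix _).1 hs
    simp only [hinv]
    rw [← map_nsmul, hQ s, map_sub, hact]
  have g3 : ∀ V : ValuationSubring Ω, V ≠ ⊤ → ∃ P : Pt W Ω, ∀ s ∈ ι.fieldRange.fixingSubgroup,
      Dec V s → (fun t => Φ (c (Function.invFun hat t))) s = ac W s P - P := by
    intro V hVt
    obtain ⟨V', hV't, hV'⟩ := hval V
    obtain ⟨P, hP⟩ := hV V' (hV't hVt)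
    refine ⟨Φ P, ?_⟩
    intro s hs hI
    obtain ⟨s, rfl⟩ := (hfix _).1 hs
    simp only [hinv]
    rw [hP s ((hV' s).2.2 hI), map_sub, hact]
  obtain ⟨T, hcT⟩ := hS _ g1 g2 g3
  refine ⟨Φ.symm T, fun s => ?_⟩
  have h1 := hcT (hat s) ((hfix _).2 ⟨s, rfl⟩)
  simp only [hinv] at h1
  apply Φ.injective
  rw [h1, map_sub, hact, Φ.apply_symm_apply]

end H55P
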