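import Mathlib
import Pool.Agent.Lib.H55P.GD
import Pool.Agent.Lib.H55N.D3

open NumberField IsDedekindDomain

namespace H55P

open H55N
open H55B (g)

variable {F : Type} [Field F] [NumberField F] [IQ F] {K : Type} [Field K] [NumberField K]
  [Algebra F K] {m : ℕ}

/-! Chunk PD3 (M), PORT of Lib/H55N/D3.lean (D3_U, D3_mem, D3_fin, D3_main do not use the field F of H55N: import and use them; if they do, copy them with other names). D3_rad becomes: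
x^p in (p) implies x in (p), because the ideal (p) is squarefree (UnrP; isRadical_iff_squarefree_of_ne_zero, Ideal.dvd_span_singleton). The index nu of U' in U is prime to p: otherwise there is an element of
order p in U/U' (Cauchy, exists_prime_orderOf_dvd_card'), i.e. v in U, v^p in U', v not in U': (v - 1)^p = v^p - 1 modulo p (sub_pow_char_pow_of_commute or
add_pow_char / exists_add_pow_prime_eq), so (v-1)^p is in (p), v - 1 is in (p) and in J, which are coprime, so v - 1 is in (p) J = J'. -/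

theorem pd3_rad {p : ℕ} (hp : p.Prime) (hK : UnrP p K) (x : 𝓞 K)
    (h : x ^ p ∈ Ideal.span {(p : 𝓞 K)}) : x ∈ Ideal.span {(p : 𝓞 K)} := by
  have h0 : Ideal.span {(p : 𝓞 K)} ≠ 0 := by
    rw [Ne, Ideal.zero_eq_bot, Ideal.span_singleton_eq_bot]
    exact_mod_cast hp.ne_zero
  have h1 : IsRadical (Ideal.span {(p : 𝓞 K)}) := (isRadical_iff_squarefree_of_ne_zero h0).2 hK
  have h2 : Ideal.span {(p : 𝓞 K)} ∣ Ideal.span {x} := by
    apply h1 p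
    rw [Ideal.span_singleton_pow, Ideal.dvd_span_singleton]
    exact h
  rwa [Ideal.dvd_span_singleton] at h2

theorem prime_change (p : ℕ) (hp : p.Prime) (hK : UnrP p K) (J J' : Ideal (𝓞 K)) (hJ : J ≠ ⊥)
    (hJ2 : IsCoprime J (Ideal.span {(p : 𝓞 K)})) (hJ' : J' = Ideal.span {(p : 𝓞 K)} * J)
    (X : Set (𝓞 K)) (hX0 : (0 : 𝓞 K) ∉ X)
    (hX : ∀ u : (𝓞 K)ˣ, (u : 𝓞 K) - 1 ∈ J → ∀ x ∈ X, (u : 𝓞 K) * x ∈ X) :
    ∃ ν : ℕ, ¬ p ∣ ν ∧ ∀ T, Transv J X T → ∃ T', Transv J' X T' ∧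
      ∀ (φ : 𝓞 K → ℂ) (S : ℂ), (∀ u : (𝓞 K)ˣ, (u : 𝓞 K) - 1 ∈ J → ∀ x ∈ X, φ ((u : 𝓞 K) * x) = φ x) →
        HasSum (fun x : T' => φ x) S → HasSum (fun x : T => φ x) (S / ν) := by
  have hp0 : (p : 𝓞 K) ≠ 0 := by exact_mod_cast hp.ne_zero
  have hJ'0 : J' ≠ ⊥ := by
    rw [hJ', Ne, Ideal.mul_eq_bot, Ideal.span_singleton_eq_bot]
    exact fun h => h.elim hp0 hJ
  have hle : J' ≤ J := hJ' ▸ Ideal.mul_le_right
  haveI := D3_fin J' hJ'0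
  haveI hfi : ((D3_U J').subgroupOf (D3_U J)).FiniteIndex := inferInstance
  refine ⟨((D3_U J').subgroupOf (D3_U J)).index, ?_, D3_main J J' hle X hfi hX0 hX⟩
  intro hev
  haveI : Finite ((D3_U J) ⧸ ((D3_U J').subgroupOf (D3_U J))) :=
    Subgroup.finite_quotient_of_finiteIndex
  haveI : Fact (Nat.Prime p) := ⟨hp⟩
  obtain ⟨q, hq⟩ := exists_prime_orderOf_dvd_card' (G := (D3_U J) ⧸ ((D3_U J').subgroupOf (D3_U J)))
    p hev
  obtain ⟨a, rfl⟩ := QuotientGroup.mk_surjective q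
  have h1 := pow_orderOf_eq_one (QuotientGroup.mk a : (D3_U J) ⧸ ((D3_U J').subgroupOf (D3_U J)))
  rw [hq, ← QuotientGroup.mk_pow, QuotientGroup.eq_one_iff, Subgroup.mem_subgroupOf, D3_mem] at h1
  have h2 : (((a : (𝓞 K)ˣ) : 𝓞 K) - 1) ^ p ∈ Ideal.span {(p : 𝓞 K)} := by
    obtain ⟨r, hr⟩ := exists_add_pow_prime_eq hp (((a : (𝓞 K)ˣ) : 𝓞 K) - 1) 1
    have h3 : (((a : (𝓞 K)ˣ) : 𝓞 K) - 1) ^ p =
        ((((a ^ p : D3_U J) : (𝓞 K)ˣ) : 𝓞 K) - 1) -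
          (p : 𝓞 K) * ((((a : (𝓞 K)ˣ) : 𝓞 K) - 1) * 1 * r) := by
      rw [SubmonoidClass.coe_pow, Units.val_pow_eq_pow_val]
      rw [sub_add_cancel, one_pow] at hr
      linear_combination -hr
    rw [h3]
    refine Ideal.sub_mem _ ?_ (Ideal.mul_mem_right _ _ (Ideal.mem_span_singleton_self _))
    exact (hJ' ▸ Ideal.mul_le_left : J' ≤ Ideal.span {(p : 𝓞 K)}) h1
  have h4 := pd3_rad hp hK _ h2
  have h5 : ((a : (𝓞 K)ˣ) : 𝓞 K) - 1 ∈ J' := by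
    have h6 : ((a : (𝓞 K)ˣ) : 𝓞 K) - 1 ∈ Ideal.span {(p : 𝓞 K)} ⊓ J := ⟨h4, (D3_mem J _).1 a.2⟩
    rw [hJ', Ideal.mul_eq_inf_of_coprime]
    · exact h6
    · exact (Ideal.isCoprime_iff_sup_eq.1 hJ2.symm)
  have h7 : (QuotientGroup.mk a : (D3_U J) ⧸ ((D3_U J').subgroupOf (D3_U J))) = 1 := by
    rw [QuotientGroup.eq_one_iff, Subgroup.mem_subgroupOf, D3_mem]
    exact h5
  rw [h7, orderOf_one] at hq
  exact hp.one_lt.ne hq

theorem finite_change (J J' : Ideal (𝓞 K)) (hJ' : J' ≠ ⊥) (hle : J' ≤ J) (X : Set (𝓞 K))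
    (hX0 : (0 : 𝓞 K) ∉ X) (hX : ∀ u : (𝓞 K)ˣ, (u : 𝓞 K) - 1 ∈ J → ∀ x ∈ X, (u : 𝓞 K) * x ∈ X) :
    ∃ ν : ℕ, 0 < ν ∧ ∀ T, Transv J X T → ∃ T', Transv J' X T' ∧
      ∀ (φ : 𝓞 K → ℂ) (S : ℂ), (∀ u : (𝓞 K)ˣ, (u : 𝓞 K) - 1 ∈ J → ∀ x ∈ X, φ ((u : 𝓞 K) * x) = φ x) →
        HasSum (fun x : T' => φ x) S → HasSum (fun x : T => φ x) (S / ν) := by
  haveI := D3_fin J' hJ'
  haveI hfi : ((D3_U J').subgroupOf (D3_U J)).FiniteIndex := inferInstance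
  exact ⟨((D3_U J').subgroupOf (D3_U J)).index, Nat.pos_of_ne_zero hfi.index_ne_zero,
    D3_main J J' hle X hfi hX0 hX⟩

end H55P
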