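import Mathlib
import Pool.Agent.Lib.H55P.SD

open NumberField IsDedekindDomain WeierstrassCurve

namespace H55P

variable {F : Type} [Field F] [NumberField F] {Ω : Type} [Field Ω] [DecidableEq Ω] [Algebra F Ω]
  [IsAlgClosed Ω] [Algebra.IsAlgebraic F Ω] [CharZero Ω]

/-! Chunk PS12 (M). The tower; PORT of exists_sub3 in Lib/H19T/A9b.lean (p = 3, base field F there) to a prime p and to fields between M and L inside Ω.
G = the group of automorphisms of L over M (L as an extension of M: IntermediateField.extendScalars, FR_galois in Lib/H16C/FR2.lean; order p^k), H' = the fixing subgroup of K, H = a subgroup containing H' with index p (Sylow.exists_subgroup_card_pow_succ), H' normal in H, N = the fixed field of H.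
Conclude with the restriction of automorphisms of Ω to L (normal): s in N.fixingSubgroup restricts to an element of H, which maps K to K. chain_types: the instances for the types of N and K: the algebra structure by IntermediateField.inclusion; IsGalois: normal since every
s in N.fixingSubgroup maps K to K (FR_galois), separable in characteristic 0; finrank from hdeg and finrank F K = finrank F N * finrank N K. PExt.sub: finrank of K over F divides. -/

/-- An automorphism of Ω over F which fixes K is an automorphism over K. -/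
noncomputable def S12_up {K : IntermediateField F Ω} (g : Ω ≃ₐ[F] Ω) (hg : g ∈ K.fixingSubgroup) :
    Ω ≃ₐ[K] Ω :=
  AlgEquiv.ofRingEquiv (f := (g : Ω ≃+* Ω)) (fun x => hg x)

theorem S12_fin (K L : IntermediateField F Ω) (hKL : K ≤ L) [FiniteDimensional F L] :
    FiniteDimensional K (IntermediateField.extendScalars hKL) := by
  have h1 : FiniteDimensional F (IntermediateField.extendScalars hKL) :=
    inferInstanceAs (FiniteDimensional F L)
  exact Module.Finite.of_restrictScalars_finite F K _

theorem S12_galois (K L : IntermediateField F Ω) (hKL : K ≤ L) [FiniteDimensional F L]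
    (hst : ∀ g ∈ K.fixingSubgroup, ∀ x ∈ L, g x ∈ L) :
    IsGalois K (IntermediateField.extendScalars hKL) := by
  have hfin := S12_fin K L hKL
  have hal : Algebra.IsAlgebraic K Ω := Algebra.IsAlgebraic.tower_top (K := F) K
  have hcl : IsAlgClosure K Ω := ⟨inferInstance, hal⟩
  have hno : Normal K Ω := IsAlgClosure.normal K Ω
  have : Normal K (IntermediateField.extendScalars hKL) := by
    rw [IntermediateField.normal_iff_forall_map_le']
    intro σ
    rintro y ⟨x, hx, rfl⟩
    have hx' : x ∈ L := IntermediateField.mem_extendScalars hKL |>.1 hx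
    have h2 := hst (σ.restrictScalars F) (fun z => σ.commutes z) x hx'
    exact (IntermediateField.mem_extendScalars hKL).2 h2
  have : CharZero K := charZero_of_injective_algebraMap (algebraMap F K).injective
  exact { }

theorem S12_restr {K : IntermediateField F Ω} (L : IntermediateField K Ω) [Normal K L] (g : Ω ≃ₐ[F] Ω)
    (hg : g ∈ K.fixingSubgroup) : ∃ s : Gal(L/K), ∀ x : L, ((s x : L) : Ω) = g (x : Ω) :=
  ⟨(S12_up g hg).restrictNormal L, fun x => (S12_up g hg).restrictNormal_commutes L x⟩

theorem S12_rank (M K : IntermediateField F Ω) (h : M ≤ K) :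
    Module.finrank F M * Module.finrank M (IntermediateField.extendScalars h) = Module.finrank F K := by
  rw [Module.finrank_mul_finrank]
  rfl

theorem S12_normal (p : ℕ) (hp : p.Prime) {G : Type} [Group G] [Finite G] (H' H : Subgroup G) (j : ℕ)
    (h1 : Nat.card H' = p ^ j) (h2 : Nat.card H = p ^ (j + 1)) (hle : H' ≤ H) :
    (H'.subgroupOf H).Normal := by
  have hp0 := hp.pos
  have hidx : (H'.subgroupOf H).index = p := by
    have h3 := Subgroup.card_mul_index (H'.subgroupOf H)
    have h4 : Nat.card (H'.subgroupOf H) = Nat.card H' :=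
      Nat.card_congr (Subgroup.subgroupOfEquivOfLe hle).toEquiv
    rw [h4, h1, h2, pow_succ] at h3
    exact Nat.eq_of_mul_eq_mul_left (by positivity) h3
  apply Subgroup.normal_of_index_eq_minFac_card
  rw [hidx, h2, Nat.pow_minFac (by omega)]
  exact hp.minFac_eq.symm

theorem chain_step (p : ℕ) (hp : p.Prime) (M K L : IntermediateField F Ω) (hL : PExt p M L) (hMK : M ≤ K)
    (hKL : K ≤ L) (hne : K ≠ M) : ∃ N : IntermediateField F Ω, M ≤ N ∧ N ≤ K ∧
      Module.finrank F K = Module.finrank F N * p ∧ ∀ s ∈ N.fixingSubgroup, ∀ x ∈ K, s x ∈ K := by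
  have hfinL := hL.fin
  have hp0 := hp.pos
  have hp' := Fact.mk hp
  obtain ⟨k, hk⟩ := hL.deg
  have hfin := S12_fin M L hL.le
  have hgal := S12_galois M L hL.le hL.norm
  obtain ⟨L', hL'⟩ : ∃ L' : IntermediateField M Ω, L' = IntermediateField.extendScalars hL.le :=
    ⟨_, rfl⟩
  rw [← hL'] at hfin hgal
  have hmem : ∀ x : Ω, x ∈ L' ↔ x ∈ L := by
    intro x
    rw [hL']
    exact Iff.rfl
  have hKL' : IntermediateField.extendScalars hMK ≤ L' := fun x hx => (hmem x).2 (hKL hx)
  obtain ⟨K', hK'⟩ : ∃ K' : IntermediateField M L', K' = IntermediateField.restrict hKL' :=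
    ⟨_, rfl⟩
  have hmemK : ∀ x : L', x ∈ K' ↔ (x : Ω) ∈ K := by
    intro x
    rw [hK', IntermediateField.mem_restrict]
    exact Iff.rfl
  have hrk : Module.finrank F M * Module.finrank M K' = Module.finrank F K := by
    rw [← S12_rank M K hMK, hK',
      (IntermediateField.restrictAlgEquiv hKL').toLinearEquiv.finrank_eq]
  have hrl : Module.finrank F M * Module.finrank M L' = Module.finrank F L := by
    rw [hL']
    exact S12_rank M L hL.le
  have hM0 : 0 < Module.finrank F M := by
    have : 0 < Module.finrank F L := Module.finrank_pos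
    rw [← hrl] at this
    exact Nat.pos_of_mul_pos_right this
  have hLp : Module.finrank M L' = p ^ k := by
    rw [hk] at hrl
    exact Nat.eq_of_mul_eq_mul_left hM0 hrl
  have h2 : Module.finrank M K' * Module.finrank K' L' = p ^ k := by
    rw [Module.finrank_mul_finrank, hLp]
  obtain ⟨j, hj, hj2⟩ := (Nat.dvd_prime_pow hp).1 (Dvd.intro_left _ h2 : Module.finrank K' L' ∣ p ^ k)
  have h3 : Nat.card K'.fixingSubgroup = p ^ j := by
    rw [IsGalois.card_fixingSubgroup_eq_finrank, hj2]
  have hcardG : Nat.card (L' ≃ₐ[M] L') = p ^ k := by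
    rw [IsGalois.card_aut_eq_finrank, hLp]
  have hjk : j < k := by
    rcases lt_or_eq_of_le hj with h | h
    · exact h
    · exfalso
      apply hne
      rw [hj2, h] at h2
      have h5 : Module.finrank M K' = 1 := by
        have h4 : (0 : ℕ) < p ^ k := by positivity
        exact Nat.eq_of_mul_eq_mul_right h4 (by rw [one_mul]; exact h2)
      have h6 : K' = ⊥ := IntermediateField.finrank_eq_one_iff.1 h5
      refine le_antisymm ?_ hMK
      intro x hx
      have h7 : (⟨x, hKL' hx⟩ : L') ∈ K' := (hmemK _).2 hx
      rw [h6, IntermediateField.mem_bot] at h7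
      obtain ⟨y, hy⟩ := h7
      have h8 := congrArg (fun z : L' => (z : Ω)) hy
      have h9 : (y : Ω) = x := h8
      rw [← h9]
      exact y.2
  obtain ⟨H, hH, hle⟩ := Sylow.exists_subgroup_card_pow_succ (p := p) (G := L' ≃ₐ[M] L') (n := j)
    (by rw [hcardG]; exact pow_dvd_pow p hjk) h3
  obtain ⟨N', hN'⟩ : ∃ N' : IntermediateField M L', N' = IntermediateField.fixedField H := ⟨_, rfl⟩
  have hNK : N' ≤ K' := by
    intro x hx
    rw [← IsGalois.fixedField_fixingSubgroup K', IntermediateField.mem_fixedField_iff]
    intro σ hσ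
    rw [hN'] at hx
    exact (IntermediateField.mem_fixedField_iff H x).1 hx σ (hle hσ)
  have h6 : Module.finrank N' L' = p ^ (j + 1) := by
    rw [hN', IntermediateField.finrank_fixedField_eq_card, hH]
  have h7 : Module.finrank M N' * Module.finrank N' L' = p ^ k := by
    rw [Module.finrank_mul_finrank, hLp]
  have h8 : Module.finrank M K' = Module.finrank M N' * p := by
    rw [hj2] at h2
    rw [h6, ← h2, pow_succ] at h7
    have h4 : (0 : ℕ) < p ^ j := by positivity
    refine Nat.eq_of_mul_eq_mul_right h4 ?_
    rw [← h7]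
    ring
  obtain ⟨N, hN⟩ : ∃ N : IntermediateField F Ω,
      N = (IntermediateField.lift N').restrictScalars F := ⟨_, rfl⟩
  have hmemN : ∀ x : L', x ∈ N' ↔ (x : Ω) ∈ N := by
    intro x
    rw [hN, IntermediateField.mem_restrictScalars, IntermediateField.mem_lift]
  have hMN : M ≤ N := by
    intro x hx
    rw [hN, IntermediateField.mem_restrictScalars]
    exact (IntermediateField.lift N').algebraMap_mem ⟨x, hx⟩
  have hNL : ∀ x ∈ N, x ∈ L' := by
    intro x hx
    rw [hN, IntermediateField.mem_restrictScalars] at hx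
    exact IntermediateField.lift_le N' hx
  have hrn : Module.finrank F M * Module.finrank M N' = Module.finrank F N := by
    rw [← S12_rank M N hMN]
    congr 1
    rw [(IntermediateField.liftAlgEquiv N').toLinearEquiv.finrank_eq]
    have h9 : IntermediateField.lift N' = IntermediateField.extendScalars hMN := by
      ext x
      rw [IntermediateField.mem_extendScalars, hN, IntermediateField.mem_restrictScalars]
    rw [h9]
  refine ⟨N, hMN, ?_, ?_, ?_⟩
  · intro x hx
    have h9 : (⟨x, hNL x hx⟩ : L') ∈ N' := (hmemN _).2 hx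
    exact (hmemK _).1 (hNK h9)
  · rw [← hrk, ← hrn, h8, mul_assoc]
  · intro s hs x hx
    have hsM : s ∈ M.fixingSubgroup := by
      rw [IntermediateField.mem_fixingSubgroup_iff] at hs ⊢
      exact fun y hy => hs y (hMN hy)
    obtain ⟨t, ht⟩ := S12_restr L' s hsM
    have htH : t ∈ H := by
      rw [← IntermediateField.fixingSubgroup_fixedField H, ← hN',
        IntermediateField.mem_fixingSubgroup_iff]
      intro y hy
      apply Subtype.ext
      rw [ht]
      rw [IntermediateField.mem_fixingSubgroup_iff] at hs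
      exact hs _ ((hmemN y).1 hy)
    have hnorm := S12_normal p hp K'.fixingSubgroup H j h3 hH hle
    have hxL : x ∈ L' := hKL' hx
    have hxK : (⟨x, hxL⟩ : L') ∈ K' := (hmemK _).2 hx
    have hmem2 : t ⟨x, hxL⟩ ∈ K' := by
      rw [← IsGalois.fixedField_fixingSubgroup K', IntermediateField.mem_fixedField_iff]
      intro τ hτ
      have h12 : (⟨τ, hle hτ⟩ : H) ∈ K'.fixingSubgroup.subgroupOf H := by
        rw [Subgroup.mem_subgroupOf]
        exact hτ
      have h13 := hnorm.conj_mem _ h12 (⟨t, htH⟩ : H)⁻¹
      rw [Subgroup.mem_subgroupOf] at h13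
      have h14 : t⁻¹ * τ * t ∈ K'.fixingSubgroup := by
        simpa using h13
      have h15 : (t⁻¹ * τ * t) ⟨x, hxL⟩ = ⟨x, hxL⟩ :=
        (IntermediateField.mem_fixingSubgroup_iff K' _).1 h14 _ hxK
      have h16 : τ (t ⟨x, hxL⟩) = t ((t⁻¹ * τ * t) ⟨x, hxL⟩) := by
        rw [← AlgEquiv.mul_apply, ← AlgEquiv.mul_apply]
        congr 1
        group
      rw [h16, h15]
    have h17 := (hmemK _).1 hmem2
    rw [ht] at h17
    exact h17

theorem chain_types (p : ℕ) (hp : p.Prime) (N K : IntermediateField F Ω) [FiniteDimensional F K]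
    (hNK : N ≤ K) (hnorm : ∀ s ∈ N.fixingSubgroup, ∀ x ∈ K, s x ∈ K)
    (hdeg : Module.finrank F K = Module.finrank F N * p) :
    letI : Algebra N K := (IntermediateField.inclusion hNK).toRingHom.toAlgebra
    IsScalarTower F N K ∧ IsGalois N K ∧ Module.finrank N K = p := by
  letI : Algebra N K := (IntermediateField.inclusion hNK).toRingHom.toAlgebra
  have ht : IsScalarTower F N K := IsScalarTower.of_algebraMap_eq fun x => rfl
  have hg := S12_galois N K hNK hnorm
  let E : (IntermediateField.extendScalars hNK) ≃ₐ[N] K :=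
    { toFun := fun x => ⟨x.1, x.2⟩
      invFun := fun x => ⟨x.1, x.2⟩
      left_inv := fun _ => rfl
      right_inv := fun _ => rfl
      map_mul' := fun _ _ => rfl
      map_add' := fun _ _ => rfl
      commutes' := fun _ => rfl }
  refine ⟨ht, IsGalois.of_algEquiv E, ?_⟩
  have h1 : Module.finrank F N * Module.finrank N K = Module.finrank F K :=
    Module.finrank_mul_finrank F N K
  rw [hdeg] at h1
  have h0 : 0 < Module.finrank F N := by
    have : 0 < Module.finrank F K := Module.finrank_pos
    rw [hdeg] at this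
    exact Nat.pos_of_mul_pos_right this
  exact Nat.eq_of_mul_eq_mul_left h0 h1

/-- For every s in the group of M a power s^(p^k) fixes L. -/
theorem PExt.pow (p : ℕ) (hp : p.Prime) (M L : IntermediateField F Ω) (hL : PExt p M L) :
    ∃ k : ℕ, ∀ s ∈ M.fixingSubgroup, s ^ p ^ k ∈ L.fixingSubgroup := by
  have hfinL := hL.fin
  obtain ⟨k, hk⟩ := hL.deg
  have hfin := S12_fin M L hL.le
  have hgal := S12_galois M L hL.le hL.norm
  have hrl := S12_rank M L hL.le
  have hM0 : 0 < Module.finrank F M := by
    have : 0 < Module.finrank F L := Module.finrank_pos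
    rw [← hrl] at this
    exact Nat.pos_of_mul_pos_right this
  have hLp : Module.finrank M (IntermediateField.extendScalars hL.le) = p ^ k := by
    rw [hk] at hrl
    exact Nat.eq_of_mul_eq_mul_left hM0 hrl
  refine ⟨k, ?_⟩
  intro s hs
  obtain ⟨t, ht⟩ := S12_restr (IntermediateField.extendScalars hL.le) s hs
  have hpow : ∀ (n : ℕ) (x : IntermediateField.extendScalars hL.le),
      (((t ^ n) x : IntermediateField.extendScalars hL.le) : Ω) = (s ^ n) (x : Ω) := by
    intro n
    induction n with
    | zero => intro x; rfl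
    | succ n ih =>
      intro x
      rw [pow_succ, pow_succ, AlgEquiv.mul_apply, AlgEquiv.mul_apply, ih, ht]
  have h1 : t ^ p ^ k = 1 := by
    have h2 : Nat.card (IntermediateField.extendScalars hL.le ≃ₐ[M]
        IntermediateField.extendScalars hL.le) = p ^ k := by
      rw [IsGalois.card_aut_eq_finrank, hLp]
    rw [← h2]
    exact pow_card_eq_one'
  rw [IntermediateField.mem_fixingSubgroup_iff]
  intro x hx
  have h3 := hpow (p ^ k) ⟨x, hx⟩
  rw [h1] at h3
  exact h3.symm

theorem PExt.conj (p : ℕ) (M L : IntermediateField F Ω) (hL : PExt p M L) (s : Ω ≃ₐ[F] Ω)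
    (hs : s ∈ M.fixingSubgroup) (t : Ω ≃ₐ[F] Ω) (ht : t ∈ L.fixingSubgroup) :
    s * t * s⁻¹ ∈ L.fixingSubgroup := by
  rw [IntermediateField.mem_fixingSubgroup_iff] at ht ⊢
  intro x hx
  have h1 : s⁻¹ x ∈ L := hL.norm s⁻¹ (inv_mem hs) x hx
  rw [AlgEquiv.mul_apply, AlgEquiv.mul_apply, ht _ h1]
  exact s.apply_symm_apply x

end H55P
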