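import Mathlib
import Pool.Agent.Lib.H55P.A2
import Pool.Agent.Lib.H55N.B7
import Pool.Agent.Lib.H55N.B8

open NumberField IsDedekindDomain

namespace H55P

open H55N
open H55B (g)

variable {F : Type} [Field F] [NumberField F] [IQ F] {K : Type} [Field K] [NumberField K] [Algebra F K] {m : ℕ}
  {P ι : Type} [Fintype ι] [DecidableEq ι]

/-! Chunk B9 (M). The sizes and the rows of the labels T t.
sv_sz, sv_gs: sz(x - w) <= sz x + sum_i |σ_i w| <= (1 + C) sz x and conversely (sz >= 1), Fintype ι; gs = 1/sz.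
good_sig: Good.additive (|σ_a x| <= sz x, |σ_a (w_i)| <= C = C sz x * gs x). good_Q: |σ_i x|^2 = σ_i x * conj(σ_i x): Good.mul, Good.conj, Good.smul, Good.sum.
good_row: conj(σ_i x) * t_i * (1/Q): Good.inv with Q_low (0 not in Y), weight sz * sz^(-2) = sz^(-1). -/

theorem B9_sub (D : Ctx F K m) (x y : 𝓞 K) : D.sz (x - y) ≤ D.sz x + D.sz y := by
  unfold Ctx.sz
  have h1 : ∑ i, ‖D.σ i (x - y : 𝓞 K)‖ ≤ ∑ i, (‖D.σ i x‖ + ‖D.σ i y‖) := by
    refine Finset.sum_le_sum fun i _ => ?_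
    have h2 : D.σ i ((x - y : 𝓞 K) : K) = D.σ i x - D.σ i y := by
      simp only [map_sub]
    rw [h2]
    exact norm_sub_le _ _
  rw [Finset.sum_add_distrib] at h1
  linarith

theorem B9_sub' (D : Ctx F K m) (x y : 𝓞 K) : D.sz x ≤ D.sz (x - y) + D.sz y := by
  unfold Ctx.sz
  have h1 : ∑ i, ‖D.σ i x‖ ≤ ∑ i, (‖D.σ i (x - y : 𝓞 K)‖ + ‖D.σ i y‖) := by
    refine Finset.sum_le_sum fun i _ => ?_
    have h2 : D.σ i ((x - y : 𝓞 K) : K) = D.σ i x - D.σ i y := by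
      simp only [map_sub]
    have h3 : D.σ i x = (D.σ i x - D.σ i y) + D.σ i y := by ring
    rw [h2]
    calc ‖D.σ i x‖ = ‖(D.σ i x - D.σ i y) + D.σ i y‖ := by rw [← h3]
      _ ≤ _ := norm_add_le _ _
  rw [Finset.sum_add_distrib] at h1
  linarith

/-- A bound for the sizes of the directions. -/
noncomputable def B9_C (D : Ctx F K m) (w : ι → 𝓞 K) : ℝ := 1 + ∑ i, D.sz (w i)

omit [DecidableEq ι] in
theorem B9_le_C (D : Ctx F K m) (w : ι → 𝓞 K) (i : ι) : 1 + D.sz (w i) ≤ B9_C D w := by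
  unfold B9_C
  have : D.sz (w i) ≤ ∑ i, D.sz (w i) :=
    Finset.single_le_sum (f := fun i => D.sz (w i)) (fun i _ => (D.sz_pos _).le)
      (Finset.mem_univ i)
  linarith

omit [DecidableEq ι] in
theorem B9_one_le_C (D : Ctx F K m) (w : ι → 𝓞 K) : 1 ≤ B9_C D w := by
  unfold B9_C
  have : 0 ≤ ∑ i, D.sz (w i) := Finset.sum_nonneg fun i _ => (D.sz_pos _).le
  linarith

omit [DecidableEq ι] in
theorem B9_sz (D : Ctx F K m) (w : ι → 𝓞 K) (x : 𝓞 K) (i : ι) :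
    D.sz (x - w i) ≤ B9_C D w * D.sz x ∧ D.sz x ≤ B9_C D w * D.sz (x - w i) := by
  have h1 := B9_sub D x (w i)
  have h2 := B9_sub' D x (w i)
  have h3 := B9_le_C D w i
  have h4 := D.one_le_sz x
  have h5 := D.one_le_sz (x - w i)
  have h6 := D.sz_pos (w i)
  constructor <;> nlinarith

theorem sv_sz (D : Ctx F K m) (w : ι → 𝓞 K) (Y : Set (𝓞 K)) :
    SV Y w fun (_ : P) x => D.sz x := by
  refine ⟨fun _ x _ => D.sz_pos x, B9_C D w, ?_⟩
  intro _ x _ i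
  exact B9_sz D w x i

theorem sv_gs (D : Ctx F K m) (w : ι → 𝓞 K) (Y : Set (𝓞 K)) :
    SV Y w (D.gs : ι → 𝓞 K → ℝ) := by
  refine ⟨fun _ x _ => inv_pos.mpr (D.sz_pos x), B9_C D w, ?_⟩
  intro _ x _ i
  obtain ⟨h1, h2⟩ := B9_sz D w x i
  have h3 := D.sz_pos x
  have h4 := D.sz_pos (x - w i)
  unfold Ctx.gs
  constructor
  · rw [← div_eq_mul_inv, le_div_iff₀ h3, inv_mul_le_iff₀ h4]
    linarith
  · rw [← div_eq_mul_inv, le_div_iff₀ h4, inv_mul_le_iff₀ h3]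
    linarith

theorem good_sig (D : Ctx F K m) (w : ι → 𝓞 K) (Y : Set (𝓞 K)) (a : Fin (m + 1)) :
    Good Y w D.gs (fun (_ : P) x => D.sz x) (fun _ x => D.σ a x) := by
  apply Good.additive (fun _ x _ => (D.sz_pos x).le) (fun _ x _ => (inv_pos.mpr (D.sz_pos x)).le)
    (fun _ x y => by simp only [map_sub]) (B9_C D w)
  · intro _ x _
    have h1 := D.norm_le_sz x a
    have h2 := B9_one_le_C D w
    have h3 := D.sz_pos x
    nlinarith
  · intro _ x _ i
    have h1 := D.norm_le_sz (w i) a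
    have h2 := B9_le_C D w i
    have h3 := D.sz_pos x
    have h4 : B9_C D w * D.sz x * (D.sz x)⁻¹ = B9_C D w := by
      field_simp
    show _ ≤ B9_C D w * D.sz x * (D.sz x)⁻¹
    rw [h4]
    linarith

theorem good_Q (D : Ctx F K m) (w : ι → 𝓞 K) (Y : Set (𝓞 K)) (hY : ∀ x ∈ Y, ∀ i, x - w i ∈ Y)
    (t : P → Fin (m + 1) → ℝ) (b : ℝ) (hb : ∀ q i, |t q i| ≤ b) :
    Good Y w D.gs (fun (_ : P) x => D.sz x ^ 2) (fun q x => (D.Q (t q) x : ℂ)) := by
  have hg : ∀ (i : ι), ∀ x ∈ Y, 0 ≤ D.gs i x := fun _ x _ => (inv_pos.mpr (D.sz_pos x)).le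
  have h1 : ∀ i : Fin (m + 1), Good Y w D.gs (fun (_ : P) x => D.sz x ^ 2)
      (fun (q : P) (x : 𝓞 K) => (t q i : ℂ) * (D.σ i x * (starRingEnd ℂ) (D.σ i x))) := by
    intro i
    have h2 := Good.mul hY (sv_gs D w Y) (sv_sz (P := P) D w Y) (sv_sz (P := P) D w Y)
      (good_sig D w Y i) (Good.conj (good_sig D w Y i))
    have h3 := Good.smul h2 hg (fun _ x _ => mul_nonneg (D.sz_pos x).le (D.sz_pos x).le)
      (fun q => (t q i : ℂ)) b (fun q => by
        rw [Complex.norm_real, Real.norm_eq_abs]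
        exact hb q i)
    have h4 : (fun (_ : P) (x : 𝓞 K) => D.sz x ^ 2) = fun _ x => D.sz x * D.sz x := by
      funext _ x
      ring
    rw [h4]
    exact h3
  have h5 := Good.sum (Finset.univ : Finset (Fin (m + 1))) _ (fun i _ => h1 i) hg
    (fun _ x _ => by positivity)
  have h6 : (fun (q : P) (x : 𝓞 K) => (D.Q (t q) x : ℂ)) =
      fun (q : P) (x : 𝓞 K) => ∑ i, (t q i : ℂ) * (D.σ i x * (starRingEnd ℂ) (D.σ i x)) := by
    funext q x
    unfold Ctx.Q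
    rw [Complex.ofReal_sum]
    refine Finset.sum_congr rfl fun i _ => ?_
    rw [Complex.mul_conj, Complex.normSq_eq_norm_sq]
    push_cast
    ring
  rw [h6]
  exact h5

theorem good_row (D : Ctx F K m) (hE : Emb F D.σ) (w : ι → 𝓞 K) (Y : Set (𝓞 K))
    (hY : ∀ x ∈ Y, ∀ i, x - w i ∈ Y) (h0 : (0 : 𝓞 K) ∉ Y) (t : P → Fin (m + 1) → ℝ) (a b : ℝ)
    (ha : 0 < a) (ht : ∀ q i, a ≤ t q i ∧ t q i ≤ b) (i : Fin (m + 1)) :
    Good Y w D.gs (fun (_ : P) x => (D.sz x)⁻¹) (fun q x => D.row (.T (t q)) x i) := by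
  have hg : ∀ (i : ι), ∀ x ∈ Y, 0 ≤ D.gs i x := fun _ x _ => (inv_pos.mpr (D.sz_pos x)).le
  have hb : ∀ q i, |t q i| ≤ b := by
    intro q i
    rw [abs_of_nonneg (by linarith [(ht q i).1])]
    exact (ht q i).2
  obtain ⟨c, hc, hlow⟩ := Q_low D hE a ha
  have h1 := Good.inv hY (sv_gs D w Y) (SV.pow hY (sv_sz (P := P) D w Y) 2)
    (good_Q D w Y hY t b hb) c hc (by
      intro q x hx
      have hx0 : x ≠ 0 := by
        rintro rfl
        exact h0 hx
      have h2 := hlow (t q) (fun i => (ht q i).1) x hx0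
      rw [Complex.norm_real, Real.norm_eq_abs]
      exact h2.trans (le_abs_self _))
  have h2 := Good.smul h1 hg (fun _ x _ => by positivity) (fun q => (t q i : ℂ)) b (fun q => by
        rw [Complex.norm_real, Real.norm_eq_abs]
        exact hb q i)
  have h3 := Good.mul hY (sv_gs D w Y) (sv_sz (P := P) D w Y)
    (SV.inv hY (SV.pow hY (sv_sz (P := P) D w Y) 2)) (Good.conj (good_sig D w Y i)) h2
  have h4 : (fun (_ : P) (x : 𝓞 K) => (D.sz x)⁻¹) = fun _ x => D.sz x * (D.sz x ^ 2)⁻¹ := by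
    funext _ x
    have := D.sz_pos x
    field_simp
  have h5 : (fun (q : P) (x : 𝓞 K) => D.row (.T (t q)) x i) =
      fun (q : P) (x : 𝓞 K) =>
        (starRingEnd ℂ) (D.σ i x) * ((t q i : ℂ) * (D.Q (t q) x : ℂ)⁻¹) := by
    funext q x
    show (starRingEnd ℂ) (D.σ i x) * (t q i) / D.Q (t q) x = _
    rw [div_eq_mul_inv, mul_assoc]
  rw [h4, h5]
  exact h3

end H55P
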