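import Mathlib
import Pool.Agent.Lib.H55P.B9

open NumberField IsDedekindDomain

namespace H55P

open H55N
open H55B (g)

variable {F : Type} [Field F] [NumberField F] [IQ F] {K : Type} [Field K] [NumberField K] [Algebra F K] {m : ℕ}
  {P ι : Type} [Fintype ι] [DecidableEq ι]

/-! Chunk B11 (M). The cutoff functions. cut = (1/h_R)^(m+2), h_R = 1 + q(x)/R^2, q(x) = sum_i |sum_j B_ij σ_j x|^2.
c sz^2 <= q(x) <= C sz^2 on Y: B is invertible, so |σ x| <= C |B σ x|, and sz_le. h_R is SV uniformly in R >= 1 (|y-w|^2 <= 2|y|^2+2|w|^2 for the vectors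
B σ x). q is Good with weight sz^2 (products of additive functions with their conjugates, as in B9), so q/R^2 is Good with weight sz^2/R^2 <= C h_R, so h_R is Good with
weight h_R (Good.add with the constant 1, Good.mono); Good.inv, Good.pow, Good.mono (h_R >= 1).
cut_le: 0 <= cut <= 1, and for R >= 1 cut <= C_R sz^(-2(m+2)) on Y. cut_tendsto: for fixed x, cut -> 1 as R -> infinity. -/

/-- The linear forms. -/
noncomputable def b11L (D : Ctx F K m) (B : Matrix (Fin (m + 1)) (Fin (m + 1)) ℂ) (i : Fin (m + 1))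
    (x : 𝓞 K) : ℂ := ∑ j, B i j * D.σ j x

/-- The quadratic form. -/
noncomputable def b11q (D : Ctx F K m) (B : Matrix (Fin (m + 1)) (Fin (m + 1)) ℂ) (x : 𝓞 K) : ℝ :=
  ∑ i, ‖b11L D B i x‖ ^ 2

theorem b11q_nonneg (D : Ctx F K m) (B : Matrix (Fin (m + 1)) (Fin (m + 1)) ℂ) (x : 𝓞 K) :
    0 ≤ b11q D B x := Finset.sum_nonneg fun _ _ => by positivity

theorem b11_cut (D : Ctx F K m) (B : Matrix (Fin (m + 1)) (Fin (m + 1)) ℂ) (R : ℝ) (x : 𝓞 K) :
    D.cut B R x = (R ^ 2 / (R ^ 2 + b11q D B x)) ^ (m + 2) := rfl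

theorem b11_low (D : Ctx F K m) (hE : Emb F D.σ) (B : Matrix (Fin (m + 1)) (Fin (m + 1)) ℂ)
    (hB : B.det ≠ 0) : ∃ c : ℝ, 0 < c ∧ ∀ x : 𝓞 K, x ≠ 0 → c * D.sz x ^ 2 ≤ b11q D B x := by
  set M : ℝ := ∑ j, ∑ i, ‖B⁻¹ j i‖ with hM
  have hM0 : 0 ≤ M := Finset.sum_nonneg fun _ _ => Finset.sum_nonneg fun _ _ => norm_nonneg _
  have hden : 0 < 4 * M ^ 2 * (m + 1) + 1 := by positivity
  refine ⟨(4 * M ^ 2 * (m + 1) + 1)⁻¹, inv_pos.2 hden, fun x hx => ?_⟩
  obtain ⟨h1, h2⟩ := sz_le D hE x hx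
  have hu : IsUnit B.det := isUnit_iff_ne_zero.2 hB
  have h3 : ∀ j, D.σ j x = ∑ i, B⁻¹ j i * b11L D B i x := by
    intro j
    have e1 : (B⁻¹ * B).mulVec (fun j => D.σ j x) = fun j => D.σ j x := by
      rw [Matrix.nonsing_inv_mul _ hu, Matrix.one_mulVec]
    rw [← Matrix.mulVec_mulVec] at e1
    have e2 := congrFun e1 j
    rw [← e2]
    rfl
  set S : ℝ := ∑ i, ‖b11L D B i x‖ with hS
  have hS0 : 0 ≤ S := Finset.sum_nonneg fun _ _ => norm_nonneg _
  have h4 : ∑ j, ‖D.σ j x‖ ≤ M * S := by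
    rw [hM, Finset.sum_mul]
    refine Finset.sum_le_sum fun j _ => ?_
    rw [h3 j, Finset.sum_mul]
    refine (norm_sum_le _ _).trans (Finset.sum_le_sum fun i _ => ?_)
    rw [norm_mul]
    exact mul_le_mul_of_nonneg_left
      (Finset.single_le_sum (f := fun i => ‖b11L D B i x‖) (fun _ _ => norm_nonneg _)
        (Finset.mem_univ i)) (norm_nonneg _)
  have h5 : S ^ 2 ≤ (m + 1) * b11q D B x := by
    have := sq_sum_le_card_mul_sum_sq (s := (Finset.univ : Finset (Fin (m + 1))))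
      (f := fun i => ‖b11L D B i x‖)
    rw [Finset.card_univ, Fintype.card_fin] at this
    push_cast at this
    exact this
  have h6 : D.sz x ≤ 2 * (M * S) := by linarith
  have h7 : D.sz x ^ 2 ≤ (2 * (M * S)) ^ 2 := pow_le_pow_left₀ (D.sz_pos x).le h6 2
  have h8 : (2 * (M * S)) ^ 2 ≤ 4 * M ^ 2 * ((m + 1) * b11q D B x) := by
    have : (2 * (M * S)) ^ 2 = 4 * M ^ 2 * S ^ 2 := by ring
    rw [this]
    exact mul_le_mul_of_nonneg_left h5 (by positivity)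
  have h9 := b11q_nonneg D B x
  rw [inv_mul_le_iff₀ hden]
  nlinarith

theorem b11_scale {M' : Type} [AddCommGroup M'] {X : Set M'} {w : ι → M'} {γ : ι → M' → ℝ}
    {β : P → M' → ℝ} {h : P → M' → ℂ} (h1 : Good X w γ β h) (a : P → ℝ) (ha : ∀ q, 0 ≤ a q) :
    Good X w γ (fun q x => a q * β q x) (fun q x => (a q : ℂ) * h q x) := by
  obtain ⟨C, hC⟩ := h1
  refine ⟨C, fun q S x hx => ?_⟩
  rw [dif_const_mul, norm_mul, Complex.norm_real, Real.norm_eq_abs, abs_of_nonneg (ha q)]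
  have := mul_le_mul_of_nonneg_left (hC q S x hx) (ha q)
  calc a q * ‖Dif w S (h q) x‖ ≤ a q * (C * β q x * ∏ i ∈ S, γ i x) := this
    _ = C * (a q * β q x) * ∏ i ∈ S, γ i x := by ring

theorem b11_goodL (D : Ctx F K m) (w : ι → 𝓞 K) (Y : Set (𝓞 K))
    (B : Matrix (Fin (m + 1)) (Fin (m + 1)) ℂ) (i : Fin (m + 1)) :
    Good Y w D.gs (fun (_ : P) x => D.sz x) (fun _ x => b11L D B i x) := by
  have hg : ∀ (i : ι), ∀ x ∈ Y, 0 ≤ D.gs i x := fun _ x _ => (inv_pos.mpr (D.sz_pos x)).le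
  unfold b11L
  exact Good.sum (P := P) (Finset.univ : Finset (Fin (m + 1))) (fun j _ (x : 𝓞 K) => B i j * D.σ j x)
    (fun j _ => Good.smul (good_sig D w Y j) hg (fun _ x _ => (D.sz_pos x).le) (fun _ => B i j)
      ‖B i j‖ (fun _ => le_rfl)) hg (fun _ x _ => (D.sz_pos x).le)

theorem b11_goodq (D : Ctx F K m) (w : ι → 𝓞 K) (Y : Set (𝓞 K)) (hY : ∀ x ∈ Y, ∀ i, x - w i ∈ Y)
    (B : Matrix (Fin (m + 1)) (Fin (m + 1)) ℂ) :
    Good Y w D.gs (fun (_ : P) x => D.sz x ^ 2) (fun _ x => (b11q D B x : ℂ)) := by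
  have hg : ∀ (i : ι), ∀ x ∈ Y, 0 ≤ D.gs i x := fun _ x _ => (inv_pos.mpr (D.sz_pos x)).le
  have h1 : ∀ i : Fin (m + 1), Good Y w D.gs (fun (_ : P) x => D.sz x ^ 2)
      (fun (_ : P) (x : 𝓞 K) => b11L D B i x * (starRingEnd ℂ) (b11L D B i x)) := by
    intro i
    have h2 := Good.mul hY (sv_gs D w Y) (sv_sz (P := P) D w Y) (sv_sz (P := P) D w Y)
      (b11_goodL D w Y B i) (Good.conj (b11_goodL D w Y B i))
    have h4 : (fun (_ : P) (x : 𝓞 K) => D.sz x ^ 2) = fun _ x => D.sz x * D.sz x := by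
      funext _ x
      ring
    rw [h4]
    exact h2
  have h5 := Good.sum (Finset.univ : Finset (Fin (m + 1))) _ (fun i _ => h1 i) hg
    (fun _ x _ => by positivity)
  have h6 : (fun (_ : P) (x : 𝓞 K) => (b11q D B x : ℂ)) =
      fun (_ : P) (x : 𝓞 K) => ∑ i, b11L D B i x * (starRingEnd ℂ) (b11L D B i x) := by
    funext q x
    unfold b11q
    rw [Complex.ofReal_sum]
    refine Finset.sum_congr rfl fun i _ => ?_
    rw [Complex.mul_conj, Complex.normSq_eq_norm_sq]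
  rw [h6]
  exact h5

/-- The slowly varying weight. -/
noncomputable def b11b (D : Ctx F K m) (R : P → ℝ) (q : P) (x : 𝓞 K) : ℝ :=
  1 + ((R q) ^ 2)⁻¹ * D.sz x ^ 2

theorem b11_sv (D : Ctx F K m) (w : ι → 𝓞 K) (Y : Set (𝓞 K)) (hY : ∀ x ∈ Y, ∀ i, x - w i ∈ Y)
    (R : P → ℝ) : SV Y w (b11b D R) := by
  obtain ⟨C, hC, h⟩ := B8_one hY (SV.pow hY (sv_sz (P := P) D w Y) 2)
  refine ⟨fun q x _ => by unfold b11b; have := D.sz_pos x; positivity, C, fun q x hx i => ?_⟩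
  obtain ⟨h1, h2⟩ := h q x hx i
  have hR : 0 ≤ ((R q) ^ 2)⁻¹ := by positivity
  unfold b11b
  constructor
  · have := mul_le_mul_of_nonneg_left h1 hR
    nlinarith
  · have := mul_le_mul_of_nonneg_left h2 hR
    nlinarith

theorem good_cut (D : Ctx F K m) (hE : Emb F D.σ) (w : ι → 𝓞 K) (Y : Set (𝓞 K))
    (hY : ∀ x ∈ Y, ∀ i, x - w i ∈ Y) (h0 : (0 : 𝓞 K) ∉ Y)
    (B : Matrix (Fin (m + 1)) (Fin (m + 1)) ℂ) (hB : B.det ≠ 0) (R : P → ℝ) (hR : ∀ q, 1 ≤ R q) :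
    Good Y w D.gs (fun (_ : P) _ => (1 : ℝ)) (fun q x => (D.cut B (R q) x : ℂ)) := by
  have hg : ∀ (i : ι), ∀ x ∈ Y, 0 ≤ D.gs i x := fun _ x _ => (inv_pos.mpr (D.sz_pos x)).le
  have hb0 : ∀ q, ∀ x ∈ Y, 0 ≤ b11b D R q x := fun q x _ => by unfold b11b; positivity
  have h1 : Good Y w D.gs (b11b D R) (fun (_ : P) _ => (1 : ℂ)) :=
    Good.const hb0 hg (fun _ => 1) 1 (fun q x _ => by
      unfold b11b
      rw [norm_one, one_mul]
      have : 0 ≤ ((R q) ^ 2)⁻¹ * D.sz x ^ 2 := by positivity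
      linarith)
  have h2 := b11_scale (b11_goodq (P := P) D w Y hY B) (fun q => ((R q) ^ 2)⁻¹)
    (fun q => by positivity)
  have h3 : Good Y w D.gs (b11b D R)
      (fun (q : P) x => ((((R q) ^ 2)⁻¹ : ℝ) : ℂ) * (b11q D B x : ℂ)) := by
    refine Good.mono h2 hg 1 zero_le_one (fun q x _ => ⟨by positivity, ?_⟩) (fun i x _ => by
      rw [one_mul])
    unfold b11b
    linarith
  have h4 := Good.add h1 h3
  obtain ⟨c, hc, hlow⟩ := b11_low D hE B hB
  have h5 := Good.inv hY (sv_gs D w Y) (b11_sv D w Y hY R) h4 (min 1 c) (lt_min one_pos hc) (by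
    intro q x hx
    have hx0 : x ≠ 0 := by
      rintro rfl
      exact h0 hx
    have e1 := hlow x hx0
    have hR' : 0 ≤ ((R q) ^ 2)⁻¹ := by positivity
    have e2 : ‖(1 : ℂ) + ((((R q) ^ 2)⁻¹ : ℝ) : ℂ) * (b11q D B x : ℂ)‖ =
        1 + ((R q) ^ 2)⁻¹ * b11q D B x := by
      rw [← Complex.ofReal_one, ← Complex.ofReal_mul, ← Complex.ofReal_add, Complex.norm_real,
        Real.norm_eq_abs, abs_of_nonneg]
      have := b11q_nonneg D B x
      positivity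
    rw [e2]
    unfold b11b
    have e3 : min 1 c ≤ 1 := min_le_left _ _
    have e4 : min 1 c ≤ c := min_le_right _ _
    have e5 : min 1 c * D.sz x ^ 2 ≤ b11q D B x :=
      (mul_le_mul_of_nonneg_right e4 (by positivity)).trans e1
    have e6 := mul_le_mul_of_nonneg_left e5 hR'
    nlinarith)
  have h6 := Good.pow hY (sv_gs D w Y) (SV.inv hY (b11_sv D w Y hY R)) h5 (m + 2)
  have h7 : (fun (q : P) (x : 𝓞 K) => (D.cut B (R q) x : ℂ)) = fun (q : P) (x : 𝓞 K) =>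
      ((1 + ((((R q) ^ 2)⁻¹ : ℝ) : ℂ) * (b11q D B x : ℂ))⁻¹) ^ (m + 2) := by
    funext q x
    rw [b11_cut]
    push_cast
    congr 1
    have hq := b11q_nonneg D B x
    have hR2 : (0 : ℝ) < (R q) ^ 2 := by have := hR q; positivity
    have e1 : (1 + ((R q) ^ 2)⁻¹ * b11q D B x) ≠ 0 := by positivity
    have e2 : (R q) ^ 2 + b11q D B x ≠ 0 := by positivity
    have e3' : (R q) ^ 2 + b11q D B x = (R q) ^ 2 * (1 + ((R q) ^ 2)⁻¹ * b11q D B x) := by
      rw [mul_add, mul_one, mul_inv_cancel_left₀ hR2.ne']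
    have e3 : (R q) ^ 2 / ((R q) ^ 2 + b11q D B x) = (1 + ((R q) ^ 2)⁻¹ * b11q D B x)⁻¹ := by
      rw [e3', div_mul_cancel_left₀ hR2.ne']
    have e4 := congrArg (fun r : ℝ => (r : ℂ)) e3
    push_cast at e4
    exact e4
  rw [h7]
  refine Good.mono h6 hg 1 zero_le_one (fun q x _ => ⟨?_, ?_⟩) (fun i x _ => by rw [one_mul])
  · have : 0 ≤ b11b D R q x := by unfold b11b; positivity
    positivity
  · rw [one_mul]
    apply pow_le_one₀
    · exact inv_nonneg.2 (by unfold b11b; positivity)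
    · apply inv_le_one_of_one_le₀
      unfold b11b
      have : 0 ≤ ((R q) ^ 2)⁻¹ * D.sz x ^ 2 := by positivity
      linarith

theorem cut_le (D : Ctx F K m) (hE : Emb F D.σ) (B : Matrix (Fin (m + 1)) (Fin (m + 1)) ℂ)
    (hB : B.det ≠ 0) (R : ℝ) (hR : 1 ≤ R) : ∃ C : ℝ, ∀ x : 𝓞 K, x ≠ 0 →
      |D.cut B R x| ≤ C * D.sz x ^ (-(2 * (m + 2) : ℝ)) := by
  obtain ⟨c, hc, hlow⟩ := b11_low D hE B hB
  refine ⟨(R ^ 2 / c) ^ (m + 2), fun x hx => ?_⟩
  have h1 := hlow x hx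
  have hs := D.sz_pos x
  have hq := b11q_nonneg D B x
  rw [b11_cut, abs_of_nonneg (by positivity)]
  have e1 : D.sz x ^ (-(2 * (m + 2) : ℝ)) = ((D.sz x ^ 2)⁻¹) ^ (m + 2) := by
    rw [Real.rpow_neg hs.le, inv_pow, ← pow_mul, ← Real.rpow_natCast]
    push_cast
    rfl
  rw [e1, ← mul_pow]
  apply pow_le_pow_left₀ (by positivity)
  have e2 : R ^ 2 / c * (D.sz x ^ 2)⁻¹ = R ^ 2 / (c * D.sz x ^ 2) := by field_simp
  rw [e2]
  apply div_le_div_of_nonneg_left (by positivity) (by positivity)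
  nlinarith [sq_nonneg R]

theorem cut_tendsto (D : Ctx F K m) (B : Matrix (Fin (m + 1)) (Fin (m + 1)) ℂ) (x : 𝓞 K) :
    Filter.Tendsto (fun R : ℝ => (D.cut B R x : ℂ)) Filter.atTop (nhds 1) := by
  have h1 : Filter.Tendsto (fun R : ℝ => R ^ 2 + b11q D B x) Filter.atTop Filter.atTop :=
    Filter.tendsto_atTop_add_const_right _ _ (Filter.tendsto_pow_atTop (by norm_num))
  have h2 : Filter.Tendsto (fun R : ℝ => b11q D B x / (R ^ 2 + b11q D B x)) Filter.atTop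
      (nhds 0) := tendsto_const_nhds.div_atTop h1
  have h3 : Filter.Tendsto (fun R : ℝ => (1 - b11q D B x / (R ^ 2 + b11q D B x)) ^ (m + 2))
      Filter.atTop (nhds ((1 - 0) ^ (m + 2))) := (tendsto_const_nhds.sub h2).pow _
  rw [sub_zero, one_pow] at h3
  have h4 : Filter.Tendsto (fun R : ℝ => D.cut B R x) Filter.atTop (nhds 1) := by
    refine h3.congr' ?_
    filter_upwards [Filter.eventually_ge_atTop 1] with R hR
    rw [b11_cut]
    congr 1
    have hq := b11q_nonneg D B x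
    have : R ^ 2 + b11q D B x ≠ 0 := by positivity
    field_simp
    ring
  have h5 := (Complex.continuous_ofReal.tendsto 1).comp h4
  rw [Complex.ofReal_one] at h5
  exact h5

end H55P
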