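import Mathlib
import Pool.Agent.Lib.H55P.A2
import Pool.Agent.Lib.H55N.B1

open NumberField IsDedekindDomain

namespace H55P

open H55N
open H55B (g)

variable {F : Type} [Field F] [NumberField F] [IQ F] {K : Type} [Field K] [NumberField K] [Algebra F K] {m : ℕ}

/-! Chunk B2 (M). Lattice sums.
sum_l: by hint choose for x in Y a vector y(x) in O^(m+1) with Tr(A_k x) = e(y(x)_k); the map x -> y(x) is injective (Tr_inj), and
sum over O^(m+1) of prod (1+|e y_k|)^(-r) converges (B1 with H55B.summable_e).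
sum_sz: choose an F-basis A of K consisting of elements of O_K (scale a basis by an integer:
exists_integral_multiple, or a localization basis); then Tr(A_k x) is in e(O) for all x in O_K (Tr_eq; the trace of an
algebraic integer is an algebraic integer of F), |Tr(A_k x)| <= C sz x, so sz(x)^(-r) <= C' prod_k (1+|Tr(A_k x)|)^(-r/(m+1))
with r/(m+1) > 2; sum_l with Y = univ.
Tr_le: |Tr(a,x)| <= C sz x. -/

theorem Tr_le (D : Ctx F K m) (a : K) : ∃ C : ℝ, 0 < C ∧ ∀ x : 𝓞 K, 1 + ‖D.Tr a x‖ ≤ C * D.sz x := by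
  have hM : 0 ≤ ∑ i, ‖D.σ i a‖ := Finset.sum_nonneg fun i _ => norm_nonneg _
  refine ⟨1 + ∑ i, ‖D.σ i a‖, by linarith, fun x => ?_⟩
  have h1 : ‖D.Tr a x‖ ≤ ∑ i, ‖D.σ i a‖ * D.sz x := by
    unfold Ctx.Tr
    refine (norm_sum_le _ _).trans (Finset.sum_le_sum fun i _ => ?_)
    rw [map_mul, norm_mul, mul_comm]
    exact mul_le_mul_of_nonneg_left (D.norm_le_sz x i) (norm_nonneg _)
  rw [← Finset.sum_mul] at h1
  have h2 := D.one_le_sz x
  linarith

theorem sum_l (D : Ctx F K m) (hE : Emb F D.σ) (Y : Set (𝓞 K)) (A : Fin (m + 1) → K)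
    (hA : LinearIndependent F A) (hint : ∀ x ∈ Y, ∀ k, ∃ y : (𝓞 F), D.Tr (A k) x = (eF F) y) (r : ℝ)
    (hr : 2 < r) : Summable fun x : Y => ∏ k, (1 + ‖D.Tr (A k) x‖) ^ (-r) := by
  choose y hy using fun (x : Y) (k : Fin (m + 1)) => hint x x.2 k
  have h1 : Function.Injective y := by
    intro x x' hxx
    apply Subtype.ext
    apply Tr_inj D hE A hA
    intro k
    rw [hy x k, hy x' k, hxx]
  have h2 := pi_summable (m + 1) (fun _ (z : (𝓞 F)) => (1 + ‖(eF F) z‖) ^ (-r))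
    (fun _ z => by positivity) (fun _ => summable_e hr)
  have h3 := h2.comp_injective h1
  refine h3.congr fun x => ?_
  refine Finset.prod_congr rfl fun k _ => ?_
  rw [hy x k]

theorem b2_basis (D : Ctx F K m) (hE : Emb F D.σ) : ∃ A : Fin (m + 1) → K, LinearIndependent F A ∧
    ∀ (x : 𝓞 K) k, ∃ y : (𝓞 F), D.Tr (A k) x = (eF F) y := by
  haveI := a1_fin hE.fin
  let b : Module.Basis (Fin (m + 1)) F K := Module.finBasisOfFinrankEq F K hE.fin
  have halg : ∀ i, IsAlgebraic ℤ (b i) := fun i =>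
    (IsFractionRing.isAlgebraic_iff ℤ ℚ K).2 (Algebra.IsAlgebraic.isAlgebraic (b i))
  choose y hy0 hy using fun i => (halg i).exists_integral_multiple
  have hyF : ∀ i, ((y i : ℤ) : F) ≠ 0 := fun i => Int.cast_ne_zero.2 (hy0 i)
  refine ⟨fun i => y i • b i, ?_, ?_⟩
  · have h1 := b.linearIndependent.units_smul (fun i => Units.mk0 ((y i : ℤ) : F) (hyF i))
    have h2 : (fun i => Units.mk0 ((y i : ℤ) : F) (hyF i)) • (b : Fin (m + 1) → K) =
        fun i => y i • b i := by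
      funext i
      show ((y i : ℤ) : F) • b i = y i • b i
      rw [Int.cast_smul_eq_zsmul]
    rw [h2] at h1
    exact h1
  · intro x k
    have hi : IsIntegral ℤ (Algebra.trace F K ((x : K) * (y k • b k))) :=
      Algebra.isIntegral_trace (x.2.mul (hy k))
    refine ⟨⟨_, hi⟩, ?_⟩
    rw [Tr_eq D hE]
    rfl

theorem sum_sz (D : Ctx F K m) (hE : Emb F D.σ) (r : ℝ) (hr : 2 * (m + 1 : ℝ) < r) :
    Summable fun x : 𝓞 K => D.sz x ^ (-r) := by
  obtain ⟨A, hA, hint⟩ := b2_basis D hE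
  set ρ : ℝ := r / (m + 1) with hρ
  have hm : (0 : ℝ) < m + 1 := by positivity
  have hρ2 : 2 < ρ := by
    rw [hρ, lt_div_iff₀ hm]
    exact hr
  have hρr : ρ * (m + 1) = r := by
    rw [hρ]
    field_simp
  have h1 := sum_l D hE Set.univ A hA (fun x _ k => hint x k) ρ hρ2
  have h2 : Summable fun x : 𝓞 K => ∏ k, (1 + ‖D.Tr (A k) x‖) ^ (-ρ) := by
    rw [← (Equiv.Set.univ (𝓞 K)).summable_iff]
    exact h1
  choose C hC0 hC using fun k => Tr_le D (A k)
  set M : ℝ := ∑ k, C k with hM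
  have hM0 : 0 < M := Finset.sum_pos (fun k _ => hC0 k) Finset.univ_nonempty
  have hCM : ∀ k, C k ≤ M := fun k =>
    Finset.single_le_sum (f := C) (fun k _ => (hC0 k).le) (Finset.mem_univ k)
  refine (h2.mul_left (M ^ r)).of_nonneg_of_le (fun x => Real.rpow_nonneg (D.sz_pos x).le _)
    fun x => ?_
  have hs := D.sz_pos x
  have h3 : ∏ _k : Fin (m + 1), (M * D.sz x) ^ (-ρ) ≤ ∏ k, (1 + ‖D.Tr (A k) x‖) ^ (-ρ) := by
    refine Finset.prod_le_prod (fun k _ => Real.rpow_nonneg (by positivity) _) fun k _ => ?_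
    apply Real.rpow_le_rpow_of_nonpos (by positivity)
    · exact (hC k x).trans (mul_le_mul_of_nonneg_right (hCM k) hs.le)
    · linarith
  have h4 : ∏ _k : Fin (m + 1), (M * D.sz x) ^ (-ρ) = M ^ (-r) * D.sz x ^ (-r) := by
    rw [Finset.prod_const, Finset.card_univ, Fintype.card_fin, ← Real.rpow_natCast,
      ← Real.rpow_mul (by positivity), Real.mul_rpow hM0.le hs.le]
    have : -ρ * ((m + 1 : ℕ) : ℝ) = -r := by
      push_cast
      rw [neg_mul, hρr]
    rw [this]
  rw [h4] at h3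
  calc D.sz x ^ (-r) = M ^ r * (M ^ (-r) * D.sz x ^ (-r)) := by
        rw [← mul_assoc, ← Real.rpow_add hM0, add_neg_cancel, Real.rpow_zero, one_mul]
    _ ≤ _ := mul_le_mul_of_nonneg_left h3 (Real.rpow_nonneg hM0.le _)

end H55P
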