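import Mathlib
import Pool.Agent.Lib.H55P.R1

open NumberField IsDedekindDomain

namespace H55P

open H55N
open H55B (g)

variable {F : Type} [Field F] [NumberField F] [IQ F] {K : Type} [Field K] [NumberField K] [Algebra F K] {m : ℕ}

/-! Chunk R5 (M). Invariance under units v with v X = X and N(v) = 1.
Idet(v L)(x) = Idet(L)(v x): row(v.T t)(x)_i = conj(x_i)|v_i|^2 t_i / sum_k |v_k|^2 t_k |x_k|^2 = v_i row(T t)(v x)_i, and
row(v.A a)(x)_i = v_i a_i/Tr(v a x) = v_i row(A a)(v x)_i; the columns give prod v_i = 1 (Matrix.det_mul_row). x -> v x is a bijection of X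
(v x - c0 = v (x - c0) + (v - 1) c0; inverse v^(-1)), g(v x) = g(x) (x in c_i iff v x in c_i), and cut B R x = cut (B diag(σ_j v)^(-1)) R (v x). So
HasReg (Idet L) S implies HasReg (Idet (v L)) S (for B use B diag(σ_j v)^(-1), of nonzero determinant), and conversely with v^(-1)
(act v (act v^(-1) l) = l). Jv: by cases on existence. -/

omit [NumberField K] [Algebra F K] in
theorem R5_mul (s : K →+* ℂ) (v x : 𝓞 K) : s ((v * x : 𝓞 K) : K) = s (v : K) * s (x : K) := by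
  have h : ((v * x : 𝓞 K) : K) = (v : K) * (x : K) := map_mul (algebraMap (𝓞 K) K) v x
  rw [h, map_mul]

theorem R5_row (D : Ctx F K m) (v : (𝓞 K)ˣ) (l : Lab K m) (x : 𝓞 K) (i : Fin (m + 1)) :
    D.row (D.act v l) x i = D.σ i ((v : 𝓞 K) : K) * D.row l (v * x) i := by
  cases l with
  | T t =>
    show (starRingEnd ℂ) (D.σ i x) * ((‖D.σ i ((v : 𝓞 K) : K)‖ ^ 2 * t i : ℝ) : ℂ) /
        (D.Q (fun i => ‖D.σ i ((v : 𝓞 K) : K)‖ ^ 2 * t i) x : ℂ) =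
      D.σ i ((v : 𝓞 K) : K) * ((starRingEnd ℂ) (D.σ i ((v * x : 𝓞 K) : K)) * t i / D.Q t (v * x))
    have hQ : D.Q (fun i => ‖D.σ i ((v : 𝓞 K) : K)‖ ^ 2 * t i) x = D.Q t (v * x) := by
      unfold Ctx.Q
      refine Finset.sum_congr rfl fun k _ => ?_
      have h := R5_mul (D.σ k) (v : 𝓞 K) x
      show ‖D.σ k ((v : 𝓞 K) : K)‖ ^ 2 * t k * ‖D.σ k (x : K)‖ ^ 2 =
        t k * ‖D.σ k (((v : 𝓞 K) * x : 𝓞 K) : K)‖ ^ 2
      rw [h, norm_mul]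
      ring
    rw [hQ]
    have h1 : ((‖D.σ i ((v : 𝓞 K) : K)‖ ^ 2 * t i : ℝ) : ℂ) =
        D.σ i ((v : 𝓞 K) : K) * (starRingEnd ℂ) (D.σ i ((v : 𝓞 K) : K)) * t i := by
      rw [Complex.mul_conj, Complex.normSq_eq_norm_sq]
      push_cast
      ring
    rw [h1, R5_mul (D.σ i) (v : 𝓞 K) x, map_mul]
    ring
  | A a =>
    show D.σ i (((v : 𝓞 K) : K) * a) / D.Tr (((v : 𝓞 K) : K) * a) x =
      D.σ i ((v : 𝓞 K) : K) * (D.σ i a / D.Tr a (v * x))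
    have hT : D.Tr (((v : 𝓞 K) : K) * a) x = D.Tr a (v * x) := by
      unfold Ctx.Tr
      refine Finset.sum_congr rfl fun k _ => ?_
      congr 1
      have h : (((v : 𝓞 K) * x : 𝓞 K) : K) = ((v : 𝓞 K) : K) * (x : K) :=
        map_mul (algebraMap (𝓞 K) K) (v : 𝓞 K) x
      rw [h]
      ring
    rw [hT, map_mul]
    ring

theorem R5_Idet (D : Ctx F K m) (v : (𝓞 K)ˣ) (hN : ∏ i, D.σ i ((v : 𝓞 K) : K) = 1)
    (L : Fin (m + 1) → Lab K m) (x : 𝓞 K) :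
    D.Idet (fun j => D.act v (L j)) x = D.Idet L (v * x) := by
  unfold Ctx.Idet
  have h1 : (Matrix.of fun j i => D.row (D.act v (L j)) x i) =
      Matrix.of fun j i => D.σ i ((v : 𝓞 K) : K) * (Matrix.of fun j i => D.row (L j) (v * x) i) j i := by
    ext j i
    simp only [Matrix.of_apply]
    exact R5_row D v (L j) x i
  rw [h1, Matrix.det_mul_row, hN, one_mul]

theorem R5_inv (D : Ctx F K m) (v : (𝓞 K)ˣ) (hv : ((v : 𝓞 K) - 1) * D.c₀ ∈ D.I) :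
    (((v⁻¹ : (𝓞 K)ˣ) : 𝓞 K) - 1) * D.c₀ ∈ D.I := by
  have h1 : (((v⁻¹ : (𝓞 K)ˣ) : 𝓞 K) - 1) * D.c₀ =
      -((v⁻¹ : (𝓞 K)ˣ) : 𝓞 K) * (((v : 𝓞 K) - 1) * D.c₀) := by
    have h2 : ((v⁻¹ : (𝓞 K)ˣ) : 𝓞 K) * (v : 𝓞 K) = 1 := v.inv_mul
    linear_combination (D.c₀) * h2
  rw [h1]
  exact D.I.mul_mem_left _ hv

theorem R5_memX (D : Ctx F K m) (v : (𝓞 K)ˣ) (hv : ((v : 𝓞 K) - 1) * D.c₀ ∈ D.I) {x : 𝓞 K}
    (hx : x ∈ D.X) : (v : 𝓞 K) * x ∈ D.X := by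
  rw [Ctx.mem_X] at hx ⊢
  have : (v : 𝓞 K) * x - D.c₀ = v * (x - D.c₀) + (v - 1) * D.c₀ := by ring
  rw [this]
  exact D.I.add_mem (D.I.mul_mem_left _ hx) hv

/-- Multiplication by v as a permutation of X. -/
noncomputable def R5_equiv (D : Ctx F K m) (v : (𝓞 K)ˣ) (hv : ((v : 𝓞 K) - 1) * D.c₀ ∈ D.I) :
    D.X ≃ D.X where
  toFun x := ⟨v * x, R5_memX D v hv x.2⟩
  invFun x := ⟨((v⁻¹ : (𝓞 K)ˣ) : 𝓞 K) * x, R5_memX D v⁻¹ (R5_inv D v hv) x.2⟩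
  left_inv x := by
    apply Subtype.ext
    show ((v⁻¹ : (𝓞 K)ˣ) : 𝓞 K) * (v * x) = x
    rw [← mul_assoc, v.inv_mul, one_mul]
  right_inv x := by
    apply Subtype.ext
    show (v : 𝓞 K) * (((v⁻¹ : (𝓞 K)ˣ) : 𝓞 K) * x) = x
    rw [← mul_assoc, v.mul_inv, one_mul]

theorem R5_g (D : Ctx F K m) (v : (𝓞 K)ˣ) (x : 𝓞 K) : D.g (v * x) = D.g x := by
  classical
  unfold Ctx.g gw
  refine Finset.prod_congr rfl fun i _ => ?_
  have h : (v : 𝓞 K) * x ∈ D.c i ↔ x ∈ D.c i := by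
    constructor
    · intro h
      have h2 := (D.c i).mul_mem_left ((v⁻¹ : (𝓞 K)ˣ) : 𝓞 K) h
      rwa [← mul_assoc, v.inv_mul, one_mul] at h2
    · exact fun h => (D.c i).mul_mem_left _ h
  by_cases hx : x ∈ D.c i
  · rw [if_pos (h.2 hx), if_pos hx]
  · rw [if_neg (fun h' => hx (h.1 h')), if_neg hx]

theorem R5_ne (D : Ctx F K m) (v : (𝓞 K)ˣ) (j : Fin (m + 1)) : D.σ j ((v : 𝓞 K) : K) ≠ 0 :=
  (map_ne_zero _).2 (NumberField.Units.coe_ne_zero _)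

theorem R5_cut (D : Ctx F K m) (v : (𝓞 K)ˣ) (B : Matrix (Fin (m + 1)) (Fin (m + 1)) ℂ) (R : ℝ)
    (x : 𝓞 K) : D.cut (B * Matrix.diagonal fun j => (D.σ j ((v : 𝓞 K) : K))⁻¹) R (v * x) =
      D.cut B R x := by
  unfold Ctx.cut
  have h : ∀ i, ∑ j, (B * Matrix.diagonal fun j => (D.σ j ((v : 𝓞 K) : K))⁻¹) i j *
      D.σ j ((v * x : 𝓞 K) : K) = ∑ j, B i j * D.σ j x := by
    intro i
    refine Finset.sum_congr rfl fun j _ => ?_
    rw [Matrix.mul_diagonal, R5_mul (D.σ j) (v : 𝓞 K) x]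
    have := R5_ne D v j
    field_simp
  simp only [h]

theorem R5_reg (D : Ctx F K m) (v : (𝓞 K)ˣ) (hv : ((v : 𝓞 K) - 1) * D.c₀ ∈ D.I)
    {h : 𝓞 K → ℂ} {S : ℂ} (hS : D.HasReg h S) : D.HasReg (fun x => h (v * x)) S := by
  obtain ⟨⟨C, hC⟩, hB⟩ := hS
  refine ⟨⟨C, fun x hx => hC _ (R5_memX D v hv hx)⟩, fun B hdet => ?_⟩
  have hd : (B * Matrix.diagonal fun j => (D.σ j ((v : 𝓞 K) : K))⁻¹).det ≠ 0 := by
    rw [Matrix.det_mul, Matrix.det_diagonal]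
    exact mul_ne_zero hdet (Finset.prod_ne_zero_iff.2 fun j _ => inv_ne_zero (R5_ne D v j))
  have h1 := hB _ hd
  refine h1.congr fun R => ?_
  rw [← (R5_equiv D v hv).tsum_eq]
  refine tsum_congr fun x => ?_
  show D.g (v * x) * h (v * x) * (D.cut _ R (v * x) : ℂ) = _
  rw [R5_g, R5_cut]

theorem reg_act (D : Ctx F K m) (v : (𝓞 K)ˣ) (hv : ((v : 𝓞 K) - 1) * D.c₀ ∈ D.I)
    (hN : ∏ i, D.σ i ((v : 𝓞 K) : K) = 1) (L : Fin (m + 1) → Lab K m) (S : ℂ) :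
    D.HasReg (D.Idet fun j => D.act v (L j)) S ↔ D.HasReg (D.Idet L) S := by
  have h1 : (D.Idet fun j => D.act v (L j)) = fun x => D.Idet L (v * x) :=
    funext fun x => R5_Idet D v hN L x
  rw [h1]
  constructor
  · intro h
    have h2 := R5_reg D v⁻¹ (R5_inv D v hv) h
    have h3 : (fun x : 𝓞 K => D.Idet L (v * (((v⁻¹ : (𝓞 K)ˣ) : 𝓞 K) * x))) = D.Idet L := by
      funext x
      rw [← mul_assoc, v.mul_inv, one_mul]
    rwa [h3] at h2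
  · exact fun h => R5_reg D v hv h

theorem Jv_act (D : Ctx F K m) (v : (𝓞 K)ˣ) (hv : ((v : 𝓞 K) - 1) * D.c₀ ∈ D.I)
    (hN : ∏ i, D.σ i ((v : 𝓞 K) : K) = 1) (L : Fin (m + 1) → Lab K m) :
    D.Jv (fun j => D.act v (L j)) = D.Jv L := by
  by_cases h : ∃ S, D.HasReg (D.Idet L) S
  · obtain ⟨S, hS⟩ := h
    rw [Jv_eq D hS, Jv_eq D ((reg_act D v hv hN L S).2 hS)]
  · have h' : ¬ ∃ S, D.HasReg (D.Idet fun j => D.act v (L j)) S :=
      fun ⟨S, hS⟩ => h ⟨S, (reg_act D v hv hN L S).1 hS⟩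
    unfold Ctx.Jv
    rw [dif_neg h, dif_neg h']

/-- The units v with v X = X. -/
def R5_sub (D : Ctx F K m) : Subgroup (𝓞 K)ˣ where
  carrier := {v | ((v : 𝓞 K) - 1) * D.c₀ ∈ D.I}
  one_mem' := by simp
  mul_mem' := by
    intro a b ha hb
    have : ((a * b : (𝓞 K)ˣ) : 𝓞 K) - 1 = a * (b - 1) + (a - 1) := by push_cast; ring
    rw [Set.mem_ofPred_eq, this, add_mul, mul_assoc]
    exact D.I.add_mem (D.I.mul_mem_left _ hb) ha
  inv_mem' := fun {a} ha => R5_inv D a ha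

/-- The units of norm one. -/
def R5_sub1 (D : Ctx F K m) : Subgroup (𝓞 K)ˣ where
  carrier := {v | ∏ i, D.σ i ((v : 𝓞 K) : K) = 1}
  one_mem' := by simp
  mul_mem' := by
    intro a b ha hb
    rw [Set.mem_ofPred_eq] at ha hb ⊢
    simp only [Units.val_mul, map_mul, Finset.prod_mul_distrib, ha, hb, mul_one]
  inv_mem' := by
    intro a ha
    rw [Set.mem_ofPred_eq] at ha ⊢
    have h : (∏ i, D.σ i ((a : 𝓞 K) : K)) * ∏ i, D.σ i (((a⁻¹ : (𝓞 K)ˣ) : 𝓞 K) : K) = 1 := by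
      rw [← Finset.prod_mul_distrib]
      refine Finset.prod_eq_one fun i _ => ?_
      rw [← map_mul, ← map_mul, a.mul_inv, map_one, map_one]
    rwa [ha, one_mul] at h

omit [NumberField K] [Algebra F K] in
theorem R5_coe (u : Fin m → (𝓞 K)ˣ) (z : Fin m → ℤ) (s : K →+* ℂ) :
    s ((uu u z : 𝓞 K) : K) = ∏ j, (s ((u j : 𝓞 K) : K)) ^ z j := by
  let f : (𝓞 K)ˣ →* ℂˣ := Units.map ((s.comp (algebraMap (𝓞 K) K) : 𝓞 K →+* ℂ) : 𝓞 K →* ℂ)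
  have h1 : f (uu u z) = ∏ j, f (u j) ^ z j := by
    unfold uu
    rw [map_prod]
    exact Finset.prod_congr rfl fun j _ => map_zpow f _ _
  have h2 := congrArg (fun t : ℂˣ => (t : ℂ)) h1
  simp only [Units.coe_prod, Units.val_zpow_eq_zpow_val] at h2
  exact h2

/-- The group generated by the units u. -/
theorem uu_act (D : Ctx F K m) (u : Fin m → (𝓞 K)ˣ) (hu : D.UOk u) (z : Fin m → ℤ) :
    ((uu u z : 𝓞 K) - 1) * D.c₀ ∈ D.I ∧ ∏ i, D.σ i ((uu u z : 𝓞 K) : K) = 1 ∧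
      ∀ i, ‖D.σ i ((uu u z : 𝓞 K) : K)‖ ^ 2 = Real.exp (∑ j, (z j : ℝ) * D.lm u i j) := by
  refine ⟨?_, ?_, ?_⟩
  · have : uu u z ∈ R5_sub D :=
      Subgroup.prod_mem _ fun j _ => Subgroup.zpow_mem _ (hu.act j) _
    exact this
  · have : uu u z ∈ R5_sub1 D :=
      Subgroup.prod_mem _ fun j _ => Subgroup.zpow_mem _ (hu.norm j) _
    exact this
  · intro i
    rw [R5_coe, norm_prod, ← Finset.prod_pow, Real.exp_sum]
    refine Finset.prod_congr rfl fun j _ => ?_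
    have h1 : 0 < ‖D.σ i ((u j : 𝓞 K) : K)‖ := norm_pos_iff.2 (R5_ne D (u j) i)
    have h2 : ‖D.σ i ((u j : 𝓞 K) : K) ^ z j‖ = Real.exp ((z j : ℝ) *
        Real.log ‖D.σ i ((u j : 𝓞 K) : K)‖) := by
      rw [norm_zpow, ← Real.log_zpow, Real.exp_log (zpow_pos h1 _)]
    rw [h2, ← Real.exp_nat_mul]
    congr 1
    unfold Ctx.lm
    push_cast
    ring

theorem lm_sum (D : Ctx F K m) (u : Fin m → (𝓞 K)ˣ) (hu : D.UOk u) (j : Fin m) :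
    ∑ i, D.lm u i j = 0 := by
  unfold Ctx.lm
  rw [← Finset.mul_sum, ← Real.log_prod (fun i _ => norm_ne_zero_iff.2 (R5_ne D (u j) i)),
    ← norm_prod, hu.norm j, norm_one, Real.log_one, mul_zero]

end H55P
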