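import Mathlib
import Pool.Agent.Lib.H55N.Basic
import Pool.Agent.Lib.H55P.Basic

open NumberField IsDedekindDomain

namespace H55P

open H55N
open H55B (g)

variable {F : Type} [Field F] [NumberField F] [IQ F] {K : Type} [Field K] [NumberField K] [Algebra F K] {m : ℕ}

/-! Chunk B4 (M). Summation by parts: existence of G.
For every i, c_i is a prime ideal with residue field of p_i elements (absNorm = p_i prime), w_i not in c_i. So for x in O_K there
is a unique t_i(x) in {1..p_i} with x - t_i(x) w_i in c_i (the residues t w_i, t = 1..p_i, are distinct: (t-t') w_i in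
c_i implies t - t' in c_i, c_i meets Z in p_i Z; pigeonhole). Then t_i(x + w_i) - t_i(x) = 1 if t_i(x) < p_i, and = 1 - p_i if t_i(x) = p_i, i.e. iff x
in c_i (p_i w_i in c_i). So t_i(x+w_i) - t_i(x) = 1 - p_i [x in c_i], the i-th factor of g; and
t_i(x + w_k) = t_i(x) for k <> i since w_k in c_i (Dirs.oth). Let G(x) = prod_i t_i(x) (complex numbers, bounded by prod p_i). Then
prod_i (t_i(x+w_i) - t_i(x)) = sum_T (-1)^(|I|-|T|) G(x + w_T), |I| = 2(m+1) even, so g(x) = sum_T (-1)^|T| G(x+w_T)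
(Finset.prod_sub or induction). For h absolutely summable on X: sum_X g h = sum_T (-1)^|T| sum_{x in X} G(x+w_T) h(x) =
sum_T (-1)^|T| sum_{x in X} G(x) h(x - w_T) (translation by w_T in I is a bijection of X; all sums are absolutely convergent as
G is bounded) = sum_X G Dif h. -/

omit [Algebra F K] in
/-- The normalised residue map of a prime ideal of degree one. -/
theorem B4_map (c : Ideal (𝓞 K)) (p : ℕ) (hp : p.Prime) (hc : Ideal.absNorm c = p) (w : 𝓞 K)
    (hw : w ∉ c) : ∃ u : 𝓞 K → ZMod p, (∀ x y, u (x + y) = u x + u y) ∧ (∀ x, u x = 0 ↔ x ∈ c) ∧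
      u w = 1 := by
  classical
  have hp' : Fact p.Prime := ⟨hp⟩
  have hcard : Nat.card (𝓞 K ⧸ c) = p := by
    rw [← hc, Ideal.absNorm_apply, Submodule.cardQuot_apply]
  have hfin : Finite (𝓞 K ⧸ c) := Nat.finite_of_card_ne_zero (by rw [hcard]; exact hp.ne_zero)
  have hft : Fintype (𝓞 K ⧸ c) := Fintype.ofFinite _
  have hcard2 : Fintype.card (𝓞 K ⧸ c) = p := by
    rw [← Nat.card_eq_fintype_card, hcard]
  let eq : ZMod p ≃+* (𝓞 K ⧸ c) := ZMod.ringEquivOfPrime _ hp hcard2
  let φ : 𝓞 K → ZMod p := fun x => eq.symm (Ideal.Quotient.mk c x)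
  have hφ : ∀ x, φ x = 0 ↔ x ∈ c := by
    intro x
    change eq.symm (Ideal.Quotient.mk c x) = 0 ↔ x ∈ c
    rw [map_eq_zero_iff eq.symm eq.symm.injective, Ideal.Quotient.eq_zero_iff_mem]
  have hw0 : φ w ≠ 0 := fun h => hw ((hφ w).1 h)
  refine ⟨fun x => φ x * (φ w)⁻¹, ?_, ?_, ?_⟩
  · intro x y
    have : φ (x + y) = φ x + φ y := by
      change eq.symm (Ideal.Quotient.mk c (x + y)) = _
      rw [map_add, map_add]
    simp only [this, add_mul]
  · intro x
    simp only [mul_eq_zero, inv_eq_zero, hw0, or_false]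
    exact hφ x
  · exact mul_inv_cancel₀ hw0

theorem B4_val (p : ℕ) (hp : p.Prime) (a : ZMod p) :
    ((a.val : ℕ) : ℂ) - (((a - 1).val : ℕ) : ℂ) = if a = 0 then 1 - (p : ℂ) else 1 := by
  have hp' : Fact p.Prime := ⟨hp⟩
  obtain ⟨n, rfl⟩ : ∃ n, p = n + 1 := ⟨p - 1, by have := hp.one_lt; omega⟩
  split_ifs with h
  · rw [h, zero_sub, ZMod.val_neg_one, ZMod.val_zero]
    push_cast
    ring
  · have h1 : (1 : ZMod (n + 1)).val = 1 := by
      have := ZMod.val_one (n + 1)
      exact this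
    have h2 : 1 ≤ a.val := by
      rcases Nat.eq_zero_or_pos a.val with h' | h'
      · exact absurd ((ZMod.val_eq_zero a).1 h') h
      · exact h'
    rw [ZMod.val_sub (by rw [h1]; exact h2), h1, Nat.cast_sub h2]
    push_cast
    ring

theorem gspec_exists (D : Ctx F K m) (hD : D.Ok) (A : Fin (m + 1) → K)
    (w : Fin (m + 1) × Fin 2 → 𝓞 K) (h : D.Dirs A w) : ∃ G : 𝓞 K → ℂ, D.GSpec w G := by
  classical
  choose u hu_add hu_zero hu_one using fun i => B4_map (D.c i) (D.p i) (hD.smooth.prime i)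
    (hD.smooth.norm i) (w i) (h.self i)
  -- the functions t_i
  let t : Fin (m + 1) × Fin 2 → 𝓞 K → ℂ := fun i x => (((u i x - 1).val : ℕ) : ℂ)
  have hbd : ∀ i x, ‖t i x‖ ≤ (D.p i : ℝ) := by
    intro i x
    have hpi : Fact (D.p i).Prime := ⟨hD.smooth.prime i⟩
    change ‖(((u i x - 1).val : ℕ) : ℂ)‖ ≤ _
    rw [Complex.norm_natCast]
    exact_mod_cast (ZMod.val_lt _).le
  have hself : ∀ i x, t i (x + w i) - t i x = if x ∈ D.c i then 1 - (D.p i : ℂ) else 1 := by
    intro i x
    change (((u i (x + w i) - 1).val : ℕ) : ℂ) - (((u i x - 1).val : ℕ) : ℂ) = _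
    rw [hu_add, hu_one, add_sub_cancel_right, B4_val _ (hD.smooth.prime i)]
    by_cases hx : x ∈ D.c i
    · rw [if_pos hx, if_pos ((hu_zero i x).2 hx)]
    · rw [if_neg hx, if_neg (fun h' => hx ((hu_zero i x).1 h'))]
  have hoth : ∀ i k x, k ≠ i → t i (x + w k) = t i x := by
    intro i k x hk
    change (((u i (x + w k) - 1).val : ℕ) : ℂ) = (((u i x - 1).val : ℕ) : ℂ)
    rw [hu_add, (hu_zero i (w k)).2 (h.oth k i (Ne.symm hk)), add_zero]
  let G : 𝓞 K → ℂ := fun x => ∏ i, t i x
  -- values at shifted points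
  have hshift : ∀ (T : Finset (Fin (m + 1) × Fin 2)) (i : Fin (m + 1) × Fin 2) (x : 𝓞 K),
      t i (x + ∑ k ∈ T, w k) = if i ∈ T then t i (x + w i) else t i x := by
    intro T
    induction T using Finset.induction_on with
    | empty => intro i x; simp
    | insert a T ha ih =>
      intro i x
      rw [Finset.sum_insert ha, ← add_assoc, ih i (x + w a)]
      by_cases hia : i = a
      · subst hia
        rw [if_neg ha, if_pos (Finset.mem_insert_self _ _)]
      · by_cases hiT : i ∈ T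
        · rw [if_pos hiT, if_pos (Finset.mem_insert_of_mem hiT)]
          rw [show x + w a + w i = (x + w i) + w a by ring, hoth i a _ (Ne.symm hia)]
        · rw [if_neg hiT, if_neg (by simp [hia, hiT]), hoth i a _ (Ne.symm hia)]
  have hG : ∀ (T : Finset (Fin (m + 1) × Fin 2)) (x : 𝓞 K), G (x + ∑ k ∈ T, w k) =
      (∏ i ∈ T, t i (x + w i)) * ∏ i ∈ Finset.univ \ T, t i x := by
    intro T x
    change ∏ i, t i (x + ∑ k ∈ T, w k) = _
    rw [← Finset.prod_sdiff (Finset.subset_univ T), mul_comm]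
    congr 1
    · exact Finset.prod_congr rfl fun i hi => by rw [hshift, if_pos hi]
    · exact Finset.prod_congr rfl fun i hi => by
        rw [hshift, if_neg (Finset.mem_sdiff.1 hi).2]
  have hg : ∀ x, D.g x = ∑ T ∈ (Finset.univ : Finset (Fin (m + 1) × Fin 2)).powerset,
      (-1) ^ T.card * G (x + ∑ k ∈ T, w k) := by
    intro x
    have h1 : D.g x = ∏ i, (t i (x + w i) - t i x) := by
      change ∏ i, _ = _
      refine Finset.prod_congr rfl fun i _ => ?_
      rw [hself]
    rw [h1]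
    simp only [sub_eq_add_neg]
    rw [Finset.prod_add]
    refine Finset.sum_congr rfl fun T _ => ?_
    rw [hG, Finset.prod_neg]
    have hcard : (Finset.univ \ T).card + T.card = (m + 1) * 2 := by
      rw [Finset.card_sdiff_add_card_eq_card (Finset.subset_univ T)]
      simp
    have hpar : (-1 : ℂ) ^ (Finset.univ \ T).card = (-1) ^ T.card := by
      have h2 : (-1 : ℂ) ^ ((Finset.univ \ T).card + T.card) = 1 := by
        rw [hcard, mul_comm, pow_mul]
        norm_num
      rw [pow_add] at h2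
      have h3 : (-1 : ℂ) ^ T.card * (-1) ^ T.card = 1 := by
        rw [← mul_pow]; norm_num
      calc (-1 : ℂ) ^ (Finset.univ \ T).card
          = (-1) ^ (Finset.univ \ T).card * ((-1) ^ T.card * (-1) ^ T.card) := by
            rw [h3, mul_one]
        _ = ((-1) ^ (Finset.univ \ T).card * (-1) ^ T.card) * (-1) ^ T.card := by ring
        _ = (-1) ^ T.card := by rw [h2, one_mul]
    rw [hpar]
    ring
  refine ⟨G, ⟨∏ i, (D.p i : ℝ), ?_⟩, ?_⟩
  · intro x
    change ‖∏ i, t i x‖ ≤ _
    rw [norm_prod]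
    exact Finset.prod_le_prod (fun i _ => norm_nonneg _) fun i _ => hbd i x
  · intro f hf
    have hGb : ∀ x, ‖G x‖ ≤ ∏ i, (D.p i : ℝ) := by
      intro x
      change ‖∏ i, t i x‖ ≤ _
      rw [norm_prod]
      exact Finset.prod_le_prod (fun i _ => norm_nonneg _) fun i _ => hbd i x
    have hmemT : ∀ T : Finset (Fin (m + 1) × Fin 2), ∑ k ∈ T, w k ∈ D.I := fun T =>
      D.I.sum_mem fun k _ => h.mem k
    -- translation
    let tr : Finset (Fin (m + 1) × Fin 2) → D.X ≃ D.X := fun T =>
      { toFun := fun x => ⟨x.1 + ∑ k ∈ T, w k, D.X_add x.2 (hmemT T)⟩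
        invFun := fun x => ⟨x.1 - ∑ k ∈ T, w k, D.X_sub x.2 (hmemT T)⟩
        left_inv := fun x => by
          apply Subtype.ext
          change x.1 + ∑ k ∈ T, w k - ∑ k ∈ T, w k = x.1
          ring
        right_inv := fun x => by
          apply Subtype.ext
          change x.1 - ∑ k ∈ T, w k + ∑ k ∈ T, w k = x.1
          ring }
    have hs1 : ∀ T : Finset (Fin (m + 1) × Fin 2),
        Summable fun x : D.X => (-1 : ℂ) ^ T.card * G (x.1 + ∑ k ∈ T, w k) * f x := by
      intro T
      refine Summable.of_norm_bounded (g := fun x : D.X => (∏ i, (D.p i : ℝ)) * ‖f x‖)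
        (hf.mul_left _) fun x => ?_
      rw [norm_mul, norm_mul, norm_pow, norm_neg, norm_one, one_pow, one_mul]
      exact mul_le_mul_of_nonneg_right (hGb _) (norm_nonneg _)
    have hs2 : ∀ T : Finset (Fin (m + 1) × Fin 2),
        Summable fun x : D.X => G x.1 * ((-1 : ℂ) ^ T.card * f (x.1 - ∑ k ∈ T, w k)) := by
      intro T
      have := (Equiv.summable_iff (tr T).symm).2 (hs1 T)
      refine this.congr fun x => ?_
      change (-1 : ℂ) ^ T.card * G (x.1 - ∑ k ∈ T, w k + ∑ k ∈ T, w k) *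
          f (x.1 - ∑ k ∈ T, w k) = G x.1 * ((-1 : ℂ) ^ T.card * f (x.1 - ∑ k ∈ T, w k))
      rw [sub_add_cancel]
      ring
    calc ∑' x : D.X, D.g x * f x
        = ∑' x : D.X, ∑ T ∈ (Finset.univ : Finset (Fin (m + 1) × Fin 2)).powerset,
            (-1 : ℂ) ^ T.card * G (x.1 + ∑ k ∈ T, w k) * f x := by
          refine tsum_congr fun x => ?_
          rw [hg, Finset.sum_mul]
      _ = ∑ T ∈ (Finset.univ : Finset (Fin (m + 1) × Fin 2)).powerset,
            ∑' x : D.X, (-1 : ℂ) ^ T.card * G (x.1 + ∑ k ∈ T, w k) * f x :=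
          Summable.tsum_finsetSum fun T _ => hs1 T
      _ = ∑ T ∈ (Finset.univ : Finset (Fin (m + 1) × Fin 2)).powerset,
            ∑' x : D.X, G x.1 * ((-1 : ℂ) ^ T.card * f (x.1 - ∑ k ∈ T, w k)) := by
          refine Finset.sum_congr rfl fun T _ => ?_
          rw [← Equiv.tsum_eq (tr T).symm]
          refine tsum_congr fun x => ?_
          change (-1 : ℂ) ^ T.card * G (x.1 - ∑ k ∈ T, w k + ∑ k ∈ T, w k) *
              f (x.1 - ∑ k ∈ T, w k) = _
          rw [sub_add_cancel]
          ring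
      _ = ∑' x : D.X, ∑ T ∈ (Finset.univ : Finset (Fin (m + 1) × Fin 2)).powerset,
            G x.1 * ((-1 : ℂ) ^ T.card * f (x.1 - ∑ k ∈ T, w k)) :=
          (Summable.tsum_finsetSum fun T _ => hs2 T).symm
      _ = ∑' x : D.X, G x * Dif w Finset.univ f x := by
          refine tsum_congr fun x => ?_
          rw [Dif, Finset.mul_sum]

end H55P
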