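import Mathlib
import Pool.Agent.Lib.H55N.B7
import Pool.Agent.Lib.H55N.B8
import Pool.Agent.Lib.H55P.B2

open NumberField IsDedekindDomain

namespace H55P

open H55N
open H55B (g)

variable {F : Type} [Field F] [NumberField F] [IQ F] {K : Type} [Field K] [NumberField K] [Algebra F K] {m : ℕ} {P : Type}

/-! Chunk B10 (M). The functions 1/Tr(A_k x) and the product cutoffs. X = D.X is stable under x -> x - w_i (Dirs.mem).
SV: 1 + |Tr(A_k, x - w)| <= (1 + C)(1 + |Tr(A_k, x)|) and conversely; gl is the inverse.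
good_tr: Tr(A_k, .) is additive, |Tr(A_k, w_i)| = 0 if k <> i.1 (orth) and <= C = C (1 + |Tr(A_k, x)|) gl i x if k = i.1; so it is Good with weight
1 + |Tr(A_k,x)| and Good.inv applies: |Tr| >= (1 + |Tr|)/2 by low.
good_pcut: each factor is 1/h_R, h_R = 1 + |Tr(A_k,x)|^2/R^2 = β_R: SV uniformly in R >= 1 (|y - w|^2 <= 2|y|^2 + 2|w|^2), h_R is Good with weight β_R: it is
1 + R^(-2) Tr conj(Tr); differences: D_i for i.1 = k is O((1+|Tr|)/R^2) <= C β_R / (1+|Tr|) because (1+|Tr|)^2 <= 4 |Tr|^2 <= 4 R^2 β_R on X;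
second differences O(1/R^2) <= C β_R (1+|Tr|)^(-2); the others vanish. (Prove it by Good.mul for Tr * conj Tr with weight (1+|Tr|)^2, then multiply by R^(-2) and use
(1+|Tr|)^2 / R^2 <= 4 β_R and Good.mono, plus the constant 1.) Good.inv, then Good.prod over k, weights prod 1/β_R <= 1 (Good.mono).
gl_gs: 1/sz x <= C gl i x (Tr_le). -/

/-- A bound for the traces of the directions. -/
noncomputable def B10_C (D : Ctx F K m) (A : Fin (m + 1) → K) (w : Fin (m + 1) × Fin 2 → 𝓞 K) : ℝ :=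
  1 + ∑ k, ∑ i, ‖D.Tr (A k) (w i)‖

theorem B10_le_C (D : Ctx F K m) (A : Fin (m + 1) → K) (w : Fin (m + 1) × Fin 2 → 𝓞 K)
    (k : Fin (m + 1)) (i : Fin (m + 1) × Fin 2) : 1 + ‖D.Tr (A k) (w i)‖ ≤ B10_C D A w := by
  unfold B10_C
  have h1 : ‖D.Tr (A k) (w i)‖ ≤ ∑ i, ‖D.Tr (A k) (w i)‖ :=
    Finset.single_le_sum (f := fun i => ‖D.Tr (A k) (w i)‖) (fun i _ => norm_nonneg _)
      (Finset.mem_univ i)
  have h2 : ∑ i, ‖D.Tr (A k) (w i)‖ ≤ ∑ k, ∑ i, ‖D.Tr (A k) (w i)‖ :=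
    Finset.single_le_sum (f := fun k => ∑ i, ‖D.Tr (A k) (w i)‖)
      (fun k _ => Finset.sum_nonneg fun i _ => norm_nonneg _) (Finset.mem_univ k)
  linarith

theorem B10_one_le_C (D : Ctx F K m) (A : Fin (m + 1) → K) (w : Fin (m + 1) × Fin 2 → 𝓞 K) :
    1 ≤ B10_C D A w := by
  have h1 := B10_le_C D A w 0 (0, 0)
  have h2 := norm_nonneg (D.Tr (A 0) (w (0, 0)))
  linarith

theorem B10_tri (D : Ctx F K m) (a : K) (x y : 𝓞 K) :
    ‖D.Tr a (x - y)‖ ≤ ‖D.Tr a x‖ + ‖D.Tr a y‖ ∧ ‖D.Tr a x‖ ≤ ‖D.Tr a (x - y)‖ + ‖D.Tr a y‖ := by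
  rw [D.Tr_sub]
  refine ⟨norm_sub_le _ _, ?_⟩
  have h3 : D.Tr a x = (D.Tr a x - D.Tr a y) + D.Tr a y := by ring
  calc ‖D.Tr a x‖ = ‖(D.Tr a x - D.Tr a y) + D.Tr a y‖ := by rw [← h3]
    _ ≤ _ := norm_add_le _ _

theorem B10_b (D : Ctx F K m) (A : Fin (m + 1) → K) (w : Fin (m + 1) × Fin 2 → 𝓞 K)
    (k : Fin (m + 1)) (i : Fin (m + 1) × Fin 2) (x : 𝓞 K) :
    1 + ‖D.Tr (A k) (x - w i)‖ ≤ B10_C D A w * (1 + ‖D.Tr (A k) x‖) ∧
    1 + ‖D.Tr (A k) x‖ ≤ B10_C D A w * (1 + ‖D.Tr (A k) (x - w i)‖) := by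
  obtain ⟨h1, h2⟩ := B10_tri D (A k) x (w i)
  have h3 := B10_le_C D A w k i
  have h4 := norm_nonneg (D.Tr (A k) (w i))
  have h5 := norm_nonneg (D.Tr (A k) x)
  have h6 := norm_nonneg (D.Tr (A k) (x - w i))
  constructor <;> nlinarith

theorem B10_inv {a b C : ℝ} (ha : 0 < a) (hb : 0 < b) (h : b ≤ C * a) : a⁻¹ ≤ C * b⁻¹ := by
  rw [← div_eq_mul_inv, le_div_iff₀ hb, inv_mul_le_iff₀ ha]
  linarith

theorem sv_tr (D : Ctx F K m) (A : Fin (m + 1) → K) (w : Fin (m + 1) × Fin 2 → 𝓞 K)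
    (k : Fin (m + 1)) : SV D.X w fun (_ : P) x => 1 + ‖D.Tr (A k) x‖ := by
  refine ⟨fun _ x _ => by positivity, B10_C D A w, ?_⟩
  intro _ x _ i
  exact B10_b D A w k i x

theorem sv_gl (D : Ctx F K m) (A : Fin (m + 1) → K) (w : Fin (m + 1) × Fin 2 → 𝓞 K) :
    SV D.X w (D.gl A) := by
  refine ⟨fun q x _ => by unfold Ctx.gl; positivity, B10_C D A w, ?_⟩
  intro q x _ i
  obtain ⟨h1, h2⟩ := B10_b D A w q.1 i x
  unfold Ctx.gl
  exact ⟨B10_inv (by positivity) (by positivity) h2, B10_inv (by positivity) (by positivity) h1⟩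

theorem sv_bl (D : Ctx F K m) (A : Fin (m + 1) → K) (w : Fin (m + 1) × Fin 2 → 𝓞 K) :
    SV D.X w fun (_ : P) x => D.bl A x := by
  refine ⟨fun _ x _ => ?_, B10_C D A w ^ (m + 1), ?_⟩
  · unfold Ctx.bl
    exact Finset.prod_pos fun k _ => by positivity
  · intro _ x _ i
    unfold Ctx.bl
    have hc : B10_C D A w ^ (m + 1) = ∏ _k : Fin (m + 1), B10_C D A w := by
      rw [Finset.prod_const, Finset.card_univ, Fintype.card_fin]
    rw [hc, ← Finset.prod_mul_distrib, ← Finset.prod_mul_distrib]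
    constructor
    · apply Finset.prod_le_prod (fun k _ => by positivity)
      intro k _
      exact B10_inv (by positivity) (by positivity) (B10_b D A w k i x).2
    · apply Finset.prod_le_prod (fun k _ => by positivity)
      intro k _
      exact B10_inv (by positivity) (by positivity) (B10_b D A w k i x).1

theorem gs_le_gl (D : Ctx F K m) (A : Fin (m + 1) → K) : ∃ C : ℝ, 0 < C ∧
    (∀ x k, (D.sz x)⁻¹ ≤ C * (1 + ‖D.Tr (A k) x‖)⁻¹) ∧
    ∀ (i : Fin (m + 1) × Fin 2) x, D.gs i x ≤ C * D.gl A i x := by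
  choose C hC h using fun k => Tr_le D (A k)
  have h1 : ∀ k, C k ≤ ∑ k, C k := fun k =>
    Finset.single_le_sum (f := C) (fun k _ => (hC k).le) (Finset.mem_univ k)
  have h2 : 0 < ∑ k, C k := lt_of_lt_of_le (hC 0) (h1 0)
  have h3 : ∀ x k, (D.sz x)⁻¹ ≤ (∑ k, C k) * (1 + ‖D.Tr (A k) x‖)⁻¹ := by
    intro x k
    apply B10_inv (D.sz_pos x) (by positivity)
    exact (h k x).trans (mul_le_mul_of_nonneg_right (h1 k) (D.sz_pos x).le)
  exact ⟨∑ k, C k, h2, h3, fun i x => h3 x i.1⟩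

theorem B10_X (D : Ctx F K m) (A : Fin (m + 1) → K) (w : Fin (m + 1) × Fin 2 → 𝓞 K)
    (h : D.Dirs A w) : ∀ x ∈ D.X, ∀ i, x - w i ∈ D.X := fun _ hx i => D.X_sub hx (h.mem i)

theorem B10_T (D : Ctx F K m) (A : Fin (m + 1) → K) (w : Fin (m + 1) × Fin 2 → 𝓞 K)
    (h : D.Dirs A w) (k : Fin (m + 1)) : Good D.X w (D.gl A)
      (fun (_ : P) x => 1 + ‖D.Tr (A k) x‖) (fun _ x => D.Tr (A k) x) := by
  apply Good.additive (fun _ x _ => by positivity) (fun i x _ => by unfold Ctx.gl; positivity)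
    (fun _ x y => D.Tr_sub (A k) x y) (B10_C D A w)
  · intro _ x _
    have h1 := B10_one_le_C D A w
    have h2 := norm_nonneg (D.Tr (A k) x)
    nlinarith
  · intro _ x _ i
    have h0 := B10_one_le_C D A w
    by_cases hk : k = i.1
    · have h1 := B10_le_C D A w k i
      have h2 : B10_C D A w * (1 + ‖D.Tr (A k) x‖) * D.gl A i x = B10_C D A w := by
        unfold Ctx.gl
        rw [← hk]
        have : 0 < 1 + ‖D.Tr (A k) x‖ := by positivity
        field_simp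
      rw [h2]
      linarith
    · rw [h.orth i k hk, norm_zero]
      unfold Ctx.gl
      positivity

theorem good_tr (D : Ctx F K m) (A : Fin (m + 1) → K) (w : Fin (m + 1) × Fin 2 → 𝓞 K)
    (h : D.Dirs A w) (k : Fin (m + 1)) : Good D.X w (D.gl A)
      (fun (_ : P) x => (1 + ‖D.Tr (A k) x‖)⁻¹) (fun _ x => (D.Tr (A k) x)⁻¹) := by
  apply Good.inv (B10_X D A w h) (sv_gl D A w) (sv_tr D A w k) (B10_T D A w h k) (1 / 2)
    (by norm_num)
  intro _ x hx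
  have h1 := h.low x hx k
  linarith

/-- The functions 1 + |Tr|^2/R^2. -/
noncomputable def B10_h (D : Ctx F K m) (A : Fin (m + 1) → K) (k : Fin (m + 1)) (R : ℝ) (x : 𝓞 K) :
    ℝ := 1 + ‖D.Tr (A k) x‖ ^ 2 * (R ^ 2)⁻¹

theorem B10_h_pos (D : Ctx F K m) (A : Fin (m + 1) → K) (k : Fin (m + 1)) (R : ℝ) (x : 𝓞 K) :
    1 ≤ B10_h D A k R x := by
  unfold B10_h
  have : 0 ≤ ‖D.Tr (A k) x‖ ^ 2 * (R ^ 2)⁻¹ := by positivity
  linarith

theorem B10_num (a b c r C : ℝ) (ha : 0 ≤ a) (hb : 0 ≤ b) (hc : 0 ≤ c) (h : a ≤ b + c)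
    (hC : 1 + c ≤ C) (hr : 0 ≤ r) (hr1 : r ≤ 1) :
    1 + a ^ 2 * r ≤ (2 + 2 * C ^ 2) * (1 + b ^ 2 * r) := by
  have h1 : a ^ 2 ≤ 2 * b ^ 2 + 2 * c ^ 2 := by nlinarith [sq_nonneg (b - c)]
  have h2 : a ^ 2 * r ≤ (2 * b ^ 2 + 2 * c ^ 2) * r := mul_le_mul_of_nonneg_right h1 hr
  have h3 : c ^ 2 * r ≤ c ^ 2 := by nlinarith [sq_nonneg c]
  have h4 : c ^ 2 ≤ C ^ 2 := by nlinarith
  have h5 : 0 ≤ b ^ 2 * r := by positivity
  have h6 : 0 ≤ C ^ 2 * (b ^ 2 * r) := by positivity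
  nlinarith

theorem B10_sv_h (D : Ctx F K m) (A : Fin (m + 1) → K) (w : Fin (m + 1) × Fin 2 → 𝓞 K)
    (R : P → ℝ) (hR : ∀ q, 1 ≤ R q) (k : Fin (m + 1)) :
    SV D.X w fun (q : P) x => B10_h D A k (R q) x := by
  refine ⟨fun q x _ => lt_of_lt_of_le one_pos (B10_h_pos D A k (R q) x),
    2 + 2 * B10_C D A w ^ 2, ?_⟩
  intro q x _ i
  obtain ⟨h1, h2⟩ := B10_tri D (A k) x (w i)
  have h3 := B10_le_C D A w k i
  have h4 := norm_nonneg (D.Tr (A k) (w i))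
  have h5 := norm_nonneg (D.Tr (A k) x)
  have h6 := norm_nonneg (D.Tr (A k) (x - w i))
  have h7 : (0 : ℝ) ≤ (R q ^ 2)⁻¹ := by positivity
  have h8 : (R q ^ 2)⁻¹ ≤ 1 := by
    apply inv_le_one_of_one_le₀
    nlinarith [hR q]
  exact ⟨B10_num _ _ _ _ _ h6 h5 h4 h1 h3 h7 h8, B10_num _ _ _ _ _ h5 h6 h4 h2 h3 h7 h8⟩

theorem B10_fac (D : Ctx F K m) (A : Fin (m + 1) → K) (w : Fin (m + 1) × Fin 2 → 𝓞 K)
    (h : D.Dirs A w) (R : P → ℝ) (hR : ∀ q, 1 ≤ R q) (k : Fin (m + 1)) : Good D.X w (D.gl A)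
      (fun (_ : P) _ => (1 : ℝ)) (fun q x => ((B10_h D A k (R q) x : ℂ))⁻¹) := by
  have hX := B10_X D A w h
  have hgl := sv_gl D A w
  have hgl0 : ∀ i, ∀ x ∈ D.X, 0 ≤ D.gl A i x := fun i x _ => by unfold Ctx.gl; positivity
  have hR0 : ∀ q, 0 < R q := fun q => lt_of_lt_of_le one_pos (hR q)
  -- the square
  have g1 := Good.mul hX hgl (sv_tr (P := P) D A w k) (sv_tr (P := P) D A w k)
    (B10_T D A w h k) (Good.conj (B10_T D A w h k))
  have svR : SV D.X w fun (q : P) (_ : 𝓞 K) => (R q ^ 2)⁻¹ := by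
    refine ⟨fun q x _ => by have := hR0 q; positivity, 1, ?_⟩
    intro q x _ i
    constructor <;> linarith
  have g2 : Good D.X w (D.gl A) (fun (q : P) (_ : 𝓞 K) => (R q ^ 2)⁻¹)
      (fun q _ => (((R q ^ 2)⁻¹ : ℝ) : ℂ)) := by
    apply Good.const (fun q x _ => by positivity) hgl0 _ 1
    intro q x _
    rw [Complex.norm_real, Real.norm_eq_abs, abs_of_nonneg (by positivity), one_mul]
  have g3 := Good.mul hX hgl (SV.mul hX (sv_tr (P := P) D A w k) (sv_tr (P := P) D A w k)) svR g1 g2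
  have g4 : Good D.X w (D.gl A) (fun (q : P) x => B10_h D A k (R q) x)
      (fun q x => D.Tr (A k) x * (starRingEnd ℂ) (D.Tr (A k) x) * (((R q ^ 2)⁻¹ : ℝ) : ℂ)) := by
    apply Good.mono g3 hgl0 4 (by norm_num)
    · intro q x hx
      have h1 := h.low x hx k
      have h2 : (0 : ℝ) ≤ (R q ^ 2)⁻¹ := by positivity
      refine ⟨by positivity, ?_⟩
      unfold B10_h
      have h3 : (1 + ‖D.Tr (A k) x‖) * (1 + ‖D.Tr (A k) x‖) ≤ 4 * ‖D.Tr (A k) x‖ ^ 2 := by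
        nlinarith
      have h4 := mul_le_mul_of_nonneg_right h3 h2
      nlinarith
    · intro i x hx
      have := hgl0 i x hx
      linarith
  have g5 : Good D.X w (D.gl A) (fun (q : P) x => B10_h D A k (R q) x)
      (fun _ _ => (1 : ℂ)) := by
    apply Good.const (fun q x _ => (zero_le_one.trans (B10_h_pos D A k (R q) x))) hgl0 _ 1
    intro q x _
    rw [norm_one, one_mul]
    exact B10_h_pos D A k (R q) x
  have g6 := Good.add g5 g4
  have g7 : Good D.X w (D.gl A) (fun (q : P) x => B10_h D A k (R q) x)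
      (fun q x => (B10_h D A k (R q) x : ℂ)) := by
    have eq1 : (fun (q : P) (x : 𝓞 K) => (B10_h D A k (R q) x : ℂ)) = fun (q : P) (x : 𝓞 K) =>
        (1 : ℂ) + D.Tr (A k) x * (starRingEnd ℂ) (D.Tr (A k) x) * (((R q ^ 2)⁻¹ : ℝ) : ℂ) := by
      funext q x
      unfold B10_h
      rw [Complex.mul_conj, Complex.normSq_eq_norm_sq]
      push_cast
      ring
    rw [eq1]
    exact g6
  have g8 := Good.inv hX hgl (B10_sv_h D A w R hR k) g7 1 one_pos (by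
    intro q x _
    rw [Complex.norm_real, Real.norm_eq_abs, one_mul]
    exact le_abs_self _)
  apply Good.mono g8 hgl0 1 zero_le_one
  · intro q x _
    have h1 := B10_h_pos D A k (R q) x
    refine ⟨by positivity, ?_⟩
    rw [mul_one]
    exact inv_le_one_of_one_le₀ h1
  · intro i x _
    rw [one_mul]

theorem good_pcut (D : Ctx F K m) (A : Fin (m + 1) → K) (w : Fin (m + 1) × Fin 2 → 𝓞 K)
    (h : D.Dirs A w) (R : P → ℝ) (hR : ∀ q, 1 ≤ R q) : Good D.X w (D.gl A)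
      (fun (_ : P) _ => (1 : ℝ)) (fun q x => (D.pcut A (R q) x : ℂ)) := by
  have h1 := Good.prod (B10_X D A w h) (sv_gl D A w) (Finset.univ : Finset (Fin (m + 1)))
    (fun _ (_ : P) _ => (1 : ℝ)) (fun k q x => ((B10_h D A k (R q) x : ℂ))⁻¹)
    (fun _ _ => SV.one) (fun k _ => B10_fac D A w h R hR k)
  simp only [Finset.prod_const_one] at h1
  have eq1 : (fun (q : P) (x : 𝓞 K) => (D.pcut A (R q) x : ℂ)) = fun (q : P) (x : 𝓞 K) =>
      ∏ k, ((B10_h D A k (R q) x : ℂ))⁻¹ := by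
    funext q x
    unfold Ctx.pcut
    rw [Complex.ofReal_prod]
    refine Finset.prod_congr rfl fun k _ => ?_
    rw [← Complex.ofReal_inv]
    congr 1
    unfold B10_h
    have hR0 : 0 < R q := lt_of_lt_of_le one_pos (hR q)
    field_simp
  rw [eq1]
  exact h1

end H55P
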