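import Mathlib
import Pool.Agent.Lib.H55P.B4
import Pool.Agent.Lib.H55P.R2
import Pool.Agent.Lib.H55P.R4
import Pool.Agent.Lib.H55N.R6

open NumberField IsDedekindDomain

namespace H55P

open H55N
open H55B (g)

variable {F : Type} [Field F] [NumberField F] [IQ F] {K : Type} [Field K] [NumberField K] [Algebra F K] {m : ℕ}

/-! Chunk R7 (M). The cocycle identity for the regularised sums on a prism.
row_sum: sum_i σ_i(x) row(l)(x)_i = 1 for x in X, l = T t with t > 0 (Q_t(x) <> 0) or l = A (A_k) (Tr <> 0, Dirs.low).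
prism_cocycle: the m+2 entries of the prism are L(v_0)..L(v_i) (label A (A_k) or a positive T label) and positive T labels. For every j the m+1
entries left satisfy the assumptions of good_idet: κ(k) := the number j.succAbove k if it is <= i (then the label is L(v_(that number)), A (A_that) or T), otherwise
anything (the label is of type T); injective on the indices of type A because succAbove is injective. So HasReg (Idet ..) by reg_of_good with a G from gspec_exists;
Jv_eq; the alternating sum of the Idet is 0 on X (det_cocycle); HasReg.sum, HasReg.smul, HasReg.congr, HasReg.unique with HasReg.zero. -/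

theorem r7_Q_pos (D : Ctx F K m) (hE : Emb F D.σ) (t : Fin (m + 1) → ℝ) (ht : ∀ i, 0 < t i)
    (x : 𝓞 K) (hx : x ≠ 0) : 0 < D.Q t x := by
  obtain ⟨i0, hi0⟩ := Finite.exists_min t
  obtain ⟨c, hc, h⟩ := Q_low D hE (t i0) (ht i0)
  have h1 := h t hi0 x hx
  have h2 := D.sz_pos x
  have h3 : 0 < c * D.sz x ^ 2 := by positivity
  linarith

theorem row_sum (D : Ctx F K m) (hD : D.Ok) (t : Fin (m + 1) → ℝ) (ht : ∀ i, 0 < t i) (x : 𝓞 K)
    (hx : x ∈ D.X) : ∑ i, D.σ i x * D.row (.T t) x i = 1 := by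
  have hQ := r7_Q_pos D hD.emb t ht x (D.X_ne hD.ne hx)
  have hQ' : ((D.Q t x : ℝ) : ℂ) ≠ 0 := by exact_mod_cast hQ.ne'
  have h1 : ∀ i, D.σ i x * D.row (.T t) x i = ((t i * ‖D.σ i x‖ ^ 2 : ℝ) : ℂ) / (D.Q t x : ℂ) := by
    intro i
    show D.σ i x * ((starRingEnd ℂ) (D.σ i x) * t i / D.Q t x) = _
    rw [mul_div_assoc', ← mul_assoc, Complex.mul_conj, Complex.normSq_eq_norm_sq]
    push_cast
    ring
  rw [Finset.sum_congr rfl fun i _ => h1 i, ← Finset.sum_div, ← Complex.ofReal_sum]
  exact div_self hQ'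

theorem row_sum' (D : Ctx F K m) (a : K) (x : 𝓞 K) (hx : D.Tr a x ≠ 0) :
    ∑ i, D.σ i x * D.row (.A a) x i = 1 := by
  have h1 : ∀ i, D.σ i x * D.row (.A a) x i = D.σ i ((x : K) * a) / D.Tr a x := by
    intro i
    show D.σ i x * (D.σ i a / D.Tr a x) = _
    rw [map_mul, mul_div_assoc]
  rw [Finset.sum_congr rfl fun i _ => h1 i, ← Finset.sum_div]
  exact div_self hx

theorem prism_cocycle {V : Type} (D : Ctx F K m) (hD : D.Ok) (A : Fin (m + 1) → K)
    (w : Fin (m + 1) × Fin 2 → 𝓞 K) (hdir : D.Dirs A w) (L L' : V → Lab K m) (v : ℕ → V)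
    (hL : ∀ k : Fin (m + 1), L (v k) = .A (A k) ∨ ∃ t, L (v k) = .T t ∧ ∀ i, 0 < t i)
    (hL' : ∀ k ≤ m, ∃ t, L' (v k) = .T t ∧ ∀ i, 0 < t i) (i : ℕ) (hi : i ≤ m) :
    ∑ j : Fin (m + 2), (-1) ^ (j : ℕ) * D.Jv (fun k : Fin (m + 1) =>
      prism L L' v i (j.succAbove k : Fin (m + 2))) = 0 := by
  obtain ⟨G, hG⟩ := gspec_exists D hD A w hdir
  -- the entries of the prism
  have hent : ∀ j : Fin (m + 2),
      (∃ t, prism L L' v i j = .T t ∧ ∀ i, 0 < t i) ∨
      ((j : ℕ) < m + 1 ∧ prism L L' v i j = .A (A (Fin.ofNat (m + 1) j))) := by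
    intro j
    unfold prism
    by_cases hj : (j : ℕ) ≤ i
    · rw [if_pos hj]
      have hjm : (j : ℕ) < m + 1 := by omega
      have h1 := hL ⟨j, hjm⟩
      rcases h1 with h1 | ⟨t, h1, h2⟩
      · right
        refine ⟨hjm, ?_⟩
        have : Fin.ofNat (m + 1) (j : ℕ) = ⟨j, hjm⟩ := by
          apply Fin.ext
          simp [Nat.mod_eq_of_lt hjm]
        rw [this]
        exact h1
      · left
        exact ⟨t, h1, h2⟩
    · rw [if_neg hj]
      left
      exact hL' ((j : ℕ) - 1) (by have := j.2; omega)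
  set M : Fin (m + 2) → Lab K m := fun j => prism L L' v i j with hM
  set Lj : Fin (m + 2) → Fin (m + 1) → Lab K m := fun j k => M (j.succAbove k) with hLj
  have hreg : ∀ j : Fin (m + 2), D.HasReg (D.Idet (Lj j)) (D.Jv (Lj j)) := by
    intro j
    have hgood := good_idet D hD A w hdir (Lj j)
      (fun k => Fin.ofNat (m + 1) (j.succAbove k : Fin (m + 2))) ?_ ?_ ?_
    · have h1 := (reg_of_good D hD A w hdir G hG _ hgood).2
      rw [Jv_eq D h1]
      exact h1
    · intro k t hk i'
      rcases hent (j.succAbove k) with ⟨t', h1, h2⟩ | ⟨_, h1⟩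
      · have h3 : Lj j k = .T t' := h1
        rw [hk] at h3
        obtain rfl : t = t' := by injection h3
        exact h2 i'
      · have h3 : Lj j k = .A _ := h1
        rw [hk] at h3
        exact absurd h3 (by simp)
    · intro k a hk
      rcases hent (j.succAbove k) with ⟨t', h1, h2⟩ | ⟨_, h1⟩
      · have h3 : Lj j k = .T t' := h1
        rw [hk] at h3
        exact absurd h3 (by simp)
      · have h3 : Lj j k = .A _ := h1
        rw [hk] at h3
        injection h3
    · have hlt : ∀ k, (∃ a, Lj j k = .A a) → ((j.succAbove k : Fin (m + 2)) : ℕ) < m + 1 := by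
        rintro k ⟨a, hk⟩
        rcases hent (j.succAbove k) with ⟨t', h1, h2⟩ | ⟨h4, h1⟩
        · have h3 : Lj j k = .T t' := h1
          rw [hk] at h3
          exact absurd h3 (by simp)
        · exact h4
      intro k hk k' hk' hkk
      have e1 := hlt k hk
      have e2 := hlt k' hk'
      have e3 := congrArg Fin.val hkk
      simp only [Fin.val_ofNat, Nat.mod_eq_of_lt e1, Nat.mod_eq_of_lt e2] at e3
      exact Fin.succAbove_right_injective (Fin.ext e3)
  have h1 := HasReg.sum D hD Finset.univ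
    (fun (j : Fin (m + 2)) x => (-1) ^ (j : ℕ) * D.Idet (Lj j) x)
    (fun (j : Fin (m + 2)) => (-1) ^ (j : ℕ) * D.Jv (Lj j))
    (fun j _ => HasReg.smul D (hreg j) ((-1) ^ (j : ℕ)))
  have h2 : ∀ x ∈ D.X, ∑ j : Fin (m + 2), (-1) ^ (j : ℕ) * D.Idet (Lj j) x = 0 := by
    intro x hx
    have h3 := det_cocycle (n := m + 1) (fun i => D.σ i x) (fun j i => D.row (M j) x i) ?_
    · exact h3
    · intro j
      rcases hent j with ⟨t, h4, h5⟩ | ⟨_, h4⟩
      · have : M j = .T t := h4
        rw [this]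
        exact row_sum D hD t h5 x hx
      · have : M j = .A (A (Fin.ofNat (m + 1) j)) := h4
        rw [this]
        apply row_sum'
        intro h0
        have h6 := hdir.low x hx (Fin.ofNat (m + 1) j)
        rw [h0, norm_zero] at h6
        linarith
  have h3 := HasReg.congr D h1 h2
  exact HasReg.unique D h3 (HasReg.zero D)

end H55P
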