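import Mathlib
import Pool.Agent.Lib.H55P.B4
import Pool.Agent.Lib.H55P.R2

open NumberField IsDedekindDomain

namespace H55P

open H55N
open H55B (g)

variable {F : Type} [Field F] [NumberField F] [IQ F] {K : Type} [Field K] [NumberField K] [Algebra F K] {m : ℕ}

/-! Chunk R8 (M). The T labels. On X: Idet(T t_j)(x) = det(t_j(i)) conj(N x)/prod_j Q_{t_j}(x) (columns: conj(σ_i x); rows: 1/Q). conj N/prod_j Q_{t_j} is Good with
weight bl: it is a product over j of conj(σ_j x)/Q_{t_j}(x), i.e. Good with weights sz^(-1) (as in R4: B9, gs_le_gl). So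
HasReg (conj N/prod Q) (Bv w G t) by reg_of_good; Jv_T: HasReg.smul, Jv_eq (HasReg.congr).
Bv_cont: for t in a compact set a <= t <= b all bounds are uniform (parameter P = set of such t in good_row): |G D(conj N/prod Q_{t_j})(x)| <= C prod_k (1+|Tr(A_k x)|)^(-3),
summable, each term continuous in t (Q_t(y) > 0 for y in X): continuousOn_tsum on the open sets {a < t < b}, every point of the positive set has such a neighbourhood.
Jv_A: Idet(A A_k)(x) = det(σ_i(A_k)) prod_k Tr(A_k x)^(-1), the last product is Good with weight bl (good_tr, Good.prod). -/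

theorem r8_Q_pos (D : Ctx F K m) (hE : Emb F D.σ) (t : Fin (m + 1) → ℝ) (ht : ∀ i, 0 < t i)
    (x : 𝓞 K) (hx : x ≠ 0) : 0 < D.Q t x := by
  obtain ⟨i0, hi0⟩ := Finite.exists_min t
  obtain ⟨c, hc, h⟩ := Q_low D hE (t i0) (ht i0)
  have h1 := h t hi0 x hx
  have h2 := D.sz_pos x
  have h3 : 0 < c * D.sz x ^ 2 := by positivity
  linarith

/-- The function conj N / prod Q. -/
noncomputable def r8h (D : Ctx F K m) (t : Fin (m + 1) → Fin (m + 1) → ℝ) (x : 𝓞 K) : ℂ :=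
  (starRingEnd ℂ) (D.N x) / ∏ j, (D.Q (t j) x : ℂ)

theorem r8_factor (D : Ctx F K m) (hD : D.Ok) (A : Fin (m + 1) → K)
    (w : Fin (m + 1) × Fin 2 → 𝓞 K) (hdir : D.Dirs A w) {P : Type}
    (t : P → Fin (m + 1) → ℝ) (a b : ℝ) (ha : 0 < a) (ht : ∀ q i, a ≤ t q i ∧ t q i ≤ b)
    (k : Fin (m + 1)) :
    Good D.X w (D.gl A) (fun (_ : P) x => (1 + ‖D.Tr (A k) x‖)⁻¹)
      (fun q x => (starRingEnd ℂ) (D.σ k x) / (D.Q (t q) x : ℂ)) := by
  have h0 : (0 : 𝓞 K) ∉ D.X := fun h => D.X_ne hD.ne h rfl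
  have hX := R2_stab D A w hdir
  have hgs : ∀ (i : Fin (m + 1) × Fin 2), ∀ x ∈ D.X, 0 ≤ D.gs i x :=
    fun _ x _ => (inv_pos.mpr (D.sz_pos x)).le
  have hgl : ∀ (i : Fin (m + 1) × Fin 2), ∀ x ∈ D.X, 0 ≤ D.gl A i x :=
    fun i x _ => R2_gl_nonneg D A i x
  have h1 := good_row (P := P) D hD.emb w D.X hX h0 t a b ha ht k
  have h2 := Good.smul h1 hgs (fun _ x _ => (inv_pos.2 (D.sz_pos x)).le)
    (fun q => ((t q k : ℝ) : ℂ)⁻¹) a⁻¹ (fun q => by
      rw [norm_inv, Complex.norm_real, Real.norm_eq_abs, abs_of_pos (ha.trans_le (ht q k).1)]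
      exact inv_anti₀ ha (ht q k).1)
  obtain ⟨C, hC, hC1, hC2⟩ := gs_le_gl D A
  have h3 : (fun (q : P) (x : 𝓞 K) => (starRingEnd ℂ) (D.σ k x) / (D.Q (t q) x : ℂ)) =
      fun (q : P) (x : 𝓞 K) => ((t q k : ℝ) : ℂ)⁻¹ * D.row (.T (t q)) x k := by
    funext q x
    show _ = ((t q k : ℝ) : ℂ)⁻¹ * ((starRingEnd ℂ) (D.σ k x) * (t q k) / D.Q (t q) x)
    have : ((t q k : ℝ) : ℂ) ≠ 0 := by exact_mod_cast (ha.trans_le (ht q k).1).ne'
    field_simp
  rw [h3]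
  refine Good.mono h2 hgs C hC.le (fun q x _ => ⟨(inv_pos.2 (D.sz_pos x)).le, hC1 x k⟩)
    (fun i x _ => hC2 i x)

theorem r8_good (D : Ctx F K m) (hD : D.Ok) (A : Fin (m + 1) → K)
    (w : Fin (m + 1) × Fin 2 → 𝓞 K) (hdir : D.Dirs A w) {P : Type}
    (t : P → Fin (m + 1) → Fin (m + 1) → ℝ) (a b : ℝ) (ha : 0 < a)
    (ht : ∀ q j i, a ≤ t q j i ∧ t q j i ≤ b) :
    Good D.X w (D.gl A) (fun (_ : P) x => D.bl A x) (fun q => r8h D (t q)) := by
  have hX := R2_stab D A w hdir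
  have h1 := Good.prod hX (sv_gl D A w) Finset.univ
    (fun k (_ : P) x => (1 + ‖D.Tr (A k) x‖)⁻¹)
    (fun k (q : P) x => (starRingEnd ℂ) (D.σ k x) / (D.Q (t q k) x : ℂ))
    (fun k _ => SV.inv hX (sv_tr (P := P) D A w k))
    (fun k _ => r8_factor D hD A w hdir (fun q => t q k) a b ha (fun q i => ht q k i) k)
  have h2 : (fun (q : P) => r8h D (t q)) = fun (q : P) (x : 𝓞 K) =>
      ∏ k, ((starRingEnd ℂ) (D.σ k x) / (D.Q (t q k) x : ℂ)) := by
    funext q x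
    unfold r8h Ctx.N
    rw [Finset.prod_div_distrib, map_prod]
  rw [h2]
  exact h1

theorem r8_idet (D : Ctx F K m) (t : Fin (m + 1) → Fin (m + 1) → ℝ) (x : 𝓞 K) :
    D.Idet (fun j => .T (t j)) x = ((Matrix.det (Matrix.of t) : ℝ) : ℂ) * r8h D t x := by
  have h1 : ((Matrix.det (Matrix.of t) : ℝ) : ℂ) =
      Matrix.det (Matrix.of fun j i => ((t j i : ℝ) : ℂ)) := by
    have := RingHom.map_det Complex.ofRealHom (Matrix.of t)
    exact this
  have h2 : D.Idet (fun j => .T (t j)) x = Matrix.det (Matrix.of fun j i : Fin (m + 1) =>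
      ((D.Q (t j) x : ℂ))⁻¹ * (Matrix.of fun j i : Fin (m + 1) =>
        (starRingEnd ℂ) (D.σ i x) * (Matrix.of fun j i => ((t j i : ℝ) : ℂ)) j i) j i) := by
    unfold Ctx.Idet
    congr 1
    ext j i
    show (starRingEnd ℂ) (D.σ i x) * (t j i) / D.Q (t j) x =
      ((D.Q (t j) x : ℂ))⁻¹ * ((starRingEnd ℂ) (D.σ i x) * (t j i : ℂ))
    rw [div_eq_inv_mul]
  rw [h2, Matrix.det_mul_column, Matrix.det_mul_row, ← h1]
  unfold r8h Ctx.N
  rw [Finset.prod_inv_distrib, map_prod]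
  ring

theorem r8_reg (D : Ctx F K m) (hD : D.Ok) (A : Fin (m + 1) → K)
    (w : Fin (m + 1) × Fin 2 → 𝓞 K) (hdir : D.Dirs A w) (G : 𝓞 K → ℂ) (hG : D.GSpec w G)
    (t : Fin (m + 1) → Fin (m + 1) → ℝ) (ht : ∀ j i, 0 < t j i) :
    D.HasReg (r8h D t) (D.Bv w G t) := by
  have hex : ∃ a b : ℝ, 0 < a ∧ ∀ j i, a ≤ t j i ∧ t j i ≤ b := by
    obtain ⟨p0, hp0⟩ := Finite.exists_min fun p : Fin (m + 1) × Fin (m + 1) => t p.1 p.2
    obtain ⟨p1, hp1⟩ := Finite.exists_max fun p : Fin (m + 1) × Fin (m + 1) => t p.1 p.2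
    exact ⟨t p0.1 p0.2, t p1.1 p1.2, ht _ _, fun j i => ⟨hp0 (j, i), hp1 (j, i)⟩⟩
  obtain ⟨a, b, ha, hab⟩ := hex
  have h1 := r8_good D hD A w hdir (fun (_ : Unit) => t) a b ha (fun _ => hab)
  exact (reg_of_good D hD A w hdir G hG _ h1).2

theorem reg_T (D : Ctx F K m) (hD : D.Ok) (A : Fin (m + 1) → K) (w : Fin (m + 1) × Fin 2 → 𝓞 K)
    (hdir : D.Dirs A w) (G : 𝓞 K → ℂ) (hG : D.GSpec w G) (t : Fin (m + 1) → Fin (m + 1) → ℝ)
    (ht : ∀ j i, 0 < t j i) :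
    D.Jv (fun j => .T (t j)) = ((Matrix.det (Matrix.of t) : ℝ) : ℂ) * D.Bv w G t := by
  apply Jv_eq
  refine HasReg.congr D (HasReg.smul D (r8_reg D hD A w hdir G hG t ht)
    ((Matrix.det (Matrix.of t) : ℝ) : ℂ)) fun x _ => ?_
  exact (r8_idet D t x).symm

theorem r8_cont (D : Ctx F K m) (hE : Emb F D.σ) (y : 𝓞 K) (hy : y ≠ 0) :
    ContinuousOn (fun t : Fin (m + 1) → Fin (m + 1) → ℝ => r8h D t y)
      {t | ∀ j i, 0 < t j i} := by
  unfold r8h
  apply ContinuousOn.div continuousOn_const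
  · apply Continuous.continuousOn
    apply continuous_finsetProd
    intro j _
    apply Complex.continuous_ofReal.comp
    unfold Ctx.Q
    fun_prop
  · intro t ht
    rw [Finset.prod_ne_zero_iff]
    intro j _
    exact_mod_cast (r8_Q_pos D hE (t j) (ht j) y hy).ne'

theorem r8_stab (D : Ctx F K m) (A : Fin (m + 1) → K) (w : Fin (m + 1) × Fin 2 → 𝓞 K)
    (hdir : D.Dirs A w) (T : Finset (Fin (m + 1) × Fin 2)) (x : 𝓞 K) (hx : x ∈ D.X) :
    x - ∑ i ∈ T, w i ∈ D.X :=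
  D.X_sub hx (D.I.sum_mem fun i _ => hdir.mem i)

theorem r8_contOn (D : Ctx F K m) (hD : D.Ok) (A : Fin (m + 1) → K)
    (w : Fin (m + 1) × Fin 2 → 𝓞 K) (hdir : D.Dirs A w) (G : 𝓞 K → ℂ) (hG : D.GSpec w G)
    (a b : ℝ) (ha : 0 < a) :
    ContinuousOn (D.Bv w G) {t | ∀ j i, a < t j i ∧ t j i < b} := by
  set P : Type := {t : Fin (m + 1) → Fin (m + 1) → ℝ // ∀ j i, a < t j i ∧ t j i < b} with hP
  obtain ⟨C, hC⟩ := r8_good D hD A w hdir (fun q : P => q.1) a b ha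
    (fun q j i => ⟨(q.2 j i).1.le, (q.2 j i).2.le⟩)
  obtain ⟨CG, hCG⟩ := hG.1
  have h1 : (D.Bv w G) = fun t => ∑' x : D.X, G x * Dif w Finset.univ (r8h D t) x := rfl
  rw [h1]
  apply continuousOn_tsum (u := fun x : D.X => (|CG| * |C|) *
      (D.bl A x * ∏ i : Fin (m + 1) × Fin 2, D.gl A i x))
  · intro x
    apply ContinuousOn.mul continuousOn_const
    unfold Dif
    apply continuousOn_finsetSum
    intro T _
    apply ContinuousOn.mul continuousOn_const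
    refine (r8_cont D hD.emb _ (D.X_ne hD.ne (r8_stab D A w hdir T x x.2))).mono ?_
    intro t ht j i
    exact ha.trans (ht j i).1
  · exact (R2_summable D hD A w hdir).mul_left _
  · intro x t ht
    rw [norm_mul]
    have hp : 0 ≤ ∏ i : Fin (m + 1) × Fin 2, D.gl A i x :=
      Finset.prod_nonneg fun i _ => R2_gl_nonneg D A i x
    have h2 : ‖Dif w Finset.univ (r8h D t) (x : 𝓞 K)‖ ≤
        |C| * (D.bl A x * ∏ i : Fin (m + 1) × Fin 2, D.gl A i x) := by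
      refine (hC ⟨t, ht⟩ Finset.univ x x.2).trans ?_
      rw [mul_assoc]
      exact mul_le_mul_of_nonneg_right (le_abs_self C) (mul_nonneg (R2_bl_nonneg D A x) hp)
    calc ‖G x‖ * ‖Dif w Finset.univ (r8h D t) (x : 𝓞 K)‖
        ≤ |CG| * (|C| * (D.bl A x * ∏ i : Fin (m + 1) × Fin 2, D.gl A i x)) :=
          mul_le_mul ((hCG x).trans (le_abs_self _)) h2 (norm_nonneg _) (abs_nonneg _)
      _ = _ := by ring

theorem Bv_cont (D : Ctx F K m) (hD : D.Ok) (A : Fin (m + 1) → K) (w : Fin (m + 1) × Fin 2 → 𝓞 K)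
    (hdir : D.Dirs A w) (G : 𝓞 K → ℂ) (hG : D.GSpec w G) :
    ContinuousOn (D.Bv w G) {t | ∀ j i, 0 < t j i} := by
  intro t ht
  have ht' : ∀ j i, 0 < t j i := ht
  obtain ⟨p0, hp0⟩ := Finite.exists_min fun p : Fin (m + 1) × Fin (m + 1) => t p.1 p.2
  obtain ⟨p1, hp1⟩ := Finite.exists_max fun p : Fin (m + 1) × Fin (m + 1) => t p.1 p.2
  set a : ℝ := t p0.1 p0.2 / 2 with ha
  set b : ℝ := t p1.1 p1.2 + 1 with hb
  have ha0 : 0 < a := by
    have := ht' p0.1 p0.2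
    positivity
  have hmem : t ∈ {t : Fin (m + 1) → Fin (m + 1) → ℝ | ∀ j i, a < t j i ∧ t j i < b} := by
    intro j i
    have h1 : t p0.1 p0.2 ≤ t j i := hp0 (j, i)
    have h2 : t j i ≤ t p1.1 p1.2 := hp1 (j, i)
    have h3 := ht' p0.1 p0.2
    constructor <;> [rw [ha]; rw [hb]] <;> linarith
  have hopen : IsOpen {t : Fin (m + 1) → Fin (m + 1) → ℝ | ∀ j i, a < t j i ∧ t j i < b} := by
    have : {t : Fin (m + 1) → Fin (m + 1) → ℝ | ∀ j i, a < t j i ∧ t j i < b} =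
        ⋂ j, ⋂ i, ({t : Fin (m + 1) → Fin (m + 1) → ℝ | a < t j i} ∩
          {t : Fin (m + 1) → Fin (m + 1) → ℝ | t j i < b}) := by
      ext t
      simp
    rw [this]
    refine isOpen_iInter_of_finite fun j => isOpen_iInter_of_finite fun i => ?_
    exact (isOpen_lt continuous_const (by fun_prop)).inter
      (isOpen_lt (by fun_prop) continuous_const)
  exact ((r8_contOn D hD A w hdir G hG a b ha0).continuousAt
    (hopen.mem_nhds hmem)).continuousWithinAt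

set_option maxHeartbeats 400000 in
theorem Jv_A (D : Ctx F K m) (hD : D.Ok) (A : Fin (m + 1) → K) (w : Fin (m + 1) × Fin 2 → 𝓞 K)
    (hdir : D.Dirs A w) : ∃ S : ℂ,
      D.Jv (fun k => .A (A k)) = Matrix.det (Matrix.of fun k i => D.σ i (A k)) * S ∧
      Filter.Tendsto (fun R : ℝ => ∑' x : D.X, D.g x * (∏ k, (D.Tr (A k) x)⁻¹) *
        (D.pcut A R x : ℂ)) Filter.atTop (nhds S) := by
  have hX := R2_stab D A w hdir
  obtain ⟨G, hG⟩ := gspec_exists D hD A w hdir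
  have h1 : Good D.X w (D.gl A) (fun (_ : Unit) x => D.bl A x)
      (fun _ (x : 𝓞 K) => ∏ k, (D.Tr (A k) x)⁻¹) :=
    Good.prod hX (sv_gl D A w) Finset.univ
      (fun k (_ : Unit) x => (1 + ‖D.Tr (A k) x‖)⁻¹)
      (fun k (_ : Unit) x => (D.Tr (A k) x)⁻¹)
      (fun k _ => SV.inv hX (sv_tr (P := Unit) D A w k))
      (fun k _ => good_tr (P := Unit) D A w hdir k)
  have h4 := pcut_of_good D hD A w hdir G hG (fun x : 𝓞 K => ∏ k, (D.Tr (A k) x)⁻¹) h1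
  have h2 := (reg_of_good D hD A w hdir G hG (fun x : 𝓞 K => ∏ k, (D.Tr (A k) x)⁻¹) h1).2
  refine ⟨∑' x : D.X, G x * Dif w Finset.univ (fun x : 𝓞 K => ∏ k, (D.Tr (A k) x)⁻¹) x,
    ?_, h4⟩
  have h5 := HasReg.smul D h2 (Matrix.det (Matrix.of fun k i : Fin (m + 1) => D.σ i (A k)))
  apply Jv_eq
  refine HasReg.congr D h5 fun x _ => ?_
  symm
  have h3 : D.Idet (fun k => .A (A k)) x = Matrix.det (Matrix.of fun k i : Fin (m + 1) =>
      (D.Tr (A k) x)⁻¹ * (Matrix.of fun k i : Fin (m + 1) => D.σ i (A k)) k i) := by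
    unfold Ctx.Idet
    congr 1
    ext k i
    show D.σ i (A k) / D.Tr (A k) x = (D.Tr (A k) x)⁻¹ * D.σ i (A k)
    rw [div_eq_inv_mul]
  rw [h3, Matrix.det_mul_column]
  ring

end H55P
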