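import Mathlib
import Pool.Agent.Lib.H55N.C3
import Pool.Agent.Lib.H55N.C4
import Pool.Agent.Lib.H55N.C7
import Pool.Agent.Lib.H55P.R5
import Pool.Agent.Lib.H55P.R7
import Pool.Agent.Lib.H55P.R8

open NumberField IsDedekindDomain MeasureTheory

namespace H55P

open H55N
open H55B (g)

variable {F : Type} [Field F] [NumberField F] [IQ F] {K : Type} [Field K] [NumberField K] [Algebra F K] {m : ℕ}

/-! Chunk Z1 (M). The value. lm = D.lm u, J = D.Jv, τ z = D.act (uu u z); J (τ z l) = J l (uu_act, Jv_act). For N >= 1 put Lin_N a = T (tt lm (a/N)) and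
Fl a = T (tt lm a); Lin_N (a + N z) = τ z (Lin_N a) since tt lm (x + z) i = tt lm x i * |σ_i u^z|^2 (uu_act), and the same for a -> Fl (a/N) (integer division,
Int.add_mul_ediv_left). (1) CN_eq with N = m+1, L = A o L, L' = Lin_(m+1): hcoc by prism_cocycle with A_k = L(kv a π k) and w' from hdirs. So CN (m+1) J (A o L) = CN (m+1) J Lin_(m+1).
(2) For every N >= 1: CN N J Lin_N = CN N J (Fl o (./N)) by CN_eq, hcoc by prism_cocycle with the given A, w (second alternative in hL), and = CN 1 J Fl by CN_floor (Jv_degenerate).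
(3) So CN N J Lin_N does not depend on N; by reg_T it is the sum in riemann (B = D.Bv w G, Bv_cont, lm_sum) whose limit is m! Delta int; the limit of a constant sequence
(tendsto_nhds_unique, for N >= 1 eventually). -/

/-- The labels on a line. -/
noncomputable def Z1_Lin (D : Ctx F K m) (u : Fin m → (𝓞 K)ˣ) (N : ℕ) (a : Fin m → ℤ) : Lab K m :=
  .T (tt (D.lm u) fun k => (a k : ℝ) / N)

/-- The integral labels. -/
noncomputable def Z1_Fl (D : Ctx F K m) (u : Fin m → (𝓞 K)ˣ) (a : Fin m → ℤ) : Lab K m :=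
  .T (tt (D.lm u) fun k => (a k : ℝ))

theorem Z1_tt (D : Ctx F K m) (u : Fin m → (𝓞 K)ˣ) (hu : D.UOk u) (x : Fin m → ℝ) (z : Fin m → ℤ) :
    (Lab.T (tt (D.lm u) fun k => x k + (z k : ℝ)) : Lab K m) =
      D.act (uu u z) (.T (tt (D.lm u) x)) := by
  have h := (uu_act D u hu z).2.2
  show Lab.T _ = Lab.T fun i => ‖D.σ i ((uu u z : 𝓞 K) : K)‖ ^ 2 * tt (D.lm u) x i
  congr 1
  funext i
  rw [h i]
  unfold tt
  rw [← Real.exp_add, ← Finset.sum_add_distrib]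
  congr 1
  refine Finset.sum_congr rfl fun j _ => ?_
  ring

theorem Z1_Lin_add (D : Ctx F K m) (u : Fin m → (𝓞 K)ˣ) (hu : D.UOk u) (N : ℕ) (hN : 0 < N)
    (a z : Fin m → ℤ) : Z1_Lin D u N (a + (N : ℤ) • z) = D.act (uu u z) (Z1_Lin D u N a) := by
  unfold Z1_Lin
  rw [← Z1_tt D u hu]
  congr 2
  funext k
  have hN' : (N : ℝ) ≠ 0 := by exact_mod_cast hN.ne'
  simp only [Pi.add_apply, Pi.smul_apply, smul_eq_mul]
  push_cast
  field_simp

theorem Z1_Fl_add (D : Ctx F K m) (u : Fin m → (𝓞 K)ˣ) (hu : D.UOk u) (N : ℕ) (hN : 0 < N)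
    (a z : Fin m → ℤ) : (Z1_Fl D u fun k => (a + (N : ℤ) • z) k / (N : ℤ)) =
      D.act (uu u z) (Z1_Fl D u fun k => a k / (N : ℤ)) := by
  unfold Z1_Fl
  rw [← Z1_tt D u hu]
  congr 2
  funext k
  have hN' : (N : ℤ) ≠ 0 := by exact_mod_cast hN.ne'
  simp only [Pi.add_apply, Pi.smul_apply, smul_eq_mul]
  rw [Int.add_mul_ediv_left _ _ hN']
  push_cast
  ring

theorem Z1_tt_pos (lm : Fin (m + 1) → Fin m → ℝ) (z : Fin m → ℝ) (i : Fin (m + 1)) :
    0 < tt lm z i := Real.exp_pos _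

theorem CN_value (D : Ctx F K m) (hD : D.Ok) (u : Fin m → (𝓞 K)ˣ) (hu : D.UOk u)
    (A : Fin (m + 1) → K) (w : Fin (m + 1) × Fin 2 → 𝓞 K) (hdir : D.Dirs A w) (G : 𝓞 K → ℂ)
    (hG : D.GSpec w G) (L : (Fin m → ℤ) → K)
    (hequi : ∀ a z : Fin m → ℤ, L (a + ((m + 1 : ℕ) : ℤ) • z) = ((uu u z : 𝓞 K) : K) * L a)
    (hdirs : ∀ (a : Fin m → Fin (m + 1)) (π : Equiv.Perm (Fin m)),
      ∃ w', D.Dirs (fun k : Fin (m + 1) => L (kv (fun k => ((a k : ℕ) : ℤ)) π k)) w') :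
    CN (m + 1) D.Jv (fun a => .A (L a)) = (m.factorial : ℂ) * ((Delta (D.lm u) : ℝ) : ℂ) *
      ∫ z in Set.Icc (0 : Fin m → ℝ) 1, D.Bv w G (fun _ => tt (D.lm u) z) := by
  have hJ : ∀ (z : Fin m → ℤ) (l : Fin (m + 1) → Lab K m),
      D.Jv (fun j => D.act (uu u z) (l j)) = D.Jv l := fun z l =>
    Jv_act D (uu u z) (uu_act D u hu z).1 (uu_act D u hu z).2.1 l
  have h1 : CN (m + 1) D.Jv (fun a => .A (L a)) = CN (m + 1) D.Jv (Z1_Lin D u (m + 1)) := by
    refine CN_eq (m + 1) (Nat.succ_pos m) D.Jv (fun a => .A (L a)) (Z1_Lin D u (m + 1))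
      (fun z => D.act (uu u z)) hJ ?_ (fun a z => Z1_Lin_add D u hu (m + 1) (Nat.succ_pos m) a z) ?_
    · intro a z
      show Lab.A (L (a + ((m + 1 : ℕ) : ℤ) • z)) = Lab.A (((uu u z : 𝓞 K) : K) * L a)
      rw [hequi]
    · intro a π i hi
      obtain ⟨w', hw'⟩ := hdirs a π
      exact prism_cocycle D hD _ w' hw' (fun a => .A (L a)) (Z1_Lin D u (m + 1)) _
        (fun k => Or.inl rfl) (fun k _ => ⟨_, rfl, Z1_tt_pos _ _⟩) i hi
  have h2 : ∀ N : ℕ, 0 < N → CN N D.Jv (Z1_Lin D u N) = CN 1 D.Jv (Z1_Fl D u) := by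
    intro N hN
    rw [← CN_floor N hN D.Jv (Jv_degenerate D) (Z1_Fl D u)]
    refine CN_eq N hN D.Jv (Z1_Lin D u N) (fun a => Z1_Fl D u fun k => a k / (N : ℤ))
      (fun z => D.act (uu u z)) hJ (fun a z => Z1_Lin_add D u hu N hN a z)
      (fun a z => Z1_Fl_add D u hu N hN a z) ?_
    intro a π i hi
    exact prism_cocycle D hD A w hdir (Z1_Lin D u N) (fun a => Z1_Fl D u fun k => a k / (N : ℤ)) _
      (fun k => Or.inr ⟨_, rfl, Z1_tt_pos _ _⟩) (fun k _ => ⟨_, rfl, Z1_tt_pos _ _⟩) i hi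
  rw [h1, h2 _ (Nat.succ_pos m)]
  have h3 := riemann m (D.lm u) (lm_sum D u hu) (D.Bv w G) (Bv_cont D hD A w hdir G hG)
  refine tendsto_nhds_unique ?_ h3
  refine (tendsto_const_nhds (x := CN 1 D.Jv (Z1_Fl D u))).congr' ?_
  filter_upwards [Filter.eventually_gt_atTop 0] with N hN
  rw [← h2 N hN]
  unfold CN
  refine Finset.sum_congr rfl fun a _ => Finset.sum_congr rfl fun π _ => ?_
  congr 1
  exact reg_T D hD A w hdir G hG _ fun j i => Z1_tt_pos _ _ _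

end H55P
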