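import Mathlib
import Pool.Agent.Lib.H55P.F0

open NumberField IsDedekindDomain

namespace H55P

open H55N
open H55B (g)

variable {F : Type} [Field F] [NumberField F] [IQ F] {K : Type} [Field K] [NumberField K]
  [Algebra F K] {m : ℕ}

/-! Chunk PD1 (S/M), PORT of Lib/H55N/D1.lean. Changes: the unit congruence J <= (6) is replaced by the hypothesis htf (used in the proof of htf there), the rank of K is m because F has
no real and one complex place (F0_card in H55P/F0.lean) and finrank Q F = 2 (IQ.deg): K has no real place (a real place of K restricts to a real place of F), then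
InfinitePlace.card_add_two_mul_card_eq_rank. Everything else is copied. -/

theorem D1_rank (hm : Module.finrank F K = m + 1) : NumberField.Units.rank K = m := by
  classical
  have h0 : InfinitePlace.nrRealPlaces K = 0 := by
    unfold InfinitePlace.nrRealPlaces
    rw [Fintype.card_eq_zero_iff]
    refine ⟨fun w => ?_⟩
    have h1 : (w.1.comap (algebraMap F K)).IsReal := w.2.comap (algebraMap F K)
    have h2 : 0 < InfinitePlace.nrRealPlaces F := by
      unfold InfinitePlace.nrRealPlaces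
      rw [Fintype.card_pos_iff]
      exact ⟨⟨_, h1⟩⟩
    rw [F0_card.1] at h2
    exact lt_irrefl _ h2
  have h2 := InfinitePlace.card_eq_nrRealPlaces_add_nrComplexPlaces (K := K)
  have h4 := InfinitePlace.card_add_two_mul_card_eq_rank K
  have h5 := Module.finrank_mul_finrank ℚ F K
  have h6 : Module.finrank ℚ F = 2 := IQ.deg
  rw [h6, hm] at h5
  unfold Units.rank
  omega

theorem units_basis (hm : Module.finrank F K = m + 1) (J : Ideal (𝓞 K)) (hJ : J ≠ ⊥)
    (htf : ∀ ζ : (𝓞 K)ˣ, (ζ : 𝓞 K) - 1 ∈ J → ∀ q : ℕ, q.Prime → ζ ^ q = 1 → ζ = 1) :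
    ∃ u : Fin m → (𝓞 K)ˣ, (∀ j, (u j : 𝓞 K) - 1 ∈ J) ∧
      (∀ z, (uu u z : 𝓞 K) - 1 ∈ J) ∧
      (∀ v : (𝓞 K)ˣ, (v : 𝓞 K) - 1 ∈ J → ∃! z : Fin m → ℤ, v = uu u z) ∧
      (Subgroup.closure (Set.range u)).FiniteIndex := by
  classical
  have hrank : Units.rank K = m := D1_rank hm
  let φ : (𝓞 K)ˣ →* (𝓞 K ⧸ J)ˣ := Units.map (Ideal.Quotient.mk J).toMonoidHom
  haveI : Finite (𝓞 K ⧸ J) := Ideal.finiteQuotientOfFreeOfNeBot J hJ
  have hV : ∀ v : (𝓞 K)ˣ, v ∈ φ.ker ↔ (v : 𝓞 K) - 1 ∈ J := by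
    intro v
    rw [MonoidHom.mem_ker, Units.ext_iff, ← Ideal.Quotient.mk_eq_mk_iff_sub_mem]
    exact Iff.rfl
  haveI hVfi : φ.ker.FiniteIndex := inferInstance
  let N : Submodule ℤ (Additive (𝓞 K)ˣ) := AddSubgroup.toIntSubmodule (Subgroup.toAddSubgroup φ.ker)
  have hmemN : ∀ x : Additive (𝓞 K)ˣ, x ∈ N ↔ Additive.toMul x ∈ φ.ker := fun x => Iff.rfl
  -- torsion free
  have htf2 : ∀ v ∈ φ.ker, ∀ n : ℕ, 0 < n → v ^ n = 1 → v = 1 := by
    intro v hv n hn h1
    by_contra hne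
    have h2 : orderOf v ≠ 1 := fun h => hne (orderOf_eq_one_iff.1 h)
    obtain ⟨l, hl, hdvd⟩ := Nat.exists_prime_and_dvd h2
    have hfo : IsOfFinOrder v := isOfFinOrder_iff_pow_eq_one.2 ⟨n, hn, h1⟩
    have hpos := hfo.orderOf_pos
    obtain ⟨k, hk⟩ := hdvd
    have h3 : (v ^ k) ^ l = 1 := by
      rw [← pow_mul, mul_comm, ← hk, pow_orderOf_eq_one]
    have h4 := htf (v ^ k) ((hV _).1 (Subgroup.pow_mem _ hv k)) l hl h3
    have h5 := orderOf_dvd_of_pow_eq_one h4
    have hk0 : 0 < k := Nat.pos_of_ne_zero (fun h => by rw [hk, h, mul_zero] at hpos; exact lt_irrefl _ hpos)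
    have h6 := Nat.le_of_dvd hk0 h5
    have h7 := hl.two_le
    nlinarith
  haveI hN : Module.Finite ℤ N := inferInstance
  haveI hNt : Module.IsTorsionFree ℤ N := by
    apply Module.IsTorsionFree.of_smul_eq_zero
    intro r x hx
    by_contra hcon
    push Not at hcon
    obtain ⟨hr, hx0⟩ := hcon
    apply hx0
    apply Subtype.ext
    have h1 : r • (x : Additive (𝓞 K)ˣ) = 0 := congrArg Subtype.val hx
    have h2 : (r.natAbs) • (x : Additive (𝓞 K)ˣ) = 0 := by
      rcases Int.natAbs_eq r with h | h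
      · rw [h, natCast_zsmul] at h1
        exact h1
      · rw [h, neg_smul, natCast_zsmul, neg_eq_zero] at h1
        exact h1
    exact congrArg Additive.ofMul (htf2 (Additive.toMul (x : Additive (𝓞 K)ˣ)) ((hmemN _).1 x.2)
      r.natAbs (Int.natAbs_pos.2 hr) (congrArg Additive.toMul h2))
  haveI hNf : Module.Free ℤ N := Module.free_of_finite_type_torsion_free'
  have hfr : Module.finrank ℤ N = m := by
    have h1 := Submodule.finrank_quotient_add_finrank N
    have h2 : Module.finrank ℤ (Additive (𝓞 K)ˣ ⧸ N) = 0 := by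
      rw [Module.finrank_eq_zero_iff]
      intro x
      obtain ⟨y, rfl⟩ := Submodule.Quotient.mk_surjective N x
      refine ⟨(φ.ker.index : ℤ), by exact_mod_cast hVfi.index_ne_zero, ?_⟩
      rw [← Submodule.Quotient.mk_smul, Submodule.Quotient.mk_eq_zero, hmemN, natCast_zsmul]
      exact φ.ker.pow_index_mem (Additive.toMul y)
    rw [h2, zero_add, Units.finrank_eq, hrank] at h1
    exact h1
  let b : Module.Basis (Fin m) ℤ N := Module.finBasisOfFinrankEq ℤ N hfr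
  let u : Fin m → (𝓞 K)ˣ := fun j => Additive.toMul (b j : Additive (𝓞 K)ˣ)
  have huV : ∀ j, u j ∈ φ.ker := fun j => (hmemN _).1 (b j).2
  have huu : ∀ z : Fin m → ℤ, Additive.ofMul (uu u z) = ((∑ j, z j • b j : N) : Additive (𝓞 K)ˣ) := by
    intro z
    unfold uu
    rw [ofMul_prod, AddSubmonoidClass.coe_finset_sum]
    rfl
  have huz : ∀ z : Fin m → ℤ, uu u z ∈ φ.ker := fun z =>
    Subgroup.prod_mem _ fun j _ => Subgroup.zpow_mem _ (huV j) _
  have hex : ∀ v : (𝓞 K)ˣ, v ∈ φ.ker → ∃! z : Fin m → ℤ, v = uu u z := by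
    intro v hv
    have hvN : Additive.ofMul v ∈ N := (hmemN _).2 hv
    refine ⟨b.equivFun ⟨Additive.ofMul v, hvN⟩, ?_, ?_⟩
    · have h1 := huu (b.equivFun ⟨Additive.ofMul v, hvN⟩)
      rw [b.sum_equivFun] at h1
      exact (Additive.ofMul.injective h1).symm
    · intro z hz
      have h1 := huu z
      rw [← hz] at h1
      have h2 : (⟨Additive.ofMul v, hvN⟩ : N) = ∑ j, z j • b j := Subtype.ext h1
      rw [h2, ← b.equivFun_symm_apply, LinearEquiv.apply_symm_apply]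
  refine ⟨u, fun j => (hV _).1 (huV j), fun z => (hV _).1 (huz z),
    fun v hv => hex v ((hV v).2 hv), ?_⟩
  apply Subgroup.finiteIndex_of_le (H := φ.ker)
  intro v hv
  obtain ⟨z, hz, -⟩ := hex v hv
  rw [hz]
  exact Subgroup.prod_mem _ fun j _ =>
    Subgroup.zpow_mem _ (Subgroup.subset_closure (Set.mem_range_self j)) _

/-- No torsion. If ζ^q = 1, ζ <> 1, then q = - sum (ζ^i - 1) is in J (as in D1_six), so p divides q in O_K, hence in Z (norms), q = p; and l divides q = p in O_K. But a l + b p = 1 in O, so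
l divides 1 in O_K, so its norm to O is a unit (Algebra.intNorm, or: (l) = (1) in O_K implies (l) = (1) in O by Ideal.comap_map_eq_self_of_faithfullyFlat / relNorm_algebraMap), contradiction. -/
theorem torsion_free (p : ℕ) (hp : p.Prime) (l : 𝓞 F) (hl : Prime l) (hlp : IsCoprime l (p : 𝓞 F))
    (J : Ideal (𝓞 K)) (h1 : J ≤ Ideal.span {(p : 𝓞 K)})
    (h2 : J ≤ Ideal.span {algebraMap (𝓞 F) (𝓞 K) l}) (ζ : (𝓞 K)ˣ) (hζ : (ζ : 𝓞 K) - 1 ∈ J) (q : ℕ)
    (hq : q.Prime) (h : ζ ^ q = 1) : ζ = 1 := by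
  by_contra hne
  have hs : ∑ i ∈ Finset.range q, (ζ : 𝓞 K) ^ i = 0 := by
    have h := mul_geom_sum (ζ : 𝓞 K) q
    have h2 : (ζ : 𝓞 K) ^ q = 1 := by
      have h0 := congrArg Units.val ‹ζ ^ q = 1›
      simpa using h0
    rw [h2, sub_self] at h
    rcases mul_eq_zero.1 h with h3 | h3
    · exact absurd (Units.ext (sub_eq_zero.1 h3)) hne
    · exact h3
  have h3 : (q : 𝓞 K) ∈ J := by
    have h4 : (q : 𝓞 K) = - ∑ i ∈ Finset.range q, ((ζ : 𝓞 K) ^ i - 1) := by
      rw [Finset.sum_sub_distrib, hs]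
      simp
    rw [h4]
    refine (Ideal.neg_mem_iff _).2 (Ideal.sum_mem _ fun i _ => ?_)
    have h5 := sub_dvd_pow_sub_pow (ζ : 𝓞 K) 1 i
    rw [one_pow] at h5
    exact Ideal.mem_of_dvd _ h5 hζ
  obtain ⟨y, hy⟩ := Ideal.mem_span_singleton.1 (h1 h3)
  have hnorm : ∀ k : ℕ, Algebra.norm ℤ (k : 𝓞 K) = (k : ℤ) ^ Module.finrank ℤ (𝓞 K) := by
    intro k
    have := Algebra.norm_algebraMap (S := 𝓞 K) (k : ℤ)
    rw [map_natCast] at this
    exact this
  have hy3 := congrArg (Algebra.norm ℤ) hy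
  rw [map_mul, hnorm, hnorm] at hy3
  have hpos : Module.finrank ℤ (𝓞 K) ≠ 0 := (Module.finrank_pos (R := ℤ) (M := 𝓞 K)).ne'
  have h6 : (p : ℤ) ∣ (q : ℤ) := (Int.pow_dvd_pow_iff hpos).1 ⟨_, hy3⟩
  have h7 : p = q := (Nat.prime_dvd_prime_iff_eq hp hq).1 (by exact_mod_cast h6)
  subst h7
  have h8 : (p : 𝓞 K) ∈ Ideal.span {algebraMap (𝓞 F) (𝓞 K) l} := h2 h3
  obtain ⟨a, b, hab⟩ := hlp
  have h9 : (1 : 𝓞 K) ∈ Ideal.span {algebraMap (𝓞 F) (𝓞 K) l} := by
    have h10 := congrArg (algebraMap (𝓞 F) (𝓞 K)) hab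
    rw [map_add, map_mul, map_mul, map_one, map_natCast] at h10
    rw [← h10]
    exact Ideal.add_mem _ (Ideal.mul_mem_left _ _ (Ideal.mem_span_singleton_self _))
      (Ideal.mul_mem_left _ _ h8)
  have h11 : IsUnit (algebraMap (𝓞 F) (𝓞 K) l) := by
    rw [← Ideal.span_singleton_eq_top]
    exact (Ideal.eq_top_iff_one _).2 h9
  have h12 : IsUnit (Algebra.intNorm (𝓞 F) (𝓞 K) (algebraMap (𝓞 F) (𝓞 K) l)) := h11.map _
  have : IsScalarTower ℚ F K := IsScalarTower.of_algebraMap_eq' (Subsingleton.elim _ _)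
  have : Module.Finite F K := Module.Finite.of_restrictScalars_finite ℚ F K
  have h13 : Algebra.intNorm (𝓞 F) (𝓞 K) (algebraMap (𝓞 F) (𝓞 K) l) = l ^ Module.finrank F K := by
    apply RingOfIntegers.coe_injective
    rw [Algebra.algebraMap_intNorm (A := 𝓞 F) (K := F) (L := K) (B := 𝓞 K), map_pow]
    exact Algebra.norm_algebraMap (S := K) (algebraMap (𝓞 F) F l)
  rw [h13] at h12
  exact hl.not_isUnit ((isUnit_pow_iff Module.finrank_pos.ne').1 h12)

end H55P
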