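import Mathlib
import Pool.Agent.Lib.H55P.A1
import Pool.Agent.Lib.H55P.D1
import Pool.Agent.Lib.H55P.GD

open NumberField IsDedekindDomain

namespace H55P

open H55N
open H55B (g)

variable {F : Type} [Field F] [NumberField F] [IQ F] {K : Type} [Field K] [NumberField K]
  [Algebra F K] {m : ℕ}

/-! Chunk PD2 (M), PORT of Lib/H55N/D2.lean. Changes: D1_rank from H55P/D1.lean; the places of F: F0_place in H55P/F0.lean (every infinite place of F is mk (embF F)). norm_one: O is a
principal ideal domain (instPIDF), M = (μ), so v = 1 + μ w and the norm of v is 1 + μ y with y in O (as in D2_prod with 3 replaced by the complex number eF F μ, or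
algebraically: intNorm v - 1 is in M because modulo M ... Algebra.norm of 1 + μ w is the determinant of 1 + μ W, = 1 modulo μ); it is a unit of O, so it is 1 by h.unit. -/

theorem D2_placeF (φ : F →+* ℂ) : φ = embF F ∨ ComplexEmbedding.conjugate φ = embF F :=
  InfinitePlace.mk_eq_iff.1 (F0_place (InfinitePlace.mk φ))

theorem D2_place (D : Ctx F K m) (hE : Emb F D.σ) (w : InfinitePlace K) :
    ∃ i, ∀ x : K, w x = ‖D.σ i x‖ := by
  rcases D2_placeF (w.embedding.comp (algebraMap F K)) with h | h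
  · obtain ⟨i, hi⟩ := emb_all hE w.embedding (fun x => by rw [← h]; rfl)
    refine ⟨i, fun x => ?_⟩
    rw [← hi, InfinitePlace.norm_embedding_eq]
  · obtain ⟨i, hi⟩ := emb_all hE (ComplexEmbedding.conjugate w.embedding) (fun x => by rw [← h]; rfl)
    refine ⟨i, fun x => ?_⟩
    rw [← hi, ComplexEmbedding.conjugate_coe_eq]
    rw [RCLike.norm_conj, InfinitePlace.norm_embedding_eq]

theorem D2_normU (D : Ctx F K m) (hE : Emb F D.σ) (v : (𝓞 K)ˣ) :
    ∏ i, D.σ i ((v : 𝓞 K) : K) = eF F ((Units.map (RingOfIntegers.norm F) v : (𝓞 F)ˣ) : 𝓞 F) := by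
  rw [norm_eq hE]
  rfl

theorem D2_norm_abs (D : Ctx F K m) (hE : Emb F D.σ) (v : (𝓞 K)ˣ) :
    ∏ i, ‖D.σ i ((v : 𝓞 K) : K)‖ = 1 := by
  rw [← norm_prod, D2_normU D hE]
  have h1 := Nm_eq ((Units.map (RingOfIntegers.norm F) v : (𝓞 F)ˣ) : 𝓞 F)
  have h0 : Nm ((Units.map (RingOfIntegers.norm F) v : (𝓞 F)ˣ) : 𝓞 F) = 1 := by
    unfold Nm
    rw [Ideal.absNorm_eq_one_iff, Ideal.span_singleton_eq_top]
    exact Units.isUnit _
  rw [h0] at h1
  have h2 : ‖eF F ((Units.map (RingOfIntegers.norm F) v : (𝓞 F)ˣ) : 𝓞 F)‖ ^ 2 = 1 := by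
    rw [← h1]; norm_num
  exact (pow_eq_one_iff_of_nonneg (norm_nonneg _) two_ne_zero).1 h2

theorem delta_ne (D : Ctx F K m) (hE : Emb F D.σ) (u : Fin m → (𝓞 K)ˣ)
    (hu : (Subgroup.closure (Set.range u)).FiniteIndex) : Delta (D.lm u) ≠ 0 := by
  have hr : NumberField.Units.rank K = m := D1_rank (F := F) hE.fin
  subst hr
  have hmax := NumberField.Units.isMaxRank_iff_closure_finiteIndex.2 hu
  intro h0
  unfold Delta at h0
  rw [← Matrix.exists_mulVec_eq_zero_iff] at h0
  obtain ⟨c, hc0, hc⟩ := h0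
  have hrow : ∀ i, c 0 + ∑ j, D.lm u i j * c j.succ = 0 := by
    intro i
    have := congrFun hc i
    simp only [Matrix.mulVec, dotProduct, Fin.sum_univ_succ, Matrix.of_apply, Fin.cons_zero,
      Fin.cons_succ, Pi.zero_apply, one_mul] at this
    exact this
  have hcol : ∀ j, ∑ i, D.lm u i j = 0 := by
    intro j
    unfold Ctx.lm
    rw [← Finset.mul_sum, ← Real.log_prod, D2_norm_abs D hE, Real.log_one, mul_zero]
    intro i _
    rw [norm_ne_zero_iff]
    exact (map_ne_zero _).2 (NumberField.Units.coe_ne_zero _)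
  have hc00 : c 0 = 0 := by
    have h1 : ∑ i : Fin (NumberField.Units.rank K + 1),
        (c 0 + ∑ j, D.lm u i j * c j.succ) = 0 := Finset.sum_eq_zero fun i _ => hrow i
    rw [Finset.sum_add_distrib, Finset.sum_comm] at h1
    simp_rw [← Finset.sum_mul] at h1
    rw [Finset.sum_eq_zero (s := Finset.univ) (f := fun j => (∑ i, D.lm u i j) * c j.succ)
      (fun j _ => by rw [hcol j, zero_mul]), add_zero, Finset.sum_const, Finset.card_univ,
      Fintype.card_fin, nsmul_eq_mul] at h1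
    rcases mul_eq_zero.1 h1 with h2 | h2
    · exact absurd h2 (by positivity)
    · exact h2
  have hind := Fintype.linearIndependent_iff.1 hmax (fun j => c j.succ) (by
    funext w
    rw [Finset.sum_apply]
    simp only [Pi.smul_apply, NumberField.Units.dirichletUnitTheorem.logEmbedding_component,
      smul_eq_mul, Pi.zero_apply]
    obtain ⟨i, hi⟩ := D2_place D hE w.val
    have h1 := hrow i
    rw [hc00, zero_add] at h1
    have h2 : ∀ j, c j.succ * ((w.val.mult : ℝ) * Real.log (w.val ((u j : 𝓞 K) : K))) =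
        ((w.val.mult : ℝ) / 2) * (D.lm u i j * c j.succ) := by
      intro j
      unfold Ctx.lm
      rw [hi]
      ring
    rw [Finset.sum_congr rfl (fun j _ => h2 j), ← Finset.mul_sum, h1, mul_zero])
  apply hc0
  funext j
  refine Fin.cases hc00 (fun j => hind j) j

/-- The coordinates of an element of M O_K are in M. -/
theorem D2_coord {ι : Type*} (b : Module.Basis ι (𝓞 F) (𝓞 K)) (M : Ideal (𝓞 F)) (z : 𝓞 K)
    (hz : z ∈ mK K M) : ∀ (t : 𝓞 K) (i : ι), b.repr (z * t) i ∈ M := by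
  unfold mK Ideal.map at hz
  induction hz using Submodule.span_induction with
  | mem x hx =>
    obtain ⟨a, ha, rfl⟩ := hx
    intro t i
    rw [← Algebra.smul_def, map_smul, Finsupp.smul_apply, smul_eq_mul]
    exact M.mul_mem_right _ ha
  | zero =>
    intro t i
    rw [zero_mul, map_zero]
    exact M.zero_mem
  | add x y _ _ hx hy =>
    intro t i
    rw [add_mul, map_add, Finsupp.add_apply]
    exact M.add_mem (hx t i) (hy t i)
  | smul a x _ hx =>
    intro t i
    have h1 : a • x * t = x * (a * t) := by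
      rw [smul_eq_mul]
      ring
    rw [h1]
    exact hx _ i

/-- The norm of an element congruent to 1 modulo an ideal of O. -/
theorem intNorm_cong (M : Ideal (𝓞 F)) (x y : 𝓞 K) (h : x - y ∈ mK K M) :
    Algebra.intNorm (𝓞 F) (𝓞 K) x - Algebra.intNorm (𝓞 F) (𝓞 K) y ∈ M := by
  classical
  have hfree : Module.Free (𝓞 F) (𝓞 K) := inferInstance
  let b := Module.Free.chooseBasis (𝓞 F) (𝓞 K)
  rw [Algebra.intNorm_eq_norm, Algebra.norm_eq_matrix_det b, Algebra.norm_eq_matrix_det b,
    ← Ideal.Quotient.eq, RingHom.map_det, RingHom.map_det]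
  congr 1
  ext i j
  rw [RingHom.mapMatrix_apply, RingHom.mapMatrix_apply, Matrix.map_apply, Matrix.map_apply,
    Ideal.Quotient.eq, Algebra.leftMulMatrix_eq_repr_mul, Algebra.leftMulMatrix_eq_repr_mul,
    ← Finsupp.sub_apply, ← map_sub, ← sub_mul]
  exact D2_coord b M _ h _ _

theorem norm_one (D : Ctx F K m) (hE : Emb F D.σ) {p : ℕ} {M : Ideal (𝓞 F)} {l : 𝓞 F}
    (h : Mod p M l) (v : (𝓞 K)ˣ) (hv : (v : 𝓞 K) - 1 ∈ mK K M) :
    ∏ i, D.σ i ((v : 𝓞 K) : K) = 1 := by
  have h0 := D2_normU D hE v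
  set n : (𝓞 F)ˣ := Units.map (RingOfIntegers.norm F) v with hn
  have h1 : (n : 𝓞 F) = Algebra.intNorm (𝓞 F) (𝓞 K) (v : 𝓞 K) := by
    apply FaithfulSMul.algebraMap_injective (𝓞 F) F
    rw [Algebra.algebraMap_intNorm (K := F) (L := K)]
    rfl
  have h2 := intNorm_cong M (v : 𝓞 K) 1 hv
  rw [map_one, ← h1] at h2
  rw [h0, h.unit n h2, Units.val_one, map_one]

end H55P
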