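import Mathlib
import Pool.Agent.Lib.H35P.EVp
import Pool.Agent.Lib.H55N.B1
import Pool.Agent.Lib.H55P.A2

open NumberField IsDedekindDomain

namespace H55P

open H55N
open H55B (g)

variable {F : Type} [Field F] [NumberField F] [IQ F] {K : Type} [Field K] [NumberField K]
  [Algebra F K] {m : ℕ}

/-! Chunk PE8 (M), PORT of Lib/H55N/E8.lean. The one dimensional sums: e1_sum below replaces e1_sum of H55N/E6.lean: (e a + m0 e x)^(-1) R^2/(R^2+|e a + m0 e x|^2) = m0^(-1) times the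
term of sR F (R/m0) at z = e a/m0 (|m0| = m0 > 0), so the sum is m0^(-1) sR F (R/m0) z, and R/m0 tends to infinity; s_exists (H55P/EV.lean) with r = m0: m0 z = e a, z is not in the lattice because
m0 does not divide a (l divides m0 and not a). Its value at V: V(S/Om) <= 1, V(m0) = 1. In rat_val everything is as in H55N, at the fixed valuation ring V (in place of Int2). -/

theorem pe8_fin (F : Type) [Field F] [NumberField F] [IQ F] (C : ℝ) :
    {x : 𝓞 F | ‖eF F x‖ ≤ C}.Finite := by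
  rcases lt_or_ge C 0 with hC | hC
  · refine Set.Finite.subset Set.finite_empty fun x hx => ?_
    have h1 : ‖eF F x‖ ≤ C := hx
    exact absurd (norm_nonneg (eF F x)) (by linarith)
  · have h1 := (summable_e (F := F) (r := 3) (by norm_num)).tendsto_cofinite_zero
    have h2 : (0 : ℝ) < (1 + C) ^ (-(3 : ℝ)) := Real.rpow_pos_of_pos (by linarith) _
    have h3 := h1.eventually (gt_mem_nhds h2)
    rw [Filter.eventually_cofinite] at h3
    refine h3.subset fun x hx => ?_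
    have h4 : ‖eF F x‖ ≤ C := hx
    change ¬ ((1 + ‖eF F x‖) ^ (-(3 : ℝ)) < (1 + C) ^ (-(3 : ℝ)))
    rw [not_lt]
    exact Real.rpow_le_rpow_of_nonpos (by positivity) (by linarith) (by norm_num)

theorem pe8_summable (F : Type) [Field F] [NumberField F] [IQ F] (R : ℝ) (hR : 0 < R) (z : ℂ) :
    Summable fun x : 𝓞 F =>
      ‖(z + eF F x)⁻¹ * ((R ^ 2 / (R ^ 2 + ‖z + eF F x‖ ^ 2) : ℝ) : ℂ)‖ := by
  have h1 : Summable (fun x : 𝓞 F => 8 * R ^ 2 * (1 + ‖eF F x‖) ^ (-(3 : ℝ))) :=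
    (summable_e (by norm_num)).mul_left _
  refine h1.of_norm_bounded_eventually ?_
  rw [Filter.eventually_cofinite]
  refine (pe8_fin F (2 * ‖z‖ + 1)).subset ?_
  intro x hx
  by_contra hne
  apply hx
  have hne' : 2 * ‖z‖ + 1 < ‖eF F x‖ := not_le.mp hne
  have h2 : (1 + ‖eF F x‖) / 2 ≤ ‖z + eF F x‖ := by
    have h3 : ‖eF F x‖ ≤ ‖z + eF F x‖ + ‖z‖ := by
      have h4 : eF F x = (z + eF F x) - z := by ring
      calc ‖eF F x‖ = ‖(z + eF F x) - z‖ := by rw [← h4]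
        _ ≤ _ := norm_sub_le _ _
    linarith
  have h3 : 0 < 1 + ‖eF F x‖ := by positivity
  have h4 : 0 < ‖z + eF F x‖ := by linarith
  rw [norm_norm, norm_mul, norm_inv, Complex.norm_real, Real.norm_eq_abs,
    abs_of_nonneg (by positivity)]
  have h5 : (1 + ‖eF F x‖) ^ (-(3 : ℝ)) = 1 / (1 + ‖eF F x‖) ^ 3 := by
    rw [Real.rpow_neg h3.le]
    norm_num
  rw [h5]
  calc ‖z + eF F x‖⁻¹ * (R ^ 2 / (R ^ 2 + ‖z + eF F x‖ ^ 2))
      ≤ ((1 + ‖eF F x‖) / 2)⁻¹ * (R ^ 2 / (((1 + ‖eF F x‖) / 2) ^ 2)) := by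
        gcongr
        nlinarith [sq_nonneg R]
    _ = 8 * R ^ 2 * (1 / (1 + ‖eF F x‖) ^ 3) := by
        field_simp
        ring

theorem e1_sum (Ac Bc Om : ℂ) (hper : Per F Ac Bc Om) (a : 𝓞 F) (m₀ : ℕ) (h0 : m₀ ≠ 0)
    (ha : ¬ (m₀ : 𝓞 F) ∣ a) :
    (∀ R : ℝ, 0 < R → Summable fun x : 𝓞 F => ‖(eF F a + m₀ * eF F x)⁻¹ *
      ((R ^ 2 / (R ^ 2 + ‖eF F a + m₀ * eF F x‖ ^ 2) : ℝ) : ℂ)‖) ∧
    ∃ S : ℂ, Filter.Tendsto (fun R : ℝ => ∑' x : 𝓞 F, (eF F a + m₀ * eF F x)⁻¹ *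
      ((R ^ 2 / (R ^ 2 + ‖eF F a + m₀ * eF F x‖ ^ 2) : ℝ) : ℂ)) Filter.atTop (nhds S) ∧
      ∀ V : ValuationSubring ℂ, GoodV Ac Bc V → V.valuation (m₀ : ℂ) = 1 → V.valuation (S / Om) ≤ 1 := by
  have hj0 : 0 < m₀ := Nat.pos_of_ne_zero h0
  have hjr : (0 : ℝ) < m₀ := by exact_mod_cast hj0
  have hjc : (m₀ : ℂ) ≠ 0 := by exact_mod_cast h0
  set z : ℂ := eF F a / m₀ with hzdef
  have hmz : (m₀ : ℂ) * z = eF F a := by
    rw [hzdef]
    field_simp
  have hsc : ∀ y : 𝓞 F, eF F a + m₀ * eF F y = m₀ * (z + eF F y) := by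
    intro y
    rw [mul_add, hmz]
  have hz : ¬ ∃ y : 𝓞 F, z = eF F y := by
    rintro ⟨y, hy⟩
    apply ha
    refine ⟨y, eF_inj ?_⟩
    rw [map_mul, map_natCast, ← hmz, hy]
  have hterm : ∀ (R : ℝ) (y : 𝓞 F), (eF F a + m₀ * eF F y)⁻¹ *
      ((R ^ 2 / (R ^ 2 + ‖eF F a + m₀ * eF F y‖ ^ 2) : ℝ) : ℂ) =
      (m₀ : ℂ)⁻¹ * ((z + eF F y)⁻¹ *
        (((R / m₀) ^ 2 / ((R / m₀) ^ 2 + ‖z + eF F y‖ ^ 2) : ℝ) : ℂ)) := by
    intro R y
    rw [hsc y, norm_mul, Complex.norm_natCast, mul_inv]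
    have h5 : R ^ 2 / (R ^ 2 + (m₀ * ‖z + eF F y‖) ^ 2) =
        (R / m₀) ^ 2 / ((R / m₀) ^ 2 + ‖z + eF F y‖ ^ 2) := by
      have h6 : R ^ 2 = (m₀ : ℝ) ^ 2 * (R / m₀) ^ 2 := by
        field_simp
      have h7 : R ^ 2 + (m₀ * ‖z + eF F y‖) ^ 2 =
          (m₀ : ℝ) ^ 2 * ((R / m₀) ^ 2 + ‖z + eF F y‖ ^ 2) := by
        rw [mul_add, ← h6]
        ring
      rw [h7]
      conv_lhs => rw [h6]
      exact mul_div_mul_left _ _ (by positivity)
    rw [h5]
    ring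
  constructor
  · intro R hR
    have h1 := (pe8_summable F (R / m₀) (by positivity) z).mul_left ‖(m₀ : ℂ)⁻¹‖
    refine h1.congr fun y => ?_
    rw [hterm R y, norm_mul (m₀ : ℂ)⁻¹]
  · obtain ⟨S, hS, hSv⟩ := s_exists F Ac Bc Om hper z m₀ hj0 hz ⟨a, hmz⟩
    refine ⟨(m₀ : ℂ)⁻¹ * S, ?_, ?_⟩
    · have ht : Filter.Tendsto (fun R : ℝ => R / m₀) Filter.atTop Filter.atTop :=
        Filter.tendsto_id.atTop_div_const hjr
      refine ((hS.comp ht).const_mul (m₀ : ℂ)⁻¹).congr fun R => ?_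
      simp only [hterm]
      rw [tsum_mul_left]
      rfl
    · intro V hV v
      rw [mul_div_assoc, map_mul, map_inv₀, v, inv_one, one_mul]
      exact hSv V hV v

theorem pe8_int_sum (V : ValuationSubring ℂ) {ι : Type} (s : Finset ι) (a : ι → ℂ)
    (ha : ∀ i ∈ s, V.valuation (a i) ≤ 1) : V.valuation (∑ i ∈ s, a i) ≤ 1 := by
  rw [ValuationSubring.valuation_le_one_iff]
  exact V.toSubring.sum_mem fun i hi => (ValuationSubring.valuation_le_one_iff V _).1 (ha i hi)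

theorem pe8_int_prod (V : ValuationSubring ℂ) {ι : Type} (s : Finset ι) (a : ι → ℂ)
    (ha : ∀ i ∈ s, V.valuation (a i) ≤ 1) : V.valuation (∏ i ∈ s, a i) ≤ 1 := by
  rw [ValuationSubring.valuation_le_one_iff]
  exact V.toSubring.prod_mem fun i hi => (ValuationSubring.valuation_le_one_iff V _).1 (ha i hi)

theorem pe8_int_g (V : ValuationSubring ℂ) (D : Ctx F K m) (x : 𝓞 K) :
    V.valuation (D.g x) ≤ 1 := by
  classical
  unfold Ctx.g gw
  refine pe8_int_prod V _ _ fun i _ => ?_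
  rw [ValuationSubring.valuation_le_one_iff]
  split_ifs
  · exact V.toSubring.sub_mem V.toSubring.one_mem (natCast_mem V.toSubring _)
  · exact V.toSubring.one_mem

theorem pe8_g (D : Ctx F K m) (x z : 𝓞 K) (hz : ∀ i, z ∈ D.c i) : D.g (x + z) = D.g x := by
  classical
  unfold Ctx.g gw
  refine Finset.prod_congr rfl fun i _ => ?_
  have h : x + z ∈ D.c i ↔ x ∈ D.c i := (D.c i).add_mem_iff_left (hz i)
  by_cases hx : x ∈ D.c i
  · rw [if_pos (h.2 hx), if_pos hx]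
  · rw [if_neg (fun h' => hx (h.1 h')), if_neg hx]

theorem rat_val (D : Ctx F K m) (hD : D.Ok) (A : Fin (m + 1) → K) (w : Fin (m + 1) × Fin 2 → 𝓞 K)
    (hdir : D.Dirs A w) (l : 𝓞 F) (hl : Prime l)
    (hone : ∀ x ∈ D.X, ∀ k, ∃ y : 𝓞 F, D.Tr (A k) x = eF F (1 + l * y))
    (m₀ : ℕ) (h0 : m₀ ≠ 0) (hlm : l ∣ (m₀ : 𝓞 F))
    (hm₀ : ∀ y : Fin (m + 1) → 𝓞 F, ∃ x : 𝓞 K, x ∈ D.I ∧ (∀ i, x ∈ D.c i) ∧
      ∀ k, D.Tr (A k) x = m₀ * eF F (y k)) (S : ℂ)
    (hS : Filter.Tendsto (fun R : ℝ => ∑' x : D.X, D.g x * (∏ k, (D.Tr (A k) x)⁻¹) *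
      (D.pcut A R x : ℂ)) Filter.atTop (nhds S)) (Ac Bc Om : ℂ) (hper : Per F Ac Bc Om)
    (V : ValuationSubring ℂ) (hV : GoodV Ac Bc V) (hVm : V.valuation (m₀ : ℂ) = 1) :
    V.valuation (S / Om ^ (m + 1)) ≤ 1 := by
  classical
  -- coordinates
  have hY : ∀ x : D.X, ∃ y : Fin (m + 1) → 𝓞 F, ∀ k, D.Tr (A k) x = eF F (y k) ∧ ¬ l ∣ y k := by
    intro x
    choose y hy using hone x x.2
    refine ⟨fun k => 1 + l * y k, fun k => ⟨hy k, ?_⟩⟩
    intro hdvd
    have h1 : l ∣ 1 := by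
      have := dvd_sub hdvd (Dvd.intro (y k) rfl : l ∣ l * y k)
      rwa [add_sub_cancel_right] at this
    exact hl.not_isUnit (isUnit_of_dvd_one h1)
  choose Y hYY using hY
  have hndvd : ∀ x k, ¬ (m₀ : 𝓞 F) ∣ Y x k := fun x k h => (hYY x k).2 (hlm.trans h)
  choose z hzI hzc hzT using hm₀
  have hm0 : (m₀ : ℂ) ≠ 0 := by exact_mod_cast h0
  have hm0' : (m₀ : 𝓞 F) ≠ 0 := by
    intro h
    apply hm0
    have := congrArg (eF F) h
    rwa [map_natCast, map_zero] at this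
  have hfin : Finite (𝓞 F ⧸ Ideal.span {(m₀ : 𝓞 F)}) :=
    Ideal.finiteQuotientOfFreeOfNeBot _ (fun h => hm0' (Ideal.span_singleton_eq_bot.1 h))
  have hfin' : Finite (Fin (m + 1) → (𝓞 F ⧸ Ideal.span {(m₀ : 𝓞 F)})) := inferInstance
  letI : Fintype (Fin (m + 1) → (𝓞 F ⧸ Ideal.span {(m₀ : 𝓞 F)})) := Fintype.ofFinite _
  let q : D.X → (Fin (m + 1) → (𝓞 F ⧸ Ideal.span {(m₀ : 𝓞 F)})) := fun x k =>
    Ideal.Quotient.mk (Ideal.span {(m₀ : 𝓞 F)}) (Y x k)
  let T : ℝ → D.X → ℂ := fun R x => D.g x * (∏ k, (D.Tr (A k) x)⁻¹) * (D.pcut A R x : ℂ)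
  let φ : ℝ → 𝓞 F → 𝓞 F → ℂ := fun R α y => (eF F α + m₀ * eF F y)⁻¹ *
      ((R ^ 2 / (R ^ 2 + ‖eF F α + m₀ * eF F y‖ ^ 2) : ℝ) : ℂ)
  have hclass : ∀ c : Fin (m + 1) → (𝓞 F ⧸ Ideal.span {(m₀ : 𝓞 F)}), ∃ (U : ℝ → ℂ) (L : ℂ),
      (∀ R : ℝ, 0 < R → HasSum (fun x : D.X => if q x = c then T R x else 0) (U R)) ∧
      Filter.Tendsto U Filter.atTop (nhds L) ∧ V.valuation (L / Om ^ (m + 1)) ≤ 1 := by
    intro c
    by_cases hc : ∃ x₀ : D.X, q x₀ = c
    · obtain ⟨x₀, rfl⟩ := hc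
      have hE := fun k => e1_sum Ac Bc Om hper (Y x₀ k) m₀ h0 (hndvd x₀ k)
      choose Sk hSk hSi using fun k => (hE k).2
      let j : (Fin (m + 1) → 𝓞 F) → D.X := fun y => ⟨x₀ + z y, D.X_add x₀.2 (hzI y)⟩
      have hjT : ∀ y k, D.Tr (A k) (j y) = eF F (Y x₀ k) + m₀ * eF F (y k) := by
        intro y k
        show D.Tr (A k) (x₀ + z y) = _
        rw [D.Tr_add, (hYY x₀ k).1, hzT]
      have hjY : ∀ y k, Y (j y) k = Y x₀ k + m₀ * y k := by
        intro y k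
        apply eF_inj
        rw [← (hYY (j y) k).1, hjT, map_add, map_mul, map_natCast]
      have hjinj : Function.Injective j := by
        intro y y' h
        funext k
        have h1 := hjT y k
        rw [h, hjT y' k] at h1
        have h2 : eF F (y' k) = eF F (y k) := mul_left_cancel₀ hm0 (add_left_cancel h1)
        exact (eF_inj h2).symm
      have hjq : ∀ y, q (j y) = q x₀ := by
        intro y
        funext k
        show Ideal.Quotient.mk _ (Y (j y) k) = Ideal.Quotient.mk _ (Y x₀ k)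
        rw [hjY, Ideal.Quotient.eq, add_sub_cancel_left]
        exact Ideal.mul_mem_right _ _ (Ideal.mem_span_singleton_self _)
      have hjr : ∀ x : D.X, q x = q x₀ → x ∈ Set.range j := by
        intro x hx
        have h1 : ∀ k, ∃ t : 𝓞 F, Y x k - Y x₀ k = m₀ * t := by
          intro k
          have h2 : Ideal.Quotient.mk (Ideal.span {(m₀ : 𝓞 F)}) (Y x k) =
              Ideal.Quotient.mk (Ideal.span {(m₀ : 𝓞 F)}) (Y x₀ k) := congrFun hx k
          exact Ideal.mem_span_singleton.1 (Ideal.Quotient.eq.1 h2)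
        choose t ht using h1
        refine ⟨t, Subtype.ext ?_⟩
        show (x₀ : 𝓞 K) + z t = x
        have h2 : z t = x - x₀ := by
          refine Tr_inj D hD.emb A hdir.ind _ _ fun k => ?_
          rw [hzT, D.Tr_sub, (hYY x k).1, (hYY x₀ k).1, ← map_sub, ht k, map_mul, map_natCast]
        rw [h2]; ring
      refine ⟨fun R => D.g x₀ * ∏ k, ∑' y, φ R (Y x₀ k) y, D.g x₀ * ∏ k, Sk k, ?_, ?_, ?_⟩
      · intro R hR
        have hs := (pi_hasSum (m + 1) (fun k => φ R (Y x₀ k)) (fun k => (hE k).1 R hR)).mul_left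
          (D.g x₀)
        refine (hjinj.hasSum_iff ?_).1 ?_
        · intro x hx
          exact if_neg fun h => hx (hjr x h)
        · have hcongr : ((fun x : D.X => if q x = q x₀ then T R x else 0) ∘ j) =
              fun y => D.g x₀ * ∏ k, φ R (Y x₀ k) (y k) := by
            funext y
            show (if q (j y) = q x₀ then T R (j y) else 0) = _
            rw [if_pos (hjq y)]
            show D.g ((x₀ : 𝓞 K) + z y) * (∏ k, (D.Tr (A k) (j y))⁻¹) *
              ((∏ k, R ^ 2 / (R ^ 2 + ‖D.Tr (A k) (j y)‖ ^ 2) : ℝ) : ℂ) = _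
            rw [pe8_g D _ _ (hzc y), Complex.ofReal_prod, mul_assoc, ← Finset.prod_mul_distrib]
            congr 1
            refine Finset.prod_congr rfl fun k _ => ?_
            rw [hjT]
          rw [hcongr]
          exact hs
      · exact (tendsto_finsetProd _ fun k _ => hSk k).const_mul _
      · have h1 : D.g x₀ * (∏ k, Sk k) / Om ^ (m + 1) = D.g x₀ * ∏ k, (Sk k / Om) := by
          rw [Finset.prod_div_distrib, Finset.prod_const, Finset.card_univ, Fintype.card_fin,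
            mul_div_assoc]
        rw [h1, map_mul]
        exact mul_le_one' (pe8_int_g V D _) (pe8_int_prod V _ _ fun k _ => hSi k V hV hVm)
    · refine ⟨fun _ => 0, 0, fun R _ => ?_, tendsto_const_nhds, ?_⟩
      · have : (fun x : D.X => if q x = c then T R x else 0) = fun _ => 0 := by
          funext x
          exact if_neg fun h => hc ⟨x, h⟩
        rw [this]
        exact hasSum_zero
      · rw [zero_div, map_zero]
        exact zero_le_one
  choose U L hU hL hLi using hclass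
  have hsum : ∀ R : ℝ, 0 < R → ∑' x : D.X, T R x = ∑ c, U c R := by
    intro R hR
    have h1 := hasSum_sum (s := Finset.univ) (fun c _ => hU c R hR)
    have h2 : (fun x : D.X => ∑ c, if q x = c then T R x else 0) = T R := by
      funext x
      rw [Finset.sum_ite_eq]
      exact if_pos (Finset.mem_univ _)
    rw [h2] at h1
    exact h1.tsum_eq
  have hlim : Filter.Tendsto (fun R : ℝ => ∑' x : D.X, T R x) Filter.atTop (nhds (∑ c, L c)) := by
    refine (tendsto_finsetSum _ fun c _ => hL c).congr' ?_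
    filter_upwards [Filter.eventually_gt_atTop 0] with R hR
    exact (hsum R hR).symm
  have hSL : S = ∑ c, L c := tendsto_nhds_unique hS hlim
  rw [hSL, Finset.sum_div]
  exact pe8_int_sum V _ _ fun c _ => hLi c

end H55P
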