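import Mathlib
import Pool.Agent.Lib.H55P.A2
import Pool.Agent.Lib.H55P.L1

open NumberField IsDedekindDomain

namespace H55P

open H55N
open H55B (g)

variable {F : Type} [Field F] [NumberField F] [IQ F] {K : Type} [Field K] [NumberField K]
  [Algebra F K] {m : ℕ}

/-! Chunk PE9 (S/M), PORT of Lib/H55N/E9.lean. m0 = absNorm (mK K M * f) * prod p_i * Nm d, where Nm d = absNorm (span {d}) (H55P/F0.lean); d divides Nm d in O (Ideal.absNorm_mem), which
replaces cj d * d. ¬ p ∣ m0: absNorm_cop (H55P/L1.lean) for mK K M * f (coprime to p: M is coprime to p, map the relation) and for span {d}, p_i <> p. l divides m0: absNorm (mK K M * f) is in mK K M <= (l) O_K, and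
(l) O_K contracts to (l) (for x in O, l divides x in O_K implies l divides x in O: O integrally closed: x/l is in F and integral). -/

theorem pe9_cop {M : Ideal (𝓞 F)} {p : ℕ} (h : IsCoprime M (Ideal.span {(p : 𝓞 F)})) :
    IsCoprime (mK K M) (Ideal.span {(p : 𝓞 K)}) := by
  obtain ⟨a, ha, c, hc, hac⟩ := Ideal.isCoprime_iff_exists.1 h
  obtain ⟨c', rfl⟩ := Ideal.mem_span_singleton.1 hc
  refine Ideal.isCoprime_iff_exists.2 ⟨algebraMap (𝓞 F) (𝓞 K) a, Ideal.mem_map_of_mem _ ha,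
    algebraMap (𝓞 F) (𝓞 K) ((p : 𝓞 F) * c'), ?_, ?_⟩
  · rw [map_mul, map_natCast]
    exact Ideal.mul_mem_right _ _ (Ideal.mem_span_singleton_self _)
  · rw [← map_add, hac, map_one]

theorem pe9_dvd {M : Ideal (𝓞 F)} {l : 𝓞 F} (hl : l ≠ 0) (hM : M ≤ Ideal.span {l}) {n : ℕ}
    (hn : (n : 𝓞 K) ∈ mK K M) : l ∣ (n : 𝓞 F) := by
  have h1 : mK K M ≤ Ideal.span {algebraMap (𝓞 F) (𝓞 K) l} := by
    unfold mK
    rw [Ideal.map_le_iff_le_comap]
    intro x hx
    obtain ⟨t, rfl⟩ := Ideal.mem_span_singleton.1 (hM hx)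
    rw [Ideal.mem_comap, map_mul]
    exact Ideal.mul_mem_right _ _ (Ideal.mem_span_singleton_self _)
  obtain ⟨t, ht⟩ := Ideal.mem_span_singleton.1 (h1 hn)
  have hl' : (l : F) ≠ 0 := by
    intro h0
    exact hl (RingOfIntegers.coe_injective (h0.trans (map_zero (algebraMap (𝓞 F) F)).symm))
  have h2 : ((n : ℕ) : K) = algebraMap F K (l : F) * (t : K) := by
    have h3 := congrArg (algebraMap (𝓞 K) K) ht
    rw [map_natCast, map_mul] at h3
    exact h3
  have h4 : algebraMap F K ((n : F) / (l : F)) = (t : K) := by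
    rw [map_div₀, map_natCast, h2, mul_div_cancel_left₀]
    exact (map_ne_zero _).2 hl'
  have h5 : IsIntegral ℤ ((n : F) / (l : F)) := by
    rw [← isIntegral_algebraMap_iff (algebraMap F K).injective, h4]
    exact t.2
  refine ⟨⟨_, h5⟩, ?_⟩
  apply RingOfIntegers.coe_injective
  rw [map_natCast, map_mul]
  change (n : F) = (l : F) * ((n : F) / (l : F))
  field_simp

theorem m0_exists (D : Ctx F K m) (hD : D.Ok) (p : ℕ) (hp : p.Prime) {M : Ideal (𝓞 F)} {l : 𝓞 F}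
    (hM : Mod p M l) (b f : Ideal (𝓞 K)) (hf : f ≠ ⊥) (hfp : IsCoprime f (Ideal.span {(p : 𝓞 K)}))
    (hI : D.I = mK K M * f * b) (hpi : ∀ i, D.p i ≠ p) (u : Fin m → (𝓞 K)ˣ)
    (L : (Fin m → ℤ) → K) (hL : LabP p l b D.c₀ u L) (a : Fin m → ℤ) (π : Equiv.Perm (Fin m)) :
    ∃ m₀ : ℕ, m₀ ≠ 0 ∧ ¬ p ∣ m₀ ∧ l ∣ (m₀ : 𝓞 F) ∧
      ∀ y : Fin (m + 1) → 𝓞 F, ∃ x : 𝓞 K, x ∈ D.I ∧ (∀ i, x ∈ D.c i) ∧
        ∀ k : Fin (m + 1), D.Tr (L (kv a π k)) x = m₀ * eF F (y k) := by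
  classical
  obtain ⟨d, hd2, hd⟩ := hL.cop a π
  have hN1 : ¬ p ∣ Ideal.absNorm (mK K M * f) :=
    absNorm_cop p hp _ ((pe9_cop hM.cop).mul_left hfp)
  have hNd : ¬ p ∣ Nm d := by
    refine absNorm_cop (K := F) p hp (Ideal.span {d}) ?_
    rw [Ideal.isCoprime_span_singleton_iff]
    exact hd2
  have hP : ¬ p ∣ ∏ i, D.p i := by
    intro h
    obtain ⟨i, -, hi⟩ := (Prime.dvd_finset_prod_iff hp.prime _).1 h
    exact hpi i ((Nat.prime_dvd_prime_iff_eq hp (hD.smooth.prime i)).1 hi).symm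
  obtain ⟨N, hN⟩ : ∃ N : ℕ, N = Ideal.absNorm (mK K M * f) := ⟨_, rfl⟩
  have hNmem : (N : 𝓞 K) ∈ mK K M * f := by
    rw [hN]
    exact Ideal.absNorm_mem _
  rw [← hN] at hN1
  have hm0 : ¬ p ∣ N * (∏ i, D.p i) * Nm d := by
    intro h
    rcases (hp.dvd_mul).1 h with h | h
    · rcases (hp.dvd_mul).1 h with h | h
      · exact hN1 h
      · exact hP h
    · exact hNd h
  obtain ⟨d', hd'⟩ : d ∣ (Nm d : 𝓞 F) := by
    rw [← Ideal.mem_span_singleton]
    exact Ideal.absNorm_mem _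
  refine ⟨N * (∏ i, D.p i) * Nm d, ?_, hm0, ?_, fun y => ?_⟩
  · intro h0
    rw [h0] at hm0
    exact hm0 (dvd_zero p)
  · have h1 : l ∣ (N : 𝓞 F) := pe9_dvd (K := K) hM.prime.ne_zero hM.le
      (Ideal.mul_le_left hNmem)
    rw [Nat.cast_mul, Nat.cast_mul]
    exact (h1.mul_right _).mul_right _
  · obtain ⟨x, hx, hxk⟩ := hd fun k => d' * y k
    refine ⟨((N * (∏ i, D.p i) : ℕ) : 𝓞 K) * x, ?_, ?_, ?_⟩
    · rw [hI]
      refine Ideal.mul_mem_mul ?_ hx
      rw [Nat.cast_mul]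
      exact Ideal.mul_mem_right _ _ hNmem
    · intro i
      refine Ideal.mul_mem_right _ _ ?_
      have h1 : ((D.p i : ℕ) : 𝓞 K) ∈ D.c i := by
        rw [← hD.smooth.norm i]
        exact Ideal.absNorm_mem _
      obtain ⟨t, ht⟩ : D.p i ∣ N * (∏ i, D.p i) :=
        (Finset.dvd_prod_of_mem _ (Finset.mem_univ i)).mul_left _
      rw [ht, Nat.cast_mul]
      exact Ideal.mul_mem_right _ _ h1
    · intro k
      rw [Tr_eq D hD.emb]
      have h1 : ((((N * (∏ i, D.p i) : ℕ) : 𝓞 K) * x : 𝓞 K) : K) *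
          L (kv a π k) = ((N * (∏ i, D.p i) : ℕ) : F) • ((x : K) * L (kv a π k)) := by
        have h2 : ((((N * (∏ i, D.p i) : ℕ) : 𝓞 K) * x : 𝓞 K) : K) =
            ((N * (∏ i, D.p i) : ℕ) : K) * (x : K) := by
          have h := map_mul (algebraMap (𝓞 K) K) ((N * (∏ i, D.p i) : ℕ) : 𝓞 K) x
          rw [map_natCast] at h
          exact h
        rw [h2, Algebra.smul_def, map_natCast]
        ring
      rw [h1, map_smul, hxk k, smul_eq_mul, map_mul, map_natCast]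
      have h3 : d * (d' * y k) = (Nm d : 𝓞 F) * y k := by rw [hd', mul_assoc]
      rw [h3]
      have h4 : embF F ((algebraMap (𝓞 F) F) ((Nm d : 𝓞 F) * y k)) = (Nm d : ℂ) * eF F (y k) := by
        show eF F ((Nm d : 𝓞 F) * y k) = _
        rw [map_mul, map_natCast]
      rw [h4]
      push_cast
      ring

end H55P
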