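import Mathlib
import Pool.Agent.Lib.H55N.L2
import Pool.Agent.Lib.H55P.A2
import Pool.Agent.Lib.H55P.L1

open NumberField IsDedekindDomain

namespace H55P

open H55N
open H55B (g)

variable {F : Type} [Field F] [NumberField F] [IQ F] {K : Type} [Field K] [NumberField K]
  [Algebra F K] {m : ℕ}

/-! Chunk PL2 (M), PORT of Lib/H55N/L2.lean (L2_col, L2_bij, L2_uu_add, ... of H55N/L2.lean do not use F: use them). Changes: 2 becomes p, lam becomes l, 6 becomes p l; the coordinate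
vectors are Yv s j = [s = j] + p (b' (1 - c s)) [j0 = j] with a' l + b' (p c_{j0}) = 1. In labels_low: D.I = mK K M * f * b and M <= (l), so an element of mK K M * (f * b) is l t with t in b
(mK K M <= span {algebraMap l}, Ideal.mem_span_singleton_mul). one_le_e in H55P/F0.lean gives the lower bound. labels_indep: d <> 0 because p is not a unit of O. -/

theorem L2F_trace_mul (t : 𝓞 F) (x : K) :
    Algebra.trace F K (((algebraMap (𝓞 F) (𝓞 K) t : 𝓞 K) : K) * x) =
      algebraMap (𝓞 F) F t * Algebra.trace F K x := by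
  have h : ((algebraMap (𝓞 F) (𝓞 K) t : 𝓞 K) : K) * x = (algebraMap (𝓞 F) F t) • x := by
    rw [Algebra.smul_def]
    rfl
  rw [h, map_smul, smul_eq_mul]

theorem L2F_coe_mul {K : Type} [Field K] [NumberField K] (x y : 𝓞 K) :
    ((x * y : 𝓞 K) : K) = (x : K) * (y : K) := rfl

theorem L2F_coe_add {K : Type} [Field K] [NumberField K] (x y : 𝓞 K) :
    ((x + y : 𝓞 K) : K) = (x : K) + (y : K) := rfl

theorem L2F_coe_sum {K : Type} [Field K] [NumberField K] {ι : Type} (s : Finset ι) (f : ι → 𝓞 K) :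
    ((∑ i ∈ s, f i : 𝓞 K) : K) = ∑ i ∈ s, (f i : K) := map_sum (algebraMap (𝓞 K) K) f s

/-- The trace pairing of two vectors in dual bases. -/
theorem L2F_pair (β : Fin (m + 1) → 𝓞 K) (β' : Fin (m + 1) → K)
    (hdual : ∀ j k, Algebra.trace F K ((β j : K) * β' k) = if j = k then 1 else 0)
    (x y : Fin (m + 1) → 𝓞 F) :
    Algebra.trace F K (((∑ j, algebraMap (𝓞 F) (𝓞 K) (x j) * β j : 𝓞 K) : K) *
      ∑ k, (algebraMap (𝓞 F) F (y k)) • β' k) = algebraMap (𝓞 F) F (∑ j, x j * y j) := by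
  rw [L2F_coe_sum, Finset.sum_mul, map_sum, map_sum]
  refine Finset.sum_congr rfl fun j _ => ?_
  rw [L2F_coe_mul, mul_assoc, L2F_trace_mul, map_mul (algebraMap (𝓞 F) F)]
  congr 1
  rw [Finset.mul_sum, map_sum, Finset.sum_eq_single j]
  · rw [mul_smul_comm, map_smul, hdual, if_pos rfl, smul_eq_mul, mul_one]
  · intro k _ hk
    rw [mul_smul_comm, map_smul, hdual, if_neg hk.symm, smul_zero]
  · intro h
    exact absurd (Finset.mem_univ j) h

theorem L2F_uu_add {K : Type} [Field K] [NumberField K] (u : Fin m → (𝓞 K)ˣ) (z z' : Fin m → ℤ) :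
    uu u (z + z') = uu u z * uu u z' := by
  unfold uu
  rw [← Finset.prod_mul_distrib]
  exact Finset.prod_congr rfl fun j _ => by rw [Pi.add_apply, zpow_add]

theorem L2F_coprime_of_sq {p d : 𝓞 F} (h : Ideal.Quotient.mk (Ideal.span {p}) (d * d) = 1) :
    IsCoprime d p := by
  rw [← map_one (Ideal.Quotient.mk (Ideal.span {p})), Ideal.Quotient.eq,
    Ideal.mem_span_singleton] at h
  obtain ⟨t, ht⟩ := h
  exact ⟨d, -t, by linear_combination ht⟩

/-- A matrix congruent to a permutation matrix modulo p has determinant prime to p. -/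
theorem L2F_det (p : 𝓞 F) (s : Equiv.Perm (Fin (m + 1)))
    (Y W : Matrix (Fin (m + 1)) (Fin (m + 1)) (𝓞 F))
    (hY : ∀ k j, Y k j = (if s k = j then 1 else 0) + p * W k j) : IsCoprime Y.det p := by
  apply L2F_coprime_of_sq
  set φ := Ideal.Quotient.mk (Ideal.span {p}) with hφ
  have h2 : φ p = 0 := by
    rw [hφ, Ideal.Quotient.eq_zero_iff_mem]
    exact Ideal.mem_span_singleton_self p
  have h1 : φ.mapMatrix Y =
      (1 : Matrix (Fin (m + 1)) (Fin (m + 1)) (𝓞 F ⧸ Ideal.span {p})).submatrix s id := by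
    ext k j
    rw [RingHom.mapMatrix_apply, Matrix.map_apply, hY, map_add, map_mul, h2, zero_mul, add_zero,
      Matrix.submatrix_apply, Matrix.one_apply]
    rw [id_eq]
    by_cases h : s k = j
    · rw [if_pos h, if_pos h, map_one]
    · rw [if_neg h, if_neg h, map_zero]
  rw [map_mul, RingHom.map_det, h1, Matrix.det_permute, Matrix.det_one, mul_one]
  rcases Int.units_eq_one_or (Equiv.Perm.sign s) with h | h <;> rw [h] <;> simp

theorem L2F_not_unit (p : ℕ) (hp : p.Prime) : ¬ IsUnit (p : 𝓞 F) := by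
  intro h
  have h4 := (Ideal.absNorm_eq_one_iff (I := Ideal.span {(p : 𝓞 F)})).2
    (Ideal.span_singleton_eq_top.2 h)
  rw [Ideal.absNorm_span_singleton] at h4
  have h5 : (Algebra.norm ℤ (p : 𝓞 F)) = (p : ℤ) ^ Module.finrank ℤ (𝓞 F) := by
    have h6 := Algebra.norm_algebraMap (S := 𝓞 F) (p : ℤ)
    simpa using h6
  rw [h5, Int.natAbs_pow, Int.natAbs_natCast] at h4
  have h7 : Module.finrank ℤ (𝓞 F) ≠ 0 := by
    rw [RingOfIntegers.rank]
    exact Module.finrank_pos.ne'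
  have h9 := Nat.one_lt_pow h7 hp.one_lt
  omega

theorem labels_exist (hm : Module.finrank F K = m + 1) (p : ℕ) (hp : p.Prime) (l : 𝓞 F)
    (hl : Prime l) (hlp : IsCoprime l (p : 𝓞 F)) (b : Ideal (𝓞 K)) (hb : b ≠ ⊥)
    (c₀ : 𝓞 K) (hc : c₀ ∈ b) (hc' : c₀ ∉ Ideal.span {algebraMap (𝓞 F) (𝓞 K) l} * b)
    (u : Fin m → (𝓞 K)ˣ)
    (hu : ∀ z, (uu u z : 𝓞 K) - 1 ∈ Ideal.span {(p : 𝓞 K) * algebraMap (𝓞 F) (𝓞 K) l}) :
    ∃ L : (Fin m → ℤ) → K, LabP p l b c₀ u L := by
  classical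
  obtain ⟨β, β', hβ, hdual, hrep, hind⟩ := dual_basis hm b hb
  obtain ⟨c, hcc⟩ := hrep c₀ hc
  -- a coordinate not divisible by l
  obtain ⟨j₀, hj₀⟩ : ∃ j₀, ¬ l ∣ c j₀ := by
    by_contra hcon
    push Not at hcon
    choose c' hc'' using hcon
    apply hc'
    rw [Ideal.mem_span_singleton_mul]
    refine ⟨∑ j, algebraMap (𝓞 F) (𝓞 K) (c' j) * β j, b.sum_mem fun j _ => b.mul_mem_left _ (hβ j), ?_⟩
    rw [hcc, Finset.mul_sum]
    refine Finset.sum_congr rfl fun j _ => ?_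
    rw [hc'' j, map_mul]
    ring
  have hcop : IsCoprime l ((p : 𝓞 F) * c j₀) :=
    IsCoprime.mul_right hlp ((Prime.coprime_iff_not_dvd hl).2 hj₀)
  obtain ⟨a', b', hab⟩ := hcop
  -- the coordinate vectors
  let Yv : Fin (m + 1) → Fin (m + 1) → 𝓞 F := fun s j =>
    (if s = j then 1 else 0) + (p : 𝓞 F) * (b' * (1 - c s) * if j₀ = j then 1 else 0)
  have hYone : ∀ s, ∑ j, c j * Yv s j = 1 + l * (-(a' * (1 - c s))) := by
    intro s
    have h1 : ∑ j, c j * Yv s j = c s + (p : 𝓞 F) * (b' * (1 - c s)) * c j₀ := by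
      simp only [Yv, mul_add, Finset.sum_add_distrib]
      congr 1
      · simp
      · rw [Finset.sum_eq_single j₀]
        · rw [if_pos rfl]; ring
        · intro j _ hj
          rw [if_neg hj.symm]; ring
        · intro h
          exact absurd (Finset.mem_univ _) h
    rw [h1]
    linear_combination (1 - c s) * hab
  let L0 : Fin (m + 1) → K := fun s => ∑ k, (algebraMap (𝓞 F) F (Yv s k)) • β' k
  have hL0 : ∀ (x : Fin (m + 1) → 𝓞 F) (s : Fin (m + 1)),
      Algebra.trace F K (((∑ j, algebraMap (𝓞 F) (𝓞 K) (x j) * β j : 𝓞 K) : K) * L0 s) =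
        algebraMap (𝓞 F) F (∑ j, x j * Yv s j) := fun x s => L2F_pair β β' hdual x (Yv s)
  have hL0b : ∀ x ∈ b, ∀ s, ∃ y : 𝓞 F, Algebra.trace F K ((x : K) * L0 s) = algebraMap (𝓞 F) F y := by
    intro x hx s
    obtain ⟨y, hy⟩ := hrep x hx
    exact ⟨_, by rw [hy]; exact hL0 y s⟩
  let L : (Fin m → ℤ) → K := fun a =>
    ((uu u (fun i => a i / ((m + 1 : ℕ) : ℤ)) : 𝓞 K) : K) * L0 (L2_col a)
  -- the action of the units modulo p l
  have hmod : ∀ (x : 𝓞 K) (_ : x ∈ b) (z : Fin m → ℤ) (s : Fin (m + 1)), ∃ w : 𝓞 F,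
      Algebra.trace F K ((x : K) * (((uu u z : 𝓞 K) : K) * L0 s)) =
        Algebra.trace F K ((x : K) * L0 s) + algebraMap (𝓞 F) F ((p : 𝓞 F) * l * w) := by
    intro x hx z s
    obtain ⟨t, ht⟩ := Ideal.mem_span_singleton.1 (hu z)
    obtain ⟨w, hw⟩ := hL0b (t * x) (b.mul_mem_left _ hx) s
    refine ⟨w, ?_⟩
    have h1 : (uu u z : 𝓞 K) = 1 + algebraMap (𝓞 F) (𝓞 K) ((p : 𝓞 F) * l) * t := by
      rw [map_mul, map_natCast]
      linear_combination ht
    have h2 : (x : K) * (((uu u z : 𝓞 K) : K) * L0 s) =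
        (x : K) * L0 s + ((algebraMap (𝓞 F) (𝓞 K) ((p : 𝓞 F) * l) : 𝓞 K) : K) *
          (((t * x : 𝓞 K) : K) * L0 s) := by
      rw [h1]
      have h3 : ((1 + algebraMap (𝓞 F) (𝓞 K) ((p : 𝓞 F) * l) * t : 𝓞 K) : K) =
          1 + ((algebraMap (𝓞 F) (𝓞 K) ((p : 𝓞 F) * l) : 𝓞 K) : K) * (t : K) := by
        rw [L2F_coe_add, L2F_coe_mul]
        rfl
      rw [h3, L2F_coe_mul]
      ring
    rw [h2, map_add, L2F_trace_mul, hw, ← map_mul (algebraMap (𝓞 F) F)]
  refine ⟨L, ⟨?_, ?_, ?_, ?_⟩⟩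
  · intro a z
    have hn : ((m + 1 : ℕ) : ℤ) ≠ 0 := by positivity
    have h1 : L2_col (a + ((m + 1 : ℕ) : ℤ) • z) = L2_col a := by
      apply L2_col_eq
      have : ∑ i, (a + ((m + 1 : ℕ) : ℤ) • z) i = ∑ i, a i + ((m + 1 : ℕ) : ℤ) * ∑ i, z i := by
        simp only [Pi.add_apply, Pi.smul_apply, smul_eq_mul, Finset.sum_add_distrib, Finset.mul_sum]
      rw [this, Int.add_mul_emod_self_left]
    have h2 : (fun i => (a + ((m + 1 : ℕ) : ℤ) • z) i / ((m + 1 : ℕ) : ℤ)) =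
        (fun i => a i / ((m + 1 : ℕ) : ℤ)) + z := by
      funext i
      simp only [Pi.add_apply, Pi.smul_apply, smul_eq_mul]
      rw [Int.add_mul_ediv_left _ _ hn]
    show ((uu u (fun i => (a + ((m + 1 : ℕ) : ℤ) • z) i / ((m + 1 : ℕ) : ℤ)) : 𝓞 K) : K) *
      L0 (L2_col (a + ((m + 1 : ℕ) : ℤ) • z)) = _
    rw [h1, h2, L2F_uu_add, Units.val_mul, L2F_coe_mul]
    show _ = ((uu u z : 𝓞 K) : K) *
      (((uu u (fun i => a i / ((m + 1 : ℕ) : ℤ)) : 𝓞 K) : K) * L0 (L2_col a))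
    ring
  · intro a x hx
    have h1 : (x : K) * L a =
        ((x * (uu u (fun i => a i / ((m + 1 : ℕ) : ℤ)) : 𝓞 K) : 𝓞 K) : K) * L0 (L2_col a) := by
      rw [L2F_coe_mul, mul_assoc]
    rw [h1]
    exact hL0b _ (b.mul_mem_right _ hx) _
  · intro a
    obtain ⟨w, hw⟩ := hmod c₀ hc (fun i => a i / ((m + 1 : ℕ) : ℤ)) (L2_col a)
    have h1 := hL0 c (L2_col a)
    rw [← hcc, hYone] at h1
    refine ⟨-(a' * (1 - c (L2_col a))) + (p : 𝓞 F) * w, ?_⟩
    show Algebra.trace F K ((c₀ : K) *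
      (((uu u (fun i => a i / ((m + 1 : ℕ) : ℤ)) : 𝓞 K) : K) * L0 (L2_col a))) = _
    rw [hw, h1, ← map_add]
    congr 1
    ring
  · intro a π
    let s : Equiv.Perm (Fin (m + 1)) := Equiv.ofBijective _ (L2_bij a π)
    have hs : ∀ k, s k = L2_col (kv a π k) := fun k => rfl
    -- the matrix of the coordinates
    have hY : ∀ k j : Fin (m + 1), ∃ W : 𝓞 F, Algebra.trace F K ((β j : K) * L (kv a π k)) =
        algebraMap (𝓞 F) F ((if s k = j then 1 else 0) + (p : 𝓞 F) * W) := by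
      intro k j
      obtain ⟨w, hw⟩ := hmod (β j) (hβ j) (fun i => kv a π k i / ((m + 1 : ℕ) : ℤ))
        (L2_col (kv a π k))
      have h1 := hL0 (Pi.single j 1) (L2_col (kv a π k))
      have h2 : ∑ i, algebraMap (𝓞 F) (𝓞 K) ((Pi.single j 1 : Fin (m + 1) → 𝓞 F) i) * β i = β j := by
        rw [Finset.sum_eq_single j]
        · rw [Pi.single_eq_same, map_one, one_mul]
        · intro i _ hi
          rw [Pi.single_eq_of_ne hi, map_zero, zero_mul]
        · intro h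
          exact absurd (Finset.mem_univ _) h
      have h3 : ∑ i, (Pi.single j 1 : Fin (m + 1) → 𝓞 F) i * Yv (L2_col (kv a π k)) i =
          Yv (L2_col (kv a π k)) j := by
        rw [Finset.sum_eq_single j]
        · rw [Pi.single_eq_same, one_mul]
        · intro i _ hi
          rw [Pi.single_eq_of_ne hi, zero_mul]
        · intro h
          exact absurd (Finset.mem_univ _) h
      rw [h2, h3] at h1
      refine ⟨b' * (1 - c (L2_col (kv a π k))) * (if j₀ = j then 1 else 0) + l * w, ?_⟩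
      show Algebra.trace F K ((β j : K) *
        (((uu u (fun i => kv a π k i / ((m + 1 : ℕ) : ℤ)) : 𝓞 K) : K) * L0 (L2_col (kv a π k)))) = _
      rw [hw, h1, ← map_add]
      congr 1
      rw [hs]
      simp only [Yv]
      ring
    choose W hW using hY
    let Y : Matrix (Fin (m + 1)) (Fin (m + 1)) (𝓞 F) := fun k j => (if s k = j then 1 else 0) + (p : 𝓞 F) * W k j
    refine ⟨Y.det, L2F_det (p : 𝓞 F) s Y W fun k j => rfl, fun y => ?_⟩
    refine ⟨∑ j, algebraMap (𝓞 F) (𝓞 K) ((Y.adjugate.mulVec y) j) * β j,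
      b.sum_mem fun j _ => b.mul_mem_left _ (hβ j), fun k => ?_⟩
    rw [L2F_coe_sum, Finset.sum_mul, map_sum]
    have h1 : ∀ j, Algebra.trace F K
        (((algebraMap (𝓞 F) (𝓞 K) ((Y.adjugate.mulVec y) j) * β j : 𝓞 K) : K) * L (kv a π k)) =
          algebraMap (𝓞 F) F (Y k j * (Y.adjugate.mulVec y) j) := by
      intro j
      rw [L2F_coe_mul, mul_assoc, L2F_trace_mul, hW k j, mul_comm, ← map_mul]
    rw [Finset.sum_congr rfl fun j _ => h1 j, ← map_sum]
    congr 1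
    have h2 : Y.mulVec (Y.adjugate.mulVec y) = Y.det • y := by
      rw [Matrix.mulVec_mulVec, Matrix.mul_adjugate, Matrix.smul_mulVec, Matrix.one_mulVec]
    exact congrFun h2 k

/-- The labels of a simplex are linearly independent over F: if sum_k f_k L_k = 0, multiply by x in b with Tr(x L_k) = d y_k and take traces: sum_k f_k d y_k = 0 for all y in
O^n, d <> 0 (2 is not a unit of O). -/
theorem labels_indep (p : ℕ) (hp : p.Prime) (l : 𝓞 F) (b : Ideal (𝓞 K)) (c₀ : 𝓞 K) (u : Fin m → (𝓞 K)ˣ)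
    (L : (Fin m → ℤ) → K) (hL : LabP p l b c₀ u L) (a : Fin m → ℤ) (π : Equiv.Perm (Fin m)) :
    LinearIndependent F fun k : Fin (m + 1) => L (kv a π k) := by
  rw [Fintype.linearIndependent_iff]
  intro g hg k₀
  obtain ⟨d, hd, h⟩ := hL.cop a π
  obtain ⟨x, _, hx⟩ := h (Pi.single k₀ 1)
  have hd0 : d ≠ 0 := by
    rintro rfl
    exact L2F_not_unit p hp (isCoprime_zero_left.1 hd)
  have h1 := congrArg (fun t => Algebra.trace F K ((x : K) * t)) hg
  simp only [Finset.mul_sum, map_sum, mul_zero, map_zero, mul_smul_comm, map_smul, smul_eq_mul,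
    hx] at h1
  rw [Finset.sum_eq_single k₀] at h1
  · rw [Pi.single_eq_same, mul_one] at h1
    rcases mul_eq_zero.1 h1 with h2 | h2
    · exact h2
    · exfalso
      apply hd0
      exact RingOfIntegers.coe_injective (h2.trans (map_zero _).symm)
  · intro k _ hk
    rw [Pi.single_eq_of_ne hk, mul_zero, map_zero, mul_zero]
  · intro h
    exact absurd (Finset.mem_univ _) h

/-- The values on the class X = c₀ + 3 f b. -/
theorem labels_low (D : Ctx F K m) (hE : Emb F D.σ) (p : ℕ) (M : Ideal (𝓞 F)) (l : 𝓞 F) (hl : Prime l)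
    (hM : M ≤ Ideal.span {l}) (b f : Ideal (𝓞 K)) (c₀ : 𝓞 K)
    (hD : D.I = mK K M * f * b ∧ D.c₀ = c₀) (u : Fin m → (𝓞 K)ˣ) (L : (Fin m → ℤ) → K)
    (hL : LabP p l b c₀ u L) (a : Fin m → ℤ) :
    ∀ x ∈ D.X, (∃ y : 𝓞 F, D.Tr (L a) x = eF F (1 + l * y)) ∧ 1 ≤ ‖D.Tr (L a) x‖ := by
  intro x hx
  have key : ∃ y : 𝓞 F, D.Tr (L a) x = eF F (1 + l * y) := by
    have hx1 : x - c₀ ∈ Ideal.span {algebraMap (𝓞 F) (𝓞 K) l} * (f * b) := by
      have h0 : mK K M * (f * b) = D.I := by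
        rw [hD.1]
        exact (mul_assoc _ _ _).symm
      have h1 : mK K M ≤ Ideal.span {algebraMap (𝓞 F) (𝓞 K) l} := by
        have h2 := Ideal.map_mono (f := algebraMap (𝓞 F) (𝓞 K)) hM
        rw [Ideal.map_span, Set.image_singleton] at h2
        exact h2
      refine Ideal.mul_mono_left h1 ?_
      rw [h0, ← hD.2]
      exact hx
    obtain ⟨t, ht, hxt⟩ := Ideal.mem_span_singleton_mul.1 hx1
    have htb : t ∈ b := Ideal.mul_le_right ht
    obtain ⟨y, hy⟩ := hL.one a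
    obtain ⟨w, hw⟩ := hL.int a t htb
    refine ⟨y + w, ?_⟩
    rw [Tr_eq D hE]
    have h1 : (x : K) * L a = (c₀ : K) * L a +
        ((algebraMap (𝓞 F) (𝓞 K) l : 𝓞 K) : K) * ((t : K) * L a) := by
      have h2 : x = c₀ + algebraMap (𝓞 F) (𝓞 K) l * t := by linear_combination -hxt
      rw [h2, L2F_coe_add, L2F_coe_mul]
      ring
    rw [h1, map_add, L2F_trace_mul, hy, hw, ← map_mul (algebraMap (𝓞 F) F),
      ← map_add (algebraMap (𝓞 F) F)]
    show eF F _ = eF F _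
    congr 1
    ring
  refine ⟨key, ?_⟩
  obtain ⟨y, hy⟩ := key
  rw [hy]
  refine one_le_e ?_
  intro h3
  apply hl.not_isUnit
  apply isUnit_of_dvd_one
  exact ⟨-y, by linear_combination h3⟩

end H55P
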