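import Mathlib
import Pool.Agent.Lib.H55N.U0
import Pool.Agent.Lib.H55N.U2
import Pool.Agent.Lib.H55P.R5

open NumberField IsDedekindDomain MeasureTheory

namespace H55P

open H55N
open H55B (g)

variable {F : Type} [Field F] [NumberField F] [IQ F] {K : Type} [Field K] [NumberField K] [Algebra F K] {m : ℕ}

/-! Chunk U3 (L). Unfolding. n = m+1, r = Re s > 3/2, lm = D.lm u, Fz(x) = g(x) conj N(x) Q_{tt z}(x)^(-n s).
(a) Q_{tt z}(u^a x) = Q_{tt(z+a)}(x) and N(u^a x) = N(x) (uu_act; tt lm (z + a) i = tt lm z i * |σ_i u^a|^2), g(u^a x) = g(x).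
(b) sum_{x in X} int_[0,1]^m |Fz(x)| dz <= C sum_X sz^n sz^(-2 n r) < infinity (|N x| <= sz^n, Q >= c sz^2 uniformly for z in the cube (Q_low), 2nr - n > 2n, sum_sz).
So int_cube sum_X Fz(x) dz = sum_X int_cube Fz(x) dz (hasSum_integral_of_summable_integral_norm or integral_tsum).
(c) By the bijection (a, x) -> u^a x from Z^m x T to X (T as in hbij; it maps into X by uu_act) the last sum is sum_{x in T} sum_a int_cube F_{z+a}(x) dz =
sum_{x in T} int_{R^m} Fz(x) dz (tiling) = sum_{x in T} g(x) conj N(x) (prod |x_i|^2)^(-s) cst(s) (shift_eq with y_i = |σ_i x|^2 > 0; x <> 0) and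
(prod |x_i|^2)^(-s) conj N = |N x|^(-2s) conj N = nf F s x (norm_eq; cpow of a positive real).
(d) Absolute convergence of the sum over T: the same with g, s replaced by |g|, r (use norms: |g(x) nf F s x| cst(r) is the integral over R^m of |Fz(x)|, cst(r) > 0: cst_eq;
tiling_lintegral or tiling for the norm). -/

theorem u3_sz_pos (D : Ctx F K m) (x : 𝓞 K) : 1 ≤ D.sz x := by
  unfold Ctx.sz
  have : 0 ≤ ∑ i, ‖D.σ i x‖ := Finset.sum_nonneg fun i _ => norm_nonneg _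
  linarith

theorem u3_N_le (D : Ctx F K m) (x : 𝓞 K) : ‖D.N x‖ ≤ D.sz x ^ (m + 1) := by
  unfold Ctx.N
  rw [norm_prod]
  have h1 : ∀ i, ‖D.σ i x‖ ≤ D.sz x := by
    intro i
    unfold Ctx.sz
    have := Finset.single_le_sum (f := fun i => ‖D.σ i x‖) (fun i _ => norm_nonneg _)
      (Finset.mem_univ i)
    linarith
  calc ∏ i, ‖D.σ i x‖ ≤ ∏ _i : Fin (m + 1), D.sz x :=
        Finset.prod_le_prod (fun i _ => norm_nonneg _) fun i _ => h1 i
    _ = D.sz x ^ (m + 1) := by simp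

theorem u3_fs_le (D : Ctx F K m) (t : Fin (m + 1) → ℝ) (s : ℂ) (hs : 0 < s.re) (c : ℝ) (hc : 0 < c)
    (x : 𝓞 K) (hx : c * D.sz x ^ 2 ≤ D.Q t x) :
    ‖D.fs t s x‖ ≤ c ^ (-((m + 1 : ℕ) * s.re)) * D.sz x ^ (-((2 * s.re - 1) * (m + 1 : ℝ))) := by
  have hsz := u3_sz_pos D x
  have hsz0 : 0 < D.sz x := by linarith
  have hcs : 0 < c * D.sz x ^ 2 := by positivity
  have hQ : 0 < D.Q t x := lt_of_lt_of_le hcs hx
  unfold Ctx.fs
  rw [norm_mul, RCLike.norm_conj, Complex.norm_cpow_eq_rpow_re_of_pos hQ]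
  have hre : (-(((m + 1 : ℕ) : ℂ) * s)).re = -(((m + 1 : ℕ) : ℝ) * s.re) := by
    rw [Complex.neg_re, ← Complex.ofReal_natCast, Complex.re_ofReal_mul]
  rw [hre]
  have hneg : -(((m + 1 : ℕ) : ℝ) * s.re) ≤ 0 := by
    have : 0 ≤ ((m + 1 : ℕ) : ℝ) * s.re := by positivity
    linarith
  have h1 : D.Q t x ^ (-(((m + 1 : ℕ) : ℝ) * s.re)) ≤
      (c * D.sz x ^ 2) ^ (-(((m + 1 : ℕ) : ℝ) * s.re)) :=
    Real.rpow_le_rpow_of_nonpos hcs hx hneg
  have h2 : (c * D.sz x ^ 2) ^ (-(((m + 1 : ℕ) : ℝ) * s.re)) =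
      c ^ (-(((m + 1 : ℕ) : ℝ) * s.re)) * D.sz x ^ (2 * (-(((m + 1 : ℕ) : ℝ) * s.re))) := by
    rw [Real.mul_rpow hc.le (by positivity), Real.rpow_mul hsz0.le]
    norm_cast
  have h3 : D.sz x ^ (m + 1) * D.sz x ^ (2 * (-(((m + 1 : ℕ) : ℝ) * s.re))) =
      D.sz x ^ (-((2 * s.re - 1) * (m + 1 : ℝ))) := by
    rw [← Real.rpow_natCast, ← Real.rpow_add hsz0]
    congr 1
    push_cast
    ring
  calc ‖D.N x‖ * D.Q t x ^ (-(((m + 1 : ℕ) : ℝ) * s.re))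
      ≤ D.sz x ^ (m + 1) * (c ^ (-(((m + 1 : ℕ) : ℝ) * s.re)) *
          D.sz x ^ (2 * (-(((m + 1 : ℕ) : ℝ) * s.re)))) := by
        rw [← h2]
        exact mul_le_mul (u3_N_le D x) h1 (Real.rpow_nonneg hQ.le _) (by positivity)
    _ = c ^ (-(((m + 1 : ℕ) : ℝ) * s.re)) * (D.sz x ^ (m + 1) *
          D.sz x ^ (2 * (-(((m + 1 : ℕ) : ℝ) * s.re)))) := by ring
    _ = _ := by rw [h3]

theorem u3_sum (D : Ctx F K m) (hE : Emb F D.σ) (s : ℂ) (hs : 3 / 2 < s.re) :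
    Summable fun x : D.X => D.sz (x : 𝓞 K) ^ (-((2 * s.re - 1) * (m + 1 : ℝ))) := by
  have h := sum_sz D hE ((2 * s.re - 1) * (m + 1 : ℝ)) (by
    have : (0 : ℝ) < m + 1 := by positivity
    nlinarith)
  exact h.subtype D.X

/-- For Re s > 3/2 the family fs is absolutely summable over X. -/
theorem fs_summable (D : Ctx F K m) (hE : Emb F D.σ) (h0 : D.c₀ ∉ D.I) (t : Fin (m + 1) → ℝ)
    (ht : ∀ i, 0 < t i) (s : ℂ) (hs : 3 / 2 < s.re) :
    Summable fun x : D.X => ‖D.fs t s (x : 𝓞 K)‖ := by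
  obtain ⟨a, ha, hat⟩ : ∃ a : ℝ, 0 < a ∧ ∀ i, a ≤ t i := by
    obtain ⟨i, hi⟩ := Finite.exists_min t
    exact ⟨t i, ht i, hi⟩
  obtain ⟨c, hc, hQ⟩ := Q_low D hE a ha
  refine Summable.of_nonneg_of_le (fun x => norm_nonneg _) (fun x => ?_)
    ((u3_sum D hE s hs).mul_left (c ^ (-((m + 1 : ℕ) * s.re))))
  exact u3_fs_le D t s (by linarith) c hc x (hQ t hat x (D.X_ne h0 x.2))

theorem u3_countable (K : Type) [Field K] [NumberField K] : Countable (𝓞 K) := by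
  have eq1 := (NumberField.RingOfIntegers.basis K).equivFun
  exact eq1.toEquiv.countable_iff.2 inferInstance

/-- The translation of the parameter by the action of the units. -/
theorem u3_trans (D : Ctx F K m) (u : Fin m → (𝓞 K)ˣ) (hu : D.UOk u) (s : ℂ) (z : Fin m → ℝ)
    (a : Fin m → ℤ) (x : 𝓞 K) :
    D.fs (tt (D.lm u) z) s ((uu u a : 𝓞 K) * x) =
      D.fs (tt (D.lm u) fun k => z k + a k) s x := by
  obtain ⟨-, h2, h3⟩ := uu_act D u hu a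
  have hσ : ∀ i, D.σ i (((uu u a : 𝓞 K) * x : 𝓞 K) : K) =
      D.σ i ((uu u a : 𝓞 K) : K) * D.σ i (x : K) := by
    intro i
    rw [← map_mul]
    norm_cast
  have hN : D.N ((uu u a : 𝓞 K) * x) = D.N x := by
    unfold Ctx.N
    rw [Finset.prod_congr rfl fun i _ => hσ i, Finset.prod_mul_distrib, h2, one_mul]
  have hQ : D.Q (tt (D.lm u) z) ((uu u a : 𝓞 K) * x) =
      D.Q (tt (D.lm u) fun k => z k + a k) x := by
    unfold Ctx.Q
    refine Finset.sum_congr rfl fun i _ => ?_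
    rw [hσ i, norm_mul, mul_pow, h3 i, ← mul_assoc]
    congr 1
    unfold tt
    rw [← Real.exp_add]
    congr 1
    rw [← Finset.sum_add_distrib]
    exact Finset.sum_congr rfl fun j _ => by ring
  unfold Ctx.fs
  rw [hN, hQ]

theorem u3_pos (D : Ctx F K m) (x : 𝓞 K) (hx : x ≠ 0) (i : Fin (m + 1)) : 0 < ‖D.σ i x‖ ^ 2 := by
  have h1 : (x : K) ≠ 0 := by exact_mod_cast hx
  have h2 : D.σ i x ≠ 0 := by
    rw [Ne, map_eq_zero]
    exact h1
  have := norm_pos_iff.2 h2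
  positivity

theorem u3_integrable (D : Ctx F K m) (u : Fin m → (𝓞 K)ˣ) (hu : D.UOk u) (s : ℂ) (hs : 0 < s.re)
    (x : 𝓞 K) (hx : x ≠ 0) : Integrable fun z : Fin m → ℝ => D.fs (tt (D.lm u) z) s x :=
  (shift_integrable (D.lm u) (lm_sum D u hu) hu.reg s hs (fun i => ‖D.σ i x‖ ^ 2)
    (u3_pos D x hx)).const_mul ((starRingEnd ℂ) (D.N x))

theorem u3_nf (D : Ctx F K m) (hE : Emb F D.σ) (s : ℂ) (x : 𝓞 K) (hx : x ≠ 0) :
    (starRingEnd ℂ) (D.N x) * (((∏ i, ‖D.σ i x‖ ^ 2 : ℝ) : ℂ) ^ (-s)) = nf F s x := by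
  have hN : D.N x = (embF F) (Algebra.norm F (x : K)) := norm_eq hE _
  have hpos : 0 < ‖D.N x‖ := by
    unfold Ctx.N
    rw [norm_prod]
    refine Finset.prod_pos fun i _ => ?_
    have := u3_pos D x hx i
    exact lt_of_le_of_ne (norm_nonneg _) fun h => by
      rw [← h] at this
      norm_num at this
  have h1 : (∏ i, ‖D.σ i x‖ ^ 2 : ℝ) = ‖D.N x‖ * ‖D.N x‖ := by
    rw [Finset.prod_pow]
    unfold Ctx.N
    rw [norm_prod, sq]
  unfold nf H55B.g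
  rw [← hN, h1, Complex.ofReal_mul, Complex.mul_cpow_ofReal_nonneg hpos.le hpos.le,
    ← Complex.cpow_add _ _ (by exact_mod_cast hpos.ne')]
  congr 2
  ring

theorem u3_integral (D : Ctx F K m) (hE : Emb F D.σ) (u : Fin m → (𝓞 K)ˣ) (hu : D.UOk u) (s : ℂ)
    (hs : 0 < s.re) (x : 𝓞 K) (hx : x ≠ 0) :
    ∫ z : Fin m → ℝ, D.fs (tt (D.lm u) z) s x = nf F s x * cst (D.lm u) s := by
  have h := shift_eq (D.lm u) (lm_sum D u hu) hu.reg s hs (fun i => ‖D.σ i x‖ ^ 2)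
    (u3_pos D x hx)
  have h2 : ∫ z : Fin m → ℝ, D.fs (tt (D.lm u) z) s x =
      (starRingEnd ℂ) (D.N x) * ∫ z : Fin m → ℝ,
        ((∑ i, tt (D.lm u) z i * ‖D.σ i x‖ ^ 2 : ℝ) : ℂ) ^ (-((m + 1 : ℕ) * s)) := by
    rw [← integral_const_mul]
    rfl
  rw [h2, h, ← mul_assoc, u3_nf D hE s x hx]

theorem u3_mem (D : Ctx F K m) (u : Fin m → (𝓞 K)ˣ) (hu : D.UOk u) (a : Fin m → ℤ) (x : 𝓞 K)
    (hx : x ∈ D.X) : (uu u a : 𝓞 K) * x ∈ D.X := by
  obtain ⟨h1, -, -⟩ := uu_act D u hu a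
  rw [D.mem_X] at hx ⊢
  have : (uu u a : 𝓞 K) * x - D.c₀ = (uu u a : 𝓞 K) * (x - D.c₀) +
      ((uu u a : 𝓞 K) - 1) * D.c₀ := by ring
  rw [this]
  exact D.I.add_mem (D.I.mul_mem_left _ hx) h1

/-- The bijection. -/
noncomputable def u3E (D : Ctx F K m) (u : Fin m → (𝓞 K)ˣ) (hu : D.UOk u) (T : Set (𝓞 K))
    (hT : T ⊆ D.X)
    (hbij : ∀ x ∈ D.X, ∃! q : (Fin m → ℤ) × T, x = (uu u q.1 : 𝓞 K) * q.2) :
    T × (Fin m → ℤ) ≃ D.X :=
  Equiv.ofBijective (fun q => ⟨(uu u q.2 : 𝓞 K) * q.1, u3_mem D u hu q.2 q.1 (hT q.1.2)⟩) (by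
    constructor
    · rintro ⟨x, a⟩ ⟨y, b⟩ h
      have h1 : (uu u a : 𝓞 K) * x = (uu u b : 𝓞 K) * y := congrArg Subtype.val h
      obtain ⟨q, hq, hq'⟩ := hbij _ (u3_mem D u hu a x (hT x.2))
      have e1 := hq' (a, x) rfl
      have e2 := hq' (b, y) h1
      have e3 := e1.trans e2.symm
      rw [Prod.mk.injEq] at e3
      rw [Prod.mk.injEq]
      exact ⟨e3.2, e3.1⟩
    · rintro ⟨x, hx⟩
      obtain ⟨q, hq, -⟩ := hbij x hx
      exact ⟨(q.2, q.1), Subtype.ext hq.symm⟩)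

theorem u3_vol {m : ℕ} : volume.real (Set.Icc (0 : Fin m → ℝ) 1) = 1 := by
  rw [Measure.real, Real.volume_Icc_pi]
  simp

theorem u3_tt {m : ℕ} (lm : Fin (m + 1) → Fin m → ℝ) : ∃ a : ℝ, 0 < a ∧
    ∀ z ∈ Set.Icc (0 : Fin m → ℝ) 1, ∀ i, a ≤ tt lm z i := by
  obtain ⟨i0, h0⟩ := Finite.exists_max fun i : Fin (m + 1) => ∑ j, |lm i j|
  refine ⟨Real.exp (-∑ j, |lm i0 j|), Real.exp_pos _, fun z hz i => ?_⟩
  unfold tt
  apply Real.exp_le_exp.2
  have h1 : -∑ j, |lm i j| ≤ ∑ j, z j * lm i j := by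
    rw [← Finset.sum_neg_distrib]
    refine Finset.sum_le_sum fun j _ => ?_
    have hz0 : 0 ≤ z j := hz.1 j
    have hz1 : z j ≤ 1 := hz.2 j
    have h2 : |z j * lm i j| ≤ |lm i j| := by
      rw [abs_mul, abs_of_nonneg hz0]
      exact mul_le_of_le_one_left (abs_nonneg _) hz1
    have := (abs_le.1 h2).1
    exact this
  have h3 : ∑ j, |lm i j| ≤ ∑ j, |lm i0 j| := h0 i
  linarith

theorem unfold (D : Ctx F K m) (hE : Emb F D.σ) (h0 : D.c₀ ∉ D.I) (u : Fin m → (𝓞 K)ˣ) (hu : D.UOk u)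
    (g : 𝓞 K → ℂ) (hgb : ∃ C : ℝ, ∀ x, ‖g x‖ ≤ C)
    (hgu : ∀ x ∈ D.X, ∀ z, g ((uu u z : 𝓞 K) * x) = g x) (T : Set (𝓞 K)) (hT : T ⊆ D.X)
    (hbij : ∀ x ∈ D.X, ∃! q : (Fin m → ℤ) × T, x = (uu u q.1 : 𝓞 K) * q.2) (s : ℂ)
    (hs : 3 / 2 < s.re) :
    (Summable fun x : T => ‖g x * nf F s (x : 𝓞 K)‖) ∧
    (∑' x : T, g x * nf F s (x : 𝓞 K)) * cst (D.lm u) s =
      ∫ z in Set.Icc (0 : Fin m → ℝ) 1, ∑' x : D.X, g x * D.fs (tt (D.lm u) z) s x := by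
  have hs0 : 0 < s.re := by linarith
  have := u3_countable K
  obtain ⟨C, hC⟩ := hgb
  have hC0 : 0 ≤ C := (norm_nonneg _).trans (hC 0)
  obtain ⟨a, ha, hat⟩ := u3_tt (D.lm u)
  obtain ⟨c, hc, hQ⟩ := Q_low D hE a ha
  have hint : ∀ x : 𝓞 K, x ≠ 0 →
      Integrable fun z : Fin m → ℝ => g x * D.fs (tt (D.lm u) z) s x := fun x hx =>
    (u3_integrable D u hu s hs0 x hx).const_mul (g x)
  -- the bound on the cube
  have hbd : ∀ x : D.X, ∫ z in Set.Icc (0 : Fin m → ℝ) 1, ‖g x * D.fs (tt (D.lm u) z) s x‖ ≤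
      (C * c ^ (-((m + 1 : ℕ) * s.re))) * D.sz (x : 𝓞 K) ^ (-((2 * s.re - 1) * (m + 1 : ℝ))) := by
    intro x
    have hx := D.X_ne h0 x.2
    have h1 : ∫ z in Set.Icc (0 : Fin m → ℝ) 1, ‖g x * D.fs (tt (D.lm u) z) s x‖ ≤
        ∫ z in Set.Icc (0 : Fin m → ℝ) 1, (C * c ^ (-((m + 1 : ℕ) * s.re))) *
          D.sz (x : 𝓞 K) ^ (-((2 * s.re - 1) * (m + 1 : ℝ))) := by
      refine setIntegral_mono_on (hint x hx).norm.integrableOn ?_ measurableSet_Icc ?_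
      · exact integrableOn_const (by
          rw [Real.volume_Icc_pi]
          simp)
      · intro z hz
        rw [norm_mul, mul_assoc]
        refine mul_le_mul (hC x) ?_ (norm_nonneg _) hC0
        exact u3_fs_le D _ s hs0 c hc x (hQ _ (hat z hz) x hx)
    refine h1.trans (le_of_eq ?_)
    rw [setIntegral_const, u3_vol, one_smul]
  have hsum1 : Summable fun x : D.X =>
      ∫ z in Set.Icc (0 : Fin m → ℝ) 1, ‖g x * D.fs (tt (D.lm u) z) s x‖ :=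
    Summable.of_nonneg_of_le (fun x => integral_nonneg fun z => norm_nonneg _) hbd
      ((u3_sum D hE s hs).mul_left _)
  have hs1 := hasSum_integral_of_summable_integral_norm
    (μ := volume.restrict (Set.Icc (0 : Fin m → ℝ) 1))
    (F := fun (x : D.X) (z : Fin m → ℝ) => g x * D.fs (tt (D.lm u) z) s x)
    (fun x => (hint x (D.X_ne h0 x.2)).integrableOn) hsum1
  have hs2 := (u3E D u hu T hT hbij).hasSum_iff.2 hs1
  have hs3 : HasSum (fun x : T => ∫ z : Fin m → ℝ, g x * D.fs (tt (D.lm u) z) s x)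
      (∫ z in Set.Icc (0 : Fin m → ℝ) 1, ∑' x : D.X, g x * D.fs (tt (D.lm u) z) s x) := by
    refine hs2.prod_fiberwise fun x => ?_
    have hx := D.X_ne h0 (hT x.2)
    have h1 := tiling (fun z => g x * D.fs (tt (D.lm u) z) s x) (hint x hx)
    have h2 : (fun b : Fin m → ℤ => ((fun x : D.X => ∫ z in Set.Icc (0 : Fin m → ℝ) 1,
        g x * D.fs (tt (D.lm u) z) s x) ∘ (u3E D u hu T hT hbij)) (x, b)) =
        fun b : Fin m → ℤ => ∫ z in Set.Icc (0 : Fin m → ℝ) 1,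
          (fun z => g x * D.fs (tt (D.lm u) z) s x) (fun k => z k + b k) := by
      funext b
      show ∫ z in Set.Icc (0 : Fin m → ℝ) 1, g ((uu u b : 𝓞 K) * x) *
        D.fs (tt (D.lm u) z) s ((uu u b : 𝓞 K) * x) = _
      refine integral_congr_ae (Filter.Eventually.of_forall fun z => ?_)
      show g ((uu u b : 𝓞 K) * x) * D.fs (tt (D.lm u) z) s ((uu u b : 𝓞 K) * x) =
        g x * D.fs (tt (D.lm u) fun k => z k + b k) s x
      rw [hgu x (hT x.2) b, u3_trans D u hu]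
    rw [h2]
    exact h1
  have hcst : cst (D.lm u) s ≠ 0 := by
    intro h
    have h1 := cst_eq (D.lm u) (lm_sum D u hu) hu.reg s hs0
    rw [h, mul_zero, zero_mul] at h1
    exact pow_ne_zero (m + 1) (Complex.Gamma_ne_zero_of_re_pos hs0) h1.symm
  have hs4 : HasSum (fun x : T => (g x * nf F s (x : 𝓞 K)) * cst (D.lm u) s)
      (∫ z in Set.Icc (0 : Fin m → ℝ) 1, ∑' x : D.X, g x * D.fs (tt (D.lm u) z) s x) := by
    have h1 : (fun x : T => (g x * nf F s (x : 𝓞 K)) * cst (D.lm u) s) =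
        fun x : T => ∫ z : Fin m → ℝ, g x * D.fs (tt (D.lm u) z) s x := by
      funext x
      rw [integral_const_mul, u3_integral D hE u hu s hs0 x (D.X_ne h0 (hT x.2)), mul_assoc]
    rw [h1]
    exact hs3
  refine ⟨((summable_mul_right_iff hcst).1 hs4.summable).norm, ?_⟩
  rw [← tsum_mul_right]
  exact hs4.tsum_eq

end H55P
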