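import Mathlib
import Pool.Agent.Lib.H55P.U3
import Pool.Agent.Lib.H55P.U4

open NumberField IsDedekindDomain MeasureTheory

namespace H55P

open H55N
open H55B (g)

variable {F : Type} [Field F] [NumberField F] [IQ F] {K : Type} [Field K] [NumberField K]
  [Algebra F K] {m : ℕ}

/-! Chunk PU5a (S/M), PORT of U5_gam, U5_fs_one, zfun of Lib/H55N/U5.lean (no change but the namespace: Ctx F K m, Emb F, nf F). -/

/-- The gamma factors. -/
theorem U5_gam (D : Ctx F K m) (u : Fin m → (𝓞 K)ˣ) (hu : D.UOk u) (V : ℂ → ℂ) (r : ℝ) (hr : 0 ≤ r)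
    (hV : AnalyticOnNhd ℂ V {s | r < s.re}) : AnalyticOnNhd ℂ (fun s => V s *
      ((|Delta (D.lm u)| : ℝ) : ℂ) * Complex.Gamma ((m + 1 : ℕ) * s) / Complex.Gamma s ^ (m + 1))
      {s | r < s.re} ∧
    ∀ s : ℂ, 0 < s.re → ∀ S : ℂ, S * cst (D.lm u) s = V s → V s *
      ((|Delta (D.lm u)| : ℝ) : ℂ) * Complex.Gamma ((m + 1 : ℕ) * s) / Complex.Gamma s ^ (m + 1) =
        S := by
  have hopen : IsOpen {s : ℂ | r < s.re} := isOpen_lt continuous_const Complex.continuous_re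
  have hpos : ∀ s : ℂ, r < s.re → 0 < s.re := fun s hs => lt_of_le_of_lt hr hs
  have hne : ∀ s : ℂ, 0 < s.re → ∀ k : ℕ, s ≠ -(k : ℂ) := by
    intro s hs k hk
    rw [hk] at hs
    simp only [Complex.neg_re, Complex.natCast_re] at hs
    have : (0 : ℝ) ≤ k := Nat.cast_nonneg k
    linarith
  have hG : AnalyticOnNhd ℂ Complex.Gamma {s | r < s.re} := by
    apply DifferentiableOn.analyticOnNhd _ hopen
    intro s hs
    exact (Complex.differentiableAt_Gamma s (hne s (hpos s hs))).differentiableWithinAt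
  have hG2 : AnalyticOnNhd ℂ (fun s => Complex.Gamma ((m + 1 : ℕ) * s)) {s | r < s.re} := by
    apply DifferentiableOn.analyticOnNhd _ hopen
    intro s hs
    have h1 : 0 < (((m + 1 : ℕ) : ℂ) * s).re := by
      rw [← Complex.ofReal_natCast, Complex.re_ofReal_mul]
      have := hpos s hs
      positivity
    have h2 := Complex.differentiableAt_Gamma _ (hne _ h1)
    exact (h2.comp s ((differentiableAt_const _).mul differentiableAt_id)).differentiableWithinAt
  constructor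
  · exact ((hV.mul analyticOnNhd_const).mul hG2).div (hG.pow _) fun s hs =>
      pow_ne_zero _ (Complex.Gamma_ne_zero_of_re_pos (hpos s hs))
  · intro s hs S hS
    have h1 := cst_eq (D.lm u) (lm_sum D u hu) hu.reg s hs
    have h2 : Complex.Gamma s ^ (m + 1) ≠ 0 :=
      pow_ne_zero _ (Complex.Gamma_ne_zero_of_re_pos hs)
    rw [div_eq_iff h2, ← h1, ← hS]
    ring

theorem pu5_fs_one (D : Ctx F K m) (t : Fin (m + 1) → ℝ) (x : 𝓞 K) :
    D.fs t 1 x = (starRingEnd ℂ) (D.N x) / ∏ _j : Fin (m + 1), (D.Q t x : ℂ) := by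
  unfold Ctx.fs
  rw [mul_one, Complex.cpow_neg, Complex.cpow_natCast, Finset.prod_const, Finset.card_univ,
    Fintype.card_fin, div_eq_mul_inv]

theorem zfun (D : Ctx F K m) (hD : D.Ok) (u : Fin m → (𝓞 K)ˣ) (hu : D.UOk u)
    (A : Fin (m + 1) → K) (w : Fin (m + 1) × Fin 2 → 𝓞 K) (hdir : D.Dirs A w) (G : 𝓞 K → ℂ)
    (hG : D.GSpec w G) : ∃ Z : ℂ → ℂ, AnalyticOnNhd ℂ Z {s | 1 / 2 < s.re} ∧
      (∀ T : Set (𝓞 K), T ⊆ D.X →
        (∀ x ∈ D.X, ∃! q : (Fin m → ℤ) × T, x = (uu u q.1 : 𝓞 K) * q.2) →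
        ∀ s : ℂ, 3 / 2 < s.re → HasSum (fun x : T => D.g x * nf F s (x : 𝓞 K)) (Z s)) ∧
      Z 1 = (m.factorial : ℂ) * ((|Delta (D.lm u)| : ℝ) : ℂ) *
        ∫ z in Set.Icc (0 : Fin m → ℝ) 1, D.Bv w G (fun _ => tt (D.lm u) z) := by
  set V : ℂ → ℂ := fun s => ∫ z in Set.Icc (0 : Fin m → ℝ) 1,
      ∑' x : D.X, G x * Dif w Finset.univ (D.fs (tt (D.lm u) z) s) x with hVdef
  have hcard : Fintype.card (Fin (m + 1) × Fin 2) = 2 * (m + 1) := by
    rw [Fintype.card_prod, Fintype.card_fin, Fintype.card_fin, mul_comm]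
  have hreg : 3 / 2 - (Fintype.card (Fin (m + 1) × Fin 2) : ℝ) / (2 * (m + 1)) = 1 / 2 := by
    rw [hcard]
    push_cast
    field_simp
    norm_num
  have hV : AnalyticOnNhd ℂ V {s | 1 / 2 < s.re} := by
    have h := cont_analytic D hD.emb D.I le_rfl hD.ne w hdir.mem hcard.le G hG.1 (D.lm u)
    rw [hreg] at h
    exact h
  obtain ⟨hA1, hA2⟩ := U5_gam D u hu V (1 / 2) (by norm_num) hV
  refine ⟨_, hA1, ?_, ?_⟩
  · intro T hT hbij s hs
    obtain ⟨h1, h2⟩ := unfold D hD.emb hD.ne u hu D.g (g_bdd D)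
      (fun x _ z => R5_g D (uu u z) x) T hT hbij s hs
    have h3 : (∑' x : T, D.g x * nf F s (x : 𝓞 K)) * cst (D.lm u) s = V s := by
      rw [h2]
      refine integral_congr_ae (Filter.Eventually.of_forall fun z => ?_)
      exact hG.2 _ (fs_summable D hD.emb hD.ne _ (fun i => Real.exp_pos _) s hs)
    have h4 := hA2 s (by linarith) _ h3
    rw [h4]
    exact h1.of_norm.hasSum
  · have h1 : V 1 = ∫ z in Set.Icc (0 : Fin m → ℝ) 1, D.Bv w G (fun _ => tt (D.lm u) z) := by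
      refine integral_congr_ae (Filter.Eventually.of_forall fun z => ?_)
      show ∑' x : D.X, _ = ∑' x : D.X, _
      refine tsum_congr fun x => ?_
      congr 2
      funext y
      exact pu5_fs_one D _ y
    show V 1 * _ * _ / _ = _
    rw [h1, mul_one, Complex.Gamma_one, one_pow, div_one]
    have h2 : Complex.Gamma ((m + 1 : ℕ) : ℂ) = (m.factorial : ℂ) := by
      have := Complex.Gamma_nat_eq_factorial m
      rw [← this]
      push_cast
      rfl
    rw [h2]
    ring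

end H55P
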