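import Mathlib
import Pool.Agent.Lib.H55P.U6

open NumberField IsDedekindDomain MeasureTheory

namespace H55P

open H55N
open H55B (g)

variable {F : Type} [Field F] [NumberField F] [IQ F] {K : Type} [Field K] [NumberField K]
  [Algebra F K] {m : ℕ}

theorem U7_conj (γ : 𝓞 F) : ∃ γ' : 𝓞 F, eF F γ' = (starRingEnd ℂ) (eF F γ) := by
  have hq : Algebra.IsQuadraticExtension ℚ F := ⟨IQ.deg⟩
  have : IsGalois ℚ F := inferInstance
  obtain ⟨σ, hσ⟩ := ComplexEmbedding.exists_comp_symm_eq_of_comp_eq (k := ℚ) (embF F)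
    (ComplexEmbedding.conjugate (embF F)) (Subsingleton.elim _ _)
  refine ⟨⟨σ.symm γ, ?_⟩, ?_⟩
  · exact γ.2.map (σ.symm.toAlgHom.restrictScalars ℤ)
  · have h := RingHom.congr_fun hσ (γ : F)
    exact h

/-- A suitable multiplier. -/
theorem U7_k (z : ℂ) (hz : z.im ≠ 0) (N : ℕ) (hN : N ≠ 0) (n : ℕ) (hn : 0 < n) :
    ∃ k : ℕ, (1 + (N * k : ℕ) * z) ^ n ≠ (1 + (N * k : ℕ) * (starRingEnd ℂ) z) ^ n := by
  by_contra hcon
  push Not at hcon
  have hne : ∀ k : ℕ, (1 + (N * k : ℕ) * (starRingEnd ℂ) z : ℂ) ≠ 0 := by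
    intro k h
    have him := congrArg Complex.im h
    have hre := congrArg Complex.re h
    simp at him hre
    rcases him with h1 | h1
    · rcases h1 with h2 | h2
      · exact hN h2
      · rw [h2] at hre
        simp at hre
    · exact hz h1
  let q : ℕ → ℂ := fun k => (1 + (N * k : ℕ) * z) / (1 + (N * k : ℕ) * (starRingEnd ℂ) z)
  have hq : ∀ k, q k ∈ Polynomial.nthRootsFinset n (1 : ℂ) := by
    intro k
    rw [Polynomial.mem_nthRootsFinset hn]
    change ((1 + (N * k : ℕ) * z) / (1 + (N * k : ℕ) * (starRingEnd ℂ) z)) ^ n = 1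
    rw [div_pow, hcon k, div_self]
    exact pow_ne_zero _ (hne k)
  have hinj : Function.Injective q := by
    intro k l h
    change (1 + (N * k : ℕ) * z) / (1 + (N * k : ℕ) * (starRingEnd ℂ) z) =
      (1 + (N * l : ℕ) * z) / (1 + (N * l : ℕ) * (starRingEnd ℂ) z) at h
    rw [div_eq_div_iff (hne k) (hne l)] at h
    have h1 : ((N * k : ℕ) - (N * l : ℕ) : ℂ) * (z - (starRingEnd ℂ) z) = 0 := by
      linear_combination h
    rcases mul_eq_zero.1 h1 with h2 | h2
    · have h3 : N * k = N * l := by exact_mod_cast sub_eq_zero.1 h2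
      exact Nat.eq_of_mul_eq_mul_left (Nat.pos_of_ne_zero hN) h3
    · exfalso
      exact hz (Complex.conj_eq_iff_im.1 (sub_eq_zero.1 h2).symm)
  exact not_injective_infinite_finite
    (fun k => (⟨q k, hq k⟩ : {x // x ∈ Polynomial.nthRootsFinset n (1 : ℂ)}))
    fun k l h => hinj (congrArg Subtype.val h)

/-- The Euler type factor. -/
noncomputable def U7_f (F : Type) [Field F] [NumberField F] [IQ F] (m : ℕ) (α : 𝓞 F) (s : ℂ) : ℂ :=
  1 - (Nm α : ℂ) ^ (m + 1) * (starRingEnd ℂ) (eF F α) ^ (m + 1) *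
    (Nm α : ℂ) ^ (-((m + 1 : ℕ) * s))

theorem U7_f_an (α : 𝓞 F) (hα : α ≠ 0) : Differentiable ℂ (U7_f F m α) := by
  have h0 : (Nm α : ℂ) ≠ 0 := by
    exact_mod_cast fun h => hα (Nm_eq_zero.1 h)
  unfold U7_f
  intro s
  refine DifferentiableAt.const_sub (DifferentiableAt.const_mul ?_ _) _
  refine DifferentiableAt.const_cpow ?_ (Or.inl h0)
  fun_prop

/-! Chunk PU7 (M). The unsmoothed series has no poles near Re s = 3/2.
PROOF. n = m+1. Let N be a nonzero integer with N c₀ in I (absNorm of I). There is γ in O with e(γ) not real (IQ.im; F0_im in H55P/F0.lean). Let α = 1 + N k γ, α' in O with e α' = conj(e α)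
(F is quadratic, so the conjugate of an integer is an integer: Tr γ - γ, Tr γ in Z: Algebra.trace ℤ or minpoly; e(γ) + conj e(γ) is an integer); α' = 1 + N k γ'. Both satisfy the hypothesis h1
of zfun_al. Choose k >= 1 such that (e α / conj e α)^n <> 1: otherwise for k = 1, 2, ..., n+1 ... the numbers (1 + N k z)/(1 + N k conj z) (z = e γ) would be n-th roots of unity; the map
k -> (1 + N k z)/(1 + N k conj z) is injective (z not real), and there are at most n roots (Polynomial.card_roots or: finitely many n-th roots of unity, infinitely many k). f(s) = 1 - Nm(α)^n conj(eα)^n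
Nm(α)^(-ns), f'(s) the same for α' (Nm α' = Nm α). For Re s > 3/2 - 1/(2n): a common zero s of f and f' gives conj(eα)^n = Nm(α)^(ns - n) = (e α)^n, contradiction. Zα, Zα' from zfun_al; f' Zα = f Zα' for Re s > 3/2 (if a T exists, both are f f' times
the sum), hence on the half plane (AnalyticOnNhd.eqOn_of_preconnected_of_eventuallyEq; halfspace convex). Z(s) = Zα(s)/f(s) if f(s) <> 0, else Zα'(s)/f'(s): analytic. If no T exists take Z = 0 (T exists always, but the
case distinction is cheap). For Re s > 3/2 the sum over T of nf is Z(s): if f(s) <> 0 divide, else f'(s) <> 0, divide. -/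
theorem zfun_one (D : Ctx F K m) (hE : Emb F D.σ) (h0 : D.c₀ ∉ D.I) (hI : D.I ≠ ⊥)
    (u : Fin m → (𝓞 K)ˣ) (hu : D.UOk u) :
    ∃ Z : ℂ → ℂ, AnalyticOnNhd ℂ Z {s | 3 / 2 - 1 / (2 * (m + 1)) < s.re} ∧
      ∀ T : Set (𝓞 K), T ⊆ D.X →
        (∀ x ∈ D.X, ∃! q : (Fin m → ℤ) × T, x = (uu u q.1 : 𝓞 K) * q.2) →
        ∀ s : ℂ, 3 / 2 < s.re → HasSum (fun x : T => nf F s (x : 𝓞 K)) (Z s) := by
  classical
  by_cases hT : ∃ T : Set (𝓞 K), T ⊆ D.X ∧
        (∀ x ∈ D.X, ∃! q : (Fin m → ℤ) × T, x = (uu u q.1 : 𝓞 K) * q.2)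
  swap
  · refine ⟨fun _ => 0, fun _ _ => analyticAt_const, ?_⟩
    intro T h1 h2
    exact absurd ⟨T, h1, h2⟩ hT
  obtain ⟨T0, hT0, hT0'⟩ := hT
  -- the choice of α and its conjugate
  obtain ⟨γ, hγ⟩ := F0_im (F := F)
  obtain ⟨γ', hγ'⟩ := U7_conj γ
  set N : ℕ := Ideal.absNorm D.I with hNdef
  have hN : N ≠ 0 := by
    rw [hNdef, Ne, Ideal.absNorm_eq_zero_iff]
    exact hI
  have hNI : (N : 𝓞 K) ∈ D.I := Ideal.absNorm_mem D.I
  obtain ⟨k, hk⟩ := U7_k (eF F γ) hγ N hN (m + 1) (Nat.succ_pos m)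
  have hα : ∀ δ : 𝓞 F, algebraMap (𝓞 F) (𝓞 K) ((1 + (N * k : ℕ) * δ) - 1) * D.c₀ ∈ D.I := by
    intro δ
    have h1 : (1 + (N * k : ℕ) * δ) - 1 = (N : 𝓞 F) * ((k : 𝓞 F) * δ) := by
      push_cast
      ring
    rw [h1, map_mul, map_natCast, mul_assoc]
    exact D.I.mul_mem_right _ hNI
  set α : 𝓞 F := 1 + (N * k : ℕ) * γ with hαdef
  set α' : 𝓞 F := 1 + (N * k : ℕ) * γ' with hα'def
  have heα : eF F α = 1 + (N * k : ℕ) * eF F γ := by
    rw [hαdef, map_add, map_one, map_mul, map_natCast]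
  have heα' : eF F α' = (starRingEnd ℂ) (eF F α) := by
    rw [heα, hα'def, map_add, map_one, map_mul, map_natCast, hγ', map_add, map_one, map_mul,
      map_natCast]
  have hne' : (eF F α) ^ (m + 1) ≠ (starRingEnd ℂ) (eF F α) ^ (m + 1) := by
    rw [← heα', hα'def, heα, map_add, map_one, map_mul, map_natCast, hγ']
    exact hk
  have hα0 : α ≠ 0 := by
    intro h
    apply hne'
    rw [h, map_zero, map_zero]
  have hα'0 : α' ≠ 0 := by
    intro h
    apply hα0
    apply eF_inj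
    have h1 : (starRingEnd ℂ) (eF F α) = 0 := by rw [← heα', h, map_zero]
    rw [map_zero]
    exact (map_eq_zero (starRingEnd ℂ)).1 h1
  have hNm : Nm α' = Nm α := by
    have h1 := Nm_eq α
    have h2 := Nm_eq α'
    rw [heα', RCLike.norm_conj, ← h1] at h2
    exact_mod_cast h2
  obtain ⟨Z1, hZ1, hZ1'⟩ := zfun_al D hE h0 hI u hu α hα0 (hα γ)
  obtain ⟨Z2, hZ2, hZ2'⟩ := zfun_al D hE h0 hI u hu α' hα'0 (hα γ')
  set f : ℂ → ℂ := U7_f F m α with hfdef
  set f' : ℂ → ℂ := U7_f F m α' with hf'def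
  have hf : Differentiable ℂ f := U7_f_an α hα0
  have hf' : Differentiable ℂ f' := U7_f_an α' hα'0
  have hff : ∀ s, f s = 0 → f' s ≠ 0 := by
    intro s h1 h2
    apply hne'
    rw [hfdef, U7_f, sub_eq_zero] at h1
    rw [hf'def, U7_f, sub_eq_zero, hNm, heα', Complex.conj_conj] at h2
    have h3 : (Nm α : ℂ) ≠ 0 := by exact_mod_cast fun h => hα0 (Nm_eq_zero.1 h)
    have h4 : (Nm α : ℂ) ^ (-((m + 1 : ℕ) * s)) ≠ 0 := by
      rw [Complex.cpow_ne_zero_iff]
      exact Or.inl h3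
    have h5 : (Nm α : ℂ) ^ (m + 1) ≠ 0 := pow_ne_zero _ h3
    have h6 : (Nm α : ℂ) ^ (m + 1) * (Nm α : ℂ) ^ (-((m + 1 : ℕ) * s)) ≠ 0 := mul_ne_zero h5 h4
    apply mul_left_cancel₀ h6
    linear_combination h1 - h2
  have hid0 : ∀ s : ℂ, 3 / 2 < s.re → f' s * Z1 s = f s * Z2 s := by
    intro s hs
    have h1 := (hZ1' T0 hT0 hT0' s hs).mul_left (f' s)
    have h2 := (hZ2' T0 hT0 hT0' s hs).mul_left (f s)
    refine h1.unique ?_
    convert h2 using 2 with x
    change f' s * (f s * nf F s (x : 𝓞 K)) = f s * (f' s * nf F s (x : 𝓞 K))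
    ring
  set U : Set ℂ := {s | 3 / 2 - 1 / (2 * (m + 1)) < s.re} with hU
  have hUo : IsOpen U := isOpen_lt continuous_const Complex.continuous_re
  have hid : Set.EqOn (fun s => f' s * Z1 s) (fun s => f s * Z2 s) U := by
    refine AnalyticOnNhd.eqOn_of_preconnected_of_eventuallyEq (𝕜 := ℂ) (z₀ := 2) ?_ ?_
      (convex_halfSpace_re_gt _).isPreconnected ?_ ?_
    · exact fun s hs => (hf'.analyticAt s).mul (hZ1 s hs)
    · exact fun s hs => (hf.analyticAt s).mul (hZ2 s hs)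
    · change (3 : ℝ) / 2 - 1 / (2 * (m + 1)) < (2 : ℂ).re
      have : (0 : ℝ) < 1 / (2 * (m + 1)) := by positivity
      rw [Complex.re_ofNat]
      linarith
    · have h1 : {s : ℂ | 3 / 2 < s.re} ∈ nhds (2 : ℂ) := by
        refine IsOpen.mem_nhds (isOpen_lt continuous_const Complex.continuous_re) ?_
        change (3 : ℝ) / 2 < (2 : ℂ).re
        norm_num
      exact Filter.eventuallyEq_of_mem h1 fun s hs => hid0 s hs
  refine ⟨fun s => if f s ≠ 0 then Z1 s / f s else Z2 s / f' s, ?_, ?_⟩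
  · intro s hs
    by_cases h : f s = 0
    · have h1 : f' s ≠ 0 := hff s h
      have h2 : AnalyticAt ℂ (fun s => Z2 s / f' s) s := (hZ2 s hs).div (hf'.analyticAt s) h1
      refine h2.congr ?_
      filter_upwards [(hf'.continuous.continuousAt (x := s)).eventually_ne h1, hUo.mem_nhds hs]
        with t ht1 ht2
      by_cases h3 : f t = 0
      · rw [if_neg (not_not.2 h3)]
      · rw [if_pos h3, div_eq_div_iff ht1 h3]
        have h4 : f' t * Z1 t = f t * Z2 t := hid ht2
        linear_combination -h4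
    · have h2 : AnalyticAt ℂ (fun s => Z1 s / f s) s := (hZ1 s hs).div (hf.analyticAt s) h
      refine h2.congr ?_
      filter_upwards [(hf.continuous.continuousAt (x := s)).eventually_ne h] with t ht1
      rw [if_pos ht1]
  · intro T hT hbij s hs
    by_cases h : f s = 0
    · have h1 : f' s ≠ 0 := hff s h
      change HasSum _ (if f s ≠ 0 then Z1 s / f s else Z2 s / f' s)
      rw [if_neg (not_not.2 h)]
      have h2 := (hZ2' T hT hbij s hs).div_const (f' s)
      refine h2.congr_fun ?_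
      intro x
      change _ = f' s * nf F s (x : 𝓞 K) / f' s
      rw [mul_div_cancel_left₀ _ h1]
    · change HasSum _ (if f s ≠ 0 then Z1 s / f s else Z2 s / f' s)
      rw [if_pos h]
      have h2 := (hZ1' T hT hbij s hs).div_const (f s)
      refine h2.congr_fun ?_
      intro x
      change _ = f s * nf F s (x : 𝓞 K) / f s
      rw [mul_div_cancel_left₀ _ h]

end H55P
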