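import Mathlib
import Pool.Agent.Lib.H55P.CN
import Pool.Agent.Lib.H55P.D2
import Pool.Agent.Lib.H55P.D3
import Pool.Agent.Lib.H55P.E8
import Pool.Agent.Lib.H55P.E9
import Pool.Agent.Lib.H55P.L2
import Pool.Agent.Lib.H55P.L4
import Pool.Agent.Lib.H55P.U7

open NumberField IsDedekindDomain MeasureTheory

namespace H55P

open H55N
open H55B (g)

variable {F : Type} [Field F] [NumberField F] [IQ F] {K : Type} [Field K] [NumberField K]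
  [Algebra F K] {m : ℕ}

theorem pc_int (V : ValuationSubring ℂ) (n : ℤ) : V.valuation (n : ℂ) ≤ 1 := by
  rw [ValuationSubring.valuation_le_one_iff]
  exact intCast_mem V.toSubring n

theorem pc_det (V : ValuationSubring ℂ) {n : ℕ} (A : Matrix (Fin n) (Fin n) ℂ)
    (hA : ∀ i j, V.valuation (A i j) ≤ 1) : V.valuation A.det ≤ 1 := by
  have h1 : A = (V.subtype).mapMatrix (Matrix.of fun i j =>
      (⟨A i j, (ValuationSubring.valuation_le_one_iff V _).1 (hA i j)⟩ : V)) := by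
    ext i j
    rfl
  rw [h1, ← RingHom.map_det, ValuationSubring.valuation_le_one_iff]
  exact SetLike.coe_mem _

theorem pc_CN (p : ℕ) (hp : p.Prime) {M : Ideal (𝓞 F)} {l : 𝓞 F} (hM : Mod p M l)
    (hK : UnrP p K) (D : Ctx F K m) (hD : D.Ok) (b f : Ideal (𝓞 K))
    (hbp : IsCoprime b (Ideal.span {(p : 𝓞 K)})) (hf : f ≠ ⊥)
    (hfp : IsCoprime f (Ideal.span {(p : 𝓞 K)}))
    (hI : D.I = mK K M * f * b) (hpi : ∀ i, D.p i ≠ p) (u : Fin m → (𝓞 K)ˣ)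
    (L : (Fin m → ℤ) → K) (hL : LabP p l b D.c₀ u L)
    (hdirs : ∀ (a : Fin m → Fin (m + 1)) (π : Equiv.Perm (Fin m)),
      ∃ w', D.Dirs (fun k : Fin (m + 1) => L (kv (fun k => ((a k : ℕ) : ℤ)) π k)) w')
    (Ac Bc Om : ℂ) (hper : Per F Ac Bc Om) (V : ValuationSubring ℂ)
    (hVp : V.valuation (p : ℂ) < 1) (hV : GoodV Ac Bc V) :
    V.valuation (CN (m + 1) D.Jv (fun a => .A (L a)) / Om ^ (m + 1)) ≤ 1 := by
  unfold CN
  rw [Finset.sum_div]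
  refine pe8_int_sum V _ _ fun a _ => ?_
  rw [Finset.sum_div]
  refine pe8_int_sum V _ _ fun π _ => ?_
  rw [mul_div_assoc, map_mul]
  refine mul_le_one' (pc_int V _) ?_
  obtain ⟨w', hw'⟩ := hdirs a π
  obtain ⟨S, hS, hlim⟩ := Jv_A D hD _ w' hw'
  rw [hS, mul_div_assoc, map_mul]
  refine mul_le_one' (pc_det V _ fun k i => ?_) ?_
  · exact label_int p hp hK b hbp _ (hL.int _) (D.σ i) V hVp
  · obtain ⟨m₀, h0, hpm, hlm, hm⟩ := m0_exists D hD p hp hM b f hf hfp hI hpi u L hL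
      (fun k => ((a k : ℕ) : ℤ)) π
    exact rat_val D hD _ w' hw' l hM.prime
      (fun x hx k => (labels_low D hD.emb p M l hM.prime hM.le b f D.c₀ ⟨hI, rfl⟩ u L hL _ x hx).1)
      m₀ h0 hlm hm S hlim Ac Bc Om hper V hV (val_nat p hp V hVp m₀ hpm)

theorem pc_gw (c : Fin (m + 1) × Fin 2 → Ideal (𝓞 K)) (q : Fin (m + 1) × Fin 2 → ℕ) (u : (𝓞 K)ˣ)
    (x : 𝓞 K) : gw c q ((u : 𝓞 K) * x) = gw c q x := by
  unfold gw
  refine Finset.prod_congr rfl fun i _ => ?_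
  have : (u : 𝓞 K) * x ∈ c i ↔ x ∈ c i := Ideal.unit_mul_mem_iff_mem _ u.isUnit
  by_cases h : x ∈ c i
  · rw [if_pos (this.2 h), if_pos h]
  · rw [if_neg (fun h' => h (this.1 h')), if_neg h]

theorem pc_nf {σ : Fin (m + 1) → K →+* ℂ} (hσ : Emb F σ) (s : ℂ) (u : (𝓞 K)ˣ)
    (hu : ∏ i, σ i ((u : 𝓞 K) : K) = 1) (x : 𝓞 K) : nf F s ((u : 𝓞 K) * x) = nf F s x := by
  have h : ∏ i, σ i (((u : 𝓞 K) * x : 𝓞 K) : K) = ∏ i, σ i (x : K) := by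
    have h1 : ∀ i, σ i (((u : 𝓞 K) * x : 𝓞 K) : K) = σ i ((u : 𝓞 K) : K) * σ i (x : K) := by
      intro i
      rw [← map_mul]
      rfl
    rw [Finset.prod_congr rfl fun i _ => h1 i, Finset.prod_mul_distrib, hu, one_mul]
  unfold nf
  rw [← norm_eq hσ, ← norm_eq hσ, h]

theorem pc_mK {M : Ideal (𝓞 F)} {l : 𝓞 F} (hM : M ≤ Ideal.span {l}) :
    mK K M ≤ Ideal.span {algebraMap (𝓞 F) (𝓞 K) l} := by
  unfold mK
  rw [Ideal.map_le_iff_le_comap]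
  intro x hx
  obtain ⟨t, rfl⟩ := Ideal.mem_span_singleton.1 (hM hx)
  rw [Ideal.mem_comap, map_mul]
  exact Ideal.mul_mem_right _ _ (Ideal.mem_span_singleton_self _)

theorem pc_mK_ne {M : Ideal (𝓞 F)} (hM : M ≠ ⊥) : mK K M ≠ ⊥ := by
  unfold mK
  rw [Ne, Ideal.map_eq_bot_iff_of_injective (FaithfulSMul.algebraMap_injective (𝓞 F) (𝓞 K))]
  exact hM

theorem pc_cop {p : ℕ} {M : Ideal (𝓞 F)} {l : 𝓞 F} (hM : Mod p M l) :
    IsCoprime l (p : 𝓞 F) := by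
  rw [← Ideal.isCoprime_span_singleton_iff, Ideal.isCoprime_iff_sup_eq, eq_top_iff]
  rw [← Ideal.isCoprime_iff_sup_eq.1 hM.cop]
  exact sup_le_sup_right hM.le _

theorem pc_bij {J' : Ideal (𝓞 K)} {X T : Set (𝓞 K)} (h0 : (0 : 𝓞 K) ∉ X) (hT : Transv J' X T)
    (u : Fin m → (𝓞 K)ˣ) (hu2 : ∀ z, (uu u z : 𝓞 K) - 1 ∈ J')
    (hu3 : ∀ v : (𝓞 K)ˣ, (v : 𝓞 K) - 1 ∈ J' → ∃! z : Fin m → ℤ, v = uu u z) :
    ∀ x ∈ X, ∃! q : (Fin m → ℤ) × T, x = (uu u q.1 : 𝓞 K) * q.2 := by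
  intro x hx
  obtain ⟨r, hr, v, hv, hxv⟩ := hT.cover x hx
  obtain ⟨z, hz, hzu⟩ := hu3 v hv
  refine ⟨(z, ⟨r, hr⟩), ?_, ?_⟩
  · simp only
    rw [← hz]
    exact hxv
  · rintro ⟨z', r'⟩ h'
    simp only at h'
    have e1 : (r' : 𝓞 K) = (((uu u z')⁻¹ * v : (𝓞 K)ˣ) : 𝓞 K) * r := by
      rw [Units.val_mul, mul_assoc, ← hxv, h', Units.inv_mul_cancel_left]
    have e2 : (((uu u z')⁻¹ * v : (𝓞 K)ˣ) : 𝓞 K) - 1 ∈ J' := by
      have e3 : (((uu u z')⁻¹ * v : (𝓞 K)ˣ) : 𝓞 K) - 1 =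
          (((uu u z')⁻¹ : (𝓞 K)ˣ) : 𝓞 K) * (((v : 𝓞 K) - 1) - ((uu u z' : 𝓞 K) - 1)) := by
        have e4 : (((uu u z')⁻¹ : (𝓞 K)ˣ) : 𝓞 K) * (uu u z' : 𝓞 K) = 1 := Units.inv_mul _
        rw [Units.val_mul]
        linear_combination e4
      rw [e3]
      exact J'.mul_mem_left _ (J'.sub_mem hv (hu2 z'))
    have e5 : (r' : 𝓞 K) = r := hT.uniq r hr r' r'.2 _ e2 e1
    have hr0 : r ≠ 0 := by
      rintro rfl
      exact h0 (hT.sub hr)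
    have e6 : v = uu u z' := by
      apply Units.ext
      rw [e5, hxv] at h'
      exact mul_right_cancel₀ hr0 h'
    have e7 : z' = z := hzu z' e6
    subst e7
    congr 1
    exact Subtype.ext e5

/-- The ideals J = M f and J' = p J. -/
theorem pc_J {p : ℕ} (hp : p.Prime) {M : Ideal (𝓞 F)} {l : 𝓞 F} (hM : Mod p M l)
    (f : Ideal (𝓞 K)) (hf : f ≠ ⊥) (J J' : Ideal (𝓞 K)) (hJ : J = mK K M * f)
    (hJ' : J' = Ideal.span {(p : 𝓞 K)} * J) :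
    J ≠ ⊥ ∧ J' ≠ ⊥ ∧ J' ≤ J ∧ J ≤ mK K M ∧ J' ≤ Ideal.span {(p : 𝓞 K)} ∧
      J' ≤ Ideal.span {algebraMap (𝓞 F) (𝓞 K) l} ∧
      J' ≤ Ideal.span {(p : 𝓞 K) * algebraMap (𝓞 F) (𝓞 K) l} := by
  have hp0 : (p : 𝓞 K) ≠ 0 := by exact_mod_cast hp.ne_zero
  have h1 : J ≠ ⊥ := by
    rw [hJ]
    exact mul_ne_zero (pc_mK_ne hM.ne) hf
  have h2 : J' ≠ ⊥ := by
    rw [hJ']
    exact mul_ne_zero (by simpa using hp0) h1
  have h3 : J' ≤ J := hJ' ▸ Ideal.mul_le_right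
  have h4 : J ≤ mK K M := hJ ▸ Ideal.mul_le_left
  have h5 : J' ≤ Ideal.span {(p : 𝓞 K)} := hJ' ▸ Ideal.mul_le_left
  have h6 : J ≤ Ideal.span {algebraMap (𝓞 F) (𝓞 K) l} := h4.trans (pc_mK hM.le)
  refine ⟨h1, h2, h3, h4, h5, h3.trans h6, ?_⟩
  rw [hJ', ← Ideal.span_singleton_mul_span_singleton]
  exact Ideal.mul_mono_right h6

/-! Chunk PCore (M), PORT of Lib/H55N/Z2.lean and Lib/H55N/Core.lean. J = mK K M * f, J' = (p) J. Units: units_basis with htf = torsion_free (J' <= (p), J' <= J <= mK K M <= (l); IsCoprime l p because M <= (l) is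
coprime to p: Mod.cop). labels from labels_exist (J' <= (p l): J' = (p) J and J <= (l)). The set Bad: as there, and the c containing p (so p_i <> p). In the last step prime_change gives nu prime to p:
V(nu) = 1 by val_nat. All valuation statements are at a fixed V (V(p) < 1, GoodV Ac Bc V). The exceptional set must not depend on V, Ac, Bc, Om. nopoles: as there with zfun_one of H55P/U7.lean. -/

theorem core (p : ℕ) (hp : p.Prime) {M : Ideal (𝓞 F)} {l : 𝓞 F} (hM : Mod p M l)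
    (K : Type) [Field K] [NumberField K] [Algebra F K] (m : ℕ)
    (hm : Module.finrank F K = m + 1) (hK : UnrP p K) (b f : Ideal (𝓞 K)) (hb : b ≠ ⊥)
    (hbp : IsCoprime b (Ideal.span {(p : 𝓞 K)})) (hf : f ≠ ⊥)
    (hfp : IsCoprime f (Ideal.span {(p : 𝓞 K)}))
    (c₀ : 𝓞 K) (hc : c₀ ∈ b) (hc' : c₀ ∉ Ideal.span {algebraMap (𝓞 F) (𝓞 K) l} * b) :
    ∃ Bad : Set (Ideal (𝓞 K)), Bad.Finite ∧
      ∀ (c : Fin (m + 1) × Fin 2 → Ideal (𝓞 K)) (q : Fin (m + 1) × Fin 2 → ℕ), Smooth c q →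
        (∀ i, c i ∉ Bad) → ∃ Z : ℂ → ℂ, AnalyticOnNhd ℂ Z {s | 1 / 2 < s.re} ∧
          (∀ T : Set (𝓞 K), Transv (mK K M * f) (XS (mK K M * f * b) c₀) T →
            ∀ s : ℂ, 3 / 2 < s.re → HasSum (fun x : T => gw c q x * nf F s (x : 𝓞 K)) (Z s)) ∧
          ∀ Ac Bc Om : ℂ, Per F Ac Bc Om → ∀ V : ValuationSubring ℂ, V.valuation (p : ℂ) < 1 →
            GoodV Ac Bc V → V.valuation (Z 1 / Om ^ (m + 1)) ≤ 1 := by
  classical
  obtain ⟨σ, hσ⟩ := emb_exists (F := F) K m hm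
  set J : Ideal (𝓞 K) := mK K M * f with hJdef
  set J' : Ideal (𝓞 K) := Ideal.span {(p : 𝓞 K)} * J with hJ'def
  obtain ⟨hJ0, hJ'0, hJ'J, hJM, hJ'p, hJ'l, hJ'pl⟩ := pc_J hp hM f hf J J' hJdef hJ'def
  obtain ⟨u, hu1, hu2, hu3, hu4⟩ := units_basis hm J' hJ'0
    (torsion_free p hp l hM.prime (pc_cop hM) J' hJ'p hJ'l)
  obtain ⟨L, hL⟩ := labels_exist hm p hp l hM.prime (pc_cop hM) b hb c₀ hc hc' u
    (fun z => hJ'pl (hu2 z))
  have hle : mK K M * f * b ≤ Ideal.span {algebraMap (𝓞 F) (𝓞 K) l} * b :=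
    Ideal.mul_mono_left (hJM.trans (pc_mK hM.le))
  have hI0 : mK K M * f * b ≠ ⊥ := mul_ne_zero hJ0 hb
  have hdir := fun (q : (Fin m → Fin (m + 1)) × Equiv.Perm (Fin m)) =>
    directions hm (fun k : Fin (m + 1) => L (kv (fun k => ((q.1 k : ℕ) : ℤ)) q.2 k))
      (labels_indep p hp l b c₀ u L hL _ _) (mK K M * f * b) hI0
  choose d hd1 hd2 hd3 using hdir
  have hp0 : (p : 𝓞 K) ≠ 0 := by exact_mod_cast hp.ne_zero
  refine ⟨(⋃ q : ((Fin m → Fin (m + 1)) × Equiv.Perm (Fin m)) × Fin (m + 1),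
    {c : Ideal (𝓞 K) | d q.1 q.2 ∈ c}) ∪ {c : Ideal (𝓞 K) | (p : 𝓞 K) ∈ c}, ?_, ?_⟩
  · refine Set.Finite.union (Set.finite_iUnion fun q => finite_ideals _ (hd2 _ _)) ?_
    exact finite_ideals _ hp0
  intro c q hcq hbad
  let D : Ctx F K m := ⟨σ, mK K M * f * b, c₀, c, q⟩
  have hD : D.Ok := ⟨hσ, fun h => hc' (hle h), hcq⟩
  have h0X : (0 : 𝓞 K) ∉ D.X := fun h => D.X_ne hD.ne h rfl
  have hp2 : ∀ i, D.p i ≠ p := by
    intro i hi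
    apply hbad i
    right
    have h1 : ((Ideal.absNorm (c i) : ℕ) : 𝓞 K) ∈ c i := Ideal.absNorm_mem _
    rw [hcq.norm i] at h1
    have h2 : q i = p := hi
    rw [h2] at h1
    exact h1
  have hact : ∀ v : (𝓞 K)ˣ, (v : 𝓞 K) - 1 ∈ J → ((v : 𝓞 K) - 1) * D.c₀ ∈ D.I :=
    fun v hv => Ideal.mul_mem_mul hv hc
  have hu : D.UOk u := ⟨fun j => hact _ (hJ'J (hu1 j)),
    fun j => norm_one D hσ hM (u j) (hJM (hJ'J (hu1 j))), delta_ne D hσ u hu4⟩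
  have hlow := labels_low D hσ p M l hM.prime hM.le b f c₀ ⟨rfl, rfl⟩ u L hL
  have hdirs : ∀ (a : Fin m → Fin (m + 1)) (π : Equiv.Perm (Fin m)),
      ∃ w', D.Dirs (fun k : Fin (m + 1) => L (kv (fun k => ((a k : ℕ) : ℤ)) π k)) w' := by
    intro a π
    refine dirs_of D hD _ (d (a, π)) (hd1 (a, π)) ?_ (hd3 (a, π)) ?_ ?_
      (labels_indep p hp l b c₀ u L hL _ _)
    · intro i j hj
      apply hbad i
      left
      exact Set.mem_iUnion.2 ⟨((a, π), j), hj⟩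
    · intro x hx k
      obtain ⟨⟨y, hy⟩, -⟩ := hlow (kv (fun k => ((a k : ℕ) : ℤ)) π k) x hx
      exact ⟨_, hy⟩
    · intro x hx k
      exact (hlow (kv (fun k => ((a k : ℕ) : ℤ)) π k) x hx).2
  obtain ⟨w, hw⟩ := hdirs (fun _ => 0) 1
  obtain ⟨G, hG⟩ := gspec_exists D hD _ w hw
  obtain ⟨Z, hZ1, hZ2, hZ3⟩ := zfun D hD u hu _ w hw G hG
  have hval := CN_value D hD u hu _ w hw G hG L hL.equi hdirs
  have hJ2 : IsCoprime J (Ideal.span {(p : 𝓞 K)}) := by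
    rw [hJdef]
    exact IsCoprime.mul_left (pe9_cop hM.cop) hfp
  obtain ⟨ν, hν, hT⟩ := prime_change p hp hK J J' hJ0 hJ2 hJ'def D.X h0X (by
    intro v hv x hx
    have h1 : (v : 𝓞 K) * x - D.c₀ = ((v : 𝓞 K) - 1) * D.c₀ + v * (x - D.c₀) := by ring
    rw [D.mem_X, h1]
    exact D.I.add_mem (hact v hv) (D.I.mul_mem_left _ hx))
  refine ⟨fun s => Z s / ν, ?_, ?_, ?_⟩
  · exact fun s hs => (hZ1 s hs).div_const
  · intro T hTT s hs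
    obtain ⟨T', hT', hφ⟩ := hT T hTT
    refine hφ (fun x => gw c q x * nf F s x) (Z s) ?_ ?_
    · intro v hv x _
      rw [pc_gw, pc_nf hσ s v (norm_one D hσ hM v (hJM hv))]
    · exact hZ2 T' hT'.sub (pc_bij h0X hT' u hu2 hu3) s hs
  · intro Ac Bc Om hper V hVp hV
    have hint := pc_CN p hp hM hK D hD b f hbp hf hfp rfl hp2 u L hL hdirs Ac Bc Om hper V hVp hV
    have hZint : V.valuation (Z 1 / Om ^ (m + 1)) ≤ 1 := by
      rcases le_total 0 (Delta (D.lm u)) with h | h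
      · rw [hZ3, abs_of_nonneg h, ← hval]
        exact hint
      · rw [hZ3, abs_of_nonpos h]
        have : (m.factorial : ℂ) * ((-Delta (D.lm u) : ℝ) : ℂ) *
            (∫ z in Set.Icc (0 : Fin m → ℝ) 1, D.Bv w G (fun _ => tt (D.lm u) z)) / Om ^ (m + 1) =
            -(CN (m + 1) D.Jv (fun a => .A (L a)) / Om ^ (m + 1)) := by
          rw [hval]
          push_cast
          ring
        rw [this, Valuation.map_neg]
        exact hint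
    have : Z 1 / (ν : ℂ) / Om ^ (m + 1) = Z 1 / Om ^ (m + 1) / ν := by
      rw [div_right_comm]
    show V.valuation (Z 1 / (ν : ℂ) / Om ^ (m + 1)) ≤ 1
    rw [this, map_div₀, val_nat p hp V hVp ν hν, div_one]
    exact hZint

theorem nopoles (p : ℕ) (hp : p.Prime) {M : Ideal (𝓞 F)} {l : 𝓞 F} (hM : Mod p M l)
    (K : Type) [Field K] [NumberField K] [Algebra F K] (m : ℕ)
    (hm : Module.finrank F K = m + 1) (b f : Ideal (𝓞 K)) (hb : b ≠ ⊥)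
    (hf : f ≠ ⊥) (c₀ : 𝓞 K) (hc : c₀ ∈ b)
    (hc' : c₀ ∉ Ideal.span {algebraMap (𝓞 F) (𝓞 K) l} * b) :
    ∃ Z : ℂ → ℂ, AnalyticOnNhd ℂ Z {s | 3 / 2 - 1 / (2 * (m + 1)) < s.re} ∧
      ∀ T : Set (𝓞 K), Transv (mK K M * f) (XS (mK K M * f * b) c₀) T →
        ∀ s : ℂ, 3 / 2 < s.re → HasSum (fun x : T => nf F s (x : 𝓞 K)) (Z s) := by
  classical
  obtain ⟨σ, hσ⟩ := emb_exists (F := F) K m hm
  set J : Ideal (𝓞 K) := mK K M * f with hJdef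
  set J' : Ideal (𝓞 K) := Ideal.span {(p : 𝓞 K)} * J with hJ'def
  obtain ⟨hJ0, hJ'0, hJ'J, hJM, hJ'p, hJ'l, hJ'pl⟩ := pc_J hp hM f hf J J' hJdef hJ'def
  obtain ⟨u, hu1, hu2, hu3, hu4⟩ := units_basis hm J' hJ'0
    (torsion_free p hp l hM.prime (pc_cop hM) J' hJ'p hJ'l)
  have hle : mK K M * f * b ≤ Ideal.span {algebraMap (𝓞 F) (𝓞 K) l} * b :=
    Ideal.mul_mono_left (hJM.trans (pc_mK hM.le))
  let D : Ctx F K m := ⟨σ, mK K M * f * b, c₀, fun _ => ⊥, fun _ => 0⟩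
  have hne : D.c₀ ∉ D.I := fun h => hc' (hle h)
  have h0X : (0 : 𝓞 K) ∉ D.X := fun h => D.X_ne hne h rfl
  have hact : ∀ v : (𝓞 K)ˣ, (v : 𝓞 K) - 1 ∈ J → ((v : 𝓞 K) - 1) * D.c₀ ∈ D.I :=
    fun v hv => Ideal.mul_mem_mul hv hc
  have hu : D.UOk u := ⟨fun j => hact _ (hJ'J (hu1 j)),
    fun j => norm_one D hσ hM (u j) (hJM (hJ'J (hu1 j))), delta_ne D hσ u hu4⟩
  have hI0 : D.I ≠ ⊥ := mul_ne_zero hJ0 hb
  obtain ⟨Z, hZ1, hZ2⟩ := zfun_one D hσ hne hI0 u hu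
  obtain ⟨ν, hν, hT⟩ := finite_change J J' hJ'0 hJ'J D.X h0X (by
    intro v hv x hx
    have h1 : (v : 𝓞 K) * x - D.c₀ = ((v : 𝓞 K) - 1) * D.c₀ + v * (x - D.c₀) := by ring
    rw [D.mem_X, h1]
    exact D.I.add_mem (hact v hv) (D.I.mul_mem_left _ hx))
  refine ⟨fun s => Z s / ν, ?_, ?_⟩
  · exact fun s hs => (hZ1 s hs).div_const
  · intro T hTT s hs
    obtain ⟨T', hT', hφ⟩ := hT T hTT
    refine hφ (fun x => nf F s x) (Z s) ?_ ?_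
    · intro v hv x _
      exact pc_nf hσ s v (norm_one D hσ hM v (hJM hv)) x
    · exact hZ2 T' hT'.sub (pc_bij h0X hT' u hu2 hu3) s hs

end H55P
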