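import Mathlib
import Pool.Agent.Lib.H55P.F0
import Pool.Agent.Lib.H55P.L1
import Pool.Agent.Lib.H55P.TD

open NumberField IsDedekindDomain

namespace H55P

open H55N
open H55B (g)

variable {F : Type} [Field F] [NumberField F] [IQ F] {K : Type} [Field K] [NumberField K]
  [Algebra F K] {m : ℕ}

/-! Chunk PT1 (M). Properties of PsiP. Models: Lib/H55N/H1.lean (Psi_ne, Psi_norm). relNorm a is coprime to M iff a is coprime to mK K M (for a <> 0): both multiplicative / check on primes: relNorm w = v^f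
(Ideal.relNorm_eq_pow_of_isMaximal), f > 0, w.under = v; w is coprime to mK K M iff M is not contained in v (mK K M <= w iff M <= comap w = v). The absolute value: |e ψ(J)|^2 = absNorm (span {ψ J}) = absNorm J by IsHecke.gen and
Nm_eq (H55P/F0.lean), absNorm (relNorm a) = absNorm a. PsiP_unit: b coprime to p: absNorm b is prime to p (absNorm_cop in H55P/L1.lean), PsiP b * conj (PsiP b) = absNorm b; both factors are algebraic integers,
so in V (see label_int), and V(absNorm b) = 1 (val_nat), so both are units. PsiP_top: Ideal.relNorm_relNorm. -/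

theorem PT1_max {R : Type} [CommRing R] (P I : Ideal R) (hP : P.IsMaximal) :
    IsCoprime P I ↔ ¬ I ≤ P := by
  rw [Ideal.isCoprime_iff_sup_eq]
  constructor
  · intro h hI
    rw [sup_eq_left.2 hI] at h
    exact hP.ne_top h
  · intro h
    refine hP.out.2 _ (lt_of_le_of_ne le_sup_left ?_)
    intro he
    apply h
    rw [he]
    exact le_sup_right

omit [IQ F] in
theorem PT1_prime (M : Ideal (𝓞 F)) (w : HeightOneSpectrum (𝓞 K)) :
    IsCoprime (Ideal.relNorm (𝓞 F) w.asIdeal) M ↔ IsCoprime w.asIdeal (mK K M) := by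
  have hwm := w.isMaximal
  have hv0 : w.asIdeal.under (𝓞 F) ≠ ⊥ := mt Ideal.eq_bot_of_comap_eq_bot w.ne_bot
  have hvp : (w.asIdeal.under (𝓞 F)).IsPrime := inferInstance
  have hvm : (w.asIdeal.under (𝓞 F)).IsMaximal := hvp.isMaximal hv0
  have hover : w.asIdeal.LiesOver (w.asIdeal.under (𝓞 F)) := ⟨rfl⟩
  rw [Ideal.relNorm_eq_pow_of_isMaximal w.asIdeal (w.asIdeal.under (𝓞 F)),
    IsCoprime.pow_left_iff (Ideal.inertiaDeg_pos w.asIdeal (𝓞 F)), PT1_max _ _ hvm, PT1_max _ _ hwm]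
  unfold mK
  rw [Ideal.map_le_iff_le_comap]

omit [IQ F] in
theorem PT1_cop (M : Ideal (𝓞 F)) (a : Ideal (𝓞 K))
    (ha : a ≠ ⊥) : IsCoprime (Ideal.relNorm (𝓞 F) a) M ↔ IsCoprime a (mK K M) := by
  induction a using UniqueFactorizationMonoid.induction_on_prime with
  | h₁ => exact absurd rfl ha
  | h₂ x hx =>
    rw [Ideal.isUnit_iff] at hx
    rw [hx, ← Ideal.one_eq_top, map_one]
    exact ⟨fun _ => isCoprime_one_left, fun _ => isCoprime_one_left⟩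
  | h₃ x p hx hp ih =>
    have h1 := PT1_prime (K := K) M ⟨p, Ideal.isPrime_of_prime hp, hp.ne_zero⟩
    simp only at h1
    rw [map_mul, IsCoprime.mul_left_iff, h1, ih hx, IsCoprime.mul_left_iff]

theorem PsiP_cop {M : Ideal (𝓞 F)} {ψ : Ideal (𝓞 F) →*₀ 𝓞 F} (h : IsHecke M ψ) (a : Ideal (𝓞 K))
    (ha : a ≠ ⊥) : IsCoprime (Ideal.relNorm (𝓞 F) a) M ↔ IsCoprime a (mK K M) := PT1_cop M a ha

theorem PsiP_ne {M : Ideal (𝓞 F)} {ψ : Ideal (𝓞 F) →*₀ 𝓞 F} (h : IsHecke M ψ) (a : Ideal (𝓞 K))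
    (ha : a ≠ ⊥) : PsiP K ψ a ≠ 0 ↔ IsCoprime a (mK K M) := by
  rw [← PsiP_cop h a ha, PsiP_apply, map_ne_zero, Ne, map_eq_zero_iff (eF F) eF_inj]
  constructor
  · intro h1
    by_contra h2
    exact h1 (h.zero _ h2)
  · intro h1 h2
    have h3 := h.gen _ h1
    rw [h2, Ideal.span_singleton_eq_bot.2 rfl] at h3
    exact ha (Ideal.relNorm_eq_bot_iff.1 h3.symm)

theorem PsiP_norm {M : Ideal (𝓞 F)} {ψ : Ideal (𝓞 F) →*₀ 𝓞 F} (h : IsHecke M ψ) (a : Ideal (𝓞 K))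
    (ha : a ≠ ⊥) (hc : IsCoprime a (mK K M)) : ‖PsiP K ψ a‖ ^ 2 = Ideal.absNorm a := by
  have h1 := (PsiP_cop h a ha).2 hc
  rw [PsiP_apply, RCLike.norm_conj, ← Nm_eq]
  unfold Nm
  rw [h.gen _ h1, Ideal.absNorm_relNorm (𝓞 F) (𝓞 K) a]

theorem PsiP_norm_le {M : Ideal (𝓞 F)} {ψ : Ideal (𝓞 F) →*₀ 𝓞 F} (h : IsHecke M ψ)
    (a : Ideal (𝓞 K)) : ‖PsiP K ψ a‖ ^ 2 ≤ Ideal.absNorm a := by
  by_cases ha : a = ⊥
  · rw [ha]
    have : PsiP K ψ ⊥ = 0 := (PsiP K ψ).map_zero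
    rw [this]
    simp
  · by_cases h3 : IsCoprime a (mK K M)
    · exact (PsiP_norm h a ha h3).le
    · have h1 : PsiP K ψ a = 0 := not_not.1 (mt (PsiP_ne h a ha).1 h3)
      rw [h1]
      simp

omit [IQ F] [NumberField F] in
theorem PT1_int (τ : 𝓞 F →+* ℂ) (y : 𝓞 F) (V : ValuationSubring ℂ) : V.valuation (τ y) ≤ 1 := by
  have h2 : IsIntegral ℤ (τ y) := map_isIntegral_int τ (RingOfIntegers.isIntegral y)
  have h3 : IsIntegral V (τ y) := h2.tower_top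
  obtain ⟨t, ht⟩ := IsIntegrallyClosed.isIntegral_iff.1 h3
  rw [← ht]
  exact V.valuation_le_one t

theorem PsiP_int (ψ : Ideal (𝓞 F) →*₀ 𝓞 F) (a : Ideal (𝓞 K)) (V : ValuationSubring ℂ) :
    V.valuation (PsiP K ψ a) ≤ 1 ∧ V.valuation ((starRingEnd ℂ) (PsiP K ψ a)) ≤ 1 := by
  rw [PsiP_apply]
  refine ⟨PT1_int ((starRingEnd ℂ).comp (eF F)) _ V, ?_⟩
  rw [Complex.conj_conj]
  exact PT1_int (eF F) _ V

theorem PsiP_unit (p : ℕ) (hp : p.Prime) {M : Ideal (𝓞 F)} {ψ : Ideal (𝓞 F) →*₀ 𝓞 F} (h : IsHecke M ψ)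
    (b : Ideal (𝓞 K)) (hb : b ≠ ⊥) (hbM : IsCoprime b (mK K M))
    (hbp : IsCoprime b (Ideal.span {(p : 𝓞 K)})) (V : ValuationSubring ℂ)
    (hV : V.valuation (p : ℂ) < 1) : V.valuation (PsiP K ψ b) = 1 ∧
      V.valuation ((starRingEnd ℂ) (PsiP K ψ b)) = 1 := by
  obtain ⟨h1, h2⟩ := PsiP_int ψ b V
  have h3 : PsiP K ψ b * (starRingEnd ℂ) (PsiP K ψ b) = (Ideal.absNorm b : ℂ) := by
    rw [Complex.mul_conj, Complex.normSq_eq_norm_sq, PsiP_norm h b hb hbM, Complex.ofReal_natCast]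
  have h4 := val_nat p hp V hV _ (absNorm_cop p hp b hbp)
  rw [← h3, map_mul] at h4
  constructor
  · refine le_antisymm h1 ?_
    by_contra hlt
    have h5 := mul_lt_one_of_nonneg_of_lt_one_left zero_le (not_le.1 hlt) h2
    rw [h4] at h5
    exact lt_irrefl _ h5
  · refine le_antisymm h2 ?_
    by_contra hlt
    have h5 := mul_lt_one_of_nonneg_of_lt_one_right h1 zero_le (not_le.1 hlt)
    rw [h4] at h5
    exact lt_irrefl _ h5

theorem PsiP_top (ψ : Ideal (𝓞 F) →*₀ 𝓞 F) (K' : Type) [Field K'] [NumberField K'] [Algebra F K']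
    [Algebra K K'] [IsScalarTower F K K'] (W : Ideal (𝓞 K')) :
    PsiP K' ψ W = PsiP K ψ (Ideal.relNorm (𝓞 K) W) := by
  rw [PsiP_apply, PsiP_apply, Ideal.relNorm_relNorm (𝓞 F) (𝓞 K) W]

/-- A Hecke character gives the data of the analytic core. η = 1 modulo M: per with x = η, y = 1, ψ(1) = 1. -/
theorem IsHecke.toMod {M : Ideal (𝓞 F)} {ψ : Ideal (𝓞 F) →*₀ 𝓞 F} (h : IsHecke M ψ) (p : ℕ)
    (hMp : IsCoprime M (Ideal.span {(p : 𝓞 F)})) : ∃ l : 𝓞 F, Mod p M l := by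
  obtain ⟨P, hP, hMP⟩ := Ideal.exists_le_maximal M h.ntop
  have hP0 : P ≠ ⊥ := by
    rintro rfl
    exact h.ne (le_bot_iff.1 hMP)
  obtain ⟨l, hl⟩ := (IsPrincipalIdealRing.principal P).principal
  have hl' : P = Ideal.span {l} := hl
  refine ⟨l, ⟨h.ne, hMp, ?_, hl' ▸ hMP, ?_⟩⟩
  · rw [hl'] at hP hP0
    rw [Ne, Ideal.span_singleton_eq_bot] at hP0
    exact (Ideal.span_singleton_prime hP0).1 hP.isPrime
  · intro η hη
    have h1 : Ideal.span {(η : 𝓞 F)} = 1 := by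
      rw [Ideal.span_singleton_eq_top.2 η.isUnit, Ideal.one_eq_top]
    have h2 : Ideal.span {(1 : 𝓞 F)} = 1 := by
      rw [Ideal.span_singleton_eq_top.2 isUnit_one, Ideal.one_eq_top]
    have h3 := h.per (η : 𝓞 F) 1 (by rw [h1]; exact isCoprime_one_left)
      (by rw [h2]; exact isCoprime_one_left) hη
    rw [h1, h2, map_one, one_mul, one_mul] at h3
    exact Units.ext h3.symm

end H55P
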