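import Mathlib
import Pool.Agent.Lib.H55P.D2
import Pool.Agent.Lib.H55P.T1

open NumberField IsDedekindDomain

namespace H55P

open H55N
open H55B (g)

variable {F : Type} [Field F] [NumberField F] [IQ F] {K : Type} [Field K] [NumberField K]
  [Algebra F K] {m : ℕ}

/-! Chunk PT2 (M). The constants of the classes; PORT of exists_kappa in Lib/H55N/H14.lean. For x in X: (x) = a b, x is prime to J = mK K M * f (at a prime w containing J: x in w b would give c₀ in w b, hp; b is coprime to J),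
so x, c₀ are coprime to mK K M and f. With N = intNorm: relNorm (x) = (N x) (Ideal.relNorm_singleton), so ψ(relNorm a) ψ(relNorm b) = ψ((N x)), and N x - N c₀ in M (intNorm_cong), so by per
ψ((N x)) N c₀ = ψ((N c₀)) N x. Hence Ψ(a) = κ' conj(e(N x)) with κ' = conj(e(ψ((N c₀))))/(conj(e(N c₀)) Ψ(b)) ; ψ((N c₀)) and N c₀ generate the same ideal, their quotient is a unit of O, so a unit at every V; Ψ(b) is a
unit at V by PsiP_unit. χ(a) χ(b) = χ((x)) = χ((c₀)) (per), ζ = χ((c₀)) χ(b)^(-1), ζ^p = 1 (val; both coprime to f). -/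

theorem PT2_norm (x : 𝓞 K) :
    embF F (Algebra.norm F (x : K)) = eF F (Algebra.intNorm (𝓞 F) (𝓞 K) x) := by
  rw [eF_apply]
  congr 1
  exact (Algebra.algebraMap_intNorm (A := 𝓞 F) (K := F) (L := K) (B := 𝓞 K) x).symm

omit [IQ F] in
theorem PT2_mK (M : Ideal (𝓞 F)) (hM : M ≠ ⊥) : mK K M ≠ ⊥ := by
  intro h
  apply hM
  unfold mK at h
  rwa [Ideal.map_eq_bot_iff_of_injective (FaithfulSMul.algebraMap_injective (𝓞 F) (𝓞 K))] at h

theorem PT2_ne (M : Ideal (𝓞 F)) (hM : M ≠ ⊤) (x : 𝓞 K)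
    (hx : IsCoprime (Ideal.span {x}) (mK K M)) : x ≠ 0 := by
  rintro rfl
  rw [Ideal.span_singleton_eq_bot.2 rfl, ← Ideal.zero_eq_bot, isCoprime_zero_left,
    Ideal.isUnit_iff] at hx
  apply hM
  have h1 : (1 : 𝓞 K) - 0 ∈ mK K M := by
    rw [hx]
    exact Submodule.mem_top
  have h2 := intNorm_cong M 1 0 h1
  rw [map_one, Algebra.intNorm_zero, sub_zero] at h2
  exact (Ideal.eq_top_iff_one M).2 h2

theorem PT2_unit (u : (𝓞 F)ˣ) (V : ValuationSubring ℂ) :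
    V.valuation ((starRingEnd ℂ) (eF F (u : 𝓞 F))) = 1 := by
  have h1 := PT1_int ((starRingEnd ℂ).comp (eF F)) (u : 𝓞 F) V
  have h2 := PT1_int ((starRingEnd ℂ).comp (eF F)) ((u⁻¹ : (𝓞 F)ˣ) : 𝓞 F) V
  have h3 : V.valuation ((starRingEnd ℂ) (eF F (u : 𝓞 F))) *
      V.valuation ((starRingEnd ℂ) (eF F ((u⁻¹ : (𝓞 F)ˣ) : 𝓞 F))) = 1 := by
    rw [← map_mul, ← map_mul, ← map_mul, u.mul_inv, map_one, map_one, map_one]
  refine le_antisymm h1 ?_
  by_contra hlt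
  have h5 := mul_lt_one_of_nonneg_of_lt_one_left zero_le (not_le.1 hlt) h2
  have h6 : V.valuation ((starRingEnd ℂ) (eF F (u : 𝓞 F))) *
      V.valuation ((starRingEnd ℂ) (eF F ((u⁻¹ : (𝓞 F)ˣ) : 𝓞 F))) < 1 := h5
  rw [h3] at h6
  exact lt_irrefl _ h6

theorem exists_kappaP (p : ℕ) (hp : p.Prime) {M : Ideal (𝓞 F)} {ψ : Ideal (𝓞 F) →*₀ 𝓞 F}
    (h : IsHecke M ψ) (hMp : IsCoprime M (Ideal.span {(p : 𝓞 F)})) (f : Ideal (𝓞 K))
    (χ : Ideal (𝓞 K) →*₀ ℂ) (hχ : PChr p f χ) (b : Ideal (𝓞 K)) (hb : b ≠ ⊥)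
    (hbc : IsCoprime b (Ideal.span {(p : 𝓞 K)} * (mK K M * f))) (c₀ : 𝓞 K) (hc : c₀ ∈ b)
    (hpr : ∀ w : HeightOneSpectrum (𝓞 K), mK K M * f ≤ w.asIdeal → c₀ ∉ w.asIdeal * b) :
    ∃ κ κ' ζ : ℂ, (∀ V : ValuationSubring ℂ, V.valuation (p : ℂ) < 1 → V.valuation κ' = 1) ∧
      ζ ^ p = 1 ∧ κ = κ' * ζ ∧
      ∀ x ∈ XS (mK K M * f * b) c₀, ∀ a : Ideal (𝓞 K), a * b = Ideal.span {x} → x ≠ 0 ∧
        (PsiP K ψ * χ) a = κ * (starRingEnd ℂ) (embF F (Algebra.norm F (x : K))) ∧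
        (PsiP K ψ * oneI f) a = κ' * (starRingEnd ℂ) (embF F (Algebra.norm F (x : K))) := by
  classical
  have hm0 : mK K M ≠ ⊥ := PT2_mK M h.ne
  have hJ0 : mK K M * f ≠ ⊥ := mul_ne_zero hm0 hχ.ne
  have hbJ : IsCoprime b (mK K M * f) := hbc.of_mul_right_right
  have hbp : IsCoprime b (Ideal.span {(p : 𝓞 K)}) := hbc.of_mul_right_left
  have hbM : IsCoprime b (mK K M) := hbJ.of_mul_right_left
  have hbf : IsCoprime b f := hbJ.of_mul_right_right
  have hcop : IsCoprime (Ideal.span {c₀}) (mK K M * f) := by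
    rw [Ideal.isCoprime_iff_sup_eq]
    by_contra hne
    obtain ⟨P, hP, hle⟩ := Ideal.exists_le_maximal _ hne
    have hPf : mK K M * f ≤ P := le_sup_right.trans hle
    have hPc : Ideal.span {c₀} ≤ P := le_sup_left.trans hle
    have hP0 : P ≠ ⊥ := by
      rintro rfl
      exact hJ0 (le_bot_iff.1 hPf)
    have hbP : ¬ b ≤ P := by
      intro h1
      rw [Ideal.isCoprime_iff_sup_eq] at hbJ
      exact hP.ne_top (top_le_iff.1 (hbJ ▸ sup_le h1 hPf))
    obtain ⟨d, hd⟩ := Ideal.dvd_iff_le.2 ((Ideal.span_singleton_le_iff_mem b).2 hc)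
    rw [hd] at hPc
    have hdP : d ≤ P := (hP.isPrime.mul_le.1 hPc).resolve_left hbP
    refine hpr ⟨P, hP.isPrime, hP0⟩ hPf ?_
    have h1 : c₀ ∈ b * d := by rw [← hd]; exact Ideal.mem_span_singleton_self _
    rw [mul_comm]
    exact Ideal.mul_mono_right hdP h1
  have hXcop : ∀ x ∈ XS (mK K M * f * b) c₀,
      IsCoprime (Ideal.span {x}) (mK K M * f) := by
    intro x hx
    have hx' : x - c₀ ∈ mK K M * f :=
      Ideal.mul_le_left (show x - c₀ ∈ mK K M * f * b from hx)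
    rw [Ideal.isCoprime_iff_exists] at hcop ⊢
    obtain ⟨i, hi, j, hj, hij⟩ := hcop
    obtain ⟨r, rfl⟩ := Ideal.mem_span_singleton.1 hi
    refine ⟨x * r, Ideal.mul_mem_right _ _ (Ideal.mem_span_singleton_self x),
      j - (x - c₀) * r, Ideal.sub_mem _ hj (Ideal.mul_mem_right _ _ hx'), ?_⟩
    linear_combination hij
  have hcM : IsCoprime (Ideal.span {c₀}) (mK K M) := hcop.of_mul_right_left
  have hc0 : c₀ ≠ 0 := PT2_ne M h.ntop c₀ hcM
  have hc0' : Ideal.span {c₀} ≠ ⊥ := fun h1 => hc0 (Ideal.span_singleton_eq_bot.1 h1)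
  have hPb : PsiP K ψ b ≠ 0 := (PsiP_ne h b hb).2 hbM
  have hχb := hχ.val b hb hbf
  have hχb0 : χ b ≠ 0 := by
    intro h0
    rw [h0, zero_pow hp.ne_zero] at hχb
    exact zero_ne_one hχb
  have hχc := hχ.val (Ideal.span {c₀}) hc0' hcop.of_mul_right_right
  have hNc := (PsiP_cop h (Ideal.span {c₀}) hc0').2 hcM
  rw [Ideal.relNorm_singleton] at hNc
  obtain ⟨nc, hnc⟩ : ∃ nc, nc = Algebra.intNorm (𝓞 F) (𝓞 K) c₀ := ⟨_, rfl⟩
  rw [← hnc] at hNc
  have hnc0 : nc ≠ 0 := by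
    rintro rfl
    have h1 := Ideal.relNorm_singleton (𝓞 F) c₀
    rw [← hnc, Ideal.span_singleton_eq_bot.2 rfl] at h1
    exact hc0' (Ideal.relNorm_eq_bot_iff.1 h1)
  obtain ⟨A, hA⟩ : ∃ A, A = (starRingEnd ℂ) (eF F (ψ (Ideal.span {nc}))) := ⟨_, rfl⟩
  obtain ⟨B, hB⟩ : ∃ B, B = (starRingEnd ℂ) (eF F nc) := ⟨_, rfl⟩
  have hB0 : B ≠ 0 := by
    rw [hB, map_ne_zero]
    exact eF_ne hnc0
  refine ⟨A / (B * PsiP K ψ b) * (χ (Ideal.span {c₀}) * (χ b)⁻¹), A / (B * PsiP K ψ b),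
    χ (Ideal.span {c₀}) * (χ b)⁻¹, ?_, ?_, rfl, ?_⟩
  · intro V hV
    have h1 := (PsiP_unit p hp h b hb hbM hbp V hV).1
    obtain ⟨u, hu⟩ := Ideal.span_singleton_eq_span_singleton.1 (h.gen _ hNc)
    have h2 : V.valuation A = V.valuation B := by
      rw [hB, ← hu, map_mul, map_mul, map_mul, PT2_unit u V, mul_one, hA]
    rw [map_div₀, map_mul, h1, mul_one, h2]
    exact div_self ((Valuation.ne_zero_iff _).2 hB0)
  · rw [mul_pow, inv_pow, hχb, hχc, inv_one, mul_one]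
  · intro x hx a hab
    have hxc := hXcop x hx
    have hxM : IsCoprime (Ideal.span {x}) (mK K M) := hxc.of_mul_right_left
    have hx0 : x ≠ 0 := PT2_ne M h.ntop x hxM
    have hx0' : Ideal.span {x} ≠ ⊥ := fun h1 => hx0 (Ideal.span_singleton_eq_bot.1 h1)
    have hxJ : x - c₀ ∈ mK K M * f :=
      Ideal.mul_le_left (show x - c₀ ∈ mK K M * f * b from hx)
    have hxm : x - c₀ ∈ mK K M := Ideal.mul_le_left hxJ
    have hxf : x - c₀ ∈ f := Ideal.mul_le_right hxJ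
    have hNx := (PsiP_cop h (Ideal.span {x}) hx0').2 hxM
    rw [Ideal.relNorm_singleton] at hNx
    have hper := h.per _ _ hNx hNc (by rw [hnc]; exact intNorm_cong M x c₀ hxm)
    have ha0 : a ≠ ⊥ := by
      rintro rfl
      apply hx0
      rw [← Ideal.span_singleton_eq_bot, ← hab]
      exact zero_mul b
    have haf : IsCoprime a f := by
      have h1 : IsCoprime (a * b) f := by rw [hab]; exact hxc.of_mul_right_right
      exact h1.of_mul_left_left
    have hPx : PsiP K ψ (Ideal.span {x}) * B = A * (starRingEnd ℂ) (embF F (Algebra.norm F (x : K))) := by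
      rw [PsiP_apply, Ideal.relNorm_singleton, hA, hB, PT2_norm, ← map_mul, ← map_mul, ← map_mul,
        ← map_mul, hper]
    have hPa : PsiP K ψ a = A / (B * PsiP K ψ b) *
        (starRingEnd ℂ) (embF F (Algebra.norm F (x : K))) := by
      have h1 : PsiP K ψ a * PsiP K ψ b = PsiP K ψ (Ideal.span {x}) := by rw [← map_mul, hab]
      rw [div_mul_eq_mul_div, ← hPx, ← h1, eq_div_iff (mul_ne_zero hB0 hPb)]
      ring
    have hχa : χ a = χ (Ideal.span {c₀}) * (χ b)⁻¹ := by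
      have h1 : χ a * χ b = χ (Ideal.span {x}) := by rw [← map_mul, hab]
      rw [hχ.per x c₀ hx0 hc0 hxc.of_mul_right_right hxf] at h1
      rw [← h1, mul_assoc, mul_inv_cancel₀ hχb0, mul_one]
    refine ⟨hx0, ?_, ?_⟩
    · show PsiP K ψ a * χ a = _
      rw [hPa, hχa]
      ring
    · show PsiP K ψ a * oneI f a = _
      have h1 : oneI f a = 1 := if_pos ⟨ha0, haf⟩
      rw [hPa, h1, mul_one]

end H55P
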