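import Mathlib
import Pool.Agent.Lib.H55N.H12
import Pool.Agent.Lib.H55N.H13

open NumberField IsDedekindDomain

namespace H55P

open H55N
open H55B (g)



/-! Chunk PCD (M). Class decomposition modulo an arbitrary ideal J. PORT of Lib/H55N/H12.lean (exists_CD; h12_cong, h12_transv, h12S, h12_finite, h12_prim, exists_rep of H11 do not use the field F:
use them, with (3) f replaced by J and (6) f by g) and Lib/H55N/H13.lean (cd_hasSum; the hypothesis J <> top replaces H13_three: a prime w with J <= w exists). -/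

/-- Data of the class decomposition modulo J: representatives b of the ideal classes prime to g, of the classes
modulo J b, and transversals modulo the units congruent to 1 modulo J. -/
structure CDJ {K : Type} [Field K] [NumberField K] (J g : Ideal (𝓞 K)) (ι : Type)
    (b : ι → Ideal (𝓞 K)) (c₀ : ι → 𝓞 K) (T : ι → Set (𝓞 K)) : Prop where
  ne : ∀ i, b i ≠ ⊥
  cop : ∀ i, IsCoprime (b i) g
  mem : ∀ i, c₀ i ∈ b i
  prim : ∀ i, ∀ w : HeightOneSpectrum (𝓞 K), J ≤ w.asIdeal → c₀ i ∉ w.asIdeal * b i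
  trans : ∀ i, Transv J (XS (J * b i) (c₀ i)) (T i)
  bij : ∀ a : Ideal (𝓞 K), a ≠ ⊥ → IsCoprime a J →
    ∃! q : Σ i, T i, a * b q.1 = Ideal.span {(q.2 : 𝓞 K)}

theorem exists_CDJ {K : Type} [Field K] [NumberField K] (J g : Ideal (𝓞 K)) (hJ : J ≠ ⊥) (hg : g ≠ ⊥)
    (hgJ : g ≤ J) (hJ1 : J ≠ ⊤) :
    ∃ (ι : Type) (_ : Fintype ι) (b : ι → Ideal (𝓞 K)) (c₀ : ι → 𝓞 K) (T : ι → Set (𝓞 K)),
      CDJ J g ι b c₀ T := by
  choose b hb hcop hcl using fun κ : ClassGroup (𝓞 K) =>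
    exists_rep g hg κ
  have hfin : ∀ κ, Finite (Quotient (h12S J (b κ))) := fun κ =>
    h12_finite _ _ hJ (hb κ)
  have hfin2 : Finite (Σ κ : ClassGroup (𝓞 K),
    Quotient (h12S J (b κ))) := inferInstance
  choose T hT using fun i : (Σ κ : ClassGroup (𝓞 K),
    Quotient (h12S J (b κ))) =>
      h12_transv J (XS (J * b i.1) (i.2.out : 𝓞 K))
  refine ⟨Σ κ : ClassGroup (𝓞 K), Quotient (h12S J (b κ)),
    Fintype.ofFinite _, fun i => b i.1, fun i => (i.2.out : 𝓞 K), T, ?_⟩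
  refine ⟨fun i => hb i.1, fun i => hcop i.1, fun i => i.2.out.2.1, fun i => i.2.out.2.2, hT, ?_⟩
  intro a ha hac
  have hκ : ∀ κ, (∃ x : 𝓞 K, a * b κ = Ideal.span {x}) →
      κ = (ClassGroup.mk0 ⟨a, mem_nonZeroDivisors_iff_ne_zero.2 ha⟩)⁻¹ := by
    rintro κ ⟨x, hx⟩
    have h1 : ClassGroup.mk0 (⟨a, mem_nonZeroDivisors_iff_ne_zero.2 ha⟩ *
        ⟨b κ, mem_nonZeroDivisors_iff_ne_zero.2 (hb κ)⟩) = 1 := by
      rw [ClassGroup.mk0_eq_one_iff]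
      exact ⟨⟨x, hx⟩⟩
    rw [map_mul, hcl κ] at h1
    exact eq_inv_of_mul_eq_one_right h1
  obtain ⟨x, hx⟩ : ∃ x : 𝓞 K, a *
      b ((ClassGroup.mk0 ⟨a, mem_nonZeroDivisors_iff_ne_zero.2 ha⟩)⁻¹) = Ideal.span {x} := by
    set κ := (ClassGroup.mk0 ⟨a, mem_nonZeroDivisors_iff_ne_zero.2 ha⟩)⁻¹ with hκd
    have h1 : ClassGroup.mk0 (⟨a, mem_nonZeroDivisors_iff_ne_zero.2 ha⟩ *
        ⟨b κ, mem_nonZeroDivisors_iff_ne_zero.2 (hb κ)⟩) = 1 := by
      rw [map_mul, hcl κ, hκd, mul_inv_cancel]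
    rw [ClassGroup.mk0_eq_one_iff] at h1
    obtain ⟨x, hx⟩ := h1.principal
    exact ⟨x, hx⟩
  generalize (ClassGroup.mk0 ⟨a, mem_nonZeroDivisors_iff_ne_zero.2 ha⟩)⁻¹ = κ at hκ hx
  have hxP := h12_prim J (b κ) a (hb κ) hac x hx
  set q := Quotient.mk (h12S J (b κ)) ⟨x, hxP⟩ with hq
  obtain ⟨u, hu⟩ : (h12S J (b κ)) ⟨x, hxP⟩ q.out :=
    (h12S J (b κ)).iseqv.symm
      (Quotient.mk_out (s := h12S J (b κ)) ⟨x, hxP⟩)
  obtain ⟨t, htT, u1, hu1, hut⟩ := (hT ⟨κ, q⟩).cover ((u : 𝓞 K) * x) hu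
  have hspan : Ideal.span {t} = Ideal.span {x} := by
    have h1 : Ideal.span {(u : 𝓞 K) * x} = Ideal.span {x} := by
      rw [mul_comm, Ideal.span_singleton_mul_right_unit u.isUnit]
    have h2 : Ideal.span {(u1 : 𝓞 K) * t} = Ideal.span {t} := by
      rw [mul_comm, Ideal.span_singleton_mul_right_unit u1.isUnit]
    rw [← h1, hut, h2]
  refine ⟨⟨⟨κ, q⟩, ⟨t, htT⟩⟩, ?_, ?_⟩
  · show a * b κ = Ideal.span {t}
    rw [hspan, hx]
  · rintro ⟨⟨κ', q'⟩, ⟨t', ht'T⟩⟩ h'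
    have h' : a * b κ' = Ideal.span {t'} := h'
    obtain rfl : κ' = κ := hκ κ' ⟨t', h'⟩
    have h2 : Ideal.span {t} = Ideal.span {t'} := by rw [hspan, ← hx, h']
    obtain ⟨v, hv⟩ := Ideal.span_singleton_eq_span_singleton.1 h2
    have hv' : t' = (v : 𝓞 K) * t := by rw [← hv, mul_comm]
    have m1 : t - (q.out : 𝓞 K) ∈ J * b κ' := (hT ⟨κ', q⟩).sub htT
    have m2 : t' - (q'.out : 𝓞 K) ∈ J * b κ' := (hT ⟨κ', q'⟩).sub ht'T
    have m3 : (v : 𝓞 K) * (q.out : 𝓞 K) - (q'.out : 𝓞 K) ∈ J * b κ' := by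
      have e1 : (v : 𝓞 K) * (q.out : 𝓞 K) - (q'.out : 𝓞 K) =
          -(v : 𝓞 K) * (t - (q.out : 𝓞 K)) + (t' - (q'.out : 𝓞 K)) := by
        rw [hv']
        ring
      rw [e1]
      exact Ideal.add_mem _ (Ideal.mul_mem_left _ _ m1) m2
    obtain rfl : q = q' := by
      have e2 : (h12S J (b κ')) q.out q'.out := ⟨v, m3⟩
      have e3 := Quotient.sound (s := h12S J (b κ')) e2
      rwa [Quotient.out_eq, Quotient.out_eq] at e3
    have m4 : ((v : 𝓞 K) - 1) * (q.out : 𝓞 K) ∈ J * b κ' := by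
      have e4 : ((v : 𝓞 K) - 1) * (q.out : 𝓞 K) = (v : 𝓞 K) * (q.out : 𝓞 K) - (q.out : 𝓞 K) := by
        ring
      rw [e4]
      exact m3
    have m5 := h12_cong J (b κ') hJ (hb κ') q.out q.out.2.1 q.out.2.2 _ m4
    have m6 := (hT ⟨κ', q⟩).uniq t htT t' ht'T v m5 hv'
    subst m6
    rfl

/-- A prime containing J. -/
theorem PCD_prime {K : Type} [Field K] [NumberField K] (J : Ideal (𝓞 K)) (hJ1 : J ≠ ⊤) :
    ∃ w : HeightOneSpectrum (𝓞 K), J ≤ w.asIdeal := by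
  by_cases hJ : J = ⊥
  · obtain ⟨w, _⟩ := H13_prime (K := K)
    exact ⟨w, hJ ▸ bot_le⟩
  obtain ⟨M, hM, hM2⟩ := Ideal.exists_le_maximal _ hJ1
  refine ⟨⟨M, hM.isPrime, ?_⟩, hM2⟩
  rintro rfl
  exact hJ (le_bot_iff.1 hM2)

/-- The ideal attached to an element. -/
theorem PCD_ex {K : Type} [Field K] [NumberField K] (J g : Ideal (𝓞 K)) (hJ1 : J ≠ ⊤)
    (ι : Type) (b : ι → Ideal (𝓞 K)) (c₀ : ι → 𝓞 K) (T : ι → Set (𝓞 K))
    (h : CDJ J g ι b c₀ T) (q : Σ i, T i) :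
    ∃ a : Ideal (𝓞 K), a * b q.1 = Ideal.span {(q.2 : 𝓞 K)} ∧ a ≠ ⊥ ∧
      IsCoprime a J := by
  obtain ⟨i, x, hx⟩ := q
  have h1 : x ∈ XS (J * b i) (c₀ i) := (h.trans i).sub hx
  have h1' : x - c₀ i ∈ J * b i := h1
  have hxb : x ∈ b i := by
    have h2 : x - c₀ i ∈ b i := Ideal.mul_le_right h1'
    have h3 := Ideal.add_mem _ h2 (h.mem i)
    simpa using h3
  have key : ∀ w : HeightOneSpectrum (𝓞 K), J ≤ w.asIdeal →
      x ∉ w.asIdeal * b i := by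
    intro w hw hxw
    apply h.prim i w hw
    have h2 : x - c₀ i ∈ w.asIdeal * b i := Ideal.mul_mono_left hw h1'
    have h3 := Ideal.sub_mem _ hxw h2
    simpa using h3
  have hx0 : x ≠ 0 := by
    rintro rfl
    obtain ⟨w, hw⟩ := PCD_prime J hJ1
    exact key w hw (Ideal.zero_mem _)
  have h3 : b i ∣ Ideal.span {x} := by
    rw [Ideal.dvd_iff_le, Ideal.span_singleton_le_iff_mem]
    exact hxb
  obtain ⟨a, ha⟩ := h3
  refine ⟨a, by rw [mul_comm]; exact ha.symm, ?_, ?_⟩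
  · rintro rfl
    apply hx0
    rw [← Ideal.span_singleton_eq_bot, ha]
    exact mul_zero _
  · have ha0 : a ≠ ⊥ := by
      rintro rfl
      apply hx0
      rw [← Ideal.span_singleton_eq_bot, ha]
      exact mul_zero _
    by_contra hc
    rw [Ideal.isCoprime_iff_sup_eq] at hc
    obtain ⟨M, hM, hM2⟩ := Ideal.exists_le_maximal _ hc
    have hM0 : M ≠ ⊥ := by
      rintro rfl
      exact ha0 (le_bot_iff.1 (le_sup_left.trans hM2))
    refine key ⟨M, hM.isPrime, hM0⟩ (le_sup_right.trans hM2) ?_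
    have h4 : x ∈ b i * a := by
      rw [← ha]
      exact Ideal.mem_span_singleton_self x
    rw [mul_comm] at h4
    exact Ideal.mul_mono_left (le_sup_left.trans hM2) h4

theorem cdj_hasSum {K : Type} [Field K] [NumberField K] (J g : Ideal (𝓞 K)) (hgJ : g ≤ J) (hJ1 : J ≠ ⊤)
    (ι : Type) [Fintype ι] (b : ι → Ideal (𝓞 K)) (c₀ : ι → 𝓞 K) (T : ι → Set (𝓞 K))
    (h : CDJ J g ι b c₀ T) (φ : Ideal (𝓞 K) → ℂ)
    (hφ : ∀ a, φ a ≠ 0 → a ≠ ⊥ ∧ IsCoprime a J) (G : ι → 𝓞 K → ℂ)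
    (hG : ∀ i, ∀ x ∈ T i, ∀ a, a * b i = Ideal.span {x} → φ a = G i x) (Z : ι → ℂ)
    (hZ : ∀ i, HasSum (fun x : T i => G i x) (Z i)) : HasSum φ (∑ i, Z i) := by
  classical
  choose A hA1 hA2 hA3 using PCD_ex J g hJ1 ι b c₀ T h
  have hinj : Function.Injective A := by
    intro q q' hq
    obtain ⟨r, _, hr2⟩ := h.bij (A q) (hA2 q) (hA3 q)
    have h1 := hr2 q (hA1 q)
    have h2 := hr2 q' (by
      show A q * b q'.1 = Ideal.span {(q'.2 : 𝓞 K)}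
      rw [hq]
      exact hA1 q')
    rw [h1, h2]
  have hran : ∀ a ∉ Set.range A, φ a = 0 := by
    intro a ha
    by_contra hne
    apply ha
    obtain ⟨h1, h2⟩ := hφ a hne
    obtain ⟨q, hq, _⟩ := h.bij a h1 h2
    refine ⟨q, ?_⟩
    have h3 : A q * b q.1 = a * b q.1 := by
      rw [hA1 q]
      exact hq.symm
    exact mul_right_cancel₀ (show b q.1 ≠ 0 from h.ne q.1) h3
  rw [← hinj.hasSum_iff hran]
  have h1 : (φ ∘ A) = fun q : Σ i, T i => ∑ i, if q.1 = i then G q.1 q.2 else 0 := by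
    funext q
    rw [Finset.sum_ite_eq Finset.univ q.1, if_pos (Finset.mem_univ _)]
    exact hG q.1 q.2 q.2.2 (A q) (hA1 q)
  rw [h1]
  refine hasSum_sum fun i _ => ?_
  have h2 : ∀ q ∉ Set.range (fun x : T i => (⟨i, x⟩ : Σ j, T j)),
      (if q.1 = i then G q.1 q.2 else 0) = 0 := by
    rintro ⟨j, x⟩ hq
    rw [if_neg]
    rintro rfl
    exact hq ⟨x, rfl⟩
  have hinj2 : Function.Injective (fun x : T i => (⟨i, x⟩ : Σ j, T j)) := by
    intro x y hxy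
    exact eq_of_heq (Sigma.mk.inj hxy).2
  rw [← hinj2.hasSum_iff h2]
  have h3 : ((fun q : Σ i, T i => if q.1 = i then G q.1 q.2 else 0) ∘
      (fun x : T i => (⟨i, x⟩ : Σ j, T j))) = fun x : T i => G i x := by
    funext x
    exact if_pos rfl
  rw [h3]
  exact hZ i

end H55P
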