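import Mathlib
import Pool.Agent.Lib.H55P.Defs

open NumberField IsDedekindDomain

namespace H55P

open H55N
open H55B (g)

variable {F : Type} [Field F] [NumberField F] [IQ F] {K : Type} [Field K] [NumberField K]
  [Algebra F K] {m : ℕ}

/-! Common facts for the density part over a general imaginary quadratic field. -/

/-- The absolute value of the norm to F. -/
noncomputable def nnF (F : Type) [Field F] [NumberField F] [IQ F] {K : Type} [Field K] [NumberField K]
    [Algebra F K] (x : 𝓞 K) : ℝ := ‖embF F (Algebra.norm F (x : K))‖

end H55P
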