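import Mathlib
import Pool.Agent.Lib.H55N.H13
import Pool.Agent.Lib.H55P.D2
import Pool.Agent.Lib.H55P.N0
import Pool.Agent.Lib.H55R.DD

open NumberField IsDedekindDomain

namespace H55P

open H55N
open H55B (g)

variable {F : Type} [Field F] [NumberField F] [IQ F] {K : Type} [Field K] [NumberField K]
  [Algebra F K] {m : ℕ}

/-! Chunk PN1 (S/M). absNorm_spanF: port of absNorm_span in H55N/H2.lean (Nm_eq in H55P/F0.lean, absNorm (span {x}) = absNorm (span {intNorm x}) by Ideal.absNorm_relNorm / relNorm_singleton). term_classF: PORT of Lib/H55R/D10.lean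
(replace emb by embF F, nn by nnF F). norm_one3: units congruent to 1 modulo 3: the norm η to F is a unit of O congruent to 1 modulo 3 (intNorm_cong with M = (3)); if η <> 1 then 9 divides Nm (η - 1)
(Nm multiplicative, Nm 3 = 9) but Nm (η - 1) = |e η - 1|^2 <= 4 (|e η| = 1), contradiction. -/

theorem pn1_norm (x : 𝓞 K) :
    eF F (Algebra.intNorm (𝓞 F) (𝓞 K) x) = embF F (Algebra.norm F (x : K)) := by
  show embF F (algebraMap (𝓞 F) F (Algebra.intNorm (𝓞 F) (𝓞 K) x)) = _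
  rw [Algebra.algebraMap_intNorm (A := 𝓞 F) (K := F) (L := K) (B := 𝓞 K)]

theorem absNorm_spanF (x : 𝓞 K) :
    (Ideal.absNorm (Ideal.span {x}) : ℝ) = nnF F x ^ 2 := by
  unfold nnF
  rw [← Ideal.absNorm_relNorm (𝓞 F), Ideal.relNorm_singleton, ← pn1_norm]
  exact Nm_eq _

theorem norm_one3 (D : Ctx F K m) (hE : Emb F D.σ) (v : (𝓞 K)ˣ)
    (hv : (v : 𝓞 K) - 1 ∈ Ideal.span {(3 : 𝓞 K)}) : ∏ i, D.σ i ((v : 𝓞 K) : K) = 1 := by
  rw [norm_eq hE, ← pn1_norm]
  obtain ⟨η, hη⟩ : ∃ η : 𝓞 F, η = Algebra.intNorm (𝓞 F) (𝓞 K) (v : 𝓞 K) := ⟨_, rfl⟩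
  rw [← hη]
  have hu : IsUnit η := by
    rw [hη]
    exact v.isUnit.map _
  have h1 : Nm η = 1 := by
    unfold Nm
    rw [Ideal.span_singleton_eq_top.2 hu]
    exact Ideal.absNorm_top
  have h2 : ‖eF F η‖ = 1 := by
    have h3 := Nm_eq η
    rw [h1, Nat.cast_one] at h3
    have h4 := norm_nonneg (eF F η)
    nlinarith
  have h3 : η - 1 ∈ Ideal.span {(3 : 𝓞 F)} := by
    have h4 := intNorm_cong (K := K) (Ideal.span {(3 : 𝓞 F)}) (v : 𝓞 K) 1 (by
      unfold mK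
      rw [Ideal.map_span, Set.image_singleton, map_ofNat]
      exact hv)
    rw [map_one, ← hη] at h4
    exact h4
  obtain ⟨y, hy⟩ := Ideal.mem_span_singleton.1 h3
  by_contra hne
  have hy0 : y ≠ 0 := by
    rintro rfl
    apply hne
    rw [mul_zero, sub_eq_zero] at hy
    rw [hy, map_one]
  have h5 := one_le_e hy0
  have h6 : eF F η - 1 = 3 * eF F y := by
    have := congrArg (eF F) hy
    rw [map_sub, map_one, map_mul, map_ofNat] at this
    exact this
  have h7 : ‖eF F η - 1‖ ≤ 2 := by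
    refine (norm_sub_le _ _).trans ?_
    rw [h2]
    norm_num
  rw [h6, norm_mul] at h7
  norm_num at h7
  linarith

theorem term_classF (f b : Ideal (𝓞 K))
    (hf : f ≠ ⊥) (hb : b ≠ ⊥) (φ : H55R.Pl K → ℂˣ) (hφ : φ ∈ H55R.RC f)
    (hbf : IsCoprime b (Ideal.span {6} * f)) (c₀ : 𝓞 K) (hc : c₀ ∈ b)
    (hp : ∀ w : HeightOneSpectrum (𝓞 K), Ideal.span {3} * f ≤ w.asIdeal → c₀ ∉ w.asIdeal * b) :
    ∃ κ : ℂ, ∀ c : H55R.Pl K, IsCoprime b c.asIdeal → ∀ x ∈ XS (Ideal.span {3} * f * b) c₀,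
      ∀ a : Ideal (𝓞 K), a * b = Ideal.span {x} → ∀ s : ℝ,
        tm (H55R.tI (Ideal.span {3} * f) φ) s a *
            (open Classical in if a ≤ c.asIdeal then 1 - (Ideal.absNorm c.asIdeal : ℂ) else 1) =
          κ * (((Ideal.absNorm b : ℝ) ^ s : ℝ) : ℂ) *
            (H55R.wt c.asIdeal x * ((nnF F x ^ (-2 * s) : ℝ) : ℂ)) := by
  classical
  have key : ∀ x ∈ XS (Ideal.span {3} * f * b) c₀, ∀ w : HeightOneSpectrum (𝓞 K),
      Ideal.span {3} * f ≤ w.asIdeal → x ∉ w.asIdeal * b := by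
    intro x hx w hw hxw
    have h1 : x - c₀ ∈ Ideal.span {3} * f * b := hx
    apply hp w hw
    have h2 : x - c₀ ∈ w.asIdeal * b := Ideal.mul_mono_left hw h1
    have h3 := Ideal.sub_mem _ hxw h2
    rwa [sub_sub_cancel] at h3
  have hc₀XS : c₀ ∈ XS (Ideal.span {3} * f * b) c₀ := by
    show c₀ - c₀ ∈ Ideal.span {3} * f * b
    rw [sub_self]
    exact Ideal.zero_mem _
  have hne : ∀ x ∈ XS (Ideal.span {3} * f * b) c₀, x ≠ 0 := by
    rintro x hx rfl
    obtain ⟨w, hw⟩ := H13_prime (K := K)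
    exact key 0 hx w (Ideal.mul_le_left.trans hw) (Ideal.zero_mem _)
  have hcop : ∀ x ∈ XS (Ideal.span {3} * f * b) c₀, ∀ a : Ideal (𝓞 K),
      a * b = Ideal.span {x} → a ≠ ⊥ ∧ IsCoprime a (Ideal.span {3} * f) := by
    intro x hx a hab
    have ha0 : a ≠ ⊥ := by
      rintro rfl
      apply hne x hx
      rw [← Ideal.span_singleton_eq_bot, ← hab]
      exact zero_mul b
    refine ⟨ha0, ?_⟩
    by_contra hc'
    rw [Ideal.isCoprime_iff_sup_eq] at hc'
    obtain ⟨M, hM, hM2⟩ := Ideal.exists_le_maximal _ hc'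
    have hM0 : M ≠ ⊥ := by
      rintro rfl
      exact ha0 (le_bot_iff.1 (le_sup_left.trans hM2))
    refine key x hx ⟨M, hM.isPrime, hM0⟩ (le_sup_right.trans hM2) ?_
    have h4 : x ∈ a * b := by
      rw [hab]
      exact Ideal.mem_span_singleton_self x
    exact Ideal.mul_mono_left (le_sup_left.trans hM2) h4
  have hbf' : IsCoprime b f := hbf.of_mul_right_right
  refine ⟨(H55R.pv φ (Ideal.span {c₀}) : ℂ) * ((H55R.pv φ b : ℂ))⁻¹, fun c hbc x hx a hab s => ?_⟩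
  obtain ⟨ha0, hac⟩ := hcop x hx a hab
  have hx0 := hne x hx
  have hc0 := hne c₀ hc₀XS
  have hxf : IsCoprime (Ideal.span {x}) f := by
    rw [← hab]
    exact hac.of_mul_right_right.mul_left hbf'
  have hxc : x - c₀ ∈ f := by
    have h1 : x - c₀ ∈ Ideal.span {3} * f * b := hx
    exact Ideal.mul_le_right (Ideal.mul_le_left h1)
  have hpv : H55R.pv φ a * H55R.pv φ b = H55R.pv φ (Ideal.span {c₀}) := by
    rw [← H55R.pv_mul φ ha0 hb, hab]
    exact hφ.2 x c₀ hx0 hc0 hxf hxc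
  have hpva : ((H55R.pv φ a : ℂˣ) : ℂ) = (H55R.pv φ (Ideal.span {c₀}) : ℂ) * ((H55R.pv φ b : ℂ))⁻¹ := by
    rw [← hpv, Units.val_mul, mul_assoc, mul_inv_cancel₀ (H55R.pv φ b).ne_zero, mul_one]
  -- norms
  have hNa : (0 : ℝ) < Ideal.absNorm a := by
    have : Ideal.absNorm a ≠ 0 := fun h => ha0 (Ideal.absNorm_eq_zero_iff.1 h)
    exact_mod_cast Nat.pos_of_ne_zero this
  have hNb : (0 : ℝ) < Ideal.absNorm b := by
    have : Ideal.absNorm b ≠ 0 := fun h => hb (Ideal.absNorm_eq_zero_iff.1 h)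
    exact_mod_cast Nat.pos_of_ne_zero this
  have hNab : (Ideal.absNorm a : ℝ) * Ideal.absNorm b = nnF F x ^ 2 := by
        rw [← absNorm_spanF (F := F), ← hab, map_mul, Nat.cast_mul]
  have hnn0 : 0 ≤ nnF F x := norm_nonneg _
  have hpow : (Ideal.absNorm a : ℝ) ^ (-s) = (Ideal.absNorm b : ℝ) ^ s * nnF F x ^ (-2 * s) := by
    have h1 : nnF F x ^ (-2 * s) = (nnF F x ^ 2) ^ (-s) := by
      rw [← Real.rpow_natCast, ← Real.rpow_mul hnn0]
      congr 1
      push_cast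
      ring
    rw [h1, ← hNab, Real.mul_rpow hNa.le hNb.le, mul_comm ((Ideal.absNorm a : ℝ) ^ (-s)),
      ← mul_assoc, ← Real.rpow_add hNb, add_neg_cancel, Real.rpow_zero, one_mul]
  have htm : tm (H55R.tI (Ideal.span {3} * f) φ) s a = (H55R.pv φ (Ideal.span {c₀}) : ℂ) * ((H55R.pv φ b : ℂ))⁻¹ *
      (((Ideal.absNorm b : ℝ) ^ s : ℝ) : ℂ) * ((nnF F x ^ (-2 * s) : ℝ) : ℂ) := by
    unfold tm
    rw [H55R.tI_apply _ φ ha0 hac, hpva]
    have h1 : (Ideal.absNorm a : ℂ) ^ (-(s : ℂ)) = (((Ideal.absNorm a : ℝ) ^ (-s) : ℝ) : ℂ) := by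
      rw [Complex.ofReal_cpow hNa.le]
      push_cast
      rfl
    rw [h1, hpow]
    push_cast
    ring
  have hwt : H55R.wt c.asIdeal x = if a ≤ c.asIdeal then 1 - (Ideal.absNorm c.asIdeal : ℂ) else 1 := by
    unfold H55R.wt
    have h1 : x ∈ c.asIdeal ↔ a ≤ c.asIdeal := by
      constructor
      · intro h
        have h2 : a * b ≤ c.asIdeal := by
          rw [hab, Ideal.span_singleton_le_iff_mem]
          exact h
        rcases c.isPrime.mul_le.1 h2 with h3 | h3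
        · exact h3
        · exfalso
          rw [Ideal.isCoprime_iff_sup_eq, sup_eq_right.2 h3] at hbc
          exact c.isPrime.ne_top hbc
      · intro h
        have h2 : x ∈ a * b := by
          rw [hab]
          exact Ideal.mem_span_singleton_self x
        exact h (Ideal.mul_le_left h2)
    simp only [h1]
  rw [htm, hwt]
  ring

end H55P
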