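import Mathlib
import Pool.Agent.Lib.H55N.H15
import Pool.Agent.Lib.H55N.H4
import Pool.Agent.Lib.H55P.CD
import Pool.Agent.Lib.H55P.N1
import Pool.Agent.Lib.H55P.T1

open NumberField IsDedekindDomain

namespace H55P

open H55N
open H55B (g)

variable {F : Type} [Field F] [NumberField F] [IQ F] {K : Type} [Field K] [NumberField K]
  [Algebra F K] {m : ℕ}

/-! Chunk PT3 (M). The series; PORT of term_eq (Lib/H55N/H15.lean; absNorm_spanF of H55P/N1.lean in place of absNorm_span) and of Coef, series_eq, series_eq0, coef_mul in Lib/H55N/TW.lean (TW_ne, TW_inj, cpow facts are reusable),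
with J = mK K M * f and CDJ in place of CD, cdj_hasSum in place of cd_hasSum. -/

/-- The hypotheses on the coefficients. -/
structure CoefP (F : Type) [Field F] [NumberField F] [IQ F] {K : Type} [Field K] [NumberField K]
    [Algebra F K] (J : Ideal (𝓞 K)) (ι : Type) (b : ι → Ideal (𝓞 K)) (c₀ : ι → 𝓞 K)
    (h : Ideal (𝓞 K) →*₀ ℂ) (κ : ι → ℂ) : Prop where
  sup : ∀ a, h a ≠ 0 → a ≠ ⊥ ∧ IsCoprime a J
  nrm : ∀ a, ‖h a‖ ^ 2 ≤ Ideal.absNorm a
  kap : ∀ i, ∀ x ∈ XS (J * b i) (c₀ i), ∀ a : Ideal (𝓞 K), a * b i = Ideal.span {x} →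
      x ≠ 0 ∧ h a = κ i * (starRingEnd ℂ) (embF F (Algebra.norm F (x : K)))

/-! General facts without the base field. -/

theorem pt3_ne {K : Type} [Field K] [NumberField K] {m : ℕ}
    {c : Fin (m + 1) × Fin 2 → Ideal (𝓞 K)} {p : Fin (m + 1) × Fin 2 → ℕ}
    (hs : Smooth c p) (i) : c i ≠ ⊥ := by
  intro h
  have h1 := hs.norm i
  rw [h, Ideal.absNorm_bot] at h1
  exact (hs.prime i).ne_zero h1.symm

theorem pt3_inj {K : Type} [Field K] [NumberField K] {m : ℕ}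
    {c : Fin (m + 1) × Fin 2 → Ideal (𝓞 K)} {p : Fin (m + 1) × Fin 2 → ℕ}
    (hs : Smooth c p) : Function.Injective c := by
  intro i j h
  apply hs.inj
  rw [← hs.norm i, ← hs.norm j, h]

open Classical in
theorem pt3_oneI_norm_le {K : Type} [Field K] [NumberField K] (f a : Ideal (𝓞 K)) :
    ‖oneI f a‖ ≤ 1 := by
  show ‖(if a ≠ ⊥ ∧ IsCoprime a f then (1 : ℂ) else 0)‖ ≤ 1
  split_ifs <;> simp

open Classical in
theorem pt3_oneI_zero {K : Type} [Field K] [NumberField K] (f a : Ideal (𝓞 K))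
    (h : ¬ IsCoprime a f) : oneI f a = 0 := by
  show (if a ≠ ⊥ ∧ IsCoprime a f then (1 : ℂ) else 0) = 0
  rw [if_neg fun h1 => h h1.2]

open Classical in
theorem pt3_oneI_eq {K : Type} [Field K] [NumberField K] (f a : Ideal (𝓞 K)) :
    oneI f a = 1 ∨ oneI f a = 0 := by
  show (if a ≠ ⊥ ∧ IsCoprime a f then (1 : ℂ) else 0) = 1 ∨
    (if a ≠ ⊥ ∧ IsCoprime a f then (1 : ℂ) else 0) = 0
  split_ifs <;> simp

theorem pt3_pow_analytic (n : ℕ) (hn : n ≠ 0) (U : Set ℂ) :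
    AnalyticOnNhd ℂ (fun s : ℂ => (n : ℂ) ^ s) U := by
  have h : (n : ℂ) ≠ 0 := Nat.cast_ne_zero.2 hn
  have h1 : (fun s : ℂ => (n : ℂ) ^ s) = fun s => Complex.exp (Complex.log n * s) := by
    funext s
    rw [Complex.cpow_def_of_ne_zero h]
  rw [h1]
  intro s _
  exact (analyticAt_const.mul analyticAt_id).cexp

theorem pt3_tm_analytic {K : Type} [Field K] [NumberField K] (h : Ideal (𝓞 K) → ℂ)
    (a : Ideal (𝓞 K)) (ha : a ≠ ⊥) (U : Set ℂ) :
    AnalyticOnNhd ℂ (fun s : ℂ => tm h s a) U := by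
  have hn : Ideal.absNorm a ≠ 0 := by
    rw [Ne, Ideal.absNorm_eq_zero_iff]
    exact ha
  have h : (Ideal.absNorm a : ℂ) ≠ 0 := Nat.cast_ne_zero.2 hn
  intro s _
  unfold tm
  have h1 : (fun s : ℂ => (Ideal.absNorm a : ℂ) ^ (-s)) =
      fun s => Complex.exp (Complex.log (Ideal.absNorm a : ℂ) * (-s)) := by
    funext s
    rw [Complex.cpow_def_of_ne_zero h]
  have h2 : AnalyticAt ℂ (fun s : ℂ => (Ideal.absNorm a : ℂ) ^ (-s)) s := by
    rw [h1]
    exact (analyticAt_const.mul analyticAt_id.neg).cexp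
  exact analyticAt_const.mul h2

open Classical in
theorem term_eqP {m : ℕ} (h : Ideal (𝓞 K) → ℂ) (κ : ℂ) (a b : Ideal (𝓞 K)) (x : 𝓞 K) (hx : x ≠ 0)
    (hab : a * b = Ideal.span {x})
    (hh : h a = κ * (starRingEnd ℂ) (embF F (Algebra.norm F (x : K)))) (s : ℂ) :
    tm h s a = κ * (Ideal.absNorm b : ℂ) ^ s * nf F s x ∧
    ∀ (c : Fin (m + 1) × Fin 2 → Ideal (𝓞 K)) (p : Fin (m + 1) × Fin 2 → ℕ),
      (∀ i, (c i).IsPrime) → (∀ i, IsCoprime b (c i)) →
      tm h s a * ∏ i, (if a ≤ c i then 1 - (p i : ℂ) else 1) =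
        κ * (Ideal.absNorm b : ℂ) ^ s * (gw c p x * nf F s x) := by
  have hx0 : Ideal.span {x} ≠ ⊥ := fun h => hx (Ideal.span_singleton_eq_bot.1 h)
  have ha0 : a ≠ ⊥ := by
    rintro rfl
    apply hx0
    rw [← hab]
    exact zero_mul b
  have hb0 : b ≠ ⊥ := by
    rintro rfl
    apply hx0
    rw [← hab]
    exact mul_zero a
  have hA : (0 : ℝ) < (Ideal.absNorm a : ℝ) := by
    have h1 : Ideal.absNorm a ≠ 0 := fun h => ha0 (Ideal.absNorm_eq_zero_iff.1 h)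
    exact_mod_cast Nat.pos_of_ne_zero h1
  have hB : (0 : ℝ) < (Ideal.absNorm b : ℝ) := by
    have h1 : Ideal.absNorm b ≠ 0 := fun h => hb0 (Ideal.absNorm_eq_zero_iff.1 h)
    exact_mod_cast Nat.pos_of_ne_zero h1
  have hAB : (Ideal.absNorm a : ℝ) * (Ideal.absNorm b : ℝ) =
      ‖embF F (Algebra.norm F (x : K))‖ ^ 2 := by
    have h1 := absNorm_spanF (F := F) x
    rw [← hab, map_mul, Nat.cast_mul] at h1
    exact h1
  set r : ℝ := ‖embF F (Algebra.norm F (x : K))‖ with hr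
  have hr0 : 0 < r := by
    have h1 : 0 ≤ r := norm_nonneg _
    have h2 : r ≠ 0 := by
      intro h3
      rw [h3] at hAB
      have : 0 < (Ideal.absNorm a : ℝ) * (Ideal.absNorm b : ℝ) := mul_pos hA hB
      rw [hAB] at this
      norm_num at this
    exact lt_of_le_of_ne h1 (Ne.symm h2)
  have hlog : Real.log (Ideal.absNorm a : ℝ) = 2 * Real.log r - Real.log (Ideal.absNorm b : ℝ) := by
    have h1 := congrArg Real.log hAB
    rw [Real.log_mul hA.ne' hB.ne', Real.log_pow] at h1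
    push_cast at h1
    linarith
  have hkey : (Ideal.absNorm a : ℂ) ^ (-s) = (Ideal.absNorm b : ℂ) ^ s * (r : ℂ) ^ (-2 * s) := by
    have e1 : (Ideal.absNorm a : ℂ) = ((Ideal.absNorm a : ℝ) : ℂ) := by push_cast; rfl
    have e2 : (Ideal.absNorm b : ℂ) = ((Ideal.absNorm b : ℝ) : ℂ) := by push_cast; rfl
    rw [e1, e2, H15_cpow hA, H15_cpow hB, H15_cpow hr0, ← Complex.exp_add, hlog]
    congr 1
    push_cast
    ring
  have hmain : tm h s a = κ * (Ideal.absNorm b : ℂ) ^ s * nf F s x := by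
    unfold tm nf H55B.g
    rw [hh, hkey]
    ring
  refine ⟨hmain, fun c p hc hbc => ?_⟩
  have hprod : ∏ i, (if a ≤ c i then 1 - (p i : ℂ) else 1) = gw c p x := by
    unfold gw
    refine Finset.prod_congr rfl fun i _ => ?_
    have hiff : a ≤ c i ↔ x ∈ c i := by
      constructor
      · intro h1
        apply h1
        have h2 : x ∈ a * b := by rw [hab]; exact Ideal.mem_span_singleton_self x
        exact Ideal.mul_le_left h2
      · intro h1
        have h2 : a * b ≤ c i := by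
          rw [hab, Ideal.span_singleton_le_iff_mem]
          exact h1
        rcases (hc i).mul_le.1 h2 with h3 | h3
        · exact h3
        · exfalso
          have h4 := Ideal.isCoprime_iff_sup_eq.1 (hbc i)
          rw [sup_eq_right.2 h3] at h4
          exact (hc i).ne_top h4
    by_cases h1 : a ≤ c i
    · rw [if_pos h1, if_pos (hiff.1 h1)]
    · rw [if_neg h1, if_neg fun h2 => h1 (hiff.2 h2)]
  rw [hprod, hmain]
  ring

theorem series_eqP {J g : Ideal (𝓞 K)} (hgJ : g ≤ J) (hJ1 : J ≠ ⊤) {ι : Type} [Fintype ι]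
    {b : ι → Ideal (𝓞 K)} {c₀ : ι → 𝓞 K}
    {T : ι → Set (𝓞 K)} (hcd : CDJ J g ι b c₀ T) {h : Ideal (𝓞 K) →*₀ ℂ} {κ : ι → ℂ}
    (hc : CoefP F J ι b c₀ h κ) {m : ℕ} {c : Fin (m + 1) × Fin 2 → Ideal (𝓞 K)}
    {p : Fin (m + 1) × Fin 2 → ℕ} (hs : Smooth c p) (hcp : ∀ i, (c i).IsPrime)
    (hbc : ∀ i j, IsCoprime (b i) (c j)) (Z : ι → ℂ → ℂ) (s : ℂ) (hre : 3 / 2 < s.re)
    (hZ : ∀ i, HasSum (fun x : T i => gw c p x * nf F s (x : 𝓞 K)) (Z i s)) :
    (∏ i, (1 - (p i : ℂ) * tm h s (c i))) * ∑' a, tm h s a =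
      ∑ i, κ i * (Ideal.absNorm (b i) : ℂ) ^ s * Z i s := by
  classical
  have hsum : Summable fun a => ‖tmH h s a‖ := tm_summable h hc.nrm s hre
  have h1 := smooth_sum (tmH h s) hsum c hcp (pt3_ne hs) (pt3_inj hs) (fun i => (p i : ℂ))
  have h2 := cdj_hasSum J g hgJ hJ1 ι b c₀ T hcd
    (fun a => tmH h s a * ∏ i, (if a ≤ c i then 1 - (p i : ℂ) else 1))
    (by
      intro a ha
      have : h a ≠ 0 := by
        intro h0
        apply ha
        show tm h s a * _ = 0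
        unfold tm
        rw [h0, zero_mul, zero_mul]
      exact hc.sup a this)
    (fun i x => κ i * (Ideal.absNorm (b i) : ℂ) ^ s * (gw c p x * nf F s x))
    (by
      intro i x hx a ha
      obtain ⟨hx0, hh⟩ := hc.kap i x ((hcd.trans i).sub hx) a ha
      have h3 := (term_eqP (m := m) h (κ i) a (b i) x hx0 ha hh s).2 c p hcp (fun j => hbc i j)
      rw [← h3]
      show tm h s a * _ = _
      congr 1)
    (fun i => κ i * (Ideal.absNorm (b i) : ℂ) ^ s * Z i s)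
    (fun i => (hZ i).mul_left _)
  exact h1.unique (by convert h2)

theorem series_eq0P {J g : Ideal (𝓞 K)} (hgJ : g ≤ J) (hJ1 : J ≠ ⊤) {ι : Type} [Fintype ι]
    {b : ι → Ideal (𝓞 K)}
    {c₀ : ι → 𝓞 K} {T : ι → Set (𝓞 K)} (hcd : CDJ J g ι b c₀ T) {h : Ideal (𝓞 K) →*₀ ℂ} {κ : ι → ℂ}
    (hc : CoefP F J ι b c₀ h κ) (Z : ι → ℂ → ℂ) (s : ℂ)
    (hZ : ∀ i, HasSum (fun x : T i => nf F s (x : 𝓞 K)) (Z i s)) :
    HasSum (tm h s) (∑ i, κ i * (Ideal.absNorm (b i) : ℂ) ^ s * Z i s) := by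
  classical
  exact cdj_hasSum J g hgJ hJ1 ι b c₀ T hcd (tm h s)
    (by
      intro a ha
      have : h a ≠ 0 := by
        intro h0
        apply ha
        unfold tm
        rw [h0, zero_mul]
      exact hc.sup a this)
    (fun i x => κ i * (Ideal.absNorm (b i) : ℂ) ^ s * nf F s x)
    (by
      intro i x hx a ha
      obtain ⟨hx0, hh⟩ := hc.kap i x ((hcd.trans i).sub hx) a ha
      exact (term_eqP (m := 0) h (κ i) a (b i) x hx0 ha hh s).1)
    (fun i => κ i * (Ideal.absNorm (b i) : ℂ) ^ s * Z i s)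
    (fun i => (hZ i).mul_left _)

theorem coef_mulP {M : Ideal (𝓞 F)} {ψ : Ideal (𝓞 F) →*₀ 𝓞 F} (hH : IsHecke M ψ)
    {f : Ideal (𝓞 K)} {ι : Type} {b : ι → Ideal (𝓞 K)} {c₀ : ι → 𝓞 K}
    {χ : Ideal (𝓞 K) →*₀ ℂ} {κ : ι → ℂ} (h0 : ∀ a, ¬ IsCoprime a f → χ a = 0)
    (h1 : ∀ a, ‖χ a‖ ≤ 1)
    (hk : ∀ i, ∀ x ∈ XS (mK K M * f * b i) (c₀ i), ∀ a : Ideal (𝓞 K),
      a * b i = Ideal.span {x} →
        x ≠ 0 ∧ (PsiP K ψ * χ) a = κ i * (starRingEnd ℂ) (embF F (Algebra.norm F (x : K)))) :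
    CoefP F (mK K M * f) ι b c₀ (PsiP K ψ * χ) κ where
  sup a ha := by
    have ha' : PsiP K ψ a * χ a ≠ 0 := ha
    have hPsi : PsiP K ψ a ≠ 0 := left_ne_zero_of_mul ha'
    have hchi : χ a ≠ 0 := right_ne_zero_of_mul ha'
    have hne : a ≠ ⊥ := by
      rintro rfl
      exact hchi (map_zero χ)
    refine ⟨hne, IsCoprime.mul_right ((PsiP_ne hH a hne).1 hPsi) ?_⟩
    by_contra h
    exact hchi (h0 a h)
  nrm a := by
    show ‖PsiP K ψ a * χ a‖ ^ 2 ≤ _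
    rw [norm_mul, mul_pow]
    have h2 := PsiP_norm_le (K := K) hH a
    have h3 : ‖χ a‖ ^ 2 ≤ 1 := pow_le_one₀ (norm_nonneg _) (h1 a)
    calc ‖PsiP K ψ a‖ ^ 2 * ‖χ a‖ ^ 2 ≤ ‖PsiP K ψ a‖ ^ 2 * 1 :=
          mul_le_mul_of_nonneg_left h3 (by positivity)
      _ = ‖PsiP K ψ a‖ ^ 2 := mul_one _
      _ ≤ _ := h2
  kap := hk

end H55P
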