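import Mathlib
import Pool.Agent.Lib.H55N.H9
import Pool.Agent.Lib.H55P.T1

open NumberField IsDedekindDomain

namespace H55P

open H55N
open H55B (g)

variable {F : Type} [Field F] [NumberField F] [IQ F]

/-! Chunk PT4 (M/L), the step of prime degree p for the Euler products; PORT of Lib/H19T/A5.lean (AI_stepT, with H9_EF, H9_norm of H55N/H9.lean). For a prime w of K, a = Ψ(w), z = χ(w), q = absNorm w. Identity of power series for a primitive
p-th root of unity z: 1 - a^p X^p = prod_{j=0}^{p-1} (1 - a z^j X) (IsPrimitiveRoot: X^p - Y^p = prod (X - z^j Y): Polynomial/IsPrimitiveRoot.pow_sub_pow_eq_prod_sub_mul). split: p factors 1/(1 - aX) at q, z = 1. inert: 1/(1 - a^p X) at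
q^p, = the product over j of 1/(1 - a z^j X) at q; z primitive since z^p = 1, z <> 1, p prime (IsPrimitiveRoot from orderOf_eq_prime). ramified: z = 0: 1/(1-aX) at q, the other factors 1. Then finite sets of primes as in A5. -/

theorem pt4_prod {R : Type} [CommRing R] [IsDomain R] {p : ℕ} (hp : 0 < p) {z : R}
    (hz : IsPrimitiveRoot z p) (y : R) : 1 - y ^ p = ∏ j ∈ Finset.range p, (1 - z ^ j * y) := by
  classical
  have h1 := hz.pow_sub_pow_eq_prod_sub_mul 1 y hp
  rw [one_pow] at h1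
  rw [h1, Polynomial.nthRootsFinset_def, hz.nthRoots_eq (one_pow p)]
  simp only [mul_one]
  have h2 : (Multiset.map (fun x => z ^ x) (Multiset.range p)).toFinset =
      (Finset.range p).image (fun x => z ^ x) := rfl
  rw [h2, Finset.prod_image]
  intro i hi j hj hij
  exact hz.pow_inj (Finset.mem_range.1 hi) (Finset.mem_range.1 hj) hij

theorem pt4_ps (a z : ℂ) (p : ℕ) (hp : 0 < p) (hz : IsPrimitiveRoot z p) :
    ((1 - PowerSeries.C (a ^ p) * PowerSeries.X ^ p)⁻¹ : PowerSeries ℂ) =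
    ∏ j ∈ Finset.range p, (1 - PowerSeries.C (a * z ^ j) * PowerSeries.X)⁻¹ := by
  symm
  apply H55B.I2_inv_unique
  · have hp' : p ≠ 0 := hp.ne'
    simp [hp']
  · have hz' : IsPrimitiveRoot (PowerSeries.C z : PowerSeries ℂ) p :=
      hz.map_of_injective (f := (PowerSeries.C : ℂ →+* PowerSeries ℂ)) PowerSeries.C_injective
    have h1 : (1 - PowerSeries.C (a ^ p) * PowerSeries.X ^ p : PowerSeries ℂ) =
        ∏ j ∈ Finset.range p, (1 - PowerSeries.C (a * z ^ j) * PowerSeries.X) := by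
      rw [map_pow, ← mul_pow, pt4_prod hp hz']
      refine Finset.prod_congr rfl fun j _ => ?_
      rw [map_mul, map_pow]
      ring
    rw [h1, ← Finset.prod_mul_distrib]
    refine Finset.prod_eq_one fun j _ => ?_
    exact PowerSeries.mul_inv_cancel _ (by simp)

theorem pt4_cu (q : ℕ) (a z : ℂ) (p : ℕ) (hp : 0 < p) (hz : IsPrimitiveRoot z p) :
    ArithmeticFunction.ofPowerSeries (q ^ p)
      ((1 - PowerSeries.C (a ^ p) * PowerSeries.X)⁻¹ : PowerSeries ℂ) =
    ∏ j ∈ Finset.range p, ArithmeticFunction.ofPowerSeries q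
      ((1 - PowerSeries.C (a * z ^ j) * PowerSeries.X)⁻¹ : PowerSeries ℂ) := by
  rw [ArithmeticFunction.ofPowerSeries_pow q hp.ne', H55B.I2_subst_inv hp.ne' _ (by simp),
    H55B.I2_subst_lin hp.ne', ← map_prod, pt4_ps a z p hp hz]

section

variable (K K' : Type) [Field K] [NumberField K] [Algebra F K] [Field K'] [NumberField K']
    [Algebra F K'] [Algebra K K'] [IsScalarTower F K K']

omit [IQ F] [Algebra F K] [Algebra F K'] [IsScalarTower F K K'] in
theorem pt4_norm (W : Ideal (𝓞 K')) :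
    Ideal.absNorm W = Ideal.absNorm (Ideal.relNorm (𝓞 K) W) := by
  rw [Ideal.absNorm_relNorm]

theorem pt4_loc (ψ : Ideal (𝓞 F) →*₀ 𝓞 F) (p : ℕ) (hp : p.Prime)
    (χ : Ideal (𝓞 K) →*₀ ℂ) (hχ : SplitP K K' p χ) (w : HeightOneSpectrum (𝓞 K)) :
    ∃ A : Finset (HeightOneSpectrum (𝓞 K')), (∀ W, W ∈ A ↔ W.asIdeal.under (𝓞 K) = w.asIdeal) ∧
      ∏ W ∈ A, H9_EF (PsiP K' ψ) W = H9_EF (PsiP K ψ) w *
        ∏ j ∈ Finset.range (p - 1), H9_EF (PsiP K ψ * chp χ j : Ideal (𝓞 K) →*₀ ℂ) w := by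
  classical
  have hmul : ∀ j, (PsiP K ψ * chp χ j : Ideal (𝓞 K) →*₀ ℂ) w.asIdeal =
      PsiP K ψ w.asIdeal * χ w.asIdeal ^ (j + 1) := by
    intro j
    rw [← chp_apply]
    rfl
  have hp1 : p - 1 + 1 = p := Nat.sub_add_cancel hp.one_le
  obtain ⟨T, hT, h⟩ := hχ w
  refine ⟨T, hT, ?_⟩
  rcases h with ⟨h1, hc, hn⟩ | ⟨h1, h1', hc, hn⟩ | ⟨h1, hc, hn⟩
  · have e1 : ∀ W ∈ T, H9_EF (PsiP K' ψ) W = H9_EF (PsiP K ψ) w := by
      intro W hW
      unfold H9_EF
      rw [PsiP_top (K := K) ψ K', pt4_norm K K', hn W hW]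
    have e2 : ∀ j ∈ Finset.range (p - 1), H9_EF (PsiP K ψ * chp χ j : Ideal (𝓞 K) →*₀ ℂ) w =
        H9_EF (PsiP K ψ) w := by
      intro j _
      unfold H9_EF
      rw [hmul, h1, one_pow, mul_one]
    rw [Finset.prod_congr rfl e1, Finset.prod_congr rfl e2, Finset.prod_const, Finset.prod_const,
      hc, Finset.card_range, ← pow_succ', hp1]
  · obtain ⟨W, rfl⟩ := Finset.card_eq_one.1 hc
    have hW := hn W (Finset.mem_singleton_self _)
    have hz : IsPrimitiveRoot (χ w.asIdeal) p := by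
      have := Fact.mk hp
      rw [← orderOf_eq_prime h1 h1']
      exact IsPrimitiveRoot.orderOf _
    rw [Finset.prod_singleton]
    have e1 : H9_EF (PsiP K' ψ) W = ∏ j ∈ Finset.range p,
        ArithmeticFunction.ofPowerSeries (Ideal.absNorm w.asIdeal)
          ((1 - PowerSeries.C (PsiP K ψ w.asIdeal * χ w.asIdeal ^ j) * PowerSeries.X)⁻¹ :
            PowerSeries ℂ) := by
      unfold H9_EF
      rw [PsiP_top (K := K) ψ K', pt4_norm K K', hW, map_pow, map_pow]
      exact pt4_cu _ _ _ p hp.pos hz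
    rw [e1]
    conv_lhs => rw [← hp1]
    rw [Finset.prod_range_succ', pow_zero, mul_one, mul_comm]
    unfold H9_EF
    refine congrArg₂ _ rfl (Finset.prod_congr rfl fun j _ => ?_)
    rw [hmul]
  · obtain ⟨W, rfl⟩ := Finset.card_eq_one.1 hc
    have hW := hn W (Finset.mem_singleton_self _)
    rw [Finset.prod_singleton]
    have e1 : H9_EF (PsiP K' ψ) W = H9_EF (PsiP K ψ) w := by
      unfold H9_EF
      rw [PsiP_top (K := K) ψ K', pt4_norm K K', hW]
    rw [e1, Finset.prod_eq_one, mul_one]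
    intro j _
    unfold H9_EF
    rw [hmul, h1, zero_pow (Nat.succ_ne_zero j), mul_zero, map_zero, zero_mul, sub_zero]
    have h2 : ((1 : PowerSeries ℂ)⁻¹) = 1 := by simp
    rw [h2, map_one]

end

theorem AI_stepP (K K' : Type) [Field K] [NumberField K] [Algebra F K] [Field K'] [NumberField K']
    [Algebra F K'] [Algebra K K'] [IsScalarTower F K K'] (ψ : Ideal (𝓞 F) →*₀ 𝓞 F) (p : ℕ) (hp : p.Prime)
    (χ : Ideal (𝓞 K) →*₀ ℂ) (hχ : SplitP K K' p χ) :
    AI (PsiP K' ψ) = AI (PsiP K ψ) *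
      ∏ j ∈ Finset.range (p - 1), AI (PsiP K ψ * chp χ j : Ideal (𝓞 K) →*₀ ℂ) := by
  classical
  choose A hA hprod using pt4_loc K K' ψ p hp χ hχ
  ext n
  have e1 : ∀ᶠ S : Finset (HeightOneSpectrum (𝓞 K)) in Filter.atTop,
      (∏ W ∈ S.biUnion A, H9_EF (PsiP K' ψ) W) n = AI (PsiP K' ψ) n := by
    have h1 := AI_euler (PsiP K' ψ) n
    have h2 : Filter.Tendsto (fun S : Finset (HeightOneSpectrum (𝓞 K)) => S.biUnion A)
        Filter.atTop Filter.atTop := by
      rw [Filter.tendsto_atTop]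
      intro T
      filter_upwards [Filter.eventually_ge_atTop (T.image (HeightOneSpectrum.under (𝓞 K)))] with S hS
      intro W hW
      rw [Finset.mem_biUnion]
      refine ⟨HeightOneSpectrum.under (𝓞 K) W, hS (Finset.mem_image_of_mem _ hW), ?_⟩
      rw [hA]
      rfl
    exact h2.eventually h1
  have e2 : ∀ h : Ideal (𝓞 K) →*₀ ℂ, ∀ᶠ S : Finset (HeightOneSpectrum (𝓞 K)) in Filter.atTop,
      ∀ m ∈ Finset.range (n + 1), (∏ w ∈ S, H9_EF h w) m = AI h m := by
    intro h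
    rw [Filter.eventually_all_finset]
    intro m _
    exact AI_euler h m
  have e3 : ∀ᶠ S : Finset (HeightOneSpectrum (𝓞 K)) in Filter.atTop,
      ∀ j ∈ Finset.range (p - 1), ∀ m ∈ Finset.range (n + 1),
        (∏ w ∈ S, H9_EF (PsiP K ψ * chp χ j : Ideal (𝓞 K) →*₀ ℂ) w) m =
          AI (PsiP K ψ * chp χ j : Ideal (𝓞 K) →*₀ ℂ) m := by
    rw [Filter.eventually_all_finset]
    intro j _
    exact e2 _
  obtain ⟨S, h1, h2, h3⟩ := (e1.and ((e2 (PsiP K ψ)).and e3)).exists
  rw [← h1, Finset.prod_biUnion, Finset.prod_congr rfl fun w _ => hprod w,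
    Finset.prod_mul_distrib, Finset.prod_comm]
  · exact H55B.I2_mul_congr (fun m hm => h2 m (Finset.mem_range.2 (by omega)))
      (H55B.I2_prod_congr _ _ _ fun j hj m hm => h3 j hj m (Finset.mem_range.2 (by omega))) n le_rfl
  · intro w _ w' _ hne
    rw [Function.onFun, Finset.disjoint_left]
    intro W hW hW'
    rw [hA] at hW hW'
    exact hne (HeightOneSpectrum.ext (hW.symm.trans hW'))

end H55P
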