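import Mathlib
import Pool.Agent.Lib.H55P.T4
import Pool.Agent.Lib.H55N.H3
import Pool.Agent.Lib.H55N.H6

open NumberField IsDedekindDomain

namespace H55P

open H55N
open H55B (g)

variable {F : Type} [Field F] [NumberField F] [IQ F]

/-! Chunk PT5 (M), the step for the L-values; PORT of Lib/H19T/A5b.lean. Λ' = Λ * prod_j Λ_j. The L-series of the product of arithmetic functions over a finset: induction with LSeriesHasSum_mul (or
ArithmeticFunction.LSeriesHasSum_mul) . Value: V multiplicative, Om^(finrank F K') = Om^(finrank F K * p), finrank F K' = finrank F K * p. chp_PChr: val: (χ^(j+1))^p = (χ^p)^(j+1). -/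

theorem PChr.norm_le {K : Type} [Field K] [NumberField K] {p : ℕ} (hp : p ≠ 0) {f : Ideal (𝓞 K)}
    {χ : Ideal (𝓞 K) →*₀ ℂ} (h : PChr p f χ) (a : Ideal (𝓞 K)) : ‖χ a‖ ≤ 1 := by
  by_cases ha : a = ⊥
  · have : χ ⊥ = 0 := χ.map_zero
    rw [ha, this, norm_zero]
    exact zero_le_one
  · by_cases hc : IsCoprime a f
    · exact (Complex.norm_eq_one_of_pow_eq_one (h.val a ha hc) hp).le
    · rw [h.zero a hc, norm_zero]
      exact zero_le_one

theorem chp_PChr {K : Type} [Field K] [NumberField K] {p : ℕ} {f : Ideal (𝓞 K)}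
    {χ : Ideal (𝓞 K) →*₀ ℂ} (h : PChr p f χ) (j : ℕ) : PChr p f (chp χ j) := by
  refine ⟨h.ne, h.cop, ?_, ?_, ?_⟩
  · intro a ha hc
    rw [chp_apply, ← pow_mul, mul_comm, pow_mul, h.val a ha hc, one_pow]
  · intro a hc
    rw [chp_apply, h.zero a hc, zero_pow (Nat.succ_ne_zero j)]
  · intro x y hx hy hc hxy
    rw [chp_apply, chp_apply, h.per x y hx hy hc hxy]

theorem pt5_prod {s : ℂ} (n : ℕ) (f : ℕ → ArithmeticFunction ℂ) (a : ℕ → ℂ)
    (h : ∀ j, j < n → LSeriesHasSum (fun k => f j k) s (a j)) :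
    LSeriesHasSum (fun k => (∏ j ∈ Finset.range n, f j) k) s (∏ j ∈ Finset.range n, a j) := by
  induction n with
  | zero =>
    rw [Finset.prod_range_zero, Finset.prod_range_zero]
    have h1 : HasSum (LSeries.term (fun k => (1 : ArithmeticFunction ℂ) k) s)
        (LSeries.term (fun k => (1 : ArithmeticFunction ℂ) k) s 1) := by
      refine hasSum_single 1 fun n hn => ?_
      rw [LSeries.term_def]
      split_ifs with h0
      · rfl
      · rw [ArithmeticFunction.one_apply_ne hn, zero_div]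
    have h2 : LSeries.term (fun k => (1 : ArithmeticFunction ℂ) k) s 1 = 1 := by
      rw [LSeries.term_def, if_neg one_ne_zero, ArithmeticFunction.one_one, Nat.cast_one,
        Complex.one_cpow, div_one]
    rw [h2] at h1
    exact h1
  | succ n ih =>
    rw [Finset.prod_range_succ, Finset.prod_range_succ]
    exact ArithmeticFunction.LSeriesHasSum_mul (ih fun j hj => h j (by omega)) (h n (by omega))

theorem LVP_of_step (K K' : Type) [Field K] [NumberField K] [Algebra F K] [Field K'] [NumberField K']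
    [Algebra F K'] [Algebra K K'] [IsScalarTower F K K'] {M : Ideal (𝓞 F)} {ψ : Ideal (𝓞 F) →*₀ 𝓞 F}
    (h : IsHecke M ψ) (p : ℕ) (hp : p.Prime) (hn : Module.finrank K K' = p)
    (f : Ideal (𝓞 K)) (χ : Ideal (𝓞 K) →*₀ ℂ) (hf : PChr p f χ) (hχ : SplitP K K' p χ)
    (V : ValuationSubring ℂ) (Om : ℂ) (h1 : LVP F V Om (PsiP K ψ))
    (h2 : ∀ j, j < p - 1 → LVP F V Om (PsiP K ψ * chp χ j : Ideal (𝓞 K) →*₀ ℂ)) :
    LVP F V Om (PsiP K' ψ) := by
  obtain ⟨Λ₁, ha1, hs1, hu1⟩ := h1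
  have h2' : ∀ j, ∃ Λ : ℂ → ℂ, j < p - 1 → AnalyticOnNhd ℂ Λ {s | 1 / 2 < s.re} ∧
      (∀ s : ℂ, 3 / 2 < s.re → HasSum (tm (PsiP K ψ * chp χ j : Ideal (𝓞 K) →*₀ ℂ) s) (Λ s)) ∧
      V.valuation (Λ 1 / Om ^ Module.finrank F K) = 1 := by
    intro j
    by_cases hj : j < p - 1
    · obtain ⟨Λ, hΛ⟩ := h2 j hj
      exact ⟨Λ, fun _ => hΛ⟩
    · exact ⟨fun _ => 0, fun h => absurd h hj⟩
  choose Λ hΛ using h2'
  have hb : ∀ j, ∀ a : Ideal (𝓞 K),
      ‖(PsiP K ψ * chp χ j : Ideal (𝓞 K) →*₀ ℂ) a‖ ^ 2 ≤ Ideal.absNorm a := by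
    intro j a
    refine le_trans ?_ (PsiP_norm_le h a)
    have h4 : (PsiP K ψ * chp χ j : Ideal (𝓞 K) →*₀ ℂ) a = PsiP K ψ a * chp χ j a := rfl
    rw [h4, norm_mul, mul_pow]
    exact mul_le_of_le_one_right (by positivity)
      (pow_le_one₀ (norm_nonneg _) ((chp_PChr hf j).norm_le hp.ne_zero a))
  refine ⟨fun s => Λ₁ s * ∏ j ∈ Finset.range (p - 1), Λ j s, fun s hs => (ha1 s hs).mul ?_,
    fun s hs => ?_, ?_⟩
  · exact Finset.analyticAt_fun_prod _ fun j hj => (hΛ j (Finset.mem_range.1 hj)).1 s hs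
  · have hsum := tm_summable (PsiP K' ψ) (fun a => PsiP_norm_le h a) s hs
    have hL := AI_LSeries (PsiP K' ψ) (PsiP K' ψ).map_zero s hsum
    have hsum1 := tm_summable (PsiP K ψ) (fun a => PsiP_norm_le h a) s hs
    have hL1 := AI_LSeries (PsiP K ψ) (PsiP K ψ).map_zero s hsum1
    have hL2 := fun j => AI_LSeries (PsiP K ψ * chp χ j : Ideal (𝓞 K) →*₀ ℂ)
      (PsiP K ψ * chp χ j : Ideal (𝓞 K) →*₀ ℂ).map_zero s
      (tm_summable (PsiP K ψ * chp χ j : Ideal (𝓞 K) →*₀ ℂ) (hb j) s hs)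
    have hL3 := pt5_prod (p - 1) (fun j => AI (PsiP K ψ * chp χ j : Ideal (𝓞 K) →*₀ ℂ))
      (fun j => Λ j s) (fun j hj => by
        have h3 := hL2 j
        rw [((hΛ j hj).2.1 s hs).tsum_eq] at h3
        exact h3)
    have hL4 := ArithmeticFunction.LSeriesHasSum_mul hL1 hL3
    rw [← AI_stepP K K' ψ p hp χ hχ] at hL4
    have h5 : ∑' a, tm (PsiP K' ψ) s a = Λ₁ s * ∏ j ∈ Finset.range (p - 1), Λ j s := by
      rw [hL.unique hL4, (hs1 s hs).tsum_eq]
    show HasSum (tm (PsiP K' ψ) s) (Λ₁ s * ∏ j ∈ Finset.range (p - 1), Λ j s)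
    rw [← h5]
    exact hsum.of_norm.hasSum
  · have h5 : Om ^ Module.finrank F K' = Om ^ Module.finrank F K *
        ∏ j ∈ Finset.range (p - 1), Om ^ Module.finrank F K := by
      rw [← Module.finrank_mul_finrank F K K', hn, pow_mul, Finset.prod_const, Finset.card_range,
        ← pow_succ', Nat.sub_add_cancel hp.one_le]
    show V.valuation ((Λ₁ 1 * ∏ j ∈ Finset.range (p - 1), Λ j 1) / Om ^ Module.finrank F K') = 1
    rw [h5, mul_div_mul_comm, ← Finset.prod_div_distrib, map_mul, hu1, one_mul, map_prod]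
    exact Finset.prod_eq_one fun j hj => (hΛ j (Finset.mem_range.1 hj)).2.2

end H55P
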