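import Mathlib
import Pool.Agent.Lib.H55N.TW2
import Pool.Agent.Lib.H55P.T1

open NumberField IsDedekindDomain

namespace H55P

open H55N
open H55B (g)

variable {F : Type} [Field F] [NumberField F] [IQ F] {K : Type} [Field K] [NumberField K]
  [Algebra F K] {m : ℕ}

/-! Chunk PT6 (S/M). Ports: one_sumP of one_sum (Lib/H55N/TW2.lean; TW2_coprime is reusable), P_neP of P_ne (Lib/H55N/TW3.lean: |q Ψ(c) χ(c) q^(-s)| = q^(3/2 - Re s) > 1 or the value is 0), factorP: 1 - q tm(Ψχ) 1 c = 1 - Ψ(c) χ(c) =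
(1 - Ψ(c)) - Ψ(c)(χ(c) - 1), and V(χ(c) - 1) < 1 (root_max) or χ(c) = 0. EfacP: if Ψ(w) <> 0: tm Ψ 1 w = Ψ(w)/absNorm w = 1/conj(Ψ(w)) (PsiP_norm), 1 - 1/c = (c - 1)/c, V(c) = 1. root_max: ζ^p = 1 implies
(ζ - 1)^p in p Z[ζ]: (ζ-1)^p = ζ^p - 1 + p(..) (add_pow_char style: exists_add_pow_prime_eq), ζ in V, so V(ζ-1)^p <= V(p) < 1. pow_max: x in V: V(1 - x) = 1 iff V(1 - x^(p^j)) = 1 (Frobenius of the residue field: (1-x)^(p^j) = 1 - x^(p^j) modulo p). -/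

theorem pt6_le {V : ValuationSubring ℂ} {x : ℂ} {n : ℕ} (hn : n ≠ 0)
    (h : V.valuation x ^ n = 1) : V.valuation x = 1 := by
  rcases lt_trichotomy (V.valuation x) 1 with h1 | h1 | h1
  · exact absurd h (ne_of_lt (pow_lt_one₀ zero_le h1 hn))
  · exact h1
  · exact absurd h (ne_of_gt (one_lt_pow₀ h1 hn))

theorem pt6_pow (p : ℕ) (hp : p.Prime) (V : ValuationSubring ℂ) (x : ℂ) (hx : V.valuation x ≤ 1) :
    ∃ r : ℂ, V.valuation r ≤ 1 ∧ (x + 1) ^ p = x ^ p + 1 + p * r := by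
  have hx' : x ∈ V := (ValuationSubring.valuation_le_one_iff V x).1 hx
  obtain ⟨r, hr⟩ := exists_add_pow_prime_eq hp (⟨x, hx'⟩ : V) 1
  refine ⟨x * r, ?_, ?_⟩
  · rw [map_mul]
    exact mul_le_one' hx ((ValuationSubring.valuation_le_one_iff V _).2 r.2)
  · have h1 := congrArg (fun z : V => (z : ℂ)) hr
    simp only [one_pow, mul_one] at h1
    have h2 : (((⟨x, hx'⟩ + 1) ^ p : V) : ℂ) = (x + 1) ^ p := rfl
    have h3 : (((⟨x, hx'⟩ : V) ^ p + 1 + (p : V) * (⟨x, hx'⟩ : V) * r : V) : ℂ) =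
        x ^ p + 1 + ((p : V) : ℂ) * x * r := rfl
    have h4 : ((p : V) : ℂ) = (p : ℂ) := by
      exact map_natCast V.subtype p
    rw [h2, h3, h4] at h1
    rw [h1, mul_assoc]

theorem root_max (p : ℕ) (hp : p.Prime) (V : ValuationSubring ℂ) (hV : V.valuation (p : ℂ) < 1) (ζ : ℂ)
    (h : ζ ^ p = 1) : V.valuation (ζ - 1) < 1 := by
  have h1 : V.valuation ζ = 1 := by
    apply pt6_le hp.ne_zero
    rw [← map_pow, h, map_one]
  have h2 : V.valuation (ζ - 1) ≤ 1 :=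
    (Valuation.map_sub _ _ _).trans (max_le h1.le (by rw [map_one]))
  obtain ⟨r, hr, h3⟩ := pt6_pow p hp V (ζ - 1) h2
  rw [sub_add_cancel, h] at h3
  have h4 : (ζ - 1) ^ p = -(p * r) := by linear_combination -h3
  by_contra hcon
  have h5 : V.valuation (ζ - 1) = 1 := le_antisymm h2 (not_lt.1 hcon)
  have h6 := congrArg V.valuation h4
  rw [map_pow, h5, one_pow, Valuation.map_neg, map_mul] at h6
  exact absurd h6.symm (ne_of_lt (lt_of_le_of_lt (mul_le_of_le_one_right' hr) hV))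

theorem pt6_pow1 (p : ℕ) (hp : p.Prime) (V : ValuationSubring ℂ) (hV : V.valuation (p : ℂ) < 1) (x : ℂ)
    (hx : V.valuation x ≤ 1) (h : V.valuation (1 - x) = 1) : V.valuation (1 - x ^ p) = 1 := by
  have h1 : V.valuation (x - 1) = 1 := by rw [← h, Valuation.map_sub_swap]
  obtain ⟨r, hr, h3⟩ := pt6_pow p hp V (x - 1) h1.le
  rw [sub_add_cancel] at h3
  have h4 : x ^ p - 1 = (p : ℂ) * r + (x - 1) ^ p := by rw [h3]; ring
  rw [Valuation.map_sub_swap, h4]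
  have h5 : V.valuation ((x - 1) ^ p) = 1 := by rw [map_pow, h1, one_pow]
  have h6 : V.valuation ((p : ℂ) * r) < 1 := by
    rw [map_mul]
    exact lt_of_le_of_lt (mul_le_of_le_one_right' hr) hV
  rw [Valuation.map_add_eq_of_lt_right _ (by rw [h5]; exact h6), h5]

theorem pow_max (p : ℕ) (hp : p.Prime) (V : ValuationSubring ℂ) (hV : V.valuation (p : ℂ) < 1) (x : ℂ)
    (hx : V.valuation x ≤ 1) (h : V.valuation (1 - x) = 1) (j : ℕ) : V.valuation (1 - x ^ p ^ j) = 1 := by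
  induction j with
  | zero => rw [pow_zero, pow_one]; exact h
  | succ j ih =>
    rw [pow_succ, pow_mul]
    refine pt6_pow1 p hp V hV _ ?_ ih
    rw [map_pow]
    exact pow_le_one₀ zero_le hx

theorem one_sumP {M : Ideal (𝓞 F)} {ψ : Ideal (𝓞 F) →*₀ 𝓞 F} (h : IsHecke M ψ) (f : Ideal (𝓞 K))
    (hf : f ≠ ⊥) :
    ∃ S : Finset (HeightOneSpectrum (𝓞 K)), (∀ w, w ∈ S ↔ f ≤ w.asIdeal) ∧
      ∀ s : ℂ, 3 / 2 < s.re →
        HasSum (tm (PsiP K ψ * oneI f : Ideal (𝓞 K) →*₀ ℂ) s)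
          ((∏ w ∈ S, (1 - tm (PsiP K ψ) s w.asIdeal)) * ∑' a, tm (PsiP K ψ) s a) := by
  classical
  have hfin : {w : HeightOneSpectrum (𝓞 K) | w.asIdeal ∣ f}.Finite := Ideal.finite_factors hf
  have hS : ∀ w, w ∈ hfin.toFinset ↔ f ≤ w.asIdeal := by
    intro w
    rw [Set.Finite.mem_toFinset]
    exact Ideal.dvd_iff_le
  refine ⟨hfin.toFinset, hS, fun s hs => ?_⟩
  set S := hfin.toFinset with hSd
  have hk : Summable fun a => ‖tmH (PsiP K ψ) s a‖ := tm_summable (PsiP K ψ) (PsiP_norm_le h) s hs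
  have h1 := smooth_sum (tmH (PsiP K ψ) s) hk (fun w : S => w.1.asIdeal) (fun w => w.1.isPrime)
    (fun w => w.1.ne_bot) (fun w w' h => Subtype.ext (HeightOneSpectrum.ext h)) (fun _ => 1)
  have h2 : (∏ w : S, (1 - 1 * (tmH (PsiP K ψ) s) w.1.asIdeal)) =
      ∏ w ∈ S, (1 - tm (PsiP K ψ) s w.asIdeal) := by
    rw [← Finset.prod_coe_sort S]
    refine Finset.prod_congr rfl fun w _ => ?_
    rw [one_mul]
    rfl
  rw [h2] at h1
  refine h1.congr_fun fun a => ?_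
  have h3 : tm (PsiP K ψ * oneI f : Ideal (𝓞 K) →*₀ ℂ) s a = tmH (PsiP K ψ) s a * oneI f a := by
    show (PsiP K ψ a * oneI f a) * (Ideal.absNorm a : ℂ) ^ (-s) =
      (PsiP K ψ a * (Ideal.absNorm a : ℂ) ^ (-s)) * oneI f a
    ring
  rw [h3]
  by_cases ha : a = ⊥
  · rw [ha]
    have h4 : tmH (PsiP K ψ) s (⊥ : Ideal (𝓞 K)) = 0 := (tmH (PsiP K ψ) s).map_zero
    rw [h4, zero_mul, zero_mul]
  · congr 1
    have h5 : oneI f a = if a ≠ ⊥ ∧ IsCoprime a f then 1 else 0 := rfl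
    rw [h5]
    by_cases hc : IsCoprime a f
    · rw [if_pos ⟨ha, hc⟩]
      symm
      refine Finset.prod_eq_one fun w _ => ?_
      rw [if_neg ((TW2_coprime a f ha S hS).1 hc w.1 w.2)]
    · rw [if_neg (fun h => hc h.2)]
      rw [TW2_coprime a f ha S hS] at hc
      push Not at hc
      obtain ⟨w, hw, haw⟩ := hc
      symm
      refine Finset.prod_eq_zero (Finset.mem_univ (⟨w, hw⟩ : S)) ?_
      rw [if_pos haw, sub_self]

theorem P_neP {M : Ideal (𝓞 F)} {ψ : Ideal (𝓞 F) →*₀ 𝓞 F} (h : IsHecke M ψ) (p : ℕ) (hp : p.Prime)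
    (f : Ideal (𝓞 K)) (χ : Ideal (𝓞 K) →*₀ ℂ) (hχ : PChr p f χ) (c : Ideal (𝓞 K)) (q : ℕ) (hq : q.Prime)
    (hc : Ideal.absNorm c = q) (s : ℂ) (hs : s.re < 3 / 2) :
    1 - (q : ℂ) * tm (PsiP K ψ * χ : Ideal (𝓞 K) →*₀ ℂ) s c ≠ 0 := by
  have hp0 : (0 : ℝ) < q := by exact_mod_cast hq.pos
  have hp1 : (1 : ℝ) < q := by exact_mod_cast hq.one_lt
  have hc0 : c ≠ ⊥ := by
    intro h
    rw [h, Ideal.absNorm_bot] at hc
    exact hq.ne_zero hc.symm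
  intro hh
  have h1 : (q : ℂ) * tm (PsiP K ψ * χ : Ideal (𝓞 K) →*₀ ℂ) s c = 1 := by linear_combination -hh
  have h2 : tm (PsiP K ψ * χ : Ideal (𝓞 K) →*₀ ℂ) s c = PsiP K ψ c * χ c * (q : ℂ) ^ (-s) := by
    unfold tm
    rw [hc]
    rfl
  rw [h2] at h1
  have h3 : PsiP K ψ c ≠ 0 := by
    intro h0
    rw [h0] at h1
    simp at h1
  have h4 : χ c ≠ 0 := by
    intro h0
    rw [h0] at h1
    simp at h1
  have h5 : ‖χ c‖ = 1 := by
    have hcop : IsCoprime c f := by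
      by_contra hn
      exact h4 (hχ.zero c hn)
    have h9 := congrArg norm (hχ.val c hc0 hcop)
    rw [norm_pow, NormOneClass.norm_one] at h9
    exact (pow_eq_one_iff_of_nonneg (norm_nonneg _) hp.ne_zero).1 h9
  have h6 : ‖PsiP K ψ c‖ ^ 2 = q := by
    rw [PsiP_norm h c hc0 ((PsiP_ne h c hc0).1 h3), hc]
  have h7 : ‖PsiP K ψ c‖ = (q : ℝ) ^ (1 / 2 : ℝ) := by
    rw [← Real.sqrt_eq_rpow, ← h6, Real.sqrt_sq (norm_nonneg _)]
  have h8 := congrArg norm h1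
  rw [norm_mul, norm_mul, norm_mul, h5, h7, NormOneClass.norm_one, Complex.norm_natCast,
    Complex.norm_natCast_cpow_of_pos hq.pos, mul_one, Complex.neg_re] at h8
  have h9 : (q : ℝ) * ((q : ℝ) ^ (1 / 2 : ℝ) * (q : ℝ) ^ (-s.re)) = (q : ℝ) ^ (3 / 2 - s.re) := by
    have h11 : (3 / 2 - s.re) = 1 + (1 / 2 + -s.re) := by ring
    rw [h11, Real.rpow_add hp0, Real.rpow_add hp0, Real.rpow_one]
  rw [h9] at h8
  have h10 : 1 < (q : ℝ) ^ (3 / 2 - s.re) := Real.one_lt_rpow hp1 (by linarith)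
  rw [h8] at h10
  exact lt_irrefl _ h10

theorem factorP (p : ℕ) (hp : p.Prime) (V : ValuationSubring ℂ) (hV : V.valuation (p : ℂ) < 1)
    (ψ : Ideal (𝓞 F) →*₀ 𝓞 F) (χ : Ideal (𝓞 K) →*₀ ℂ) (c : Ideal (𝓞 K)) (q : ℕ) (hq : q.Prime)
    (hc : Ideal.absNorm c = q) (hu : V.valuation (1 - PsiP K ψ c) = 1) (hχ : χ c ^ p = 1 ∨ χ c = 0) :
    V.valuation (1 - (q : ℂ) * tm (PsiP K ψ * χ : Ideal (𝓞 K) →*₀ ℂ) 1 c) = 1 := by
  have hq0 : (q : ℂ) ≠ 0 := by exact_mod_cast hq.ne_zero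
  have h2 : (q : ℂ) * tm (PsiP K ψ * χ : Ideal (𝓞 K) →*₀ ℂ) 1 c = PsiP K ψ c * χ c := by
    have h1 : tm (PsiP K ψ * χ : Ideal (𝓞 K) →*₀ ℂ) 1 c = PsiP K ψ c * χ c * (q : ℂ) ^ (-1 : ℂ) := by
      unfold tm
      rw [hc]
      rfl
    rw [h1, Complex.cpow_neg_one]
    field_simp
  rw [h2]
  rcases hχ with h | h
  · have h3 : 1 - PsiP K ψ c * χ c = -(PsiP K ψ c * (χ c - 1)) + (1 - PsiP K ψ c) := by ring
    rw [h3, Valuation.map_add_eq_of_lt_right, hu]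
    rw [hu, Valuation.map_neg, map_mul]
    exact lt_of_le_of_lt (mul_le_of_le_one_left' (PsiP_int ψ c V).1) (root_max p hp V hV _ h)
  · rw [h, mul_zero, sub_zero, map_one]

theorem EfacP (p : ℕ) (hp : p.Prime) (V : ValuationSubring ℂ) (hV : V.valuation (p : ℂ) < 1)
    {M : Ideal (𝓞 F)} {ψ : Ideal (𝓞 F) →*₀ 𝓞 F} (h : IsHecke M ψ) (w : HeightOneSpectrum (𝓞 K))
    (hwp : IsCoprime w.asIdeal (Ideal.span {(p : 𝓞 K)}))
    (hw : V.valuation (1 - (starRingEnd ℂ) (PsiP K ψ w.asIdeal)) = 1) :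
    V.valuation (1 - tm (PsiP K ψ) 1 w.asIdeal) = 1 := by
  by_cases h0 : PsiP K ψ w.asIdeal = 0
  · unfold tm
    rw [h0, zero_mul, sub_zero, map_one]
  · have hcop := (PsiP_ne h w.asIdeal w.ne_bot).1 h0
    have hn := PsiP_norm h w.asIdeal w.ne_bot hcop
    have hu := PsiP_unit p hp h w.asIdeal w.ne_bot hcop hwp V hV
    have hc0 : (starRingEnd ℂ) (PsiP K ψ w.asIdeal) ≠ 0 := by
      rw [Ne, map_eq_zero]
      exact h0
    have hN : (Ideal.absNorm w.asIdeal : ℂ) =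
        PsiP K ψ w.asIdeal * (starRingEnd ℂ) (PsiP K ψ w.asIdeal) := by
      rw [Complex.mul_conj, Complex.normSq_eq_norm_sq, hn]
      push_cast
      rfl
    have h1 : 1 - tm (PsiP K ψ) 1 w.asIdeal =
        -((1 - (starRingEnd ℂ) (PsiP K ψ w.asIdeal)) / (starRingEnd ℂ) (PsiP K ψ w.asIdeal)) := by
      unfold tm
      rw [Complex.cpow_neg_one, hN]
      field_simp
      ring
    rw [h1, Valuation.map_neg, map_div₀, hw, hu.2, div_one]

end H55P
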