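import Mathlib
import Pool.Agent.Lib.H55P.U3
import Pool.Agent.Lib.H55P.U4
import Pool.Agent.Lib.H55R.DD

open NumberField IsDedekindDomain

namespace H55P

open H55N
open H55B (g)

variable {F : Type} [Field F] [NumberField F] [IQ F] {K : Type} [Field K] [NumberField K]
  [Algebra F K] {m : ℕ}

/-! Chunk PN2 (M), PORT of Lib/H55R/D11.lean (cube_bdd), with Ctx F K m, Emb F and the files H55P/U3, U4, B2 in place of H55N. -/

theorem pn2_dif {M : Type} [AddCommGroup M] (w : M) (h : M → ℂ) (x : M) :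
    Dif (fun _ : Unit => -w) Finset.univ h x = h x - h (x + w) := by
  unfold Dif
  have h1 : (Finset.univ : Finset Unit).powerset = {∅, {()}} := by decide
  rw [h1, Finset.sum_pair (by decide)]
  simp only [Finset.card_empty, pow_zero, Finset.sum_empty, sub_zero, one_mul,
    Finset.card_singleton, pow_one, Finset.sum_singleton, sub_neg_eq_add]
  ring

theorem cube_bddF (D : Ctx F K m)
    (hE : Emb F D.σ) (h0 : D.c₀ ∉ D.I) (c : Ideal (𝓞 K)) (hc : c ≠ ⊥) (hcI : IsCoprime D.I c)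
    (a b : ℝ) (ha : 0 < a) :
    ∃ C : ℝ, ∀ t : Fin (m + 1) → ℝ, (∀ i, a ≤ t i ∧ t i ≤ b) → ∀ s ∈ Set.Ioc (3 / 2 : ℝ) (5 / 2),
      ‖∑' x : D.X, H55R.wt c (x : 𝓞 K) * ((‖D.fs t (s : ℂ) (x : 𝓞 K)‖ : ℝ) : ℂ)‖ ≤ C := by
  classical
  have hfin : Finite (𝓞 K ⧸ c) := Ideal.finiteQuotientOfFreeOfNeBot c hc
  have hft := Fintype.ofFinite (𝓞 K ⧸ c)
  have hq : Fintype.card (𝓞 K ⧸ c) = Ideal.absNorm c := by
    rw [Ideal.absNorm_apply, Submodule.cardQuot_apply, Nat.card_eq_fintype_card]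
  have hr : ∀ k : 𝓞 K ⧸ c, ∃ r ∈ D.I, Ideal.Quotient.mk c r = k := by
    intro k
    obtain ⟨y, rfl⟩ := Ideal.Quotient.mk_surjective k
    obtain ⟨i, hi, j, hj, hij⟩ := Ideal.isCoprime_iff_exists.1 hcI
    refine ⟨i * y, D.I.mul_mem_right _ hi, ?_⟩
    rw [Ideal.Quotient.eq]
    have h1 : i * y - y = -(j * y) := by linear_combination y * hij
    rw [h1]
    exact c.neg_mem (c.mul_mem_right _ hj)
  choose r hrI hrk using hr
  choose Ck hCk0 hCk using fun k => U4_bound (ι := Unit) D hE D.I h0 (fun _ => -r k)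
    (fun _ => D.I.neg_mem (hrI k)) a b ha (3 / 2) (5 / 2) (by norm_num)
  obtain ⟨e, he⟩ : ∃ e : ℝ, e = U4_e m (Fintype.card Unit) (3 / 2) := ⟨_, rfl⟩
  have he2 : 2 * (m + 1 : ℝ) < e := by
    rw [he]
    unfold U4_e
    rw [Fintype.card_unit]
    push_cast
    linarith
  have hsz := sum_sz D hE e he2
  -- the bijection
  let Y : Set (𝓞 K) := {x | x ∈ D.X ∧ x ∈ c}
  let E : Y × (𝓞 K ⧸ c) → D.X := fun p => ⟨(p.1 : 𝓞 K) + r p.2, D.X_add p.1.2.1 (hrI p.2)⟩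
  have hmk : ∀ y : Y, Ideal.Quotient.mk c (y : 𝓞 K) = 0 := fun y =>
    Ideal.Quotient.eq_zero_iff_mem.2 y.2.2
  have hE' : Function.Bijective E := by
    constructor
    · rintro ⟨y, k⟩ ⟨y', k'⟩ h
      have h1 : (y : 𝓞 K) + r k = (y' : 𝓞 K) + r k' := congrArg Subtype.val h
      have h2 : k = k' := by
        have h3 := congrArg (Ideal.Quotient.mk c) h1
        rwa [map_add, map_add, hmk, hmk, hrk, hrk, zero_add, zero_add] at h3
      subst h2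
      have h3 : y = y' := Subtype.ext (add_right_cancel h1)
      rw [h3]
    · rintro ⟨x, hx⟩
      have h1 : x - r (Ideal.Quotient.mk c x) ∈ c := by
        rw [← Ideal.Quotient.eq, hrk]
      refine ⟨(⟨x - r (Ideal.Quotient.mk c x), D.X_sub hx (hrI _), h1⟩, Ideal.Quotient.mk c x), ?_⟩
      apply Subtype.ext
      show x - r (Ideal.Quotient.mk c x) + r (Ideal.Quotient.mk c x) = x
      ring
  let E' : Y × (𝓞 K ⧸ c) ≃ D.X := Equiv.ofBijective E hE'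
  have hwt : ∀ p : Y × (𝓞 K ⧸ c), H55R.wt c ((E p : 𝓞 K)) =
      if p.2 = 0 then 1 - (Ideal.absNorm c : ℂ) else 1 := by
    rintro ⟨y, k⟩
    have h1 : (y : 𝓞 K) + r k ∈ c ↔ k = 0 := by
      rw [← Ideal.Quotient.eq_zero_iff_mem, map_add, hmk, hrk, zero_add]
    show (if (y : 𝓞 K) + r k ∈ c then 1 - (Ideal.absNorm c : ℂ) else 1) = _
    by_cases h : k = 0
    · rw [if_pos (h1.2 h), if_pos h]
    · rw [if_neg (fun h' => h (h1.1 h')), if_neg h]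
  refine ⟨(∑ k, (Ck k + Ck 0)) * ∑' x : 𝓞 K, D.sz x ^ (-e), ?_⟩
  intro t ht s hs
  obtain ⟨hs1, hs2⟩ := hs
  have hsum := fs_summable D hE h0 t (fun i => ha.trans_le (ht i).1) (s : ℂ)
    (by rw [Complex.ofReal_re]; exact hs1)
  let H : 𝓞 K → ℝ := fun x => ‖D.fs t (s : ℂ) x‖
  have hdiff : ∀ k, ∀ y : Y, |H ((y : 𝓞 K) + r k) - H y| ≤ Ck k * D.sz (y : 𝓞 K) ^ (-e) := by
    intro k y
    have h1 := hCk k t ht (s : ℂ) (by rw [Complex.ofReal_re]; exact hs1.le)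
      (by rw [Complex.norm_real, Real.norm_of_nonneg (by linarith)]; exact hs2) y y.2.1
    rw [pn2_dif, ← he] at h1
    refine le_trans ?_ h1
    rw [norm_sub_rev]
    exact abs_norm_sub_norm_le _ _
  have hS : Summable fun x : D.X => H55R.wt c (x : 𝓞 K) * ((H (x : 𝓞 K) : ℝ) : ℂ) := by
    refine Summable.of_norm_bounded (hsum.mul_left (1 + (Ideal.absNorm c : ℝ))) fun x => ?_
    rw [norm_mul, Complex.norm_real, Real.norm_of_nonneg (norm_nonneg _)]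
    refine mul_le_mul_of_nonneg_right ?_ (norm_nonneg _)
    unfold H55R.wt
    split_ifs
    · refine (norm_sub_le _ _).trans ?_
      rw [NormOneClass.norm_one, Complex.norm_natCast]
    · rw [NormOneClass.norm_one]
      have : (0 : ℝ) ≤ Ideal.absNorm c := Nat.cast_nonneg _
      linarith
  have hS2 : Summable fun p : Y × (𝓞 K ⧸ c) => H55R.wt c ((E' p : D.X) : 𝓞 K) *
      ((H ((E' p : D.X) : 𝓞 K) : ℝ) : ℂ) := (Equiv.summable_iff E').2 hS
  have h1 : ∑' x : D.X, H55R.wt c (x : 𝓞 K) * ((H (x : 𝓞 K) : ℝ) : ℂ) =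
      ∑' y : Y, ∑ k, ((H ((y : 𝓞 K) + r k) - H ((y : 𝓞 K) + r 0) : ℝ) : ℂ) := by
    rw [← Equiv.tsum_eq E', hS2.tsum_prod]
    refine tsum_congr fun y => ?_
    rw [tsum_fintype]
    have h2 : ∀ k : 𝓞 K ⧸ c, H55R.wt c ((E' (y, k) : D.X) : 𝓞 K) * ((H ((E' (y, k) : D.X) : 𝓞 K) : ℝ) : ℂ) =
        ((H ((y : 𝓞 K) + r k) : ℝ) : ℂ) -
          if k = 0 then (Ideal.absNorm c : ℂ) * ((H ((y : 𝓞 K) + r 0) : ℝ) : ℂ) else 0 := by
      intro k
      have h3 := hwt (y, k)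
      have h4 : H55R.wt c ((E' (y, k) : D.X) : 𝓞 K) = if k = 0 then 1 - (Ideal.absNorm c : ℂ) else 1 := h3
      rw [h4]
      have h5 : ((E' (y, k) : D.X) : 𝓞 K) = (y : 𝓞 K) + r k := rfl
      rw [h5]
      by_cases h : k = 0
      · rw [if_pos h, if_pos h, h]
        ring
      · rw [if_neg h, if_neg h]
        ring
    rw [Finset.sum_congr rfl fun k _ => h2 k, Finset.sum_sub_distrib, Finset.sum_ite_eq',
      if_pos (Finset.mem_univ _)]
    push_cast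
    rw [Finset.sum_sub_distrib, Finset.sum_const, Finset.card_univ, hq, nsmul_eq_mul]
  have hbd : ∀ y : Y, ‖∑ k, ((H ((y : 𝓞 K) + r k) - H ((y : 𝓞 K) + r 0) : ℝ) : ℂ)‖ ≤
      (∑ k, (Ck k + Ck 0)) * D.sz (y : 𝓞 K) ^ (-e) := by
    intro y
    rw [Finset.sum_mul]
    refine (norm_sum_le _ _).trans (Finset.sum_le_sum fun k _ => ?_)
    rw [Complex.norm_real, Real.norm_eq_abs, add_mul]
    have h2 := hdiff k y
    have h3 := hdiff 0 y
    rw [abs_le] at h2 h3 ⊢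
    constructor <;> linarith [h2.1, h2.2, h3.1, h3.2]
  have hszY : Summable fun y : Y => D.sz (y : 𝓞 K) ^ (-e) :=
    hsz.comp_injective Subtype.val_injective
  have hszY' := hszY.mul_left (∑ k, (Ck k + Ck 0))
  have hC0 : 0 ≤ ∑ k, (Ck k + Ck 0) := Finset.sum_nonneg fun k _ => add_nonneg (hCk0 k) (hCk0 0)
  calc ‖∑' x : D.X, H55R.wt c (x : 𝓞 K) * ((‖D.fs t (s : ℂ) (x : 𝓞 K)‖ : ℝ) : ℂ)‖
      = ‖∑' y : Y, ∑ k, ((H ((y : 𝓞 K) + r k) - H ((y : 𝓞 K) + r 0) : ℝ) : ℂ)‖ := by rw [← h1]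
    _ ≤ ∑' y : Y, (∑ k, (Ck k + Ck 0)) * D.sz (y : 𝓞 K) ^ (-e) :=
        tsum_of_norm_bounded hszY'.hasSum hbd
    _ = (∑ k, (Ck k + Ck 0)) * ∑' y : Y, D.sz (y : 𝓞 K) ^ (-e) := tsum_mul_left
    _ ≤ (∑ k, (Ck k + Ck 0)) * ∑' x : 𝓞 K, D.sz x ^ (-e) := by
        refine mul_le_mul_of_nonneg_left ?_ hC0
        exact hsz.tsum_subtype_le _ _ (fun x => Real.rpow_nonneg (D.sz_pos x).le _)

end H55P
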