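import Mathlib
import Pool.Agent.Lib.H55P.D3
import Pool.Agent.Lib.H55P.N1
import Pool.Agent.Lib.H55P.N2
import Pool.Agent.Lib.H55R.D12

open NumberField IsDedekindDomain

namespace H55P

open H55N
open H55B (g)

variable {F : Type} [Field F] [NumberField F] [IQ F] {K : Type} [Field K] [NumberField K]
  [Algebra F K] {m : ℕ}

/-! Chunk PN3 (M/L), PORT of Lib/H55R/D12.lean (class_bdd). J = (3) f, J' = (2) J c; units_basis of H55P/D1.lean with htf = H55N.D1_six (H55N/D1.lean; J' <= (6)); norm_one3 in place of norm_one (J <= (3));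
delta_ne, finite_change, unfold, fs_summable, uu_act of H55P; Z3_bij of H55N/Core.lean has [Algebra F K] of the old F: copy it (it does not use F) as pn3_bij. -/

theorem pn3_fin (F : Type) [Field F] [NumberField F] {K : Type} [Field K] [NumberField K]
    [Algebra F K] : ∃ m : ℕ, Module.finrank F K = m + 1 := by
  have : IsScalarTower ℚ F K := IsScalarTower.of_algebraMap_eq' (Subsingleton.elim _ _)
  have : Module.Finite F K := Module.Finite.of_restrictScalars_finite ℚ F K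
  have h : 0 < Module.finrank F K := Module.finrank_pos
  exact ⟨Module.finrank F K - 1, by omega⟩

omit [Algebra F K] in
theorem pn3_bij {J' : Ideal (𝓞 K)} {X T : Set (𝓞 K)} (h0 : (0 : 𝓞 K) ∉ X) (hT : Transv J' X T)
    (u : Fin m → (𝓞 K)ˣ) (hu2 : ∀ z, (uu u z : 𝓞 K) - 1 ∈ J')
    (hu3 : ∀ v : (𝓞 K)ˣ, (v : 𝓞 K) - 1 ∈ J' → ∃! z : Fin m → ℤ, v = uu u z) :
    ∀ x ∈ X, ∃! q : (Fin m → ℤ) × T, x = (uu u q.1 : 𝓞 K) * q.2 := by
  intro x hx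
  obtain ⟨r, hr, v, hv, hxv⟩ := hT.cover x hx
  obtain ⟨z, hz, hzu⟩ := hu3 v hv
  refine ⟨(z, ⟨r, hr⟩), ?_, ?_⟩
  · simp only
    rw [← hz]
    exact hxv
  · rintro ⟨z', r'⟩ h'
    simp only at h'
    have e1 : (r' : 𝓞 K) = (((uu u z')⁻¹ * v : (𝓞 K)ˣ) : 𝓞 K) * r := by
      rw [Units.val_mul, mul_assoc, ← hxv, h', Units.inv_mul_cancel_left]
    have e2 : (((uu u z')⁻¹ * v : (𝓞 K)ˣ) : 𝓞 K) - 1 ∈ J' := by
      have e3 : (((uu u z')⁻¹ * v : (𝓞 K)ˣ) : 𝓞 K) - 1 =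
          (((uu u z')⁻¹ : (𝓞 K)ˣ) : 𝓞 K) * (((v : 𝓞 K) - 1) - ((uu u z' : 𝓞 K) - 1)) := by
        have e4 : (((uu u z')⁻¹ : (𝓞 K)ˣ) : 𝓞 K) * (uu u z' : 𝓞 K) = 1 := Units.inv_mul _
        rw [Units.val_mul]
        linear_combination e4
      rw [e3]
      exact J'.mul_mem_left _ (J'.sub_mem hv (hu2 z'))
    have e5 : (r' : 𝓞 K) = r := hT.uniq r hr r' r'.2 _ e2 e1
    have hr0 : r ≠ 0 := by
      rintro rfl
      exact h0 (hT.sub hr)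
    have e6 : v = uu u z' := by
      apply Units.ext
      rw [e5, hxv] at h'
      exact mul_right_cancel₀ hr0 h'
    have e7 : z' = z := hzu z' e6
    subst e7
    congr 1
    exact Subtype.ext e5

theorem pn3_N (D : Ctx F K m) (hσ : Emb F D.σ) (x : 𝓞 K) :
    D.N x = embF F (Algebra.norm F (x : K)) := norm_eq hσ _

theorem pn3_nn (D : Ctx F K m) (hσ : Emb F D.σ) (x : 𝓞 K) : nnF F x = ‖D.N x‖ := by
  rw [pn3_N D hσ]
  rfl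

theorem pn3_Nmul (D : Ctx F K m) (u x : 𝓞 K) : D.N (u * x) = D.N u * D.N x := by
  unfold Ctx.N
  rw [← Finset.prod_mul_distrib]
  refine Finset.prod_congr rfl fun i _ => ?_
  rw [← map_mul]
  rfl

theorem pn3_N_ne (D : Ctx F K m) {x : 𝓞 K} (hx : x ≠ 0) : D.N x ≠ 0 := by
  unfold Ctx.N
  refine Finset.prod_ne_zero_iff.2 fun i _ => ?_
  rw [Ne, map_eq_zero]
  exact fun h => hx (RingOfIntegers.coe_eq_zero_iff.1 h)

theorem pn3_Q_pos (D : Ctx F K m) (t : Fin (m + 1) → ℝ) (ht : ∀ i, 0 < t i) {x : 𝓞 K} (hx : x ≠ 0) :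
    0 < D.Q t x := by
  unfold Ctx.Q
  refine Finset.sum_pos (fun i _ => ?_) Finset.univ_nonempty
  have h1 : D.σ i (x : K) ≠ 0 := by
    rw [Ne, map_eq_zero]
    exact fun h => hx (RingOfIntegers.coe_eq_zero_iff.1 h)
  have := ht i
  have h2 := norm_pos_iff.2 h1
  positivity

theorem pn3_nf (D : Ctx F K m) (hσ : Emb F D.σ) (s : ℝ) {x : 𝓞 K} (hx : x ≠ 0) :
    D.N x / (‖D.N x‖ : ℂ) * nf F ((s + 1 / 2 : ℝ) : ℂ) x = ((nnF F x ^ (-2 * s) : ℝ) : ℂ) := by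
  have hN := pn3_N_ne D hx
  have h0 : 0 < ‖D.N x‖ := norm_pos_iff.2 hN
  unfold nf g
  rw [← pn3_N D hσ, ← mul_assoc, H55R.D12_conj _ hN, pn3_nn D hσ]
  have h1 : (-2 * ((s + 1 / 2 : ℝ) : ℂ)) = ((-2 * (s + 1 / 2) : ℝ) : ℂ) := by push_cast; ring
  rw [h1, ← Complex.ofReal_cpow h0.le, ← Complex.ofReal_mul]
  congr 1
  have h2 : ‖D.N x‖ * ‖D.N x‖ ^ (-2 * (s + 1 / 2)) = ‖D.N x‖ ^ (1 : ℝ) * ‖D.N x‖ ^ (-2 * (s + 1 / 2)) := by
    rw [Real.rpow_one]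
  rw [h2, ← Real.rpow_add h0]
  congr 1
  ring

theorem pn3_fs (D : Ctx F K m) (t : Fin (m + 1) → ℝ) (ht : ∀ i, 0 < t i) (s : ℝ) {x : 𝓞 K}
    (hx : x ≠ 0) : D.N x / (‖D.N x‖ : ℂ) * D.fs t (s : ℂ) x = ((‖D.fs t (s : ℂ) x‖ : ℝ) : ℂ) := by
  have hN := pn3_N_ne D hx
  have hQ := pn3_Q_pos D t ht hx
  have h1 : (-((m + 1 : ℕ) * (s : ℂ))) = ((-((m + 1 : ℕ) * s) : ℝ) : ℂ) := by push_cast; ring
  have h2 : D.fs t (s : ℂ) x = (starRingEnd ℂ) (D.N x) * ((D.Q t x ^ (-((m + 1 : ℕ) * s)) : ℝ) : ℂ) := by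
    unfold Ctx.fs
    rw [h1, ← Complex.ofReal_cpow hQ.le]
  have h3 : 0 ≤ D.Q t x ^ (-((m + 1 : ℕ) * s)) := Real.rpow_nonneg hQ.le _
  rw [h2, ← mul_assoc, H55R.D12_conj _ hN, norm_mul, RCLike.norm_conj, Complex.norm_real,
    Real.norm_of_nonneg h3, Complex.ofReal_mul]

theorem class_bddF (f b : Ideal (𝓞 K))
    (hf : f ≠ ⊥) (hb : b ≠ ⊥) (c₀ : 𝓞 K) (hc : c₀ ∈ b)
    (hp : ∀ w : HeightOneSpectrum (𝓞 K), Ideal.span {3} * f ≤ w.asIdeal → c₀ ∉ w.asIdeal * b)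
    (c : H55R.Pl K) (hcc : IsCoprime (Ideal.span {3} * f * b) c.asIdeal) (T : Set (𝓞 K))
    (hT : Transv (Ideal.span {3} * f) (XS (Ideal.span {3} * f * b) c₀) T) :
    ∃ C : ℝ, ∀ s ∈ Set.Ioc (1 : ℝ) 2, ∃ Z : ℂ, ‖Z‖ ≤ C ∧
      HasSum (fun x : T => H55R.wt c.asIdeal (x : 𝓞 K) * ((nnF F (x : 𝓞 K) ^ (-2 * s) : ℝ) : ℂ)) Z := by
  classical
  obtain ⟨m, hm⟩ := pn3_fin F (K := K)
  obtain ⟨σ, hσ⟩ := emb_exists (F := F) K m hm
  have hne0 := H55R.D12_ne f b hf c₀ hp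
  obtain ⟨J, hJdef⟩ : ∃ J : Ideal (𝓞 K), J = Ideal.span {3} * f := ⟨_, rfl⟩
  obtain ⟨J', hJ'def⟩ : ∃ J' : Ideal (𝓞 K), J' = Ideal.span {2} * J := ⟨_, rfl⟩
  rw [← hJdef] at hT hne0 hcc
  have hJ0 : J ≠ ⊥ := by
    rw [hJdef]
    exact mul_ne_zero (by simp) hf
  have hJ'0 : J' ≠ ⊥ := by
    rw [hJ'def]
    exact mul_ne_zero (by simp) hJ0
  have hJ'J : J' ≤ J := by
    rw [hJ'def]
    exact Ideal.mul_le_right
  have hJ3 : J ≤ Ideal.span {3} := by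
    rw [hJdef]
    exact Ideal.mul_le_left
  have hJ6 : J' ≤ Ideal.span {6} := by
    rw [hJ'def, hJdef, ← mul_assoc, Ideal.span_singleton_mul_span_singleton]
    have : (2 : 𝓞 K) * 3 = 6 := by norm_num
    rw [this]
    exact Ideal.mul_le_left
  obtain ⟨u, hu1, hu2, hu3, hu4⟩ := units_basis hm J' hJ'0 (fun ζ hζ q hq h => H55N.D1_six hJ6 hζ hq h)
  obtain ⟨D, hDσ, hDI, hDc⟩ : ∃ D : Ctx F K m, D.σ = σ ∧ D.I = J * b ∧ D.c₀ = c₀ :=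
    ⟨⟨σ, J * b, c₀, fun _ => ⊥, fun _ => 0⟩, rfl, rfl, rfl⟩
  have hσ' : Emb F D.σ := by
    rw [hDσ]
    exact hσ
  have hne : D.c₀ ∉ D.I := by
    rw [hDI, hDc]
    exact hne0
  have hDX : D.X = XS (J * b) c₀ := by
    unfold Ctx.X
    rw [hDI, hDc]
  rw [← hDX] at hT
  have h0X : (0 : 𝓞 K) ∉ D.X := fun h => D.X_ne hne h rfl
  have hact : ∀ v : (𝓞 K)ˣ, (v : 𝓞 K) - 1 ∈ J → ((v : 𝓞 K) - 1) * D.c₀ ∈ D.I := by
    intro v hv
    rw [hDI, hDc]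
    exact Ideal.mul_mem_mul hv hc
  have hu : D.UOk u := ⟨fun j => hact _ (hJ'J (hu1 j)),
    fun j => norm_one3 D hσ' (u j) (hJ3 (hJ'J (hu1 j))), delta_ne D hσ' u hu4⟩
  obtain ⟨ν, hν, hT2⟩ := finite_change J J' hJ'0 hJ'J D.X h0X (by
    intro v hv x hx
    have h1 : (v : 𝓞 K) * x - D.c₀ = ((v : 𝓞 K) - 1) * D.c₀ + v * (x - D.c₀) := by ring
    rw [D.mem_X, h1]
    exact D.I.add_mem (hact v hv) (D.I.mul_mem_left _ hx))
  obtain ⟨T', hT', hφ⟩ := hT2 T hT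
  obtain ⟨a, b', ha, hab⟩ := U4_tt_bd (D.lm u)
  obtain ⟨C, hC⟩ := cube_bddF D hσ' hne c.asIdeal c.ne_bot (by rw [hDI]; exact hcc) a b' ha
  obtain ⟨δ, hδ, hlow⟩ := H55R.cst_low (D.lm u) (lm_sum D u hu) hu.reg
  have hinv : ∀ v : (𝓞 K)ˣ, ∏ i, D.σ i ((v : 𝓞 K) : K) = 1 → ∀ x : 𝓞 K,
      D.N ((v : 𝓞 K) * x) = D.N x := by
    intro v hv x
    rw [pn3_Nmul]
    have : D.N (v : 𝓞 K) = 1 := hv
    rw [this, one_mul]
  have hunf := fun s' : ℂ => unfold D hσ' hne u hu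
    (fun x => H55R.wt c.asIdeal x * (D.N x / (‖D.N x‖ : ℂ)))
    ⟨1 + Ideal.absNorm c.asIdeal, fun x => by
      rw [norm_mul]
      refine (mul_le_of_le_one_right (norm_nonneg _) ?_).trans (H55R.D12_wt_bd _ _)
      rw [norm_div, Complex.norm_real, norm_norm]
      exact div_self_le_one _⟩
    (fun x _ z => by
      show H55R.wt c.asIdeal ((uu u z : 𝓞 K) * x) * (D.N ((uu u z : 𝓞 K) * x) /
        (‖D.N ((uu u z : 𝓞 K) * x)‖ : ℂ)) = H55R.wt c.asIdeal x * (D.N x / (‖D.N x‖ : ℂ))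
      rw [H55R.D12_wt, hinv _ (uu_act D u hu z).2.1])
    T' hT'.sub (pn3_bij h0X hT' u hu2 hu3) s'
  refine ⟨C / δ / ν, fun s hs => ?_⟩
  obtain ⟨hs1, hs2⟩ := hs
  obtain ⟨hsum, hint⟩ := hunf ((s + 1 / 2 : ℝ) : ℂ) (by rw [Complex.ofReal_re]; linarith)
  have hterm : ∀ x : T', H55R.wt c.asIdeal (x : 𝓞 K) * (D.N (x : 𝓞 K) / (‖D.N (x : 𝓞 K)‖ : ℂ)) *
      nf F ((s + 1 / 2 : ℝ) : ℂ) (x : 𝓞 K) =
      H55R.wt c.asIdeal (x : 𝓞 K) * ((nnF F (x : 𝓞 K) ^ (-2 * s) : ℝ) : ℂ) := by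
    intro x
    rw [mul_assoc, pn3_nf D hσ' s (D.X_ne hne (hT'.sub x.2))]
  have hsum' : Summable fun x : T' => H55R.wt c.asIdeal (x : 𝓞 K) *
      ((nnF F (x : 𝓞 K) ^ (-2 * s) : ℝ) : ℂ) := by
    refine (hsum.of_norm).congr fun x => ?_
    exact hterm x
  have hhas := hsum'.hasSum
  refine ⟨(∑' x : T', H55R.wt c.asIdeal (x : 𝓞 K) * ((nnF F (x : 𝓞 K) ^ (-2 * s) : ℝ) : ℂ)) / ν, ?_, ?_⟩
  · have hν0 : (0 : ℝ) < ν := by exact_mod_cast hν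
    rw [norm_div, Complex.norm_natCast]
    refine div_le_div_of_nonneg_right ?_ hν0.le
    rw [le_div_iff₀ hδ]
    have h1 : (∑' x : T', H55R.wt c.asIdeal (x : 𝓞 K) * (D.N (x : 𝓞 K) / (‖D.N (x : 𝓞 K)‖ : ℂ)) *
      nf F ((s + 1 / 2 : ℝ) : ℂ) (x : 𝓞 K)) =
        ∑' x : T', H55R.wt c.asIdeal (x : 𝓞 K) * ((nnF F (x : 𝓞 K) ^ (-2 * s) : ℝ) : ℂ) :=
      tsum_congr hterm
    have h2 : ‖∑' x : T', H55R.wt c.asIdeal (x : 𝓞 K) * ((nnF F (x : 𝓞 K) ^ (-2 * s) : ℝ) : ℂ)‖ *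
        ‖cst (D.lm u) ((s + 1 / 2 : ℝ) : ℂ)‖ ≤ C := by
      rw [← norm_mul, ← h1, hint]
      have h3 := MeasureTheory.norm_setIntegral_le_of_norm_le_const (C := C)
        (μ := MeasureTheory.volume) (s := Set.Icc (0 : Fin m → ℝ) 1)
        (f := fun z => ∑' x : D.X, H55R.wt c.asIdeal (x : 𝓞 K) *
          (D.N (x : 𝓞 K) / (‖D.N (x : 𝓞 K)‖ : ℂ)) *
            D.fs (tt (D.lm u) z) ((s + 1 / 2 : ℝ) : ℂ) x)
        (by
          rw [Real.volume_Icc_pi]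
          simp) (by
          intro z hz
          have hz2 := hab z hz
          have h4 := hC (tt (D.lm u) z) hz2 (s + 1 / 2) ⟨by linarith, by linarith⟩
          refine (le_of_eq ?_).trans h4
          congr 1
          refine tsum_congr fun x => ?_
          rw [mul_assoc, pn3_fs D (tt (D.lm u) z) (fun i => ha.trans_le (hz2 i).1) (s + 1 / 2)
            (D.X_ne hne x.2)])
      refine h3.trans (le_of_eq ?_)
      have h5 : MeasureTheory.volume.real (Set.Icc (0 : Fin m → ℝ) 1) = 1 := by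
        rw [MeasureTheory.measureReal_def, Real.volume_Icc_pi]
        simp
      rw [h5, mul_one]
    exact (mul_le_mul_of_nonneg_left (hlow (s + 1 / 2) ⟨by linarith, by linarith⟩)
      (norm_nonneg _)).trans h2
  · refine hφ (fun x => H55R.wt c.asIdeal x * ((nnF F x ^ (-2 * s) : ℝ) : ℂ)) _ ?_ hhas
    intro v hv x _
    have h1 : nnF F ((v : 𝓞 K) * x) = nnF F x := by
      rw [pn3_nn D hσ', pn3_nn D hσ', hinv v (norm_one3 D hσ' v (hJ3 hv))]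
    show H55R.wt c.asIdeal ((v : 𝓞 K) * x) * ((nnF F ((v : 𝓞 K) * x) ^ (-2 * s) : ℝ) : ℂ) = _
    rw [H55R.D12_wt, h1]

end H55P
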