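import Mathlib
import Pool.Agent.Lib.H55P.CD
import Pool.Agent.Lib.H55P.N3
import Pool.Agent.Lib.H55R.Den

open NumberField IsDedekindDomain

namespace H55P

open H55N
open H55B (g)



/-! Chunk PN4 (M), PORT of Lib/H55R/D13.lean (bdd; with CDJ J g, J = (3) f, g = (6) f, exists_CDJ, cdj_hasSum of H55P/CD.lean) and of density_ker in Lib/H55R/Den.lean. F must be an explicit argument. -/

theorem pn4_ne_top {K : Type} [Field K] [NumberField K] (f : Ideal (𝓞 K)) :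
    Ideal.span {(3 : 𝓞 K)} * f ≠ ⊤ := by
  intro h
  have h1 : Ideal.span {(3 : 𝓞 K)} = ⊤ := by
    rw [eq_top_iff, ← h]
    exact Ideal.mul_le_left
  have h2 : Ideal.absNorm (Ideal.span {(3 : 𝓞 K)}) = 1 := by rw [h1]; exact Ideal.absNorm_top
  rw [Ideal.absNorm_span_singleton] at h2
  have h3 : (Algebra.norm ℤ (3 : 𝓞 K)) = 3 ^ Module.finrank ℤ (𝓞 K) := by
    have := Algebra.norm_algebraMap (S := 𝓞 K) (3 : ℤ)
    rw [map_ofNat] at this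
    exact this
  rw [h3, Int.natAbs_pow] at h2
  have h4 : 0 < Module.finrank ℤ (𝓞 K) := Module.finrank_pos
  have h5 : 1 < 3 ^ Module.finrank ℤ (𝓞 K) := Nat.one_lt_pow h4.ne' (by norm_num)
  have h6 : (3 : ℤ).natAbs = 3 := rfl
  rw [h6] at h2
  omega

theorem bddF (F : Type) [Field F] [NumberField F] [IQ F] {K : Type} [Field K] [NumberField K]
    [Algebra F K] (f : Ideal (𝓞 K)) (hf : f ≠ ⊥)
    (φ : H55R.Pl K → ℂˣ) (hφ : φ ∈ H55R.RC f) (hn : ∀ v, ‖(φ v : ℂ)‖ = 1) (h1 : φ ≠ 1) :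
    ∃ C : ℝ, ∀ s ∈ Set.Ioc (1 : ℝ) 2, ‖H55R.Ls (H55R.tI f φ) s‖ ≤ C := by
  classical
  obtain ⟨C₁, hC₁, hmod⟩ := H55R.change_mod f hf φ hn
  have h3 : (Ideal.span {(3 : 𝓞 K)}) ≠ ⊥ := by
    rw [Ne, Ideal.span_singleton_eq_bot]
    exact OfNat.ofNat_ne_zero 3
  set J : Ideal (𝓞 K) := Ideal.span {3} * f with hJ
  have hJ0 : J ≠ ⊥ := mul_ne_zero h3 hf
  have h6 : Ideal.span {(6 : 𝓞 K)} ≤ Ideal.span {(3 : 𝓞 K)} := by
    rw [Ideal.span_singleton_le_span_singleton]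
    exact ⟨2, by norm_num⟩
  have h60 : (Ideal.span {(6 : 𝓞 K)}) ≠ ⊥ := by
    rw [Ne, Ideal.span_singleton_eq_bot]
    exact OfNat.ofNat_ne_zero 6
  have hgJ : Ideal.span {(6 : 𝓞 K)} * f ≤ J := Ideal.mul_mono_left h6
  have hJ1 : J ≠ ⊤ := pn4_ne_top f
  obtain ⟨ι, _, b, c₀, T, hCD⟩ := exists_CDJ J (Ideal.span {6} * f) hJ0 (mul_ne_zero h60 hf) hgJ hJ1
  have hg : J * ∏ i, b i ≠ ⊥ := mul_ne_zero hJ0 (Finset.prod_ne_zero_iff.2 fun i _ => hCD.ne i)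
  obtain ⟨c, hcf, hcg, hφc⟩ := H55R.exists_prime f hf φ hφ h1 _ hg
  have hcmax : c.asIdeal.IsMaximal := c.isPrime.isMaximal c.ne_bot
  have hcop : ∀ I : Ideal (𝓞 K), ¬ I ≤ c.asIdeal → IsCoprime I c.asIdeal := by
    intro I hI
    rw [Ideal.isCoprime_iff_sup_eq]
    by_contra hne
    obtain ⟨M, hM, hle⟩ := Ideal.exists_le_maximal _ hne
    have h4 : c.asIdeal = M := hcmax.eq_of_le hM.ne_top (le_sup_right.trans hle)
    exact hI (h4 ▸ le_sup_left.trans hle)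
  have hJc : ¬ J ≤ c.asIdeal := fun h => hcg (Ideal.mul_le_left.trans h)
  have hbc : ∀ i, ¬ b i ≤ c.asIdeal := fun i h => hcg
    (Ideal.mul_le_right.trans ((Ideal.prod_le_inf.trans (Finset.inf_le (Finset.mem_univ i))).trans h))
  have hcJ : IsCoprime J c.asIdeal := hcop J hJc
  have hcb : ∀ i, IsCoprime (b i) c.asIdeal := fun i => hcop _ (hbc i)
  choose κ hκ using fun i => term_classF (F := F) f (b i) hf (hCD.ne i) φ hφ (hCD.cop i) (c₀ i) (hCD.mem i)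
    (hCD.prim i)
  choose C hC using fun i => class_bddF (F := F) f (b i) hf (hCD.ne i) (c₀ i) (hCD.mem i) (hCD.prim i) c
    ((hcJ.mul_left (hcb i))) (T i) (hCD.trans i)
  have hh : ∀ a, ‖H55R.tI J φ a‖ ≤ 1 := H55R.dd_norm_tI J φ hn
  have htc : H55R.tI J φ c.asIdeal = (φ c : ℂ) := by
    rw [H55R.tI_apply J φ c.ne_bot hcJ.symm, H55R.pv_prime]
  obtain ⟨δ, hδ, hlow⟩ := H55R.fac_low (Ideal.absNorm c.asIdeal) (H55R.dd_two_le c) (φ c : ℂ) (hn c)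
    (fun h => hφc (Units.ext h))
  refine ⟨C₁ * ((∑ i, ‖κ i‖ * ((Ideal.absNorm (b i) : ℝ) ^ (2 : ℝ)) * C i) / δ), fun s hs => ?_⟩
  refine (hmod s hs).trans (mul_le_mul_of_nonneg_left ?_ hC₁.le)
  rw [le_div_iff₀ hδ]
  -- the smoothed series
  have hsum := H55R.dd_tm_summable (H55R.tI J φ) hh s hs.1
  have hsm := smooth_sum (tmH (H55R.tI J φ) s) hsum (fun _ : Unit => c.asIdeal)
    (fun _ => c.isPrime) (fun _ => c.ne_bot) (fun _ _ _ => rfl)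
    (fun _ => (Ideal.absNorm c.asIdeal : ℂ))
  simp only [Finset.univ_unique, Finset.prod_singleton] at hsm
  choose Z hZ1 hZ2 using fun i => hC i s hs
  have hcd := cdj_hasSum J (Ideal.span {6} * f) hgJ hJ1 ι b c₀ T hCD
    (fun a => tm (H55R.tI J φ) s a *
      (if a ≤ c.asIdeal then 1 - (Ideal.absNorm c.asIdeal : ℂ) else 1))
    (fun a ha => by
      by_contra hne
      apply ha
      have h5 : H55R.tI J φ a = 0 := if_neg hne
      show H55R.tI J φ a * _ * _ = 0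
      rw [h5, zero_mul, zero_mul])
    (fun i x => κ i * (((Ideal.absNorm (b i) : ℝ) ^ s : ℝ) : ℂ) *
            (H55R.wt c.asIdeal x * ((nnF F x ^ (-2 * s) : ℝ) : ℂ)))
    (fun i x hx a hab => hκ i c (hcb i) x ((hCD.trans i).sub hx) a hab s)
    (fun i => κ i * (((Ideal.absNorm (b i) : ℝ) ^ s : ℝ) : ℂ) * Z i)
    (fun i => (hZ2 i).mul_left _)
  have heq : (1 - (Ideal.absNorm c.asIdeal : ℂ) * tmH (H55R.tI J φ) s c.asIdeal) *
      ∑' a, tmH (H55R.tI J φ) s a = ∑ i, κ i * (((Ideal.absNorm (b i) : ℝ) ^ s : ℝ) : ℂ) * Z i :=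
    hsm.unique hcd
  have hk : tmH (H55R.tI J φ) s c.asIdeal = (φ c : ℂ) * (Ideal.absNorm c.asIdeal : ℂ) ^ (-(s : ℂ)) := by
    show H55R.tI J φ c.asIdeal * _ = _
    rw [htc]
  have hL : ∑' a, tmH (H55R.tI J φ) s a = H55R.Ls (H55R.tI J φ) s := rfl
  rw [hk, hL] at heq
  calc ‖H55R.Ls (H55R.tI J φ) s‖ * δ ≤ ‖H55R.Ls (H55R.tI J φ) s‖ * ‖1 - (Ideal.absNorm c.asIdeal : ℂ) *
        ((φ c : ℂ) * (Ideal.absNorm c.asIdeal : ℂ) ^ (-(s : ℂ)))‖ :=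
        mul_le_mul_of_nonneg_left (hlow s ⟨hs.1.le, hs.2⟩) (norm_nonneg _)
    _ = ‖∑ i, κ i * (((Ideal.absNorm (b i) : ℝ) ^ s : ℝ) : ℂ) * Z i‖ := by
        rw [mul_comm, ← norm_mul, heq]
    _ ≤ ∑ i, ‖κ i * (((Ideal.absNorm (b i) : ℝ) ^ s : ℝ) : ℂ) * Z i‖ := norm_sum_le _ _
    _ ≤ ∑ i, ‖κ i‖ * ((Ideal.absNorm (b i) : ℝ) ^ (2 : ℝ)) * C i := by
        refine Finset.sum_le_sum fun i _ => ?_
        have hb1 : (1 : ℝ) ≤ (Ideal.absNorm (b i) : ℝ) := by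
          have h6 : Ideal.absNorm (b i) ≠ 0 := fun h => hCD.ne i (Ideal.absNorm_eq_zero_iff.1 h)
          exact_mod_cast Nat.one_le_iff_ne_zero.2 h6
        rw [norm_mul, norm_mul, Complex.norm_real, Real.norm_of_nonneg (by positivity)]
        refine mul_le_mul (mul_le_mul_of_nonneg_left ?_ (norm_nonneg _)) (hZ1 i) (norm_nonneg _)
          (by positivity)
        exact Real.rpow_le_rpow_of_exponent_le hb1 hs.2

/-- Primes in the kernel of a finite group of ray class characters. -/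
theorem density_kerF (F : Type) [Field F] [NumberField F] [IQ F] {K : Type} [Field K] [NumberField K]
    [Algebra F K] (f : Ideal (𝓞 K))
    (hf : f ≠ ⊥) (hf' : f ≠ ⊤) (Y : Subgroup (H55R.Pl K → ℂˣ)) [Finite Y] (hY : Y ≤ H55R.RC f) :
    ∃ C : ℝ, ∀ s ∈ Set.Ioc (1 : ℝ) 2, H55R.PS {v : H55R.Pl K | ¬ f ≤ v.asIdeal ∧ ∀ φ ∈ Y, φ v = 1} s ≤
      (1 / Nat.card Y : ℝ) * Real.log (1 / (s - 1)) + C := by
  classical
  have := Fintype.ofFinite Y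
  obtain ⟨C₂, hC₂⟩ := H55R.log_cmp K
  obtain ⟨C₃, hC₃⟩ := H55R.zeta_log K
  have hb : ∀ φ : Y, ∃ B : ℝ, ∀ s ∈ Set.Ioc (1 : ℝ) 2,
      ∑' v : H55R.Pl K, (H55R.tI f (φ : H55R.Pl K → ℂˣ) v.asIdeal).re * (Ideal.absNorm v.asIdeal : ℝ) ^ (-s) ≤
        (if φ = 1 then Real.log (1 / (s - 1)) else 0) + B := by
    intro φ
    have hn := H55R.dd_norm_Y Y φ.1 φ.2
    have hh := H55R.dd_norm_tI f φ.1 hn
    by_cases h1 : φ = 1
    · subst h1
      refine ⟨C₂ + C₃, fun s hs => ?_⟩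
      have e1 := (abs_le.1 (hC₂ (H55R.tI f ((1 : Y) : H55R.Pl K → ℂˣ)) hh s hs)).2
      obtain ⟨e2, e3⟩ := hC₃ s hs
      have e4 := (abs_le.1 e3).2
      have e5 := (H55R.euler (H55R.tI f ((1 : Y) : H55R.Pl K → ℂˣ)) hh s hs.1).1
      have e6 := Real.log_le_log (norm_pos_iff.2 e5) (H55R.den_trivial f s hs.1)
      rw [if_pos rfl]
      linarith
    · have h2 : φ.1 ≠ 1 := fun h => h1 (Subtype.ext h)
      obtain ⟨B, hB⟩ := bddF F f hf φ.1 (hY φ.2) hn h2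
      refine ⟨C₂ + Real.log B, fun s hs => ?_⟩
      have e1 := (abs_le.1 (hC₂ (H55R.tI f φ.1) hh s hs)).2
      have e5 := (H55R.euler (H55R.tI f φ.1) hh s hs.1).1
      have e6 := Real.log_le_log (norm_pos_iff.2 e5) (hB s hs)
      rw [if_neg h1]
      linarith
  choose B hB using hb
  refine ⟨(1 / Nat.card Y : ℝ) * ∑ φ, B φ, fun s hs => ?_⟩
  have hc : (0 : ℝ) < Nat.card Y := by exact_mod_cast Nat.card_pos
  have h1 := H55R.orth f Y s hs.1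
  have h2 : (Nat.card Y : ℝ) * H55R.PS {v : H55R.Pl K | ¬ f ≤ v.asIdeal ∧ ∀ φ ∈ Y, φ v = 1} s ≤
      Real.log (1 / (s - 1)) + ∑ φ, B φ := by
    rw [h1]
    refine (Finset.sum_le_sum fun φ _ => hB φ s hs).trans (le_of_eq ?_)
    rw [Finset.sum_add_distrib, Finset.sum_ite_eq' Finset.univ (1 : Y)]
    simp
  have h3 : H55R.PS {v : H55R.Pl K | ¬ f ≤ v.asIdeal ∧ ∀ φ ∈ Y, φ v = 1} s =
      (1 / Nat.card Y : ℝ) *
        ((Nat.card Y : ℝ) * H55R.PS {v : H55R.Pl K | ¬ f ≤ v.asIdeal ∧ ∀ φ ∈ Y, φ v = 1} s) := by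
    field_simp
  rw [h3, ← mul_add]
  exact mul_le_mul_of_nonneg_left h2 (by positivity)

end H55P
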