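import Mathlib
import Pool.Agent.Lib.H55P.D2
import Pool.Agent.Lib.H55P.T1
import Pool.Agent.Lib.H55R.X9

open NumberField IsDedekindDomain

namespace H55P

open H55N
open H55B (g)

variable {F : Type} [Field F] [NumberField F] [IQ F] {K : Type} [Field K] [NumberField K]
  [Algebra F K] {m : ℕ}

/-! Chunk PT7 (M). The reduction of Ψ modulo V as a ray class character.
PROOF. g = span {p} * mK K M. R = the residue field of V (IsLocalRing.ResidueField V). For x in O the number conj(e x) is an algebraic integer, so in V; let r(x) be its residue: a ring homomorphism r : O -> R with r(p) = 0, so its image k' is a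
finite ring without zero divisors (finite image since O/p is finite), k'^* is a finite subgroup of the units of the field R, so cyclic. There is an injective homomorphism j of the finite cyclic group C = (image of) units into ℂˣ: for
instance C is isomorphic to Multiplicative (ZMod n), and rootsOfUnity n ℂ is cyclic of order n (Complex.card_rootsOfUnity; mulEquivOfCyclicCardEq). For a prime v not containing g: ψ(relNorm v) is prime to p (PsiP_unit), so r(ψ(relNorm v)) <> 0;
φ v = j(r(ψ(relNorm v))), and φ v = 1 for g <= v. For an ideal a <> 0 coprime to g: pv φ a = j(r(ψ(relNorm a))) (pv_mul, pv_prime, induction on the factorisation; see how H55R proves membership in RC, for instance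
theta_RC in H55R/X9.lean). RC g: for x, y nonzero, coprime to g, x - y in g: N x - N y in M and in p O (intNorm_cong), and ψ((N x)) N y = ψ((N y)) N x; r(N x) = r(N y) <> 0, so r(ψ((N x))) = r(ψ((N y))).
φ has finite order dividing #C. φ c <> 1 means that the residue of Ψ(c) = conj(e ψ(relNorm c)) is not 1, i.e. V(1 - Ψ(c)) = 1. φ <> 1: the ideal a of NTP has r(ψ(relNorm a)) <> 1, so pv φ a <> 1, so φ <> 1 (pv_one_fun). -/

/-- algebraic integers are in V -/
theorem pt7_int (V : ValuationSubring ℂ) (z : ℂ) (hz : IsIntegral ℤ z) : z ∈ V := by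
  have h1 : IsIntegral V z := hz.tower_top
  obtain ⟨y, hy⟩ := (IsIntegrallyClosed.isIntegral_iff (R := V) (K := ℂ)).1 h1
  rw [← hy]
  exact y.2

theorem pt7_mem (V : ValuationSubring ℂ) (x : 𝓞 F) : (starRingEnd ℂ) (eF F x) ∈ V := by
  apply pt7_int
  have h1 : IsIntegral ℤ x := RingOfIntegers.isIntegral x
  exact (h1.map ((eF F).toIntAlgHom)).map ((starRingEnd ℂ).toIntAlgHom)

/-- the map to V -/
noncomputable def pt7c (F : Type) [Field F] [NumberField F] [IQ F] (V : ValuationSubring ℂ) : 𝓞 F →+* V :=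
  ((starRingEnd ℂ).comp (eF F)).codRestrict V (fun x => pt7_mem V x)

/-- the prime below V -/
noncomputable def pt7P (F : Type) [Field F] [NumberField F] [IQ F] (V : ValuationSubring ℂ) : Ideal (𝓞 F) :=
  (IsLocalRing.maximalIdeal V).comap (pt7c F V)

theorem pt7_lt (V : ValuationSubring ℂ) (x : 𝓞 F) :
    x ∈ pt7P F V ↔ V.valuation ((starRingEnd ℂ) (eF F x)) < 1 := by
  unfold pt7P
  rw [Ideal.mem_comap, ValuationSubring.valuation_lt_one_iff]
  rfl

theorem pt7_eq (V : ValuationSubring ℂ) (x : 𝓞 F) :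
    x ∉ pt7P F V ↔ V.valuation ((starRingEnd ℂ) (eF F x)) = 1 := by
  rw [pt7_lt, not_lt]
  have h := (V.valuation_le_one_iff _).2 (pt7_mem (F := F) V x)
  exact ⟨fun h1 => le_antisymm h h1, fun h1 => h1.ge⟩

instance pt7_prime (V : ValuationSubring ℂ) : (pt7P F V).IsPrime := by
  unfold pt7P
  infer_instance

theorem pt7_nat (p : ℕ) (V : ValuationSubring ℂ) (hV : V.valuation (p : ℂ) < 1) : (p : 𝓞 F) ∈ pt7P F V := by
  rw [pt7_lt, map_natCast, map_natCast]
  exact hV

theorem pt7_bot (p : ℕ) (hp : p.Prime) (V : ValuationSubring ℂ) (hV : V.valuation (p : ℂ) < 1) :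
    pt7P F V ≠ ⊥ := by
  intro h
  have h1 := pt7_nat (F := F) p V hV
  rw [h, Ideal.mem_bot] at h1
  exact hp.ne_zero (by exact_mod_cast h1)

/-- a finite cyclic group embeds in the complex numbers -/
theorem pt7_emb (G : Type) [CommGroup G] [Finite G] [IsCyclic G] : ∃ j : G →* ℂˣ, Function.Injective j := by
  have : NeZero (Nat.card G) := ⟨Nat.card_pos.ne'⟩
  have hc : Nat.card G = Nat.card (rootsOfUnity (Nat.card G) ℂ) := (Complex.card_rootsOfUnity _).symm
  refine ⟨(rootsOfUnity (Nat.card G) ℂ).subtype.comp (mulEquivOfCyclicCardEq hc).toMonoidHom, ?_⟩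
  exact Subtype.val_injective.comp (mulEquivOfCyclicCardEq hc).injective


/-- the residue of the Hecke character -/
theorem pt7_ne (p : ℕ) (hp : p.Prime) {M : Ideal (𝓞 F)} {ψ : Ideal (𝓞 F) →*₀ 𝓞 F}
    (h : IsHecke M ψ) (V : ValuationSubring ℂ) (hV : V.valuation (p : ℂ) < 1) (a : Ideal (𝓞 K))
    (ha : a ≠ ⊥) (hc : IsCoprime a (Ideal.span {(p : 𝓞 K)} * mK K M)) :
    ψ (Ideal.relNorm (𝓞 F) a) ∉ pt7P F V := by
  rw [pt7_eq, ← PsiP_apply]
  exact (PsiP_unit p hp h a ha hc.of_mul_right_right hc.of_mul_right_left V hV).1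

theorem exists_theta (p : ℕ) (hp : p.Prime) {M : Ideal (𝓞 F)} {ψ : Ideal (𝓞 F) →*₀ 𝓞 F}
    (h : IsHecke M ψ) (hMp : IsCoprime M (Ideal.span {(p : 𝓞 F)})) (V : ValuationSubring ℂ)
    (hV : V.valuation (p : ℂ) < 1) (hNT : NTP K p M ψ V) :
    ∃ (φ : H55R.Pl K → ℂˣ), φ ∈ H55R.RC (Ideal.span {(p : 𝓞 K)} * mK K M) ∧ φ ≠ 1 ∧ IsOfFinOrder φ ∧
      ∀ c : H55R.Pl K, ¬ Ideal.span {(p : 𝓞 K)} * mK K M ≤ c.asIdeal → φ c ≠ 1 →
        V.valuation (1 - PsiP K ψ c.asIdeal) = 1 := by
  classical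
  set gg : Ideal (𝓞 K) := Ideal.span {(p : 𝓞 K)} * mK K M with hgg
  have hbot := pt7_bot (F := F) p hp V hV
  have hPm : (pt7P F V).IsMaximal := Ring.DimensionLEOne.maximalOfPrime hbot inferInstance
  let _ : Field (𝓞 F ⧸ pt7P F V) := Ideal.Quotient.field _
  have _ : Finite (𝓞 F ⧸ pt7P F V) := Ideal.finiteQuotientOfFreeOfNeBot _ hbot
  obtain ⟨j, hj⟩ := pt7_emb (𝓞 F ⧸ pt7P F V)ˣ
  -- the residue
  let R : Ideal (𝓞 K) →*₀ 𝓞 F ⧸ pt7P F V :=
    ((Ideal.Quotient.mk (pt7P F V)).toMonoidWithZeroHom.comp ψ).comp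
      (Ideal.relNorm (𝓞 F) : Ideal (𝓞 K) →*₀ Ideal (𝓞 F))
  have hR : ∀ a, R a = Ideal.Quotient.mk (pt7P F V) (ψ (Ideal.relNorm (𝓞 F) a)) := fun a => rfl
  have hR0 : ∀ a : Ideal (𝓞 K), a ≠ ⊥ → IsCoprime a gg → R a ≠ 0 := by
    intro a ha hc h0
    rw [hR, Ideal.Quotient.eq_zero_iff_mem] at h0
    exact pt7_ne p hp h V hV a ha hc h0
  let Φ : Ideal (𝓞 K) → ℂˣ := fun a => if h0 : R a ≠ 0 then j (Units.mk0 (R a) h0) else 1
  have hΦ : ∀ (a : Ideal (𝓞 K)) (h0 : R a ≠ 0), Φ a = j (Units.mk0 (R a) h0) := fun a h0 => dif_pos h0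
  let φ : H55R.Pl K → ℂˣ := fun v => if gg ≤ v.asIdeal then 1 else Φ v.asIdeal
  have hφ : ∀ v : H55R.Pl K, ¬ gg ≤ v.asIdeal → φ v = Φ v.asIdeal := fun v hv => if_neg hv
  have hcop : ∀ v : H55R.Pl K, ¬ gg ≤ v.asIdeal → IsCoprime v.asIdeal gg := by
    intro v hv
    rw [Ideal.isCoprime_iff_sup_eq]
    have hvm := v.isMaximal
    by_contra hne
    have h1 := hvm.eq_of_le hne le_sup_left
    exact hv (h1 ▸ le_sup_right)
  have hmul : ∀ a b : Ideal (𝓞 K), a ≠ ⊥ → b ≠ ⊥ → IsCoprime a gg → IsCoprime b gg → Φ (a * b) = Φ a * Φ b := by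
    intro a b ha hb hac hbc
    rw [hΦ a (hR0 a ha hac), hΦ b (hR0 b hb hbc), hΦ (a * b) (hR0 _ (mul_ne_zero ha hb) (hac.mul_left hbc)),
      ← map_mul]
    congr 1
    ext
    simp [map_mul]
  have hpv : ∀ a : Ideal (𝓞 K), a ≠ ⊥ → IsCoprime a gg → H55R.pv φ a = Φ a := by
    intro a
    induction a using UniqueFactorizationMonoid.induction_on_prime with
    | h₁ => intro ha; exact absurd rfl ha
    | h₂ x hx =>
      intro ha hc
      rw [Ideal.isUnit_iff] at hx
      subst hx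
      have h1 : (⊤ : Ideal (𝓞 K)) = 1 := Ideal.one_eq_top.symm
      have h2 : R 1 ≠ 0 := by rw [map_one]; exact one_ne_zero
      rw [h1, H55R.pv_one, hΦ 1 h2]
      have h3 : Units.mk0 (R 1) h2 = 1 := Units.ext (map_one R)
      rw [h3, map_one]
    | h₃ a q ha hq ih =>
      intro hab hc
      have hq0 : q ≠ ⊥ := hq.ne_zero
      have hqc : IsCoprime q gg := hc.of_mul_left_left
      have hac : IsCoprime a gg := hc.of_mul_left_right
      have hqp := Ideal.isPrime_of_prime hq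
      let v : H55R.Pl K := ⟨q, hqp, hq0⟩
      have hv : ¬ gg ≤ v.asIdeal := H55R.X9_not_le hqc v le_rfl
      rw [H55R.pv_mul φ hq0 ha, hmul q a hq0 ha hqc hac, ih ha hac]
      congr 1
      rw [show q = v.asIdeal from rfl, H55R.pv_prime, hφ v hv]
  have hval : ∀ a : Ideal (𝓞 K), a ≠ ⊥ → IsCoprime a gg → Φ a ≠ 1 →
      V.valuation (1 - PsiP K ψ a) = 1 := by
    intro a ha hac hne
    have h1 : (1 : 𝓞 F) - ψ (Ideal.relNorm (𝓞 F) a) ∉ pt7P F V := by
      intro hmem
      apply hne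
      rw [hΦ a (hR0 a ha hac)]
      have h2 : Units.mk0 (R a) (hR0 a ha hac) = 1 := by
        apply Units.ext
        show R a = 1
        rw [hR, ← map_one (Ideal.Quotient.mk (pt7P F V)), eq_comm, Ideal.Quotient.eq]
        exact hmem
      rw [h2, map_one]
    rw [pt7_eq, map_sub, map_sub, map_one, map_one] at h1
    exact h1
  refine ⟨φ, ⟨fun v hv => if_pos hv, ?_⟩, ?_, ?_, ?_⟩
  · intro x y hx hy hcx hxy
    have hcy : IsCoprime (Ideal.span {y}) gg := by
      rw [Ideal.isCoprime_iff_sup_eq] at hcx ⊢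
      refine top_unique (hcx ▸ sup_le ?_ le_sup_right)
      rw [Ideal.span_singleton_le_iff_mem]
      have e : x = y + (x - y) := by ring
      rw [e]
      exact Ideal.add_mem _ (Ideal.mem_sup_left (Ideal.mem_span_singleton_self y)) (Ideal.mem_sup_right hxy)
    have hxb : Ideal.span {x} ≠ ⊥ := by simpa using hx
    have hyb : Ideal.span {y} ≠ ⊥ := by simpa using hy
    rw [hpv _ hxb hcx, hpv _ hyb hcy, hΦ _ (hR0 _ hxb hcx), hΦ _ (hR0 _ hyb hcy)]
    congr 1
    apply Units.ext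
    show R (Ideal.span {x}) = R (Ideal.span {y})
    have hMx := (PsiP_cop h _ hxb).2 hcx.of_mul_right_right
    have hMy := (PsiP_cop h _ hyb).2 hcy.of_mul_right_right
    have hnx := pt7_ne p hp h V hV _ hxb hcx
    have hny := pt7_ne p hp h V hV _ hyb hcy
    rw [hR, hR]
    rw [Ideal.relNorm_singleton] at hMx hMy hnx hny ⊢
    rw [Ideal.relNorm_singleton]
    set nx := Algebra.intNorm (𝓞 F) (𝓞 K) x with hnxd
    set ny := Algebra.intNorm (𝓞 F) (𝓞 K) y with hnyd
    have h1 : nx - ny ∈ M := intNorm_cong M x y (Ideal.mul_le_right hxy)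
    have h2 : nx - ny ∈ Ideal.span {(p : 𝓞 F)} := by
      apply intNorm_cong (Ideal.span {(p : 𝓞 F)}) x y
      unfold mK
      rw [Ideal.map_span, Set.image_singleton, map_natCast]
      exact Ideal.mul_le_left hxy
    have h3 : nx - ny ∈ pt7P F V := (Ideal.span_singleton_le_iff_mem (pt7P F V)).2 (pt7_nat p V hV) h2
    have h4 : Ideal.Quotient.mk (pt7P F V) nx = Ideal.Quotient.mk (pt7P F V) ny := Ideal.Quotient.eq.2 h3
    have h5 : ny ∉ pt7P F V := by
      intro h6
      apply hny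
      have h7 := h.gen _ hMy
      have h8 : ψ (Ideal.span {ny}) ∈ Ideal.span {ψ (Ideal.span {ny})} := Ideal.mem_span_singleton_self _
      rw [h7] at h8
      exact (Ideal.span_singleton_le_iff_mem (pt7P F V)).2 h6 h8
    have h6 := congrArg (Ideal.Quotient.mk (pt7P F V)) (h.per nx ny hMx hMy h1)
    rw [map_mul, map_mul, h4] at h6
    exact mul_right_cancel₀ (fun h7 => h5 (Ideal.Quotient.eq_zero_iff_mem.1 h7)) h6
  · obtain ⟨a, hap, haM, hav⟩ := hNT
    have ha : a ≠ ⊥ := by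
      rintro rfl
      apply absNorm_cop p hp ⊥ hap
      rw [Ideal.absNorm_bot]
      exact dvd_zero p
    have hac : IsCoprime a gg := hap.mul_right haM
    intro h1
    have h2 := hpv a ha hac
    rw [h1, H55R.pv_one_fun, hΦ a (hR0 a ha hac)] at h2
    have h3 : (1 : (𝓞 F ⧸ pt7P F V)ˣ) = Units.mk0 (R a) (hR0 a ha hac) := by
      apply hj
      rw [map_one]
      exact h2
    have h4 : R a = 1 := (congrArg Units.val h3).symm
    rw [hR, ← map_one (Ideal.Quotient.mk (pt7P F V)), eq_comm, Ideal.Quotient.eq] at h4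
    rw [pt7_lt, map_sub, map_sub, map_one, map_one] at h4
    exact absurd hav (ne_of_lt h4)
  · rw [isOfFinOrder_iff_pow_eq_one]
    refine ⟨Nat.card (𝓞 F ⧸ pt7P F V)ˣ, Nat.card_pos, ?_⟩
    funext v
    show φ v ^ _ = 1
    by_cases hv : gg ≤ v.asIdeal
    · rw [show φ v = 1 from if_pos hv, one_pow]
    · rw [hφ v hv]
      by_cases h0 : R v.asIdeal ≠ 0
      · rw [hΦ _ h0, ← map_pow, pow_card_eq_one', map_one]
      · rw [show Φ v.asIdeal = 1 from dif_neg h0, one_pow]
  · intro c hc hne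
    rw [hφ c hc] at hne
    exact hval _ c.ne_bot (hcop c hc) hne

end H55P
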