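import Mathlib
import Pool.Agent.Lib.H55P.N4
import Pool.Agent.Lib.H55P.T7

open NumberField IsDedekindDomain

namespace H55P

open H55N
open H55B (g)

section pt8

variable {K : Type} [Field K] [NumberField K]

theorem pt8_pow (v : H55R.Pl K) : ∃ q f : ℕ, q.Prime ∧ 0 < f ∧ Ideal.absNorm v.asIdeal = q ^ f ∧
    (q : 𝓞 K) ∈ v.asIdeal := by
  have hm : v.asIdeal.IsMaximal := v.isMaximal
  have h0 : Ideal.absNorm v.asIdeal ≠ 0 := fun h => v.ne_bot (Ideal.absNorm_eq_zero_iff.1 h)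
  let _ : Field (𝓞 K ⧸ v.asIdeal) := Ideal.Quotient.field v.asIdeal
  have hfin : Finite (𝓞 K ⧸ v.asIdeal) := by
    apply Nat.finite_of_card_ne_zero
    exact h0
  let _ : Fintype (𝓞 K ⧸ v.asIdeal) := Fintype.ofFinite _
  obtain ⟨q, hq⟩ := CharP.exists (𝓞 K ⧸ v.asIdeal)
  obtain ⟨n, hp, hc⟩ := FiniteField.card (𝓞 K ⧸ v.asIdeal) q
  refine ⟨q, n, hp, n.pos, ?_, ?_⟩
  · show Nat.card (𝓞 K ⧸ v.asIdeal) = _
    rw [Nat.card_eq_fintype_card, hc]
  · rw [← Ideal.Quotient.eq_zero_iff_mem, map_natCast]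
    exact CharP.cast_eq_zero _ q

/-- The primes above a rational prime. -/
theorem pt8_count (q : ℕ) (hq : q.Prime) (U : Finset (H55R.Pl K))
    (hU : ∀ v ∈ U, (q : 𝓞 K) ∈ v.asIdeal) (hU2 : ∀ v ∈ U, q ≤ Ideal.absNorm v.asIdeal) :
    U.card ≤ Module.finrank ℚ K := by
  classical
  have h1 : ∏ v ∈ U, v.asIdeal ∣ Ideal.span {(q : 𝓞 K)} := by
    apply Finset.prod_dvd_of_coprime
    · intro v _ w _ hvw
      refine Ideal.isCoprime_of_isMaximal ?_
      intro h
      exact hvw (HeightOneSpectrum.ext h)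
    · intro v hv
      rw [Ideal.dvd_span_singleton]
      exact hU v hv
  have h2 := map_dvd Ideal.absNorm h1
  rw [map_prod] at h2
  have h3 : Ideal.absNorm (Ideal.span {(q : 𝓞 K)}) = q ^ Module.finrank ℚ K := by
    rw [Ideal.absNorm_span_singleton]
    have h4 := Algebra.norm_algebraMap (S := 𝓞 K) (q : ℤ)
    rw [map_natCast, RingOfIntegers.rank] at h4
    rw [h4, Int.natAbs_pow, Int.natAbs_natCast]
  rw [h3] at h2
  have h5 : ∏ v ∈ U, q ≤ ∏ v ∈ U, Ideal.absNorm v.asIdeal := Finset.prod_le_prod' hU2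
  rw [Finset.prod_const] at h5
  have h6 := Nat.le_of_dvd (pow_pos hq.pos _) h2
  exact (Nat.pow_le_pow_iff_right hq.one_lt).1 (h5.trans h6)

theorem pt8_norm (q : ℕ) :
    Ideal.absNorm (Ideal.span {(q : 𝓞 K)}) = q ^ Module.finrank ℚ K := by
  rw [Ideal.absNorm_span_singleton]
  have h4 := Algebra.norm_algebraMap (S := 𝓞 K) (q : ℤ)
  rw [map_natCast, RingOfIntegers.rank] at h4
  rw [h4, Int.natAbs_pow, Int.natAbs_natCast]

theorem pt8_one_le (v : H55R.Pl K) : (1 : ℝ) ≤ (Ideal.absNorm v.asIdeal : ℝ) := by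
  have h0 : Ideal.absNorm v.asIdeal ≠ 0 := fun h => v.ne_bot (Ideal.absNorm_eq_zero_iff.1 h)
  exact_mod_cast Nat.one_le_iff_ne_zero.2 h0

theorem pt8_summable (s : ℝ) (hs : 1 < s) :
    Summable fun v : H55R.Pl K => (Ideal.absNorm v.asIdeal : ℝ) ^ (-s) :=
  (H55N.ideal_summable (K := K) s hs).comp_injective (i := fun v : H55R.Pl K => v.asIdeal)
    fun _ _ h => HeightOneSpectrum.ext h

theorem pt8_sum (S : Set (H55R.Pl K)) (s : ℝ) (hs : 1 < s) :
    Summable (S.indicator fun v : H55R.Pl K => (Ideal.absNorm v.asIdeal : ℝ) ^ (-s)) :=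
  (pt8_summable s hs).indicator S

theorem pt8_mono {S T : Set (H55R.Pl K)} (h : S ⊆ T) (s : ℝ) (hs : 1 < s) :
    H55R.PS S s ≤ H55R.PS T s := by
  unfold H55R.PS
  refine (pt8_sum S s hs).tsum_le_tsum (fun v => ?_) (pt8_sum T s hs)
  exact Set.indicator_le_indicator_of_subset h (fun v => by positivity) v

theorem pt8_nonneg (S : Set (H55R.Pl K)) (s : ℝ) : 0 ≤ H55R.PS S s := by
  unfold H55R.PS
  exact tsum_nonneg fun v => Set.indicator_nonneg (fun v _ => by positivity) v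

theorem pt8_union (S T : Set (H55R.Pl K)) (s : ℝ) (hs : 1 < s) :
    H55R.PS (S ∪ T) s ≤ H55R.PS S s + H55R.PS T s := by
  have h1 : H55R.PS (S ∪ T) s + H55R.PS (S ∩ T) s = H55R.PS S s + H55R.PS T s := by
    unfold H55R.PS
    rw [← (pt8_sum (S ∪ T) s hs).tsum_add (pt8_sum (S ∩ T) s hs),
      ← (pt8_sum S s hs).tsum_add (pt8_sum T s hs)]
    exact tsum_congr fun v => Set.indicator_union_add_inter_apply _ S T v
  have h2 := pt8_nonneg (S ∩ T) s
  linarith

theorem pt8_fin {S : Set (H55R.Pl K)} (hS : S.Finite) (s : ℝ) (hs : 1 < s) :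
    H55R.PS S s ≤ hS.toFinset.card := by
  unfold H55R.PS
  rw [tsum_eq_sum (s := hS.toFinset) fun v hv => by
    rw [Set.indicator_of_notMem]
    exact fun h => hv (hS.mem_toFinset.2 h)]
  have h1 : ∀ v ∈ hS.toFinset, S.indicator (fun v : H55R.Pl K => (Ideal.absNorm v.asIdeal : ℝ) ^ (-s)) v ≤
      1 := by
    intro v hv
    rw [Set.indicator_of_mem (hS.mem_toFinset.1 hv)]
    apply Real.rpow_le_one_of_one_le_of_nonpos (pt8_one_le v)
    linarith
  calc _ ≤ ∑ v ∈ hS.toFinset, (1 : ℝ) := Finset.sum_le_sum h1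
    _ = _ := by simp

/-- The primes whose norm is not a prime number. -/
theorem pt8_np : ∃ C : ℝ, ∀ s : ℝ, 1 < s →
    H55R.PS {v : H55R.Pl K | ¬ (Ideal.absNorm v.asIdeal).Prime} s ≤ C := by
  classical
  have hz : Summable fun q : ℕ => (Module.finrank ℚ K : ℝ) * ((q : ℝ) ^ 2)⁻¹ :=
    (Real.summable_nat_pow_inv.2 one_lt_two).mul_left _
  refine ⟨∑' q : ℕ, (Module.finrank ℚ K : ℝ) * ((q : ℝ) ^ 2)⁻¹, fun s hs => ?_⟩
  unfold H55R.PS
  refine (pt8_sum _ s hs).tsum_le_of_sum_le fun U => ?_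
  choose q f hq hf hn hm using fun v : H55R.Pl K => pt8_pow v
  have h1 : ∑ v ∈ U, ({v : H55R.Pl K | ¬ (Ideal.absNorm v.asIdeal).Prime}.indicator
      (fun v => (Ideal.absNorm v.asIdeal : ℝ) ^ (-s))) v =
      ∑ r ∈ U.image q, ∑ v ∈ U with q v = r, ({v : H55R.Pl K | ¬ (Ideal.absNorm v.asIdeal).Prime}.indicator
      (fun v => (Ideal.absNorm v.asIdeal : ℝ) ^ (-s))) v := by
    rw [Finset.sum_fiberwise_of_maps_to]
    intro v hv
    exact Finset.mem_image_of_mem q hv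
  rw [h1]
  have h2 : ∀ v : H55R.Pl K, ({v : H55R.Pl K | ¬ (Ideal.absNorm v.asIdeal).Prime}.indicator
      (fun v => (Ideal.absNorm v.asIdeal : ℝ) ^ (-s))) v ≤ ((q v : ℝ) ^ 2)⁻¹ := by
    intro v
    by_cases hv : (Ideal.absNorm v.asIdeal).Prime
    · rw [Set.indicator_of_notMem (show v ∉ {v : H55R.Pl K | ¬ (Ideal.absNorm v.asIdeal).Prime} from
        fun h => h hv)]
      positivity
    · rw [Set.indicator_of_mem (show v ∈ {v : H55R.Pl K | ¬ (Ideal.absNorm v.asIdeal).Prime} from hv)]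
      have h3 : 2 ≤ f v := by
        by_contra h4
        have h5 : f v = 1 := by
          have := hf v
          omega
        apply hv
        rw [hn v, h5, pow_one]
        exact hq v
      have h6 : (Ideal.absNorm v.asIdeal : ℝ) ^ (-s) ≤ (Ideal.absNorm v.asIdeal : ℝ) ^ (-(1 : ℝ)) :=
        Real.rpow_le_rpow_of_exponent_le (pt8_one_le v) (by linarith)
      refine h6.trans ?_
      rw [Real.rpow_neg_one, hn v]
      have hq1 : (1 : ℝ) ≤ (q v : ℝ) := by exact_mod_cast (hq v).one_lt.le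
      push_cast
      apply inv_anti₀ (by positivity)
      exact pow_le_pow_right₀ hq1 h3
  have h3 : ∀ r ∈ U.image q, ∑ v ∈ U with q v = r, ({v : H55R.Pl K | ¬ (Ideal.absNorm v.asIdeal).Prime}.indicator
      (fun v => (Ideal.absNorm v.asIdeal : ℝ) ^ (-s))) v ≤ (Module.finrank ℚ K : ℝ) * ((r : ℝ) ^ 2)⁻¹ := by
    intro r hr
    obtain ⟨v₀, -, hv₀⟩ := Finset.mem_image.1 hr
    have hrp : r.Prime := hv₀ ▸ hq v₀
    have h4 : ∀ v ∈ U.filter (fun v => q v = r), ({v : H55R.Pl K | ¬ (Ideal.absNorm v.asIdeal).Prime}.indicator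
      (fun v => (Ideal.absNorm v.asIdeal : ℝ) ^ (-s))) v ≤ ((r : ℝ) ^ 2)⁻¹ := by
      intro v hv
      have h5 := h2 v
      rw [(Finset.mem_filter.1 hv).2] at h5
      exact h5
    refine (Finset.sum_le_sum h4).trans ?_
    rw [Finset.sum_const, nsmul_eq_mul]
    refine mul_le_mul_of_nonneg_right ?_ (by positivity)
    have h6 : (U.filter (fun v => q v = r)).card ≤ Module.finrank ℚ K := by
      apply pt8_count r hrp
      · intro v hv
        have h7 := hm v
        rw [(Finset.mem_filter.1 hv).2] at h7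
        exact h7
      · intro v hv
        have h7 := hn v
        rw [(Finset.mem_filter.1 hv).2] at h7
        rw [h7]
        exact Nat.le_self_pow (hf v).ne' r
    exact_mod_cast h6
  refine (Finset.sum_le_sum h3).trans ?_
  exact hz.sum_le_tsum _ fun r _ => by positivity

theorem pt8_finnorm (S : Set ℕ) (hS : S.Finite) :
    {v : H55R.Pl K | Ideal.absNorm v.asIdeal ∈ S}.Finite := by
  have h1 : {v : H55R.Pl K | Ideal.absNorm v.asIdeal ∈ S} ⊆
      (fun v : H55R.Pl K => v.asIdeal) ⁻¹' (⋃ n ∈ S, {I : Ideal (𝓞 K) | Ideal.absNorm I = n}) := by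
    intro v hv
    simp only [Set.mem_preimage, Set.mem_iUnion, Set.mem_ofPred_eq]
    exact ⟨_, hv, rfl⟩
  refine Set.Finite.subset (Set.Finite.preimage (fun v _ w _ h => HeightOneSpectrum.ext h) ?_) h1
  refine hS.biUnion fun n hn => ?_
  exact Ideal.finite_setOfPred_absNorm_eq n

end pt8

variable {F : Type} [Field F] [NumberField F] [IQ F] {K : Type} [Field K] [NumberField K]
  [Algebra F K] {m : ℕ}

theorem pt8_log : ∃ C : ℝ, ∀ s ∈ Set.Ioc (1 : ℝ) 2,
    Real.log (1 / (s - 1)) - C ≤ H55R.PS (Set.univ : Set (H55R.Pl K)) s := by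
  obtain ⟨C, hC⟩ := H55R.density_split K K
  refine ⟨C, fun s hs => ?_⟩
  have h1 := (abs_le.1 (hC s hs)).1
  rw [Module.finrank_self, Nat.cast_one, div_one, one_mul] at h1
  have h2 := pt8_mono (Set.subset_univ {v : H55R.Pl K | H55R.Spl K K v}) s hs.1
  linarith

theorem pt8_lim {a b D : ℝ}
    (h : ∀ s ∈ Set.Ioc (1 : ℝ) 2, a * Real.log (1 / (s - 1)) ≤ b * Real.log (1 / (s - 1)) + D) :
    a ≤ b := by
  by_contra hab
  push Not at hab
  set T : ℝ := max 0 (D / (a - b)) + 1 with hT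
  have hT1 : 0 < T := by
    have := le_max_left 0 (D / (a - b))
    linarith
  have hab' : 0 < a - b := by linarith
  have hT2 : D < (a - b) * T := by
    have h1 := le_max_right 0 (D / (a - b))
    have h2 : D / (a - b) < T := by linarith
    rw [div_lt_iff₀ hab'] at h2
    linarith
  have h3 := h (1 + Real.exp (-T)) ⟨by linarith [Real.exp_pos (-T)], by
    have := Real.exp_le_one_iff.2 (by linarith : -T ≤ 0)
    linarith⟩
  rw [add_sub_cancel_left, one_div, ← Real.exp_neg, neg_neg, Real.log_exp] at h3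
  linarith

include F in
theorem pt8_infinite (f : Ideal (𝓞 K)) (hf : f ≠ ⊥) (hf' : f ≠ ⊤) (φ : H55R.Pl K → ℂˣ)
    (hφ : φ ∈ H55R.RC f) (h1 : φ ≠ 1) (hfo : IsOfFinOrder φ) (Bad : Set (Ideal (𝓞 K)))
    (hB : Bad.Finite) :
    {q : ℕ | q.Prime ∧ ∃ w : H55R.Pl K, w.asIdeal ∉ Bad ∧ Ideal.absNorm w.asIdeal = q ∧
      ¬ f ≤ w.asIdeal ∧ φ w ≠ 1}.Infinite := by
  classical
  intro hfin
  have hYf : Finite (Subgroup.zpowers φ) := (finite_zpowers.2 hfo).to_subtype
  have hY : Subgroup.zpowers φ ≤ H55R.RC f := by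
    rw [Subgroup.zpowers_le]
    exact hφ
  obtain ⟨C₁, hC₁⟩ := density_kerF F f hf hf' (Subgroup.zpowers φ) hY
  obtain ⟨C₂, hC₂⟩ := pt8_log (K := K)
  obtain ⟨C₃, hC₃⟩ := pt8_np (K := K)
  have hcard : 2 ≤ Nat.card (Subgroup.zpowers φ) := by
    rw [Nat.card_zpowers]
    have e1 : 0 < orderOf φ := orderOf_pos_iff.2 hfo
    have e2 : orderOf φ ≠ 1 := fun h => h1 (orderOf_eq_one_iff.1 h)
    omega
  have hfF : {v : H55R.Pl K | f ≤ v.asIdeal}.Finite :=
    (Ideal.finite_factors hf).subset fun v hv => Ideal.dvd_iff_le.2 hv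
  have hBF : {v : H55R.Pl K | v.asIdeal ∈ Bad}.Finite :=
    Set.Finite.preimage (fun v _ w _ h => HeightOneSpectrum.ext h) hB
  have hSF := pt8_finnorm (K := K) _ hfin
  have hF := (hfF.union hBF).union hSF
  have hcov : (Set.univ : Set (H55R.Pl K)) ⊆
      ({v : H55R.Pl K | ¬ f ≤ v.asIdeal ∧ ∀ χ ∈ Subgroup.zpowers φ, χ v = 1} ∪
        {v : H55R.Pl K | ¬ (Ideal.absNorm v.asIdeal).Prime}) ∪
      (({v : H55R.Pl K | f ≤ v.asIdeal} ∪ {v : H55R.Pl K | v.asIdeal ∈ Bad}) ∪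
        {v : H55R.Pl K | Ideal.absNorm v.asIdeal ∈ {q : ℕ | q.Prime ∧ ∃ w : H55R.Pl K,
          w.asIdeal ∉ Bad ∧ Ideal.absNorm w.asIdeal = q ∧ ¬ f ≤ w.asIdeal ∧ φ w ≠ 1}}) := by
    intro v _
    by_cases hv1 : (Ideal.absNorm v.asIdeal).Prime
    swap
    · exact Or.inl (Or.inr hv1)
    by_cases hv2 : f ≤ v.asIdeal
    · exact Or.inr (Or.inl (Or.inl hv2))
    by_cases hv3 : v.asIdeal ∈ Bad
    · exact Or.inr (Or.inl (Or.inr hv3))
    by_cases hv4 : φ v = 1
    · refine Or.inl (Or.inl ⟨hv2, fun χ hχ => ?_⟩)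
      obtain ⟨k, rfl⟩ := Subgroup.mem_zpowers_iff.1 hχ
      rw [Pi.pow_apply, hv4, one_zpow]
    · exact Or.inr (Or.inr ⟨hv1, v, hv3, rfl, hv2, hv4⟩)
  have hle : (1 : ℝ) ≤ 1 / Nat.card (Subgroup.zpowers φ) := by
    refine pt8_lim (D := C₁ + C₂ + C₃ + hF.toFinset.card) fun s hs => ?_
    have e1 := hC₁ s hs
    have e2 := hC₂ s hs
    have e3 := hC₃ s hs.1
    have e4 := pt8_mono hcov s hs.1
    have e5 := pt8_union ({v : H55R.Pl K | ¬ f ≤ v.asIdeal ∧ ∀ χ ∈ Subgroup.zpowers φ, χ v = 1} ∪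
        {v : H55R.Pl K | ¬ (Ideal.absNorm v.asIdeal).Prime})
      (({v : H55R.Pl K | f ≤ v.asIdeal} ∪ {v : H55R.Pl K | v.asIdeal ∈ Bad}) ∪
        {v : H55R.Pl K | Ideal.absNorm v.asIdeal ∈ {q : ℕ | q.Prime ∧ ∃ w : H55R.Pl K,
          w.asIdeal ∉ Bad ∧ Ideal.absNorm w.asIdeal = q ∧ ¬ f ≤ w.asIdeal ∧ φ w ≠ 1}}) s hs.1
    have e6 := pt8_union {v : H55R.Pl K | ¬ f ≤ v.asIdeal ∧ ∀ χ ∈ Subgroup.zpowers φ, χ v = 1}
        {v : H55R.Pl K | ¬ (Ideal.absNorm v.asIdeal).Prime} s hs.1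
    have e7 := pt8_fin hF s hs.1
    linarith
  have hc2 : (2 : ℝ) ≤ Nat.card (Subgroup.zpowers φ) := by exact_mod_cast hcard
  rw [le_div_iff₀ (by linarith)] at hle
  linarith

/-! Chunk PT8 (M). Smoothing primes.
PROOF. g = span {p} * mK K M, φ from exists_theta, Y = Subgroup.zpowers φ (finite, card >= 2, <= RC g). density_kerF: the primes v with not g <= v and φ v = 1 (all of Y is 1 iff φ v = 1) have PS <= (1/2) log(1/(s-1)) + C on (1,2]. The sum over all primes of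
Nv^(-s) is >= log(1/(s-1)) - C' (density_split K K, or zeta_log and log_cmp with the trivial character). The primes whose norm is not a prime number: over each rational prime there are at most n = [K:ℚ] primes, and Nv >= p^2 for these, so the
sum of Nv^(-s) over them is at most n * sum p^(-2) < infinity (or: Nv = q^f, f >= 2; Summable over Nat of n^(-2) with fibres at most ..., e.g. from D5_card_le with base field ℚ (D5_T (L := K) for primes of ℚ), or number of ideals of prime power norm). The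
primes in a finite set or containing g (finitely many) contribute at most a constant. Suppose that only finitely many rational primes q are norms of primes w not in Bad with φ w <> 1, not g <= w. Then all primes outside a set of bounded PS have φ = 1, so
log(1/(s-1)) <= (1/2) log(1/(s-1)) + const on (1,2], contradiction as s -> 1 (X10_lim in H55R/X10.lean). So the set of such q is infinite; conclude as in exists_smooth of Lib/H55N/S4.lean. -/

theorem exists_smoothP (p : ℕ) (hp : p.Prime) {M : Ideal (𝓞 F)} {ψ : Ideal (𝓞 F) →*₀ 𝓞 F}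
    (h : IsHecke M ψ) (hMp : IsCoprime M (Ideal.span {(p : 𝓞 F)})) (V : ValuationSubring ℂ)
    (hV : V.valuation (p : ℂ) < 1) (hNT : NTP K p M ψ V) (m : ℕ) (Bad : Set (Ideal (𝓞 K)))
    (hB : Bad.Finite) :
    ∃ (c : Fin (m + 1) × Fin 2 → Ideal (𝓞 K)) (q : Fin (m + 1) × Fin 2 → ℕ), Smooth c q ∧
      (∀ i, (c i).IsPrime ∧ c i ∉ Bad) ∧ ∀ i, V.valuation (1 - PsiP K ψ (c i)) = 1 := by
  classical
  obtain ⟨φ, hφ, hφ1, hfo, hval⟩ := exists_theta p hp h hMp V hV hNT
  have hpK : (p : 𝓞 K) ≠ 0 := by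
    exact_mod_cast hp.ne_zero
  have hf : Ideal.span {(p : 𝓞 K)} * mK K M ≠ ⊥ := by
    apply mul_ne_zero
    · rw [Ne, Ideal.zero_eq_bot, Ideal.span_singleton_eq_bot]
      exact hpK
    · intro h0
      apply h.ne
      exact (Ideal.map_eq_bot_iff_of_injective (FaithfulSMul.algebraMap_injective (𝓞 F) (𝓞 K))).1 h0
  have hf' : Ideal.span {(p : 𝓞 K)} * mK K M ≠ ⊤ := by
    intro h0
    have h01 : Ideal.span {(p : 𝓞 K)} * mK K M ≤ Ideal.span {(p : 𝓞 K)} := Ideal.mul_le_left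
    rw [h0] at h01
    have h1 : Ideal.span {(p : 𝓞 K)} = ⊤ := top_le_iff.1 h01
    have h2 := pt8_norm (K := K) p
    rw [h1, Ideal.absNorm_top] at h2
    have h3 : 1 < p ^ Module.finrank ℚ K := Nat.one_lt_pow Module.finrank_pos.ne' hp.one_lt
    omega
  have hS := pt8_infinite (F := F) _ hf hf' φ hφ hφ1 hfo Bad hB
  set S := {q : ℕ | q.Prime ∧ ∃ w : H55R.Pl K, w.asIdeal ∉ Bad ∧ Ideal.absNorm w.asIdeal = q ∧
      ¬ Ideal.span {(p : 𝓞 K)} * mK K M ≤ w.asIdeal ∧ φ w ≠ 1} with hSdef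
  let f : Fin (m + 1) × Fin 2 → ℕ := fun i => (hS.natEmbedding S (Encodable.encode i) : ℕ)
  have hfi : Function.Injective f := by
    intro i j hij
    exact Encodable.encode_injective ((hS.natEmbedding S).injective (Subtype.ext hij))
  have hfS : ∀ i, f i ∈ S := fun i => (hS.natEmbedding S (Encodable.encode i)).2
  choose hp w hwB hwn hw1 hw2 using hfS
  exact ⟨fun i => (w i).asIdeal, f, ⟨hwn, hp, hfi⟩, fun i => ⟨(w i).isPrime, hwB i⟩,
    fun i => hval (w i) (hw1 i) (hw2 i)⟩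

end H55P
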