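import Mathlib
import Pool.Agent.Lib.H55N.TW1
import Pool.Agent.Lib.H55P.Core
import Pool.Agent.Lib.H55P.T2
import Pool.Agent.Lib.H55P.T3
import Pool.Agent.Lib.H55P.T5
import Pool.Agent.Lib.H55P.T6
import Pool.Agent.Lib.H55P.T8

open NumberField IsDedekindDomain

namespace H55P

open H55N
open H55B (g)

variable {F : Type} [Field F] [NumberField F] [IQ F] {K : Type} [Field K] [NumberField K]
  [Algebra F K] {m : ℕ}

/-! Chunk PT9 (M/L). The twisted L-value; PORT of LV_twist in Lib/H55N/TWF.lean (see also LVT_twist in Lib/H19T/TWF.lean) at a fixed V. Data: l from IsHecke.toMod; J = mK K M * f, g = span {p} * J, exists_CDJ J g (J <> top because M <> top: mK K M <> top since relNorm / a prime above);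
hlam: c₀ i is not in span {l} * b i: there is a prime w of K containing l, mK K M * f <= mK K M <= (l) <= w, hprim. core and nopoles of H55P/Core.lean, exists_smoothP, exists_kappaP, series_eqP twice, series_eq0P, glue, ident (H55N/TW1.lean), one_sumP, P_neP, factorP, EfacP.
The comparison at s = 1: κ i = κ' i + κ' i (ζ i - 1), V(ζ i - 1) < 1 (root_max), V(Z i 1 / Om^n) <= 1 from core, V(absNorm) <= 1. The sum for κ' is a unit at V by (one_sumP, ident): smoothing factors (factorP) times Euler factors (EfacP: primes w containing f are prime to p: hχ.cop) times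
Λ(1)/Om^n. -/

theorem pt9_above (K : Type) [Field K] [NumberField K] [Algebra F K]
    (v : HeightOneSpectrum (𝓞 F)) :
    ∃ w : HeightOneSpectrum (𝓞 K), v.asIdeal = w.asIdeal.comap (algebraMap (𝓞 F) (𝓞 K)) := by
  have hint : Algebra.IsIntegral (𝓞 F) (𝓞 K) := inferInstance
  have hinj : Function.Injective (algebraMap (𝓞 F) (𝓞 K)) := FaithfulSMul.algebraMap_injective _ _
  have := v.isPrime
  obtain ⟨Q, hQ, hQv⟩ := Ideal.exists_ideal_over_prime_of_isIntegral_of_isDomain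
    (S := 𝓞 K) v.asIdeal (by
      rw [(RingHom.injective_iff_ker_eq_bot _).1 hinj]
      exact bot_le)
  have hQb : Q ≠ ⊥ := by
    rintro rfl
    apply v.ne_bot
    rw [← hQv, ← RingHom.ker_eq_comap_bot]
    exact (RingHom.injective_iff_ker_eq_bot _).1 hinj
  exact ⟨⟨Q, hQ, hQb⟩, hQv.symm⟩

theorem pt9_prime (K : Type) [Field K] [NumberField K] [Algebra F K] {p : ℕ} {M : Ideal (𝓞 F)}
    {l : 𝓞 F} (hl : Mod p M l) : ∃ w : HeightOneSpectrum (𝓞 K),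
      algebraMap (𝓞 F) (𝓞 K) l ∈ w.asIdeal ∧ mK K M ≤ w.asIdeal := by
  let v : HeightOneSpectrum (𝓞 F) := ⟨Ideal.span {l},
    (Ideal.span_singleton_prime hl.prime.ne_zero).2 hl.prime, by simpa using hl.prime.ne_zero⟩
  obtain ⟨w, hw⟩ := pt9_above K v
  refine ⟨w, ?_, ?_⟩
  · have h2 : l ∈ v.asIdeal := Ideal.mem_span_singleton_self _
    rw [hw] at h2
    exact h2
  · unfold mK
    rw [Ideal.map_le_iff_le_comap, ← hw]
    exact hl.le

theorem pt9_mK_ne {M : Ideal (𝓞 F)} (hM : M ≠ ⊥) : mK K M ≠ ⊥ := by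
  have hinj : Function.Injective (algebraMap (𝓞 F) (𝓞 K)) := FaithfulSMul.algebraMap_injective _ _
  unfold mK
  rw [Ne, Ideal.map_eq_bot_iff_of_injective hinj]
  exact hM

theorem pt9_finite (b : Ideal (𝓞 K)) (hb : b ≠ ⊥) : {w : Ideal (𝓞 K) | b ≤ w}.Finite := by
  refine (Ideal.finite_setOfPred_absNorm_le (S := 𝓞 K) (Ideal.absNorm b)).subset ?_
  intro w hw
  have h1 : w ∣ b := Ideal.dvd_iff_le.2 hw
  have h2 : Ideal.absNorm w ∣ Ideal.absNorm b := map_dvd _ h1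
  refine Nat.le_of_dvd (Nat.pos_of_ne_zero ?_) h2
  rw [Ne, Ideal.absNorm_eq_zero_iff]
  exact hb

theorem pt9_nat (V : ValuationSubring ℂ) (n : ℕ) : V.valuation (n : ℂ) ≤ 1 :=
  (V.valuation_le_one_iff _).2 (natCast_mem V n)

theorem LVP_twist (p : ℕ) (hp : p.Prime) {M : Ideal (𝓞 F)} {ψ : Ideal (𝓞 F) →*₀ 𝓞 F}
    (h : IsHecke M ψ) (hMp : IsCoprime M (Ideal.span {(p : 𝓞 F)})) (hK : UnrP p K)
    (Ac Bc Om : ℂ) (hper : Per F Ac Bc Om) (V : ValuationSubring ℂ)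
    (hV : V.valuation (p : ℂ) < 1) (hg : GoodV Ac Bc V) (hNT : NTP K p M ψ V) (f : Ideal (𝓞 K))
    (χ : Ideal (𝓞 K) →*₀ ℂ) (hχ : PChr p f χ)
    (hf : ∀ w : HeightOneSpectrum (𝓞 K), f ≤ w.asIdeal →
      V.valuation (1 - (starRingEnd ℂ) (PsiP K ψ w.asIdeal)) = 1)
    (hL : LVP F V Om (PsiP K ψ)) : LVP F V Om (PsiP K ψ * χ : Ideal (𝓞 K) →*₀ ℂ) := by
  classical
  obtain ⟨l, hl⟩ := h.toMod p hMp
  obtain ⟨w0, hw0l, hw0M⟩ := pt9_prime K hl
  obtain ⟨m, hm⟩ : ∃ m, Module.finrank F K = m + 1 :=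
    ⟨Module.finrank F K - 1, (Nat.sub_add_cancel Module.finrank_pos).symm⟩
  have hJM : mK K M * f ≤ mK K M := Ideal.mul_le_left
  have hJ0 : mK K M * f ≠ ⊥ := mul_ne_zero (pt9_mK_ne h.ne) hχ.ne
  have hJ1 : mK K M * f ≠ ⊤ := by
    intro h1
    apply w0.isPrime.ne_top
    rw [← top_le_iff, ← h1]
    exact hJM.trans hw0M
  have hg0 : Ideal.span {(p : 𝓞 K)} * (mK K M * f) ≠ ⊥ := by
    refine mul_ne_zero ?_ hJ0
    have h1 : Ideal.span {(p : 𝓞 K)} ≠ ⊥ := by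
      rw [Ne, Ideal.span_singleton_eq_bot, Nat.cast_eq_zero]
      exact hp.ne_zero
    exact h1
  have hgJ : Ideal.span {(p : 𝓞 K)} * (mK K M * f) ≤ mK K M * f := Ideal.mul_le_right
  obtain ⟨ι, hι, b, c₀, T, hcd⟩ := exists_CDJ (mK K M * f) (Ideal.span {(p : 𝓞 K)} * (mK K M * f))
    hJ0 hg0 hgJ hJ1
  have hbp : ∀ i, IsCoprime (b i) (Ideal.span {(p : 𝓞 K)}) := fun i =>
    (hcd.cop i).of_mul_right_left
  have hlam : ∀ i, c₀ i ∉ Ideal.span {algebraMap (𝓞 F) (𝓞 K) l} * b i := by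
    intro i hi
    refine hcd.prim i w0 (hJM.trans hw0M) (Ideal.mul_mono_left ?_ hi)
    rw [Ideal.span_singleton_le_iff_mem]
    exact hw0l
  have hcore := fun i => core p hp hl K m hm hK (b i) f (hcd.ne i) (hbp i) hχ.ne hχ.cop (c₀ i)
    (hcd.mem i) (hlam i)
  choose Bad hBad hcore using hcore
  have hnop := fun i => nopoles p hp hl K m hm (b i) f (hcd.ne i) hχ.ne (c₀ i) (hcd.mem i) (hlam i)
  choose Z0 hZ0 hZ0s using hnop
  obtain ⟨c, q, hs, hcb, hun⟩ := exists_smoothP p hp h hMp V hV hNT m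
    ((⋃ i, Bad i) ∪ ⋃ i, {w : Ideal (𝓞 K) | b i ≤ w})
    ((Set.finite_iUnion hBad).union (Set.finite_iUnion fun i => pt9_finite (b i) (hcd.ne i)))
  have hcp : ∀ j, (c j).IsPrime := fun j => (hcb j).1
  have hbc : ∀ i j, IsCoprime (b i) (c j) := by
    intro i j
    rw [Ideal.isCoprime_iff_sup_eq]
    by_contra h
    have hmax : (c j).IsMaximal := (hcp j).isMaximal (pt3_ne hs j)
    have h1 : c j ≤ b i ⊔ c j := le_sup_right
    have h2 : b i ⊔ c j = c j := (hmax.eq_of_le h h1).symm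
    apply (hcb j).2
    refine Or.inr (Set.mem_iUnion.2 ⟨i, ?_⟩)
    show b i ≤ c j
    rw [← h2]
    exact le_sup_left
  have hZex := fun i => hcore i c q hs (fun j hj => (hcb j).2 (Or.inl (Set.mem_iUnion.2 ⟨i, hj⟩)))
  choose Z hZa hZs hZi using hZex
  have hkap := fun i => exists_kappaP p hp h hMp f χ hχ (b i) (hcd.ne i) (hcd.cop i) (c₀ i)
    (hcd.mem i) (hcd.prim i)
  choose κ κ' ζ hκu hζ hκζ hκ using hkap
  have hC : CoefP F (mK K M * f) ι b c₀ (PsiP K ψ * χ) κ := coef_mulP h hχ.zero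
    (fun a => hχ.norm_le hp.ne_zero a)
    (fun i x hx a ha => ⟨(hκ i x hx a ha).1, (hκ i x hx a ha).2.1⟩)
  have hC' : CoefP F (mK K M * f) ι b c₀ (PsiP K ψ * oneI f) κ' := coef_mulP h (pt3_oneI_zero f)
    (pt3_oneI_norm_le f)
    (fun i x hx a ha => ⟨(hκ i x hx a ha).1, (hκ i x hx a ha).2.2⟩)
  have hNb : ∀ i, Ideal.absNorm (b i) ≠ 0 := fun i => by
    rw [Ne, Ideal.absNorm_eq_zero_iff]
    exact hcd.ne i
  -- the smoothed functions
  have hZsum : ∀ i s, 3 / 2 < s.re → HasSum (fun x : T i => gw c q x * nf F s (x : 𝓞 K)) (Z i s) :=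
    fun i s hs' => hZs i (T i) (hcd.trans i) s hs'
  have e1 : ∀ s : ℂ, 3 / 2 < s.re →
      (∏ j, (1 - (q j : ℂ) * tm (PsiP K ψ * χ : Ideal (𝓞 K) →*₀ ℂ) s (c j))) *
      ∑' a, tm (PsiP K ψ * χ : Ideal (𝓞 K) →*₀ ℂ) s a =
        ∑ i, κ i * (Ideal.absNorm (b i) : ℂ) ^ s * Z i s :=
    fun s hs' => series_eqP hgJ hJ1 hcd hC hs hcp hbc Z s hs' fun i => hZsum i s hs'
  have e2 : ∀ s : ℂ, 3 / 2 < s.re →
      (∏ j, (1 - (q j : ℂ) * tm (PsiP K ψ * oneI f : Ideal (𝓞 K) →*₀ ℂ) s (c j))) *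
      ∑' a, tm (PsiP K ψ * oneI f : Ideal (𝓞 K) →*₀ ℂ) s a =
        ∑ i, κ' i * (Ideal.absNorm (b i) : ℂ) ^ s * Z i s :=
    fun s hs' => series_eqP hgJ hJ1 hcd hC' hs hcp hbc Z s hs' fun i => hZsum i s hs'
  have e3 : ∀ s : ℂ, 3 / 2 < s.re → HasSum (tm (PsiP K ψ * χ : Ideal (𝓞 K) →*₀ ℂ) s)
      (∑ i, κ i * (Ideal.absNorm (b i) : ℂ) ^ s * Z0 i s) :=
    fun s hs' => series_eq0P hgJ hJ1 hcd hC Z0 s fun i => hZ0s i (T i) (hcd.trans i) s hs'
  have hGa : ∀ κ : ι → ℂ, AnalyticOnNhd ℂ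
      (fun s : ℂ => ∑ i, κ i * (Ideal.absNorm (b i) : ℂ) ^ s * Z i s) {s | 1 / 2 < s.re} := by
    intro κ s hs'
    exact Finset.analyticAt_fun_sum _ fun i _ =>
      (analyticAt_const.mul (pt3_pow_analytic _ (hNb i) Set.univ s trivial)).mul (hZa i s hs')
  have hZ0a : AnalyticOnNhd ℂ
      (fun s : ℂ => ∑ i, κ i * (Ideal.absNorm (b i) : ℂ) ^ s * Z0 i s)
      {s | 3 / 2 - 1 / (2 * (m + 1 : ℝ)) < s.re} := by
    intro s hs'
    exact Finset.analyticAt_fun_sum _ fun i _ =>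
      (analyticAt_const.mul (pt3_pow_analytic _ (hNb i) Set.univ s trivial)).mul (hZ0 i s hs')
  have hPa : ∀ h : Ideal (𝓞 K) →*₀ ℂ, AnalyticOnNhd ℂ
      (fun s : ℂ => ∏ j, (1 - (q j : ℂ) * tm h s (c j))) {s | 1 / 2 < s.re} := by
    intro h s hs'
    exact Finset.analyticAt_fun_prod _ fun j _ =>
      (analyticAt_const.sub (analyticAt_const.mul
        (pt3_tm_analytic h (c j) (pt3_ne hs j) Set.univ s trivial)))
  obtain ⟨Λ, hΛa, hΛ, hΛG⟩ := glue (1 / (2 * (m + 1 : ℝ))) (by positivity)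
    (fun s : ℂ => ∑ i, κ i * (Ideal.absNorm (b i) : ℂ) ^ s * Z i s)
    (fun s : ℂ => ∑ i, κ i * (Ideal.absNorm (b i) : ℂ) ^ s * Z0 i s)
    (fun s : ℂ => ∏ j, (1 - (q j : ℂ) * tm (PsiP K ψ * χ : Ideal (𝓞 K) →*₀ ℂ) s (c j)))
    (hGa κ) hZ0a (hPa _)
    (fun s hs' => Finset.prod_ne_zero_iff.2 fun j _ => P_neP h p hp f χ hχ (c j) (q j) (hs.prime j)
      (hs.norm j) s hs')
    (fun s hs' => by
      show _ = _ * _
      rw [← e1 s hs', (e3 s hs').tsum_eq])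
  refine ⟨Λ, hΛa, fun s hs' => ?_, ?_⟩
  · rw [hΛ s hs']
    exact e3 s hs'
  -- the value at 1
  obtain ⟨ΛK, hKa, hKs, hKu⟩ := hL
  obtain ⟨S, hS, hSs⟩ := one_sumP h f hχ.ne
  have e4 : ∀ s : ℂ, 1 / 2 < s.re →
      (∑ i, κ' i * (Ideal.absNorm (b i) : ℂ) ^ s * Z i s) =
      (∏ j, (1 - (q j : ℂ) * tm (PsiP K ψ * oneI f : Ideal (𝓞 K) →*₀ ℂ) s (c j))) *
        ((∏ w ∈ S, (1 - tm (PsiP K ψ) s w.asIdeal)) * ΛK s) := by
    intro s hs'
    refine ident (fun s : ℂ => ∑ i, κ' i * (Ideal.absNorm (b i) : ℂ) ^ s * Z i s)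
      (fun s : ℂ => (∏ j, (1 - (q j : ℂ) * tm (PsiP K ψ * oneI f : Ideal (𝓞 K) →*₀ ℂ) s (c j))) *
        ((∏ w ∈ S, (1 - tm (PsiP K ψ) s w.asIdeal)) * ΛK s)) (hGa κ') ?_ ?_ s hs'
    · refine (hPa _).mul (AnalyticOnNhd.mul ?_ hKa)
      intro z hz
      exact Finset.analyticAt_fun_prod _ fun w _ =>
        (analyticAt_const.sub (pt3_tm_analytic (PsiP K ψ) w.asIdeal w.ne_bot Set.univ z trivial))
    · intro z hz
      show _ = _ * (_ * _)
      rw [← e2 z hz, (hSs z hz).tsum_eq, (hKs z hz).tsum_eq]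
  have h1re : (1 / 2 : ℝ) < (1 : ℂ).re := by norm_num
  have u1 : V.valuation (∏ j, (1 - (q j : ℂ) * tm (PsiP K ψ * χ : Ideal (𝓞 K) →*₀ ℂ) 1 (c j))) = 1 := by
    rw [map_prod]
    refine Finset.prod_eq_one fun j _ => factorP p hp V hV ψ χ (c j) (q j) (hs.prime j) (hs.norm j)
      (hun j) ?_
    by_cases hj : IsCoprime (c j) f
    · exact Or.inl (hχ.val _ (pt3_ne hs j) hj)
    · exact Or.inr (hχ.zero _ hj)
  have u2 : V.valuation
      (∏ j, (1 - (q j : ℂ) * tm (PsiP K ψ * oneI f : Ideal (𝓞 K) →*₀ ℂ) 1 (c j))) = 1 := by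
    rw [map_prod]
    refine Finset.prod_eq_one fun j _ => factorP p hp V hV ψ (oneI f) (c j) (q j) (hs.prime j)
      (hs.norm j) (hun j) ?_
    rcases pt3_oneI_eq f (c j) with h | h
    · exact Or.inl (by rw [h, one_pow])
    · exact Or.inr h
  have u3 : V.valuation (∏ w ∈ S, (1 - tm (PsiP K ψ) 1 w.asIdeal)) = 1 := by
    rw [map_prod]
    refine Finset.prod_eq_one fun w hw => EfacP p hp V hV h w ?_ (hf w ((hS w).1 hw))
    have h1 := hχ.cop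
    rw [Ideal.isCoprime_iff_sup_eq] at h1 ⊢
    rw [← top_le_iff, ← h1]
    exact sup_le_sup_right ((hS w).1 hw) _
  have u4 : V.valuation ((∑ i, κ' i * (Ideal.absNorm (b i) : ℂ) ^ (1 : ℂ) * Z i 1) /
      Om ^ Module.finrank F K) = 1 := by
    rw [e4 1 h1re, mul_div_assoc, mul_div_assoc, map_mul, map_mul, u2, u3, hKu, one_mul, one_mul]
  have u5 : V.valuation ((∑ i, κ i * (Ideal.absNorm (b i) : ℂ) ^ (1 : ℂ) * Z i 1) /
      Om ^ Module.finrank F K) = 1 := by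
    have h2 : (∑ i, κ i * (Ideal.absNorm (b i) : ℂ) ^ (1 : ℂ) * Z i 1) / Om ^ Module.finrank F K =
        (∑ i, κ' i * (ζ i - 1) * ((Ideal.absNorm (b i) : ℕ) : ℂ) * (Z i 1 / Om ^ (m + 1))) +
        (∑ i, κ' i * (Ideal.absNorm (b i) : ℂ) ^ (1 : ℂ) * Z i 1) / Om ^ Module.finrank F K := by
      rw [hm, Finset.sum_div, Finset.sum_div, ← Finset.sum_add_distrib]
      refine Finset.sum_congr rfl fun i _ => ?_
      rw [hκζ i, Complex.cpow_one]
      ring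
    have h3 : V.valuation (∑ i, κ' i * (ζ i - 1) * ((Ideal.absNorm (b i) : ℕ) : ℂ) *
        (Z i 1 / Om ^ (m + 1))) < 1 := by
      refine Valuation.map_sum_lt _ one_ne_zero fun i _ => ?_
      rw [map_mul, map_mul, map_mul, hκu i V hV, one_mul, mul_assoc]
      refine mul_lt_one_of_lt_of_le (root_max p hp V hV (ζ i) (hζ i)) (mul_le_one' (pt9_nat V _) ?_)
      exact hZi i Ac Bc Om hper V hV hg
    rw [h2, Valuation.map_add_eq_of_lt_right _ (by rw [u4]; exact h3), u4]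
  have e5 := hΛG 1 h1re
  have hne : (∏ j, (1 - (q j : ℂ) * tm (PsiP K ψ * χ : Ideal (𝓞 K) →*₀ ℂ) 1 (c j))) ≠ 0 := by
    intro h0
    rw [h0, map_zero] at u1
    exact zero_ne_one u1
  have h6 : Λ 1 / Om ^ Module.finrank F K =
      ((∑ i, κ i * (Ideal.absNorm (b i) : ℂ) ^ (1 : ℂ) * Z i 1) / Om ^ Module.finrank F K) *
      (∏ j, (1 - (q j : ℂ) * tm (PsiP K ψ * χ : Ideal (𝓞 K) →*₀ ℂ) 1 (c j)))⁻¹ := by
    rw [e5]
    field_simp
  rw [h6, map_mul, map_inv₀, u1, u5, inv_one, mul_one]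

end H55P
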