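import Mathlib
import Pool.Agent.Lib.H55P.T9

open NumberField IsDedekindDomain

namespace H55P

open H55N
open H55B (g)

variable {F : Type} [Field F] [NumberField F] [IQ F] {K : Type} [Field K] [NumberField K]
  [Algebra F K] {m : ℕ}

/-! The exact criterion, analytic side: integrality of the L-values, and the twisted L-value is a unit if and only if the
untwisted one is and the Euler factors are. -/

/-- The L-series of h converges for Re s > 3/2, continues to Re s > 1/2 and its value at 1, divided by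
the power of the period, is integral at V. -/
def LVI (F : Type) [Field F] [NumberField F] [IQ F] {K : Type} [Field K] [NumberField K] [Algebra F K]
    (V : ValuationSubring ℂ) (Om : ℂ) (h : Ideal (𝓞 K) →*₀ ℂ) : Prop :=
  ∃ Λ : ℂ → ℂ, AnalyticOnNhd ℂ Λ {s | 1 / 2 < s.re} ∧
    (∀ s : ℂ, 3 / 2 < s.re → HasSum (tm h s) (Λ s)) ∧
    V.valuation (Λ 1 / Om ^ Module.finrank F K) ≤ 1

/-- The term at 1 of a prime is 0 or the inverse of the conjugate. -/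
theorem tm_one (p : ℕ) (hp : p.Prime) (V : ValuationSubring ℂ) (hV : V.valuation (p : ℂ) < 1)
    {M : Ideal (𝓞 F)} {ψ : Ideal (𝓞 F) →*₀ 𝓞 F} (h : IsHecke M ψ) (w : HeightOneSpectrum (𝓞 K))
    (hwp : IsCoprime w.asIdeal (Ideal.span {(p : 𝓞 K)})) :
    V.valuation (1 - tm (PsiP K ψ) 1 w.asIdeal) ≤ 1 ∧
      (V.valuation (1 - tm (PsiP K ψ) 1 w.asIdeal) = 1 ↔
        V.valuation (1 - (starRingEnd ℂ) (PsiP K ψ w.asIdeal)) = 1) := by
  by_cases h0 : PsiP K ψ w.asIdeal = 0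
  · have h1 : tm (PsiP K ψ) 1 w.asIdeal = 0 := by
      unfold tm
      rw [h0, zero_mul]
    rw [h1, h0, map_zero, sub_zero, map_one]
    exact ⟨le_rfl, Iff.rfl⟩
  · have hcop := (PsiP_ne h w.asIdeal w.ne_bot).1 h0
    have hn := PsiP_norm h w.asIdeal w.ne_bot hcop
    have hu := PsiP_unit p hp h w.asIdeal w.ne_bot hcop hwp V hV
    have hc0 : (starRingEnd ℂ) (PsiP K ψ w.asIdeal) ≠ 0 := by
      rw [Ne, map_eq_zero]
      exact h0
    have hN : (Ideal.absNorm w.asIdeal : ℂ) =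
        PsiP K ψ w.asIdeal * (starRingEnd ℂ) (PsiP K ψ w.asIdeal) := by
      rw [Complex.mul_conj, Complex.normSq_eq_norm_sq, hn]
      push_cast
      rfl
    have h1 : 1 - tm (PsiP K ψ) 1 w.asIdeal =
        -((1 - (starRingEnd ℂ) (PsiP K ψ w.asIdeal)) / (starRingEnd ℂ) (PsiP K ψ w.asIdeal)) := by
      unfold tm
      rw [Complex.cpow_neg_one, hN]
      field_simp
      ring
    rw [h1, Valuation.map_neg, map_div₀, hu.2, div_one]
    refine ⟨?_, Iff.rfl⟩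
    exact (Valuation.map_sub _ _ _).trans (max_le (by rw [map_one]) hu.2.le)

/-- THE EXACT CRITERION for one twist. -/
theorem twist_main (p : ℕ) (hp : p.Prime) {M : Ideal (𝓞 F)} {ψ : Ideal (𝓞 F) →*₀ 𝓞 F}
    (h : IsHecke M ψ) (hMp : IsCoprime M (Ideal.span {(p : 𝓞 F)})) (hK : UnrP p K)
    (Ac Bc Om : ℂ) (hper : Per F Ac Bc Om) (V : ValuationSubring ℂ)
    (hV : V.valuation (p : ℂ) < 1) (hg : GoodV Ac Bc V) (hNT : NTP K p M ψ V) (f : Ideal (𝓞 K))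
    (χ : Ideal (𝓞 K) →*₀ ℂ) (hχ : PChr p f χ) :
    ∃ Λ : ℂ → ℂ, AnalyticOnNhd ℂ Λ {s | 1 / 2 < s.re} ∧
      (∀ s : ℂ, 3 / 2 < s.re → HasSum (tm (PsiP K ψ * χ : Ideal (𝓞 K) →*₀ ℂ) s) (Λ s)) ∧
      V.valuation (Λ 1 / Om ^ Module.finrank F K) ≤ 1 ∧
      ∀ ΛK : ℂ → ℂ, AnalyticOnNhd ℂ ΛK {s | 1 / 2 < s.re} →
        (∀ s : ℂ, 3 / 2 < s.re → HasSum (tm (PsiP K ψ) s) (ΛK s)) →
        V.valuation (ΛK 1 / Om ^ Module.finrank F K) ≤ 1 →
        (V.valuation (Λ 1 / Om ^ Module.finrank F K) = 1 ↔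
          V.valuation (ΛK 1 / Om ^ Module.finrank F K) = 1 ∧
          ∀ w : HeightOneSpectrum (𝓞 K), f ≤ w.asIdeal →
            V.valuation (1 - (starRingEnd ℂ) (PsiP K ψ w.asIdeal)) = 1) := by
  classical
  obtain ⟨l, hl⟩ := h.toMod p hMp
  obtain ⟨w0, hw0l, hw0M⟩ := pt9_prime K hl
  obtain ⟨m, hm⟩ : ∃ m, Module.finrank F K = m + 1 :=
    ⟨Module.finrank F K - 1, (Nat.sub_add_cancel Module.finrank_pos).symm⟩
  have hJM : mK K M * f ≤ mK K M := Ideal.mul_le_left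
  have hJ0 : mK K M * f ≠ ⊥ := mul_ne_zero (pt9_mK_ne h.ne) hχ.ne
  have hJ1 : mK K M * f ≠ ⊤ := by
    intro h1
    apply w0.isPrime.ne_top
    rw [← top_le_iff, ← h1]
    exact hJM.trans hw0M
  have hg0 : Ideal.span {(p : 𝓞 K)} * (mK K M * f) ≠ ⊥ := by
    refine mul_ne_zero ?_ hJ0
    have h1 : Ideal.span {(p : 𝓞 K)} ≠ ⊥ := by
      rw [Ne, Ideal.span_singleton_eq_bot, Nat.cast_eq_zero]
      exact hp.ne_zero
    exact h1
  have hgJ : Ideal.span {(p : 𝓞 K)} * (mK K M * f) ≤ mK K M * f := Ideal.mul_le_right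
  obtain ⟨ι, hι, b, c₀, T, hcd⟩ := exists_CDJ (mK K M * f) (Ideal.span {(p : 𝓞 K)} * (mK K M * f))
    hJ0 hg0 hgJ hJ1
  have hbp : ∀ i, IsCoprime (b i) (Ideal.span {(p : 𝓞 K)}) := fun i =>
    (hcd.cop i).of_mul_right_left
  have hlam : ∀ i, c₀ i ∉ Ideal.span {algebraMap (𝓞 F) (𝓞 K) l} * b i := by
    intro i hi
    refine hcd.prim i w0 (hJM.trans hw0M) (Ideal.mul_mono_left ?_ hi)
    rw [Ideal.span_singleton_le_iff_mem]
    exact hw0l
  have hcore := fun i => core p hp hl K m hm hK (b i) f (hcd.ne i) (hbp i) hχ.ne hχ.cop (c₀ i)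
    (hcd.mem i) (hlam i)
  choose Bad hBad hcore using hcore
  have hnop := fun i => nopoles p hp hl K m hm (b i) f (hcd.ne i) hχ.ne (c₀ i) (hcd.mem i) (hlam i)
  choose Z0 hZ0 hZ0s using hnop
  obtain ⟨c, q, hs, hcb, hun⟩ := exists_smoothP p hp h hMp V hV hNT m
    ((⋃ i, Bad i) ∪ ⋃ i, {w : Ideal (𝓞 K) | b i ≤ w})
    ((Set.finite_iUnion hBad).union (Set.finite_iUnion fun i => pt9_finite (b i) (hcd.ne i)))
  have hcp : ∀ j, (c j).IsPrime := fun j => (hcb j).1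
  have hbc : ∀ i j, IsCoprime (b i) (c j) := by
    intro i j
    rw [Ideal.isCoprime_iff_sup_eq]
    by_contra h
    have hmax : (c j).IsMaximal := (hcp j).isMaximal (pt3_ne hs j)
    have h1 : c j ≤ b i ⊔ c j := le_sup_right
    have h2 : b i ⊔ c j = c j := (hmax.eq_of_le h h1).symm
    apply (hcb j).2
    refine Or.inr (Set.mem_iUnion.2 ⟨i, ?_⟩)
    show b i ≤ c j
    rw [← h2]
    exact le_sup_left
  have hZex := fun i => hcore i c q hs (fun j hj => (hcb j).2 (Or.inl (Set.mem_iUnion.2 ⟨i, hj⟩)))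
  choose Z hZa hZs hZi using hZex
  have hkap := fun i => exists_kappaP p hp h hMp f χ hχ (b i) (hcd.ne i) (hcd.cop i) (c₀ i)
    (hcd.mem i) (hcd.prim i)
  choose κ κ' ζ hκu hζ hκζ hκ using hkap
  have hC : CoefP F (mK K M * f) ι b c₀ (PsiP K ψ * χ) κ := coef_mulP h hχ.zero
    (fun a => hχ.norm_le hp.ne_zero a)
    (fun i x hx a ha => ⟨(hκ i x hx a ha).1, (hκ i x hx a ha).2.1⟩)
  have hC' : CoefP F (mK K M * f) ι b c₀ (PsiP K ψ * oneI f) κ' := coef_mulP h (pt3_oneI_zero f)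
    (pt3_oneI_norm_le f)
    (fun i x hx a ha => ⟨(hκ i x hx a ha).1, (hκ i x hx a ha).2.2⟩)
  have hNb : ∀ i, Ideal.absNorm (b i) ≠ 0 := fun i => by
    rw [Ne, Ideal.absNorm_eq_zero_iff]
    exact hcd.ne i
  -- the smoothed functions
  have hZsum : ∀ i s, 3 / 2 < s.re → HasSum (fun x : T i => gw c q x * nf F s (x : 𝓞 K)) (Z i s) :=
    fun i s hs' => hZs i (T i) (hcd.trans i) s hs'
  have e1 : ∀ s : ℂ, 3 / 2 < s.re →
      (∏ j, (1 - (q j : ℂ) * tm (PsiP K ψ * χ : Ideal (𝓞 K) →*₀ ℂ) s (c j))) *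
      ∑' a, tm (PsiP K ψ * χ : Ideal (𝓞 K) →*₀ ℂ) s a =
        ∑ i, κ i * (Ideal.absNorm (b i) : ℂ) ^ s * Z i s :=
    fun s hs' => series_eqP hgJ hJ1 hcd hC hs hcp hbc Z s hs' fun i => hZsum i s hs'
  have e2 : ∀ s : ℂ, 3 / 2 < s.re →
      (∏ j, (1 - (q j : ℂ) * tm (PsiP K ψ * oneI f : Ideal (𝓞 K) →*₀ ℂ) s (c j))) *
      ∑' a, tm (PsiP K ψ * oneI f : Ideal (𝓞 K) →*₀ ℂ) s a =
        ∑ i, κ' i * (Ideal.absNorm (b i) : ℂ) ^ s * Z i s :=
    fun s hs' => series_eqP hgJ hJ1 hcd hC' hs hcp hbc Z s hs' fun i => hZsum i s hs'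
  have e3 : ∀ s : ℂ, 3 / 2 < s.re → HasSum (tm (PsiP K ψ * χ : Ideal (𝓞 K) →*₀ ℂ) s)
      (∑ i, κ i * (Ideal.absNorm (b i) : ℂ) ^ s * Z0 i s) :=
    fun s hs' => series_eq0P hgJ hJ1 hcd hC Z0 s fun i => hZ0s i (T i) (hcd.trans i) s hs'
  have hGa : ∀ κ : ι → ℂ, AnalyticOnNhd ℂ
      (fun s : ℂ => ∑ i, κ i * (Ideal.absNorm (b i) : ℂ) ^ s * Z i s) {s | 1 / 2 < s.re} := by
    intro κ s hs'
    exact Finset.analyticAt_fun_sum _ fun i _ =>
      (analyticAt_const.mul (pt3_pow_analytic _ (hNb i) Set.univ s trivial)).mul (hZa i s hs')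
  have hZ0a : AnalyticOnNhd ℂ
      (fun s : ℂ => ∑ i, κ i * (Ideal.absNorm (b i) : ℂ) ^ s * Z0 i s)
      {s | 3 / 2 - 1 / (2 * (m + 1 : ℝ)) < s.re} := by
    intro s hs'
    exact Finset.analyticAt_fun_sum _ fun i _ =>
      (analyticAt_const.mul (pt3_pow_analytic _ (hNb i) Set.univ s trivial)).mul (hZ0 i s hs')
  have hPa : ∀ h : Ideal (𝓞 K) →*₀ ℂ, AnalyticOnNhd ℂ
      (fun s : ℂ => ∏ j, (1 - (q j : ℂ) * tm h s (c j))) {s | 1 / 2 < s.re} := by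
    intro h s hs'
    exact Finset.analyticAt_fun_prod _ fun j _ =>
      (analyticAt_const.sub (analyticAt_const.mul
        (pt3_tm_analytic h (c j) (pt3_ne hs j) Set.univ s trivial)))
  obtain ⟨Λ, hΛa, hΛ, hΛG⟩ := glue (1 / (2 * (m + 1 : ℝ))) (by positivity)
    (fun s : ℂ => ∑ i, κ i * (Ideal.absNorm (b i) : ℂ) ^ s * Z i s)
    (fun s : ℂ => ∑ i, κ i * (Ideal.absNorm (b i) : ℂ) ^ s * Z0 i s)
    (fun s : ℂ => ∏ j, (1 - (q j : ℂ) * tm (PsiP K ψ * χ : Ideal (𝓞 K) →*₀ ℂ) s (c j)))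
    (hGa κ) hZ0a (hPa _)
    (fun s hs' => Finset.prod_ne_zero_iff.2 fun j _ => P_neP h p hp f χ hχ (c j) (q j) (hs.prime j)
      (hs.norm j) s hs')
    (fun s hs' => by
      show _ = _ * _
      rw [← e1 s hs', (e3 s hs').tsum_eq])
  have h1re : (1 / 2 : ℝ) < (1 : ℂ).re := by norm_num
  have u1 : V.valuation (∏ j, (1 - (q j : ℂ) * tm (PsiP K ψ * χ : Ideal (𝓞 K) →*₀ ℂ) 1 (c j))) = 1 := by
    rw [map_prod]
    refine Finset.prod_eq_one fun j _ => factorP p hp V hV ψ χ (c j) (q j) (hs.prime j) (hs.norm j)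
      (hun j) ?_
    by_cases hj : IsCoprime (c j) f
    · exact Or.inl (hχ.val _ (pt3_ne hs j) hj)
    · exact Or.inr (hχ.zero _ hj)
  have e5 := hΛG 1 h1re
  have hne : (∏ j, (1 - (q j : ℂ) * tm (PsiP K ψ * χ : Ideal (𝓞 K) →*₀ ℂ) 1 (c j))) ≠ 0 := by
    intro h0
    rw [h0, map_zero] at u1
    exact zero_ne_one u1
  have h6 : Λ 1 / Om ^ Module.finrank F K =
      ((∑ i, κ i * (Ideal.absNorm (b i) : ℂ) ^ (1 : ℂ) * Z i 1) / Om ^ Module.finrank F K) *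
      (∏ j, (1 - (q j : ℂ) * tm (PsiP K ψ * χ : Ideal (𝓞 K) →*₀ ℂ) 1 (c j)))⁻¹ := by
    rw [e5]
    field_simp
  have h7 : V.valuation (Λ 1 / Om ^ Module.finrank F K) =
      V.valuation ((∑ i, κ i * (Ideal.absNorm (b i) : ℂ) ^ (1 : ℂ) * Z i 1) /
        Om ^ Module.finrank F K) := by
    rw [h6, map_mul, map_inv₀, u1, inv_one, mul_one]
  have hζ1 : ∀ i, V.valuation (ζ i) = 1 := fun i => by
    have h1 : V.valuation (ζ i) ^ p = 1 := by rw [← map_pow, hζ i, map_one]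
    exact (pow_eq_one_iff_of_nonneg zero_le hp.ne_zero).1 h1
  have hZi' : ∀ i, V.valuation (Z i 1 / Om ^ (m + 1)) ≤ 1 := fun i =>
    hZi i Ac Bc Om hper V hV hg
  refine ⟨Λ, hΛa, fun s hs' => ?_, ?_, fun ΛK hKa hKs hKi => ?_⟩
  · rw [hΛ s hs']
    exact e3 s hs'
  · rw [h7, hm, Finset.sum_div]
    refine Valuation.map_sum_le _ fun i _ => ?_
    rw [mul_div_assoc, map_mul, map_mul, hκζ i, map_mul, hκu i V hV, hζ1 i, one_mul, one_mul,
      Complex.cpow_one]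
    exact mul_le_one' (pt9_nat V _) (hZi' i)
  -- the value at 1
  obtain ⟨S, hS, hSs⟩ := one_sumP h f hχ.ne
  have e4 : ∀ s : ℂ, 1 / 2 < s.re →
      (∑ i, κ' i * (Ideal.absNorm (b i) : ℂ) ^ s * Z i s) =
      (∏ j, (1 - (q j : ℂ) * tm (PsiP K ψ * oneI f : Ideal (𝓞 K) →*₀ ℂ) s (c j))) *
        ((∏ w ∈ S, (1 - tm (PsiP K ψ) s w.asIdeal)) * ΛK s) := by
    intro s hs'
    refine ident (fun s : ℂ => ∑ i, κ' i * (Ideal.absNorm (b i) : ℂ) ^ s * Z i s)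
      (fun s : ℂ => (∏ j, (1 - (q j : ℂ) * tm (PsiP K ψ * oneI f : Ideal (𝓞 K) →*₀ ℂ) s (c j))) *
        ((∏ w ∈ S, (1 - tm (PsiP K ψ) s w.asIdeal)) * ΛK s)) (hGa κ') ?_ ?_ s hs'
    · refine (hPa _).mul (AnalyticOnNhd.mul ?_ hKa)
      intro z hz
      exact Finset.analyticAt_fun_prod _ fun w _ =>
        (analyticAt_const.sub (pt3_tm_analytic (PsiP K ψ) w.asIdeal w.ne_bot Set.univ z trivial))
    · intro z hz
      show _ = _ * (_ * _)
      rw [← e2 z hz, (hSs z hz).tsum_eq, (hKs z hz).tsum_eq]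
  have u2 : V.valuation
      (∏ j, (1 - (q j : ℂ) * tm (PsiP K ψ * oneI f : Ideal (𝓞 K) →*₀ ℂ) 1 (c j))) = 1 := by
    rw [map_prod]
    refine Finset.prod_eq_one fun j _ => factorP p hp V hV ψ (oneI f) (c j) (q j) (hs.prime j)
      (hs.norm j) (hun j) ?_
    rcases pt3_oneI_eq f (c j) with h | h
    · exact Or.inl (by rw [h, one_pow])
    · exact Or.inr h
  have hcopw : ∀ w ∈ S, IsCoprime w.asIdeal (Ideal.span {(p : 𝓞 K)}) := fun w hw => by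
    have h1 := hχ.cop
    rw [Ideal.isCoprime_iff_sup_eq] at h1 ⊢
    rw [← top_le_iff, ← h1]
    exact sup_le_sup_right ((hS w).1 hw) _
  have u3 : V.valuation (∏ w ∈ S, (1 - tm (PsiP K ψ) 1 w.asIdeal)) ≤ 1 ∧
      (V.valuation (∏ w ∈ S, (1 - tm (PsiP K ψ) 1 w.asIdeal)) = 1 ↔
        ∀ w : HeightOneSpectrum (𝓞 K), f ≤ w.asIdeal →
          V.valuation (1 - (starRingEnd ℂ) (PsiP K ψ w.asIdeal)) = 1) := by
    rw [map_prod]
    have h1 : ∀ w ∈ S, V.valuation (1 - tm (PsiP K ψ) 1 w.asIdeal) ≤ 1 := fun w hw =>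
      (tm_one p hp V hV h w (hcopw w hw)).1
    refine ⟨Finset.prod_le_one' h1, ?_⟩
    rw [Finset.prod_eq_one_iff_of_le_one' h1]
    constructor
    · exact fun h2 w hw => (tm_one p hp V hV h w (hcopw w ((hS w).2 hw))).2.1 (h2 w ((hS w).2 hw))
    · exact fun h2 w hw => (tm_one p hp V hV h w (hcopw w hw)).2.2 (h2 w ((hS w).1 hw))
  have u4 : V.valuation ((∑ i, κ' i * (Ideal.absNorm (b i) : ℂ) ^ (1 : ℂ) * Z i 1) /
      Om ^ Module.finrank F K) = V.valuation (∏ w ∈ S, (1 - tm (PsiP K ψ) 1 w.asIdeal)) *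
        V.valuation (ΛK 1 / Om ^ Module.finrank F K) := by
    rw [e4 1 h1re, mul_div_assoc, mul_div_assoc, map_mul, map_mul, u2, one_mul]
  have h2 : (∑ i, κ i * (Ideal.absNorm (b i) : ℂ) ^ (1 : ℂ) * Z i 1) / Om ^ Module.finrank F K =
      (∑ i, κ' i * (ζ i - 1) * ((Ideal.absNorm (b i) : ℕ) : ℂ) * (Z i 1 / Om ^ (m + 1))) +
      (∑ i, κ' i * (Ideal.absNorm (b i) : ℂ) ^ (1 : ℂ) * Z i 1) / Om ^ Module.finrank F K := by
    rw [hm, Finset.sum_div, Finset.sum_div, ← Finset.sum_add_distrib]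
    refine Finset.sum_congr rfl fun i _ => ?_
    rw [hκζ i, Complex.cpow_one]
    ring
  have h3 : V.valuation (∑ i, κ' i * (ζ i - 1) * ((Ideal.absNorm (b i) : ℕ) : ℂ) *
      (Z i 1 / Om ^ (m + 1))) < 1 := by
    refine Valuation.map_sum_lt _ one_ne_zero fun i _ => ?_
    rw [map_mul, map_mul, map_mul, hκu i V hV, one_mul, mul_assoc]
    exact mul_lt_one_of_lt_of_le (root_max p hp V hV (ζ i) (hζ i)) (mul_le_one' (pt9_nat V _) (hZi' i))
  have h8 : V.valuation (Λ 1 / Om ^ Module.finrank F K) = 1 ↔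
      V.valuation ((∑ i, κ' i * (Ideal.absNorm (b i) : ℂ) ^ (1 : ℂ) * Z i 1) /
        Om ^ Module.finrank F K) = 1 := by
    rw [h7, h2]
    constructor
    · intro h9
      have h10 := Valuation.map_sub_eq_of_lt_left V.valuation (x := (∑ i, κ' i * (ζ i - 1) *
        ((Ideal.absNorm (b i) : ℕ) : ℂ) * (Z i 1 / Om ^ (m + 1))) +
        (∑ i, κ' i * (Ideal.absNorm (b i) : ℂ) ^ (1 : ℂ) * Z i 1) / Om ^ Module.finrank F K)
        (y := ∑ i, κ' i * (ζ i - 1) * ((Ideal.absNorm (b i) : ℕ) : ℂ) * (Z i 1 / Om ^ (m + 1)))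
        (by rw [h9]; exact h3)
      rw [add_sub_cancel_left, h9] at h10
      exact h10
    · intro h9
      rw [Valuation.map_add_eq_of_lt_right _ (by rw [h9]; exact h3), h9]
  rw [h8, u4]
  constructor
  · intro h9
    have h10 : V.valuation (∏ w ∈ S, (1 - tm (PsiP K ψ) 1 w.asIdeal)) = 1 := by
      refine le_antisymm u3.1 ?_
      by_contra hlt
      have h11 := mul_lt_one_of_lt_of_le (not_le.1 hlt) hKi
      rw [h9] at h11
      exact lt_irrefl _ h11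
    rw [h10, one_mul] at h9
    exact ⟨h9, u3.2.1 h10⟩
  · rintro ⟨h9, h10⟩
    rw [u3.2.2 h10, h9, one_mul]

end H55P
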