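import Mathlib
import Pool.Agent.Lib.H55P.N4
import Pool.Agent.Lib.H55R.X10

open NumberField IsDedekindDomain

namespace H55P

open H55N
open H55B (g)



/-! Chunk PN5 (S/M), PORT of second_ineq and indep in Lib/H55R/X10.lean, with density_kerF in place of density_ker. -/

theorem second_ineqF (F : Type) [Field F] [NumberField F] [IQ F] (K N : Type) [Field K] [NumberField K]
    [Algebra F K] [Field N] [NumberField N]
    [Algebra K N] [IsGalois K N] (A : Subgroup Gal(N/K)) (hA : A.Normal) (f : Ideal (𝓞 K))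
    (hf : f ≠ ⊥) (hf' : f ≠ ⊤) (Y : Subgroup (H55R.Pl K → ℂˣ)) (hYf : Finite Y) (hY : Y ≤ H55R.RC f)
    (h : ∀ φ ∈ Y, ∀ v : H55R.Pl K, ¬ f ≤ v.asIdeal → H55R.SplA A v → φ v = 1) :
    Nat.card Y ≤ A.index := by
  obtain ⟨C, hC⟩ := H55R.density_A K N A hA
  obtain ⟨C', hC'⟩ := density_kerF F f hf hf' Y hY
  have hY0 : (0 : ℝ) < Nat.card Y := by exact_mod_cast Nat.card_pos
  have hA0 := H55R.X10_index A
  have h1 : (1 / A.index : ℝ) ≤ 1 / Nat.card Y := by
    refine H55R.X10_lim (D := C + C' + (H55R.X10_bad hf).toFinset.card) fun s hs => ?_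
    have e1 := (abs_le.1 (hC s hs)).1
    have e2 := hC' s hs
    have e3 := H55R.X10_cmp hf (S := {v : H55R.Pl K | H55R.SplA A v})
      (T := {v : H55R.Pl K | ¬ f ≤ v.asIdeal ∧ ∀ φ ∈ Y, φ v = 1})
      (fun v hv hb => ⟨hb, fun φ hφ => h φ hφ v hb hv⟩) s hs.1
    linarith
  rw [one_div_le_one_div hA0 hY0] at h1
  exact_mod_cast h1

theorem indepF (F : Type) [Field F] [NumberField F] [IQ F] (K N : Type) [Field K] [NumberField K]
    [Algebra F K] [Field N] [NumberField N]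
    [Algebra K N] [IsGalois K N] (A B : Subgroup Gal(N/K)) (hA : A.Normal) (hB : B.Normal)
    (hAB : ¬ A ≤ B) (f : Ideal (𝓞 K)) (hf : f ≠ ⊥) (hf' : f ≠ ⊤) (Z : Subgroup (H55R.Pl K → ℂˣ))
    (hZf : Finite Z) (hZ : Z ≤ H55R.RC f)
    (h : ∀ φ ∈ Z, ∀ v : H55R.Pl K, ¬ f ≤ v.asIdeal → H55R.SplA A v ∨ H55R.SplA B v → φ v = 1) :
    Nat.card Z < B.index := by
  obtain ⟨C₁, hC₁⟩ := H55R.density_A K N A hA
  obtain ⟨C₂, hC₂⟩ := H55R.density_A K N B hB
  have hAB' : (A ⊓ B).Normal := Subgroup.normal_inf_normal A B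
  obtain ⟨C₃, hC₃⟩ := H55R.density_A K N (A ⊓ B) hAB'
  obtain ⟨C', hC'⟩ := density_kerF F f hf hf' Z hZ
  have hZ0 : (0 : ℝ) < Nat.card Z := by exact_mod_cast Nat.card_pos
  have hA0 := H55R.X10_index A
  have hB0 := H55R.X10_index B
  have hAB0 := H55R.X10_index (A ⊓ B)
  have hint : {v : H55R.Pl K | H55R.SplA A v} ∩ {v : H55R.Pl K | H55R.SplA B v} = {v : H55R.Pl K | H55R.SplA (A ⊓ B) v} := by
    ext v
    constructor
    · rintro ⟨h1, h2⟩ W hW σ hσ
      exact ⟨h1 W hW σ hσ, h2 W hW σ hσ⟩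
    · intro h1
      exact ⟨fun W hW σ hσ => (h1 W hW σ hσ).1, fun W hW σ hσ => (h1 W hW σ hσ).2⟩
  have h1 : (1 / A.index + 1 / B.index - 1 / (A ⊓ B).index : ℝ) ≤ 1 / Nat.card Z := by
    refine H55R.X10_lim (D := C₁ + C₂ + C₃ + C' + (H55R.X10_bad hf).toFinset.card) fun s hs => ?_
    have e1 := (abs_le.1 (hC₁ s hs)).1
    have e2 := (abs_le.1 (hC₂ s hs)).1
    have e3 := (abs_le.1 (hC₃ s hs)).2
    have e4 := hC' s hs
    have e5 := H55R.X10_cmp hf (S := {v : H55R.Pl K | H55R.SplA A v} ∪ {v : H55R.Pl K | H55R.SplA B v})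
      (T := {v : H55R.Pl K | ¬ f ≤ v.asIdeal ∧ ∀ φ ∈ Z, φ v = 1})
      (fun v hv hb => ⟨hb, fun φ hφ => h φ hφ v hb hv⟩) s hs.1
    have e6 := H55R.X10_union {v : H55R.Pl K | H55R.SplA A v} {v : H55R.Pl K | H55R.SplA B v} s hs.1
    rw [hint] at e6
    linarith
  have h2 : A.index < (A ⊓ B).index := by
    have e1 := Subgroup.relIndex_mul_index (inf_le_left : A ⊓ B ≤ A)
    have e2 : (A ⊓ B).relIndex A ≠ 1 := by
      intro e
      rw [Subgroup.relIndex_eq_one] at e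
      exact hAB (e.trans inf_le_right)
    have e3 : (A ⊓ B).relIndex A ≠ 0 := by
      intro e
      rw [e, zero_mul] at e1
      exact Subgroup.index_ne_zero_of_finite e1.symm
    have e4 : 0 < A.index := Nat.pos_of_ne_zero Subgroup.index_ne_zero_of_finite
    rw [← e1]
    exact lt_mul_of_one_lt_left e4 (by omega)
  have h3 : (1 / (A ⊓ B).index : ℝ) < 1 / A.index := by
    rw [one_div_lt_one_div hAB0 hA0]
    exact_mod_cast h2
  have h4 : (1 / B.index : ℝ) < 1 / Nat.card Z := by linarith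
  rw [one_div_lt_one_div hB0 hZ0] at h4
  exact_mod_cast h4

end H55P
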