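import Mathlib
import Pool.Agent.Lib.H55P.TD
import Pool.Agent.Lib.H55R.Fin
import Pool.Agent.Lib.H55R.CH2

open NumberField IsDedekindDomain

namespace H55P

open H55N
open H55B (g)



/-! Chunk PT10 (M). From the reciprocity character to PChr and SplitP; PORT of Lib/H55R/CH2.lean (cubic_spl, cubic_inert, cubic_ram; CH2_norm holds in general) and ChrT.lean for a prime p: the set T of primes above w has card * (e f) = p, each relNorm = w^f. If ρ(w) = 1: Spl (IsRec.spl), e = f = 1, card = p.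
If w is unramified and ρ(w) <> 1: e = 1, f <> 1 (not Spl), so f = p, card = 1; ρ(w)^p = 1 (val). If f <= w: ρ(w) = 0 (zero), e <> 1 (ram), so e = p, f = 1, card = 1. PChr.cop: a prime containing f and p is ramified in K' and above p, contradicting UnrP p K' (W^2 divides w, so W^2 divides (p)). -/

theorem pt10_card {K K' : Type} [Field K] [NumberField K] [Field K'] [NumberField K']
    [Algebra K K'] [IsGalois K K'] (w : H55R.Pl K) :
    ∃ T : Finset (H55R.Pl K'), (∀ W, W ∈ T ↔ W.asIdeal.under (𝓞 K) = w.asIdeal) ∧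
      T.card * (H55R.es K K' w * H55R.fs K K' w) = Module.finrank K K' := by
  have hf := H55R.above_finite (L := K') w
  have hT : ∀ W : H55R.Pl K', W ∈ hf.toFinset ↔ W.under (𝓞 K) = w := by
    intro W
    rw [Set.Finite.mem_toFinset]
    exact Iff.rfl
  refine ⟨hf.toFinset, fun W => ?_, ?_⟩
  · rw [hT]
    exact ⟨fun h => congrArg HeightOneSpectrum.asIdeal h, fun h => HeightOneSpectrum.ext h⟩
  · rw [H55R.card_above w hf.toFinset hT]

theorem rec_split (K K' : Type) [Field K] [NumberField K] [Field K'] [NumberField K'] [Algebra K K']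
    [IsGalois K K'] (p : ℕ) (hp : p.Prime) (hn : Module.finrank K K' = p) (f : Ideal (𝓞 K))
    (ρ : Ideal (𝓞 K) →*₀ ℂ) (hρ : H55R.IsRec K K' p f ρ) : SplitP K K' p ρ := by
  intro w
  obtain ⟨T, hT, hc⟩ := pt10_card (K' := K') w
  rw [hn] at hc
  have hnorm : ∀ W ∈ T, Ideal.relNorm (𝓞 K) W.asIdeal = w.asIdeal ^ H55R.fs K K' w :=
    fun W hW => H55R.CH2_norm w W ((hT W).1 hW)
  refine ⟨T, hT, ?_⟩
  by_cases hfw : f ≤ w.asIdeal
  · have h1 : ρ w.asIdeal = 0 := by
      apply hρ.zero
      intro hcop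
      rw [Ideal.isCoprime_iff_sup_eq, sup_eq_left.2 hfw] at hcop
      exact w.isPrime.ne_top hcop
    have he := (hρ.ram w).1 hfw
    have hdvd : H55R.es K K' w ∣ p := ⟨T.card * H55R.fs K K' w, by rw [← hc]; ring⟩
    have hep : H55R.es K K' w = p := ((Nat.dvd_prime hp).1 hdvd).resolve_left he
    rw [hep] at hc
    have hc1 : T.card * H55R.fs K K' w = 1 := by
      have h2 : p * (T.card * H55R.fs K K' w) = p * 1 := by
        rw [mul_one]
        nlinarith
      exact Nat.eq_of_mul_eq_mul_left hp.pos h2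
    have hcT : T.card = 1 := Nat.eq_one_of_mul_eq_one_right hc1
    have hf1 : H55R.fs K K' w = 1 := Nat.eq_one_of_mul_eq_one_left hc1
    refine Or.inr (Or.inr ⟨h1, hcT, fun W hW => ?_⟩)
    rw [hnorm W hW, hf1, pow_one]
  · have he : H55R.es K K' w = 1 := by
      by_contra h
      exact hfw ((hρ.ram w).2 h)
    by_cases h1 : ρ w.asIdeal = 1
    · have hs := (hρ.spl w hfw).1 h1
      have hf1 : H55R.fs K K' w = 1 := hs.2
      rw [he, hf1, mul_one, mul_one] at hc
      refine Or.inl ⟨h1, hc, fun W hW => ?_⟩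
      rw [hnorm W hW, hf1, pow_one]
    · have hfne : H55R.fs K K' w ≠ 1 := fun h => h1 ((hρ.spl w hfw).2 ⟨he, h⟩)
      rw [he, one_mul] at hc
      have hdvd : H55R.fs K K' w ∣ p := ⟨T.card, by rw [← hc]; ring⟩
      have hfp : H55R.fs K K' w = p := ((Nat.dvd_prime hp).1 hdvd).resolve_left hfne
      rw [hfp] at hc
      have hcT : T.card = 1 := by
        have h2 : T.card * p = 1 * p := by rw [hc, one_mul]
        exact Nat.eq_of_mul_eq_mul_right hp.pos h2
      refine Or.inr (Or.inl ⟨hρ.val _ w.ne_bot (H55R.cop_prime w f hfw), h1, hcT, fun W hW => ?_⟩)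
      rw [hnorm W hW, hfp]

/-- p unramified in K' implies p unramified in K. A square divisor of (p) in K gives one in K' (map of ideals). -/
theorem pt10_down (K K' : Type) [Field K] [NumberField K] [Field K'] [NumberField K'] [Algebra K K']
    (p : ℕ) (hU : UnrP p K') : UnrP p K := by
  intro x hx
  have h1 : x.map (algebraMap (𝓞 K) (𝓞 K')) * x.map (algebraMap (𝓞 K) (𝓞 K')) ∣
      Ideal.span {(p : 𝓞 K')} := by
    rw [← Ideal.map_mul]
    have h2 : Ideal.span {(p : 𝓞 K')} = (Ideal.span {(p : 𝓞 K)}).map (algebraMap (𝓞 K) (𝓞 K')) := by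
      rw [Ideal.map_span, Set.image_singleton, map_natCast]
    rw [h2, Ideal.dvd_iff_le]
    exact Ideal.map_mono (Ideal.dvd_iff_le.1 hx)
  have h3 := hU _ h1
  rw [Ideal.isUnit_iff] at h3 ⊢
  rw [← Ideal.comap_map_eq_self_of_faithfullyFlat (B := 𝓞 K') x, h3, Ideal.comap_top]

theorem pt10_ram (K K' : Type) [Field K] [NumberField K] [Field K'] [NumberField K'] [Algebra K K']
    [IsGalois K K'] (p : ℕ) (hU : UnrP p K') (v : H55R.Pl K) (hpv : (p : 𝓞 K) ∈ v.asIdeal) :
    H55R.es K K' v = 1 := by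
  have hv := v.isPrime
  have hvm := v.isMaximal
  obtain ⟨W, hW, hWv⟩ := Ideal.exists_ideal_over_maximal_of_isIntegral (S := 𝓞 K') v.asIdeal (by
    rw [(RingHom.injective_iff_ker_eq_bot _).1 (FaithfulSMul.algebraMap_injective (𝓞 K) (𝓞 K'))]
    exact bot_le)
  have hlies : W.LiesOver v.asIdeal := ⟨hWv.symm⟩
  have hWp : W.IsPrime := hW.isPrime
  unfold H55R.es
  rw [Ideal.ramificationIdxIn_eq_ramificationIdx v.asIdeal W Gal(K'/K),
    ← Ideal.ramificationIdx'_eq_ramificationIdx v.asIdeal W v.ne_bot]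
  refine Ideal.ramificationIdx'_spec ?_ ?_
  · rw [pow_one, Ideal.map_le_iff_le_comap, hWv]
  · intro h
    have h1 : W * W ∣ Ideal.span {(p : 𝓞 K')} := by
      rw [Ideal.dvd_iff_le, ← pow_two]
      refine le_trans ?_ h
      have h2 : Ideal.span {(p : 𝓞 K')} =
          (Ideal.span {(p : 𝓞 K)}).map (algebraMap (𝓞 K) (𝓞 K')) := by
        rw [Ideal.map_span, Set.image_singleton, map_natCast]
      rw [h2]
      apply Ideal.map_mono
      rw [Ideal.span_singleton_le_iff_mem]
      exact hpv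
    have h3 := hU W h1
    rw [Ideal.isUnit_iff] at h3
    exact hW.ne_top h3

theorem rec_PChr (K K' : Type) [Field K] [NumberField K] [Field K'] [NumberField K'] [Algebra K K']
    [IsGalois K K'] (p : ℕ) (hp : p.Prime) (hn : Module.finrank K K' = p) (hU : UnrP p K')
    (f : Ideal (𝓞 K)) (ρ : Ideal (𝓞 K) →*₀ ℂ) (hρ : H55R.IsRec K K' p f ρ) : PChr p f ρ := by
  refine ⟨hρ.ne, ?_, hρ.val, hρ.zero, hρ.per⟩
  rw [Ideal.isCoprime_iff_sup_eq]
  by_contra hne
  obtain ⟨M, hM, hle⟩ := Ideal.exists_le_maximal _ hne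
  have hMne : M ≠ ⊥ := by
    rintro rfl
    exact hρ.ne (le_bot_iff.1 (le_sup_left.trans hle))
  obtain ⟨v, hv⟩ : ∃ v : H55R.Pl K, v.asIdeal = M := ⟨⟨M, hM.isPrime, hMne⟩, rfl⟩
  have h1 : f ≤ v.asIdeal := by
    rw [hv]
    exact le_sup_left.trans hle
  have h2 : (p : 𝓞 K) ∈ v.asIdeal := by
    rw [hv]
    exact (le_sup_right.trans hle) (Ideal.mem_span_singleton_self _)
  exact (hρ.ram v).1 h1 (pt10_ram K K' p hU v h2)

/-- p unramified in K' implies p unramified in K. A square divisor of (p) in K gives one in K' (map of ideals). -/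
theorem UnrP.down (K K' : Type) [Field K] [NumberField K] [Field K'] [NumberField K'] [Algebra K K']
    (p : ℕ) (hp : p.Prime) (hU : UnrP p K') : UnrP p K := pt10_down K K' p hU

end H55P
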