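import Mathlib
import Pool.Agent.Lib.H55B.Defs
import Pool.Agent.Lib.H55B.H2
import Pool.Agent.Lib.H55N.R6
import Pool.Agent.Lib.H55R.BF2

open NumberField IsDedekindDomain

namespace H55P

open H55N
open H55B (g)



/-! Chunk PT11 (M). Tame ramification in a cyclic extension of prime degree p.
PROOF. v is ramified, not above p. e = p, f = 1, one prime W above v; every s in G = Gal(K'/K) fixes W and acts trivially on O'/W (f = 1: O/v -> O'/W is surjective; or inertia group = G as its order is e). Choose Π in W not in W^2. For s in G: s Π in W.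
The quotient W/W^2 is a one-dimensional vector space over k = O'/W; s acts on it k-linearly (s(a x) = s(a) s(x), s(a) = a mod W), by a scalar θ(s) in k^*: s Π = a_s Π mod W^2; θ is a homomorphism from G to k^*. θ is not trivial: otherwise the sum over s in G of s Π, an
element y of 𝓞 K (Algebra.trace / fixed), is p Π modulo W^2, and p is not in W, so y is in W and not in W^2; but y in 𝓞 K and y in W give y in v, and v O' = W^p <= W^2 (p >= 2), contradiction. G has prime order p, so θ is injective, so p divides #k^* = absNorm W - 1 = absNorm v - 1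
(absNorm W = absNorm v^f, f = 1). To avoid W/W^2 one may work with a_s directly: choose a_s in O' with s Π - a_s Π in W^2 (Π generates W modulo W^2: W = (Π) + W^2). -/

section aux

variable {K K' : Type} [Field K] [NumberField K] [Field K'] [NumberField K'] [Algebra K K']
    [IsGalois K K']

open scoped Pointwise

/-- if v is totally ramified, the elements of the Galois group fix the prime above v -/
theorem pt11_stab {v : H55R.Pl K} {W : H55R.Pl K'} (hW : W.under (𝓞 K) = v)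
    (h1 : (v.asIdeal.primesOver (𝓞 K')).ncard = 1) (σ : Gal(K'/K)) :
    σ • W.asIdeal = W.asIdeal := by
  obtain ⟨Q, hQ⟩ := Set.ncard_eq_one.mp h1
  have h2 := H55R.BF2_mem v W hW
  have h3 := H55R.BF2_mem v (H55R.smulP σ W) (by rw [H55R.under_smulP, hW])
  rw [hQ, Set.mem_singleton_iff] at h2 h3
  exact (show σ • W.asIdeal = Q from h3).trans h2.symm

omit [IsGalois K K'] in
theorem pt11_mem {W : H55R.Pl K'} {σ : Gal(K'/K)} (hσ : σ • W.asIdeal = W.asIdeal) {x : 𝓞 K'}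
    (hx : x ∈ W.asIdeal) : σ • x ∈ W.asIdeal := by
  rw [← hσ]
  exact Ideal.smul_mem_pointwise_smul σ x W.asIdeal hx

omit [IsGalois K K'] in
theorem pt11_mem2 {W : H55R.Pl K'} {σ : Gal(K'/K)} (hσ : σ • W.asIdeal = W.asIdeal) {x : 𝓞 K'}
    (hx : x ∈ W.asIdeal ^ 2) : σ • x ∈ W.asIdeal ^ 2 := by
  have h1 : W.asIdeal ^ 2 ≤ (W.asIdeal ^ 2).comap (MulSemiringAction.toRingHom Gal(K'/K) (𝓞 K') σ) := by
    rw [pow_two, Ideal.mul_le]
    intro a ha b hb
    rw [Ideal.mem_comap, map_mul]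
    exact Ideal.mul_mem_mul (pt11_mem hσ ha) (pt11_mem hσ hb)
  exact h1 hx

end aux

open scoped Pointwise

theorem tame_dvd (K K' : Type) [Field K] [NumberField K] [Field K'] [NumberField K'] [Algebra K K']
    [IsGalois K K'] (p : ℕ) (hp : p.Prime) (hn : Module.finrank K K' = p) (v : H55R.Pl K)
    (hv : (p : 𝓞 K) ∉ v.asIdeal) (he : H55R.es K K' v ≠ 1) : p ∣ Ideal.absNorm v.asIdeal - 1 := by
  by_contra hnd
  have hvp := v.isPrime
  have hvm := v.isMaximal
  obtain ⟨W, hW⟩ := H55R.under_exists (L := K') v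
  have hWp := W.isPrime
  have hWm := W.isMaximal
  have hl : W.asIdeal.LiesOver v.asIdeal := (H55R.BF2_mem v W hW).2
  have hcard := Ideal.ncard_primesOver_mul_ramificationIdxIn_mul_inertiaDegIn v.asIdeal (𝓞 K')
    Gal(K'/K)
  rw [IsGalois.card_aut_eq_finrank, hn] at hcard
  have hes : v.asIdeal.ramificationIdxIn (𝓞 K') = p := by
    have h1 : v.asIdeal.ramificationIdxIn (𝓞 K') ∣ p :=
      ⟨(v.asIdeal.primesOver (𝓞 K')).ncard * v.asIdeal.inertiaDegIn (𝓞 K'),
        hcard.symm.trans (by ring)⟩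
    rcases (Nat.dvd_prime hp).1 h1 with h | h
    · exact absurd h he
    · exact h
  rw [hes] at hcard
  have hmul : (v.asIdeal.primesOver (𝓞 K')).ncard * v.asIdeal.inertiaDegIn (𝓞 K') = 1 := by
    apply Nat.eq_of_mul_eq_mul_left hp.pos
    rw [mul_one]
    conv_rhs => rw [← hcard]
    ring
  have hnc : (v.asIdeal.primesOver (𝓞 K')).ncard = 1 := Nat.eq_one_of_mul_eq_one_right hmul
  have hf : v.asIdeal.inertiaDegIn (𝓞 K') = 1 := Nat.eq_one_of_mul_eq_one_left hmul
  have hst : ∀ σ : Gal(K'/K), σ • W.asIdeal = W.asIdeal := pt11_stab hW hnc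
  -- the residue fields
  rw [Ideal.inertiaDegIn_eq_inertiaDeg v.asIdeal W.asIdeal Gal(K'/K),
    Ideal.inertiaDeg_eq_of_isMaximal v.asIdeal W.asIdeal] at hf
  let i1 : Field (𝓞 K ⧸ v.asIdeal) := Ideal.Quotient.field _
  let i2 : Field (𝓞 K' ⧸ W.asIdeal) := Ideal.Quotient.field _
  have hsurj : ∀ x : 𝓞 K', ∃ a : 𝓞 K, x - algebraMap (𝓞 K) (𝓞 K') a ∈ W.asIdeal := by
    intro x
    obtain ⟨c, hc⟩ := (finrank_eq_one_iff_of_nonzero' (1 : 𝓞 K' ⧸ W.asIdeal) one_ne_zero).1 hf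
      (Ideal.Quotient.mk W.asIdeal x)
    obtain ⟨a, rfl⟩ := Ideal.Quotient.mk_surjective c
    refine ⟨a, ?_⟩
    rw [← Ideal.Quotient.eq, ← hc, Algebra.smul_def, mul_one]
    rfl
  have htriv : ∀ (σ : Gal(K'/K)) (x : 𝓞 K'), σ • x - x ∈ W.asIdeal := by
    intro σ x
    obtain ⟨a, ha⟩ := hsurj x
    have h1 := pt11_mem (hst σ) ha
    have h2 : σ • algebraMap (𝓞 K) (𝓞 K') a = algebraMap (𝓞 K) (𝓞 K') a := by
      apply RingOfIntegers.ext
      exact σ.commutes (a : K)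
    rw [smul_sub, h2] at h1
    have h3 : σ • x - x = (σ • x - algebraMap (𝓞 K) (𝓞 K') a) - (x - algebraMap (𝓞 K) (𝓞 K') a) := by
      ring
    rw [h3]
    exact W.asIdeal.sub_mem h1 ha
  have hfin : Finite (𝓞 K' ⧸ W.asIdeal) := Ideal.finiteQuotientOfFreeOfNeBot W.asIdeal W.ne_bot
  have hcards : Nat.card (𝓞 K' ⧸ W.asIdeal) = Ideal.absNorm v.asIdeal := by
    have h1 := Module.natCard_eq_pow_finrank (K := 𝓞 K ⧸ v.asIdeal) (V := 𝓞 K' ⧸ W.asIdeal)
    rw [hf, pow_one] at h1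
    rw [h1, Ideal.absNorm_apply]
    rfl
  -- the uniformizer
  obtain ⟨ϖ, hϖ1, hϖ2⟩ : ∃ ϖ : 𝓞 K', ϖ ∈ W.asIdeal ∧ ϖ ∉ W.asIdeal ^ 2 := by
    obtain ⟨x, hx1, hx2⟩ := Ideal.exists_mem_pow_notMem_pow_succ W.asIdeal W.ne_bot hWm.ne_top 1
    rw [pow_one] at hx1
    exact ⟨x, hx1, hx2⟩
  have hcancel : ∀ u : 𝓞 K', u * ϖ ∈ W.asIdeal ^ 2 → u ∈ W.asIdeal := by
    intro u hu
    exact (Ideal.IsPrime.mul_mem_pow W.asIdeal hu).resolve_right hϖ2
  have hone : ∀ σ : Gal(K'/K), σ • ϖ - ϖ ∈ W.asIdeal ^ 2 := by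
    intro σ
    obtain ⟨a, e, he2, hae⟩ := Ideal.exists_mul_add_mem_pow_succ (P := W.asIdeal) W.ne_bot
      (i := 1) ϖ (σ • ϖ) (by rwa [pow_one]) hϖ2 (by rw [pow_one]; exact pt11_mem (hst σ) hϖ1)
    have ha : σ • ϖ - a * ϖ ∈ W.asIdeal ^ 2 := by
      rw [← hae]
      have : ϖ * a + e - a * ϖ = e := by ring
      rw [this]
      exact he2
    have hk : ∀ k : ℕ, (σ ^ k) • ϖ - a ^ k * ϖ ∈ W.asIdeal ^ 2 := by
      intro k
      induction k with
      | zero => rw [pow_zero, pow_zero, one_smul, one_mul, sub_self]; exact zero_mem _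
      | succ k ih =>
        have h1 := pt11_mem2 (hst σ) ih
        rw [smul_sub, smul_mul', ← mul_smul, ← pow_succ'] at h1
        have h2 : σ • (a ^ k) - a ^ k ∈ W.asIdeal := htriv σ _
        have h3 : (σ • (a ^ k) - a ^ k) * (σ • ϖ) ∈ W.asIdeal ^ 2 := by
          rw [pow_two]
          exact Ideal.mul_mem_mul h2 (pt11_mem (hst σ) hϖ1)
        have h4 : a ^ k * (σ • ϖ - a * ϖ) ∈ W.asIdeal ^ 2 := Ideal.mul_mem_left _ _ ha
        have h5 : (σ ^ (k + 1)) • ϖ - a ^ (k + 1) * ϖ =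
            ((σ ^ (k + 1)) • ϖ - (σ • (a ^ k)) * (σ • ϖ)) +
            ((σ • (a ^ k) - a ^ k) * (σ • ϖ) + a ^ k * (σ • ϖ - a * ϖ)) := by ring
        rw [h5]
        exact add_mem h1 (add_mem h3 h4)
    have hσp : σ ^ p = 1 := by
      rw [← hn, ← IsGalois.card_aut_eq_finrank K K']
      exact pow_card_eq_one'
    have hap : a ^ p - 1 ∈ W.asIdeal := by
      apply hcancel
      have h1 := hk p
      rw [hσp, one_smul] at h1
      have h2 : (a ^ p - 1) * ϖ = -(ϖ - a ^ p * ϖ) := by ring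
      rw [h2]
      exact neg_mem h1
    have hb : (Ideal.Quotient.mk W.asIdeal a) ^ p = 1 := by
      rw [← map_pow, ← map_one (Ideal.Quotient.mk W.asIdeal), Ideal.Quotient.eq]
      exact hap
    have hb0 : Ideal.Quotient.mk W.asIdeal a ≠ 0 := by
      intro h0
      rw [h0, zero_pow hp.ne_zero] at hb
      exact zero_ne_one hb
    have hb2 : (Ideal.Quotient.mk W.asIdeal a) ^ (Ideal.absNorm v.asIdeal - 1) = 1 := by
      have h1 : (Units.mk0 _ hb0) ^ (Nat.card (𝓞 K' ⧸ W.asIdeal)ˣ) = 1 := pow_card_eq_one'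
      rw [Nat.card_units, hcards] at h1
      have h2 := congrArg Units.val h1
      rwa [Units.val_pow_eq_pow_val, Units.val_mk0, Units.val_one] at h2
    have hcop : p.gcd (Ideal.absNorm v.asIdeal - 1) = 1 := (Nat.Prime.coprime_iff_not_dvd hp).2 hnd
    have hb3 : (Ideal.Quotient.mk W.asIdeal a) = 1 := by
      have h1 := pow_gcd_eq_one.2 ⟨hb, hb2⟩
      rwa [hcop, pow_one] at h1
    have ha1 : a - 1 ∈ W.asIdeal := by
      rw [← Ideal.Quotient.eq, hb3, map_one]
    have h5 : σ • ϖ - ϖ = (σ • ϖ - a * ϖ) + (a - 1) * ϖ := by ring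
    rw [h5]
    refine add_mem ha ?_
    rw [pow_two]
    exact Ideal.mul_mem_mul ha1 hϖ1
  -- the trace
  let i3 : Fintype Gal(K'/K) := Fintype.ofFinite _
  have hcG : Fintype.card Gal(K'/K) = p := by
    rw [← Nat.card_eq_fintype_card, IsGalois.card_aut_eq_finrank, hn]
  have hy : (∑ σ : Gal(K'/K), σ • ϖ) - (p : 𝓞 K') * ϖ ∈ W.asIdeal ^ 2 := by
    have h1 : (∑ σ : Gal(K'/K), σ • ϖ) - (p : 𝓞 K') * ϖ = ∑ σ : Gal(K'/K), (σ • ϖ - ϖ) := by
      rw [Finset.sum_sub_distrib, Finset.sum_const, Finset.card_univ, hcG, nsmul_eq_mul]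
    rw [h1]
    exact sum_mem fun σ _ => hone σ
  obtain ⟨x, hx⟩ := Algebra.IsInvariant.isInvariant (A := 𝓞 K) (B := 𝓞 K') (G := Gal(K'/K))
    (∑ σ : Gal(K'/K), σ • ϖ) (by
      intro τ
      rw [Finset.smul_sum]
      exact Fintype.sum_equiv (Equiv.mulLeft τ) _ _ (fun σ => (mul_smul τ σ ϖ).symm))
  have hyW : algebraMap (𝓞 K) (𝓞 K') x ∈ W.asIdeal := by
    rw [hx]
    exact sum_mem fun σ _ => pt11_mem (hst σ) hϖ1
  have hxv : x ∈ v.asIdeal := by
    rw [hl.over]
    exact hyW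
  have hpW : (p : 𝓞 K') ∉ W.asIdeal := by
    intro h
    apply hv
    rw [hl.over, Ideal.mem_under, map_natCast]
    exact h
  have hy2 : algebraMap (𝓞 K) (𝓞 K') x ∈ W.asIdeal ^ 2 := by
    have h1 := HeightOneSpectrum.valuation_liesOver K' v W ((x : 𝓞 K) : K)
    rw [Ideal.ramificationIdx'_eq_ramificationIdx v.asIdeal W.asIdeal v.ne_bot,
      ← Ideal.ramificationIdxIn_eq_ramificationIdx v.asIdeal W.asIdeal Gal(K'/K), hes] at h1
    have h2 : v.valuation K ((x : 𝓞 K) : K) ≤ WithZero.exp (-1 : ℤ) := by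
      have h3 : v.valuation K ((algebraMap (𝓞 K) K) x) = v.intValuation x :=
        v.valuation_of_algebraMap x
      have h4 := (v.intValuation_le_pow_iff_mem x 1).2 (by rwa [pow_one])
      change v.valuation K ((algebraMap (𝓞 K) K) x) ≤ _
      rw [h3]
      exact_mod_cast h4
    rw [← W.intValuation_le_pow_iff_mem, ← W.valuation_of_algebraMap (K := K')]
    change W.valuation K' (algebraMap K K' ((x : 𝓞 K) : K)) ≤ _
    rw [← h1]
    calc v.valuation K ((x : 𝓞 K) : K) ^ p ≤ WithZero.exp (-1 : ℤ) ^ p :=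
          pow_le_pow_left₀ zero_le h2 p
      _ ≤ WithZero.exp (-((2 : ℕ) : ℤ)) := by
          rw [← WithZero.exp_nsmul, WithZero.exp_le_exp, nsmul_eq_mul]
          have := hp.two_le
          push_cast
          omega
  have h6 : (p : 𝓞 K') * ϖ ∈ W.asIdeal ^ 2 := by
    rw [← hx] at hy
    have h7 := sub_mem hy2 hy
    rwa [sub_sub_cancel] at h7
  exact hpW (hcancel _ h6)

end H55P
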