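import Mathlib
import Pool.Agent.Lib.H55P.N6
import Pool.Agent.Lib.H55P.T10
import Pool.Agent.Lib.H55P.T11
import Pool.Agent.Lib.H55P.T9

open NumberField IsDedekindDomain

namespace H55P

open H55N
open H55B (g)

variable {F : Type} [Field F] [NumberField F] [IQ F]

/-! Assembly: one cyclic step of degree p. -/

theorem LVP_step (K K' : Type) [Field K] [NumberField K] [Algebra F K] [Field K'] [NumberField K']
    [Algebra F K'] [Algebra K K'] [IsScalarTower F K K'] [IsGalois K K'] (p : ℕ) (hp : p.Prime)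
    (hn : Module.finrank K K' = p) {M : Ideal (𝓞 F)} {ψ : Ideal (𝓞 F) →*₀ 𝓞 F} (h : IsHecke M ψ)
    (hMp : IsCoprime M (Ideal.span {(p : 𝓞 F)})) (hU : UnrP p K') (Ac Bc Om : ℂ)
    (hper : Per F Ac Bc Om) (V : ValuationSubring ℂ) (hV : V.valuation (p : ℂ) < 1)
    (hg : GoodV Ac Bc V) (hNT : NTP K p M ψ V)
    (hr : ∀ w : HeightOneSpectrum (𝓞 K), H55R.es K K' w ≠ 1 →
      V.valuation (1 - (starRingEnd ℂ) (PsiP K ψ w.asIdeal)) = 1)
    (hL : LVP F V Om (PsiP K ψ)) : LVP F V Om (PsiP K' ψ) := by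
  have hK := UnrP.down K K' p hp hU
  obtain ⟨f, ρ, hρ⟩ := reciprocityF F K K' p hp hn fun v he =>
    tame_dvd K K' p hp hn v (fun hpv => he (pt10_ram K K' p hU v hpv)) he
  have hf : PChr p f ρ := rec_PChr K K' p hp hn hU f ρ hρ
  have hs : SplitP K K' p ρ := rec_split K K' p hp hn f ρ hρ
  refine LVP_of_step K K' h p hp hn f ρ hf hs V Om hL fun j _ => ?_
  exact LVP_twist p hp h hMp hK Ac Bc Om hper V hV hg hNT f (chp ρ j) (chp_PChr hf j)
    (fun w hw => hr w ((hρ.ram w).1 hw)) hL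

end H55P
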