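import Mathlib
import Pool.Agent.Lib.H55P.I1
import Pool.Agent.Lib.H55P.T13

open NumberField IsDedekindDomain

namespace H55P

open H55N
open H55B (g)

variable {F : Type} [Field F] [NumberField F] [IQ F]

/-! The exact criterion, analytic side: one cyclic step of degree p. -/

section base

variable {K : Type} [Field K] [NumberField K] [Algebra F K]

open Classical in
omit [IQ F] in
theorem i2_one (a : Ideal (𝓞 K)) (ha : a ≠ ⊥) : oneI (⊤ : Ideal (𝓞 K)) a = 1 := by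
  show (if a ≠ ⊥ ∧ IsCoprime a ⊤ then (1 : ℂ) else 0) = 1
  rw [if_pos]
  refine ⟨ha, ?_⟩
  rw [Ideal.isCoprime_iff_sup_eq]
  exact sup_top_eq a

theorem i2_chr (p : ℕ) : PChr p (⊤ : Ideal (𝓞 K)) (oneI ⊤) where
  ne := top_ne_bot
  cop := by
    rw [Ideal.isCoprime_iff_sup_eq]
    exact top_sup_eq _
  val a ha _ := by rw [i2_one a ha, one_pow]
  zero a ha := absurd (by
    rw [Ideal.isCoprime_iff_sup_eq]
    exact sup_top_eq a) ha
  per x y hx hy _ _ := by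
    rw [i2_one _ (by simpa using hx), i2_one _ (by simpa using hy)]

/-- Integrality of the L-value over K, for p unramified in K. -/
theorem LVI_base (p : ℕ) (hp : p.Prime) {M : Ideal (𝓞 F)} {ψ : Ideal (𝓞 F) →*₀ 𝓞 F}
    (h : IsHecke M ψ) (hMp : IsCoprime M (Ideal.span {(p : 𝓞 F)})) (hK : UnrP p K)
    (Ac Bc Om : ℂ) (hper : Per F Ac Bc Om) (V : ValuationSubring ℂ)
    (hV : V.valuation (p : ℂ) < 1) (hg : GoodV Ac Bc V) (hNT : NTP K p M ψ V) :
    LVI F V Om (PsiP K ψ) := by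
  obtain ⟨Λ, h1, h2, h3, -⟩ := twist_main p hp h hMp hK Ac Bc Om hper V hV hg hNT ⊤ (oneI ⊤)
    (i2_chr p)
  refine ⟨Λ, h1, fun s hs => ?_, h3⟩
  have e : (PsiP K ψ * oneI ⊤ : Ideal (𝓞 K) →*₀ ℂ) = PsiP K ψ := by
    ext a
    show PsiP K ψ a * oneI ⊤ a = PsiP K ψ a
    rcases eq_or_ne a ⊥ with rfl | ha
    · have : PsiP K ψ ⊥ = 0 := (PsiP K ψ).map_zero
      rw [this, zero_mul]
    · rw [i2_one a ha, mul_one]
  have := h2 s hs
  rwa [e] at this

end base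

/-- The L-series over K' is the product of the twisted L-series over K. -/
theorem step_prod (K K' : Type) [Field K] [NumberField K] [Algebra F K] [Field K'] [NumberField K']
    [Algebra F K'] [Algebra K K'] [IsScalarTower F K K'] {M : Ideal (𝓞 F)} {ψ : Ideal (𝓞 F) →*₀ 𝓞 F}
    (h : IsHecke M ψ) (p : ℕ) (hp : p.Prime)
    (f : Ideal (𝓞 K)) (χ : Ideal (𝓞 K) →*₀ ℂ) (hf : PChr p f χ) (hχ : SplitP K K' p χ)
    (Λ₁ : ℂ → ℂ) (hs1 : ∀ s : ℂ, 3 / 2 < s.re → HasSum (tm (PsiP K ψ) s) (Λ₁ s))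
    (Λ : ℕ → ℂ → ℂ) (hΛ : ∀ j s, 3 / 2 < s.re →
      HasSum (tm (PsiP K ψ * chp χ j : Ideal (𝓞 K) →*₀ ℂ) s) (Λ j s)) (s : ℂ) (hs : 3 / 2 < s.re) :
    HasSum (tm (PsiP K' ψ) s) (Λ₁ s * ∏ j ∈ Finset.range (p - 1), Λ j s) := by
  have hb : ∀ j, ∀ a : Ideal (𝓞 K),
      ‖(PsiP K ψ * chp χ j : Ideal (𝓞 K) →*₀ ℂ) a‖ ^ 2 ≤ Ideal.absNorm a := by
    intro j a
    refine le_trans ?_ (PsiP_norm_le h a)
    have h4 : (PsiP K ψ * chp χ j : Ideal (𝓞 K) →*₀ ℂ) a = PsiP K ψ a * chp χ j a := rfl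
    rw [h4, norm_mul, mul_pow]
    exact mul_le_of_le_one_right (by positivity)
      (pow_le_one₀ (norm_nonneg _) ((chp_PChr hf j).norm_le hp.ne_zero a))
  have hsum := tm_summable (PsiP K' ψ) (fun a => PsiP_norm_le h a) s hs
  have hL := AI_LSeries (PsiP K' ψ) (PsiP K' ψ).map_zero s hsum
  have hsum1 := tm_summable (PsiP K ψ) (fun a => PsiP_norm_le h a) s hs
  have hL1 := AI_LSeries (PsiP K ψ) (PsiP K ψ).map_zero s hsum1
  have hL2 := fun j => AI_LSeries (PsiP K ψ * chp χ j : Ideal (𝓞 K) →*₀ ℂ)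
    (PsiP K ψ * chp χ j : Ideal (𝓞 K) →*₀ ℂ).map_zero s
    (tm_summable (PsiP K ψ * chp χ j : Ideal (𝓞 K) →*₀ ℂ) (hb j) s hs)
  have hL3 := pt5_prod (p - 1) (fun j => AI (PsiP K ψ * chp χ j : Ideal (𝓞 K) →*₀ ℂ))
    (fun j => Λ j s) (fun j hj => by
      have h3 := hL2 j
      rw [(hΛ j s hs).tsum_eq] at h3
      exact h3)
  have hL4 := ArithmeticFunction.LSeriesHasSum_mul hL1 hL3
  rw [← AI_stepP K K' ψ p hp χ hχ] at hL4
  have h5 : ∑' a, tm (PsiP K' ψ) s a = Λ₁ s * ∏ j ∈ Finset.range (p - 1), Λ j s := by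
    rw [hL.unique hL4, (hs1 s hs).tsum_eq]
  rw [← h5]
  exact hsum.of_norm.hasSum

/-- One step: the L-value over K' is a unit if and only if the L-value over K is a unit and the factors at the
ramified primes are units. -/
theorem LVP_step_iff (K K' : Type) [Field K] [NumberField K] [Algebra F K] [Field K'] [NumberField K']
    [Algebra F K'] [Algebra K K'] [IsScalarTower F K K'] [IsGalois K K'] (p : ℕ) (hp : p.Prime)
    (hn : Module.finrank K K' = p) {M : Ideal (𝓞 F)} {ψ : Ideal (𝓞 F) →*₀ 𝓞 F} (h : IsHecke M ψ)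
    (hMp : IsCoprime M (Ideal.span {(p : 𝓞 F)})) (hU : UnrP p K') (Ac Bc Om : ℂ)
    (hper : Per F Ac Bc Om) (V : ValuationSubring ℂ) (hV : V.valuation (p : ℂ) < 1)
    (hg : GoodV Ac Bc V) (hNT : NTP K p M ψ V) :
    LVP F V Om (PsiP K' ψ) ↔ LVP F V Om (PsiP K ψ) ∧
      ∀ w : HeightOneSpectrum (𝓞 K), H55R.es K K' w ≠ 1 →
        V.valuation (1 - (starRingEnd ℂ) (PsiP K ψ w.asIdeal)) = 1 := by
  refine ⟨fun hL => ?_, fun ⟨hL, hr⟩ =>
    LVP_step K K' p hp hn h hMp hU Ac Bc Om hper V hV hg hNT hr hL⟩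
  have hK := UnrP.down K K' p hp hU
  obtain ⟨f, ρ, hρ⟩ := reciprocityF F K K' p hp hn fun v he =>
    tame_dvd K K' p hp hn v (fun hpv => he (pt10_ram K K' p hU v hpv)) he
  have hf : PChr p f ρ := rec_PChr K K' p hp hn hU f ρ hρ
  have hs : SplitP K K' p ρ := rec_split K K' p hp hn f ρ hρ
  obtain ⟨Λ₁, ha1, hs1, hi1⟩ := LVI_base p hp h hMp hK Ac Bc Om hper V hV hg hNT
  have htw := fun j => twist_main p hp h hMp hK Ac Bc Om hper V hV hg hNT f (chp ρ j) (chp_PChr hf j)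
  choose Λ hΛa hΛs hΛi hΛiff using htw
  obtain ⟨L, hLa, hLs, hLu⟩ := hL
  have hprod : L 1 = Λ₁ 1 * ∏ j ∈ Finset.range (p - 1), Λ j 1 := by
    refine ident L (fun s => Λ₁ s * ∏ j ∈ Finset.range (p - 1), Λ j s) hLa ?_ (fun s hs' => ?_) 1
      (by norm_num)
    · intro s hs'
      exact (ha1 s hs').mul (Finset.analyticAt_fun_prod _ fun j _ => hΛa j s hs')
    · exact (hLs s hs').unique (step_prod K K' h p hp f ρ hf hs Λ₁ hs1 Λ hΛs s hs')
  have h5 : Om ^ Module.finrank F K' = Om ^ Module.finrank F K *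
      ∏ j ∈ Finset.range (p - 1), Om ^ Module.finrank F K := by
    rw [← Module.finrank_mul_finrank F K K', hn, pow_mul, Finset.prod_const, Finset.card_range,
      ← pow_succ', Nat.sub_add_cancel hp.one_le]
  rw [hprod, h5, mul_div_mul_comm, ← Finset.prod_div_distrib, map_mul, map_prod] at hLu
  have hle : ∏ j ∈ Finset.range (p - 1), V.valuation (Λ j 1 / Om ^ Module.finrank F K) ≤ 1 :=
    Finset.prod_le_one' fun j _ => hΛi j
  have hp1 : ∏ j ∈ Finset.range (p - 1), V.valuation (Λ j 1 / Om ^ Module.finrank F K) = 1 := by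
    refine le_antisymm hle ?_
    by_contra hlt
    have h11 := mul_lt_one_of_nonneg_of_lt_one_right hi1 zero_le (not_le.1 hlt)
    rw [hLu] at h11
    exact lt_irrefl _ h11
  have h0 := (Finset.prod_eq_one_iff_of_le_one' fun j _ => hΛi j).1 hp1 0
    (Finset.mem_range.2 (Nat.sub_pos_of_lt hp.one_lt))
  obtain ⟨h6, h7⟩ := (hΛiff 0 Λ₁ ha1 hs1 hi1).1 h0
  exact ⟨⟨Λ₁, ha1, hs1, h6⟩, fun w hw => h7 w ((hρ.ram w).2 hw)⟩

end H55P
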