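import Mathlib
import Pool.Agent.Lib.H16C.FR2
import Pool.Agent.Lib.H55P.SD
import Pool.Agent.Lib.H55P.Sel
import Pool.Agent.Lib.H55R.Defs

open NumberField IsDedekindDomain WeierstrassCurve

namespace H55P

/-- Ramification index different from 1: the image of v is in the square. -/
theorem s13_le_sq {A B : Type} [Field A] [NumberField A] [Field B] [NumberField B] [Algebra A B]
    (v : Ideal (𝓞 A)) (hv : v ≠ ⊥) (W : Ideal (𝓞 B)) [W.IsPrime] [W.LiesOver v]
    (h : W.ramificationIdx (𝓞 A) ≠ 1) (x : 𝓞 A) (hx : x ∈ v) :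
    algebraMap (𝓞 A) (𝓞 B) x ∈ W ^ 2 := by
  have h1 : 0 < W.ramificationIdx (𝓞 A) := Ideal.ramificationIdx_pos W (𝓞 A)
  have h2 : 2 ≤ v.ramificationIdx' W := by
    rw [Ideal.ramificationIdx'_eq_ramificationIdx v W hv]
    omega
  exact (Ideal.le_pow_of_le_ramificationIdx' h2) (Ideal.mem_map_of_mem _ hx)

theorem s13_inertia (p : ℕ) (hp : p.Prime) {M L : Type} [Field M] [NumberField M] [Field L]
    [NumberField L] [Algebra M L] [IsGalois M L] (k : ℕ) (hk : Module.finrank M L = p ^ k)
    (W : Ideal (𝓞 L)) [W.IsPrime] (hW : W ≠ ⊥) : ∃ j : ℕ, W.inertiaDeg (𝓞 M) = p ^ j := by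
  have hl : W.LiesOver (W.under (𝓞 M)) := ⟨rfl⟩
  have hne : W.under (𝓞 M) ≠ ⊥ := fun h => hW (Ideal.eq_bot_of_comap_eq_bot (R := 𝓞 M) (I := W) h)
  have hp' : (W.under (𝓞 M)).IsPrime := inferInstance
  have hmax : (W.under (𝓞 M)).IsMaximal := hp'.isMaximal hne
  have h1 := Ideal.ncard_primesOver_mul_ramificationIdxIn_mul_inertiaDegIn (W.under (𝓞 M)) (𝓞 L)
    Gal(L/M)
  rw [IsGalois.card_aut_eq_finrank, hk,
    Ideal.inertiaDegIn_eq_inertiaDeg (W.under (𝓞 M)) W Gal(L/M)] at h1
  have h2 : W.inertiaDeg (𝓞 M) ∣ p ^ k := by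
    rw [← h1]
    exact Dvd.intro_left _ (by rw [← mul_assoc])
  obtain ⟨j, _, hj⟩ := (Nat.dvd_prime_pow hp).1 h2
  exact ⟨j, hj⟩

theorem s13_down (p : ℕ) (hp : p.Prime) {M N K L : Type} [Field M] [NumberField M] [Field N]
    [NumberField N] [Field K] [NumberField K] [Field L] [NumberField L] [Algebra M N] [Algebra N K]
    [Algebra K L] [Algebra M L] [Algebra N L] [IsScalarTower M N L] [IsScalarTower N K L]
    [IsGalois N K] [IsGalois M L] (k : ℕ) (hk : Module.finrank M L = p ^ k)
    (w : HeightOneSpectrum (𝓞 N)) (h : w.asIdeal.ramificationIdxIn (𝓞 K) ≠ 1) :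
    ∃ v : HeightOneSpectrum (𝓞 M), w.asIdeal.under (𝓞 M) = v.asIdeal ∧
      (∃ W : Ideal (𝓞 L), W.IsPrime ∧ ∀ x ∈ v.asIdeal, algebraMap (𝓞 M) (𝓞 L) x ∈ W ^ 2) ∧
      ∃ j : ℕ, w.asIdeal.inertiaDeg (𝓞 M) = p ^ j := by
  have hwm := w.isMaximal
  obtain ⟨Q, hQ1, hQ2⟩ := Ideal.exists_maximal_ideal_liesOver_of_isIntegral (S := 𝓞 K) w.asIdeal
  obtain ⟨W, hW1, hW2⟩ := Ideal.exists_maximal_ideal_liesOver_of_isIntegral (S := 𝓞 L) Q
  have hQp := hQ1.isPrime
  have hWp := hW1.isPrime
  have hQb : Q ≠ ⊥ := Ideal.ne_bot_of_liesOver_of_ne_bot w.ne_bot Q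
  have hWb : W ≠ ⊥ := Ideal.ne_bot_of_liesOver_of_ne_bot hQb W
  have hWw : W.LiesOver w.asIdeal := Ideal.LiesOver.trans W Q w.asIdeal
  have hvb : w.asIdeal.under (𝓞 M) ≠ ⊥ := fun h0 =>
    w.ne_bot (Ideal.eq_bot_of_comap_eq_bot (R := 𝓞 M) (I := w.asIdeal) h0)
  have hvp : (w.asIdeal.under (𝓞 M)).IsPrime := inferInstance
  refine ⟨⟨w.asIdeal.under (𝓞 M), hvp, hvb⟩, rfl, ⟨W, hWp, ?_⟩, ?_⟩
  · intro x hx
    have h1 : algebraMap (𝓞 M) (𝓞 N) x ∈ w.asIdeal := hx
    rw [Ideal.ramificationIdxIn_eq_ramificationIdx w.asIdeal Q Gal(K/N)] at h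
    have h2 := s13_le_sq w.asIdeal w.ne_bot Q h _ h1
    have h3 : algebraMap (𝓞 K) (𝓞 L) (algebraMap (𝓞 N) (𝓞 K) (algebraMap (𝓞 M) (𝓞 N) x)) ∈ W ^ 2 := by
      have h4 : (Q ^ 2).map (algebraMap (𝓞 K) (𝓞 L)) ≤ W ^ 2 := by
        rw [Ideal.map_pow]
        exact Ideal.pow_right_mono (Ideal.map_le_of_le_comap hW2.over.le) 2
      exact h4 (Ideal.mem_map_of_mem _ h2)
    have h5 : algebraMap (𝓞 M) (𝓞 L) x =
        algebraMap (𝓞 K) (𝓞 L) (algebraMap (𝓞 N) (𝓞 K) (algebraMap (𝓞 M) (𝓞 N) x)) := by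
      apply RingOfIntegers.ext
      show algebraMap M L (x : M) = algebraMap K L (algebraMap N K (algebraMap M N (x : M)))
      rw [← IsScalarTower.algebraMap_apply N K L, ← IsScalarTower.algebraMap_apply M N L]
    rw [h5]
    exact h3
  · obtain ⟨j, hj⟩ := s13_inertia p hp k hk W hWb
    have h2 := Ideal.inertiaDeg_tower (R := 𝓞 M) w.asIdeal W
    have h3 : w.asIdeal.inertiaDeg (𝓞 M) ∣ p ^ j := by
      rw [← hj, h2]
      exact dvd_mul_right _ _
    obtain ⟨i, -, hi⟩ := (Nat.dvd_prime_pow hp).1 h3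
    exact ⟨i, hi⟩

variable {F : Type} [Field F] [NumberField F] {Ω : Type} [Field Ω] [DecidableEq Ω] [Algebra F Ω]
  [IsAlgClosed Ω] [Algebra.IsAlgebraic F Ω] [CharZero Ω]

/-! Chunk PS13 (M). Ramification.
below_cases: the ideal of the x in 𝓞 M with V.valuation x < 1 is prime (plc in Lib/H16C/FR1.lean); if it is zero then all nonzero elements of M (quotients of integers) have value 1, and V contains every element of Ω (x algebraic over M, coefficients in V: V is
integrally closed, x is integral over M), so value < 1 means 0 and Inert V s gives s x = x for all x.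
inert_mem: if there is no v below V: trivial case. Otherwise L/M is Galois (FR_galois), W = the ideal of the x in 𝓞 L with V.valuation x < 1, above v. The restriction of s to L is in the inertia group of W (Ideal.inertia, mem_inertia: s x - x in W for x in 𝓞 L) for Gal(L/M) acting on 𝓞 L, of order
the ramification index (Ideal.card_inertia_eq_ramificationIdxIn), which is 1: by hunr the image of v is not contained in W^2 (Ram), and ramificationIdx >= 2 would give it (Ideal.le_pow_ramificationIdx). So s is trivial on L.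
ram_down: es N K w <> 1: by the Galois case all primes of K above w have ramification index >= 2 over w: W' in K with w 𝓞 K contained in W'^2; take a prime W of L above W'; x in v = w ∩ M is mapped into W^2. Inertia degree: inertiaDeg(W over v) is a power of p
(IsGalois M L of degree p^k: Ideal.ncard_primesOver_mul_ramificationIdxIn_mul_inertiaDegIn, see inertia_pow3 in Lib/H19T/A9a.lean) and inertiaDeg(w over v) divides it (Ideal.inertiaDeg_algebra_tower). -/

/-- The algebra structure given by the inclusion. -/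
@[reducible] noncomputable def s13_alg {A B : IntermediateField F Ω} (h : A ≤ B) : Algebra A B :=
  (IntermediateField.inclusion h).toRingHom.toAlgebra

omit [DecidableEq Ω] in
theorem s13_galois (A B : IntermediateField F Ω) (h : A ≤ B) [FiniteDimensional F B]
    (hst : ∀ g ∈ A.fixingSubgroup, ∀ x ∈ B, g x ∈ B) :
    letI := s13_alg h
    IsGalois A B := by
  let _ := s13_alg h
  have h1 := H16C.FR_galois A B h hst
  let e : (IntermediateField.extendScalars h) ≃+* B :=
    { toFun := fun x => ⟨x.1, (IntermediateField.mem_extendScalars h).1 x.2⟩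
      invFun := fun x => ⟨x.1, (IntermediateField.mem_extendScalars h).2 x.2⟩
      left_inv := fun x => rfl
      right_inv := fun x => rfl
      map_mul' := fun x y => rfl
      map_add' := fun x y => rfl }
  exact IsGalois.of_algEquiv (AlgEquiv.ofRingEquiv (f := e) (fun x => rfl))

omit [NumberField F] [DecidableEq Ω] [IsAlgClosed Ω] [Algebra.IsAlgebraic F Ω] [CharZero Ω] in
theorem s13_fin {A B : IntermediateField F Ω} (h : A ≤ B) [FiniteDimensional F B] :
    FiniteDimensional F A :=
  FiniteDimensional.of_injective (IntermediateField.inclusion h).toLinearMap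
    (IntermediateField.inclusion_injective h)

omit [DecidableEq Ω] [IsAlgClosed Ω] in
theorem s13_top (M : IntermediateField F Ω) [FiniteDimensional F M] (V : ValuationSubring Ω)
    (h : ∀ z : 𝓞 M, z ≠ 0 → V.valuation ((z : M) : Ω) = 1) (x : Ω) : x ∈ V := by
  have hMn : NumberField M := H16C.FR_numberField M
  have hM : ∀ y : M, (y : Ω) ∈ V := by
    intro y
    obtain ⟨a, b, hb, hab⟩ := IsFractionRing.div_surjective (A := 𝓞 M) y
    have hb0 : b ≠ 0 := nonZeroDivisors.ne_zero hb
    have hbv := h b hb0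
    have hav : V.valuation ((a : M) : Ω) ≤ 1 := H16C.FR_le_one V (H16C.FR_isIntegral M a)
    have hy : (y : Ω) = ((a : M) : Ω) / ((b : M) : Ω) := by
      rw [← hab]
      rfl
    rw [← ValuationSubring.valuation_le_one_iff, hy, map_div₀, hbv, div_one]
    exact hav
  have halg : IsAlgebraic M x := Algebra.IsAlgebraic.isAlgebraic (R := M) x
  have hint : IsIntegral M x := halg.isIntegral
  obtain ⟨f, hf, hfx⟩ := hint
  let g : M →+* V :=
    { toFun := fun y => ⟨(y : Ω), hM y⟩
      map_one' := rfl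
      map_mul' := fun a b => rfl
      map_zero' := rfl
      map_add' := fun a b => rfl }
  have hintV : IsIntegral V x := by
    refine ⟨f.map g, hf.map g, ?_⟩
    rw [Polynomial.eval₂_map]
    exact hfx
  obtain ⟨y, hy⟩ := (IsIntegrallyClosed.isIntegral_iff (R := V) (K := Ω)).1 hintV
  rw [← hy]
  exact y.2

theorem below_cases (M : IntermediateField F Ω) [FiniteDimensional F M] (V : ValuationSubring Ω) :
    (∃ v : HeightOneSpectrum (𝓞 M), Below V M v.asIdeal) ∨ ∀ s : Ω ≃ₐ[F] Ω, Inert V s → s = 1 := by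
  by_cases h : H16C.plc M V = ⊥
  · right
    have h1 : ∀ z : 𝓞 M, z ≠ 0 → V.valuation ((z : M) : Ω) = 1 := by
      intro z hz
      apply H16C.not_mem_plc.1
      rw [h, Ideal.mem_bot]
      exact hz
    have htop := s13_top M V h1
    have hval : ∀ x : Ω, V.valuation x < 1 → x = 0 := by
      intro x hx
      by_contra hx0
      have h2 := (V.valuation_le_one_iff x⁻¹).2 (htop x⁻¹)
      rw [map_inv₀] at h2
      have h3 : V.valuation x ≠ 0 := (Valuation.ne_zero_iff _).2 hx0
      have h4 : 1 < (V.valuation x)⁻¹ := (one_lt_inv₀ (zero_lt_iff.2 h3)).2 hx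
      exact absurd (lt_of_lt_of_le h4 h2) (lt_irrefl _)
    intro s hs
    apply AlgEquiv.ext
    intro x
    exact sub_eq_zero.1 (hval _ (hs x (htop x)))
  · left
    exact ⟨⟨H16C.plc M V, inferInstance, h⟩, fun x => Iff.rfl⟩

theorem inert_mem (M L : IntermediateField F Ω) [FiniteDimensional F L] (hML : M ≤ L)
    (hnorm : ∀ s ∈ M.fixingSubgroup, ∀ x ∈ L, s x ∈ L) (V : ValuationSubring Ω)
    (hunr : ∀ v : HeightOneSpectrum (𝓞 M), Below V M v.asIdeal → ¬ Ram M L v.asIdeal) :
    ∀ s ∈ M.fixingSubgroup, Inert V s → s ∈ L.fixingSubgroup := by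
  intro s hs hin
  have hMf : FiniteDimensional F M := s13_fin hML
  rcases below_cases M V with ⟨v, hv⟩ | h
  · have hMn : NumberField M := H16C.FR_numberField M
    have hLn : NumberField L := H16C.FR_numberField L
    let _ := s13_alg hML
    have hgal : IsGalois M L := s13_galois M L hML hnorm
    have hvm := v.isMaximal
    have hvp := v.isPrime
    have hl : (H16C.plc L V).LiesOver v.asIdeal := by
      constructor
      ext x
      rw [hv x]
      rfl
    have hidx : v.asIdeal.ramificationIdxIn (𝓞 L) = 1 := by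
      by_contra hcon
      rw [Ideal.ramificationIdxIn_eq_ramificationIdx v.asIdeal (H16C.plc L V) Gal(L/M)] at hcon
      apply hunr v hv
      refine ⟨H16C.plc L V, inferInstance, fun x y hx hxy => ?_⟩
      have h1 := s13_le_sq v.asIdeal v.ne_bot (H16C.plc L V) hcon x hx
      have h2 : y = algebraMap (𝓞 M) (𝓞 L) x := by
        apply RingOfIntegers.ext
        apply Subtype.ext
        exact hxy
      rw [h2]
      exact h1
    have hcard := Ideal.card_inertia_eq_ramificationIdxIn (G := Gal(L/M)) v.asIdeal (H16C.plc L V)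
    rw [hidx] at hcard
    have hbot := Subgroup.card_eq_one.1 hcard
    let e : L ≃+* L :=
      { toFun := fun x => ⟨s x.1, hnorm s hs x.1 x.2⟩
        invFun := fun x => ⟨s⁻¹ x.1, hnorm s⁻¹ (inv_mem hs) x.1 x.2⟩
        left_inv := fun x => Subtype.ext (s.symm_apply_apply x.1)
        right_inv := fun x => Subtype.ext (s.apply_symm_apply x.1)
        map_mul' := fun x y => Subtype.ext (map_mul s x.1 y.1)
        map_add' := fun x y => Subtype.ext (map_add s x.1 y.1) }
    let t : Gal(L/M) := AlgEquiv.ofRingEquiv (f := e) (fun x => Subtype.ext (hs x))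
    have ht : t ∈ (H16C.plc L V).inertia Gal(L/M) := by
      intro x
      show V.valuation (s ((x : L) : Ω) - ((x : L) : Ω)) < 1
      apply hin
      rw [← ValuationSubring.valuation_le_one_iff]
      exact H16C.FR_le_one V (H16C.FR_isIntegral L x)
    rw [hbot, Subgroup.mem_bot] at ht
    intro x
    have h3 := DFunLike.congr_fun ht x
    exact congrArg Subtype.val h3
  · rw [h s hin]
    exact one_mem _

theorem ram_down (p : ℕ) (hp : p.Prime) (M N K L : IntermediateField F Ω) (hL : PExt p M L)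
    [NumberField M] [NumberField N] [NumberField K] (hMN : M ≤ N) (hNK : N ≤ K) (hKL : K ≤ L)
    (hnorm : ∀ s ∈ N.fixingSubgroup, ∀ x ∈ K, s x ∈ K) :
    letI : Algebra N K := (IntermediateField.inclusion hNK).toRingHom.toAlgebra
    letI : Algebra M N := (IntermediateField.inclusion hMN).toRingHom.toAlgebra
    ∀ w : HeightOneSpectrum (𝓞 N), H55R.es N K w ≠ 1 → ∃ v : HeightOneSpectrum (𝓞 M),
      w.asIdeal.under (𝓞 M) = v.asIdeal ∧ Ram M L v.asIdeal ∧
        ∃ j : ℕ, w.asIdeal.inertiaDeg (𝓞 M) = p ^ j := by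
  let _ : Algebra N K := (IntermediateField.inclusion hNK).toRingHom.toAlgebra
  let _ : Algebra M N := (IntermediateField.inclusion hMN).toRingHom.toAlgebra
  let _ : Algebra K L := s13_alg hKL
  let _ : Algebra M L := s13_alg (hMN.trans (hNK.trans hKL))
  let _ : Algebra N L := s13_alg (hNK.trans hKL)
  have hLf := hL.fin
  have hLn : NumberField L := H16C.FR_numberField L
  have hKf : FiniteDimensional F K := s13_fin hKL
  have hMf : FiniteDimensional F M := s13_fin (hMN.trans (hNK.trans hKL))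
  have t1 : IsScalarTower M N L := IsScalarTower.of_algebraMap_eq fun x => rfl
  have t2 : IsScalarTower N K L := IsScalarTower.of_algebraMap_eq fun x => rfl
  have g1 : IsGalois N K := s13_galois N K hNK hnorm
  have g2 : IsGalois M L := s13_galois M L (hMN.trans (hNK.trans hKL)) hL.norm
  obtain ⟨k, hk⟩ := hL.deg
  have t3 : IsScalarTower F M L := IsScalarTower.of_algebraMap_eq fun x => rfl
  have hk' : Module.finrank M L = p ^ k := by
    have h1 := Module.finrank_mul_finrank F M L
    rw [hk] at h1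
    exact Nat.eq_of_mul_eq_mul_left Module.finrank_pos h1
  intro w hw
  obtain ⟨v, hv, ⟨W, hW1, hW2⟩, hj⟩ := s13_down p hp (M := M) (N := N) (K := K) (L := L) k hk' w hw
  refine ⟨v, hv, ⟨W, hW1, fun x y hx hxy => ?_⟩, hj⟩
  have h2 : y = algebraMap (𝓞 M) (𝓞 L) x := by
    apply RingOfIntegers.ext
    apply Subtype.ext
    exact hxy
  rw [h2]
  exact hW2 x hx

end H55P
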