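import Mathlib
import Pool.Agent.Lib.H55P.T6

open NumberField IsDedekindDomain

namespace H55P

open H55N
open H55B (g)

variable {F : Type} [Field F] [NumberField F] [IQ F]

/-! Chunk PT12 (M). Going up. NTP_up: the ideal a O' (a.map): relNorm (a.map) = a^[K':K] (Ideal.relNorm_algebraMap), so PsiP K' (a.map) = PsiP K a ^ (p^k) by PsiP_top, pow_max. Coprimality: map. adm_up: for W above w, relNorm W = w^f (CH2_norm or
Ideal.relNorm_eq_pow_of_isMaximal), f = inertiaDeg is a power of p: hf. PsiP K' W = PsiP K w ^ f; conj; pow_max with x = conj (PsiP K w), PsiP_int. -/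

theorem pt12_rank (K K' : Type) [Field K] [NumberField K] [Field K'] [NumberField K']
    [Algebra K K'] : Module.finrank (𝓞 K) (𝓞 K') = Module.finrank K K' :=
  (IsFractionRing.finrank_eq (𝓞 K) K (𝓞 K') K').symm

theorem NTP_up (K K' : Type) [Field K] [NumberField K] [Algebra F K] [Field K'] [NumberField K']
    [Algebra F K'] [Algebra K K'] [IsScalarTower F K K'] (p : ℕ) (hp : p.Prime) (k : ℕ)
    (hn : Module.finrank K K' = p ^ k) {M : Ideal (𝓞 F)} {ψ : Ideal (𝓞 F) →*₀ 𝓞 F}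
    (V : ValuationSubring ℂ) (hV : V.valuation (p : ℂ) < 1) (h : NTP K p M ψ V) : NTP K' p M ψ V := by
  obtain ⟨a, ha1, ha2, ha3⟩ := h
  refine ⟨a.map (algebraMap (𝓞 K) (𝓞 K')), ?_, ?_, ?_⟩
  · have h1 := ha1.map (Ideal.mapHom (algebraMap (𝓞 K) (𝓞 K')))
    have h2 : (Ideal.span {(p : 𝓞 K)}).map (algebraMap (𝓞 K) (𝓞 K')) =
        Ideal.span {(p : 𝓞 K')} := by
      rw [Ideal.map_span, Set.image_singleton, map_natCast]
    rw [← h2]
    exact h1
  · have h1 := ha2.map (Ideal.mapHom (algebraMap (𝓞 K) (𝓞 K')))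
    have h2 : (mK K M).map (algebraMap (𝓞 K) (𝓞 K')) = mK K' M := by
      unfold mK
      rw [Ideal.map_map, ← IsScalarTower.algebraMap_eq]
    rw [← h2]
    exact h1
  · rw [PsiP_top (K := K), Ideal.relNorm_algebraMap, pt12_rank, hn, map_pow]
    exact pow_max p hp V hV _ (PsiP_int ψ a V).1 ha3 k

theorem adm_up (K K' : Type) [Field K] [NumberField K] [Algebra F K] [Field K'] [NumberField K']
    [Algebra F K'] [Algebra K K'] [IsScalarTower F K K'] (p : ℕ) (hp : p.Prime)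
    {ψ : Ideal (𝓞 F) →*₀ 𝓞 F} (V : ValuationSubring ℂ) (hV : V.valuation (p : ℂ) < 1)
    (w : HeightOneSpectrum (𝓞 K)) (W : HeightOneSpectrum (𝓞 K'))
    (hW : W.asIdeal.under (𝓞 K) = w.asIdeal) (hf : ∃ j : ℕ, W.asIdeal.inertiaDeg (𝓞 K) = p ^ j)
    (h : V.valuation (1 - (starRingEnd ℂ) (PsiP K ψ w.asIdeal)) = 1) :
    V.valuation (1 - (starRingEnd ℂ) (PsiP K' ψ W.asIdeal)) = 1 := by
  obtain ⟨j, hj⟩ := hf
  have hl : W.asIdeal.LiesOver w.asIdeal := ⟨hW.symm⟩
  have hw := w.isMaximal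
  have hwp := w.isPrime
  have hWm := W.isMaximal
  have hWp := W.isPrime
  have h1 := Ideal.relNorm_eq_pow_of_isMaximal W.asIdeal w.asIdeal
  rw [PsiP_top (K := K), h1, hj, map_pow, map_pow]
  exact pow_max p hp V hV _ (PsiP_int ψ w.asIdeal V).2 h j

end H55P
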