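import Mathlib
import Pool.Agent.Lib.H55P.T12
import Pool.Agent.Lib.H55P.T13
import Pool.Agent.Lib.H55P.S12
import Pool.Agent.Lib.H55P.S13

open NumberField IsDedekindDomain

namespace H55P

open H55N
open H55B (g)

/-! Assembly: the tower theorem for the L-values, inside an algebraic closure Ω of F. -/

section tower

variable {F : Type} [Field F] [NumberField F] {Ω : Type} [Field Ω] [Algebra F Ω]

theorem alg_tower (N K : IntermediateField F Ω) (h : N ≤ K) :
    letI : Algebra N K := (IntermediateField.inclusion h).toRingHom.toAlgebra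
    IsScalarTower F N K := by
  letI : Algebra N K := (IntermediateField.inclusion h).toRingHom.toAlgebra
  exact IsScalarTower.of_algebraMap_eq fun x => ((IntermediateField.inclusion h).commutes x).symm

theorem finDim_of_le {N K : IntermediateField F Ω} [FiniteDimensional F K] (h : N ≤ K) :
    FiniteDimensional F N :=
  Module.Finite.of_injective (IntermediateField.inclusion h).toLinearMap
    (IntermediateField.inclusion h).injective

theorem pext_deg (p : ℕ) (hp : p.Prime) (M N L : IntermediateField F Ω) (hL : PExt p M L) (hMN : M ≤ N)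
    (hNL : N ≤ L) :
    letI : Algebra M N := (IntermediateField.inclusion hMN).toRingHom.toAlgebra
    ∃ j : ℕ, Module.finrank M N = p ^ j := by
  letI : Algebra M N := (IntermediateField.inclusion hMN).toRingHom.toAlgebra
  letI : Algebra N L := (IntermediateField.inclusion hNL).toRingHom.toAlgebra
  have h1 : IsScalarTower F M N := alg_tower M N hMN
  have h2 : IsScalarTower F N L := alg_tower N L hNL
  have hLf : FiniteDimensional F L := hL.fin
  have hMf : FiniteDimensional F M := finDim_of_le hL.le
  obtain ⟨k, hk⟩ := hL.deg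
  have h3 : Module.finrank F M * Module.finrank M N = Module.finrank F N :=
    Module.finrank_mul_finrank F M N
  have h4 : Module.finrank F N * Module.finrank N L = Module.finrank F L :=
    Module.finrank_mul_finrank F N L
  have h5 : Module.finrank M N * Module.finrank N L = p ^ k := by
    have h6 : Module.finrank F M * (Module.finrank M N * Module.finrank N L) =
        Module.finrank F M * p ^ k := by
      rw [← mul_assoc, h3, h4, hk]
    exact Nat.eq_of_mul_eq_mul_left Module.finrank_pos h6
  obtain ⟨j, -, hj⟩ := (Nat.dvd_prime_pow hp).1 (Dvd.intro _ h5)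
  exact ⟨j, hj⟩

end tower

variable {F : Type} [Field F] [NumberField F] [IQ F] {Ω : Type} [Field Ω] [DecidableEq Ω]
  [Algebra F Ω] [IsAlgClosed Ω] [Algebra.IsAlgebraic F Ω] [CharZero Ω]

theorem LVP_tower (p : ℕ) (hp : p.Prime) (M L : IntermediateField F Ω) (hL : PExt p M L)
    [NumberField M] [NumberField L] {m : Ideal (𝓞 F)} {ψ : Ideal (𝓞 F) →*₀ 𝓞 F} (h : IsHecke m ψ)
    (hmp : IsCoprime m (Ideal.span {(p : 𝓞 F)})) (hU : UnrP p L) (Ac Bc Om : ℂ)
    (hper : Per F Ac Bc Om) (V : ValuationSubring ℂ) (hV : V.valuation (p : ℂ) < 1)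
    (hg : GoodV Ac Bc V) (hNT : NTP M p m ψ V)
    (hr : ∀ v : HeightOneSpectrum (𝓞 M), Ram M L v.asIdeal →
      V.valuation (1 - (starRingEnd ℂ) (PsiP M ψ v.asIdeal)) = 1)
    (hL0 : LVP F V Om (PsiP M ψ)) (K : IntermediateField F Ω) [NumberField K] (hMK : M ≤ K)
    (hKL : K ≤ L) : LVP F V Om (PsiP K ψ) := by
  have hLf : FiniteDimensional F L := hL.fin
  have hMf : FiniteDimensional F M := finDim_of_le hL.le
  have key : ∀ (n : ℕ) (K : IntermediateField F Ω) [NumberField K], M ≤ K → K ≤ L →
      Module.finrank F K = n → LVP F V Om (PsiP K ψ) := by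
    intro n
    induction n using Nat.strong_induction_on with
    | _ n ih =>
      intro K _ hMK hKL hn
      rcases eq_or_ne K M with rfl | hne
      · exact hL0
      obtain ⟨N, hMN, hNK, hdeg, hnorm⟩ := chain_step p hp M K L hL hMK hKL hne
      have hKf : FiniteDimensional F K := finDim_of_le hKL
      have hNf : FiniteDimensional F N := finDim_of_le hNK
      have hNn : NumberField N := H16C.FR_numberField N
      have hNpos : 0 < Module.finrank F N := Module.finrank_pos
      have hlt : Module.finrank F N < n := by
        rw [← hn, hdeg]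
        exact lt_mul_of_one_lt_right hNpos hp.one_lt
      have hLN := ih _ hlt N hMN (hNK.trans hKL) rfl
      letI iNK : Algebra N K := (IntermediateField.inclusion hNK).toRingHom.toAlgebra
      letI iMN : Algebra M N := (IntermediateField.inclusion hMN).toRingHom.toAlgebra
      letI iKL : Algebra K L := (IntermediateField.inclusion hKL).toRingHom.toAlgebra
      obtain ⟨hst, hgal, hfr⟩ := chain_types p hp N K hNK hnorm hdeg
      have hstM : IsScalarTower F M N := alg_tower M N hMN
      have hUK : UnrP p K := UnrP.down K L p hp hU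
      obtain ⟨j, hj⟩ := pext_deg p hp M N L hL hMN (hNK.trans hKL)
      have hNTN : NTP N p m ψ V := NTP_up M N p hp j hj V hV hNT
      refine LVP_step N K p hp hfr h hmp hUK Ac Bc Om hper V hV hg hNTN (fun w hw => ?_) hLN
      obtain ⟨v, hv, hram, hf⟩ := ram_down p hp M N K L hL hMN hNK hKL hnorm w hw
      exact adm_up M N p hp V hV v w hv hf (hr v hram)
  exact key _ K hMK hKL rfl

end H55P
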