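import Mathlib
import Pool.Agent.Lib.H55P.I2
import Pool.Agent.Lib.H55P.T15

open NumberField IsDedekindDomain

namespace H55P

/-! The exact criterion, analytic side: the tower. -/

section types

/-- The image of v in the square: the ramification index is not 1. -/
theorem i3_idx {A B : Type} [Field A] [NumberField A] [Field B] [NumberField B] [Algebra A B]
    (v : Ideal (𝓞 A)) (hv : v ≠ ⊥) (W : Ideal (𝓞 B)) [W.IsPrime] [W.LiesOver v]
    (h : ∀ x ∈ v, algebraMap (𝓞 A) (𝓞 B) x ∈ W ^ 2) : W.ramificationIdx (𝓞 A) ≠ 1 := by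
  have hinj : Function.Injective (algebraMap (𝓞 A) (𝓞 B)) := FaithfulSMul.algebraMap_injective _ _
  have hm : v.map (algebraMap (𝓞 A) (𝓞 B)) ≠ ⊥ := by
    rw [Ne, Ideal.map_eq_bot_iff_of_injective hinj]
    exact hv
  have hle : v.map (algebraMap (𝓞 A) (𝓞 B)) ≤ W ^ 2 := Ideal.map_le_iff_le_comap.2 fun x hx => h x hx
  rw [Ideal.IsDedekindDomain.ramificationIdx_eq_multiplicity v W hm]
  intro h1
  have hfin : FiniteMultiplicity W (v.map (algebraMap (𝓞 A) (𝓞 B))) := by
    refine FiniteMultiplicity.of_not_isUnit ?_ hm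
    intro hu
    exact (inferInstance : W.IsPrime).ne_top (Ideal.isUnit_iff.1 hu)
  have h2 := (hfin.pow_dvd_iff_le_multiplicity (k := 2)).1 (Ideal.dvd_iff_le.2 hle)
  omega

/-- A prime ramified in K/M: ramified in N/M or in K/N. -/
theorem i3_tower {M N K : Type} [Field M] [NumberField M] [Field N] [NumberField N] [Field K]
    [NumberField K] [Algebra M N] [Algebra N K] [Algebra M K] [IsScalarTower M N K]
    (v : HeightOneSpectrum (𝓞 M)) (W : Ideal (𝓞 K)) [W.IsPrime]
    (h : ∀ x ∈ v.asIdeal, algebraMap (𝓞 M) (𝓞 K) x ∈ W ^ 2) :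
    ∃ w : HeightOneSpectrum (𝓞 N), W.under (𝓞 N) = w.asIdeal ∧ w.asIdeal.under (𝓞 M) = v.asIdeal ∧
      ((∀ x ∈ v.asIdeal, algebraMap (𝓞 M) (𝓞 N) x ∈ w.asIdeal ^ 2) ∨ W.ramificationIdx (𝓞 N) ≠ 1) := by
  have hvm := v.isMaximal
  have hWn : W ≠ ⊥ := by
    rintro rfl
    apply v.ne_bot
    rw [eq_bot_iff]
    intro x hx
    have h1 := h x hx
    have h2 : algebraMap (𝓞 M) (𝓞 K) x = 0 := by
      have : algebraMap (𝓞 M) (𝓞 K) x ∈ (⊥ : Ideal (𝓞 K)) :=
        Ideal.pow_le_self two_ne_zero h1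
      simpa using this
    have hinj : Function.Injective (algebraMap (𝓞 M) (𝓞 K)) := FaithfulSMul.algebraMap_injective _ _
    exact (map_eq_zero_iff _ hinj).1 h2
  have hwb : W.under (𝓞 N) ≠ ⊥ := fun h0 =>
    hWn (Ideal.eq_bot_of_comap_eq_bot (R := 𝓞 N) (I := W) h0)
  have hwp : (W.under (𝓞 N)).IsPrime := inferInstance
  have hov : (W.under (𝓞 N)).under (𝓞 M) = v.asIdeal := by
    symm
    refine hvm.eq_of_le ?_ fun x hx => ?_
    · exact (inferInstance : ((W.under (𝓞 N)).under (𝓞 M)).IsPrime).ne_top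
    · show algebraMap (𝓞 N) (𝓞 K) (algebraMap (𝓞 M) (𝓞 N) x) ∈ W
      have h1 : algebraMap (𝓞 N) (𝓞 K) (algebraMap (𝓞 M) (𝓞 N) x) = algebraMap (𝓞 M) (𝓞 K) x := by
        apply RingOfIntegers.ext
        show algebraMap N K (algebraMap M N (x : M)) = algebraMap M K (x : M)
        rw [← IsScalarTower.algebraMap_apply M N K]
      rw [h1]
      exact Ideal.pow_le_self two_ne_zero (h x hx)
  refine ⟨⟨W.under (𝓞 N), hwp, hwb⟩, rfl, hov, ?_⟩
  by_cases hr : W.ramificationIdx (𝓞 N) = 1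
  · left
    have hl1 : W.LiesOver (W.under (𝓞 N)) := ⟨rfl⟩
    have hl2 : (W.under (𝓞 N)).LiesOver v.asIdeal := ⟨hov.symm⟩
    have hsc : IsScalarTower (𝓞 M) (𝓞 N) (𝓞 K) := inferInstance
    have hl3 : W.LiesOver v.asIdeal := Ideal.LiesOver.trans W (W.under (𝓞 N)) v.asIdeal
    have h1 := i3_idx v.asIdeal v.ne_bot W h
    have h2 := Ideal.ramificationIdx_tower (R := 𝓞 M) (W.under (𝓞 N)) W
    rw [hr, mul_one] at h2
    rw [h2] at h1
    exact s13_le_sq v.asIdeal v.ne_bot (W.under (𝓞 N)) h1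
  · right
    exact hr

end types

section val

/-- 1 - x divides 1 - x^n. -/
theorem unit_of_pow (V : ValuationSubring ℂ) (x : ℂ) (hx : V.valuation x ≤ 1) (n : ℕ)
    (h : V.valuation (1 - x ^ n) = 1) : V.valuation (1 - x) = 1 := by
  have h1 : (1 - x) * ∑ i ∈ Finset.range n, x ^ i = 1 - x ^ n := mul_neg_geom_sum x n
  have h2 : V.valuation (∑ i ∈ Finset.range n, x ^ i) ≤ 1 :=
    Valuation.map_sum_le _ fun i _ => by
      rw [map_pow]
      exact pow_le_one₀ zero_le hx
  have h3 : V.valuation (1 - x) ≤ 1 :=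
    (Valuation.map_sub _ _ _).trans (max_le (by rw [map_one]) hx)
  rw [← h1, map_mul] at h
  refine le_antisymm h3 ?_
  by_contra hlt
  have h5 := mul_lt_one_of_nonneg_of_lt_one_left zero_le (not_le.1 hlt) h2
  rw [h] at h5
  exact lt_irrefl _ h5

variable {F : Type} [Field F] [NumberField F] [IQ F]

/-- The factor at a prime above: unit if and only if the factor below is. -/
theorem adm_iff (K K' : Type) [Field K] [NumberField K] [Algebra F K] [Field K'] [NumberField K']
    [Algebra F K'] [Algebra K K'] [IsScalarTower F K K'] (p : ℕ) (hp : p.Prime)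
    {ψ : Ideal (𝓞 F) →*₀ 𝓞 F} (V : ValuationSubring ℂ) (hV : V.valuation (p : ℂ) < 1)
    (w : HeightOneSpectrum (𝓞 K)) (W : HeightOneSpectrum (𝓞 K'))
    (hW : W.asIdeal.under (𝓞 K) = w.asIdeal) (hf : ∃ j : ℕ, W.asIdeal.inertiaDeg (𝓞 K) = p ^ j) :
    V.valuation (1 - (starRingEnd ℂ) (PsiP K ψ w.asIdeal)) = 1 ↔
    V.valuation (1 - (starRingEnd ℂ) (PsiP K' ψ W.asIdeal)) = 1 := by
  refine ⟨adm_up K K' p hp V hV w W hW hf, fun h => ?_⟩
  have hl : W.asIdeal.LiesOver w.asIdeal := ⟨hW.symm⟩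
  have hw := w.isMaximal
  have hwp := w.isPrime
  have hWm := W.isMaximal
  have hWp := W.isPrime
  have h1 := Ideal.relNorm_eq_pow_of_isMaximal W.asIdeal w.asIdeal
  rw [PsiP_top (K := K), h1, map_pow, map_pow] at h
  exact unit_of_pow V _ (PsiP_int ψ w.asIdeal V).2 _ h

end val

variable {F : Type} [Field F] [NumberField F] [IQ F] {Ω : Type} [Field Ω] [DecidableEq Ω]
  [Algebra F Ω] [IsAlgClosed Ω] [Algebra.IsAlgebraic F Ω] [CharZero Ω]

omit [IQ F] [DecidableEq Ω] in
/-- Ramified primes in a tower. -/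
theorem ram_tower (M N K : IntermediateField F Ω)
    [NumberField M] [NumberField N] [NumberField K] (hMN : M ≤ N) (hNK : N ≤ K)
    (hnorm : ∀ s ∈ N.fixingSubgroup, ∀ x ∈ K, s x ∈ K) (v : HeightOneSpectrum (𝓞 M)) :
    letI : Algebra N K := (IntermediateField.inclusion hNK).toRingHom.toAlgebra
    letI : Algebra M N := (IntermediateField.inclusion hMN).toRingHom.toAlgebra
    Ram M K v.asIdeal ↔ Ram M N v.asIdeal ∨ ∃ w : HeightOneSpectrum (𝓞 N),
      w.asIdeal.under (𝓞 M) = v.asIdeal ∧ H55R.es N K w ≠ 1 := by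
  let _ : Algebra N K := (IntermediateField.inclusion hNK).toRingHom.toAlgebra
  let _ : Algebra M N := (IntermediateField.inclusion hMN).toRingHom.toAlgebra
  let _ : Algebra M K := s13_alg (hMN.trans hNK)
  have t1 : IsScalarTower M N K := IsScalarTower.of_algebraMap_eq fun x => rfl
  have hKf : FiniteDimensional F K := Module.Finite.of_restrictScalars_finite ℚ F K
  have g1 : IsGalois N K := s13_galois N K hNK hnorm
  have hvm := v.isMaximal
  constructor
  · rintro ⟨W, hWp, hW⟩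
    have hW' : ∀ x ∈ v.asIdeal, algebraMap (𝓞 M) (𝓞 K) x ∈ W ^ 2 := fun x hx => hW x _ hx rfl
    obtain ⟨w, hw1, hw2, h | h⟩ := i3_tower (N := N) v W hW'
    · left
      refine ⟨w.asIdeal, w.isPrime, fun x y hx hxy => ?_⟩
      have h2 : y = algebraMap (𝓞 M) (𝓞 N) x := by
        apply RingOfIntegers.ext
        apply Subtype.ext
        exact hxy
      rw [h2]
      exact h x hx
    · right
      refine ⟨w, hw2, ?_⟩
      have hl : W.LiesOver w.asIdeal := ⟨hw1.symm⟩
      have hwm := w.isMaximal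
      show w.asIdeal.ramificationIdxIn (𝓞 K) ≠ 1
      rw [Ideal.ramificationIdxIn_eq_ramificationIdx w.asIdeal W Gal(K/N)]
      exact h
  · intro h
    rcases h with ⟨W, hWp, hW⟩ | ⟨w, hw1, hw2⟩
    · have hWn : W ≠ ⊥ := by
        rintro rfl
        apply v.ne_bot
        rw [eq_bot_iff]
        intro x hx
        have h1 := hW x (algebraMap (𝓞 M) (𝓞 N) x) hx rfl
        have h2 : algebraMap (𝓞 M) (𝓞 N) x = 0 := by
          have : algebraMap (𝓞 M) (𝓞 N) x ∈ (⊥ : Ideal (𝓞 N)) :=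
            Ideal.pow_le_self two_ne_zero h1
          simpa using this
        have hinj : Function.Injective (algebraMap (𝓞 M) (𝓞 N)) :=
          FaithfulSMul.algebraMap_injective _ _
        exact (map_eq_zero_iff _ hinj).1 h2
      have hWm : W.IsMaximal := hWp.isMaximal hWn
      obtain ⟨Q, hQ1, hQ2⟩ := Ideal.exists_maximal_ideal_liesOver_of_isIntegral (S := 𝓞 K) W
      refine ⟨Q, hQ1.isPrime, fun x y hx hxy => ?_⟩
      have h4 : (W ^ 2).map (algebraMap (𝓞 N) (𝓞 K)) ≤ Q ^ 2 := by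
        rw [Ideal.map_pow]
        exact Ideal.pow_right_mono (Ideal.map_le_of_le_comap hQ2.over.le) 2
      have h1 := hW x (algebraMap (𝓞 M) (𝓞 N) x) hx rfl
      have h2 : y = algebraMap (𝓞 N) (𝓞 K) (algebraMap (𝓞 M) (𝓞 N) x) := by
        apply RingOfIntegers.ext
        apply Subtype.ext
        exact hxy
      rw [h2]
      exact h4 (Ideal.mem_map_of_mem _ h1)
    · have hwm := w.isMaximal
      obtain ⟨Q, hQ1, hQ2⟩ := Ideal.exists_maximal_ideal_liesOver_of_isIntegral (S := 𝓞 K) w.asIdeal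
      have hQp := hQ1.isPrime
      have hw3 : w.asIdeal.ramificationIdxIn (𝓞 K) ≠ 1 := hw2
      rw [Ideal.ramificationIdxIn_eq_ramificationIdx w.asIdeal Q Gal(K/N)] at hw3
      refine ⟨Q, hQp, fun x y hx hxy => ?_⟩
      have h1 : algebraMap (𝓞 M) (𝓞 N) x ∈ w.asIdeal := by
        have : x ∈ w.asIdeal.under (𝓞 M) := by rw [hw1]; exact hx
        exact this
      have h2 : y = algebraMap (𝓞 N) (𝓞 K) (algebraMap (𝓞 M) (𝓞 N) x) := by
        apply RingOfIntegers.ext
        apply Subtype.ext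
        exact hxy
      rw [h2]
      exact s13_le_sq w.asIdeal w.ne_bot Q hw3 _ h1

/-- The tower: the L-value over K is a unit if and only if the L-value over M is a unit and the factors at the ramified
primes are units. -/
theorem LVP_tower_iff (p : ℕ) (hp : p.Prime) (M L : IntermediateField F Ω) (hL : PExt p M L)
    [NumberField M] [NumberField L] {m : Ideal (𝓞 F)} {ψ : Ideal (𝓞 F) →*₀ 𝓞 F} (h : IsHecke m ψ)
    (hmp : IsCoprime m (Ideal.span {(p : 𝓞 F)})) (Ac Bc Om : ℂ)
    (hper : Per F Ac Bc Om) (V : ValuationSubring ℂ) (hV : V.valuation (p : ℂ) < 1)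
    (hg : GoodV Ac Bc V) (hNT : NTP M p m ψ V)
    (K : IntermediateField F Ω) [NumberField K] (hMK : M ≤ K)
    (hKL : K ≤ L) (hU : UnrP p K) : LVP F V Om (PsiP K ψ) ↔ LVP F V Om (PsiP M ψ) ∧
      ∀ v : HeightOneSpectrum (𝓞 M), Ram M K v.asIdeal →
        V.valuation (1 - (starRingEnd ℂ) (PsiP M ψ v.asIdeal)) = 1 := by
  have hLf : FiniteDimensional F L := hL.fin
  have hMf : FiniteDimensional F M := finDim_of_le hL.le
  have key : ∀ (n : ℕ) (K : IntermediateField F Ω) [NumberField K], M ≤ K → K ≤ L → UnrP p K →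
      Module.finrank F K = n → (LVP F V Om (PsiP K ψ) ↔ LVP F V Om (PsiP M ψ) ∧
        ∀ v : HeightOneSpectrum (𝓞 M), Ram M K v.asIdeal →
          V.valuation (1 - (starRingEnd ℂ) (PsiP M ψ v.asIdeal)) = 1) := by
    intro n
    induction n using Nat.strong_induction_on with
    | _ n ih =>
      intro K _ hMK hKL hU hn
      rcases eq_or_ne K M with rfl | hne
      · refine ⟨fun h => ⟨h, fun v hv => ?_⟩, fun h => h.1⟩
        exfalso
        obtain ⟨W, hWp, hW⟩ := hv
        have h1 : v.asIdeal ≤ W ^ 2 := fun x hx => hW x x hx rfl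
        have hWn : W ≠ ⊥ := by
          rintro rfl
          apply v.ne_bot
          rw [eq_bot_iff]
          exact h1.trans (Ideal.pow_le_self two_ne_zero)
        have h2 : v.asIdeal = W := v.isMaximal.eq_of_le hWp.ne_top (h1.trans (Ideal.pow_le_self two_ne_zero))
        have h3 : W ≤ W ^ 2 := h2 ▸ h1
        have h4 := Ideal.pow_right_strictAnti W hWn hWp.ne_top (show 1 < 2 by norm_num)
        have h4' : W ^ 2 < W ^ 1 := h4
        rw [pow_one] at h4'
        exact lt_irrefl _ (lt_of_lt_of_le h4' h3)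
      obtain ⟨N, hMN, hNK, hdeg, hnorm⟩ := chain_step p hp M K L hL hMK hKL hne
      have hKf : FiniteDimensional F K := finDim_of_le hKL
      have hNf : FiniteDimensional F N := finDim_of_le hNK
      have hNn : NumberField N := H16C.FR_numberField N
      have hNpos : 0 < Module.finrank F N := Module.finrank_pos
      have hlt : Module.finrank F N < n := by
        rw [← hn, hdeg]
        exact lt_mul_of_one_lt_right hNpos hp.one_lt
      letI iNK : Algebra N K := (IntermediateField.inclusion hNK).toRingHom.toAlgebra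
      letI iMN : Algebra M N := (IntermediateField.inclusion hMN).toRingHom.toAlgebra
      obtain ⟨hst, hgal, hfr⟩ := chain_types p hp N K hNK hnorm hdeg
      have hstM : IsScalarTower F M N := alg_tower M N hMN
      have hLN := ih _ hlt N hMN (hNK.trans hKL) (UnrP.down N K p hp hU) rfl
      obtain ⟨j, hj⟩ := pext_deg p hp M N L hL hMN (hNK.trans hKL)
      have hNTN : NTP N p m ψ V := NTP_up M N p hp j hj V hV hNT
      rw [LVP_step_iff N K p hp hfr h hmp hU Ac Bc Om hper V hV hg hNTN, hLN]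
      have hrt := fun v => ram_tower M N K hMN hNK hnorm v
      constructor
      · rintro ⟨⟨h1, h2⟩, h3⟩
        refine ⟨h1, fun v hv => ?_⟩
        rcases (hrt v).1 hv with h4 | ⟨w, hw1, hw2⟩
        · exact h2 v h4
        · obtain ⟨v', hv', -, hf⟩ := ram_down p hp M N K L hL hMN hNK hKL hnorm w hw2
          have hf' : ∃ j : ℕ, w.asIdeal.inertiaDeg (𝓞 M) = p ^ j := hf
          exact (adm_iff M N p hp V hV v w hw1 hf').2 (h3 w hw2)
      · rintro ⟨h1, h2⟩
        refine ⟨⟨h1, fun v hv => h2 v ((hrt v).2 (Or.inl hv))⟩, fun w hw => ?_⟩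
        obtain ⟨v, hv, -, hf⟩ := ram_down p hp M N K L hL hMN hNK hKL hnorm w hw
        exact adm_up M N p hp V hV v w hv hf (h2 v ((hrt v).2 (Or.inr ⟨w, hv, hw⟩)))
  exact key _ K hMK hKL hU rfl

end H55P
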