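import Mathlib
import Pool.Agent.Lib.H55P.I3

open NumberField IsDedekindDomain

namespace H55P

/-! Ramification in a Galois closure. -/

section types

variable {M X L : Type} [Field M] [NumberField M] [Field X] [NumberField X] [Field L] [NumberField L]
  [Algebra M X] [Algebra X L] [Algebra M L] [IsScalarTower M X L] [IsGalois M L]

theorem cl_card (W : Ideal (𝓞 L)) [W.IsPrime] (hW : W ≠ ⊥) :
    Nat.card (W.inertia Gal(L/M)) = W.ramificationIdx (𝓞 M) := by
  have hl : W.LiesOver (W.under (𝓞 M)) := ⟨rfl⟩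
  have hne : W.under (𝓞 M) ≠ ⊥ := fun h => hW (Ideal.eq_bot_of_comap_eq_bot (R := 𝓞 M) (I := W) h)
  have hp' : (W.under (𝓞 M)).IsPrime := inferInstance
  have hmax : (W.under (𝓞 M)).IsMaximal := hp'.isMaximal hne
  rw [Ideal.card_inertia_eq_ramificationIdxIn (G := Gal(L/M)) (W.under (𝓞 M)) W,
    Ideal.ramificationIdxIn_eq_ramificationIdx (W.under (𝓞 M)) W Gal(L/M)]

omit [IsGalois M L] in
theorem cl_tower (W : Ideal (𝓞 L)) [W.IsPrime] :
    W.ramificationIdx (𝓞 M) = (W.under (𝓞 X)).ramificationIdx (𝓞 M) * W.ramificationIdx (𝓞 X) := by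
  have hl : W.LiesOver (W.under (𝓞 X)) := ⟨rfl⟩
  exact Ideal.ramificationIdx_tower (R := 𝓞 M) (W.under (𝓞 X)) W

/-- The restriction of scalars on inertia groups. -/
noncomputable def clmap (W : Ideal (𝓞 L)) :
    W.inertia Gal(L/X) → W.inertia Gal(L/M) := fun t => ⟨t.1.restrictScalars M, fun x => t.2 x⟩

omit [NumberField M] [NumberField X] [NumberField L] [IsGalois M L] in
theorem clmap_inj (W : Ideal (𝓞 L)) :
    Function.Injective (clmap (M := M) (X := X) W) := by
  intro s t h
  apply Subtype.ext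
  apply AlgEquiv.ext
  intro x
  have h1 := congrArg (fun r : W.inertia Gal(L/M) => (r.1 : L → L) x) h
  exact h1

theorem cl_fix (W : Ideal (𝓞 L)) [W.IsPrime] (hW : W ≠ ⊥)
    (he : (W.under (𝓞 X)).ramificationIdx (𝓞 M) = 1) (t : Gal(L/M)) (ht : t ∈ W.inertia Gal(L/M)) (x : X) :
    t (algebraMap X L x) = algebraMap X L x := by
  have hg : IsGalois X L := IsGalois.tower_top_of_isGalois M X L
  have h1 := cl_card (M := M) W hW
  have h2 := cl_card (M := X) W hW
  have h3 := cl_tower (M := M) (X := X) W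
  rw [he, one_mul] at h3
  have hfin : Finite (W.inertia Gal(L/M)) := inferInstance
  have hbij : Function.Bijective (clmap (M := M) (X := X) W) :=
    (clmap_inj (M := M) (X := X) W).bijective_of_nat_card_le (by rw [h1, h2, h3])
  obtain ⟨s, hs⟩ := hbij.2 ⟨t, ht⟩
  have h4 := congrArg (fun r : W.inertia Gal(L/M) => (r.1 : L → L) (algebraMap X L x)) hs
  have h5 : s.1 (algebraMap X L x) = t (algebraMap X L x) := h4
  rw [← h5, s.1.commutes]

theorem cl_unr (W : Ideal (𝓞 L)) [W.IsPrime] (hW : W ≠ ⊥)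
    (h : ∀ t ∈ W.inertia Gal(L/M), ∀ x : X, t (algebraMap X L x) = algebraMap X L x) :
    (W.under (𝓞 X)).ramificationIdx (𝓞 M) = 1 := by
  have hg : IsGalois X L := IsGalois.tower_top_of_isGalois M X L
  have h1 := cl_card (M := M) W hW
  have h2 := cl_card (M := X) W hW
  have h3 := cl_tower (M := M) (X := X) W
  have hsurj : Function.Surjective (clmap (M := M) (X := X) W) := by
    rintro ⟨t, ht⟩
    let s : Gal(L/X) := AlgEquiv.ofRingEquiv (f := t.toRingEquiv) (h t ht)
    exact ⟨⟨s, fun x => ht x⟩, Subtype.ext (AlgEquiv.ext fun x => rfl)⟩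
  have hle := Nat.card_le_card_of_surjective _ hsurj
  rw [h1, h2, h3] at hle
  have hne : W.under (𝓞 X) ≠ ⊥ := fun h => hW (Ideal.eq_bot_of_comap_eq_bot (R := 𝓞 X) (I := W) h)
  have hX : 0 < W.ramificationIdx (𝓞 X) := Ideal.ramificationIdx_pos W (𝓞 X)
  have hM : 0 < (W.under (𝓞 X)).ramificationIdx (𝓞 M) :=
    Ideal.ramificationIdx_pos (W.under (𝓞 X)) (𝓞 M)
  have h4 : (W.under (𝓞 X)).ramificationIdx (𝓞 M) ≤ 1 := by
    by_contra hc
    have h5 : 2 * W.ramificationIdx (𝓞 X) ≤
        (W.under (𝓞 X)).ramificationIdx (𝓞 M) * W.ramificationIdx (𝓞 X) :=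
      Nat.mul_le_mul_right _ (by omega)
    omega
  omega

end types

section closure

variable {F : Type} [Field F] [NumberField F] {Ω : Type} [Field Ω] [DecidableEq Ω]
  [Algebra F Ω] [IsAlgClosed Ω] [Algebra.IsAlgebraic F Ω] [CharZero Ω]

/-- The Galois closure of K over M. -/
noncomputable def clos (M K : IntermediateField F Ω) : IntermediateField F Ω :=
  IntermediateField.adjoin F {y | ∃ g ∈ M.fixingSubgroup, ∃ x ∈ K, y = g x}

omit [NumberField F] [DecidableEq Ω] [IsAlgClosed Ω] [Algebra.IsAlgebraic F Ω] [CharZero Ω] in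
theorem le_clos (M K : IntermediateField F Ω) : K ≤ clos M K := fun x hx =>
  IntermediateField.subset_adjoin F _ ⟨1, one_mem _, x, hx, rfl⟩

omit [NumberField F] [DecidableEq Ω] [IsAlgClosed Ω] [Algebra.IsAlgebraic F Ω] [CharZero Ω] in
theorem clos_le (M K L : IntermediateField F Ω) (hKL : K ≤ L)
    (hn : ∀ s ∈ M.fixingSubgroup, ∀ x ∈ L, s x ∈ L) : clos M K ≤ L := by
  unfold clos
  rw [IntermediateField.adjoin_le_iff]
  rintro _ ⟨g, hg, x, hx, rfl⟩
  exact hn g hg x (hKL hx)

omit [NumberField F] [DecidableEq Ω] [IsAlgClosed Ω] [Algebra.IsAlgebraic F Ω] [CharZero Ω] in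
theorem clos_norm (M K : IntermediateField F Ω) (s : Ω ≃ₐ[F] Ω) (hs : s ∈ M.fixingSubgroup) (x : Ω)
    (hx : x ∈ clos M K) : s x ∈ clos M K := by
  have h : clos M K ≤ (clos M K).comap (s : Ω →ₐ[F] Ω) := by
    conv_lhs => unfold clos
    rw [IntermediateField.adjoin_le_iff]
    rintro _ ⟨g, hg, x, hx, rfl⟩
    show s (g x) ∈ clos M K
    exact IntermediateField.subset_adjoin F _ ⟨s * g, mul_mem hs hg, x, hx, rfl⟩
  exact h hx

omit [DecidableEq Ω] [IsAlgClosed Ω] [CharZero Ω] [Algebra.IsAlgebraic F Ω] in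
theorem clos_pext (p : ℕ) (hp : p.Prime) (M K L : IntermediateField F Ω) (hL : PExt p M L)
    (hMK : M ≤ K) (hKL : K ≤ L) : PExt p M (clos M K) := by
  have hLf := hL.fin
  have hle := clos_le M K L hKL hL.norm
  have hMc : M ≤ clos M K := hMK.trans (le_clos M K)
  have hcf : FiniteDimensional F (clos M K) := finDim_of_le hle
  have hMf : FiniteDimensional F M := finDim_of_le hMc
  refine ⟨hcf, hMc, fun s hs x hx => clos_norm M K s hs x hx, ?_⟩
  letI : Algebra M (clos M K) := (IntermediateField.inclusion hMc).toRingHom.toAlgebra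
  obtain ⟨j, hj⟩ := pext_deg p hp M (clos M K) L hL hMc hle
  have hst : IsScalarTower F M (clos M K) := alg_tower M (clos M K) hMc
  exact ⟨j, by rw [← Module.finrank_mul_finrank F M (clos M K), hj]⟩

omit [DecidableEq Ω] in
/-- The ramified primes of the Galois closure. -/
theorem clos_ram (M K L : IntermediateField F Ω) [FiniteDimensional F L]
    [NumberField M] (hMK : M ≤ K) (hKL : K ≤ L) (hn : ∀ s ∈ M.fixingSubgroup, ∀ x ∈ L, s x ∈ L)
    (v : HeightOneSpectrum (𝓞 M)) (hv : Ram M (clos M K) v.asIdeal) : Ram M K v.asIdeal := by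
  by_contra hnr
  have hCL : clos M K ≤ L := clos_le M K L hKL hn
  have hMC : M ≤ clos M K := hMK.trans (le_clos M K)
  have hKf : FiniteDimensional F K := finDim_of_le hKL
  have hCf : FiniteDimensional F (clos M K) := finDim_of_le hCL
  have hMf : FiniteDimensional F M := finDim_of_le hMK
  have hLn : NumberField L := H16C.FR_numberField L
  have hKn : NumberField K := H16C.FR_numberField K
  have hCn : NumberField (clos M K) := H16C.FR_numberField _
  let _ : Algebra M L := s13_alg (hMK.trans hKL)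
  let _ : Algebra M K := s13_alg hMK
  let _ : Algebra K L := s13_alg hKL
  let _ : Algebra M (clos M K) := s13_alg hMC
  let _ : Algebra (clos M K) L := s13_alg hCL
  have t1 : IsScalarTower M K L := IsScalarTower.of_algebraMap_eq fun x => rfl
  have t2 : IsScalarTower M (clos M K) L := IsScalarTower.of_algebraMap_eq fun x => rfl
  have hgal : IsGalois M L := s13_galois M L (hMK.trans hKL) hn
  -- inertia groups above v fix K
  have hfixK : ∀ W : Ideal (𝓞 L), W.IsPrime → W.under (𝓞 M) = v.asIdeal →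
      ∀ t ∈ W.inertia Gal(L/M), ∀ x : K, t (algebraMap K L x) = algebraMap K L x := by
    intro W hWp hW t ht x
    have hWb : W ≠ ⊥ := by
      rintro rfl
      apply v.ne_bot
      rw [← hW, eq_bot_iff]
      intro y hy
      have h1 : algebraMap (𝓞 M) (𝓞 L) y = 0 := by
        have : algebraMap (𝓞 M) (𝓞 L) y ∈ (⊥ : Ideal (𝓞 L)) := hy
        simpa using this
      exact (map_eq_zero_iff _ (FaithfulSMul.algebraMap_injective (𝓞 M) (𝓞 L))).1 h1
    refine cl_fix W hWb ?_ t ht x
    by_contra hr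
    apply hnr
    have hov : (W.under (𝓞 K)).LiesOver v.asIdeal := by
      refine ⟨?_⟩
      rw [← hW]
      ext y
      have h1 : algebraMap (𝓞 K) (𝓞 L) (algebraMap (𝓞 M) (𝓞 K) y) = algebraMap (𝓞 M) (𝓞 L) y := by
        apply RingOfIntegers.ext
        rfl
      show algebraMap (𝓞 M) (𝓞 L) y ∈ W ↔ algebraMap (𝓞 K) (𝓞 L) (algebraMap (𝓞 M) (𝓞 K) y) ∈ W
      rw [h1]
    refine ⟨W.under (𝓞 K), inferInstance, fun y z hy hyz => ?_⟩
    have h2 : z = algebraMap (𝓞 M) (𝓞 K) y := by
      apply RingOfIntegers.ext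
      apply Subtype.ext
      exact hyz
    rw [h2]
    exact s13_le_sq v.asIdeal v.ne_bot (W.under (𝓞 K)) hr y hy
  obtain ⟨W', hW'p, hW'⟩ := hv
  have hvm := v.isMaximal
  have hW'x : ∀ x ∈ v.asIdeal, algebraMap (𝓞 M) (𝓞 (clos M K)) x ∈ W' ^ 2 := fun x hx =>
    hW' x _ hx rfl
  have hW'b : W' ≠ ⊥ := by
    rintro rfl
    apply v.ne_bot
    rw [eq_bot_iff]
    intro x hx
    have h2 : algebraMap (𝓞 M) (𝓞 (clos M K)) x = 0 := by
      have : algebraMap (𝓞 M) (𝓞 (clos M K)) x ∈ (⊥ : Ideal (𝓞 (clos M K))) :=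
        Ideal.pow_le_self two_ne_zero (hW'x x hx)
      simpa using this
    exact (map_eq_zero_iff _ (FaithfulSMul.algebraMap_injective (𝓞 M) (𝓞 (clos M K)))).1 h2
  have hW'm : W'.IsMaximal := hW'p.isMaximal hW'b
  obtain ⟨W, hW1, hW2⟩ := Ideal.exists_maximal_ideal_liesOver_of_isIntegral (S := 𝓞 L) W'
  have hWp := hW1.isPrime
  have hWb : W ≠ ⊥ := Ideal.ne_bot_of_liesOver_of_ne_bot hW'b W
  have hWv : W.under (𝓞 M) = v.asIdeal := by
    symm
    refine hvm.eq_of_le (Ideal.IsPrime.ne_top inferInstance) fun x hx => ?_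
    show algebraMap (𝓞 M) (𝓞 L) x ∈ W
    have h1 : algebraMap (𝓞 (clos M K)) (𝓞 L) (algebraMap (𝓞 M) (𝓞 (clos M K)) x) =
        algebraMap (𝓞 M) (𝓞 L) x := by
      apply RingOfIntegers.ext
      rfl
    rw [← h1]
    have h2 : algebraMap (𝓞 M) (𝓞 (clos M K)) x ∈ W' := Ideal.pow_le_self two_ne_zero (hW'x x hx)
    rw [hW2.over] at h2
    exact h2
  have hu : W.under (𝓞 (clos M K)) = W' := hW2.over.symm
  -- restriction of automorphisms
  have hres : ∀ g ∈ M.fixingSubgroup, ∃ t : Gal(L/M), ∀ x : L, ((t x : L) : Ω) = g x.1 := by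
    intro g hg
    let e : L ≃+* L :=
      { toFun := fun x => ⟨g x.1, hn g hg x.1 x.2⟩
        invFun := fun x => ⟨g⁻¹ x.1, hn g⁻¹ (inv_mem hg) x.1 x.2⟩
        left_inv := fun x => Subtype.ext (g.symm_apply_apply x.1)
        right_inv := fun x => Subtype.ext (g.apply_symm_apply x.1)
        map_mul' := fun x y => Subtype.ext (map_mul g x.1 y.1)
        map_add' := fun x y => Subtype.ext (map_add g x.1 y.1) }
    exact ⟨AlgEquiv.ofRingEquiv (f := e) (fun x => Subtype.ext (hg x)), fun x => rfl⟩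
  have hfixC : ∀ t ∈ W.inertia Gal(L/M), ∀ x : clos M K,
      t (algebraMap (clos M K) L x) = algebraMap (clos M K) L x := by
    intro t ht
    have hstF : IsScalarTower F M L := IsScalarTower.of_algebraMap_eq fun x => rfl
    -- the fixed elements of L form a field containing the generators
    let Fx : IntermediateField F L := IntermediateField.fixedField
      (Subgroup.zpowers (t.restrictScalars F))
    have hmem : ∀ y : L, y ∈ Fx ↔ t y = y := by
      intro y
      rw [IntermediateField.mem_fixedField_iff]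
      constructor
      · intro h
        exact h _ (Subgroup.mem_zpowers _)
      · intro h f hf
        obtain ⟨n, rfl⟩ := Subgroup.mem_zpowers_iff.1 hf
        have h1 : t.restrictScalars F ∈ MulAction.stabilizer (L ≃ₐ[F] L) y := h
        exact zpow_mem h1 n
    have hle : clos M K ≤ IntermediateField.lift Fx := by
      unfold clos
      rw [IntermediateField.adjoin_le_iff]
      rintro _ ⟨g, hg, x, hx, rfl⟩
      obtain ⟨tg, htg⟩ := hres g hg
      have h1 : ((tg ⟨x, hKL hx⟩ : L) : Ω) = g x := htg _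
      have h2 : tg ⟨x, hKL hx⟩ ∈ Fx := by
        rw [hmem]
        obtain ⟨W₂, hW₂⟩ : ∃ W₂ : Ideal (𝓞 L),
            W₂ = W.comap (MulSemiringAction.toRingHom Gal(L/M) (𝓞 L) tg) := ⟨_, rfl⟩
        have hW₂p : W₂.IsPrime := by
          rw [hW₂]
          exact hWp.comap _
        have hm2 : ∀ y : 𝓞 L, y ∈ W₂ ↔ tg • y ∈ W := by
          intro y
          rw [hW₂]
          exact Iff.rfl
        have hu2 : W₂.under (𝓞 M) = v.asIdeal := by
          rw [← hWv]
          ext y
          show algebraMap (𝓞 M) (𝓞 L) y ∈ W₂ ↔ algebraMap (𝓞 M) (𝓞 L) y ∈ W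
          rw [hm2, smul_algebraMap]
        have hi2 : tg⁻¹ * t * tg ∈ W₂.inertia Gal(L/M) := by
          intro y
          show (tg⁻¹ * t * tg) • y - y ∈ W₂
          rw [hm2, smul_sub, ← mul_smul, ← mul_assoc, ← mul_assoc, mul_inv_cancel, one_mul, mul_smul]
          exact ht (tg • y)
        have h3 := hfixK W₂ hW₂p hu2 _ hi2 ⟨x, hx⟩
        have h4 : tg ((tg⁻¹ * t * tg) (algebraMap K L ⟨x, hx⟩)) = tg (algebraMap K L ⟨x, hx⟩) :=
          congrArg tg h3
        have h5 : tg ((tg⁻¹ * t * tg) (algebraMap K L ⟨x, hx⟩)) = t (tg (algebraMap K L ⟨x, hx⟩)) := by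
          show (tg * (tg⁻¹ * t * tg)) (algebraMap K L ⟨x, hx⟩) = (t * tg) (algebraMap K L ⟨x, hx⟩)
          rw [← mul_assoc, ← mul_assoc, mul_inv_cancel, one_mul]
        rw [h5] at h4
        exact h4
      have h6 := (IntermediateField.mem_lift (E := Fx) (tg ⟨x, hKL hx⟩)).2 h2
      rw [h1] at h6
      exact h6
    intro x
    have h7 := hle x.2
    have h8 := (IntermediateField.mem_lift (E := Fx) (algebraMap (clos M K) L x)).1 h7
    exact (hmem _).1 h8
  have h5 := cl_unr (X := clos M K) W hWb hfixC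
  rw [hu] at h5
  have hl : W'.LiesOver v.asIdeal := by
    refine ⟨?_⟩
    rw [← hWv, ← hu]
    ext y
    rfl
  exact i3_idx v.asIdeal v.ne_bot W' hW'x h5

end closure

end H55P
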