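import Mathlib
import Pool.Agent.Lib.H55B.A0
import Pool.Agent.Lib.H55P.TD

open NumberField IsDedekindDomain

namespace H55P

open H55N
open H55B (F O om e emb Prim R A0_im_ne)

/-! Definitions for the curve y^2 + y = x^3: the field F of cube roots of unity, the Hecke character, the period. -/

theorem ze_rank : Module.finrank ℚ F = 2 := by
  have h := IsCyclotomicExtension.finrank (n := 3) F
    (Polynomial.cyclotomic.irreducible_rat (by norm_num))
  rw [h]
  decide

/-- The field of cube roots of unity with the complex embedding of H55B. -/
noncomputable instance iqE : IQ F where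
  emb := emb
  deg := ze_rank
  im := ⟨((om : O) : F), A0_im_ne⟩
  pid := inferInstance

/-- The Hecke character of y^2 + y = x^3: the generator congruent to 1 modulo 3. -/
noncomputable def psiE : Ideal O →*₀ O where
  toFun J := pg J
  map_zero' := by
    have : ¬ ∃ x : O, (0 : Ideal O) = Ideal.span {x} ∧ Prim x := by
      rintro ⟨x, hx, hp⟩
      exact hp.ne_zero (Ideal.span_singleton_eq_bot.1 hx.symm)
    exact pg_of_not this
  map_one' := by
    have : (1 : Ideal O) = Ideal.span {1} := by simp
    rw [this, pg_span H55B.prim_one]
  map_mul' J J' := pg_mul J J'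

theorem psiE_apply (J : Ideal O) : psiE J = pg J := rfl

/-- The modulus 3. -/
noncomputable def m3 : Ideal O := Ideal.span {3}

/-- A period: the lattice of y^2 = 4 x^3 + 1 is OmE times O. -/
noncomputable def OmE : ℂ := e (2 * om + 1) * R0

theorem PsiP_E (K : Type) [Field K] [NumberField K] [Algebra F K] : PsiP K psiE = Psi K := rfl

end H55P
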