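import Mathlib
import Pool.Agent.Lib.H55D.Q3
import Pool.Agent.Lib.H55N.H1
import Pool.Agent.Lib.H55N.T2
import Pool.Agent.Lib.H55P.Stm
import Pool.Agent.Lib.H55P.T1
import Pool.Agent.Lib.H55P.ZD

open NumberField IsDedekindDomain WeierstrassCurve

namespace H55P

open H55N
open H55B (F O om e emb Prim R)

/-! Chunk PZ5 (M). The number of points of the reduction of y^2 + y = x^3 modulo a prime v of K not above 3 is (1 - Ψ(v))(1 - conj Ψ(v)).
cardE: the residue field k = 𝓞 K ⧸ v (finite field of order absNorm v). The curve W27O⁄k is y^2 + y = x^3 with discriminant -27 <> 0 in k, so all solutions are nonsingular points: the number of points is 1 + #{p : k × k // p.2^2 + p.2 = p.1^3}. By DQ3 loc_good0 (Lib/H55D/Q3.lean)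
the local polynomial is 1 - (N - #{..}) X + N X^2 and by H7_LEF (the case 3 not in w, H55C.b8_LEF; no hypothesis UnrOut is needed there, Psi_prime, psiF_prime) LEF is the product of the two factors with Psi and conj Psi; compare the coefficient of X (N - #{..} = Psi + conj Psi; e.g.
the value of the arithmetic function LEF K v at absNorm v, or see how Lib/H55B/F*.lean and Lib/H55C/B6-B8.lean obtain b8_LEF from the counting: gen v and the number of points: there is a lemma #{..} = N - (e(gen v) + conj) for prime fields of O and its extension). Psi conj Psi = N (Psi_norm).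
admE: the natural number (1 - Ψ)(1 - conj Ψ) is prime to p, so it is a unit at V; both factors are algebraic integers, in V (PsiP_int, H55P/T1.lean, or directly). -/

theorem PZ5_card (K : Type) [Field K] [NumberField K] (v : HeightOneSpectrum (𝓞 K))
    (h3 : (3 : 𝓞 K) ∉ v.asIdeal) [Algebra O (𝓞 K ⧸ v.asIdeal)] :
    Nat.card (W27O⁄(𝓞 K ⧸ v.asIdeal)).toAffine.Point =
      Nat.card {p : (𝓞 K ⧸ v.asIdeal) × (𝓞 K ⧸ v.asIdeal) // p.2 ^ 2 + p.2 = p.1 ^ 3} + 1 := by
  have hmax := v.isMaximal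
  have hf : Finite (𝓞 K ⧸ v.asIdeal) := v.asIdeal.finiteQuotientOfFreeOfNeBot v.ne_bot
  let i1 : Field (𝓞 K ⧸ v.asIdeal) := Ideal.Quotient.field _
  have h27 : (27 : 𝓞 K ⧸ v.asIdeal) ≠ 0 := by
    intro h
    apply h3
    have h1 : Ideal.Quotient.mk v.asIdeal ((3 : 𝓞 K) ^ 3) = 0 := by
      rw [map_pow, map_ofNat]
      have h2 : (3 : 𝓞 K ⧸ v.asIdeal) ^ 3 = 27 := by norm_num
      rw [h2, h]
    exact v.isPrime.mem_of_pow_mem _ (Ideal.Quotient.eq_zero_iff_mem.1 h1)
  have h := H55B.F1_count (𝓞 K ⧸ v.asIdeal) 1 h27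
  rw [one_smul] at h
  have hc : (W27O⁄(𝓞 K ⧸ v.asIdeal)) = (⟨0, 0, 1, 0, 0⟩ : WeierstrassCurve (𝓞 K ⧸ v.asIdeal)) := by
    ext <;> simp [W27O, WeierstrassCurve.baseChange]
  rw [hc]
  exact h

theorem cardE (K : Type) [Field K] [NumberField K] [Algebra F K] (v : HeightOneSpectrum (𝓞 K))
    (h3 : (3 : 𝓞 K) ∉ v.asIdeal) :
    (Nat.card (W27O⁄(𝓞 K ⧸ v.asIdeal)).toAffine.Point : ℂ) =
      (1 - Psi K v.asIdeal) * (1 - (starRingEnd ℂ) (Psi K v.asIdeal)) := by
  obtain ⟨u, hu⟩ := H1_below v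
  have hu3 : (3 : O) ∉ u.asIdeal := by
    intro h
    apply h3
    rw [hu, Ideal.under_def, Ideal.mem_comap, map_ofNat] at h
    exact h
  have hmax := v.isMaximal
  have hf : Finite (𝓞 K ⧸ v.asIdeal) := v.asIdeal.finiteQuotientOfFreeOfNeBot v.ne_bot
  let i1 : Field (𝓞 K ⧸ v.asIdeal) := Ideal.Quotient.field _
  have e1 := H55B.loc_good K v h3 u hu
  have e2 := H55D.loc_good0 K v h3 (𝓞 K ⧸ v.asIdeal) rfl
  rw [e2] at e1
  have e3 := congrArg (Polynomial.eval 1) e1
  simp only [Polynomial.map_add, Polynomial.map_sub, Polynomial.map_one, Polynomial.map_mul,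
    Polynomial.map_C, Polynomial.map_X, Polynomial.map_pow, Polynomial.eval_add,
    Polynomial.eval_sub, Polynomial.eval_one, Polynomial.eval_mul, Polynomial.eval_C,
    Polynomial.eval_X, Polynomial.eval_pow, one_pow, mul_one] at e3
  simp only [eq_intCast] at e3
  rw [PZ5_card K v h3, Psi_prime v u hu, psiF_prime u hu3, map_pow, Complex.conj_conj]
  push_cast at e3 ⊢
  linear_combination e3

theorem admE (K : Type) [Field K] [NumberField K] [Algebra F K] (v : HeightOneSpectrum (𝓞 K))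
    (h3 : (3 : 𝓞 K) ∉ v.asIdeal) (p : ℕ) (hp : p.Prime)
    (hc : ¬ p ∣ Nat.card (W27O⁄(𝓞 K ⧸ v.asIdeal)).toAffine.Point) (V : ValuationSubring ℂ)
    (hV : V.valuation (p : ℂ) < 1) :
    V.valuation (1 - (starRingEnd ℂ) (PsiP K psiE v.asIdeal)) = 1 := by
  have h1 := val_nat p hp V hV _ hc
  rw [cardE K v h3, map_mul] at h1
  obtain ⟨h4, h5⟩ := PsiP_int psiE v.asIdeal V
  rw [PsiP_E] at h4 h5 ⊢
  have h6 : V.valuation (1 - Psi K v.asIdeal) ≤ 1 := by
    refine (Valuation.map_sub _ _ _).trans ?_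
    rw [map_one]
    exact max_le le_rfl h4
  have h7 : V.valuation (1 - (starRingEnd ℂ) (Psi K v.asIdeal)) ≤ 1 := by
    refine (Valuation.map_sub _ _ _).trans ?_
    rw [map_one]
    exact max_le le_rfl h5
  refine le_antisymm h7 ?_
  by_contra hcon
  push Not at hcon
  have h8 := mul_lt_one_of_nonneg_of_lt_one_right h6 zero_le hcon
  rw [h1] at h8
  exact lt_irrefl _ h8

/-- The reduction at the prime 2 of F has 9 points: Psi (2) = -2 (pg: -2 = 1 - 3 is primary). -/
theorem card_two (p : ℕ) (hp : p.Prime) (h5 : 5 ≤ p) (K : Type) [Field K] [NumberField K] [Algebra F K]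
    (h1 : Module.finrank F K = 1) : ∃ v : HeightOneSpectrum (𝓞 K),
      (3 : 𝓞 K) ∉ v.asIdeal ∧ (p : 𝓞 K) ∉ v.asIdeal ∧
        ¬ p ∣ Nat.card (W27O⁄(𝓞 K ⧸ v.asIdeal)).toAffine.Point := by
  have h2u : ¬ IsUnit (2 : 𝓞 K) := by
    intro h
    have h2 := h.map (Algebra.norm ℤ)
    have h3 : (2 : 𝓞 K) = algebraMap ℤ (𝓞 K) 2 := by simp
    rw [h3, Algebra.norm_algebraMap, isUnit_pow_iff (Module.finrank_pos).ne'] at h2
    rw [Int.isUnit_iff] at h2
    omega
  obtain ⟨I, hI, h2I⟩ := exists_max_ideal_of_mem_nonunits h2u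
  have hI0 : I ≠ ⊥ := by
    rintro rfl
    rw [Ideal.mem_bot] at h2I
    exact two_ne_zero h2I
  let v : HeightOneSpectrum (𝓞 K) := ⟨I, hI.isPrime, hI0⟩
  have hodd : ∀ n : ℕ, Odd n → (n : 𝓞 K) ∉ v.asIdeal := by
    rintro n ⟨k, rfl⟩ h
    apply hI.ne_top
    rw [Ideal.eq_top_iff_one]
    have h3 : (1 : 𝓞 K) = ((2 * k + 1 : ℕ) : 𝓞 K) - (k : 𝓞 K) * 2 := by
      push_cast
      ring
    rw [h3]
    exact I.sub_mem h (I.mul_mem_left _ h2I)
  have h3 : (3 : 𝓞 K) ∉ v.asIdeal := by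
    have := hodd 3 (by decide)
    exact_mod_cast this
  obtain ⟨u, hu⟩ := H1_below v
  have hu3 : (3 : O) ∉ u.asIdeal := by
    intro h
    apply h3
    rw [hu, Ideal.under_def, Ideal.mem_comap, map_ofNat] at h
    exact h
  have hu2 : (2 : O) ∈ u.asIdeal := by
    rw [hu, Ideal.under_def, Ideal.mem_comap, map_ofNat]
    exact h2I
  obtain ⟨-, hg, -⟩ := H55B.G4_two u hu3 hu2
  have hf : v.asIdeal.inertiaDeg O = 1 := by
    obtain ⟨ε, hε⟩ := T2_equiv K h1
    have hlies : v.asIdeal.LiesOver u.asIdeal := ⟨hu⟩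
    have := v.isMaximal
    have := u.isMaximal
    have h6 := Ideal.relNorm_eq_pow_of_isMaximal v.asIdeal u.asIdeal
    have h7 : v.asIdeal = (ε u.asIdeal) ^ (v.asIdeal.inertiaDeg O) := by
      obtain ⟨J, hJ⟩ := ε.surjective v.asIdeal
      obtain ⟨J', hJ'⟩ := ε.surjective ((ε u.asIdeal) ^ (v.asIdeal.inertiaDeg O))
      have h8 := (hε J).1
      have h9 := (hε J').1
      rw [hJ, h6] at h8
      rw [hJ', map_pow, (hε _).1] at h9
      have h10 : J = J' := by rw [← h8, ← h9]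
      exact hJ.symm.trans ((congrArg ε h10).trans hJ')
    have hirr := v.irreducible
    have hpos : 0 < v.asIdeal.inertiaDeg O := Ideal.inertiaDeg_pos v.asIdeal O
    obtain ⟨g, hg'⟩ : ∃ g, v.asIdeal.inertiaDeg O = g + 1 := ⟨_, (Nat.sub_add_cancel hpos).symm⟩
    rw [hg'] at h7
    rw [hg']
    have hnu : ¬ IsUnit (ε u.asIdeal) := by
      intro h
      apply hirr.not_isUnit
      rw [h7]
      exact h.pow _
    rw [h7, pow_succ] at hirr
    rcases hirr.isUnit_or_isUnit rfl with h | h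
    · rcases Nat.eq_zero_or_pos g with h0 | h0
      · rw [h0]
      · exact absurd ((isUnit_pow_iff h0.ne').1 h) hnu
    · exact absurd h hnu
  refine ⟨v, h3, ?_, ?_⟩
  · exact hodd p (hp.odd_of_ne_two (by omega))
  · have h6 := cardE K v h3
    rw [Psi_prime v u hu, psiF_prime u hu3, hg, hf, pow_one, map_neg, map_ofNat, map_neg, map_ofNat,
      map_neg, map_ofNat] at h6
    have h7 : Nat.card (W27O⁄(𝓞 K ⧸ v.asIdeal)).toAffine.Point = 9 := by
      have h8 : (Nat.card (W27O⁄(𝓞 K ⧸ v.asIdeal)).toAffine.Point : ℂ) = 9 := by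
        rw [h6]
        norm_num
      exact_mod_cast h8
    rw [h7]
    intro h
    have h8 : p ∣ 3 ^ 2 := by norm_num; exact h
    have h9 := Nat.le_of_dvd (by norm_num) (hp.dvd_of_dvd_pow h8)
    omega

end H55P
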