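import Mathlib

namespace H55P

/-! Chunk PSA1 (S/M). Pure group theory.
op_zero: work in the ring AddMonoid.End X. (σ - 1)^p = σ^p - 1 + p * r for a polynomial r in σ (Commute.add_pow / exists_add_pow_prime_eq with x = σ, y = -1, and for p = 2 the sign: (-1)^p = -1 + 2 or so; r maps Z to Z since it is an
integer polynomial in σ). So for z in Z: (σ - 1)^p z = (σ^p z - z) + p r z (+ p z) is in B (hσ, hZ). If (σ - 1)^(j+1) z is in B then (σ - 1)^j z is in Z and in B by h0 (apply h0 to (σ-1)^j z); descend from p to 0. (σ^[p] is the iterate, AddMonoid.End.coe_pow.)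
fix_up: X = the set of T with p T = 0 fixed by N, finite, an additive subgroup stable under H (T in X, h in H, n in N: n h T = h (h^-1 n h) T = h T). H acts on X; the subgroup N acts trivially, so the image H' of H in Equiv.Perm X satisfies h^(p^k) = 1,
so it is a p-group (IsPGroup). IsPGroup.card_modEq_card_fixedPoints: card X = number of fixed points = 1 mod p (h0). If X <> 0 then p divides card X (an element T of order p, Lagrange), contradiction. -/

theorem op_zero {X : Type} [AddCommGroup X] (p : ℕ) (hp : p.Prime) (Z B : AddSubgroup X)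
    (hZ : ∀ z ∈ Z, p • z ∈ B) (σ : X →+ X) (hσZ : ∀ z ∈ Z, σ z ∈ Z) (hσB : ∀ b ∈ B, σ b ∈ B)
    (hσ : ∀ z ∈ Z, σ^[p] z - z ∈ B) (h0 : ∀ z ∈ Z, σ z - z ∈ B → z ∈ B) : ∀ z ∈ Z, z ∈ B := by
  classical
  -- the subring of endomorphisms preserving `Z`
  let S : Subring (AddMonoid.End X) :=
    { carrier := {f | ∀ z ∈ Z, f z ∈ Z}
      mul_mem' := fun {f g} hf hg z hz => hf _ (hg z hz)
      one_mem' := fun z hz => hz
      add_mem' := fun {f g} hf hg z hz => Z.add_mem (hf z hz) (hg z hz)
      zero_mem' := fun z _ => Z.zero_mem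
      neg_mem' := fun {f} hf z hz => Z.neg_mem (hf z hz) }
  let s : AddMonoid.End X := σ
  have hsS : s ∈ S := fun z hz => hσZ z hz
  let x : S := ⟨s, hsS⟩
  obtain ⟨r, hr⟩ := Commute.exists_add_pow_prime_eq hp (Commute.neg_right (Commute.one_right x))
  have hsign : ∃ e : S, (-1 : S) ^ p = -1 + (p : S) * e := by
    rcases hp.eq_two_or_odd' with h2 | hodd
    · subst h2
      refine ⟨1, ?_⟩
      push_cast
      ring_nf
      norm_num
    · exact ⟨0, by rw [hodd.neg_one_pow]; simp⟩
  obtain ⟨e, he⟩ := hsign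
  obtain ⟨r', hr'⟩ : ∃ r' : S, (x + -1) ^ p = x ^ p + (-1) ^ p + (p : S) * r' :=
    ⟨x * -1 * r, by rw [hr]; simp only [mul_assoc]⟩
  have hmain : (x + -1) ^ p = x ^ p - 1 + (p : S) * (e + r') := by
    rw [hr', he, mul_add]
    abel
  have hMul : ∀ (f g : AddMonoid.End X) (z : X), (f * g) z = f (g z) := fun _ _ _ => rfl
  have hAdd : ∀ (f g : AddMonoid.End X) (z : X), (f + g) z = f z + g z := fun _ _ _ => rfl
  have hSub : ∀ (f g : AddMonoid.End X) (z : X), (f - g) z = f z - g z := fun _ _ _ => rfl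
  have hmul : ∀ (q : AddMonoid.End X) (z : X), ((p : AddMonoid.End X) * q) z = p • q z := by
    intro q z
    rw [hMul, AddMonoid.End.natCast_apply]
  have htop : ∀ z ∈ Z, ((s + -1) ^ p) z ∈ B := by
    intro z hz
    have h1 : ((s + -1) ^ p : AddMonoid.End X) = s ^ p - 1 + (p : AddMonoid.End X) * ((e : AddMonoid.End X) + r') := by
      have := congrArg (Subtype.val) hmain
      simpa using this
    rw [h1]
    have h2 : ((s ^ p - 1 + (p : AddMonoid.End X) * ((e : AddMonoid.End X) + r')) : AddMonoid.End X) z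
        = (σ^[p] z - z) + p • (((e : AddMonoid.End X) + r') z) := by
      rw [hAdd, hmul, hSub, AddMonoid.End.coe_pow]
      rfl
    rw [h2]
    exact B.add_mem (hσ z hz) (hZ _ ((e + r').2 z hz))
  have hpowZ : ∀ j : ℕ, ∀ z ∈ Z, ((s + -1) ^ j) z ∈ Z := by
    intro j z hz
    have : (s + -1) ^ j ∈ S := S.pow_mem (S.add_mem hsS (S.neg_mem S.one_mem)) j
    exact this z hz
  intro z hz
  have hdesc : ∀ j : ℕ, ((s + -1) ^ j) z ∈ B → z ∈ B := by
    intro j
    induction j with
    | zero => intro h; simpa using h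
    | succ j ih =>
      intro h
      apply ih
      apply h0 _ (hpowZ j z hz)
      rw [pow_succ', hMul, hAdd] at h
      have : (s (((s + -1) ^ j) z)) + (-1 : AddMonoid.End X) (((s + -1) ^ j) z)
          = σ (((s + -1) ^ j) z) - ((s + -1) ^ j) z := by
        rw [sub_eq_add_neg]
        rfl
      rw [this] at h
      exact h
  exact hdesc p (htop z hz)

theorem fix_up {G M : Type} [Group G] [AddCommGroup M] (ρ : G →* AddMonoid.End M) (p : ℕ) (hp : p.Prime)
    (hfin : {T : M | p • T = 0}.Finite) (N H : Subgroup G) (hNH : N ≤ H)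
    (hn : ∀ h ∈ H, ∀ n ∈ N, h * n * h⁻¹ ∈ N) (k : ℕ) (hk : ∀ h ∈ H, h ^ p ^ k ∈ N)
    (h0 : ∀ T : M, p • T = 0 → (∀ h ∈ H, ρ h T = T) → T = 0) (T : M) (hT : p • T = 0)
    (hf : ∀ n ∈ N, ρ n T = T) : T = 0 := by
  classical
  have : Fact p.Prime := ⟨hp⟩
  have hMul : ∀ (f g : AddMonoid.End M) (z : M), (f * g) z = f (g z) := fun _ _ _ => rfl
  let X : AddSubgroup M :=
    { carrier := {T | p • T = 0 ∧ ∀ n ∈ N, ρ n T = T}
      add_mem' := fun {a b} ha hb => ⟨by rw [smul_add, ha.1, hb.1, add_zero],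
        fun n hn => by rw [map_add, ha.2 n hn, hb.2 n hn]⟩
      zero_mem' := ⟨by simp, fun n _ => map_zero _⟩
      neg_mem' := fun {a} ha => ⟨by rw [smul_neg, ha.1, neg_zero],
        fun n hn => by rw [map_neg, ha.2 n hn]⟩ }
  have : Finite X := (hfin.subset (fun T hT => hT.1)).to_subtype
  have hstab : ∀ h ∈ H, ∀ T ∈ X, ρ h T ∈ X := by
    intro h hh T hT
    refine ⟨?_, ?_⟩
    · rw [← map_nsmul, hT.1, map_zero]
    · intro n hnN
      have h1 : h⁻¹ * n * h ∈ N := by
        have := hn h⁻¹ (H.inv_mem hh) n hnN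
        simpa using this
      have h2 : ρ n (ρ h T) = ρ h (ρ (h⁻¹ * n * h) T) := by
        rw [← hMul, ← hMul, ← map_mul, ← map_mul]
        congr 2
        group
      rw [h2, hT.2 _ h1]
  have hinv : ∀ (h : G) (T : M), ρ h⁻¹ (ρ h T) = T := by
    intro h T
    rw [← hMul, ← map_mul, inv_mul_cancel, map_one]
    rfl
  have hinv' : ∀ (h : G) (T : M), ρ h (ρ h⁻¹ T) = T := by
    intro h T
    rw [← hMul, ← map_mul, mul_inv_cancel, map_one]
    rfl
  let φ : H →* Equiv.Perm X :=
    { toFun := fun h =>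
        { toFun := fun x => ⟨ρ (h : G) x.1, hstab h h.2 _ x.2⟩
          invFun := fun x => ⟨ρ (h : G)⁻¹ x.1, hstab _ (H.inv_mem h.2) _ x.2⟩
          left_inv := fun x => Subtype.ext (hinv _ _)
          right_inv := fun x => Subtype.ext (hinv' _ _) }
      map_one' := by
        ext x
        simp
      map_mul' := fun a b => by
        ext x
        simp [map_mul, hMul] }
  have hφ : ∀ (h : H) (x : X), ((φ h x : X) : M) = ρ (h : G) x := fun h x => rfl
  have hP : IsPGroup p φ.range := by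
    rintro ⟨_, ⟨h, rfl⟩⟩
    refine ⟨k, ?_⟩
    apply Subtype.ext
    rw [SubgroupClass.coe_pow, ← map_pow]
    ext x
    show ((φ (h ^ p ^ k) x : X) : M) = x
    rw [hφ]
    have := x.2.2 _ (hk h h.2)
    simpa using this
  by_contra hne
  let t : X := ⟨T, hT, hf⟩
  have ht : t ≠ 0 := fun h => hne (congrArg Subtype.val h)
  have hord : addOrderOf t = p := by
    apply addOrderOf_eq_prime
    · apply Subtype.ext
      exact hT
    · exact ht
  have hdvd : p ∣ Nat.card X := by
    rw [← hord]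
    exact addOrderOf_dvd_natCard t
  have h0fix : (0 : X) ∈ MulAction.fixedPoints φ.range X := by
    rintro ⟨_, ⟨h, rfl⟩⟩
    apply Subtype.ext
    show ((φ h 0 : X) : M) = 0
    rw [hφ]
    exact map_zero _
  obtain ⟨b, hb, hb0⟩ := hP.exists_fixed_point_of_prime_dvd_card_of_fixed_point X hdvd h0fix
  apply hb0
  symm
  apply Subtype.ext
  apply h0 _ b.2.1
  intro h hh
  have := hb ⟨φ ⟨h, hh⟩, ⟨⟨h, hh⟩, rfl⟩⟩
  have h3 := congrArg Subtype.val this
  exact h3

end H55P
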