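import Mathlib

namespace H55P

/-! Chunk PSA2 (M). Pure group theory: a cocycle on N whose class is invariant under H extends to H.
PROOF. For g in H choose T_g (hinv), unique by h0 (the difference of two is fixed by N and killed by p). c' g = T_g for g in H (0 outside). For g in N: ρ g (c (g⁻¹ s g)) - c s = ρ s (c g) - c g: expand c (g⁻¹ s g) = c (g⁻¹) + ρ g⁻¹ (c (s g)),
ρ g (c g⁻¹) = - c g (from c 1 = 0), c (s g) = c s + ρ s (c g); so T_g = c g by uniqueness. For g, h in H: with g.c = the function s -> ρ g (c (g⁻¹ s g)): (gh).c - c = g.(h.c - c) + (g.c - c), and g.(∂T)(s) = ρ g (ρ (g⁻¹ s g) T - T) = ρ s (ρ g T) - ρ g T;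
so ρ g T_h + T_g has the property of T_(gh): T_(gh) = T_g + ρ g T_h. -/

theorem ext_coc {G M : Type} [Group G] [AddCommGroup M] (ρ : G →* AddMonoid.End M) (p : ℕ)
    (N H : Subgroup G) (hNH : N ≤ H) (hn : ∀ h ∈ H, ∀ n ∈ N, h * n * h⁻¹ ∈ N)
    (h0 : ∀ T : M, p • T = 0 → (∀ n ∈ N, ρ n T = T) → T = 0) (c : G → M)
    (hc : ∀ s ∈ N, ∀ t ∈ N, c (s * t) = c s + ρ s (c t)) (hpc : ∀ s ∈ N, p • c s = 0)
    (hinv : ∀ g ∈ H, ∃ T : M, p • T = 0 ∧ ∀ s ∈ N, ρ g (c (g⁻¹ * s * g)) - c s = ρ s T - T) :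
    ∃ c' : G → M, (∀ s ∈ H, ∀ t ∈ H, c' (s * t) = c' s + ρ s (c' t)) ∧ (∀ s ∈ H, p • c' s = 0) ∧
      ∀ s ∈ N, c' s = c s := by
  choose! T hpT hT using hinv
  have hmul : ∀ (a b : G) (x : M), ρ (a * b) x = ρ a (ρ b x) := by
    intro a b x
    rw [map_mul]; rfl
  have hcj : ∀ g ∈ H, ∀ s ∈ N, g⁻¹ * s * g ∈ N := by
    intro g hg s hs
    have := hn g⁻¹ (H.inv_mem hg) s hs
    simpa using this
  have huniq : ∀ g ∈ H, ∀ T' : M, p • T' = 0 →
      (∀ s ∈ N, ρ g (c (g⁻¹ * s * g)) - c s = ρ s T' - T') → T g = T' := by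
    intro g hg T' hp' hT'
    rw [← sub_eq_zero]
    apply h0
    · rw [smul_sub, hpT g hg, hp', sub_zero]
    · intro n hnN
      have h1 := hT g hg n hnN
      rw [hT' n hnN] at h1
      rw [map_sub, sub_eq_sub_iff_sub_eq_sub]
      exact h1.symm
  refine ⟨T, ?_, hpT, ?_⟩
  · intro g hg h hh
    apply huniq _ (H.mul_mem hg hh)
    · rw [smul_add, hpT g hg, ← map_nsmul, hpT h hh, map_zero, add_zero]
    · intro s hs
      have hs' := hcj g hg s hs
      have e1 : (g * h)⁻¹ * s * (g * h) = h⁻¹ * (g⁻¹ * s * g) * h := by group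
      have e2 : ρ h (c (h⁻¹ * (g⁻¹ * s * g) * h)) =
          c (g⁻¹ * s * g) + (ρ (g⁻¹ * s * g) (T h) - T h) := by
        rw [← hT h hh _ hs']
        abel
      have e3 : ρ g (c (g⁻¹ * s * g)) = c s + (ρ s (T g) - T g) := by
        rw [← hT g hg s hs]
        abel
      have e4 : ρ g (ρ (g⁻¹ * s * g) (T h)) = ρ s (ρ g (T h)) := by
        rw [← hmul, ← hmul]
        congr 2
        group
      rw [e1, hmul, e2, map_add, map_sub, e3, e4, map_add]
      abel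
  · intro s hs
    apply huniq s (hNH hs) _ (hpc s hs)
    intro t ht
    have hs' := hcj s (hNH hs) t ht
    have e1 : c (s * (s⁻¹ * t * s)) = c s + ρ s (c (s⁻¹ * t * s)) := hc s hs _ hs'
    have e2 : c (t * s) = c t + ρ t (c s) := hc t ht s hs
    have e3 : s * (s⁻¹ * t * s) = t * s := by group
    rw [e3, e2] at e1
    rw [sub_eq_sub_iff_add_eq_add, add_comm (ρ s _), ← e1, add_comm]

end H55P
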