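import Mathlib
import Pool.Agent.Lib.H55P.SA1
import Pool.Agent.Lib.H55P.SA2

namespace H55P

/-- The Selmer group of H (classes killed by p, trivial on the groups I v) is zero. -/
def SelA {G M Vs : Type} [Group G] [AddCommGroup M] (ρ : G →* AddMonoid.End M) (p : ℕ)
    (U : Set (Subgroup G)) (I : Vs → Subgroup G) (H : Subgroup G) : Prop :=
  ∀ c : G → M, (∀ s ∈ H, ∀ t ∈ H, c (s * t) = c s + ρ s (c t)) →
    (∃ O ∈ U, ∀ s ∈ H, s ∈ O → c s = 0) → (∀ s ∈ H, p • c s = 0) →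
    (∀ v, ∃ P : M, ∀ s ∈ H, s ∈ I v → c s = ρ s P - P) →
    ∃ T : M, p • T = 0 ∧ ∀ s ∈ H, c s = ρ s T - T

/-! Chunk PSA3 (M). Pure group theory, the step of the Selmer group in a cyclic extension of degree p (N = the smaller group).
PROOF. X = G → M, Z = the cocycles on N which are killed by p on N, continuous (zero on N ⊓ O for some O in U) and trivial on N ⊓ I v for each v: a subgroup (P adds, hUi). B = the elements z of Z with z s = ρ s T - T on N for some T, p T = 0.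
Φ c s = ρ σ (c (σ⁻¹ s σ)), additive; Φ Z <= Z: cocycle: direct (N is normalized by σ: from hcomm: σ n σ⁻¹ = (σ n σ⁻¹ n⁻¹) n); continuity hUc; local conditions: v' from hconj with g = σ⁻¹ (which is in H): s in I v, then σ⁻¹ s σ in I v', P becomes ρ σ P.
Φ B <= B. Φ^p c s = ρ (σ^p) (c (σ^(-p) s σ^p)) = c s + ρ s (c σ^p) - c σ^p (computation in PSA2), so in B + c with T = c (σ^p). op_zero reduces the claim (every c in Z is in B) to: z in Z, Φ z - z in B implies z in B.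
For such z = c: hinv of ext_coc holds for g = σ, for g in N (computation in PSA2) and for products, so for all g in H (hgen; for g = σ^i n: induction). ext_coc gives c' on H. c' is continuous: c' s = c s = 0 for s in N ⊓ O (N ⊓ O is in U by hN, hUi). Local
conditions for c' at v: in the first case of hloc H ⊓ I v <= N, clear. In the second case: (1) s in H ⊓ I v acts trivially on the T with p T = 0; (2) for u in N ⊓ I v: c u = ρ u P - P is killed by p, so it is 0. (3) for t in H ⊓ I v and φ in H ⊓ D v: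
u = φ t φ⁻¹ t⁻¹ is in N (hcomm) and in I v (hDI), c' (φ t φ⁻¹) = c' (u t) = c' u + ρ u (c' t) = c' t; on the other hand c' (φ t φ⁻¹) = c' φ + ρ φ (c' t) - ρ (φ t φ⁻¹) (c' φ) = ρ φ (c' t) by (1). So ρ φ (c' t) = c' t for all φ, and c' t = 0 by
hloc: P = 0. So SelA for H gives c' = ∂T, and c = ∂T on N. -/

section SA3

variable {G M Vs : Type} [Group G] [AddCommGroup M] (ρ : G →* AddMonoid.End M)

theorem sa3_mul (s t : G) (x : M) : ρ (s * t) x = ρ s (ρ t x) := by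
  rw [map_mul]
  rfl

theorem sa3_inv (s : G) (x : M) : ρ s (ρ s⁻¹ x) = x := by
  rw [← sa3_mul, mul_inv_cancel, map_one]
  rfl

theorem sa3_one (x : M) : ρ 1 x = x := by
  rw [map_one]
  rfl

theorem sa3_nsmul (p : ℕ) (s : G) (x : M) (h : p • x = 0) : p • ρ s x = 0 := by
  rw [← map_nsmul, h, map_zero]

/-- Coboundaries under the action. -/
theorem sa3_bd (g s : G) (T : M) : ρ g (ρ (g⁻¹ * s * g) T - T) = ρ s (ρ g T) - ρ g T := by
  rw [map_sub, ← sa3_mul, ← sa3_mul]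
  congr 2
  congr 1
  group

/-- The local conditions. -/
def sa3_P (p : ℕ) (U : Set (Subgroup G)) (I : Vs → Subgroup G) (N : Subgroup G) (c : G → M) : Prop :=
  (∀ s ∈ N, ∀ t ∈ N, c (s * t) = c s + ρ s (c t)) ∧ (∃ O ∈ U, ∀ s ∈ N, s ∈ O → c s = 0) ∧
    (∀ s ∈ N, p • c s = 0) ∧ ∀ v, ∃ P : M, ∀ s ∈ N, s ∈ I v → c s = ρ s P - P

/-- The group of cocycles. -/
def sa3_Z (p : ℕ) (U : Set (Subgroup G)) (I : Vs → Subgroup G) (N : Subgroup G) (hN : N ∈ U)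
    (hUi : ∀ O ∈ U, ∀ O' ∈ U, O ⊓ O' ∈ U) : AddSubgroup (G → M) where
  carrier := {c | sa3_P ρ p U I N c}
  add_mem' := by
    rintro a b ⟨a1, ⟨O, hO, a2⟩, a3, a4⟩ ⟨b1, ⟨O', hO', b2⟩, b3, b4⟩
    refine ⟨fun s hs t ht => ?_, ⟨O ⊓ O', hUi O hO O' hO', fun s hs h => ?_⟩, fun s hs => ?_, fun v => ?_⟩
    · rw [Pi.add_apply, Pi.add_apply, Pi.add_apply, a1 s hs t ht, b1 s hs t ht, map_add]
      abel
    · rw [Pi.add_apply, a2 s hs h.1, b2 s hs h.2, add_zero]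
    · rw [Pi.add_apply, smul_add, a3 s hs, b3 s hs, add_zero]
    · obtain ⟨P, hP⟩ := a4 v
      obtain ⟨Q, hQ⟩ := b4 v
      refine ⟨P + Q, fun s hs h => ?_⟩
      rw [Pi.add_apply, hP s hs h, hQ s hs h, map_add]
      abel
  zero_mem' := by
    refine ⟨fun s _ t _ => ?_, ⟨N, hN, fun s _ _ => rfl⟩, fun s _ => ?_, fun v => ⟨0, fun s _ _ => ?_⟩⟩
    · rw [Pi.zero_apply, Pi.zero_apply, Pi.zero_apply, map_zero, add_zero]
    · rw [Pi.zero_apply, smul_zero]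
    · rw [Pi.zero_apply, map_zero, sub_zero]
  neg_mem' := by
    rintro a ⟨a1, ⟨O, hO, a2⟩, a3, a4⟩
    refine ⟨fun s hs t ht => ?_, ⟨O, hO, fun s hs h => ?_⟩, fun s hs => ?_, fun v => ?_⟩
    · rw [Pi.neg_apply, Pi.neg_apply, Pi.neg_apply, a1 s hs t ht, map_neg]
      abel
    · rw [Pi.neg_apply, a2 s hs h, neg_zero]
    · rw [Pi.neg_apply, smul_neg, a3 s hs, neg_zero]
    · obtain ⟨P, hP⟩ := a4 v
      refine ⟨-P, fun s hs h => ?_⟩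
      rw [Pi.neg_apply, hP s hs h, map_neg]
      abel

/-- The group of coboundaries. -/
def sa3_B (p : ℕ) (N : Subgroup G) : AddSubgroup (G → M) where
  carrier := {c | ∃ T : M, p • T = 0 ∧ ∀ s ∈ N, c s = ρ s T - T}
  add_mem' := by
    rintro a b ⟨P, hp, hP⟩ ⟨Q, hq, hQ⟩
    refine ⟨P + Q, by rw [smul_add, hp, hq, add_zero], fun s hs => ?_⟩
    rw [Pi.add_apply, hP s hs, hQ s hs, map_add]
    abel
  zero_mem' := ⟨0, smul_zero _, fun s _ => by rw [Pi.zero_apply, map_zero, sub_zero]⟩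
  neg_mem' := by
    rintro a ⟨P, hp, hP⟩
    refine ⟨-P, by rw [smul_neg, hp, neg_zero], fun s hs => ?_⟩
    rw [Pi.neg_apply, hP s hs, map_neg]
    abel

/-- The action of an element. -/
def sa3_F (σ : G) : (G → M) →+ (G → M) where
  toFun c := fun s => ρ σ (c (σ⁻¹ * s * σ))
  map_zero' := by
    funext s
    exact map_zero (ρ σ)
  map_add' a b := by
    funext s
    exact map_add (ρ σ) _ _

theorem sa3_F_apply (σ : G) (c : G → M) (s : G) : sa3_F ρ σ c s = ρ σ (c (σ⁻¹ * s * σ)) := rfl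

theorem sa3_iter (σ : G) (i : ℕ) (c : G → M) (s : G) :
    (sa3_F ρ σ)^[i] c s = ρ (σ ^ i) (c ((σ ^ i)⁻¹ * s * σ ^ i)) := by
  induction i generalizing s with
  | zero =>
    rw [Function.iterate_zero, id, pow_zero, sa3_one, inv_one, one_mul, mul_one]
  | succ i ih =>
    rw [Function.iterate_succ_apply', sa3_F_apply, ih, ← sa3_mul, ← pow_succ', pow_succ']
    congr 2
    group

variable {ρ}

/-- A cocycle is invariant under its own group, up to a coboundary. -/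
theorem sa3_self {N : Subgroup G} {c : G → M} (hc : ∀ s ∈ N, ∀ t ∈ N, c (s * t) = c s + ρ s (c t))
    (n : G) (hn : n ∈ N) (s : G) (hs : s ∈ N) :
    ρ n (c (n⁻¹ * s * n)) - c s = ρ s (c n) - c n := by
  have h1 : c 1 = 0 := by
    have := hc 1 N.one_mem 1 N.one_mem
    rw [mul_one, sa3_one] at this
    exact left_eq_add.1 this
  have h2 : c n + ρ n (c n⁻¹) = 0 := by
    rw [← hc n hn n⁻¹ (N.inv_mem hn), mul_inv_cancel, h1]
  rw [mul_assoc, hc n⁻¹ (N.inv_mem hn) (s * n) (N.mul_mem hs hn), map_add, sa3_inv, hc s hs n hn]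
  have h3 : ρ n (c n⁻¹) = -c n := (neg_eq_of_add_eq_zero_right h2).symm
  rw [h3]
  abel

theorem sa3_norm {N H : Subgroup G} (hNH : N ≤ H)
    (hcomm : ∀ a ∈ H, ∀ b ∈ H, a * b * a⁻¹ * b⁻¹ ∈ N) (h : G) (hh : h ∈ H) (n : G) (hn : n ∈ N) :
    h * n * h⁻¹ ∈ N := by
  have h1 := N.mul_mem (hcomm h hh n (hNH hn)) hn
  rwa [inv_mul_cancel_right] at h1

theorem sa3_norm' {N H : Subgroup G} (hNH : N ≤ H)
    (hcomm : ∀ a ∈ H, ∀ b ∈ H, a * b * a⁻¹ * b⁻¹ ∈ N) (h : G) (hh : h ∈ H) (n : G) (hn : n ∈ N) :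
    h⁻¹ * n * h ∈ N := by
  have h1 := sa3_norm hNH hcomm h⁻¹ (H.inv_mem hh) n hn
  rwa [inv_inv] at h1

theorem sa3_FZ (p : ℕ) (U : Set (Subgroup G)) (I : Vs → Subgroup G) (N H : Subgroup G)
    (hUc : ∀ O ∈ U, ∀ g : G, ∃ O' ∈ U, ∀ s ∈ O', g * s * g⁻¹ ∈ O) (hNH : N ≤ H)
    (hcomm : ∀ a ∈ H, ∀ b ∈ H, a * b * a⁻¹ * b⁻¹ ∈ N) (σ : G) (hσ : σ ∈ H)
    (hconj : ∀ g ∈ H, ∀ v, ∃ v', ∀ s, s ∈ I v' ↔ g * s * g⁻¹ ∈ I v) (c : G → M)
    (hc : sa3_P ρ p U I N c) : sa3_P ρ p U I N (sa3_F ρ σ c) := by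
  obtain ⟨c1, ⟨O, hO, c2⟩, c3, c4⟩ := hc
  have hn := sa3_norm' hNH hcomm σ hσ
  refine ⟨fun s hs t ht => ?_, ?_, fun s hs => ?_, fun v => ?_⟩
  · rw [sa3_F_apply, sa3_F_apply, sa3_F_apply]
    have e : σ⁻¹ * (s * t) * σ = (σ⁻¹ * s * σ) * (σ⁻¹ * t * σ) := by group
    rw [e, c1 _ (hn s hs) _ (hn t ht), map_add, ← sa3_mul, ← sa3_mul]
    congr 3
    group
  · obtain ⟨O', hO', h⟩ := hUc O hO σ⁻¹
    refine ⟨O', hO', fun s hs hsO => ?_⟩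
    have h1 := h s hsO
    rw [inv_inv] at h1
    rw [sa3_F_apply, c2 _ (hn s hs) h1, map_zero]
  · exact sa3_nsmul ρ p σ _ (c3 _ (hn s hs))
  · obtain ⟨v', hv'⟩ := hconj σ hσ v
    obtain ⟨P, hP⟩ := c4 v'
    refine ⟨ρ σ P, fun s hs h => ?_⟩
    have h1 : σ⁻¹ * s * σ ∈ I v' := by
      rw [hv']
      have e : σ * (σ⁻¹ * s * σ) * σ⁻¹ = s := by group
      rw [e]
      exact h
    rw [sa3_F_apply, hP _ (hn s hs) h1, sa3_bd]

/-- Invariance under an element, up to a coboundary. -/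
def sa3_I (ρ : G →* AddMonoid.End M) (p : ℕ) (N : Subgroup G) (c : G → M) (g : G) : Prop :=
  ∃ T : M, p • T = 0 ∧ ∀ s ∈ N, ρ g (c (g⁻¹ * s * g)) - c s = ρ s T - T

theorem sa3_I_mul {p : ℕ} {N : Subgroup G} {c : G → M} {g h : G} (hn : ∀ n ∈ N, g⁻¹ * n * g ∈ N)
    (h1 : sa3_I ρ p N c g) (h2 : sa3_I ρ p N c h) : sa3_I ρ p N c (g * h) := by
  obtain ⟨T, hT, h3⟩ := h1
  obtain ⟨S, hS, h4⟩ := h2
  refine ⟨ρ g S + T, by rw [smul_add, hT, sa3_nsmul ρ p g S hS, add_zero], fun s hs => ?_⟩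
  have e : (g * h)⁻¹ * s * (g * h) = h⁻¹ * (g⁻¹ * s * g) * h := by group
  have h5 := h4 _ (hn s hs)
  have h6 := h3 s hs
  have h7 : ρ h (c (h⁻¹ * (g⁻¹ * s * g) * h)) = c (g⁻¹ * s * g) + (ρ (g⁻¹ * s * g) S - S) := by
    rw [← h5]
    abel
  rw [e, sa3_mul, h7, map_add, sa3_bd, map_add]
  have h8 : ρ g (c (g⁻¹ * s * g)) = c s + (ρ s T - T) := by
    rw [← h6]
    abel
  rw [h8]
  abel

/-- The local conditions for the extended cocycle. -/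
theorem sa3_loc (p : ℕ) (I D : Vs → Subgroup G) (N H : Subgroup G) (hNH : N ≤ H)
    (hcomm : ∀ a ∈ H, ∀ b ∈ H, a * b * a⁻¹ * b⁻¹ ∈ N)
    (hDI : ∀ v, ∀ φ ∈ D v, ∀ s ∈ I v, φ * s * φ⁻¹ ∈ I v) (v : Vs)
    (hloc : (∀ s ∈ H, s ∈ I v → s ∈ N) ∨
      ((∀ s ∈ H, s ∈ I v → ∀ P : M, p • (ρ s P - P) = 0 → ρ s P = P) ∧
        ∀ T : M, p • T = 0 → (∀ s ∈ H, s ∈ D v → ρ s T = T) → T = 0))
    (c c' : G → M) (hc : ∃ P : M, ∀ s ∈ N, s ∈ I v → c s = ρ s P - P) (hpc : ∀ s ∈ N, p • c s = 0)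
    (h1 : ∀ s ∈ H, ∀ t ∈ H, c' (s * t) = c' s + ρ s (c' t)) (h2 : ∀ s ∈ H, p • c' s = 0)
    (h3 : ∀ s ∈ N, c' s = c s) : ∃ P : M, ∀ s ∈ H, s ∈ I v → c' s = ρ s P - P := by
  obtain ⟨P, hP⟩ := hc
  rcases hloc with h | ⟨ha, hb⟩
  · exact ⟨P, fun s hs hI => by rw [h3 s (h s hs hI), hP s (h s hs hI) hI]⟩
  · have triv : ∀ s ∈ H, s ∈ I v → ∀ T : M, p • T = 0 → ρ s T = T := by
      intro s hs hI T hT
      refine ha s hs hI T ?_
      rw [smul_sub, sa3_nsmul ρ p s T hT, hT, sub_zero]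
    have hzero : ∀ u ∈ N, u ∈ I v → c u = 0 := by
      intro u hu hI
      have e := hP u hu hI
      have := ha u (hNH hu) hI P (by rw [← e]; exact hpc u hu)
      rw [e, this, sub_self]
    refine ⟨0, fun t ht hI => ?_⟩
    rw [map_zero, sub_zero]
    refine hb _ (h2 t ht) ?_
    intro φ hφ hD
    have hφi := H.inv_mem hφ
    have ht' : φ * t * φ⁻¹ ∈ H := H.mul_mem (H.mul_mem hφ ht) hφi
    have hI' : φ * t * φ⁻¹ ∈ I v := hDI v φ hD t hI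
    have hu : φ * t * φ⁻¹ * t⁻¹ ∈ N := hcomm φ hφ t ht
    have huI : φ * t * φ⁻¹ * t⁻¹ ∈ I v := (I v).mul_mem hI' ((I v).inv_mem hI)
    have e1 : c' (φ * t * φ⁻¹) = c' t := by
      have := h1 _ (hNH hu) t ht
      rw [inv_mul_cancel_right, h3 _ hu, hzero _ hu huI, zero_add,
        triv _ (hNH hu) huI _ (h2 t ht)] at this
      exact this
    have h4 : c' 1 = 0 := by
      have := h1 1 H.one_mem 1 H.one_mem
      rw [mul_one, sa3_one] at this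
      exact left_eq_add.1 this
    have e2 : c' (φ * t * φ⁻¹) = ρ φ (c' t) := by
      have h5 : c' φ + ρ φ (c' φ⁻¹) = 0 := by
        rw [← h1 φ hφ φ⁻¹ hφi, mul_inv_cancel, h4]
      have h6 : ρ (φ * t * φ⁻¹) (c' φ) = c' φ := triv _ ht' hI' _ (h2 φ hφ)
      have h7 : ρ (φ * t) (c' φ⁻¹) = -c' φ := by
        have h8 : c' φ⁻¹ = ρ φ⁻¹ (-c' φ) := by
          have h9 : ρ φ (c' φ⁻¹) = -c' φ := (neg_eq_of_add_eq_zero_right h5).symm
          rw [← h9, ← sa3_mul, inv_mul_cancel, sa3_one]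
        rw [h8, ← sa3_mul, map_neg, h6]
      rw [h1 _ (H.mul_mem hφ ht) _ hφi, h1 φ hφ t ht, h7]
      abel
    rw [← e2, e1]

end SA3

theorem abs_step {G M Vs : Type} [Group G] [AddCommGroup M] (ρ : G →* AddMonoid.End M) (p : ℕ)
    (hp : p.Prime) (U : Set (Subgroup G)) (I D : Vs → Subgroup G) (N H : Subgroup G)
    (hUi : ∀ O ∈ U, ∀ O' ∈ U, O ⊓ O' ∈ U) (hUc : ∀ O ∈ U, ∀ g : G, ∃ O' ∈ U, ∀ s ∈ O', g * s * g⁻¹ ∈ O)
    (hN : N ∈ U) (hNH : N ≤ H) (hcomm : ∀ a ∈ H, ∀ b ∈ H, a * b * a⁻¹ * b⁻¹ ∈ N) (σ : G) (hσ : σ ∈ H)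
    (hgen : ∀ h ∈ H, ∃ i : ℕ, ∃ n ∈ N, h = σ ^ i * n) (hσp : σ ^ p ∈ N)
    (hconj : ∀ g ∈ H, ∀ v, ∃ v', ∀ s, s ∈ I v' ↔ g * s * g⁻¹ ∈ I v)
    (hDI : ∀ v, ∀ φ ∈ D v, ∀ s ∈ I v, φ * s * φ⁻¹ ∈ I v)
    (h0 : ∀ T : M, p • T = 0 → (∀ s ∈ N, ρ s T = T) → T = 0)
    (hloc : ∀ v, (∀ s ∈ H, s ∈ I v → s ∈ N) ∨
      ((∀ s ∈ H, s ∈ I v → ∀ P : M, p • (ρ s P - P) = 0 → ρ s P = P) ∧
        ∀ T : M, p • T = 0 → (∀ s ∈ H, s ∈ D v → ρ s T = T) → T = 0))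
    (hS : SelA ρ p U I H) : SelA ρ p U I N := by
  intro c hc1 hc2 hc3 hc4
  have hn := sa3_norm hNH hcomm
  have hn' := sa3_norm' hNH hcomm
  refine op_zero p hp (sa3_Z ρ p U I N hN hUi) (sa3_B ρ p N) ?_ (sa3_F ρ σ)
    (fun z hz => sa3_FZ p U I N H hUc hNH hcomm σ hσ hconj z hz) ?_ ?_ ?_ c ⟨hc1, hc2, hc3, hc4⟩
  · rintro z ⟨-, -, hz, -⟩
    exact ⟨0, smul_zero _, fun s hs => by rw [Pi.smul_apply, hz s hs, map_zero, sub_zero]⟩
  · rintro b ⟨T, hT, hb⟩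
    refine ⟨ρ σ T, sa3_nsmul ρ p σ T hT, fun s hs => ?_⟩
    rw [sa3_F_apply, hb _ (hn' σ hσ s hs), sa3_bd]
  · rintro z ⟨z1, -, z3, -⟩
    refine ⟨z (σ ^ p), z3 _ hσp, fun s hs => ?_⟩
    rw [Pi.sub_apply, sa3_iter]
    exact sa3_self z1 _ hσp s hs
  · rintro z ⟨z1, ⟨O, hO, z2⟩, z3, z4⟩ ⟨T, hT, hb⟩
    have hI : sa3_I ρ p N z σ := ⟨T, hT, fun s hs => hb s hs⟩
    have hI1 : ∀ n ∈ N, sa3_I ρ p N z n := fun n hn => ⟨z n, z3 n hn, fun s hs => sa3_self z1 n hn s hs⟩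
    have hI2 : ∀ i : ℕ, sa3_I ρ p N z (σ ^ i) := by
      intro i
      induction i with
      | zero =>
        rw [pow_zero]
        exact hI1 1 N.one_mem
      | succ i ih =>
        rw [pow_succ']
        exact sa3_I_mul (hn' σ hσ) hI ih
    have hinv : ∀ g ∈ H, sa3_I ρ p N z g := by
      intro g hg
      obtain ⟨i, n, hnN, rfl⟩ := hgen g hg
      exact sa3_I_mul (hn' _ (H.pow_mem hσ i)) (hI2 i) (hI1 n hnN)
    obtain ⟨c', e1, e2, e3⟩ := ext_coc ρ p N H hNH hn h0 z z1 z3 hinv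
    obtain ⟨T', hT', h5⟩ := hS c' e1 ⟨N ⊓ O, hUi N hN O hO, fun s _ h => by rw [e3 s h.1, z2 s h.1 h.2]⟩ e2
      (fun v => sa3_loc p I D N H hNH hcomm hDI v (hloc v) z c' (z4 v) z3 e1 e2 e3)
    exact ⟨T', hT', fun s hs => by rw [← e3 s hs, h5 s (hNH hs)]⟩

end H55P
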