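import Mathlib
import Pool.Agent.Lib.H55P.S1
import Pool.Agent.Lib.H55P.SA3

open NumberField IsDedekindDomain WeierstrassCurve

namespace H55P

variable {F : Type} [Field F] [NumberField F] {Ω : Type} [Field Ω] [DecidableEq Ω] [Algebra F Ω]
  [IsAlgClosed Ω] [Algebra.IsAlgebraic F Ω] [CharZero Ω]

/-! Chunk PS3 (M). abs_step of Lib/H55P/SA3.lean for the Galois groups. sel_iff: unfold; U = the set of the fixing subgroups of the L with FiniteDimensional F L.
sel_step: H = N.fixingSubgroup, the smaller group is K.fixingSubgroup. hUi: fixing subgroup of the sup (IntermediateField.fixingSubgroup_sup or le arguments: the elements fixing L and L' fix L ⊔ L'; finite). hUc: L.map g⁻¹. hcomm, σ: the restriction r : N.fixingSubgroup → Gal(K/N) (K as an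
extension of N: IntermediateField.extendScalars; see FR_restr, FR_galois in Lib/H16C/FR2.lean; normal by hnorm), kernel = K.fixingSubgroup, the group has order [K : N] = p (IsGalois.card_aut_eq_finrank, finrank F K = finrank F N * finrank N K), so it is cyclic and
commutative (isCyclic_of_prime_card). If r is trivial take σ = 1, otherwise any σ with r σ <> 1: r σ is a generator. hconj, hDI: S1. -/

theorem s3_fin (N K : IntermediateField F Ω) (hNK : N ≤ K) [FiniteDimensional F K] :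
    FiniteDimensional N (IntermediateField.extendScalars hNK) := by
  have h1 : FiniteDimensional F (IntermediateField.extendScalars hNK) :=
    inferInstanceAs (FiniteDimensional F K)
  exact Module.Finite.of_restrictScalars_finite F N _

theorem s3_galois (N K : IntermediateField F Ω) (hNK : N ≤ K) [FiniteDimensional F K]
    (hst : ∀ g ∈ N.fixingSubgroup, ∀ x ∈ K, g x ∈ K) :
    IsGalois N (IntermediateField.extendScalars hNK) := by
  have hfin := s3_fin N K hNK
  have hal : Algebra.IsAlgebraic N Ω := Algebra.IsAlgebraic.tower_top (K := F) N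
  have hcl : IsAlgClosure N Ω := ⟨inferInstance, hal⟩
  have hno : Normal N Ω := IsAlgClosure.normal N Ω
  have : Normal N (IntermediateField.extendScalars hNK) := by
    rw [IntermediateField.normal_iff_forall_map_le']
    intro σ
    rintro y ⟨x, hx, rfl⟩
    have hx' : x ∈ K := IntermediateField.mem_extendScalars hNK |>.1 hx
    have h2 := hst (σ.restrictScalars F) (fun z => σ.commutes z) x hx'
    exact (IntermediateField.mem_extendScalars hNK).2 h2
  have : CharZero N := charZero_of_injective_algebraMap (algebraMap F N).injective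
  exact { }

theorem s3_lift {N : IntermediateField F Ω} (E : IntermediateField N Ω) [Normal N E] (s : Gal(E/N)) :
    ∃ φ : Ω ≃ₐ[F] Ω, φ ∈ N.fixingSubgroup ∧ ∀ x : E, φ (x : Ω) = ((s x : E) : Ω) := by
  have hal : Algebra.IsAlgebraic N Ω := Algebra.IsAlgebraic.tower_top (K := F) N
  have hcl : IsAlgClosure N Ω := ⟨inferInstance, hal⟩
  have hno : Normal N Ω := IsAlgClosure.normal N Ω
  refine ⟨(s.liftNormal Ω).restrictScalars F, fun x => (s.liftNormal Ω).commutes x, fun x => ?_⟩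
  exact s.liftNormal_commutes Ω x

theorem s3_restr {N : IntermediateField F Ω} (E : IntermediateField N Ω) [Normal N E] (g : Ω ≃ₐ[F] Ω)
    (hg : g ∈ N.fixingSubgroup) : ∃ s : Gal(E/N), ∀ x : E, ((s x : E) : Ω) = g (x : Ω) :=
  ⟨(AlgEquiv.ofRingEquiv (f := (g : Ω ≃+* Ω)) (fun x => hg x) : Ω ≃ₐ[N] Ω).restrictNormal E,
    fun x => (AlgEquiv.ofRingEquiv (f := (g : Ω ≃+* Ω)) (fun x => hg x) : Ω ≃ₐ[N] Ω).restrictNormal_commutes E x⟩

theorem sel_iff (W : WeierstrassCurve F) (p : ℕ) (K : IntermediateField F Ω) :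
    SelZero W p K ↔ SelA (acR W) p {O | ∃ L : IntermediateField F Ω, FiniteDimensional F L ∧
      O = L.fixingSubgroup} (fun V : ValuationSubring Ω => inS F V) K.fixingSubgroup := by
  constructor
  · intro h c h1 h2 h3 h4
    obtain ⟨O, ⟨L, hL, rfl⟩, hO⟩ := h2
    exact h c ⟨h1, L, hL, hO⟩ h3 h4
  · intro h c h1 h3 h4
    obtain ⟨L, hL, hO⟩ := h1.cont
    exact h c h1.mul ⟨L.fixingSubgroup, ⟨L, hL, rfl⟩, hO⟩ h3 h4

theorem s3_mem (K : IntermediateField F Ω) (s : Ω ≃ₐ[F] Ω) :
    s ∈ K.fixingSubgroup ↔ ∀ x ∈ K, s x = x :=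
  IntermediateField.mem_fixingSubgroup_iff K s

theorem sel_step (W : WeierstrassCurve F) (p : ℕ) (hp : p.Prime) (N K : IntermediateField F Ω)
    [FiniteDimensional F K] (hNK : N ≤ K) (hnorm : ∀ s ∈ N.fixingSubgroup, ∀ x ∈ K, s x ∈ K)
    (hdeg : Module.finrank F K = Module.finrank F N * p)
    (h0 : ∀ T : Pt W Ω, p • T = 0 → (∀ s ∈ K.fixingSubgroup, ac W s T = T) → T = 0)
    (hloc : ∀ V : ValuationSubring Ω, (∀ s ∈ N.fixingSubgroup, Inert V s → s ∈ K.fixingSubgroup) ∨
      ((∀ s ∈ N.fixingSubgroup, Inert V s → ∀ P : Pt W Ω, p • (ac W s P - P) = 0 → ac W s P = P) ∧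
        ∀ T : Pt W Ω, p • T = 0 → (∀ s ∈ N.fixingSubgroup, Dec V s → ac W s T = T) → T = 0))
    (hS : SelZero W p N) : SelZero W p K := by
  rw [sel_iff] at hS ⊢
  have hfin := s3_fin N K hNK
  have hgal := s3_galois N K hNK hnorm
  have hdN : Module.finrank F N ≠ 0 := by
    intro h
    rw [h, zero_mul] at hdeg
    exact (Module.finrank_pos (R := F) (M := K)).ne' hdeg
  have hfr : Module.finrank N (IntermediateField.extendScalars hNK) = p := by
    have h1 := Module.finrank_mul_finrank F N (IntermediateField.extendScalars hNK)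
    have h2 : Module.finrank F (IntermediateField.extendScalars hNK) = Module.finrank F K := rfl
    rw [h2, hdeg] at h1
    exact Nat.eq_of_mul_eq_mul_left (Nat.pos_of_ne_zero hdN) h1
  have hcard : Nat.card Gal((IntermediateField.extendScalars hNK)/N) = p := by
    rw [IsGalois.card_aut_eq_finrank, hfr]
  have : Fact p.Prime := ⟨hp⟩
  have hcyc : IsCyclic Gal((IntermediateField.extendScalars hNK)/N) := isCyclic_of_prime_card hcard
  obtain ⟨τ, hτ⟩ := hcyc.exists_generator
  obtain ⟨σ, hσ, hστ⟩ := s3_lift (IntermediateField.extendScalars hNK) τ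
  have hpow : ∀ (i : ℕ) (x : IntermediateField.extendScalars hNK),
      (σ ^ i) (x : Ω) = (((τ ^ i) x : IntermediateField.extendScalars hNK) : Ω) := by
    intro i
    induction i with
    | zero => intro x; rfl
    | succ n ih =>
      intro x
      rw [pow_succ', pow_succ', AlgEquiv.mul_apply, AlgEquiv.mul_apply, ih, hστ]
  refine abs_step (acR W) p hp _ (fun V : ValuationSubring Ω => inS F V)
    (fun V : ValuationSubring Ω => decS F V) K.fixingSubgroup N.fixingSubgroup ?_ ?_ ?_ ?_ ?_ σ hσ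
    ?_ ?_ ?_ ?_ ?_ ?_ hS
  · rintro _ ⟨L, hL, rfl⟩ _ ⟨L', hL', rfl⟩
    exact ⟨L ⊔ L', IntermediateField.finiteDimensional_sup L L',
      (IntermediateField.fixingSubgroup_sup).symm⟩
  · rintro _ ⟨L, hL, rfl⟩ g
    refine ⟨(L.map (g⁻¹ : Ω ≃ₐ[F] Ω).toAlgHom).fixingSubgroup, ⟨_, ?_, rfl⟩, ?_⟩
    · exact LinearEquiv.finiteDimensional
        (IntermediateField.equivMap L (g⁻¹ : Ω ≃ₐ[F] Ω).toAlgHom).toLinearEquiv
    · intro s hs
      rw [s3_mem] at hs ⊢
      intro x hx
      have h1 : g (g⁻¹ x) = x := g.apply_symm_apply x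
      have h2 : s (g⁻¹ x) = g⁻¹ x := hs _ ⟨x, hx, rfl⟩
      rw [AlgEquiv.mul_apply, AlgEquiv.mul_apply, h2, h1]
  · exact ⟨K, inferInstance, rfl⟩
  · exact IntermediateField.fixingSubgroup_le hNK
  · intro a ha b hb
    obtain ⟨sa, hsa⟩ := s3_restr (IntermediateField.extendScalars hNK) a ha
    obtain ⟨sb, hsb⟩ := s3_restr (IntermediateField.extendScalars hNK) b hb
    have hcm : sa * sb = sb * sa := by
      obtain ⟨i, hi⟩ := Subgroup.mem_zpowers_iff.1 (hτ sa)
      obtain ⟨j, hj⟩ := Subgroup.mem_zpowers_iff.1 (hτ sb)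
      rw [← hi, ← hj, ← zpow_add, ← zpow_add, add_comm]
    rw [s3_mem]
    intro x hx
    have hy : a⁻¹ (b⁻¹ x) ∈ K :=
      hnorm _ (inv_mem ha) _ (hnorm _ (inv_mem hb) _ hx)
    have h3 : a (b (a⁻¹ (b⁻¹ x))) = b (a (a⁻¹ (b⁻¹ x))) := by
      have h4 := hsb ⟨a⁻¹ (b⁻¹ x), hy⟩
      have h5 := hsa ⟨a⁻¹ (b⁻¹ x), hy⟩
      have h6 := hsa (sb ⟨a⁻¹ (b⁻¹ x), hy⟩)
      have h7 := hsb (sa ⟨a⁻¹ (b⁻¹ x), hy⟩)
      have h8 : sa (sb ⟨a⁻¹ (b⁻¹ x), hy⟩) = sb (sa ⟨a⁻¹ (b⁻¹ x), hy⟩) := by
        rw [← AlgEquiv.mul_apply, hcm, AlgEquiv.mul_apply]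
      rw [h8, h7, h4, h5] at h6
      exact h6.symm
    have h1 : a (a⁻¹ (b⁻¹ x)) = b⁻¹ x := a.apply_symm_apply _
    have h2 : b (b⁻¹ x) = x := b.apply_symm_apply _
    rw [AlgEquiv.mul_apply, AlgEquiv.mul_apply, AlgEquiv.mul_apply, h3, h1, h2]
  · intro h hh
    obtain ⟨sh, hsh⟩ := s3_restr (IntermediateField.extendScalars hNK) h hh
    have h1 : sh ∈ Submonoid.powers τ := by
      have := hτ sh
      rwa [← mem_powers_iff_mem_zpowers] at this
    obtain ⟨i, hi⟩ := h1
    refine ⟨i, (σ ^ i)⁻¹ * h, ?_, by group⟩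
    rw [s3_mem]
    intro x hx
    have h2 : h x = (σ ^ i) x := by
      have h3 := hsh ⟨x, hx⟩
      have h4 := hpow i ⟨x, hx⟩
      have hi' : τ ^ i = sh := hi
      rw [hi', h3] at h4
      exact h4.symm
    rw [AlgEquiv.mul_apply, h2]
    exact (σ ^ i).symm_apply_apply x
  · rw [s3_mem]
    intro x hx
    have h4 := hpow p ⟨x, hx⟩
    have h5 : τ ^ p = 1 := by
      rw [← hcard]
      exact pow_card_eq_one'
    rw [h5] at h4
    exact h4
  · intro g _ v
    exact inS_conj v g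
  · intro v φ hφ s hs
    exact inS_dec v φ hφ s hs
  · exact h0
  · exact hloc

end H55P
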