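import Mathlib
import Pool.Agent.Lib.H35P.SL
import Pool.Agent.Lib.H55P.S1

open NumberField IsDedekindDomain WeierstrassCurve

namespace H55P

/-! Chunk PS8 (M). Reduction (with the lemmas of Lib/H35P, valid for general Weierstrass equations).
red_fix: P = 0 trivial. If x(P) is not in V then s x(P) is not in V (inert_dec), so P and s P are in Ker, s P - P in Ker (ker_sub). If x is in V then y is in V (H35P.int_y or the equation) and s P, P are congruent (Inert), so s P - P in Ker (rd). It is killed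
by p, so zero (fg).
exists_red: f T = 0 for T = 0 and f (x, y) = (r x, r y) with x, y in V (torsion_int); the reduced point satisfies the equation of W', which has discriminant r Δ <> 0, so is nonsingular (equation_iff_nonsingular). f (-T) = - f T. Additivity for T1, T2, T1 + T2 nonzero: slope_int
(SL.lean): the slope l of T1, T2 is in V. If r x1 <> r x2: the slope of the reduced points is r l (slope_of_X_ne), and addX, addY are polynomials. If r x1 = r x2: then r y1 = r y2 or r y1 = negY (both are roots of the quadratic equation in y at r x1; reduced curve). In the second case T1 and -T2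
are congruent, so T1 = -T2 (inj), contradiction. In the first case T1 = T2 (inj), x1 = x2; slope = (3x^2+...)/(y - negY), y - negY is a unit of V (otherwise T1 and -T1 are congruent, T1 = -T1), so the reduced slope is r l. For T1 + T2 = 0: f T2 = - f T1. -/

theorem red_fix {F : Type} [Field F] {Ω : Type} [Field Ω] [DecidableEq Ω] [Algebra F Ω]
    (W : WeierstrassCurve F) (V : ValuationSubring Ω) (hG : H35P.GoodW (W⁄Ω) V) (p : ℕ)
    (hp : V.valuation (p : Ω) = 1) (s : Ω ≃ₐ[F] Ω) (hs : Inert V s) (P : Pt W Ω)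
    (h : p • (ac W s P - P) = 0) : ac W s P = P := by
  have hdec := inert_dec V s hs
  have key : H35P.Ker V (ac W s P - P) := by
    rcases P with _ | ⟨x, y, hP⟩
    · have e : ac W s Affine.Point.zero - Affine.Point.zero = (0 : Pt W Ω) := by
        show ac W s 0 - 0 = 0
        rw [map_zero, sub_zero]
      rw [e]
      trivial
    · by_cases hx : x ∈ V
      · have hy : y ∈ V := (V.valuation_le_one_iff y).1
          (H35P.int_y hG.toIntW hP.1 ((V.valuation_le_one_iff x).2 hx))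
        exact H35P.rd hG _ _ ⟨s x, s y, _, x, y, hP, rfl, rfl, (hdec x).2 hx, (hdec y).2 hy, hx, hy,
          hs x hx, hs y hy⟩
      · refine H35P.ker_sub hG.toIntW _ _ ?_ ?_
        · show 1 < V.valuation (s x)
          rw [← not_le, V.valuation_le_one_iff]
          exact fun hc => hx ((hdec x).1 hc)
        · show 1 < V.valuation x
          rw [← not_le, V.valuation_le_one_iff]
          exact hx
  exact sub_eq_zero.1 (H35P.fg hG.toIntW _ p hp h key)

section S8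

variable {k : Type} [Field k] {W : WeierstrassCurve k} {V : ValuationSubring k}

/-- The equation over the valuation ring. -/
def s8_WV (hI : H35P.IntW W V) : WeierstrassCurve V :=
  ⟨⟨W.a₁, hI.a1⟩, ⟨W.a₂, hI.a2⟩, ⟨W.a₃, hI.a3⟩, ⟨W.a₄, hI.a4⟩, ⟨W.a₆, hI.a6⟩⟩

theorem s8_map (hI : H35P.IntW W V) : (s8_WV hI).map V.subtype = W := rfl

theorem s8_negY (hI : H35P.IntW W V) (X Y : V) :
    W.toAffine.negY (X : k) (Y : k) = (((s8_WV hI).toAffine.negY X Y : V) : k) :=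
  Affine.map_negY (W' := (s8_WV hI).toAffine) V.subtype X Y

theorem s8_addX (hI : H35P.IntW W V) (X Y l : V) :
    W.toAffine.addX (X : k) (Y : k) (l : k) = (((s8_WV hI).toAffine.addX X Y l : V) : k) :=
  Affine.map_addX (W' := (s8_WV hI).toAffine) V.subtype X Y l

theorem s8_addY (hI : H35P.IntW W V) (X Y Z l : V) :
    W.toAffine.addY (X : k) (Y : k) (Z : k) (l : k) = (((s8_WV hI).toAffine.addY X Y Z l : V) : k) :=
  Affine.map_addY (W' := (s8_WV hI).toAffine) V.subtype X Z Y l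

variable {κ : Type} [Field κ] (r : V →+* κ) (hr : ∀ x : V, r x = 0 ↔ V.valuation (x : k) < 1)

include hr in
theorem s8_ns (hG : H35P.GoodW W V) (X Y : V) (h : W.toAffine.Nonsingular (X : k) (Y : k)) :
    ((s8_WV hG.toIntW).map r).toAffine.Nonsingular (r X) (r Y) := by
  have h1 : (s8_WV hG.toIntW).toAffine.Equation X Y :=
    (Affine.map_equation (s8_WV hG.toIntW).toAffine (f := V.subtype) Subtype.coe_injective X Y).1 h.1
  have h2 : ((s8_WV hG.toIntW).map r).toAffine.Equation (r X) (r Y) := h1.map r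
  have h3 : ((s8_WV hG.toIntW).map r).Δ ≠ 0 := by
    rw [WeierstrassCurve.map_Δ]
    intro h0
    rw [hr] at h0
    have h4 : (((s8_WV hG.toIntW).Δ : V) : k) = W.Δ :=
      (WeierstrassCurve.map_Δ (s8_WV hG.toIntW) V.subtype).symm
    rw [h4, hG.disc] at h0
    exact lt_irrefl _ h0
  exact (Affine.equation_iff_nonsingular_of_Δ_ne_zero h3).1 h2

open Classical in
/-- The reduction map. -/
noncomputable def s8_f (hG : H35P.GoodW W V) :
    W.toAffine.Point → ((s8_WV hG.toIntW).map r).toAffine.Point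
  | .zero => .zero
  | .some x y h => if hx : x ∈ V ∧ y ∈ V then
      .some (r ⟨x, hx.1⟩) (r ⟨y, hx.2⟩) (s8_ns r hr hG ⟨x, hx.1⟩ ⟨y, hx.2⟩ h) else .zero

theorem s8_f_zero (hG : H35P.GoodW W V) : s8_f r hr hG 0 = 0 := rfl

theorem s8_f_some (hG : H35P.GoodW W V) (X Y : V) (h : W.toAffine.Nonsingular (X : k) (Y : k)) :
    s8_f r hr hG (.some (X : k) (Y : k) h) = .some (r X) (r Y) (s8_ns r hr hG X Y h) :=
  dif_pos ⟨X.2, Y.2⟩

theorem s8_some_congr {W' : WeierstrassCurve κ} {a b c d : κ} {h : W'.toAffine.Nonsingular a b}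
    {h' : W'.toAffine.Nonsingular c d} (e1 : a = c) (e2 : b = d) :
    (Affine.Point.some a b h : W'.toAffine.Point) = .some c d h' := by
  subst e1
  subst e2
  rfl

include hr in
theorem s8_eq_iff (X Y : V) : r X = r Y ↔ V.valuation ((X : k) - (Y : k)) < 1 := by
  rw [← sub_eq_zero, ← map_sub, hr]
  rfl

variable [DecidableEq k]

include hr in
/-- Torsion points with equal reduction are equal. -/
theorem s8_inj (hG : H35P.GoodW W V) (n : ℕ) (hn : V.valuation (n : k) = 1) (X₁ Y₁ X₂ Y₂ : V)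
    (h₁ : W.toAffine.Nonsingular (X₁ : k) (Y₁ : k)) (h₂ : W.toAffine.Nonsingular (X₂ : k) (Y₂ : k))
    (hP : n • (Affine.Point.some _ _ h₁ : W.toAffine.Point) = 0)
    (hQ : n • (Affine.Point.some _ _ h₂ : W.toAffine.Point) = 0)
    (hX : r X₁ = r X₂) (hY : r Y₁ = r Y₂) : X₁ = X₂ ∧ Y₁ = Y₂ := by
  have h := H35P.inj hG _ _ n hn hP hQ ⟨X₁, Y₁, h₁, X₂, Y₂, h₂, rfl, rfl, X₁.2, Y₁.2, X₂.2, Y₂.2,
    (s8_eq_iff r hr X₁ X₂).1 hX, (s8_eq_iff r hr Y₁ Y₂).1 hY⟩
  simp only [Affine.Point.some.injEq] at h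
  exact ⟨Subtype.ext h.1, Subtype.ext h.2⟩

include hr in
/-- Torsion points with opposite reduction are opposite. -/
theorem s8_inj' (hG : H35P.GoodW W V) (n : ℕ) (hn : V.valuation (n : k) = 1) (X₁ Y₁ X₂ Y₂ : V)
    (h₁ : W.toAffine.Nonsingular (X₁ : k) (Y₁ : k)) (h₂ : W.toAffine.Nonsingular (X₂ : k) (Y₂ : k))
    (hP : n • (Affine.Point.some _ _ h₁ : W.toAffine.Point) = 0)
    (hQ : n • (Affine.Point.some _ _ h₂ : W.toAffine.Point) = 0)
    (hX : r X₁ = r X₂) (hY : r Y₁ = ((s8_WV hG.toIntW).map r).toAffine.negY (r X₂) (r Y₂)) :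
    (X₁ : k) = X₂ ∧ (Y₁ : k) = W.toAffine.negY (X₂ : k) (Y₂ : k) := by
  have h3 : W.toAffine.Nonsingular (X₂ : k) (((s8_WV hG.toIntW).toAffine.negY X₂ Y₂ : V) : k) := by
    rw [← s8_negY]
    exact (Affine.nonsingular_neg ..).2 h₂
  have hQ' : n • (Affine.Point.some _ _ h3 : W.toAffine.Point) = 0 := by
    have e : (Affine.Point.some _ _ h3 : W.toAffine.Point) = -Affine.Point.some _ _ h₂ := by
      rw [Affine.Point.neg_some]
      exact s8_some_congr rfl (s8_negY hG.toIntW X₂ Y₂).symm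
    rw [e, smul_neg, hQ, neg_zero]
  have hY' : r Y₁ = r ((s8_WV hG.toIntW).toAffine.negY X₂ Y₂) := by
    rw [hY]
    exact Affine.map_negY (W' := (s8_WV hG.toIntW).toAffine) r X₂ Y₂
  obtain ⟨e1, e2⟩ := s8_inj r hr hG n hn X₁ Y₁ X₂ _ h₁ h3 hP hQ' hX hY'
  rw [s8_negY hG.toIntW]
  exact ⟨congrArg _ e1, congrArg _ e2⟩

variable [DecidableEq κ]

include hr in
/-- The slope is compatible with the reduction. -/
theorem s8_slope (hG : H35P.GoodW W V) (n : ℕ) (hn : V.valuation (n : k) = 1) (X₁ Y₁ X₂ Y₂ : V)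
    (h₁ : W.toAffine.Nonsingular (X₁ : k) (Y₁ : k)) (h₂ : W.toAffine.Nonsingular (X₂ : k) (Y₂ : k))
    (hP : n • (Affine.Point.some _ _ h₁ : W.toAffine.Point) = 0)
    (hQ : n • (Affine.Point.some _ _ h₂ : W.toAffine.Point) = 0)
    (hc : ¬((X₁ : k) = X₂ ∧ (Y₁ : k) = W.toAffine.negY (X₂ : k) (Y₂ : k))) :
    ∃ l : V, W.toAffine.slope (X₁ : k) X₂ Y₁ Y₂ = l ∧
      ((s8_WV hG.toIntW).map r).toAffine.slope (r X₁) (r X₂) (r Y₁) (r Y₂) = r l := by
  have hl := H35P.slope_int hG h₁ h₂ n hn hP hQ hc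
  rw [V.valuation_le_one_iff] at hl
  refine ⟨⟨_, hl⟩, rfl, ?_⟩
  have hc' : ¬(r X₁ = r X₂ ∧ r Y₁ = ((s8_WV hG.toIntW).map r).toAffine.negY (r X₂) (r Y₂)) :=
    fun h => hc (s8_inj' r hr hG n hn X₁ Y₁ X₂ Y₂ h₁ h₂ hP hQ h.1 h.2)
  by_cases hx : r X₁ = r X₂
  · have hy := fun h => hc' ⟨hx, h⟩
    have hyy : r Y₁ = r Y₂ :=
      Affine.Y_eq_of_Y_ne (s8_ns r hr hG X₁ Y₁ h₁).1 (s8_ns r hr hG X₂ Y₂ h₂).1 hx hy
    obtain ⟨rfl, rfl⟩ := s8_inj r hr hG n hn X₁ Y₁ X₂ Y₂ h₁ h₂ hP hQ hx hyy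
    have hyk : (Y₁ : k) ≠ W.toAffine.negY (X₁ : k) (Y₁ : k) := fun h => hc ⟨rfl, h⟩
    rw [Affine.slope_of_Y_ne rfl hy, div_eq_iff (sub_ne_zero.2 hy)]
    have e1 : (⟨W.toAffine.slope (X₁ : k) X₁ Y₁ Y₁, hl⟩ : V) *
        (Y₁ - (s8_WV hG.toIntW).toAffine.negY X₁ Y₁) =
        3 * X₁ ^ 2 + 2 * (s8_WV hG.toIntW).a₂ * X₁ + (s8_WV hG.toIntW).a₄ -
          (s8_WV hG.toIntW).a₁ * Y₁ := by
      apply Subtype.ext
      have e2 := s8_negY hG.toIntW X₁ Y₁
      show W.toAffine.slope (X₁ : k) X₁ Y₁ Y₁ * ((Y₁ : k) -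
        (((s8_WV hG.toIntW).toAffine.negY X₁ Y₁ : V) : k)) =
        3 * (X₁ : k) ^ 2 + 2 * W.a₂ * X₁ + W.a₄ - W.a₁ * Y₁
      rw [← e2, Affine.slope_of_Y_ne rfl hyk, div_mul_cancel₀ _ (sub_ne_zero.2 hyk)]
    have e3 := congrArg r e1
    rw [map_mul, map_sub, ← Affine.map_negY] at e3
    rw [e3, map_sub, map_add, map_add, map_mul, map_mul, map_mul, map_mul, map_pow, map_ofNat,
      map_ofNat]
    rfl
  · have hxk : (X₁ : k) ≠ X₂ := fun h => hx (congrArg r (Subtype.ext h))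
    rw [Affine.slope_of_X_ne hx, div_eq_iff (sub_ne_zero.2 hx)]
    have e1 : (⟨W.toAffine.slope (X₁ : k) X₂ Y₁ Y₂, hl⟩ : V) * (X₁ - X₂) = Y₁ - Y₂ := by
      apply Subtype.ext
      show W.toAffine.slope (X₁ : k) X₂ Y₁ Y₂ * ((X₁ : k) - X₂) = (Y₁ : k) - Y₂
      rw [Affine.slope_of_X_ne hxk, div_mul_cancel₀ _ (sub_ne_zero.2 hxk)]
    have e3 := congrArg r e1
    rw [map_mul, map_sub, map_sub] at e3
    exact e3.symm

/-- Additivity. -/
theorem s8_add (hG : H35P.GoodW W V) (n : ℕ) (hn : V.valuation (n : k) = 1) (P Q : W.toAffine.Point)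
    (hP : n • P = 0) (hQ : n • Q = 0) :
    s8_f r hr hG (P + Q) = s8_f r hr hG P + s8_f r hr hG Q := by
  rcases P with _ | ⟨x₁, y₁, h₁⟩
  · show s8_f r hr hG (0 + Q) = 0 + s8_f r hr hG Q
    rw [zero_add, zero_add]
  rcases Q with _ | ⟨x₂, y₂, h₂⟩
  · show s8_f r hr hG (_ + 0) = s8_f r hr hG _ + 0
    rw [add_zero, add_zero]
  obtain ⟨hx1, hy1⟩ := H35P.SL_mem hG h₁ n hn hP
  obtain ⟨hx2, hy2⟩ := H35P.SL_mem hG h₂ n hn hQ
  lift x₁ to V using hx1
  lift y₁ to V using hy1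
  lift x₂ to V using hx2
  lift y₂ to V using hy2
  rw [s8_f_some, s8_f_some]
  by_cases hc : (x₁ : k) = x₂ ∧ (y₁ : k) = W.toAffine.negY (x₂ : k) (y₂ : k)
  · rw [Affine.Point.add_of_Y_eq hc.1 hc.2, s8_f_zero, Affine.Point.add_of_Y_eq]
    · exact congrArg r (Subtype.ext hc.1)
    · have e := hc.2
      rw [s8_negY hG.toIntW] at e
      rw [Subtype.ext e]
      exact (Affine.map_negY (W' := (s8_WV hG.toIntW).toAffine) r x₂ y₂).symm
  · have hc' : ¬(r x₁ = r x₂ ∧ r y₁ = ((s8_WV hG.toIntW).map r).toAffine.negY (r x₂) (r y₂)) :=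
      fun h => hc (s8_inj' r hr hG n hn x₁ y₁ x₂ y₂ h₁ h₂ hP hQ h.1 h.2)
    obtain ⟨l, hl, hl'⟩ := s8_slope r hr hG n hn x₁ y₁ x₂ y₂ h₁ h₂ hP hQ hc
    rw [Affine.Point.add_some hc, Affine.Point.add_some hc']
    have hns : W.toAffine.Nonsingular (((s8_WV hG.toIntW).toAffine.addX x₁ x₂ l : V) : k)
        (((s8_WV hG.toIntW).toAffine.addY x₁ x₂ y₁ l : V) : k) := by
      rw [← s8_addX, ← s8_addY, ← hl]
      exact Affine.nonsingular_add h₁ h₂ hc
    have e : (Affine.Point.some _ _ (Affine.nonsingular_add h₁ h₂ hc) : W.toAffine.Point) =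
        Affine.Point.some _ _ hns := by
      refine s8_some_congr ?_ ?_
      · rw [hl, s8_addX hG.toIntW]
      · rw [hl, s8_addY hG.toIntW]
    rw [e, s8_f_some]
    refine s8_some_congr ?_ ?_
    · rw [hl']
      exact (Affine.map_addX (W' := (s8_WV hG.toIntW).toAffine) r x₁ x₂ l).symm
    · rw [hl']
      exact (Affine.map_addY (W' := (s8_WV hG.toIntW).toAffine) r x₁ y₁ x₂ l).symm

end S8

theorem exists_red {k : Type} [Field k] [DecidableEq k] {W : WeierstrassCurve k} {V : ValuationSubring k}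
    (hG : H35P.GoodW W V) {κ : Type} [Field κ] [DecidableEq κ] (r : V →+* κ)
    (hr : ∀ x : V, r x = 0 ↔ V.valuation (x : k) < 1) (W' : WeierstrassCurve κ)
    (h1 : r ⟨W.a₁, hG.a1⟩ = W'.a₁) (h2 : r ⟨W.a₂, hG.a2⟩ = W'.a₂) (h3 : r ⟨W.a₃, hG.a3⟩ = W'.a₃)
    (h4 : r ⟨W.a₄, hG.a4⟩ = W'.a₄) (h6 : r ⟨W.a₆, hG.a6⟩ = W'.a₆) (n : ℕ)
    (hn : V.valuation (n : k) = 1) :
    ∃ f : (nsmulAddMonoidHom n : W.toAffine.Point →+ W.toAffine.Point).ker →+ W'.toAffine.Point,
      (∀ T, f T = 0 → T = 0) ∧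
      ∀ (x y : k) (h : W.toAffine.Nonsingular x y)
        (hT : (Affine.Point.some x y h : W.toAffine.Point) ∈
          (nsmulAddMonoidHom n : W.toAffine.Point →+ W.toAffine.Point).ker) (hx : x ∈ V) (hy : y ∈ V),
        ∃ h' : W'.toAffine.Nonsingular (r ⟨x, hx⟩) (r ⟨y, hy⟩),
          f ⟨Affine.Point.some x y h, hT⟩ = Affine.Point.some _ _ h' := by
  have hW' : W' = (s8_WV hG.toIntW).map r :=
    WeierstrassCurve.ext h1.symm h2.symm h3.symm h4.symm h6.symm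
  subst hW'
  refine ⟨{ toFun := fun T => s8_f r hr hG T.1
            map_zero' := rfl
            map_add' := fun P Q => s8_add r hr hG n hn P.1 Q.1 P.2 Q.2 }, ?_, ?_⟩
  · rintro ⟨T, hT⟩ h0
    apply Subtype.ext
    rcases T with _ | ⟨x, y, h⟩
    · rfl
    · exfalso
      obtain ⟨hx, hy⟩ := H35P.SL_mem hG h n hn hT
      have h5 : s8_f r hr hG (.some x y h) = 0 := h0
      have h7 : s8_f r hr hG (.some x y h) = .some (r ⟨x, hx⟩) (r ⟨y, hy⟩)
          (s8_ns r hr hG ⟨x, hx⟩ ⟨y, hy⟩ h) := s8_f_some r hr hG ⟨x, hx⟩ ⟨y, hy⟩ h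
      rw [h7] at h5
      exact Affine.Point.some_ne_zero _ h5
  · intro x y h hT hx hy
    exact ⟨s8_ns r hr hG ⟨x, hx⟩ ⟨y, hy⟩ h, s8_f_some r hr hG ⟨x, hx⟩ ⟨y, hy⟩ h⟩

end H55P
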