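import Mathlib
import Pool.Agent.Lib.H55P.S8
import Pool.Agent.Lib.H55P.S9

open NumberField IsDedekindDomain WeierstrassCurve

namespace H55P

variable {F : Type} [Field F] [NumberField F] {Ω : Type} [Field Ω] [DecidableEq Ω] [Algebra F Ω]
  [IsAlgClosed Ω] [Algebra.IsAlgebraic F Ω] [CharZero Ω]

/-! Chunk PS10 (M). Good reduction and no point of order p on the reduced curve: no p-torsion point fixed by the decomposition group.
good_below: the coefficients of W₀ are algebraic integers, so in V; Δ: Below. val_below: V.valuation (n) <= 1 for natural numbers and the case < 1 means n in v. 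
fix_local: suppose T <> 0; T = (x, y) with x, y in V (torsion_int). x and y are fixed by the s in Dec V fixing M (ac W s T = T), so there are a, b in 𝓞 M congruent to x, y (res_descent). κ = the residue field of V, r the residue map (or any), ι : 𝓞 M / v → κ the induced injective homomorphism,
W' = (W₀⁄(𝓞 M ⧸ v)) mapped by ι. exists_red gives f with f T = (r x, r y) = (ι a, ι b) <> 0, p f T = 0. (a, b) is a point T' of the curve over the field 𝓞 M / v (injectivity of ι: Affine.map_equation, map_nonsingular), f T = the image of T' under the injective homomorphism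
Affine.Point.map (or the ring homomorphism version), so p T' = 0, T' <> 0: an element of order p in the finite group of points (finite field, v <> 0), so p divides its order (addOrderOf_dvd_natCard). -/

omit [DecidableEq Ω] [NumberField F] [IsAlgClosed Ω] [Algebra.IsAlgebraic F Ω] [CharZero Ω] in
theorem S10_mem (M : IntermediateField F Ω) (V : ValuationSubring Ω) (z : 𝓞 M) :
    ((z : M) : Ω) ∈ V := by
  rw [← V.valuation_le_one_iff]
  exact H16C.FR_le_one V (H16C.FR_isIntegral M z)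

omit [DecidableEq Ω] [NumberField F] [IsAlgClosed Ω] [Algebra.IsAlgebraic F Ω] [CharZero Ω] in
theorem S10_coe (M : IntermediateField F Ω) (z : 𝓞 F) :
    algebraMap F Ω (algebraMap (𝓞 F) F z) = ((algebraMap (𝓞 F) (𝓞 M) z : M) : Ω) := rfl

omit [DecidableEq Ω] [NumberField F] [IsAlgClosed Ω] [Algebra.IsAlgebraic F Ω] [CharZero Ω] in
theorem S10_val (M : IntermediateField F Ω) (V : ValuationSubring Ω) (v : HeightOneSpectrum (𝓞 M))
    (hv : Below V M v.asIdeal) (z : 𝓞 M) (hz : z ∉ v.asIdeal) : V.valuation ((z : M) : Ω) = 1 := by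
  refine le_antisymm ((V.valuation_le_one_iff _).2 (S10_mem M V z)) ?_
  rw [← not_lt]
  exact fun h => hz ((hv z).2 h)

theorem good_below (W₀ : WeierstrassCurve (𝓞 F)) (M : IntermediateField F Ω) (V : ValuationSubring Ω)
    (v : HeightOneSpectrum (𝓞 M)) (hv : Below V M v.asIdeal)
    (hΔ : algebraMap (𝓞 F) (𝓞 M) W₀.Δ ∉ v.asIdeal) : H35P.GoodW ((W₀⁄F)⁄Ω) V where
  a1 := S10_mem M V (algebraMap (𝓞 F) (𝓞 M) W₀.a₁)
  a2 := S10_mem M V (algebraMap (𝓞 F) (𝓞 M) W₀.a₂)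
  a3 := S10_mem M V (algebraMap (𝓞 F) (𝓞 M) W₀.a₃)
  a4 := S10_mem M V (algebraMap (𝓞 F) (𝓞 M) W₀.a₄)
  a6 := S10_mem M V (algebraMap (𝓞 F) (𝓞 M) W₀.a₆)
  disc := by
    have h1 : ((W₀⁄F)⁄Ω).Δ = ((algebraMap (𝓞 F) (𝓞 M) W₀.Δ : M) : Ω) := by
      exact (WeierstrassCurve.map_Δ (W₀⁄F) (algebraMap F Ω)).trans
        ((congrArg (algebraMap F Ω) (WeierstrassCurve.map_Δ W₀ (algebraMap (𝓞 F) F))).trans
          (S10_coe M W₀.Δ))
    rw [h1]
    exact S10_val M V v hv _ hΔ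

theorem val_below (M : IntermediateField F Ω) (V : ValuationSubring Ω) (v : HeightOneSpectrum (𝓞 M))
    (hv : Below V M v.asIdeal) (n : ℕ) (hn : (n : 𝓞 M) ∉ v.asIdeal) : V.valuation (n : Ω) = 1 := by
  have h := S10_val M V v hv _ hn
  have e1 : ((((n : ℕ) : 𝓞 M) : M) : Ω) = (n : Ω) := by simp
  rwa [e1] at h

theorem fix_local (W₀ : WeierstrassCurve (𝓞 F)) (p : ℕ) (hp : p.Prime) (M : IntermediateField F Ω)
    [FiniteDimensional F M] (V : ValuationSubring Ω) (v : HeightOneSpectrum (𝓞 M))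
    (hv : Below V M v.asIdeal) (hΔ : algebraMap (𝓞 F) (𝓞 M) W₀.Δ ∉ v.asIdeal)
    (hpv : (p : 𝓞 M) ∉ v.asIdeal) (hc : ¬ p ∣ Nat.card (W₀⁄(𝓞 M ⧸ v.asIdeal)).toAffine.Point)
    (T : Pt (W₀⁄F) Ω) (hT : p • T = 0)
    (hf : ∀ s ∈ M.fixingSubgroup, Dec V s → ac (W₀⁄F) s T = T) : T = 0 := by
  classical
  by_contra hT0
  have hG := good_below W₀ M V v hv hΔ
  have hpV := val_below M V v hv p hpv
  have hnf : NumberField M := H16C.FR_numberField M
  have hmax : v.asIdeal.IsMaximal := v.isMaximal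
  let _ : Field (𝓞 M ⧸ v.asIdeal) := Ideal.Quotient.field v.asIdeal
  obtain ⟨r, hr⟩ : ∃ r : V →+* IsLocalRing.ResidueField V, r = IsLocalRing.residue V := ⟨_, rfl⟩
  have hr0 : ∀ x : V, r x = 0 ↔ V.valuation (x : Ω) < 1 := by
    intro x
    rw [hr, IsLocalRing.residue_eq_zero_iff]
    exact V.valuation_lt_one_iff x
  obtain ⟨φ, hφ⟩ : ∃ φ : 𝓞 M →+* V, ∀ z, ((φ z : V) : Ω) = ((z : M) : Ω) :=
    ⟨((algebraMap M Ω).comp (algebraMap (𝓞 M) M)).codRestrict V.toSubring (S10_mem M V),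
      fun z => rfl⟩
  have hker : ∀ z ∈ v.asIdeal, (r.comp φ) z = 0 := by
    intro z hz
    rw [RingHom.comp_apply, hr0, hφ]
    exact (hv z).1 hz
  obtain ⟨ι, hι⟩ : ∃ ι : (𝓞 M ⧸ v.asIdeal) →+* IsLocalRing.ResidueField V,
      ∀ z, ι (Ideal.Quotient.mk v.asIdeal z) = r (φ z) :=
    ⟨Ideal.Quotient.lift v.asIdeal (r.comp φ) hker, fun z => Ideal.Quotient.lift_mk _ _ _⟩
  let algκ : Algebra (𝓞 F) (IsLocalRing.ResidueField V) :=
    (ι.comp (algebraMap (𝓞 F) (𝓞 M ⧸ v.asIdeal))).toAlgebra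
  let ιA : (𝓞 M ⧸ v.asIdeal) →ₐ[𝓞 F] IsLocalRing.ResidueField V :=
    { ι with commutes' := fun z => rfl }
  have hcoef : ∀ (z : 𝓞 F) (h : algebraMap F Ω (algebraMap (𝓞 F) F z) ∈ V),
      r ⟨algebraMap F Ω (algebraMap (𝓞 F) F z), h⟩ =
        algebraMap (𝓞 F) (IsLocalRing.ResidueField V) z := by
    intro z h
    have e1 : algebraMap (𝓞 F) (IsLocalRing.ResidueField V) z =
        ι (Ideal.Quotient.mk v.asIdeal (algebraMap (𝓞 F) (𝓞 M) z)) := rfl
    rw [e1, hι]
    congr 1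
    apply Subtype.ext
    rw [hφ]
    rfl
  obtain ⟨f, hf0, hfs⟩ := exists_red hG r hr0 (W₀⁄(IsLocalRing.ResidueField V))
    (hcoef W₀.a₁ _) (hcoef W₀.a₂ _) (hcoef W₀.a₃ _) (hcoef W₀.a₄ _) (hcoef W₀.a₆ _) p hpV
  rcases T with _ | ⟨x, y, h⟩
  · exact hT0 rfl
  obtain ⟨hx, hy⟩ := H35P.SL_mem hG h p hpV hT
  have hfix : ∀ s ∈ M.fixingSubgroup, Dec V s → s x = x ∧ s y = y := by
    intro s hs hd
    have h1 := hf s hs hd
    have h2 : ac (W₀⁄F) s (Affine.Point.some x y h) = Affine.Point.some (s x) (s y)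
        ((Affine.baseChange_nonsingular (W := (W₀⁄F).toAffine) (f := s.toAlgHom)
          s.toAlgHom.injective ..).2 h) := rfl
    rw [h2] at h1
    simp only [Affine.Point.some.injEq] at h1
    exact h1
  obtain ⟨a, ha⟩ := res_descent M V v hv x hx fun s hs hd => (hfix s hs hd).1
  obtain ⟨b, hb⟩ := res_descent M V v hv y hy fun s hs hd => (hfix s hs hd).2
  have hra : r ⟨x, hx⟩ = ι (Ideal.Quotient.mk v.asIdeal a) := by
    rw [hι, ← sub_eq_zero, ← map_sub, hr0]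
    have e1 : ((⟨x, hx⟩ - φ a : V) : Ω) = x - ((a : M) : Ω) := by
      rw [← hφ]
      rfl
    rw [e1]
    exact ha
  have hrb : r ⟨y, hy⟩ = ι (Ideal.Quotient.mk v.asIdeal b) := by
    rw [hι, ← sub_eq_zero, ← map_sub, hr0]
    have e1 : ((⟨y, hy⟩ - φ b : V) : Ω) = y - ((b : M) : Ω) := by
      rw [← hφ]
      rfl
    rw [e1]
    exact hb
  obtain ⟨h', hfT⟩ := hfs x y h hT hx hy
  have hns : (W₀⁄(𝓞 M ⧸ v.asIdeal)).toAffine.Nonsingular (Ideal.Quotient.mk v.asIdeal a)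
      (Ideal.Quotient.mk v.asIdeal b) := by
    have h3 := h'
    rw [hra, hrb] at h3
    exact (Affine.baseChange_nonsingular (W := W₀.toAffine) (f := ιA) ι.injective _ _).1 h3
  have hmap : Affine.Point.map (W' := W₀.toAffine) ιA (Affine.Point.some _ _ hns) =
      f ⟨Affine.Point.some x y h, hT⟩ := by
    rw [hfT]
    exact s8_some_congr hra.symm hrb.symm
  have hp0 : p • (Affine.Point.some _ _ hns : (W₀⁄(𝓞 M ⧸ v.asIdeal)).toAffine.Point) = 0 := by
    apply Affine.Point.map_injective (W' := W₀.toAffine) (f := ιA)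
    rw [map_nsmul, hmap, ← map_nsmul, map_zero]
    have e2 : (p • (⟨Affine.Point.some x y h, hT⟩ :
        (nsmulAddMonoidHom p : Pt (W₀⁄F) Ω →+ Pt (W₀⁄F) Ω).ker)) = 0 := Subtype.ext hT
    rw [e2, map_zero]
  have hord : addOrderOf (Affine.Point.some _ _ hns : (W₀⁄(𝓞 M ⧸ v.asIdeal)).toAffine.Point) = p :=
    addOrderOf_eq_prime hp0 (Affine.Point.some_ne_zero _) (hp := ⟨hp⟩)
  apply hc
  rw [← hord]
  exact addOrderOf_dvd_natCard _

end H55P
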