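import Mathlib
import Pool.Agent.Lib.H55P.S1
import Pool.Agent.Lib.H55P.S5

open NumberField IsDedekindDomain WeierstrassCurve

namespace H55P

variable {F : Type} [Field F] [NumberField F] {Ω : Type} [Field Ω] [DecidableEq Ω] [Algebra F Ω]
  [IsAlgClosed Ω] [Algebra.IsAlgebraic F Ω] [CharZero Ω]

/-! Chunk PS6 (S/M). Consequences of SelZero.
pts_div: Q with p Q = P (div_pt), c s = ac W s Q - Q, a cocycle, killed by p, continuous (pt_open), locally trivial with the point Q. So c s = ac W s T - T with p T = 0: Q - T. sha_zero: Q = p R, c' s = c s - (ac W s R - R): killed by p,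
continuous, trivial on inertia (inert_dec, point P - R); c' s = ac W s T - T; the point T + R. pts_fin: M = Pt W K is a finitely generated ℤ-module (mw) with p M = M (fix_iff, pts_div, injectivity of the map): by Nakayama (Submodule.exists_sub_one_mem_and_smul_eq_zero_of_fg_of_le_smul with
the ideal (p)) there is r = 1 mod p with r M = 0, so M is finite (finitely generated torsion: Module.finite_of_fg_torsion or AddCommGroup.finite_of_fg_torsion) and has no element of order p (Cauchy: exists_prime_addOrderOf_dvd_card). -/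

omit [NumberField F] [DecidableEq Ω] [IsAlgClosed Ω] [Algebra.IsAlgebraic F Ω] [CharZero Ω] in
theorem ps6_fix {K : IntermediateField F Ω} {s : Ω ≃ₐ[F] Ω} {L : IntermediateField F Ω}
    (h : s ∈ (K ⊔ L).fixingSubgroup) : s ∈ K.fixingSubgroup ∧ s ∈ L.fixingSubgroup :=
  ⟨IntermediateField.fixingSubgroup_antitone le_sup_left h,
    IntermediateField.fixingSubgroup_antitone le_sup_right h⟩

omit [NumberField F] [IsAlgClosed Ω] [CharZero Ω] in
theorem ps6_cob (W : WeierstrassCurve F) (K : IntermediateField F Ω) (Q : Pt W Ω) :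
    Coc W K fun s => ac W s Q - Q := by
  constructor
  · intro s _ t _
    have h1 : ac W (s * t) Q = ac W s (ac W t Q) := by
      rw [← acR_apply, ← acR_apply, ← acR_apply, map_mul]
      rfl
    rw [h1, map_sub]
    abel
  · obtain ⟨L, hL, h⟩ := pt_open W Q
    exact ⟨L, hL, fun s _ hs => by rw [h s hs, sub_self]⟩

omit [NumberField F] [IsAlgClosed Ω] [CharZero Ω] [Algebra.IsAlgebraic F Ω] in
theorem ps6_sub (W : WeierstrassCurve F) (K : IntermediateField F Ω) {c d : (Ω ≃ₐ[F] Ω) → Pt W Ω}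
    (hc : Coc W K c) (hd : Coc W K d) : Coc W K fun s => c s - d s := by
  constructor
  · intro s hs t ht
    rw [hc.mul s hs t ht, hd.mul s hs t ht, map_sub]
    abel
  · obtain ⟨L, hL, h⟩ := hc.cont
    obtain ⟨L', hL', h'⟩ := hd.cont
    refine ⟨L ⊔ L', inferInstance, fun s hs hs' => ?_⟩
    obtain ⟨h1, h2⟩ := ps6_fix hs'
    rw [h s hs h1, h' s hs h2, sub_self]

theorem pts_div (W : WeierstrassCurve F) [W.IsElliptic] (p : ℕ) (hp : p.Prime) (K : IntermediateField F Ω)
    (hS : SelZero W p K) (P : Pt W Ω) (hP : ∀ s ∈ K.fixingSubgroup, ac W s P = P) :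
    ∃ Q : Pt W Ω, p • Q = P ∧ ∀ s ∈ K.fixingSubgroup, ac W s Q = Q := by
  obtain ⟨Q, hQ⟩ := div_pt W p hp.pos P
  obtain ⟨T, hT, hT'⟩ := hS (fun s => ac W s Q - Q) (ps6_cob W K Q) (fun s hs => by
    rw [smul_sub, ← map_nsmul, hQ, hP s hs, sub_self]) fun V => ⟨Q, fun s _ _ => rfl⟩
  refine ⟨Q - T, ?_, fun s hs => ?_⟩
  · rw [smul_sub, hQ, hT, sub_zero]
  · rw [map_sub]
    have h1 : ac W s Q - Q = ac W s T - T := hT' s hs
    rw [sub_eq_sub_iff_sub_eq_sub] at h1
    exact h1

theorem sha_zero (W : WeierstrassCurve F) [W.IsElliptic] (p : ℕ) (hp : p.Prime) (K : IntermediateField F Ω)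
    (hS : SelZero W p K) : ShaZero W p K := by
  rintro c hc ⟨Q, hQ⟩ hloc
  obtain ⟨R, hR⟩ := div_pt W p hp.pos Q
  obtain ⟨T, hT, hT'⟩ := hS (fun s => c s - (ac W s R - R)) (ps6_sub W K hc (ps6_cob W K R))
    (fun s hs => by
      rw [smul_sub, hQ s hs, smul_sub, ← map_nsmul, hR, sub_self]) fun V => by
    by_cases hV : V = ⊤
    · refine ⟨0, fun s hs hi => ?_⟩
      have h1 : s = 1 := by
        refine AlgEquiv.ext fun x => ?_
        have h2 := hi x (hV ▸ ValuationSubring.mem_top x)
        rw [hV] at h2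
        have h3 : s x - x = 0 := by
          by_contra h3
          have h4 : (⊤ : ValuationSubring Ω).valuation (s x - x)⁻¹ ≤ 1 :=
            ((⊤ : ValuationSubring Ω).valuation_le_one_iff _).2 (ValuationSubring.mem_top _)
          rw [map_inv₀] at h4
          have h5 : 1 < ((⊤ : ValuationSubring Ω).valuation (s x - x))⁻¹ :=
            (one_lt_inv₀ (by
              rw [Valuation.pos_iff]
              exact h3)).2 h2
          exact absurd h4 (not_le.2 h5)
        exact sub_eq_zero.1 h3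
      have h2 : c 1 = 0 := by
        have h3 := hc.mul 1 (one_mem _) 1 (one_mem _)
        rw [one_mul] at h3
        have h4 : ac W (1 : Ω ≃ₐ[F] Ω) (c 1) = c 1 := by
          cases c 1 <;> rfl
        rw [h4] at h3
        exact left_eq_add.1 h3
      have h5 : ∀ P : Pt W Ω, ac W (1 : Ω ≃ₐ[F] Ω) P = P := fun P => by cases P <;> rfl
      subst h1
      show c 1 - (ac W 1 R - R) = _
      rw [h2, h5, h5, sub_self, sub_self]
    obtain ⟨P, hP⟩ := hloc V hV
    refine ⟨P - R, fun s hs hi => ?_⟩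
    show c s - (ac W s R - R) = _
    rw [hP s hs (inert_dec V s hi), map_sub]
    abel
  refine ⟨T + R, fun s hs => ?_⟩
  have h1 : c s - (ac W s R - R) = ac W s T - T := hT' s hs
  rw [map_add, sub_eq_iff_eq_add.1 h1]
  abel

theorem pts_fin (W : WeierstrassCurve F) [W.IsElliptic] (p : ℕ) (hp : p.Prime) (K : IntermediateField F Ω)
    [FiniteDimensional F K] [DecidableEq K] (hS : SelZero W p K) :
    Finite (Pt W K) ∧ ¬ p ∣ Nat.card (Pt W K) := by
  have hN : NumberField K := NumberField.of_module_finite F K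
  have hfg : Module.Finite ℤ (Pt W K) := mw W K
  have hinj : Function.Injective (Affine.Point.map (W' := W.toAffine) K.val) :=
    Affine.Point.map_injective _
  have hdiv : ∀ P : Pt W K, ∃ Q : Pt W K, p • Q = P := by
    intro P
    obtain ⟨Q', hQ', hQ2⟩ := pts_div W p hp K hS (Affine.Point.map (W' := W.toAffine) K.val P)
      ((fix_iff W K _).2 ⟨P, rfl⟩)
    obtain ⟨Q, hQ⟩ := (fix_iff W K Q').1 hQ2
    refine ⟨Q, hinj ?_⟩
    rw [map_nsmul, hQ, hQ']
  obtain ⟨r, hr, hr'⟩ := Submodule.exists_sub_one_mem_and_smul_eq_zero_of_fg_of_le_smul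
    (Ideal.span {(p : ℤ)}) (⊤ : Submodule ℤ (Pt W K)) hfg.fg_top (by
      intro P _
      obtain ⟨Q, hQ⟩ := hdiv P
      rw [← hQ, ← natCast_zsmul]
      exact Submodule.smul_mem_smul (Ideal.mem_span_singleton_self _) Submodule.mem_top)
  have hr0 : r ≠ 0 := by
    rintro rfl
    rw [Ideal.mem_span_singleton, zero_sub, dvd_neg] at hr
    exact hp.one_lt.ne' (by exact_mod_cast Int.natAbs_dvd_natAbs.2 hr |> Nat.dvd_one.1)
  have hfin : Finite (Pt W K) := by
    have h1 : AddGroup.FG (Pt W K) := Module.Finite.iff_addGroup_fg.1 inferInstance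
    refine AddCommGroup.finite_of_fg_isAddTorsion _ fun P => ?_
    rw [isOfFinAddOrder_iff_zsmul_eq_zero]
    exact ⟨r, hr0, hr' P Submodule.mem_top⟩
  refine ⟨hfin, fun hd => ?_⟩
  haveI := Fact.mk hp
  obtain ⟨P, hP⟩ := exists_prime_addOrderOf_dvd_card' (G := Pt W K) p hd
  have hsurj : Function.Surjective fun Q : Pt W K => p • Q := hdiv
  have hinj' := Finite.injective_iff_surjective.2 hsurj
  have h1 : p • P = 0 := by
    rw [← hP]
    exact addOrderOf_nsmul_eq_zero P
  have h2 : P = 0 := hinj' (by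
    show p • P = p • 0
    rw [h1, smul_zero])
  rw [h2, addOrderOf_zero] at hP
  exact hp.one_lt.ne hP

end H55P
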