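import Mathlib
import Pool.Agent.Lib.H55N.T2
import Pool.Agent.Lib.H55P.EDef
import Pool.Agent.Lib.H55P.L1
import Pool.Agent.Lib.H55P.ZD

open NumberField IsDedekindDomain

namespace H55P

open H55N
open H55B (F O om e emb Prim R)

/-! Chunk PZ3 (M). The base of the induction, K = F (finrank 1).
baseE: PORT of LV_base in Lib/H55N/T2.lean: Λ s = -(1/3) G (e om - 1) s, Λ 1 = -R0/3, Λ 1 / OmE = -1/(3 e(2 om + 1)), a unit since V(3) = 1 (e(2 om + 1)^2 = -3). R0 is not 0: E5_R0.
ntpE: the ideal a = (4) of 𝓞 K: PsiP K psiE a = Psi K a = conj(e(pg((4)))) = 4 (relNorm of (4) is (4)^1: Ideal.relNorm_algebraMap; 4 = 1 + 3 is primary, pg_span), 1 - 4 = -3, V(3) = 1 since p >= 5 and V(p) < 1. (4) is coprime to p and to mK K m3 = (3). -/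

theorem PZ3_sq3 (V : ValuationSubring ℂ) (h3 : V.valuation 3 = 1) : V.valuation (e (2 * om + 1)) = 1 := by
  have h1 : e (2 * om + 1) ^ 2 = -3 := by
    have h2 : (2 * om + 1 : O) ^ 2 = -3 := by linear_combination 4 * H55B.om_rel
    rw [← map_pow, h2, map_neg, map_ofNat]
  have h2 : V.valuation (e (2 * om + 1)) ^ 2 = 1 := by
    rw [← map_pow, h1, Valuation.map_neg, h3]
  exact (pow_eq_one_iff_of_nonneg zero_le two_ne_zero).1 h2

theorem PZ3_cop {R : Type} [CommRing R] (a b : ℕ) (h : Nat.Coprime a b) :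
    IsCoprime (Ideal.span {(a : R)}) (Ideal.span {(b : R)}) := by
  rw [Ideal.isCoprime_span_singleton_iff]
  have h1 : IsCoprime (a : ℤ) (b : ℤ) := Nat.isCoprime_iff_coprime.2 h
  have h2 := h1.map (Int.castRingHom R)
  simpa using h2

theorem baseE (K : Type) [Field K] [NumberField K] [Algebra F K] (h1 : Module.finrank F K = 1)
    (V : ValuationSubring ℂ) (h3 : V.valuation 3 = 1) : LVP F V OmE (PsiP K psiE) := by
  obtain ⟨ε, hε⟩ := T2_equiv K h1
  refine ⟨fun s => -(1 / 3) * H55B.G (e om - 1) s, ?_, ?_, ?_⟩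
  · exact analyticOnNhd_const.mul (H55B.G_analytic (e om - 1))
  · intro s hs
    have h2 := T2_hasSum s hs
    rw [H55B.Kf_one s hs] at h2
    rw [← ε.hasSum_iff]
    refine h2.congr_fun fun J => ?_
    show psiF (Ideal.relNorm O (ε J)) * (Ideal.absNorm (ε J) : ℂ) ^ (-s) = _
    rw [(hε J).1, (hε J).2]
  · have h3' := E5_R0.2
    have h4 : (fun s => -(1 / 3) * H55B.G (e om - 1) s) 1 / OmE ^ Module.finrank F K =
        -(1 / (3 * e (2 * om + 1))) := by
      rw [h1, pow_one]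
      show -(1 / 3) * H55B.G (e om - 1) 1 / OmE = _
      rw [H55B.G_one]
      have h5 : R (e om - 1) = R0 := rfl
      have h6 : e (2 * om + 1) ≠ 0 := by
        intro h0
        have := PZ3_sq3 V h3
        rw [h0, map_zero] at this
        exact zero_ne_one this
      unfold OmE
      rw [h5]
      field_simp
    rw [h4, Valuation.map_neg, one_div, map_inv₀, map_mul, h3, PZ3_sq3 V h3, one_mul, inv_one]

theorem val3 (p : ℕ) (hp : p.Prime) (h5 : 5 ≤ p) (V : ValuationSubring ℂ)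
    (hV : V.valuation (p : ℂ) < 1) : V.valuation (3 : ℂ) = 1 ∧ V.valuation (2 : ℂ) = 1 := by
  have h1 := val_nat p hp V hV 3 (fun h => by
    have := Nat.le_of_dvd (by norm_num) h
    omega)
  have h2 := val_nat p hp V hV 2 (fun h => by
    have := Nat.le_of_dvd (by norm_num) h
    omega)
  exact ⟨by exact_mod_cast h1, by exact_mod_cast h2⟩

theorem ntpE (K : Type) [Field K] [NumberField K] [Algebra F K] (h1 : Module.finrank F K = 1) (p : ℕ)
    (hp : p.Prime) (h5 : 5 ≤ p) (V : ValuationSubring ℂ) (hV : V.valuation (p : ℂ) < 1) :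
    NTP K p m3 psiE V := by
  have hp5 := h5
  have hr : Module.finrank O (𝓞 K) = 1 := by
    rw [← h1]
    exact (IsFractionRing.finrank_eq O F (𝓞 K) K).symm
  have e4 : Ideal.span {(4 : 𝓞 K)} = (Ideal.span {(4 : O)}).map (algebraMap O (𝓞 K)) := by
    rw [Ideal.map_span, Set.image_singleton, map_ofNat]
  have e3 : mK K m3 = Ideal.span {(3 : 𝓞 K)} := by
    unfold mK m3
    rw [Ideal.map_span, Set.image_singleton, map_ofNat]
  have hp4 : Nat.Coprime 4 p := by
    have h : Nat.Coprime 2 p := (Nat.coprime_primes Nat.prime_two hp).2 (by omega)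
    exact Nat.Coprime.pow_left 2 h
  refine ⟨Ideal.span {(4 : 𝓞 K)}, ?_, ?_, ?_⟩
  · have := PZ3_cop (R := 𝓞 K) 4 p hp4
    exact_mod_cast this
  · rw [e3]
    have := PZ3_cop (R := 𝓞 K) 4 3 (by norm_num)
    exact_mod_cast this
  · have h4 : PsiP K psiE (Ideal.span {(4 : 𝓞 K)}) = 4 := by
      have hprim : Prim (4 : O) := ⟨1, by norm_num⟩
      rw [PsiP_apply, e4, Ideal.relNorm_algebraMap, hr, pow_one, psiE_apply, pg_span hprim, map_ofNat,
        map_ofNat]
    rw [h4]
    have h5 : (1 : ℂ) - 4 = -3 := by norm_num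
    rw [h5, Valuation.map_neg]
    exact (val3 p hp hp5 V hV).1

theorem goodE (V : ValuationSubring ℂ) (h3 : V.valuation 3 = 1) (h2 : V.valuation 2 = 1) :
    GoodV (0 : ℂ) (1 / 4) V := by
  have h4 : V.valuation (4 : ℂ) = 1 := by
    have e : (4 : ℂ) = 2 * 2 := by norm_num
    rw [e, map_mul, h2, one_mul]
  refine ⟨zero_mem V, ?_, h2, ?_⟩
  · rw [← V.valuation_le_one_iff, one_div, map_inv₀, h4, inv_one]
  · have e : (4 : ℂ) * 0 ^ 3 + 27 * (1 / 4) ^ 2 = (3 * 3 * 3) / (4 * 4) := by norm_num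
    rw [e, map_div₀, map_mul, map_mul, map_mul, h3, h4, one_mul, one_mul, div_one]

theorem m3_cop (p : ℕ) (hp : p.Prime) (h5 : 5 ≤ p) : IsCoprime m3 (Ideal.span {(p : O)}) := by
  have h : Nat.Coprime 3 p := (Nat.coprime_primes Nat.prime_three hp).2 (by omega)
  have := PZ3_cop (R := O) 3 p h
  unfold m3
  exact_mod_cast this

end H55P
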