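import Mathlib
import Pool.Agent.Lib.H35N.U3
import Pool.Agent.Lib.H55N.H8
import Pool.Agent.Lib.H55N.TW1
import Pool.Agent.Lib.H55P.Stm
import Pool.Agent.Lib.H55P.ZD

open NumberField IsDedekindDomain WeierstrassCurve

namespace H55P

open H55N
open H55B (F O om e emb Prim R E27)

/-! Chunk PZ6 (M). The L-function of y^2 + y = x^3 over K containing F, unramified over F at the primes above 3 (H35N.Unr3).
val_threeU: PORT of val_three (Lib/H55C/B0.lean) with val_lam3 (Lib/H35N/U3.lean; lam = om - 1) in place of val_lam. LFunctionU: PORT of LFunction_Psi (Lib/H55N/H7.lean): hU is only used through val_three.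
L_valU: PORT of L_valN (Lib/H55N/H8.lean). LVP at V gives a function Λ_V; for a fixed V₀ above p (exists: hex) take Λ = Λ_(V₀); for the other V: Λ_V 1 = Λ 1 by the identity theorem on the connected half plane (see glue, ident in Lib/H55N/TW1.lean; AnalyticOnNhd.eqOn_of_preconnected_of_eventuallyEq). The valuation
of conj z at V is the valuation of z at the conjugate of V (V.comap (starRingEnd ℂ), also above p). exists_above_p: a valuation ring of ℂ above p: (H55B or H55C have a similar lemma; LocalSubring.exists_le_valuationSubring or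
exists_factor_valuationRing for the localisation of the algebraic integers / for ℤ_(p)). -/

theorem exists_above_p (p : ℕ) (hp : p.Prime) : ∃ V : ValuationSubring ℂ, V.valuation (p : ℂ) < 1 := by
  let A : Subring ℂ := (Int.castRingHom ℂ).range
  have h2A : (p : ℂ) ∈ A := ⟨p, by simp⟩
  let t : A := ⟨p, h2A⟩
  have hI : Ideal.span {t} ≠ ⊤ := by
    intro h
    have h1 : (1 : A) ∈ Ideal.span {t} := by rw [h]; trivial
    rw [Ideal.mem_span_singleton] at h1
    obtain ⟨⟨c, ⟨n, hn⟩⟩, hc⟩ := h1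
    have h3 : (1 : ℂ) = (p : ℂ) * c := congrArg Subtype.val hc
    rw [← hn] at h3
    simp only [eq_intCast] at h3
    have h4 : (1 : ℤ) = (p : ℤ) * n := by exact_mod_cast h3
    have h5 : (p : ℤ) ∣ 1 := ⟨n, h4⟩
    have h6 : (p : ℤ) ≤ 1 := Int.le_of_dvd one_pos h5
    have h7 := hp.two_le
    omega
  obtain ⟨B, -, hB⟩ := Ideal.image_subset_nonunits_valuationSubring (Ideal.span {t}) hI
  refine ⟨B, ?_⟩
  rw [← ValuationSubring.mem_nonunits_iff]
  exact hB ⟨t, Ideal.mem_span_singleton_self t, rfl⟩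

theorem val_threeU {K : Type} [Field K] [NumberField K] [Algebra F K] (hU : H35N.Unr3 K)
    (w : HeightOneSpectrum (𝓞 K)) (h3 : (3 : 𝓞 K) ∈ w.asIdeal) :
    w.valuation K (3 : K) = WithZero.exp (-2 : ℤ) := by
  have h1 : w.valuation K (algebraMap O K (om - 1)) = WithZero.exp (-1 : ℤ) :=
    H35N.val_lam3 hU w h3
  have h2 : (3 : K) = algebraMap O K 3 := (map_ofNat (algebraMap O K) 3).symm
  have hu : IsUnit (algebraMap O (𝓞 K) (om ^ 2)) := by
    have hom3 : (om : O) ^ 2 * om = 1 := by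
      have := H55B.om_rel
      linear_combination (om - 1) * this
    exact (IsUnit.of_mul_eq_one om hom3).map _
  have h4 : w.valuation K (algebraMap O K (om ^ 2)) = 1 := by
    have h5 : algebraMap O K (om ^ 2) = algebraMap (𝓞 K) K (algebraMap O (𝓞 K) (om ^ 2)) :=
      IsScalarTower.algebraMap_apply O (𝓞 K) K _
    rw [h5, HeightOneSpectrum.valuation_of_algebraMap, HeightOneSpectrum.intValuation_eq_one_iff]
    intro h6
    exact w.isPrime.ne_top (Ideal.eq_top_of_isUnit_mem _ h6 hu)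
  rw [h2, H55B.three_eq, neg_mul, map_neg, Valuation.map_neg, map_mul, map_mul, h4,
    map_pow _ (om - 1), map_pow, h1, one_mul]
  rfl

theorem pz6_LEF {K : Type} [Field K] [NumberField K] [Algebra F K] (hU : H35N.Unr3 K)
    (w : HeightOneSpectrum (𝓞 K)) :
    H55C.LEF K w = ArithmeticFunction.ofPowerSeries (Ideal.absNorm w.asIdeal)
        ((1 - PowerSeries.C (Psi K w.asIdeal) * PowerSeries.X)⁻¹ : PowerSeries ℂ) *
      ArithmeticFunction.ofPowerSeries (Ideal.absNorm w.asIdeal)
        ((1 - PowerSeries.C ((starRingEnd ℂ) (Psi K w.asIdeal)) *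
          PowerSeries.X)⁻¹ : PowerSeries ℂ) := by
  by_cases h3 : (3 : 𝓞 K) ∈ w.asIdeal
  · rw [H7_three w h3, map_zero (starRingEnd ℂ), H7_ps, map_one, mul_one]
    exact H55B.I2_local_bad w (val_threeU hU w h3)
  · obtain ⟨v, hv⟩ := H1_below w
    have hv3 : (3 : O) ∉ v.asIdeal := by
      intro h
      apply h3
      rw [hv, Ideal.mem_comap, map_ofNat] at h
      exact h
    rw [H55C.b8_LEF w h3 v hv, Psi_prime w v hv, psiF_prime v hv3,
      map_pow (starRingEnd ℂ) ((starRingEnd ℂ) (e (H55B.gen v))), Complex.conj_conj, mul_comm]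

theorem LFunctionU (K : Type) [Field K] [NumberField K] [Algebra F K] (hU : H35N.Unr3 K) (n : ℕ) :
    (((E27.baseChange K).LFunction n : ℤ) : ℂ) =
      (AI (Psi K) * AI (fun a => (starRingEnd ℂ) (Psi K a))) n := by
  classical
  set L : HeightOneSpectrum (𝓞 K) → ArithmeticFunction ℤ := fun w =>
    ((E27.baseChange K).baseChange (w.adicCompletion K)).localEulerFactor
      (w.adicCompletionIntegers K) with hLdef
  have hL : ∀ᶠ T in Filter.atTop, (∏ w ∈ T, L w) n = (E27.baseChange K).LFunction n := by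
    have hN : Northcott (fun w : HeightOneSpectrum (𝓞 K) =>
        Nat.card (IsLocalRing.ResidueField (w.adicCompletionIntegers K))) := by
      have h1 : (fun w : HeightOneSpectrum (𝓞 K) =>
        Nat.card (IsLocalRing.ResidueField (w.adicCompletionIntegers K))) =
          fun w => Ideal.absNorm w.asIdeal := funext fun w => (H55B.residue_card K w).2
      rw [h1]
      infer_instance
    exact ArithmeticFunction.tendsTo_eulerProduct_ofPowerSeries
      (fun w : HeightOneSpectrum (𝓞 K) =>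
        Nat.card (IsLocalRing.ResidueField (w.adicCompletionIntegers K)))
      (fun w => ((E27.baseChange K).baseChange (w.adicCompletion K)).localPowerSeries
        (w.adicCompletionIntegers K))
      (fun w => by simp [WeierstrassCurve.localPowerSeries]) n
  have hA : ∀ᶠ T : Finset (HeightOneSpectrum (𝓞 K)) in Filter.atTop,
      ∀ m ∈ Finset.range (n + 1),
      (∏ w ∈ T, ArithmeticFunction.ofPowerSeries (Ideal.absNorm w.asIdeal)
        ((1 - PowerSeries.C (Psi K w.asIdeal) * PowerSeries.X)⁻¹ : PowerSeries ℂ)) m =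
          AI (Psi K) m ∧
      (∏ w ∈ T, ArithmeticFunction.ofPowerSeries (Ideal.absNorm w.asIdeal)
        ((1 - PowerSeries.C ((starRingEnd ℂ) (Psi K w.asIdeal)) *
          PowerSeries.X)⁻¹ : PowerSeries ℂ)) m =
          AI (fun a => (starRingEnd ℂ) (Psi K a)) m := by
    rw [Filter.eventually_all_finset]
    intro m _
    exact (AI_euler (Psi K) m).and (AI_euler (H7_conj K) m)
  obtain ⟨T, hT1, hT2⟩ := (hL.and hA).exists
  rw [← hT1, ← ArithmeticFunction.intCoe_apply, H55B.I2_cast_prod]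
  have h1 : ∀ w ∈ T, ((L w : ArithmeticFunction ℤ) : ArithmeticFunction ℂ) =
      ArithmeticFunction.ofPowerSeries (Ideal.absNorm w.asIdeal)
        ((1 - PowerSeries.C (Psi K w.asIdeal) * PowerSeries.X)⁻¹ : PowerSeries ℂ) *
      ArithmeticFunction.ofPowerSeries (Ideal.absNorm w.asIdeal)
        ((1 - PowerSeries.C ((starRingEnd ℂ) (Psi K w.asIdeal)) *
          PowerSeries.X)⁻¹ : PowerSeries ℂ) := fun w _ => pz6_LEF hU w
  rw [Finset.prod_congr rfl h1, Finset.prod_mul_distrib]
  refine H55B.I2_mul_congr ?_ ?_ n le_rfl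
  · intro m hm
    exact (hT2 m (Finset.mem_range.2 (by omega))).1
  · intro m hm
    exact (hT2 m (Finset.mem_range.2 (by omega))).2

/-- the value of the conjugate -/
theorem pz6_conj {p : ℕ} (hp : p.Prime) {x : ℂ} (hx0 : x ≠ 0) (hx : UnitP p x) :
    UnitP p ((starRingEnd ℂ) x) := by
  intro A hA
  have h2 : (p : ℂ) ≠ 0 := Nat.cast_ne_zero.2 hp.ne_zero
  set B : ValuationSubring ℂ := A.comap (starRingEnd ℂ) with hB
  have hmem : ∀ z : ℂ, z ∈ B ↔ (starRingEnd ℂ) z ∈ A := fun z => Iff.rfl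
  have hB2 : B.valuation (p : ℂ) < 1 := by
    rw [H55C.B9_lt B h2, hmem, map_inv₀, map_natCast, ← H55C.B9_lt A h2]
    exact hA
  have h3 := (H55C.B9_eq B hx0).1 (hx B hB2)
  rw [hmem, hmem, map_inv₀] at h3
  exact (H55C.B9_eq A ((map_ne_zero (starRingEnd ℂ)).2 hx0)).2 h3

theorem pz6_ne {p : ℕ} (hp : p.Prime) {x : ℂ} (hx : UnitP p x) : x ≠ 0 := by
  obtain ⟨A, hA⟩ := exists_above_p p hp
  intro h
  have h1 := hx A hA
  rw [h, map_zero] at h1
  exact zero_ne_one h1

/-- one continuation for all valuations above p -/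
theorem pz6_glue {K : Type} [Field K] [NumberField K] [Algebra F K] {p : ℕ} (hp : p.Prime)
    {Om : ℂ} {h : Ideal (𝓞 K) →*₀ ℂ}
    (hL : ∀ V : ValuationSubring ℂ, V.valuation (p : ℂ) < 1 → LVP F V Om h) :
    ∃ Λ : ℂ → ℂ, AnalyticOnNhd ℂ Λ {s | 1 / 2 < s.re} ∧
      (∀ s : ℂ, 3 / 2 < s.re → HasSum (tm h s) (Λ s)) ∧
      UnitP p (Λ 1 / Om ^ Module.finrank F K) := by
  obtain ⟨V₀, hV₀⟩ := exists_above_p p hp
  obtain ⟨L, hLa, hLs, -⟩ := hL V₀ hV₀
  refine ⟨L, hLa, hLs, fun V hV => ?_⟩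
  obtain ⟨L', hLa', hLs', hV'⟩ := hL V hV
  have h1 : L 1 = L' 1 := ident L L' hLa hLa' (fun s hs => (hLs s hs).unique (hLs' s hs)) 1
    (by norm_num)
  rw [h1]
  exact hV'

theorem L_valU (K : Type) [Field K] [NumberField K] [Algebra F K] (hU : H35N.Unr3 K) (p : ℕ)
    (hp : p.Prime) (h : ∀ V : ValuationSubring ℂ, V.valuation (p : ℂ) < 1 → LVP F V OmE (PsiP K psiE)) :
    ∃ Λ : ℂ → ℂ, AnalyticOnNhd ℂ Λ {s | 1 / 2 < s.re} ∧
      (∀ s : ℂ, 3 / 2 < s.re →
        LSeriesSummable (fun n => (((E27.baseChange K).LFunction n : ℤ) : ℂ)) s ∧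
        Λ s = (E27.baseChange K).LSeries s) ∧ Λ 1 ≠ 0 ∧
      UnitP p (Λ 1 / (OmE * (starRingEnd ℂ) OmE) ^ Module.finrank F K) := by
  obtain ⟨L, hLa, hLs', hL1⟩ := pz6_glue hp h
  have hLs : ∀ s : ℂ, 3 / 2 < s.re → HasSum (tm (Psi K) s) (L s) := fun s hs => hLs' s hs
  have hval : UnitP p ((L 1 * (starRingEnd ℂ) (L ((starRingEnd ℂ) 1))) /
      (OmE * (starRingEnd ℂ) OmE) ^ Module.finrank F K) := by
    have e1 : (L 1 * (starRingEnd ℂ) (L ((starRingEnd ℂ) 1))) /
        (OmE * (starRingEnd ℂ) OmE) ^ Module.finrank F K =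
        (L 1 / OmE ^ Module.finrank F K) *
          (starRingEnd ℂ) (L 1 / OmE ^ Module.finrank F K) := by
      rw [map_one, map_div₀, map_pow, mul_pow, mul_div_mul_comm]
    rw [e1]
    intro V hV
    rw [map_mul, hL1 V hV, pz6_conj hp (pz6_ne hp hL1) hL1 V hV, one_mul]
  refine ⟨fun z => L z * (starRingEnd ℂ) (L ((starRingEnd ℂ) z)), hLa.mul (H55B.I4_conj hLa), ?_, ?_,
    hval⟩
  · intro z hz
    have hz' : 3 / 2 < ((starRingEnd ℂ) z).re := by simpa using hz
    have h0 : Psi K ⊥ = 0 := (Psi K).map_zero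
    have h1 := AI_LSeries (fun a => Psi K a) h0 z (tm_summable _ Psi_norm_le z hz)
    have h2 := AI_LSeries (fun a => (starRingEnd ℂ) (Psi K a)) (by rw [h0, map_zero]) z
      (tm_summable _ (fun a => by rw [RCLike.norm_conj]; exact Psi_norm_le a) z hz)
    have e1 : ∑' a, tm (fun a => Psi K a) z a = L z := (hLs z hz).tsum_eq
    have e2 : ∑' a, tm (fun a => (starRingEnd ℂ) (Psi K a)) z a =
        (starRingEnd ℂ) (L ((starRingEnd ℂ) z)) := by
      have h3 := (Complex.hasSum_conj').2 (hLs _ hz')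
      have h4 := h3.tsum_eq
      rw [← h4]
      exact tsum_congr fun a => H8_tm _ z a
    rw [e1] at h1
    rw [e2] at h2
    have h3 := ArithmeticFunction.LSeriesHasSum_mul h1 h2
    have e3 : (fun n => (((E27.baseChange K).LFunction n : ℤ) : ℂ)) = fun n =>
        (AI (Psi K) * AI (fun a => (starRingEnd ℂ) (Psi K a))) n :=
      funext fun n => LFunctionU K hU n
    have key : LSeriesHasSum (fun n => (((E27.baseChange K).LFunction n : ℤ) : ℂ)) z
        (L z * (starRingEnd ℂ) (L ((starRingEnd ℂ) z))) := by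
      rw [e3]
      exact h3
    exact ⟨key.LSeriesSummable, key.LSeries_eq.symm⟩
  · have h1 := pz6_ne hp hval
    exact (div_ne_zero_iff.1 h1).1

end H55P
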