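import Mathlib
import Pool.Agent.Lib.H55P.CL
import Pool.Agent.Lib.H55P.GenStm
import Pool.Agent.Lib.H55P.S14
import Pool.Agent.Lib.H55P.S6
import Pool.Agent.Lib.H55P.Z3
import Pool.Agent.Lib.H55P.Z6

/-!
# H55P: the inheritance theorem for all curves with complex multiplication by the integers of a field of class number one
-/

open NumberField IsDedekindDomain WeierstrassCurve

namespace H55P

open H55N (tm ident tm_summable AI AI_LSeries H8_tm)

section gen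

variable {F : Type} [Field F] [NumberField F] [IQ F]

/-- An integer of F of norm prime to p is a unit above p. -/
theorem gen_unit (p : ℕ) (hp : p.Prime) (z : 𝓞 F) (hz : ¬ p ∣ Ideal.absNorm (Ideal.span {z}))
    (V : ValuationSubring ℂ) (hV : V.valuation (p : ℂ) < 1) :
    V.valuation (eF F z) = 1 ∧ V.valuation ((starRingEnd ℂ) (eF F z)) = 1 := by
  have h1 := PT1_int (eF F) z V
  have h2 := PT1_int ((starRingEnd ℂ).comp (eF F)) z V
  have h2' : V.valuation ((starRingEnd ℂ) (eF F z)) ≤ 1 := h2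
  have h3 : eF F z * (starRingEnd ℂ) (eF F z) = (Ideal.absNorm (Ideal.span {z}) : ℂ) := by
    rw [Complex.mul_conj, Complex.normSq_eq_norm_sq, ← Nm_eq]
    unfold Nm
    norm_cast
  have h4 := val_nat p hp V hV _ hz
  rw [← h3, map_mul] at h4
  constructor
  · refine le_antisymm h1 ?_
    by_contra hlt
    have h5 := mul_lt_one_of_nonneg_of_lt_one_left zero_le (not_le.1 hlt) h2'
    rw [h4] at h5
    exact lt_irrefl _ h5
  · refine le_antisymm h2' ?_
    by_contra hlt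
    have h5 := mul_lt_one_of_nonneg_of_lt_one_right h1 zero_le (not_le.1 hlt)
    rw [h4] at h5
    exact lt_irrefl _ h5

/-- An integer of F prime to p is a unit above p. -/
theorem gen_cop (p : ℕ) (z : 𝓞 F) (hz : IsCoprime (Ideal.span {z}) (Ideal.span {(p : 𝓞 F)}))
    (V : ValuationSubring ℂ) (hV : V.valuation (p : ℂ) < 1) : V.valuation (eF F z) = 1 := by
  rw [Ideal.isCoprime_span_singleton_iff] at hz
  obtain ⟨a, b, hab⟩ := hz
  have h1 : eF F a * eF F z + eF F b * (p : ℂ) = 1 := by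
    rw [← map_natCast (eF F) p, ← map_mul, ← map_mul, ← map_add, hab, map_one]
  have ha := PT1_int (eF F) a V
  have hb := PT1_int (eF F) b V
  have hz := PT1_int (eF F) z V
  refine le_antisymm hz ?_
  by_contra hlt
  have h5 : V.valuation (eF F a * eF F z) < 1 := by
    rw [map_mul]
    exact mul_lt_one_of_nonneg_of_lt_one_right ha zero_le (not_le.1 hlt)
  have h6 : V.valuation (eF F b * (p : ℂ)) < 1 := by
    rw [map_mul]
    exact mul_lt_one_of_nonneg_of_lt_one_right hb zero_le hV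
  have h7 := V.valuation.map_add_lt h5 h6
  rw [h1, map_one] at h7
  exact lt_irrefl _ h7

/-- The short equation is good at V. -/
theorem gen_good (p : ℕ) (hp : p.Prime) (h5 : 5 ≤ p) (W₀ : WeierstrassCurve (𝓞 F))
    (hΔ : IsCoprime (Ideal.span {W₀.Δ}) (Ideal.span {(p : 𝓞 F)}))
    (V : ValuationSubring ℂ) (hV : V.valuation (p : ℂ) < 1) :
    GoodV (-(eF F W₀.c₄) / 48) (-(eF F W₀.c₆) / 864) V := by
  obtain ⟨h3, h2⟩ := val3 p hp h5 V hV
  have h48 : V.valuation (48 : ℂ) = 1 := by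
    have e : (48 : ℂ) = 2 * 2 * 2 * 2 * 3 := by norm_num
    rw [e]
    simp only [map_mul, h2, h3, one_mul]
  have h864 : V.valuation (864 : ℂ) = 1 := by
    have e : (864 : ℂ) = 2 * 2 * 2 * 2 * 2 * 3 * 3 * 3 := by norm_num
    rw [e]
    simp only [map_mul, h2, h3, one_mul]
  have h16 : V.valuation (16 : ℂ) = 1 := by
    have e : (16 : ℂ) = 2 * 2 * 2 * 2 := by norm_num
    rw [e]
    simp only [map_mul, h2, one_mul]
  refine ⟨?_, ?_, h2, ?_⟩
  · rw [← V.valuation_le_one_iff, map_div₀, Valuation.map_neg, h48, div_one]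
    exact PT1_int (eF F) _ V
  · rw [← V.valuation_le_one_iff, map_div₀, Valuation.map_neg, h864, div_one]
    exact PT1_int (eF F) _ V
  · have h1 : (1728 : ℂ) * eF F W₀.Δ = eF F W₀.c₄ ^ 3 - eF F W₀.c₆ ^ 2 := by
      have := congrArg (eF F) W₀.c_relation
      rw [map_mul, map_sub, map_pow, map_pow, map_ofNat] at this
      exact this
    have h2 : (4 : ℂ) * (-(eF F W₀.c₄) / 48) ^ 3 + 27 * (-(eF F W₀.c₆) / 864) ^ 2 =
        -(eF F W₀.Δ) / 16 := by
      linear_combination (1 / 27648 : ℂ) * h1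
    rw [h2, map_div₀, Valuation.map_neg, h16, div_one]
    exact gen_cop p _ hΔ V hV

/-- One continuation for all valuations above p. -/
theorem gen_glue {K : Type} [Field K] [NumberField K] [Algebra F K] {p : ℕ} (hp : p.Prime)
    {Om : ℂ} {h : Ideal (𝓞 K) →*₀ ℂ}
    (hL : ∀ V : ValuationSubring ℂ, V.valuation (p : ℂ) < 1 → LVP F V Om h) :
    ∃ Λ : ℂ → ℂ, AnalyticOnNhd ℂ Λ {s | 1 / 2 < s.re} ∧
      (∀ s : ℂ, 3 / 2 < s.re → HasSum (tm h s) (Λ s)) ∧ Λ 1 ≠ 0 ∧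
      UnitP p (Λ 1 / Om ^ Module.finrank F K) := by
  obtain ⟨V₀, hV₀⟩ := exists_above_p p hp
  obtain ⟨L, hLa, hLs, -⟩ := hL V₀ hV₀
  have hu : UnitP p (L 1 / Om ^ Module.finrank F K) := by
    intro V hV
    obtain ⟨L', hLa', hLs', hV'⟩ := hL V hV
    have h1 : L 1 = L' 1 := ident L L' hLa hLa' (fun s hs => (hLs s hs).unique (hLs' s hs)) 1
      (by norm_num)
    rw [h1]
    exact hV'
  exact ⟨L, hLa, hLs, (div_ne_zero_iff.1 (pz6_ne hp hu)).1, hu⟩

omit [NumberField F] [IQ F] in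
theorem gen_ell (W₀ : WeierstrassCurve (𝓞 F)) (h : W₀.Δ ≠ 0) : (W₀⁄F).IsElliptic := by
  have e : (W₀⁄F).Δ = algebraMap (𝓞 F) F W₀.Δ := W₀.map_Δ (algebraMap (𝓞 F) F)
  rw [WeierstrassCurve.isElliptic_iff, e]
  exact IsUnit.mk0 _ fun h0 => h ((map_eq_zero_iff _ (FaithfulSMul.algebraMap_injective (𝓞 F) F)).1 h0)

/-- The L-function from the two L-series. -/
theorem gen_lval (p : ℕ) (hp : p.Prime) (W₀ : WeierstrassCurve (𝓞 F)) (Om : ℂ) {m : Ideal (𝓞 F)}
    {ψ : Ideal (𝓞 F) →*₀ 𝓞 F} (h : IsHecke m ψ) (K : IntermediateField F (AlgebraicClosure F))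
    [NumberField K] (hV : ValG p Om ψ K) (hD : DeuG W₀ ψ K) : LvalG p W₀ Om K := by
  obtain ⟨L, hLa, hLs, hL0, hL1⟩ := hV
  have hval : UnitP p ((L 1 * (starRingEnd ℂ) (L ((starRingEnd ℂ) 1))) /
      ((‖Om‖ ^ 2 : ℝ) : ℂ) ^ Module.finrank F K) := by
    have e0 : ((‖Om‖ ^ 2 : ℝ) : ℂ) = Om * (starRingEnd ℂ) Om := by
      rw [Complex.mul_conj, Complex.normSq_eq_norm_sq]
    have e1 : (L 1 * (starRingEnd ℂ) (L ((starRingEnd ℂ) 1))) /
        ((‖Om‖ ^ 2 : ℝ) : ℂ) ^ Module.finrank F K =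
        (L 1 / Om ^ Module.finrank F K) *
          (starRingEnd ℂ) (L 1 / Om ^ Module.finrank F K) := by
      rw [e0, map_one, map_div₀, map_pow, mul_pow, mul_div_mul_comm]
    rw [e1]
    intro V hV
    rw [map_mul, hL1 V hV, pz6_conj hp (pz6_ne hp hL1) hL1 V hV, one_mul]
  refine ⟨fun z => L z * (starRingEnd ℂ) (L ((starRingEnd ℂ) z)), hLa.mul (H55B.I4_conj hLa), ?_, ?_,
    hval⟩
  · intro z hz
    have hz' : 3 / 2 < ((starRingEnd ℂ) z).re := by simpa using hz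
    have h0 : PsiP K ψ ⊥ = 0 := (PsiP K ψ).map_zero
    have h1 := AI_LSeries (fun a => PsiP K ψ a) h0 z (tm_summable _ (PsiP_norm_le h) z hz)
    have h2 := AI_LSeries (fun a => (starRingEnd ℂ) (PsiP K ψ a)) (by rw [h0, map_zero]) z
      (tm_summable _ (fun a => by rw [RCLike.norm_conj]; exact PsiP_norm_le h a) z hz)
    have e1 : ∑' a, tm (fun a => PsiP K ψ a) z a = L z := (hLs z hz).tsum_eq
    have e2 : ∑' a, tm (fun a => (starRingEnd ℂ) (PsiP K ψ a)) z a =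
        (starRingEnd ℂ) (L ((starRingEnd ℂ) z)) := by
      have h3 := (Complex.hasSum_conj').2 (hLs _ hz')
      have h4 := h3.tsum_eq
      rw [← h4]
      exact tsum_congr fun a => H8_tm _ z a
    rw [e1] at h1
    rw [e2] at h2
    have h3 := ArithmeticFunction.LSeriesHasSum_mul h1 h2
    have e3 : (fun n => ((((W₀⁄F)⁄K).LFunction n : ℤ) : ℂ)) = fun n =>
        (AI (PsiP K ψ) * AI (fun a => (starRingEnd ℂ) (PsiP K ψ a))) n :=
      funext fun n => hD n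
    have key : LSeriesHasSum (fun n => ((((W₀⁄F)⁄K).LFunction n : ℤ) : ℂ)) z
        (L z * (starRingEnd ℂ) (L ((starRingEnd ℂ) z))) := by
      rw [e3]
      exact h3
    exact ⟨key.LSeriesSummable, key.LSeries_eq.symm⟩
  · have h1 := pz6_ne hp hval
    exact (div_ne_zero_iff.1 h1).1

/-- Units at all valuations above p. -/
theorem gen_conv (p : ℕ) (hp : p.Prime) (z : 𝓞 F)
    (h : ∀ V : ValuationSubring ℂ, V.valuation (p : ℂ) < 1 → V.valuation (eF F z) = 1) :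
    ¬ p ∣ Ideal.absNorm (Ideal.span {z}) := by
  intro hd
  obtain ⟨V, hV⟩ := exists_above_p p hp
  have h1 := h V hV
  have h2 := pz6_conj hp (pz6_ne hp h) h V hV
  have h3 : eF F z * (starRingEnd ℂ) (eF F z) = (Ideal.absNorm (Ideal.span {z}) : ℂ) := by
    rw [Complex.mul_conj, Complex.normSq_eq_norm_sq, ← Nm_eq]
    unfold Nm
    norm_cast
  have h4 : V.valuation ((Ideal.absNorm (Ideal.span {z}) : ℕ) : ℂ) = 1 := by
    rw [← h3, map_mul, h1, h2, one_mul]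
  obtain ⟨t, ht⟩ := hd
  rw [ht, Nat.cast_mul, map_mul] at h4
  have h5 := mul_lt_one_of_lt_of_le hV (pt9_nat V t)
  rw [h4] at h5
  exact lt_irrefl _ h5

/-- The auxiliary ideal. -/
theorem gen_ntp (p : ℕ) (hp : p.Prime) {W₀ : WeierstrassCurve (𝓞 F)} {m : Ideal (𝓞 F)}
    {ψ : Ideal (𝓞 F) →*₀ 𝓞 F} (M : IntermediateField F (AlgebraicClosure F)) [NumberField M]
    (v₀ : HeightOneSpectrum (𝓞 M)) (hv₀ : GoodG p W₀ m ψ M v₀) (V : ValuationSubring ℂ)
    (hV : V.valuation (p : ℂ) < 1) : NTP M p m ψ V := by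
  refine ⟨v₀.asIdeal, ?_, ?_, ?_⟩
  · rw [PT1_max _ _ v₀.isMaximal]
    intro h
    exact hv₀.res (h (Ideal.mem_span_singleton_self _))
  · rw [PT1_max _ _ v₀.isMaximal]
    exact hv₀.modulus
  · have h1 := (gen_unit p hp _ hv₀.hecke V hV).2
    rw [PsiP_apply]
    rwa [map_sub, map_one, map_sub, map_one] at h1

section crit

variable (W₀ : WeierstrassCurve (𝓞 F)) (Om : ℂ) (m : Ideal (𝓞 F)) (ψ : Ideal (𝓞 F) →*₀ 𝓞 F)
  (hC : CMData F W₀ Om m ψ) (p : ℕ) (hp : p.Prime) (h5 : 5 ≤ p)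
  (hcop : IsCoprime (Ideal.span {W₀.Δ} * m) (Ideal.span {(p : 𝓞 F)}))
  (M L : IntermediateField F (AlgebraicClosure F)) [NumberField M] (hL : PExt p M L)
  (hex : ∃ v, GoodG p W₀ m ψ M v)
  (K : IntermediateField F (AlgebraicClosure F)) [NumberField K] (hMK : M ≤ K) (hKL : K ≤ L)

include hC hp h5 hcop hL hex hMK hKL

/-- Integrality over K. -/
theorem gen_int (hU : UnrP p K) : IntG p Om ψ K := by
  have hLf : FiniteDimensional F L := hL.fin
  have hm : IsCoprime m (Ideal.span {(p : 𝓞 F)}) := hcop.of_mul_left_right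
  have hΔ : IsCoprime (Ideal.span {W₀.Δ}) (Ideal.span {(p : 𝓞 F)}) := hcop.of_mul_left_left
  obtain ⟨v₀, hv₀⟩ := hex
  letI iMK : Algebra M K := (IntermediateField.inclusion hMK).toRingHom.toAlgebra
  have hst : IsScalarTower F M K := alg_tower M K hMK
  obtain ⟨j, hj⟩ := pext_deg p hp M K L hL hMK hKL
  have hI : ∀ V : ValuationSubring ℂ, V.valuation (p : ℂ) < 1 → LVI F V Om (PsiP K ψ) := fun V hV =>
    LVI_base p hp hC.hecke hm hU _ _ Om hC.per V hV (gen_good p hp h5 W₀ hΔ V hV)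
      (NTP_up M K p hp j hj V hV (gen_ntp p hp M v₀ hv₀ V hV))
  obtain ⟨V₀, hV₀⟩ := exists_above_p p hp
  obtain ⟨Λ, h1, h2, -⟩ := hI V₀ hV₀
  refine ⟨Λ, h1, h2, fun V hV => ?_⟩
  obtain ⟨Λ', h1', h2', h3'⟩ := hI V hV
  have h6 : Λ 1 = Λ' 1 := ident Λ Λ' h1 h1' (fun s hs => (h2 s hs).unique (h2' s hs)) 1
    (by norm_num)
  rw [h6, ← ValuationSubring.valuation_le_one_iff]
  exact h3'

open Classical in
/-- The exact criterion for the L-values. -/
theorem gen_crit (hU : UnrP p K) : ValG p Om ψ K ↔ ValG p Om ψ M ∧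
    ∀ v : HeightOneSpectrum (𝓞 M), Ram M K v.asIdeal →
      ¬ p ∣ Ideal.absNorm (Ideal.span {1 - ψ (Ideal.relNorm (𝓞 F) v.asIdeal)}) := by
  have hLf : FiniteDimensional F L := hL.fin
  have hLn : NumberField L := H16C.FR_numberField L
  have hm : IsCoprime m (Ideal.span {(p : 𝓞 F)}) := hcop.of_mul_left_right
  have hΔ : IsCoprime (Ideal.span {W₀.Δ}) (Ideal.span {(p : 𝓞 F)}) := hcop.of_mul_left_left
  obtain ⟨v₀, hv₀⟩ := hex
  have key := fun (V : ValuationSubring ℂ) (hV : V.valuation (p : ℂ) < 1) =>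
    LVP_tower_iff p hp M L hL hC.hecke hm _ _ Om hC.per V hV (gen_good p hp h5 W₀ hΔ V hV)
      (gen_ntp p hp M v₀ hv₀ V hV) K hMK hKL hU
  have hfac : ∀ v : HeightOneSpectrum (𝓞 M),
      1 - (starRingEnd ℂ) (PsiP M ψ v.asIdeal) =
        eF F (1 - ψ (Ideal.relNorm (𝓞 F) v.asIdeal)) := fun v => by
    rw [PsiP_apply, Complex.conj_conj, map_sub, map_one]
  constructor
  · rintro ⟨Λ, a1, a2, -, a4⟩
    have h1 := fun V hV => (key V hV).1 ⟨Λ, a1, a2, a4 V hV⟩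
    refine ⟨gen_glue hp fun V hV => (h1 V hV).1, fun v hv => gen_conv p hp _ fun V hV => ?_⟩
    rw [← hfac v]
    exact (h1 V hV).2 v hv
  · rintro ⟨⟨Λ, a1, a2, -, a4⟩, h2⟩
    refine gen_glue hp fun V hV => (key V hV).2 ⟨⟨Λ, a1, a2, a4 V hV⟩, fun v hv => ?_⟩
    rw [hfac v]
    exact (gen_unit p hp _ (h2 v hv) V hV).1

open Classical in
omit h5 in
/-- Selmer groups. -/
theorem gen_sel (hS : SelG p W₀ M)
    (hram : ∀ v : HeightOneSpectrum (𝓞 M), Ram M K v.asIdeal → GoodG p W₀ m ψ M v) :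
    SelG p W₀ K ∧ ShaG p W₀ K ∧ PtsG p W₀ K := by
  have hLf : FiniteDimensional F L := hL.fin
  have hMf : FiniteDimensional F M := finDim_of_le hL.le
  have hKf : FiniteDimensional F K := finDim_of_le hKL
  have hell : (W₀⁄F).IsElliptic := gen_ell W₀ hC.ell
  obtain ⟨v₀, hv₀⟩ := hex
  have hC' := clos_pext p hp M K L hL hMK hKL
  have h0 : ∀ T : Pt (W₀⁄F) (AlgebraicClosure F), p • T = 0 →
      (∀ s ∈ M.fixingSubgroup, ac (W₀⁄F) s T = T) → T = 0 := fun T hT hf =>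
    tors_of_prime W₀ p hp M v₀ hv₀.disc hv₀.res hv₀.pts T hT hf
  have hSK : SelZero (W₀⁄F) p K := sel_tower W₀ p hp M (clos M K) hC' h0
    (fun v hv => by
      have hv' := clos_ram M K L hMK hKL hL.norm v hv
      exact ⟨(hram v hv').disc, (hram v hv').res, (hram v hv').pts⟩) hS K hMK (le_clos M K)
  exact ⟨hSK, sha_zero (W₀⁄F) p hp K hSK, pts_fin (W₀⁄F) p hp K hSK⟩

/-- THE GENERAL THEOREM. -/
theorem gen_main (hU : UnrP p K) :
    IntG p Om ψ K ∧
    (ValG p Om ψ K ↔ ValG p Om ψ M ∧ ∀ v : HeightOneSpectrum (𝓞 M), Ram M K v.asIdeal →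
      ¬ p ∣ Ideal.absNorm (Ideal.span {1 - ψ (Ideal.relNorm (𝓞 F) v.asIdeal)})) ∧
    (SelG p W₀ M → (∀ v : HeightOneSpectrum (𝓞 M), Ram M K v.asIdeal → GoodG p W₀ m ψ M v) →
      SelG p W₀ K ∧ ShaG p W₀ K ∧ PtsG p W₀ K) ∧
    (ValG p Om ψ K → DeuG W₀ ψ K → LvalG p W₀ Om K) :=
  ⟨gen_int W₀ Om m ψ hC p hp h5 hcop M L hL hex K hMK hKL hU,
    gen_crit W₀ Om m ψ hC p hp h5 hcop M L hL hex K hMK hKL hU,
    gen_sel W₀ Om m ψ hC p hp hcop M L hL hex K hMK hKL,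
    fun hV hD => gen_lval p hp W₀ Om hC.hecke K hV hD⟩

end crit

end gen

end H55P
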