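import Mathlib
import Pool.Agent.Lib.H55P.ZD

open NumberField IsDedekindDomain

namespace H55P

open H55N
open H55B (F O om e emb Prim R lam_prime three_eq exists_unit_prim)

/-! The Hecke character of y^2 + y = x^3 (proved). -/

theorem m3_ne : m3 ≠ ⊥ := by
  unfold m3
  rw [Ne, Ideal.span_singleton_eq_bot]
  norm_num

theorem m3_ntop : m3 ≠ ⊤ := by
  unfold m3
  rw [Ne, Ideal.span_singleton_eq_top, three_eq]
  intro h
  have h1 : IsUnit (om - 1 : O) := by
    have h2 : (om - 1 : O) ∣ -om ^ 2 * (om - 1) ^ 2 := ⟨-om ^ 2 * (om - 1), by ring⟩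
    exact isUnit_of_dvd_unit h2 h
  exact lam_prime.not_unit h1

theorem pg_of_unit {x : O} (u : Oˣ) (h : Prim (u * x)) : pg (Ideal.span {x}) = u * x := by
  have h1 : Ideal.span {x} = Ideal.span {(u : O) * x} := by
    rw [mul_comm, Ideal.span_singleton_mul_right_unit u.isUnit]
  rw [h1, pg_span h]

theorem isHeckeE : IsHecke m3 psiE where
  ne := m3_ne
  ntop := m3_ntop
  gen J h := by
    have hJ : J ≠ ⊥ := by
      rintro rfl
      apply m3_ntop
      rw [Ideal.isCoprime_iff_sup_eq] at h
      simpa using h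
    obtain ⟨x, rfl, hx⟩ := (exists_prim_iff hJ).2 h
    rw [psiE_apply, pg_span hx]
  zero J h := by
    rcases eq_or_ne J ⊥ with rfl | hJ
    · exact psiE.map_zero
    · exact pg_of_not fun h' => h ((exists_prim_iff hJ).1 h')
  per x y hx hy hxy := by
    rw [m3, Ideal.isCoprime_span_singleton_iff] at hx
    obtain ⟨u, hu⟩ := exists_unit_prim hx
    have hu' : Prim (u * y) := by
      obtain ⟨z, hz⟩ := Ideal.mem_span_singleton.1 hxy
      obtain ⟨t, ht⟩ := hu
      exact ⟨t - u * z, by linear_combination ht - (u : O) * hz⟩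
    rw [psiE_apply, psiE_apply, pg_of_unit u hu, pg_of_unit u hu']
    ring

end H55P
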