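import Mathlib
import Pool.Agent.Lib.H35N.U3
import Pool.Agent.Lib.H55P.T1
import Pool.Agent.Lib.H55P.Z10

open NumberField IsDedekindDomain WeierstrassCurve

namespace H55P

section gen

variable {F : Type} [Field F] [NumberField F] {Ω : Type} [Field Ω] [Algebra F Ω]

/-! Chunk PZ13 (M). Conversions between abstract fields and subfields of Ω.
ramF_range: the isomorphism 𝓞 L ≃ 𝓞 j.fieldRange (AlgEquiv.ofInjectiveField j, RingOfIntegers.mapRingEquiv) over 𝓞 F; W = the inverse image of the prime W' of RamF; v.map <= W^2, so W lies over v (v is maximal, v.map <= W) and the ramification index is >= 2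
(Ideal.le_pow_ramificationIdx / ramificationIdx'_spec; see pt10_ram in Lib/H55P/T10.lean).
unr3_down: e(W|v) = e(W|w) e(w|v) (Ideal.ramificationIdx_tower) for a prime W of K' above w; 3 in w implies 3 in W.
LVP_congr: the same Λ; HasSum over the ideals of 𝓞 K and of 𝓞 K' correspond under the bijection of ideals given by the isomorphism (RingEquiv.idealComapOrderIso or Ideal.map): absNorm is the same (quotients are isomorphic), relNorm is the same (Ideal.relNorm_map or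
PsiP_top with K' as an extension of K of degree one: PsiP K' (a.map) = PsiP K (relNorm (a.map)) = PsiP K a; see T2_equiv in Lib/H55N/T2.lean for the degree one computation). finrank F K = finrank F K'. -/

theorem ramF_range (L : Type) [Field L] [NumberField L] [Algebra F L] (j : L →ₐ[F] Ω)
    (v : HeightOneSpectrum (𝓞 F)) (h : RamF j.fieldRange v.asIdeal) :
    ∃ W : HeightOneSpectrum (𝓞 L), v.asIdeal = W.asIdeal.under (𝓞 F) ∧
      W.asIdeal.ramificationIdx (𝓞 F) ≠ 1 := by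
  obtain ⟨W', hW', hle⟩ := h
  obtain ⟨θ, hθ⟩ : ∃ θ : 𝓞 L ≃+* 𝓞 j.fieldRange, ∀ x : 𝓞 F,
      θ (algebraMap (𝓞 F) (𝓞 L) x) = algebraMap (𝓞 F) (𝓞 j.fieldRange) x := by
    let e : L ≃ₐ[F] j.fieldRange := AlgEquiv.ofInjectiveField j
    refine ⟨RingOfIntegers.mapRingEquiv e, fun x => ?_⟩
    apply RingOfIntegers.coe_injective
    show e (algebraMap F L (x : F)) = algebraMap F j.fieldRange (x : F)
    exact e.commutes _
  have hmap : (v.asIdeal.map (algebraMap (𝓞 F) (𝓞 L))).map (θ : 𝓞 L →+* 𝓞 j.fieldRange) =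
      v.asIdeal.map (algebraMap (𝓞 F) (𝓞 j.fieldRange)) := by
    rw [Ideal.map_map]
    congr 1
    exact RingHom.ext fun x => hθ x
  obtain ⟨P, hP⟩ : ∃ P : Ideal (𝓞 L), P = W'.comap (θ : 𝓞 L →+* 𝓞 j.fieldRange) := ⟨_, rfl⟩
  have hPp : P.IsPrime := by
    rw [hP]
    exact hW'.comap _
  have hPmap : P.map (θ : 𝓞 L →+* 𝓞 j.fieldRange) = W' := by
    rw [hP]
    exact Ideal.map_comap_of_surjective _ θ.surjective _
  have h2 : v.asIdeal.map (algebraMap (𝓞 F) (𝓞 L)) ≤ P ^ 2 := by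
    have h3 : (v.asIdeal.map (algebraMap (𝓞 F) (𝓞 L))).map (θ : 𝓞 L →+* 𝓞 j.fieldRange) ≤
        (P ^ 2).map (θ : 𝓞 L →+* 𝓞 j.fieldRange) := by
      rw [hmap, Ideal.map_pow, hPmap]
      exact hle
    have h4 := Ideal.comap_mono (f := (θ : 𝓞 L →+* 𝓞 j.fieldRange)) h3
    have h5 : ∀ I : Ideal (𝓞 L), (I.map (θ : 𝓞 L →+* 𝓞 j.fieldRange)).comap
        (θ : 𝓞 L →+* 𝓞 j.fieldRange) = I := fun I =>
      Ideal.comap_map_of_bijective _ θ.bijective
    rwa [h5, h5] at h4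
  have h1 : v.asIdeal.map (algebraMap (𝓞 F) (𝓞 L)) ≤ P := h2.trans (Ideal.pow_le_self two_ne_zero)
  have hv0 : v.asIdeal.map (algebraMap (𝓞 F) (𝓞 L)) ≠ ⊥ := by
    rw [Ne, Ideal.map_eq_bot_iff_of_injective (FaithfulSMul.algebraMap_injective (𝓞 F) (𝓞 L))]
    exact v.ne_bot
  have hP0 : P ≠ ⊥ := by
    intro h
    rw [h] at h1
    exact hv0 (le_bot_iff.1 h1)
  have hvm := v.isMaximal
  have hunder : v.asIdeal = P.under (𝓞 F) := by
    refine hvm.eq_of_le (Ideal.IsPrime.ne_top inferInstance) ?_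
    rw [Ideal.under_def, ← Ideal.map_le_iff_le_comap]
    exact h1
  refine ⟨⟨P, hPp, hP0⟩, hunder, ?_⟩
  have hlies : P.LiesOver v.asIdeal := ⟨hunder⟩
  show P.ramificationIdx (𝓞 F) ≠ 1
  rw [← Ideal.ramificationIdx'_eq_ramificationIdx v.asIdeal P v.ne_bot,
    Ideal.ramificationIdx'_ne_one_iff h1]
  exact h2

end gen

theorem unr3_down (K K' : Type) [Field K] [NumberField K] [Algebra H55B.F K] [Field K'] [NumberField K']
    [Algebra H55B.F K'] [Algebra K K'] [IsScalarTower H55B.F K K'] (h : H35N.Unr3 K') : H35N.Unr3 K := by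
  intro w hw
  have hwm := w.isMaximal
  obtain ⟨Q, hQ1, hQ2⟩ := Ideal.exists_maximal_ideal_liesOver_of_isIntegral (S := 𝓞 K') w.asIdeal
  have hQ0 : Q ≠ ⊥ := Ideal.ne_bot_of_liesOver_of_ne_bot w.ne_bot Q
  have h3 : (3 : 𝓞 K') ∈ Q := by
    have h4 : algebraMap (𝓞 K) (𝓞 K') 3 ∈ Q := by
      have h5 : (3 : 𝓞 K) ∈ Q.under (𝓞 K) := by
        rw [← hQ2.over]
        exact hw
      exact h5
    rwa [map_ofNat] at h4
  have h6 := h ⟨Q, hQ1.isPrime, hQ0⟩ h3
  have h7 := Ideal.ramificationIdx_tower (R := H55B.O) w.asIdeal Q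
  have h8 : Q.ramificationIdx H55B.O = 1 := h6
  rw [h8] at h7
  exact Nat.eq_one_of_mul_eq_one_right h7.symm

theorem pz13_equiv (K K' : Type) [Field K] [NumberField K] [Field K'] [NumberField K'] [Algebra K K']
    (hsurj : Function.Surjective (algebraMap K K')) :
    ∃ ε : Ideal (𝓞 K) ≃ Ideal (𝓞 K'), ∀ J : Ideal (𝓞 K), Ideal.relNorm (𝓞 K) (ε J) = J ∧
      Ideal.absNorm (ε J) = Ideal.absNorm J := by
  have h1 : Module.finrank K K' = 1 := by
    rw [finrank_eq_one_iff_of_nonzero' (1 : K') one_ne_zero]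
    intro x
    obtain ⟨c, hc⟩ := hsurj x
    exact ⟨c, by rw [← hc, Algebra.smul_def, mul_one]⟩
  have hinj : Function.Injective (algebraMap (𝓞 K) (𝓞 K')) :=
    FaithfulSMul.algebraMap_injective (𝓞 K) (𝓞 K')
  have hsurjO : Function.Surjective (algebraMap (𝓞 K) (𝓞 K')) := by
    intro x
    obtain ⟨y, hy⟩ := hsurj (x : K')
    have hyi : IsIntegral ℤ y := by
      have h2 : IsIntegral ℤ (algebraMap K K' y) := by
        rw [hy]
        exact RingOfIntegers.isIntegral_coe x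
      exact (isIntegral_algebraMap_iff (algebraMap K K').injective).1 h2
    refine ⟨⟨y, hyi⟩, ?_⟩
    apply RingOfIntegers.ext
    rw [← hy]
    rfl
  let ε₀ : 𝓞 K ≃+* 𝓞 K' := RingEquiv.ofBijective (algebraMap (𝓞 K) (𝓞 K')) ⟨hinj, hsurjO⟩
  have hr : Module.finrank (𝓞 K) (𝓞 K') = 1 := by
    rw [← h1]
    exact (IsFractionRing.finrank_eq (𝓞 K) K (𝓞 K') K').symm
  have key : ∀ J : Ideal (𝓞 K), Ideal.relNorm (𝓞 K) (J.map (algebraMap (𝓞 K) (𝓞 K'))) = J := by
    intro J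
    rw [Ideal.relNorm_algebraMap (𝓞 K') J, hr, pow_one]
  refine ⟨(ε₀.idealComapOrderIso.symm).toEquiv, fun J => ?_⟩
  have h3 : (ε₀.idealComapOrderIso.symm).toEquiv J = J.map (algebraMap (𝓞 K) (𝓞 K')) := rfl
  rw [h3]
  refine ⟨key J, ?_⟩
  rw [← Ideal.absNorm_relNorm (𝓞 K) (𝓞 K'), key J]

theorem LVP_congr {F : Type} [Field F] [NumberField F] [IQ F] (K K' : Type) [Field K] [NumberField K]
    [Algebra F K] [Field K'] [NumberField K'] [Algebra F K'] (θ : K ≃ₐ[F] K')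
    (V : ValuationSubring ℂ) (Om : ℂ) (ψ : Ideal (𝓞 F) →*₀ 𝓞 F) (h : LVP F V Om (PsiP K' ψ)) :
    LVP F V Om (PsiP K ψ) := by
  obtain ⟨Λ, h1, h2, h3⟩ := h
  letI : Algebra K K' := (θ : K →+* K').toAlgebra
  have hst : IsScalarTower F K K' := IsScalarTower.of_algebraMap_eq fun x => (θ.commutes x).symm
  have hsurj : Function.Surjective (algebraMap K K') := θ.surjective
  obtain ⟨ε, hε⟩ := pz13_equiv K K' hsurj
  refine ⟨Λ, h1, fun s hs => ?_, ?_⟩
  · have h4 := h2 s hs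
    rw [← ε.hasSum_iff] at h4
    have h5 : (H55N.tm (PsiP K' ψ) s) ∘ ε = H55N.tm (PsiP K ψ) s := by
      funext a
      obtain ⟨e1, e2⟩ := hε a
      show PsiP K' ψ (ε a) * (Ideal.absNorm (ε a) : ℂ) ^ (-s) =
        PsiP K ψ a * (Ideal.absNorm a : ℂ) ^ (-s)
      rw [PsiP_top (K := K) ψ K' (ε a), e1, e2]
    rwa [h5] at h4
  · rw [θ.toLinearEquiv.finrank_eq]
    exact h3

end H55P
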