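import Mathlib
import Pool.Agent.Lib.H55D.X3
import Pool.Agent.Lib.H55P.Sel

open NumberField IsDedekindDomain WeierstrassCurve

namespace H55P

open H55B (F O om E27)

variable {Ω : Type} [Field Ω] [Algebra F Ω] [Algebra ℚ Ω] [IsScalarTower ℚ F Ω]

/-- The field generated by K and the cube roots of unity. -/
noncomputable def KF (K : Type) [Field K] [NumberField K] (ι : K →ₐ[ℚ] Ω) : IntermediateField F Ω :=
  IntermediateField.adjoin F (Set.range ι)

/-- K as a subfield of KF. -/
noncomputable def KFmap (K : Type) [Field K] [NumberField K] (ι : K →ₐ[ℚ] Ω) : K →+* KF K ι where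
  toFun x := ⟨ι x, IntermediateField.subset_adjoin F _ ⟨x, rfl⟩⟩
  map_one' := Subtype.ext (map_one ι)
  map_mul' x y := Subtype.ext (map_mul ι x y)
  map_zero' := Subtype.ext (map_zero ι)
  map_add' x y := Subtype.ext (map_add ι x y)

/-! Chunk PZ14 (M). The composite field of K and F inside Ω.
kf_quad: z = the image of om in Ω, z^2 + z + 1 = 0, not in the range of ι. Every element of KF is ι a + ι b z: this set is a subring containing the image of F (F = ℚ + ℚ om) and the range of ι, and it is a field (finite dimensional over ι K); 1, z are independent over ι K since x^2 + x + 1 has no root in K.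
So KF has dimension 2 over K (see X3_rank, X3_range in Lib/H55D/X3.lean). The algebra structure over K is KFmap.toAlgebra.
exists_F: if x^2 + x + 1 = 0 has a root x in K then ι x is z or z^2 = -1 - z, so the image of F in Ω is contained in the range of ι; f = the composite of F → range ι and the inverse of ι.
kf_iso: with the algebra structure f.toAlgebra on K the range of ι is the carrier of KF, so KFmap is bijective and commutes with the algebra maps from F.
kf_norm: s in the group of K fixes ι K and maps z to z or z^2 (a root of x^2 + x + 1), so it maps KF to itself (adjoin induction), and s⁻¹ too; then s t s⁻¹ fixes KF if t does. -/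

theorem pz14_z_mem (K : Type) [Field K] [NumberField K] (ι : K →ₐ[ℚ] Ω) :
    H55D.X3_z Ω ∈ KF K ι := (KF K ι).algebraMap_mem _

theorem pz14_mem (K : Type) [Field K] [NumberField K] (ι : K →ₐ[ℚ] Ω) (x : K) : ι x ∈ KF K ι :=
  IntermediateField.subset_adjoin F _ ⟨x, rfl⟩

theorem kf_quad (K : Type) [Field K] [NumberField K] (ι : K →ₐ[ℚ] Ω) [NumberField (KF K ι)]
    (hn : ∀ x : K, x ^ 2 + x + 1 ≠ 0) :
    letI : Algebra K (KF K ι) := (KFmap K ι).toAlgebra
    H13E.Quad K (KF K ι) := by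
  letI : Algebra K (KF K ι) := (KFmap K ι).toAlgebra
  letI : Algebra K Ω := ι.toRingHom.toAlgebra
  refine ⟨?_, hn⟩
  have hz := H55D.X3_z_root Ω
  have h2 := H55D.X3_rank K Ω (H55D.X3_z Ω) hz hn
  -- the carriers agree
  have hle1 : ∀ x ∈ IntermediateField.adjoin K {H55D.X3_z Ω}, x ∈ KF K ι := by
    intro x hx
    refine IntermediateField.adjoin_induction K (p := fun x _ => x ∈ KF K ι) ?_ ?_ ?_ ?_ ?_ hx
    · rintro x rfl
      exact pz14_z_mem K ι
    · intro x
      exact pz14_mem K ι x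
    · intro x y _ _ h1 h2
      exact add_mem h1 h2
    · intro x _ h1
      exact inv_mem h1
    · intro x y _ _ h1 h2
      exact mul_mem h1 h2
  have hle2 : ∀ x ∈ KF K ι, x ∈ IntermediateField.adjoin K {H55D.X3_z Ω} := by
    intro x hx
    refine IntermediateField.adjoin_induction F
      (p := fun x _ => x ∈ IntermediateField.adjoin K {H55D.X3_z Ω}) ?_ ?_ ?_ ?_ ?_ hx
    · rintro _ ⟨y, rfl⟩
      exact (IntermediateField.adjoin K {H55D.X3_z Ω}).algebraMap_mem y
    · intro x
      exact H55D.X3_range K Ω _ (IntermediateField.mem_adjoin_simple_self K _) x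
    · intro x y _ _ h1 h2
      exact add_mem h1 h2
    · intro x _ h1
      exact inv_mem h1
    · intro x y _ _ h1 h2
      exact mul_mem h1 h2
  let e : IntermediateField.adjoin K {H55D.X3_z Ω} ≃ₗ[K] KF K ι :=
    { toFun := fun x => ⟨x.1, hle1 x.1 x.2⟩
      invFun := fun x => ⟨x.1, hle2 x.1 x.2⟩
      left_inv := fun x => rfl
      right_inv := fun x => rfl
      map_add' := fun x y => rfl
      map_smul' := fun c x => by
        apply Subtype.ext
        rw [Algebra.smul_def, Algebra.smul_def]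
        rfl }
  rw [← h2]
  exact (LinearEquiv.finrank_eq e).symm

/-- K and its image -/
theorem pz14_e (K : Type) [Field K] [Algebra ℚ K] (ι : K →ₐ[ℚ] Ω) :
    ∃ e : K ≃ₐ[ℚ] ι.fieldRange, ∀ x, ((e x : ι.fieldRange) : Ω) = ι x := by
  let e0 : K →+* ι.fieldRange :=
    { toFun := fun x => ⟨ι x, ⟨x, rfl⟩⟩
      map_one' := Subtype.ext (map_one ι)
      map_mul' := fun x y => Subtype.ext (map_mul ι x y)
      map_zero' := Subtype.ext (map_zero ι)
      map_add' := fun x y => Subtype.ext (map_add ι x y) }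
  have hs : Function.Surjective e0 := by
    rintro ⟨_, y, rfl⟩
    exact ⟨y, rfl⟩
  let e1 : K ≃+* ι.fieldRange := RingEquiv.ofBijective e0 ⟨e0.injective, hs⟩
  exact ⟨AlgEquiv.ofRingEquiv (f := e1) (fun q => by
    rw [eq_ratCast, map_ratCast, eq_ratCast]), fun x => rfl⟩

/-- the inverse of ι on its range -/
theorem pz14_lift (K : Type) [Field K] [NumberField K] (ι : K →ₐ[ℚ] Ω) (R : Type) [Ring R]
    (g : R →+* Ω) (hg : ∀ y, g y ∈ ι.fieldRange) : ∃ f : R →+* K, ∀ y, ι (f y) = g y := by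
  obtain ⟨e, he⟩ := pz14_e K ι
  let g' : R →+* ι.fieldRange := g.codRestrict ι.fieldRange hg
  refine ⟨(e.symm : ι.fieldRange →+* K).comp g', fun y => ?_⟩
  have h1 : e (e.symm (g' y)) = g' y := e.apply_symm_apply _
  have h2 := he (e.symm (g' y))
  rw [h1] at h2
  exact h2.symm

theorem exists_F (K : Type) [Field K] [NumberField K] (ι : K →ₐ[ℚ] Ω) (x : K)
    (hx : x ^ 2 + x + 1 = 0) : ∃ f : F →+* K, ∀ y : F, ι (f y) = algebraMap F Ω y := by
  refine pz14_lift K ι F (algebraMap F Ω) fun y => ?_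
  refine H55D.X3_range ℚ Ω ι.fieldRange ?_ y
  have hz := H55D.X3_z_root Ω
  have h1 : ι x ^ 2 + ι x + 1 = 0 := by
    have h := congrArg ι hx
    simpa only [map_add, map_pow, map_one, map_zero] using h
  have h2 : (H55D.X3_z Ω - ι x) * (H55D.X3_z Ω + ι x + 1) = 0 := by linear_combination hz - h1
  rcases mul_eq_zero.1 h2 with h | h
  · exact ⟨x, (sub_eq_zero.1 h).symm⟩
  · refine ⟨-x - 1, ?_⟩
    have h3 : H55D.X3_z Ω = -ι x - 1 := by linear_combination h
    rw [h3]
    change ι (-x - 1) = _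
    rw [map_sub, map_neg, map_one]

theorem kf_iso (K : Type) [Field K] [NumberField K] (ι : K →ₐ[ℚ] Ω) (f : F →+* K)
    (hf : ∀ y : F, ι (f y) = algebraMap F Ω y) :
    letI : Algebra F K := f.toAlgebra
    Nonempty (K ≃ₐ[F] KF K ι) := by
  letI : Algebra F K := f.toAlgebra
  let g : K →ₐ[F] KF K ι :=
    { KFmap K ι with
      commutes' := fun y => Subtype.ext (hf y) }
  have hsurj : Function.Surjective g := by
    rintro ⟨x, hx⟩
    have h1 : ∃ y : K, ι y = x := by
      refine IntermediateField.adjoin_induction F (p := fun x _ => ∃ y : K, ι y = x) ?_ ?_ ?_ ?_ ?_ hx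
      · rintro _ ⟨y, rfl⟩
        exact ⟨y, rfl⟩
      · intro x
        exact ⟨f x, hf x⟩
      · rintro x y _ _ ⟨a, rfl⟩ ⟨b, rfl⟩
        exact ⟨a + b, map_add ι a b⟩
      · rintro x _ ⟨a, rfl⟩
        exact ⟨a⁻¹, map_inv₀ ι a⟩
      · rintro x y _ _ ⟨a, rfl⟩ ⟨b, rfl⟩
        exact ⟨a * b, map_mul ι a b⟩
    obtain ⟨y, hy⟩ := h1
    exact ⟨y, Subtype.ext hy⟩
  exact ⟨AlgEquiv.ofBijective g ⟨g.toRingHom.injective, hsurj⟩⟩

theorem pz14_stable (K : Type) [Field K] [NumberField K] (ι : K →ₐ[ℚ] Ω)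
    (s : Ω ≃ₐ[ℚ] Ω) (hs : ∀ x : K, s (ι x) = ι x) (y : Ω) (hy : y ∈ KF K ι) : s y ∈ KF K ι := by
  have hz := H55D.X3_z_root Ω
  have hsz : s (H55D.X3_z Ω) ∈ KF K ι := by
    have h1 : s (H55D.X3_z Ω) ^ 2 + s (H55D.X3_z Ω) + 1 = 0 := by
      have h := congrArg s hz
      simpa only [map_add, map_pow, map_one, map_zero] using h
    have h2 : (s (H55D.X3_z Ω) - H55D.X3_z Ω) * (s (H55D.X3_z Ω) + H55D.X3_z Ω + 1) = 0 := by
      linear_combination h1 - hz
    have hzm := pz14_z_mem K ι
    rcases mul_eq_zero.1 h2 with h | h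
    · rw [sub_eq_zero.1 h]
      exact hzm
    · have h3 : s (H55D.X3_z Ω) = -H55D.X3_z Ω - 1 := by linear_combination h
      rw [h3]
      exact sub_mem (neg_mem hzm) (one_mem _)
  refine IntermediateField.adjoin_induction F (p := fun x _ => s x ∈ KF K ι) ?_ ?_ ?_ ?_ ?_ hy
  · rintro _ ⟨x, rfl⟩
    rw [hs x]
    exact pz14_mem K ι x
  · intro x
    let S : IntermediateField ℚ Ω := ((KF K ι).restrictScalars ℚ).comap s.toAlgHom
    have h1 : algebraMap F Ω x ∈ S := H55D.X3_range ℚ Ω S hsz x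
    exact h1
  · intro x y _ _ h1 h2
    rw [map_add]
    exact add_mem h1 h2
  · intro x _ h1
    rw [map_inv₀]
    exact inv_mem h1
  · intro x y _ _ h1 h2
    rw [map_mul]
    exact mul_mem h1 h2

theorem kf_norm (K : Type) [Field K] [NumberField K] (ι : K →ₐ[ℚ] Ω)
    (s : Ω ≃ₐ[ℚ] Ω) (hs : s ∈ ι.fieldRange.fixingSubgroup) (t : Ω ≃ₐ[ℚ] Ω)
    (ht : t ∈ ((KF K ι).restrictScalars ℚ).fixingSubgroup) :
    s * t * s⁻¹ ∈ ((KF K ι).restrictScalars ℚ).fixingSubgroup := by
  rw [IntermediateField.mem_fixingSubgroup_iff] at hs ht ⊢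
  intro y hy
  have hs' : ∀ x : K, s⁻¹ (ι x) = ι x := by
    intro x
    have h1 : s (ι x) = ι x := hs (ι x) ⟨x, rfl⟩
    have h2 : s⁻¹ (s (ι x)) = ι x := s.symm_apply_apply _
    rwa [h1] at h2
  have h1 : s⁻¹ y ∈ KF K ι := pz14_stable K ι s⁻¹ hs' y hy
  have h2 : t (s⁻¹ y) = s⁻¹ y := ht (s⁻¹ y) h1
  change s (t (s⁻¹ y)) = y
  rw [h2]
  exact s.apply_symm_apply _

theorem kf_le (K : Type) [Field K] [NumberField K] (ι : K →ₐ[ℚ] Ω) :
    ι.fieldRange ≤ (KF K ι).restrictScalars ℚ := by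
  rintro _ ⟨x, rfl⟩
  exact pz14_mem K ι x

/-- The groups of points over K and over its image. -/
theorem pts_congr (W : WeierstrassCurve ℚ) (K : Type) [Field K] [Algebra ℚ K] (ι : K →ₐ[ℚ] Ω) (p : ℕ)
    (h : Finite (Pt W ι.fieldRange) ∧ ¬ p ∣ Nat.card (Pt W ι.fieldRange)) :
    Finite (Pt W K) ∧ ¬ p ∣ Nat.card (Pt W K) := by
  classical
  obtain ⟨e, -⟩ := pz14_e K ι
  have h1 : Function.Injective (Affine.Point.map (W' := W.toAffine) e.toAlgHom) :=
    Affine.Point.map_injective _
  have h2 : Function.Injective (Affine.Point.map (W' := W.toAffine) e.symm.toAlgHom) :=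
    Affine.Point.map_injective _
  have hf : Finite (Pt W K) := by
    have := h.1
    exact Finite.of_injective _ h1
  refine ⟨hf, ?_⟩
  have := h.1
  have h3 : Nat.card (Pt W K) = Nat.card (Pt W ι.fieldRange) :=
    le_antisymm (Nat.card_le_card_of_injective _ h1) (Nat.card_le_card_of_injective _ h2)
  rw [h3]
  exact h.2

end H55P
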