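import Mathlib
import Pool.Agent.Lib.H55D.QA
import Pool.Agent.Lib.H55P.Z6

open NumberField IsDedekindDomain WeierstrassCurve

namespace H55P

open H55N
open H55B (F O om e emb Prim R E27)

/-! Chunk PZ7 (M). The L-function over a field K₀ which does not contain the cube roots of unity, K = K₀(om) (H13E.Quad K₀ K).
PORTS, UnrOut K replaced by H35N.Unr3 K (it is only used through val_three: val_threeU in Z6.lean): val0_threeU of val0_three (Lib/H55D/Q5.lean), LEF_badU of LEF_bad, LFun_sqU of LFun_sq (Q6.lean), LFunU0 of LFun0 (QA.lean: uses LFunction_Psi: LFunctionU here).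
L_valU0: PORT of L_val0 (V.lean), with the choice of Λ and of V as in L_valU; OmE = e(2 om + 1) R0 and e(2 om + 1) is a unit at V for p >= 5 (its square is -3). -/

variable {K₀ K : Type} [Field K₀] [NumberField K₀] [Field K] [NumberField K] [Algebra F K]
  [Algebra K₀ K]

theorem val0_threeU (hU : H35N.Unr3 K)
    (w' : HeightOneSpectrum (𝓞 K₀)) (h3 : (3 : 𝓞 K₀) ∈ w'.asIdeal) :
    w'.valuation K₀ (3 : K₀) = WithZero.exp (-1 : ℤ) ∨
      w'.valuation K₀ (3 : K₀) = WithZero.exp (-2 : ℤ) := by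
  obtain ⟨w, e, hw, he, hv⟩ := H13E.q5_above K w'
  have h1 := val_threeU hU w ((H13E.q5_mem w' w hw 3).1 h3)
  have h4 := hv 3
  rw [map_ofNat, h1] at h4
  obtain ⟨k, hk, hk2⟩ := H13E.q5_val w' three_ne_zero h4
  have h5 : (e : ℤ) ∣ 2 := ⟨-k, by linear_combination -hk2⟩
  have h6 := Int.le_of_dvd two_pos h5
  have h7 : (e : ℤ) = 1 ∨ (e : ℤ) = 2 := by omega
  rcases h7 with h7 | h7 <;> rw [h7] at hk2
  · right
    rw [hk]
    congr 1
    omega
  · left
    rw [hk]
    congr 1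
    omega

theorem pz7_bad (hU : H35N.Unr3 K)
    (w' : HeightOneSpectrum (𝓞 K₀)) (h : (3 : 𝓞 K₀) ∈ w'.asIdeal) : H55C.LEF K₀ w' = 1 := by
  have h27 : (27 : K₀) = 3 ^ 3 := by norm_num
  rcases val0_threeU hU w' h with h3 | h3
  · apply H55D.DQ5_bad K₀ w' (-3) (by intro k; omega)
    rw [h27, map_pow, h3, ← WithZero.exp_nsmul]
    norm_num
  · apply H55D.DQ5_bad K₀ w' (-6) (by intro k; omega)
    rw [h27, map_pow, h3, ← WithZero.exp_nsmul]
    norm_num

theorem pz7_badK (hU : H35N.Unr3 K) (w : HeightOneSpectrum (𝓞 K)) (h : (3 : 𝓞 K) ∈ w.asIdeal) :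
    H55C.LEF K w = 1 :=
  H55B.I2_local_bad w (val_threeU hU w h)

theorem pz7_sq (hQ : H13E.Quad K₀ K) (hU : H35N.Unr3 K) (n : ℕ) :
    (((E27.baseChange K).LFunction n : ℤ) : ℂ) =
      ((((E27.baseChange K₀).LFunction : ArithmeticFunction ℤ) : ArithmeticFunction ℂ) *
        (((E27.baseChange K₀).LFunction : ArithmeticFunction ℤ) : ArithmeticFunction ℂ)) n := by
  classical
  obtain ⟨s0, hs0⟩ := Filter.eventually_atTop.1 (H55D.DQ6_ev K n)
  have hR : ∀ᶠ t : Finset (HeightOneSpectrum (𝓞 K₀)) in Filter.atTop,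
      ∀ m ∈ Finset.range (n + 1),
      (∏ w ∈ t, H55C.LEF K₀ w) m = (((E27.baseChange K₀).LFunction m : ℤ) : ℂ) := by
    rw [Filter.eventually_all_finset]
    intro m _
    exact H55D.DQ6_ev K₀ m
  obtain ⟨t0, ht0⟩ := Filter.eventually_atTop.1 hR
  set ov : HeightOneSpectrum (𝓞 K₀) → Finset (HeightOneSpectrum (𝓞 K)) :=
    fun v => (H13E.q6_fin K v).toFinset with hov
  have hmo : ∀ v w, w ∈ ov v ↔ v.asIdeal = w.asIdeal.under (𝓞 K₀) := by
    intro v w
    simp [hov]
  set t : Finset (HeightOneSpectrum (𝓞 K₀)) := t0 ∪ s0.image (H13E.q6_under K₀) with ht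
  set T : Finset (HeightOneSpectrum (𝓞 K)) := t.biUnion ov with hTdef
  have hsub : s0 ⊆ T := by
    intro w hw
    rw [hTdef, Finset.mem_biUnion]
    refine ⟨H13E.q6_under K₀ w, Finset.mem_union_right _ (Finset.mem_image_of_mem _ hw), ?_⟩
    rw [hmo]
    rfl
  rw [← hs0 T hsub, hTdef, Finset.prod_biUnion]
  · have h2 : ∀ v ∈ t, ∏ w ∈ ov v, H55C.LEF K w = H55C.LEF K₀ v * H55C.LEF K₀ v := by
      intro v _
      by_cases hb : (3 : 𝓞 K₀) ∈ v.asIdeal
      · rw [pz7_bad hU v hb, mul_one]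
        apply Finset.prod_eq_one
        intro w hw
        rw [hmo] at hw
        exact pz7_badK hU w ((H13E.q5_mem v w hw 3).1 hb)
      · exact H55D.LEF_sq hQ v hb (ov v) (hmo v)
    rw [Finset.prod_congr rfl h2, Finset.prod_mul_distrib]
    have hts : t0 ⊆ t := Finset.subset_union_left
    refine H55B.I2_mul_congr ?_ ?_ n le_rfl
    · intro m hm
      rw [ht0 t hts m (Finset.mem_range.2 (by omega)), ArithmeticFunction.intCoe_apply]
    · intro m hm
      rw [ht0 t hts m (Finset.mem_range.2 (by omega)), ArithmeticFunction.intCoe_apply]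
  · intro v _ v' _ hne
    rw [Function.onFun, Finset.disjoint_left]
    intro w hw hw'
    rw [hmo] at hw hw'
    apply hne
    apply HeightOneSpectrum.ext
    rw [hw, hw']

theorem LFunU0 (hQ : H13E.Quad K₀ K) (hU : H35N.Unr3 K) (n : ℕ) :
    (((E27.baseChange K₀).LFunction n : ℤ) : ℂ) = AI (Psi K) n := by
  have hf1 : (((E27.baseChange K₀).LFunction : ArithmeticFunction ℤ) : ArithmeticFunction ℂ) 1 = 1 := by
    rw [ArithmeticFunction.intCoe_apply]
    exact H55D.DQA_LFun_one K₀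
  have hsq : ∀ m, ((((E27.baseChange K₀).LFunction : ArithmeticFunction ℤ) : ArithmeticFunction ℂ) *
      (((E27.baseChange K₀).LFunction : ArithmeticFunction ℤ) : ArithmeticFunction ℂ)) m =
      (AI (Psi K) * AI (Psi K)) m := by
    intro m
    rw [← pz7_sq hQ hU m, LFunctionU K hU m, H55D.AI_real hQ]
  have hfg := H13E.sqrt_unique hf1 (g := AI (Psi K)) H55D.DQA_AI_one hsq
  rw [← hfg, ArithmeticFunction.intCoe_apply]

/-- the square of e(2 om + 1) is -3 -/
theorem pz7_sq3 : e (2 * om + 1) ^ 2 = -3 := by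
  have h1 : (2 * om + 1 : O) ^ 2 = -3 := by
    have := H55B.om_rel
    linear_combination 4 * this
  rw [← map_pow, h1, map_neg, map_ofNat]

/-- 3 is a unit above p -/
theorem pz7_three {p : ℕ} (hp : p.Prime) (h5 : 5 ≤ p) (V : ValuationSubring ℂ)
    (hV : V.valuation (p : ℂ) < 1) : V.valuation (3 : ℂ) = 1 := by
  have hcop : IsCoprime (p : ℤ) 3 := by
    have h1 : Nat.Coprime p 3 := by
      rw [Nat.coprime_primes hp Nat.prime_three]
      omega
    have h2 := Nat.isCoprime_iff_coprime.2 h1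
    exact_mod_cast h2
  obtain ⟨a, b, hab⟩ := hcop
  have hint : ∀ z : ℤ, V.valuation (z : ℂ) ≤ 1 := fun z => by
    rw [ValuationSubring.valuation_le_one_iff]
    exact intCast_mem V z
  have h3 : V.valuation (3 : ℂ) ≤ 1 := by
    have := hint 3
    exact_mod_cast this
  refine le_antisymm h3 (not_lt.1 fun hlt => ?_)
  have h4 : ((a : ℂ) * (p : ℂ) + (b : ℂ) * 3) = 1 := by exact_mod_cast hab
  have h6 : V.valuation ((a : ℂ) * (p : ℂ) + (b : ℂ) * 3) < 1 := by
    apply Valuation.map_add_lt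
    · rw [map_mul]
      exact (mul_le_of_le_one_left' (hint a)).trans_lt hV
    · rw [map_mul]
      exact (mul_le_of_le_one_left' (hint b)).trans_lt hlt
  rw [h4, map_one] at h6
  exact lt_irrefl _ h6

theorem pz7_val {p : ℕ} (hp : p.Prime) (h5 : 5 ≤ p) (V : ValuationSubring ℂ)
    (hV : V.valuation (p : ℂ) < 1) : V.valuation (e (2 * om + 1)) = 1 := by
  have h1 : V.valuation (e (2 * om + 1)) ^ 2 = 1 := by
    rw [← map_pow, pz7_sq3, Valuation.map_neg]
    exact pz7_three hp h5 V hV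
  exact (pow_eq_one_iff_of_nonneg zero_le two_ne_zero).1 h1

theorem L_valU0 (hQ : H13E.Quad K₀ K) (hU : H35N.Unr3 K) (p : ℕ) (hp : p.Prime) (h5 : 5 ≤ p)
    (h : ∀ V : ValuationSubring ℂ, V.valuation (p : ℂ) < 1 → LVP F V OmE (PsiP K psiE)) :
    ∃ Λ : ℂ → ℂ, AnalyticOnNhd ℂ Λ {s | 1 / 2 < s.re} ∧
      (∀ s : ℂ, 3 / 2 < s.re →
        LSeriesSummable (fun n => (((E27.baseChange K₀).LFunction n : ℤ) : ℂ)) s ∧
        Λ s = (E27.baseChange K₀).LSeries s) ∧ Λ 1 ≠ 0 ∧
      UnitP p (Λ 1 / R0 ^ Module.finrank F K) := by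
  obtain ⟨Λ, hA, hsum', hval⟩ := pz6_glue hp h
  have hsum : ∀ s : ℂ, 3 / 2 < s.re → HasSum (tm (Psi K) s) (Λ s) := fun s hs => hsum' s hs
  refine ⟨Λ, hA, ?_, (div_ne_zero_iff.1 (pz6_ne hp hval)).1, ?_⟩
  · intro s hs
    have h0 : Psi K ⊥ = 0 := (Psi K).map_zero
    have h1 := AI_LSeries (fun a => Psi K a) h0 s
      (tm_summable (fun a => Psi K a) Psi_norm_le s hs)
    have h2 : ∑' a : Ideal (𝓞 K), tm (fun a => Psi K a) s a = Λ s := (hsum s hs).tsum_eq
    rw [h2] at h1
    have key : LSeriesHasSum (fun n => (((E27.baseChange K₀).LFunction n : ℤ) : ℂ)) s (Λ s) := by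
      have e1 : (fun n => (((E27.baseChange K₀).LFunction n : ℤ) : ℂ)) =
          fun n => AI (fun a => Psi K a) n := by
        funext n
        exact LFunU0 hQ hU n
      rw [e1]
      exact h1
    exact ⟨key.LSeriesSummable, key.LSeries_eq.symm⟩
  · intro V hV
    have h1 := hval V hV
    have h2 : Λ 1 / R0 ^ Module.finrank F K =
        Λ 1 / OmE ^ Module.finrank F K * e (2 * om + 1) ^ Module.finrank F K := by
      unfold OmE
      have h3 : e (2 * om + 1) ≠ 0 := by
        intro h0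
        have := pz7_sq3
        rw [h0] at this
        norm_num at this
      rw [mul_pow, div_mul_eq_div_div, div_right_comm, div_mul_cancel₀ _ (pow_ne_zero _ h3)]
    rw [h2, map_mul, h1, map_pow, pz7_val hp h5 V hV, one_pow, one_mul]

end H55P
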