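import Mathlib
import Pool.Agent.Lib.H55D.T4
import Pool.Agent.Lib.H55N.E5
import Pool.Agent.Lib.H55P.EDef
import Pool.Agent.Lib.H55P.ZD

open NumberField IsDedekindDomain

namespace H55P

open H55N
open H55B (F O om e emb Prim R LL wp)

/-! Chunk PZ2 (M). The period of y^2 + y = x^3, that is y^2 = x^3 + 1/4 after completing the square.
The lattice LF F (H55P/F0.lean) is the lattice of integers O (LF_mem or so), LL of H55B/A0.lean is 3 O, so G_n(LF F) = 3^n G_n(LL) (W1_scale, W1_G of H55C/W1.lean with c = 3 and the uniqueness of the lattice / equality of the sums over equal lattices: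
if the lattices of two period pairs agree then g₂, g₃ agree, they are sums over the lattice). g₂(LL) = 0 (g2_zero), g₃(LL) = wp(1)^3 (A3_g3), so g₃(LF F) = 3^6 wp(1)^3. R0^2 = 3 wp(1) (W2_R0_sq), e(2 om + 1)^2 = -3, so OmE^6 = -27 * 27 wp(1)^3 = -3^6 wp(1)^3.
Per: g₂ = 0, g₃ = -4 (1/4) OmE^6.
periodE: |OmE|^2 = 3 |R0|^2 = 9 |wp 1|; Om L = 9 sqrt 3 |wp 1| for the lattice with g₂ = 0, g₃ = -1 (exists_period in W2.lean and lattice_unique, Om_lattice as in W6.lean; or the formulas of H55D/T4.lean: Omr_eq), so the quotient is 1/sqrt 3, a unit outside 3.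
R0_Omr_P: PORT of R0_Omr of H55D/T4.lean: some power of R0/Omr is a power of 3 (see the proof there): a unit at V with V(3) = 1. -/

theorem PZ2_sq3 : e (2 * om + 1) ^ 2 = -3 := by
  have h2 : (2 * om + 1 : O) ^ 2 = -3 := by linear_combination 4 * H55B.om_rel
  rw [← map_pow, h2, map_neg, map_ofNat]

theorem PZ2_G (L L' : PeriodPair) (h : L.lattice = L'.lattice) (n : ℕ) : L.G n = L'.G n := by
  unfold PeriodPair.G
  rw [h]

theorem PZ2_lattice : (LF F).lattice =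
    (H55C.W1_L LL (3 : ℂ)⁻¹ (inv_ne_zero (by norm_num))).lattice := by
  ext z
  rw [mem_LF, PeriodPair.mem_lattice]
  constructor
  · rintro ⟨y, rfl⟩
    obtain ⟨a, b, hab⟩ := H55B.exists_repr y
    refine ⟨a, b, ?_⟩
    show (a : ℂ) * ((3 : ℂ)⁻¹ * 3) + (b : ℂ) * ((3 : ℂ)⁻¹ * (3 * e om)) = e y
    rw [hab, map_add, map_mul, map_intCast, map_intCast]
    ring
  · rintro ⟨m, n, h⟩
    refine ⟨m + n * om, ?_⟩
    rw [← h]
    show (m : ℂ) * ((3 : ℂ)⁻¹ * 3) + (n : ℂ) * ((3 : ℂ)⁻¹ * (3 * e om)) = e (m + n * om)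
    rw [map_add, map_mul, map_intCast, map_intCast]
    ring

theorem PZ2_GLF (n : ℕ) : (LF F).G n = 3 ^ n * LL.G n := by
  rw [PZ2_G _ _ PZ2_lattice, H55C.W1_G, inv_pow, inv_inv]

theorem PZ2_exists : ∃ L : PeriodPair, L.g₂ = 0 ∧ L.g₃ = -1 ∧
    (R (e om - 1) * (starRingEnd ℂ) (R (e om - 1)) / (H55C.Om L : ℂ)) ^ 2 * 27 = 1 := by
  have hp := H55B.A3_wp_one_ne
  obtain ⟨c, hc⟩ := IsAlgClosed.exists_pow_nat_eq (-(wp 1 ^ 3)) (n := 6) (by norm_num)
  have hc0 : c ≠ 0 := by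
    rintro rfl
    rw [zero_pow (by norm_num)] at hc
    exact pow_ne_zero 3 hp (by linear_combination hc)
  obtain ⟨L, h1, h2, h3⟩ := H55C.W1_scale LL c hc0
  refine ⟨L, ?_, ?_, ?_⟩
  · rw [h1, H55B.g2_zero, mul_zero]
  · rw [h2, H55B.A3_g3, hc]
    have := pow_ne_zero 3 hp
    field_simp
  · have hcn : ‖c‖ ^ 2 = ‖wp 1‖ := by
      have h4 := congrArg norm hc
      rw [norm_pow, norm_neg, norm_pow] at h4
      have h5 : (‖c‖ ^ 2) ^ 3 = ‖wp 1‖ ^ 3 := by rw [← h4]; ring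
      exact (pow_left_inj₀ (by positivity) (by positivity) (by norm_num)).1 h5
    have hR : ‖R (e om - 1)‖ ^ 2 = 3 * ‖wp 1‖ := by
      rw [← norm_pow, H55C.W2_R0_sq, norm_mul]
      norm_num
    set z : ℂ := R (e om - 1) * (starRingEnd ℂ) (R (e om - 1)) / (H55C.Om L : ℂ) with hz
    have him := H55B.A0_im
    have himne : |(e om).im| ≠ 0 := abs_ne_zero.2 H55B.A0_im_ne
    have hpn : ‖wp 1‖ ≠ 0 := norm_ne_zero_iff.2 hp
    have hz2 : z = ((1 / (6 * |(e om).im|) : ℝ) : ℂ) := by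
      rw [hz, Complex.mul_conj, Complex.normSq_eq_norm_sq, hR, h3, hcn, H55C.W2_Om_LL,
        ← Complex.ofReal_div]
      congr 1
      field_simp
      norm_num
    rw [hz2, ← Complex.ofReal_pow]
    have h4 : (1 / (6 * |(e om).im|)) ^ 2 * 27 = (1 : ℝ) := by
      rw [div_pow, mul_pow, sq_abs, him]
      norm_num
    exact_mod_cast h4

theorem PZ2_sq (L : PeriodPair) (g2 : L.g₂ = 0) (g3 : L.g₃ = -1) :
    (R0 * (starRingEnd ℂ) R0 / (H55C.Om L : ℂ)) ^ 2 * 27 = 1 := by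
  obtain ⟨L', h2', h3', h⟩ := PZ2_exists
  rw [H55C.Om_lattice L L' (H55C.lattice_unique L L' (g2.trans h2'.symm) (g3.trans h3'.symm))]
  exact h

theorem perE : Per F 0 (1 / 4) OmE := by
  refine ⟨?_, ?_, ?_⟩
  · unfold OmE
    refine mul_ne_zero ?_ E5_R0.2
    intro h
    have h1 := PZ2_sq3
    rw [h] at h1
    norm_num at h1
  · unfold PeriodPair.g₂
    rw [PZ2_GLF]
    have h := H55B.g2_zero
    unfold PeriodPair.g₂ at h
    linear_combination 81 * h
  · unfold PeriodPair.g₃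
    rw [PZ2_GLF]
    have h := H55B.A3_g3
    unfold PeriodPair.g₃ at h
    have h1 : OmE ^ 6 = -729 * wp 1 ^ 3 := by
      have h2 : OmE ^ 6 = (e (2 * om + 1) ^ 2) ^ 3 * (R (e om - 1) ^ 2) ^ 3 := by
        unfold OmE R0
        ring
      rw [h2, PZ2_sq3, H55C.W2_R0_sq]
      ring
    rw [h1]
    linear_combination 729 * h

theorem periodE (V : ValuationSubring ℂ) (h3 : V.valuation 3 = 1) (L : PeriodPair) (g2 : L.g₂ = 0)
    (g3 : L.g₃ = -1) :
    V.valuation (OmE * (starRingEnd ℂ) OmE / (H55C.Om L : ℂ)) = 1 := by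
  have h1 := PZ2_sq L g2 g3
  have h2 : e (2 * om + 1) * (starRingEnd ℂ) (e (2 * om + 1)) = 3 := by
    rw [Complex.mul_conj, Complex.normSq_apply]
    have h4 : e (2 * om + 1) = 2 * e om + 1 := by
      rw [map_add, map_mul, map_ofNat, map_one]
    have hre : (e (2 * om + 1)).re = 0 := by
      rw [h4]
      simp [Complex.add_re, Complex.mul_re, H55B.e_om_re]
      norm_num
    have him : (e (2 * om + 1)).im = 2 * (e om).im := by
      rw [h4]
      simp [Complex.add_im, Complex.mul_im]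
    have h5 := H55B.A0_im
    have h6 : (e (2 * om + 1)).re * (e (2 * om + 1)).re +
        (e (2 * om + 1)).im * (e (2 * om + 1)).im = 3 := by
      rw [hre, him]
      linear_combination 4 * h5
    rw [h6]
    norm_num
  have h4 : (OmE * (starRingEnd ℂ) OmE / (H55C.Om L : ℂ)) ^ 2 * 3 = 1 := by
    have h5 : OmE * (starRingEnd ℂ) OmE / (H55C.Om L : ℂ) =
        3 * (R0 * (starRingEnd ℂ) R0 / (H55C.Om L : ℂ)) := by
      unfold OmE
      rw [map_mul, ← h2]
      ring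
    rw [h5]
    linear_combination h1
  have h5 := congrArg V.valuation h4
  rw [map_mul, map_pow, map_one, h3, mul_one] at h5
  exact (pow_eq_one_iff_of_nonneg zero_le two_ne_zero).1 h5

theorem R0_Omr_P (V : ValuationSubring ℂ) (h3 : V.valuation 3 = 1) (L : PeriodPair) (g2 : L.g₂ = 0)
    (g3 : L.g₃ = -1) : V.valuation (R0 / (H55D.Omr L : ℂ)) = 1 ∧
      V.valuation (R0 ^ 2 / (H55C.Om L : ℂ)) = 1 := by
  obtain ⟨hpos, hOm⟩ := H55D.Omr_eq L g2 g3
  have h1 := PZ2_sq L g2 g3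
  have hreal : (starRingEnd ℂ) R0 = R0 := H13E.R_real
  rw [hreal] at h1
  have h1' : V.valuation (R0 ^ 2 / (H55C.Om L : ℂ)) = 1 := by
    have h5 := congrArg V.valuation h1
    have h27 : V.valuation (27 : ℂ) = 1 := by
      have h6 : (27 : ℂ) = 3 ^ 3 := by norm_num
      rw [h6, map_pow, h3, one_pow]
    rw [map_mul, map_pow, map_one, h27, mul_one, ← sq] at h5
    exact (pow_eq_one_iff_of_nonneg zero_le two_ne_zero).1 h5
  refine ⟨?_, h1'⟩
  have hO : (H55D.Omr L : ℂ) ≠ 0 := by exact_mod_cast hpos.ne'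
  have hs3 : ((Real.sqrt 3 : ℝ) : ℂ) ^ 2 = 3 := by
    rw [← Complex.ofReal_pow, Real.sq_sqrt (by norm_num)]
    norm_num
  have hs0 : ((Real.sqrt 3 : ℝ) : ℂ) ≠ 0 := by
    intro h
    rw [h] at hs3
    norm_num at hs3
  have hOm0 : (H55C.Om L : ℂ) ≠ 0 := by
    intro h
    have h5 : ((Real.sqrt 3 * H55C.Om L : ℝ) : ℂ) = ((H55D.Omr L ^ 2 : ℝ) : ℂ) := by rw [hOm]
    push_cast at h5
    rw [h, mul_zero] at h5
    exact pow_ne_zero 2 hO h5.symm
  have hOmc : (H55D.Omr L : ℂ) ^ 2 = ((Real.sqrt 3 : ℝ) : ℂ) * (H55C.Om L : ℂ) := by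
    have h5 : ((Real.sqrt 3 * H55C.Om L : ℝ) : ℂ) = ((H55D.Omr L ^ 2 : ℝ) : ℂ) := by rw [hOm]
    push_cast at h5
    exact h5.symm
  have e1 : (R0 / (H55D.Omr L : ℂ)) ^ 4 = (R0 ^ 2 / (H55C.Om L : ℂ)) ^ 2 * (3 : ℂ)⁻¹ := by
    have e2 : (R0 / (H55D.Omr L : ℂ)) ^ 4 = (R0 ^ 2 / (H55D.Omr L : ℂ) ^ 2) ^ 2 := by
      field_simp
    rw [e2, hOmc, div_pow, div_pow, mul_pow, hs3]
    field_simp
  have h5 := congrArg V.valuation e1
  rw [map_pow, map_mul, map_pow, h1', one_pow, one_mul, map_inv₀, h3, inv_one] at h5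
  exact (pow_eq_one_iff_of_nonneg zero_le (by norm_num)).1 h5

/-- The square root of -3 is a unit outside 3. -/
theorem sq3_unit (V : ValuationSubring ℂ) (h3 : V.valuation 3 = 1) : V.valuation (e (2 * om + 1)) = 1 := by
  have h2 : V.valuation (e (2 * om + 1)) ^ 2 = 1 := by
    rw [← map_pow, PZ2_sq3, Valuation.map_neg, h3]
  exact (pow_eq_one_iff_of_nonneg zero_le two_ne_zero).1 h2

end H55P
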