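import Mathlib
import Pool.Agent.Lib.H55D.T2
import Pool.Agent.Lib.H55P.L1
import Pool.Agent.Lib.H55P.Z6

open NumberField IsDedekindDomain WeierstrassCurve

namespace H55P

open H55N
open H55B (F O om e emb Prim R E27)

/-! Chunk PZ8 (M). Tamagawa numbers and discriminant.
tam_prodU: PORT of tam0_prod, tam0_three, tam0_one of Lib/H55D/T2.lean: the index is 1 for w' not above 3; above 3 it divides the index over K (index_dvd of T1.lean) which divides 3 (in W12_index of Lib/H55C/W12.lean the proof shows that the index divides 3: h3'), with val_threeU (Z6.lean) in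
place of val_three. So all Tamagawa numbers divide 3 and the product is a unit at V, V(3) = 1 (finprod_induction).
discr_unit: p does not divide the discriminant of K₀: NumberField.not_dvd_discr_iff_forall_mem and UnrP p K (squarefree (p) in K; the ramification index over ℤ of a prime P of K₀ above p is at most the one of a prime of K above P, Ideal.ramificationIdx_tower; see odd_discr in Lib/H55C/W7.lean,
odd_discr0 in Lib/H55D/Q5.lean). Then sqrt |D| is a unit at V (its square is a natural number prime to p; W13_sqrt in Lib/H55C/W13.lean). -/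


variable {K₀ K : Type} [Field K₀] [NumberField K₀] [Field K] [NumberField K] [Algebra F K]
  [Algebra K₀ K]

theorem PZ8_index {A : Type*} [AddCommGroup A] (H : AddSubgroup A) (T : A) (h3 : 3 • T = 0)
    (h : ∀ P, P ∈ H ∨ P - T ∈ H ∨ P + T ∈ H) : H.index ∣ 3 := by
  have h1 : AddSubgroup.zmultiples (QuotientAddGroup.mk T : A ⧸ H) = ⊤ := by
    rw [eq_top_iff]
    intro q _
    obtain ⟨P, rfl⟩ := QuotientAddGroup.mk_surjective q
    rw [AddSubgroup.mem_zmultiples_iff]
    rcases h P with hP | hP | hP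
    · exact ⟨0, by rw [zero_smul]; exact ((QuotientAddGroup.eq_zero_iff P).2 hP).symm⟩
    · refine ⟨1, ?_⟩
      rw [one_smul]
      have h2 := (QuotientAddGroup.eq_zero_iff (P - T)).2 hP
      rw [QuotientAddGroup.mk_sub] at h2
      exact (sub_eq_zero.1 h2).symm
    · refine ⟨-1, ?_⟩
      rw [neg_smul, one_smul]
      have h2 := (QuotientAddGroup.eq_zero_iff (P + T)).2 hP
      rw [QuotientAddGroup.mk_add] at h2
      exact (eq_neg_of_add_eq_zero_left h2).symm
  have h2 : H.index = addOrderOf (QuotientAddGroup.mk T : A ⧸ H) := by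
    rw [← Nat.card_zmultiples, h1, AddSubgroup.card_top]
    rfl
  rw [h2]
  apply addOrderOf_dvd_of_nsmul_eq_zero
  rw [← QuotientAddGroup.mk_nsmul, h3]
  rfl

theorem PZ8_tamK (K : Type) [Field K] [NumberField K] [Algebra F K] (hK : H35N.Unr3 K)
    (w : HeightOneSpectrum (𝓞 K)) (h : (3 : 𝓞 K) ∈ w.asIdeal) : H55C.tam K w ∣ 3 := by
  classical
  obtain ⟨T, h3, hT⟩ := H55C.cosets K w (val_threeU hK w h)
  unfold H55C.tam
  refine PZ8_index _ T h3 fun P => ?_
  rcases hT P with h1 | h1 | h1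
  · exact Or.inl (AddSubgroup.subset_closure h1)
  · exact Or.inr (Or.inl (AddSubgroup.subset_closure h1))
  · exact Or.inr (Or.inr (AddSubgroup.subset_closure h1))

theorem PZ8_tam0 (K : Type) [Field K] [NumberField K] [Algebra F K] [Algebra K₀ K] (hU : H35N.Unr3 K)
    (w' : HeightOneSpectrum (𝓞 K₀)) (h : (3 : 𝓞 K₀) ∈ w'.asIdeal) : H55D.tam K₀ w' ∣ 3 := by
  classical
  obtain ⟨Q, hQ, hQl⟩ := Ideal.exists_maximal_ideal_liesOver_of_isIntegral (S := 𝓞 K) w'.asIdeal
  have hunder : w'.asIdeal = Q.under (𝓞 K₀) := hQl.over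
  have hQ0 : Q ≠ ⊥ := by
    rintro rfl
    apply w'.ne_bot
    rw [hunder]
    exact Ideal.under_bot (𝓞 K₀) (𝓞 K)
  obtain ⟨w, hw⟩ : ∃ w : HeightOneSpectrum (𝓞 K), w.asIdeal = Q := ⟨⟨Q, hQ.isPrime, hQ0⟩, rfl⟩
  rw [← hw] at hunder
  have h3w : (3 : 𝓞 K) ∈ w.asIdeal := by
    have h1 : (3 : 𝓞 K₀) ∈ w.asIdeal.under (𝓞 K₀) := hunder ▸ h
    rw [Ideal.mem_under] at h1
    rwa [map_ofNat] at h1
  obtain ⟨ι, e, he, -, hv⟩ := H55C.exists_iota K₀ K w w' hunder
  refine Nat.dvd_trans ?_ (PZ8_tamK K hU w h3w)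
  exact H55D.index_dvd (Valued.v (R := w'.adicCompletion K₀)) (Valued.v (R := w.adicCompletion K))
    (H55D.DT2_val3 K₀ w' h) (H55D.DT2_val3 K w h3w) ι e he hv

theorem tam_prodU (hU : H35N.Unr3 K) (V : ValuationSubring ℂ) (h3 : V.valuation 3 = 1) :
    V.valuation (∏ᶠ w : HeightOneSpectrum (𝓞 K₀), (H55D.tam K₀ w : ℂ)) = 1 := by
  refine finprod_induction (fun z : ℂ => V.valuation z = 1) (map_one _) (fun x y hx hy => ?_) fun w => ?_
  · show V.valuation (x * y) = 1
    rw [map_mul, hx, hy, mul_one]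
  · show V.valuation ((H55D.tam K₀ w : ℕ) : ℂ) = 1
    have h : H55D.tam K₀ w ∣ 3 := by
      by_cases h : (3 : 𝓞 K₀) ∈ w.asIdeal
      · exact PZ8_tam0 K hU w h
      · rw [H55D.tam0_one w h]
        exact one_dvd 3
    rcases (Nat.dvd_prime Nat.prime_three).1 h with h4 | h4
    · rw [h4, Nat.cast_one, map_one]
    · rw [h4]
      exact_mod_cast h3

theorem discr_unit (p : ℕ) (hp : p.Prime) (hU : UnrP p K) (V : ValuationSubring ℂ)
    (hV : V.valuation (p : ℂ) < 1) :
    V.valuation ((Real.sqrt |(NumberField.discr K₀ : ℝ)| : ℝ) : ℂ) = 1 := by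
  obtain ⟨z, hz⟩ := NumberField.discr_dvd_discr K₀ K
  have h := pl1_discr p hp hU
  have h0 : ¬ (p : ℤ) ∣ NumberField.discr K₀ := fun hd => h (hd.trans ⟨z, hz⟩)
  obtain ⟨D, hD⟩ : ∃ D, D = NumberField.discr K₀ := ⟨_, rfl⟩
  rw [← hD] at h0 ⊢
  have h1 : (((Real.sqrt |(D : ℝ)| : ℝ) : ℂ)) ^ 2 = ((D.natAbs : ℕ) : ℂ) := by
    rw [← Complex.ofReal_pow, Real.sq_sqrt (abs_nonneg _), ← Int.cast_abs, Int.abs_eq_natAbs]
    simp only [Int.cast_natCast, Complex.ofReal_natCast]
  have h2 := val_nat p hp V hV D.natAbs (fun hd => h0 (Int.natCast_dvd.2 hd))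
  rw [← h1, map_pow] at h2
  exact (pow_eq_one_iff_of_nonneg zero_le two_ne_zero).1 h2

end H55P
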