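import Mathlib
import Pool.Agent.Lib.H55D.Fin1
import Pool.Agent.Lib.H55P.Z2
import Pool.Agent.Lib.H55P.Z3
import Pool.Agent.Lib.H55P.Z8

open NumberField IsDedekindDomain WeierstrassCurve

namespace H55P

open H55N
open H55B (F O om e emb Prim R E27)

/-! Chunk PZ9 (M). The analytic order of the Tate-Shafarevich group is a p-adic unit.
shaU: K₀ does not contain om: PORT of shaAn0_unit (Lib/H55D/Fin1.lean: Fin1_alg, Fin1_rank), R0_Omr_P (Z2.lean), tam_prodU, discr_unit (Z8.lean), val3 (Z3.lean). shaUF: K contains F: PORT of shaAn_unitN (Lib/H55N/Fin.lean) with OmE in place of R0 and periodE, Fin1_shaAn, complex_places;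
tam_prodU with K₀ = K (Algebra.id). -/

variable {K₀ K : Type} [Field K₀] [NumberField K₀] [Field K] [NumberField K] [Algebra F K]
  [Algebra K₀ K]

theorem PZ9_alg (L1 s E p T c : ℂ) (r2 : ℕ) (hc : c ≠ 0) :
    L1 * s * E ^ 2 / (p ^ r2 * T) = L1 / c ^ r2 * (c / p) ^ r2 * s * E ^ 2 / T := by
  have hc' := pow_ne_zero r2 hc
  rw [div_pow, div_mul_div_comm, mul_comm (c ^ r2) (p ^ r2), mul_div_mul_right _ _ hc', ← div_div]
  congr 1
  ring

theorem PZ9_card (p : ℕ) (hp : p.Prime) (A : ValuationSubring ℂ) (hA : A.valuation (p : ℂ) < 1) (n : ℕ)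
    (hn : ¬ p ∣ n) : A.valuation ((n : ℂ) ^ 2) = 1 := by
  rw [map_pow, val_nat p hp A hA n hn, one_pow]

theorem shaU (hQ : H13E.Quad K₀ K) (hU : H35N.Unr3 K) (p : ℕ) (hp : p.Prime) (h5 : 5 ≤ p)
    (hUp : UnrP p K) (hE : ¬ p ∣ Nat.card (E27.baseChange K₀).toAffine.Point) (L1 : ℂ)
    (hL : UnitP p (L1 / R0 ^ Module.finrank F K)) (L : PeriodPair) (g2 : L.g₂ = 0) (g3 : L.g₃ = -1) :
    UnitP p (H55D.shaAn K₀ L L1) := by
  intro A hA
  obtain ⟨h3, -⟩ := val3 p hp h5 A hA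
  obtain ⟨X, hR0, -⟩ := H55B.exists_X
  have hr : R0 ≠ 0 := hR0
  obtain ⟨hv, hw⟩ := R0_Omr_P A h3 L g2 g3
  have ht := tam_prodU (K₀ := K₀) hU A h3
  have hs := discr_unit (K₀ := K₀) p hp hUp A hA
  have hc := PZ9_card p hp A hA _ hE
  have hL' := hL A hA
  rw [H55D.Fin1_rank hQ] at hL'
  unfold H55D.shaAn
  rw [H55D.Fin1_alg L1 _ _ _ _ _ R0 _ _ hr]
  rw [map_div₀, map_mul, map_mul, map_mul, map_mul, hL', map_pow, hv, map_pow, hw, hs, hc, ht]
  simp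

theorem shaUF (hU : H35N.Unr3 K) (p : ℕ) (hp : p.Prime) (h5 : 5 ≤ p) (hUp : UnrP p K)
    (hE : ¬ p ∣ Nat.card (E27.baseChange K).toAffine.Point) (L1 : ℂ)
    (hL : UnitP p (L1 / (OmE * (starRingEnd ℂ) OmE) ^ Module.finrank F K)) (L : PeriodPair)
    (g2 : L.g₂ = 0) (g3 : L.g₃ = -1) : UnitP p (H55D.shaAn K L L1) := by
  intro A hA
  obtain ⟨h3, -⟩ := val3 p hp h5 A hA
  have hv := periodE A h3 L g2 g3
  have hr : OmE * (starRingEnd ℂ) OmE ≠ 0 := by
    intro h0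
    rw [h0, zero_div, map_zero] at hv
    exact zero_ne_one hv
  have ht := tam_prodU (K₀ := K) hU A h3
  have hs := discr_unit (K₀ := K) p hp hUp A hA
  have hc := PZ9_card p hp A hA _ hE
  have hL' := hL A hA
  rw [← H55C.complex_places] at hL'
  unfold H55D.shaAn
  rw [H55D.Fin1_real, pow_zero, one_mul, PZ9_alg L1 _ _ _ _ (OmE * (starRingEnd ℂ) OmE) _ hr]
  rw [map_div₀, map_mul, map_mul, map_mul, hL', map_pow, hv, hs, hc, ht]
  simp

end H55P
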