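import Mathlib
import Pool.Agent.Lib.H28G.Defs
import Pool.Agent.Lib.H55P.S14
import Pool.Agent.Lib.H55P.S6
import Pool.Agent.Lib.H55P.T15
import Pool.Agent.Lib.H55P.Z1
import Pool.Agent.Lib.H55P.Z12
import Pool.Agent.Lib.H55P.Z13
import Pool.Agent.Lib.H55P.Z14
import Pool.Agent.Lib.H55P.Z5
import Pool.Agent.Lib.H55P.Z7
import Pool.Agent.Lib.H55P.Z9

open NumberField IsDedekindDomain WeierstrassCurve

namespace H55P

open H55N
open H55B (F O om e E27)

/-! The assembly for y^2 + y = x^3. -/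

/-- An algebraic closure of F. -/
abbrev FB : Type := AlgebraicClosure F

noncomputable instance decFB : DecidableEq FB := Classical.decEq _

theorem W27O_base : (W27O⁄F) = H28G.W27 := by
  ext <;> simp [W27O, H28G.W27]

theorem E27_base : (E27⁄F) = H28G.W27 := by
  ext <;> simp [E27, H28G.W27]

theorem W27O_disc : W27O.Δ = -27 := by
  simp [W27O, WeierstrassCurve.Δ, WeierstrassCurve.b₂, WeierstrassCurve.b₄, WeierstrassCurve.b₆,
    WeierstrassCurve.b₈]

theorem W27_ell : H28G.W27.IsElliptic := by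
  rw [WeierstrassCurve.isElliptic_iff]
  have h : H28G.W27.Δ = -27 := by
    simp [H28G.W27, WeierstrassCurve.Δ, WeierstrassCurve.b₂, WeierstrassCurve.b₄,
      WeierstrassCurve.b₆, WeierstrassCurve.b₈]
  rw [h]
  exact IsUnit.mk0 _ (by norm_num)

instance instEll : (W27O⁄F).IsElliptic := by
  rw [W27O_base]
  exact W27_ell

instance instEllQ : (E27 : WeierstrassCurve ℚ).IsElliptic := by
  rw [WeierstrassCurve.isElliptic_iff]
  have h : E27.Δ = -27 := by
    simp [E27, WeierstrassCurve.Δ, WeierstrassCurve.b₂, WeierstrassCurve.b₄,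
      WeierstrassCurve.b₆, WeierstrassCurve.b₈]
  rw [h]
  exact IsUnit.mk0 _ (by norm_num)

theorem finrank_bot' : Module.finrank F (⊥ : IntermediateField F FB) = 1 :=
  IntermediateField.finrank_bot

/-- The discriminant is prime to a prime not above 3. -/
theorem disc_notMem {M : IntermediateField F FB} (v : HeightOneSpectrum (𝓞 M))
    (h3 : (3 : 𝓞 M) ∉ v.asIdeal) : algebraMap O (𝓞 M) W27O.Δ ∉ v.asIdeal := by
  rw [W27O_disc, map_neg, neg_mem_iff]
  intro h
  apply h3
  have h27 : algebraMap O (𝓞 M) 27 = 3 ^ 3 := by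
    rw [map_ofNat]
    norm_num
  rw [h27] at h
  exact v.isPrime.mem_of_pow_mem 3 h

section tower

variable {p : ℕ} (hp : p.Prime) (h5 : 5 ≤ p) (L : IntermediateField F FB) (hL : PExt p ⊥ L)
  (hram : ∀ v₀ : HeightOneSpectrum O, RamF L v₀.asIdeal → GoodP p v₀)

include hp h5 hL hram

omit hp h5 in
/-- The conditions at the ramified primes of the bottom field. -/
theorem ram_good (v : HeightOneSpectrum (𝓞 (⊥ : IntermediateField F FB)))
    (h : Ram (⊥ : IntermediateField F FB) L v.asIdeal) :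
    (3 : 𝓞 (⊥ : IntermediateField F FB)) ∉ v.asIdeal ∧
      (p : 𝓞 (⊥ : IntermediateField F FB)) ∉ v.asIdeal ∧
      ¬ p ∣ Nat.card (W27O⁄(𝓞 (⊥ : IntermediateField F FB) ⧸ v.asIdeal)).toAffine.Point := by
  obtain ⟨v₀, h1, h2, h3⟩ := bot_conv W27O L v
  obtain ⟨g3, gp, gc⟩ := hram v₀ (h2 h)
  refine ⟨fun hm => g3 ((h1 3).2 (by rwa [map_ofNat])), fun hm => gp ((h1 p).2 (by rwa [map_natCast])), ?_⟩
  rw [h3]
  exact gc

theorem sel_all (hRB : SelZero H28G.W27 p (⊥ : IntermediateField F FB)) (K : IntermediateField F FB)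
    (hKL : K ≤ L) : SelZero H28G.W27 p K ∧
      ∀ T : Pt H28G.W27 FB, p • T = 0 → (∀ s ∈ K.fixingSubgroup, ac H28G.W27 s T = T) → T = 0 := by
  have hb : FiniteDimensional F (⊥ : IntermediateField F FB) := inferInstance
  have hbn : NumberField (⊥ : IntermediateField F FB) := H16C.FR_numberField _
  have h0 : ∀ T : Pt (W27O⁄F) FB, p • T = 0 →
      (∀ s ∈ (⊥ : IntermediateField F FB).fixingSubgroup, ac (W27O⁄F) s T = T) → T = 0 := by
    obtain ⟨v, h3, hpv, hc⟩ := card_two p hp h5 (⊥ : IntermediateField F FB) finrank_bot'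
    exact fun T hT hf => tors_of_prime W27O p hp ⊥ v (disc_notMem v h3) hpv hc T hT hf
  have h1 := sel_tower W27O p hp ⊥ L hL h0
    (fun v hv => ⟨disc_notMem v (ram_good L hL hram v hv).1, (ram_good L hL hram v hv).2⟩)
    (by rw [W27O_base]; exact hRB) K bot_le hKL
  have h2 := tors_tower (W27O⁄F) p hp ⊥ L hL h0 K hKL
  rw [W27O_base] at h1 h2
  exact ⟨h1, h2⟩

theorem lvp_all (K : IntermediateField F FB) [NumberField K] (hKL : K ≤ L) (V : ValuationSubring ℂ)
    (hV : V.valuation (p : ℂ) < 1) : LVP F V OmE (PsiP K psiE) := by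
  have hLf : FiniteDimensional F L := hL.fin
  have hLn : NumberField L := H16C.FR_numberField L
  have hbn : NumberField (⊥ : IntermediateField F FB) := H16C.FR_numberField _
  obtain ⟨h3, h2⟩ := val3 p hp h5 V hV
  refine LVP_tower p hp ⊥ L hL isHeckeE (m3_cop p hp h5) ?_ 0 (1 / 4) OmE perE V hV (goodE V h3 h2)
    (ntpE _ finrank_bot' p hp h5 V hV) (fun v hv => ?_) (baseE _ finrank_bot' V h3) K bot_le hKL
  · exact unrP_sub p hp L (sqfree_E p hp h5) fun v hv => (hram v hv).2.1
  · obtain ⟨g3, gp, gc⟩ := ram_good L hL hram v hv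
    exact admE _ v g3 p hp gc V hV

end tower

section final

theorem rat_tower (A B : Type) [Field A] [Field B] [Algebra ℚ A] [Algebra ℚ B] [Algebra A B] :
    IsScalarTower ℚ A B :=
  IsScalarTower.of_algebraMap_eq fun x => by
    rw [eq_ratCast (algebraMap ℚ B) x, eq_ratCast (algebraMap ℚ A) x, map_ratCast]

theorem tower_QF : IsScalarTower ℚ F FB := rat_tower F FB

theorem alg_QFB : Algebra.IsAlgebraic ℚ FB := Algebra.IsAlgebraic.trans ℚ F FB

/-- The image of a Galois extension of degree p^k in the algebraic closure. -/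
theorem pext_range (p : ℕ) (hp : p.Prime) (L : Type) [Field L] [NumberField L] [Algebra F L] (hG : IsGalois F L)
    (k : ℕ) (hk : Module.finrank F L = p ^ k) (j : L →ₐ[F] FB) : PExt p ⊥ j.fieldRange := by
  let E : L ≃ₐ[F] j.fieldRange := AlgEquiv.ofInjectiveField j
  have hfL : FiniteDimensional F L := Module.finite_of_finrank_pos (by rw [hk]; exact pow_pos hp.pos k)
  have hn : Normal F j.fieldRange := Normal.of_algEquiv E
  refine ⟨Module.Finite.equiv E.toLinearEquiv, bot_le, fun s _ x hx => ?_, k, ?_⟩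
  · have h1 := (IntermediateField.normal_iff_forall_map_le' (K := j.fieldRange)).1 hn s
    exact h1 ⟨x, hx, rfl⟩
  · rw [finrank_bot', one_mul, ← hk]
    exact E.toLinearEquiv.finrank_eq.symm

/-- THEOREM for y^2 + y = x^3, from the base case. -/
theorem bsdP_of (p : ℕ) (hp : p.Prime) (h5 : 5 ≤ p)
    (hRB : SelZero H28G.W27 p (⊥ : IntermediateField F FB))
    (K : Type) [Field K] [NumberField K] (hK : InP p K) : BSDP p K := by
  obtain ⟨Lt, _, _, _, _, hG, ⟨k, hk⟩, hunr⟩ := hK
  have hfL : FiniteDimensional F Lt := Module.finite_of_finrank_pos (by rw [hk]; exact pow_pos hp.pos k)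
  let j : Lt →ₐ[F] FB := IsAlgClosed.lift
  set L : IntermediateField F FB := j.fieldRange with hLdef
  have hL : PExt p ⊥ L := pext_range p hp Lt hG k hk j
  have hLf : FiniteDimensional F L := hL.fin
  have hLn : NumberField L := H16C.FR_numberField L
  have hram : ∀ v₀ : HeightOneSpectrum O, RamF L v₀.asIdeal → GoodP p v₀ := by
    intro v₀ h
    by_contra hng
    obtain ⟨W, hW, he⟩ := ramF_range Lt j v₀ h
    exact he (hunr W v₀ hW hng)
  let ι₀ : K →+* FB := j.toRingHom.comp (algebraMap K Lt)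
  let ι : K →ₐ[ℚ] FB := ι₀.toRatAlgHom
  set K' : IntermediateField F FB := KF K ι with hK'
  have hK'L : K' ≤ L := by
    rw [hK']
    unfold KF
    rw [IntermediateField.adjoin_le_iff]
    rintro _ ⟨x, rfl⟩
    exact ⟨algebraMap K Lt x, rfl⟩
  have hK'f : FiniteDimensional F K' := finDim_of_le hK'L
  have hK'n : NumberField K' := H16C.FR_numberField K'
  have hQF := tower_QF
  have hQA := alg_QFB
  -- Selmer groups
  obtain ⟨hS, hT⟩ := sel_all hp h5 L hL hram hRB K' hK'L
  have hS1 : SelZero (E27 : WeierstrassCurve ℚ) p (K'.restrictScalars ℚ) :=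
    sel_base (F := F) E27 p K' (by rw [E27_base]; exact hS)
  have hT1 : ∀ T : Pt E27 FB, p • T = 0 →
      (∀ s ∈ (K'.restrictScalars ℚ).fixingSubgroup, ac E27 s T = T) → T = 0 :=
    tors_base (F := F) E27 p K' (by rw [E27_base]; exact hT)
  have hKQ : FiniteDimensional ℚ (K'.restrictScalars ℚ) := by
    have : FiniteDimensional ℚ K' := Module.Finite.trans F K'
    exact this
  have hS2 : SelZero (E27 : WeierstrassCurve ℚ) p ι.fieldRange :=
    sel_down E27 p ι.fieldRange (K'.restrictScalars ℚ) (kf_le K ι) (kf_norm K ι) hT1 hS1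
  have hfr : FiniteDimensional ℚ ι.fieldRange :=
    Module.Finite.equiv (AlgEquiv.ofInjectiveField ι).toLinearEquiv
  have hpt := pts_congr E27 K ι p (by
    classical
    exact pts_fin E27 p hp ι.fieldRange hS2)
  have hsel : SelTriv (E27.baseChange K) p := sel_transport E27 p K ι hS2
  have hsha : ShaTriv (E27.baseChange K) p := sha_transport E27 p K ι (sha_zero E27 p hp _ hS2)
  refine ⟨⟨hsel, hsha, hpt.1, hpt.2⟩, H55C.period_exists, ?_⟩
  -- L-values
  have hUL : UnrP p L := unrP_sub p hp L (sqfree_E p hp h5) fun v hv => (hram v hv).2.1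
  have hUK' : UnrP p K' := by
    letI : Algebra K' L := (IntermediateField.inclusion hK'L).toRingHom.toAlgebra
    exact UnrP.down K' L p hp hUL
  have h3K' : H35N.Unr3 K' := fun w hw =>
    unr_sub K' L hK'L 3 (by norm_num) (fun v hv => by
      have := (hram v hv).1
      exact_mod_cast this) w (by exact_mod_cast hw)
  have hlvp : ∀ V : ValuationSubring ℂ, V.valuation (p : ℂ) < 1 → LVP F V OmE (PsiP K' psiE) :=
    fun V hV => lvp_all hp h5 L hL hram K' hK'L V hV
  by_cases hroot : ∃ x : K, x ^ 2 + x + 1 = 0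
  · obtain ⟨x, hx⟩ := hroot
    obtain ⟨f, hf⟩ := exists_F K ι x hx
    letI : Algebra F K := f.toAlgebra
    obtain ⟨θ⟩ := kf_iso K ι f hf
    letI : Algebra K K' := θ.toRingHom.toAlgebra
    have hst : IsScalarTower F K K' := IsScalarTower.of_algebraMap_eq fun y => (θ.commutes y).symm
    have hUK : UnrP p K := UnrP.down K K' p hp hUK'
    have h3K : H35N.Unr3 K := unr3_down K K' h3K'
    obtain ⟨Λ, a1, a2, a3, a4⟩ := L_valU K h3K p hp fun V hV => LVP_congr K K' θ V OmE psiE (hlvp V hV)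
    exact ⟨Λ, a1, a2, a3, fun L g2 g3 => shaUF h3K p hp h5 hUK hpt.2 (Λ 1) a4 L g2 g3⟩
  · push Not at hroot
    letI : Algebra K K' := (KFmap K ι).toAlgebra
    have hQ : H13E.Quad K K' := kf_quad K ι hroot
    obtain ⟨Λ, a1, a2, a3, a4⟩ := L_valU0 hQ h3K' p hp h5 hlvp
    exact ⟨Λ, a1, a2, a3, fun L g2 g3 => shaU hQ h3K' p hp h5 hUK' hpt.2 (Λ 1) a4 L g2 g3⟩

end final

end H55P
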