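import Mathlib
import Pool.Agent.Lib.H55P.Fin
import Pool.Agent.Lib.H55P.I3

open NumberField IsDedekindDomain WeierstrassCurve

namespace H55P

open H55N

/-! The exact criterion for y^2 + y = x^3 over Galois extensions of F of degree a power of p, analytic side. -/

section ramn

variable {F : Type} [Field F] [NumberField F] {Ω : Type} [Field Ω] [DecidableEq Ω]
  [Algebra F Ω] [IsAlgClosed Ω] [Algebra.IsAlgebraic F Ω] [CharZero Ω]

omit [NumberField F] [DecidableEq Ω] [IsAlgClosed Ω] [Algebra.IsAlgebraic F Ω] [CharZero Ω] in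
theorem ram_self (M : IntermediateField F Ω) [NumberField M] (v : HeightOneSpectrum (𝓞 M)) :
    ¬ Ram M M v.asIdeal := by
  rintro ⟨W, hWp, hW⟩
  have h1 : v.asIdeal ≤ W ^ 2 := fun x hx => hW x x hx rfl
  have hWn : W ≠ ⊥ := by
    rintro rfl
    apply v.ne_bot
    rw [eq_bot_iff]
    exact h1.trans (Ideal.pow_le_self two_ne_zero)
  have h2 : v.asIdeal = W := v.isMaximal.eq_of_le hWp.ne_top (h1.trans (Ideal.pow_le_self two_ne_zero))
  have h3 : W ≤ W ^ 2 := h2 ▸ h1
  have h4 : W ^ 2 < W ^ 1 := Ideal.pow_right_strictAnti W hWn hWp.ne_top (show 1 < 2 by norm_num)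
  rw [pow_one] at h4
  exact lt_irrefl _ (lt_of_lt_of_le h4 h3)

/-- A power p^j: a^(p^j) = a modulo p. -/
theorem dvd_pow_sub (p : ℕ) (hp : p.Prime) (a j : ℕ) (ha : 1 ≤ a) (h : p ∣ a ^ p ^ j - 1) : p ∣ a - 1 := by
  have hf := Fact.mk hp
  rw [← ZMod.natCast_eq_zero_iff, Nat.cast_sub (Nat.one_le_pow _ _ ha), Nat.cast_pow,
    ZMod.pow_card_pow] at h
  rw [← ZMod.natCast_eq_zero_iff, Nat.cast_sub ha]
  exact h

/-- The norm of a ramified prime is 1 modulo p. -/
theorem ram_norm (p : ℕ) (hp : p.Prime) (M L : IntermediateField F Ω) (hL : PExt p M L)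
    [NumberField M] (K : IntermediateField F Ω) [NumberField K] (hMK : M ≤ K) (hKL : K ≤ L)
    (hU : UnrP p K) (v : HeightOneSpectrum (𝓞 M)) (hv : Ram M K v.asIdeal) :
    p ∣ Ideal.absNorm v.asIdeal - 1 := by
  have hLf : FiniteDimensional F L := hL.fin
  have key : ∀ (n : ℕ) (K : IntermediateField F Ω) [NumberField K], M ≤ K → K ≤ L → UnrP p K →
      Module.finrank F K = n → Ram M K v.asIdeal → p ∣ Ideal.absNorm v.asIdeal - 1 := by
    intro n
    induction n using Nat.strong_induction_on with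
    | _ n ih =>
      intro K _ hMK hKL hU hn hr
      rcases eq_or_ne K M with rfl | hne
      · exact absurd hr (ram_self _ v)
      obtain ⟨N, hMN, hNK, hdeg, hnorm⟩ := chain_step p hp M K L hL hMK hKL hne
      have hKf : FiniteDimensional F K := finDim_of_le hKL
      have hNf : FiniteDimensional F N := finDim_of_le hNK
      have hNn : NumberField N := H16C.FR_numberField N
      have hNpos : 0 < Module.finrank F N := Module.finrank_pos
      have hlt : Module.finrank F N < n := by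
        rw [← hn, hdeg]
        exact lt_mul_of_one_lt_right hNpos hp.one_lt
      letI iNK : Algebra N K := (IntermediateField.inclusion hNK).toRingHom.toAlgebra
      letI iMN : Algebra M N := (IntermediateField.inclusion hMN).toRingHom.toAlgebra
      obtain ⟨hst, hgal, hfr⟩ := chain_types p hp N K hNK hnorm hdeg
      rcases (ram_tower M N K hMN hNK hnorm v).1 hr with h4 | ⟨w, hw1, hw2⟩
      · exact ih _ hlt N hMN (hNK.trans hKL) (UnrP.down N K p hp hU) rfl h4
      · obtain ⟨v', hv', -, hf⟩ := ram_down p hp M N K L hL hMN hNK hKL hnorm w hw2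
        obtain ⟨j, hj⟩ : ∃ j : ℕ, w.asIdeal.inertiaDeg (𝓞 M) = p ^ j := hf
        have h5 := tame_dvd N K p hp hfr w (fun hpv => hw2 (pt10_ram N K p hU w hpv)) hw2
        have hl : w.asIdeal.LiesOver v.asIdeal := ⟨hw1.symm⟩
        have hvm := v.isMaximal
        have hvp := v.isPrime
        have hwm := w.isMaximal
        have hwp := w.isPrime
        have h1 := Ideal.relNorm_eq_pow_of_isMaximal w.asIdeal v.asIdeal
        have h6 : Ideal.absNorm w.asIdeal = Ideal.absNorm v.asIdeal ^ p ^ j := by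
          rw [← hj, ← map_pow, ← h1, Ideal.absNorm_relNorm (𝓞 M)]
        rw [h6] at h5
        refine dvd_pow_sub p hp _ j ?_ h5
        refine Nat.one_le_iff_ne_zero.2 ?_
        rw [Ne, Ideal.absNorm_eq_zero_iff]
        exact v.ne_bot
  exact key _ K hMK hKL hU rfl hv

/-- The bottom field: every prime of F comes from one of the bottom field. -/
theorem bot_conv' [IQ F] (W₀ : WeierstrassCurve (𝓞 F)) (L : IntermediateField F Ω) (v₀ : HeightOneSpectrum (𝓞 F))
    [NumberField (⊥ : IntermediateField F Ω)] :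
    ∃ v : HeightOneSpectrum (𝓞 (⊥ : IntermediateField F Ω)),
      (∀ x : 𝓞 F, x ∈ v₀.asIdeal ↔ algebraMap (𝓞 F) (𝓞 (⊥ : IntermediateField F Ω)) x ∈ v.asIdeal) ∧
      (RamF L v₀.asIdeal → Ram (⊥ : IntermediateField F Ω) L v.asIdeal) ∧
      Nat.card (W₀⁄(𝓞 (⊥ : IntermediateField F Ω) ⧸ v.asIdeal)).toAffine.Point =
        Nat.card (W₀⁄(𝓞 F ⧸ v₀.asIdeal)).toAffine.Point := by
  obtain ⟨v, hv⟩ := pt9_above (⊥ : IntermediateField F Ω) v₀
  obtain ⟨v₁, h1, -, h3⟩ := bot_conv W₀ L v
  have he : v₁ = v₀ := by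
    apply HeightOneSpectrum.ext
    ext x
    rw [h1 x, hv]
    rfl
  subst he
  refine ⟨v, h1, ?_, h3⟩
  rintro ⟨W, hW, hle⟩
  refine ⟨W, hW, fun x y hx hxy => ?_⟩
  obtain ⟨z, hz⟩ := IntermediateField.mem_bot.1 ((x : (⊥ : IntermediateField F Ω))).2
  have hzi : IsIntegral ℤ z := by
    have h2 : IsIntegral ℤ ((x : (⊥ : IntermediateField F Ω)) : Ω) :=
      (RingOfIntegers.isIntegral_coe x).map
        ((⊥ : IntermediateField F Ω).val.toRingHom.toIntAlgHom)
    rw [← hz] at h2
    exact (isIntegral_algebraMap_iff (algebraMap F Ω).injective).1 h2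
  have hx' : algebraMap (𝓞 F) (𝓞 (⊥ : IntermediateField F Ω)) ⟨z, hzi⟩ = x := by
    apply RingOfIntegers.ext
    apply Subtype.ext
    exact hz
  have hy' : algebraMap (𝓞 F) (𝓞 L) ⟨z, hzi⟩ = y := by
    apply RingOfIntegers.ext
    apply Subtype.ext
    rw [hxy]
    exact hz
  rw [← hy']
  refine hle (Ideal.mem_map_of_mem _ ((h1 _).2 ?_))
  rw [hx']
  exact hx

end ramn

open H55B (F O om e emb E27)

section crit

/-- The primes above 3 have norm prime to p + 1: no ramification there. -/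
theorem three_norm (p : ℕ) (hp : p.Prime) (h5 : 5 ≤ p) [NumberField (⊥ : IntermediateField F FB)]
    (v : HeightOneSpectrum (𝓞 (⊥ : IntermediateField F FB)))
    (h3 : (3 : 𝓞 (⊥ : IntermediateField F FB)) ∈ v.asIdeal) (h : p ∣ Ideal.absNorm v.asIdeal - 1) :
    False := by
  have hr : Module.finrank ℚ (⊥ : IntermediateField F FB) = 2 := by
    rw [← Module.finrank_mul_finrank ℚ F (⊥ : IntermediateField F FB), ze_rank, finrank_bot']
  have h1 : Ideal.absNorm v.asIdeal ∣ 3 ^ 2 := by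
    have h2 := pt8_norm (K := (⊥ : IntermediateField F FB)) 3
    rw [hr] at h2
    rw [← h2]
    apply map_dvd
    rw [Ideal.dvd_iff_le, Ideal.span_singleton_le_iff_mem]
    exact_mod_cast h3
  obtain ⟨k, hk, hk'⟩ := (Nat.dvd_prime_pow Nat.prime_three).1 h1
  rw [hk'] at h
  have hne : k ≠ 0 := by
    rintro rfl
    rw [pow_zero, Ideal.absNorm_eq_one_iff] at hk'
    exact v.isPrime.ne_top hk'
  interval_cases k
  · exact hne rfl
  · have := Nat.le_of_dvd (by norm_num) h
    omega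
  · have h8 : p ∣ 2 ^ 3 := by simpa using h
    have := (Nat.prime_dvd_prime_iff_eq hp Nat.prime_two).1 (hp.dvd_of_dvd_pow h8)
    omega

/-- The factor is a unit at all valuations above p if and only if p does not divide the number of points. -/
theorem adm_card (K : Type) [Field K] [NumberField K] [Algebra F K] (v : HeightOneSpectrum (𝓞 K))
    (h3 : (3 : 𝓞 K) ∉ v.asIdeal) (p : ℕ) (hp : p.Prime) :
    (∀ V : ValuationSubring ℂ, V.valuation (p : ℂ) < 1 →
      V.valuation (1 - (starRingEnd ℂ) (PsiP K psiE v.asIdeal)) = 1) ↔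
    ¬ p ∣ Nat.card (W27O⁄(𝓞 K ⧸ v.asIdeal)).toAffine.Point := by
  refine ⟨fun h hd => ?_, fun h V hV => admE K v h3 p hp h V hV⟩
  obtain ⟨V, hV⟩ := exists_above_p p hp
  have hc := cardE K v h3
  have h1 : V.valuation (1 - (starRingEnd ℂ) (PsiP K psiE v.asIdeal)) = 1 := h V hV
  have hx0 : 1 - (starRingEnd ℂ) (PsiP K psiE v.asIdeal) ≠ 0 := pz6_ne hp h
  have h2 : V.valuation (1 - PsiP K psiE v.asIdeal) = 1 := by
    have h3 := pz6_conj hp hx0 h V hV
    rwa [map_sub, map_one, Complex.conj_conj] at h3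
  have h4 : V.valuation ((Nat.card (W27O⁄(𝓞 K ⧸ v.asIdeal)).toAffine.Point : ℕ) : ℂ) = 1 := by
    rw [hc, map_mul]
    show V.valuation (1 - PsiP K psiE v.asIdeal) *
      V.valuation (1 - (starRingEnd ℂ) (PsiP K psiE v.asIdeal)) = 1
    rw [h1, h2, one_mul]
  obtain ⟨t, ht⟩ := hd
  rw [ht, Nat.cast_mul, map_mul] at h4
  have h5 := mul_lt_one_of_lt_of_le hV (pt9_nat V t)
  rw [h4] at h5
  exact lt_irrefl _ h5

/-- The exact criterion in the algebraic closure. -/
theorem crit_FB (p : ℕ) (hp : p.Prime) (h5 : 5 ≤ p) (L : IntermediateField F FB) [NumberField L]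
    (hL : PExt p ⊥ L) (hU : UnrP p L)
    (hV : ∀ V : ValuationSubring ℂ, V.valuation (p : ℂ) < 1 → LVP F V OmE (PsiP L psiE))
    (v₀ : HeightOneSpectrum O) (hr : RamF L v₀.asIdeal) : GoodP p v₀ := by
  have hbn : NumberField (⊥ : IntermediateField F FB) := H16C.FR_numberField _
  obtain ⟨v, h1, h2, h3⟩ := bot_conv' W27O L v₀
  have hram := h2 hr
  have hn := ram_norm p hp ⊥ L hL L bot_le le_rfl hU v hram
  have hv3 : (3 : 𝓞 (⊥ : IntermediateField F FB)) ∉ v.asIdeal := fun h => three_norm p hp h5 v h hn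
  have hpv : (p : 𝓞 (⊥ : IntermediateField F FB)) ∉ v.asIdeal := by
    intro hm
    have h4 : Ideal.absNorm v.asIdeal ∣ p ^ Module.finrank ℚ (⊥ : IntermediateField F FB) := by
      rw [← pt8_norm]
      apply map_dvd
      rw [Ideal.dvd_iff_le, Ideal.span_singleton_le_iff_mem]
      exact hm
    obtain ⟨k, hk, hk'⟩ := (Nat.dvd_prime_pow hp).1 h4
    have hne : k ≠ 0 := by
      rintro rfl
      rw [pow_zero, Ideal.absNorm_eq_one_iff] at hk'
      exact v.isPrime.ne_top hk'
    have h6 : p ∣ Ideal.absNorm v.asIdeal := by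
      rw [hk']
      exact dvd_pow_self p hne
    have h7 : 1 ≤ Ideal.absNorm v.asIdeal := by
      refine Nat.one_le_iff_ne_zero.2 ?_
      rw [Ne, Ideal.absNorm_eq_zero_iff]
      exact v.ne_bot
    have h8 : p ∣ 1 := by
      have := (Nat.dvd_sub_iff_right h7 h6).1 hn
      exact this
    exact hp.one_lt.ne' (Nat.dvd_one.1 h8)
  refine ⟨fun h => hv3 ?_, fun h => hpv ?_, ?_⟩
  · have := (h1 3).1 h
    rwa [map_ofNat] at this
  · have := (h1 p).1 h
    rwa [map_natCast] at this
  · rw [← h3]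
    refine (adm_card _ v hv3 p hp).1 fun V hVp => ?_
    obtain ⟨hv3', hv2'⟩ := val3 p hp h5 V hVp
    have h := (LVP_tower_iff p hp ⊥ L hL isHeckeE (m3_cop p hp h5) 0 (1 / 4) OmE perE V hVp
      (goodE V hv3' hv2') (ntpE _ finrank_bot' p hp h5 V hVp) L bot_le le_rfl hU).1 (hV V hVp)
    exact h.2 v hram

end crit

end H55P
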