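import Mathlib
import Pool.Agent.Lib.H55P.I4
import Pool.Agent.Lib.H55P.CStm

open NumberField IsDedekindDomain WeierstrassCurve

namespace H55P

open H55N
open H55B (F O om e emb E27)

/-! The exact criterion for y^2 + y = x^3 over Galois extensions of F of degree a power of p, analytic side: final form. -/

/-- The L-function from the Hecke L-series. -/
theorem i5_lfun (K : Type) [Field K] [NumberField K] [Algebra F K] (hU : H35N.Unr3 K) (L : ℂ → ℂ)
    (hLs : ∀ s : ℂ, 3 / 2 < s.re → HasSum (tm (PsiP K psiE) s) (L s)) (z : ℂ) (hz : 3 / 2 < z.re) :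
    LSeriesHasSum (fun n => (((E27.baseChange K).LFunction n : ℤ) : ℂ)) z
      (L z * (starRingEnd ℂ) (L ((starRingEnd ℂ) z))) := by
  have hz' : 3 / 2 < ((starRingEnd ℂ) z).re := by simpa using hz
  have h0 : Psi K ⊥ = 0 := (Psi K).map_zero
  have h1 := AI_LSeries (fun a => Psi K a) h0 z (tm_summable _ Psi_norm_le z hz)
  have h2 := AI_LSeries (fun a => (starRingEnd ℂ) (Psi K a)) (by rw [h0, map_zero]) z
    (tm_summable _ (fun a => by rw [RCLike.norm_conj]; exact Psi_norm_le a) z hz)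
  have e1 : ∑' a, tm (fun a => Psi K a) z a = L z := (hLs z hz).tsum_eq
  have e2 : ∑' a, tm (fun a => (starRingEnd ℂ) (Psi K a)) z a =
      (starRingEnd ℂ) (L ((starRingEnd ℂ) z)) := by
    have h3 := (Complex.hasSum_conj').2 (hLs _ hz')
    have h4 := h3.tsum_eq
    rw [← h4]
    exact tsum_congr fun a => H8_tm _ z a
  rw [e1] at h1
  rw [e2] at h2
  have h3 := ArithmeticFunction.LSeriesHasSum_mul h1 h2
  have e3 : (fun n => (((E27.baseChange K).LFunction n : ℤ) : ℂ)) = fun n =>
      (AI (Psi K) * AI (fun a => (starRingEnd ℂ) (Psi K a))) n :=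
    funext fun n => LFunctionU K hU n
  rw [e3]
  exact h3

/-- Values in F: a product of two numbers with valuations at most 1. -/
theorem i5_two (V : ValuationSubring ℂ) (x y : ℂ) (hx : V.valuation x ≤ 1) (hy : V.valuation y ≤ 1)
    (h : V.valuation (x * y) = 1) : V.valuation x = 1 := by
  rw [map_mul] at h
  refine le_antisymm hx ?_
  by_contra hlt
  have h5 := mul_lt_one_of_nonneg_of_lt_one_left zero_le (not_le.1 hlt) hy
  rw [h] at h5
  exact lt_irrefl _ h5

/-- The conjugate valuation. -/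
theorem i5_conj (V : ValuationSubring ℂ) (x : ℂ)
    (h : (V.comap (starRingEnd ℂ)).valuation x ≤ 1) : V.valuation ((starRingEnd ℂ) x) ≤ 1 := by
  rw [ValuationSubring.valuation_le_one_iff] at h ⊢
  exact h

theorem i5_above (p : ℕ) (hp : p.Prime) (V : ValuationSubring ℂ) (hV : V.valuation (p : ℂ) < 1) :
    (V.comap (starRingEnd ℂ)).valuation (p : ℂ) < 1 := by
  have h2 : (p : ℂ) ≠ 0 := Nat.cast_ne_zero.2 hp.ne_zero
  have hmem : ∀ z : ℂ, z ∈ V.comap (starRingEnd ℂ) ↔ (starRingEnd ℂ) z ∈ V := fun z => Iff.rfl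
  rw [H55C.B9_lt _ h2, hmem, map_inv₀, map_natCast, ← H55C.B9_lt V h2]
  exact hV

section

variable (p : ℕ) (hp : p.Prime) (h5 : 5 ≤ p) (K : Type) [Field K] [NumberField K] [Algebra F K]
  [IsGalois F K] (k : ℕ) (hk : Module.finrank F K = p ^ k) (hU : UnrP p K)

include hp h5 hk hU

/-- Integrality over K. -/
theorem i5_int (V : ValuationSubring ℂ) (hV : V.valuation (p : ℂ) < 1) :
    LVI F V OmE (PsiP K psiE) := by
  obtain ⟨h3, h2⟩ := val3 p hp h5 V hV
  have hN : NTP K p m3 psiE V :=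
    NTP_up F K p hp k hk V hV (ntpE F (Module.finrank_self F) p hp h5 V hV)
  exact LVI_base p hp isHeckeE (m3_cop p hp h5) hU 0 (1 / 4) OmE perE V hV (goodE V h3 h2) hN

/-- No ramification above 3. -/
theorem i5_unr3 : H35N.Unr3 K := by
  let j : K →ₐ[F] FB := IsAlgClosed.lift
  have hL : PExt p ⊥ j.fieldRange := pext_range p hp K inferInstance k hk j
  have hLf : FiniteDimensional F j.fieldRange := hL.fin
  have hLn : NumberField j.fieldRange := H16C.FR_numberField _
  have hbn : NumberField (⊥ : IntermediateField F FB) := H16C.FR_numberField _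
  letI : Algebra K j.fieldRange := (AlgEquiv.ofInjectiveField j).toRingEquiv.toRingHom.toAlgebra
  letI : Algebra j.fieldRange K :=
    (AlgEquiv.ofInjectiveField j).symm.toRingEquiv.toRingHom.toAlgebra
  have hst : IsScalarTower F K j.fieldRange := IsScalarTower.of_algebraMap_eq fun y =>
    ((AlgEquiv.ofInjectiveField j).commutes y).symm
  have hUL : UnrP p j.fieldRange := UnrP.down j.fieldRange K p hp hU
  have h3 : H35N.Unr3 j.fieldRange := fun w hw =>
    unr_sub j.fieldRange j.fieldRange le_rfl 3 (by norm_num) (fun v hv => by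
      intro h
      obtain ⟨v', h1, h2, -⟩ := bot_conv' W27O j.fieldRange v
      have hn := ram_norm p hp ⊥ j.fieldRange hL j.fieldRange bot_le le_rfl hUL v' (h2 hv)
      refine three_norm p hp h5 v' ?_ hn
      have := (h1 3).1 (by exact_mod_cast h)
      rwa [map_ofNat] at this) w (by exact_mod_cast hw)
  exact unr3_down K j.fieldRange h3

/-- The L-value is a unit if the analytic part holds. -/
theorem i5_lvp (hA : AnUnit p K) (V : ValuationSubring ℂ) (hV : V.valuation (p : ℂ) < 1) :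
    LVP F V OmE (PsiP K psiE) := by
  have h3K := i5_unr3 p hp h5 K k hk hU
  obtain ⟨h3, -⟩ := val3 p hp h5 V hV
  obtain ⟨L, hLa, hLs, hLi⟩ := i5_int p hp h5 K k hk hU V hV
  obtain ⟨L', hLa', hLs', hLi'⟩ := i5_int p hp h5 K k hk hU _ (i5_above p hp V hV)
  have hLL : L 1 = L' 1 := ident L L' hLa hLa' (fun s hs => (hLs s hs).unique (hLs' s hs)) 1
    (by norm_num)
  obtain ⟨Λ, hΛa, hΛs, -, hΛu⟩ := hA
  have e1 : Λ 1 = L 1 * (starRingEnd ℂ) (L ((starRingEnd ℂ) 1)) :=
    ident Λ (fun z => L z * (starRingEnd ℂ) (L ((starRingEnd ℂ) z))) hΛa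
      (hLa.mul (H55B.I4_conj hLa)) (fun s hs => by
        rw [(hΛs s hs).2]
        exact (i5_lfun K h3K L hLs s hs).LSeries_eq) 1 (by norm_num)
  obtain ⟨P, g2, g3⟩ := H55C.period_exists
  have hu := hΛu P g2 g3 V hV
  have hv := periodE V h3 P g2 g3
  have hr : OmE * (starRingEnd ℂ) OmE ≠ 0 := by
    intro h0
    rw [h0, zero_div, map_zero] at hv
    exact zero_ne_one hv
  have ht := tam_prodU (K₀ := K) h3K V h3
  have hs := discr_unit (K₀ := K) p hp hU V hV
  unfold H55D.shaAn at hu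
  rw [H55D.Fin1_real, pow_zero, one_mul, PZ9_alg (Λ 1) _ _ _ _ (OmE * (starRingEnd ℂ) OmE) _ hr,
    H55C.complex_places] at hu
  have e2 : Λ 1 / (OmE * (starRingEnd ℂ) OmE) ^ Module.finrank F K =
      (L 1 / OmE ^ Module.finrank F K) * (starRingEnd ℂ) (L 1 / OmE ^ Module.finrank F K) := by
    rw [e1, map_one, map_div₀, map_pow, mul_pow, mul_div_mul_comm]
  have hi2 : V.valuation ((starRingEnd ℂ) (L 1 / OmE ^ Module.finrank F K)) ≤ 1 := by
    refine i5_conj V _ ?_
    rw [hLL]
    exact hLi'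
  have hcard : V.valuation ((Nat.card (E27.baseChange K).toAffine.Point : ℂ) ^ 2) ≤ 1 := by
    rw [map_pow]
    exact pow_le_one₀ zero_le (pt9_nat V _)
  rw [map_div₀, map_mul, map_mul, map_mul, map_pow V.valuation (_ / _) _, hv, hs, ht, one_pow, mul_one, mul_one,
    div_one, ← map_mul] at hu
  have h6 : V.valuation (Λ 1 / (OmE * (starRingEnd ℂ) OmE) ^ Module.finrank F K) = 1 := by
    refine i5_two V _ _ ?_ hcard hu
    rw [e2, map_mul]
    exact mul_le_one' hLi hi2
  rw [e2] at h6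
  exact ⟨L, hLa, hLs, i5_two V _ _ hLi hi2 h6⟩

/-- THE EXACT CRITERION, analytic side. -/
theorem crit_an (hA : AnUnit p K) : ExtP p K := by
  refine ⟨inferInstance, ⟨k, hk⟩, fun W v hv hg => ?_⟩
  by_contra he
  apply hg
  let j : K →ₐ[F] FB := IsAlgClosed.lift
  have hL : PExt p ⊥ j.fieldRange := pext_range p hp K inferInstance k hk j
  have hLf : FiniteDimensional F j.fieldRange := hL.fin
  have hLn : NumberField j.fieldRange := H16C.FR_numberField _
  letI : Algebra j.fieldRange K :=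
    (AlgEquiv.ofInjectiveField j).symm.toRingEquiv.toRingHom.toAlgebra
  have hUL : UnrP p j.fieldRange := UnrP.down j.fieldRange K p hp hU
  refine crit_FB p hp h5 j.fieldRange hL hUL (fun V hV =>
    LVP_congr j.fieldRange K (AlgEquiv.ofInjectiveField j).symm V OmE psiE
      (i5_lvp p hp h5 K k hk hU hA V hV)) v ?_
  -- v is ramified in the image
  have hl : W.asIdeal.LiesOver v.asIdeal := ⟨hv⟩
  have hWp := W.isPrime
  obtain ⟨θ, hθ⟩ : ∃ θ : 𝓞 K ≃+* 𝓞 j.fieldRange, ∀ x : O,
      θ (algebraMap O (𝓞 K) x) = algebraMap O (𝓞 j.fieldRange) x := by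
    let e : K ≃ₐ[F] j.fieldRange := AlgEquiv.ofInjectiveField j
    refine ⟨RingOfIntegers.mapRingEquiv e, fun x => ?_⟩
    apply RingOfIntegers.coe_injective
    show e (algebraMap F K (x : F)) = algebraMap F j.fieldRange (x : F)
    exact e.commutes _
  refine ⟨W.asIdeal.map (θ : 𝓞 K →+* 𝓞 j.fieldRange), Ideal.map_isPrime_of_equiv θ, ?_⟩
  rw [Ideal.map_le_iff_le_comap]
  intro x hx
  rw [Ideal.mem_comap, ← hθ x, ← Ideal.map_pow]
  exact Ideal.mem_map_of_mem (θ : 𝓞 K →+* 𝓞 j.fieldRange)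
    (s13_le_sq v.asIdeal v.ne_bot W.asIdeal he x hx)

end

end H55P
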