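import Mathlib
import Pool.Agent.Lib.H55P.I5
import Pool.Agent.Lib.H55P.CL

open NumberField IsDedekindDomain WeierstrassCurve

namespace H55P

open H55N
open H55B (F O om e emb E27)

/-! The exact criterion for y^2 + y = x^3 over all subfields of Galois extensions of F of degree a power of p, analytic side. -/

theorem crit_K (p : ℕ) (hp : p.Prime) (h5 : 5 ≤ p) (L : IntermediateField F FB) [NumberField L]
    (hL : PExt p ⊥ L) (K : IntermediateField F FB) [NumberField K] (hKL : K ≤ L) (hU : UnrP p K)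
    (hV : ∀ V : ValuationSubring ℂ, V.valuation (p : ℂ) < 1 → LVP F V OmE (PsiP K psiE))
    (v₀ : HeightOneSpectrum O) (hr : RamF K v₀.asIdeal) : GoodP p v₀ := by
  have hbn : NumberField (⊥ : IntermediateField F FB) := H16C.FR_numberField _
  obtain ⟨v, h1, h2, h3⟩ := bot_conv' W27O K v₀
  have hram := h2 hr
  have hn := ram_norm p hp ⊥ L hL K bot_le hKL hU v hram
  have hv3 : (3 : 𝓞 (⊥ : IntermediateField F FB)) ∉ v.asIdeal := fun h => three_norm p hp h5 v h hn
  have hpv : (p : 𝓞 (⊥ : IntermediateField F FB)) ∉ v.asIdeal := by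
    intro hm
    have h4 : Ideal.absNorm v.asIdeal ∣ p ^ Module.finrank ℚ (⊥ : IntermediateField F FB) := by
      rw [← pt8_norm]
      apply map_dvd
      rw [Ideal.dvd_iff_le, Ideal.span_singleton_le_iff_mem]
      exact hm
    obtain ⟨k, hk, hk'⟩ := (Nat.dvd_prime_pow hp).1 h4
    have hne : k ≠ 0 := by
      rintro rfl
      rw [pow_zero, Ideal.absNorm_eq_one_iff] at hk'
      exact v.isPrime.ne_top hk'
    have h6 : p ∣ Ideal.absNorm v.asIdeal := by
      rw [hk']
      exact dvd_pow_self p hne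
    have h7 : 1 ≤ Ideal.absNorm v.asIdeal := by
      refine Nat.one_le_iff_ne_zero.2 ?_
      rw [Ne, Ideal.absNorm_eq_zero_iff]
      exact v.ne_bot
    have h8 : p ∣ 1 := (Nat.dvd_sub_iff_right h7 h6).1 hn
    exact hp.one_lt.ne' (Nat.dvd_one.1 h8)
  refine ⟨fun h => hv3 ?_, fun h => hpv ?_, ?_⟩
  · have := (h1 3).1 h
    rwa [map_ofNat] at this
  · have := (h1 p).1 h
    rwa [map_natCast] at this
  · rw [← h3]
    refine (adm_card _ v hv3 p hp).1 fun V hVp => ?_
    obtain ⟨hv3', hv2'⟩ := val3 p hp h5 V hVp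
    have h := (LVP_tower_iff p hp ⊥ L hL isHeckeE (m3_cop p hp h5) 0 (1 / 4) OmE perE V hVp
      (goodE V hv3' hv2') (ntpE _ finrank_bot' p hp h5 V hVp) K bot_le hKL hU).1 (hV V hVp)
    exact h.2 v hram

/-- No ramification above 3. -/
theorem unr3_K (p : ℕ) (hp : p.Prime) (h5 : 5 ≤ p) (L : IntermediateField F FB)
    (hL : PExt p ⊥ L) (K : IntermediateField F FB) [NumberField K] (hKL : K ≤ L) (hU : UnrP p K) :
    H35N.Unr3 K := by
  have hbn : NumberField (⊥ : IntermediateField F FB) := H16C.FR_numberField _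
  have hLf : FiniteDimensional F L := hL.fin
  have hKf : FiniteDimensional F K := finDim_of_le hKL
  exact fun w hw =>
    unr_sub K K le_rfl 3 (by norm_num) (fun v hv => by
      intro h
      obtain ⟨v', h1, h2, -⟩ := bot_conv' W27O K v
      have hn := ram_norm p hp ⊥ L hL K bot_le hKL hU v' (h2 hv)
      refine three_norm p hp h5 v' ?_ hn
      have := (h1 3).1 (by exact_mod_cast h)
      rwa [map_ofNat] at this) w (by exact_mod_cast hw)

/-- Integrality. -/
theorem int_K (p : ℕ) (hp : p.Prime) (h5 : 5 ≤ p) (K : Type) [Field K] [NumberField K] [Algebra F K]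
    (k : ℕ) (hk : Module.finrank F K = p ^ k) (hU : UnrP p K) (V : ValuationSubring ℂ)
    (hV : V.valuation (p : ℂ) < 1) : LVI F V OmE (PsiP K psiE) := by
  obtain ⟨h3, h2⟩ := val3 p hp h5 V hV
  have hN : NTP K p m3 psiE V :=
    NTP_up F K p hp k hk V hV (ntpE F (Module.finrank_self F) p hp h5 V hV)
  exact LVI_base p hp isHeckeE (m3_cop p hp h5) hU 0 (1 / 4) OmE perE V hV (goodE V h3 h2) hN

/-- K contains F: the L-value is a unit if the analytic part holds. -/
theorem lvp_F (p : ℕ) (hp : p.Prime) (h5 : 5 ≤ p) (K : Type) [Field K] [NumberField K] [Algebra F K]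
    (k : ℕ) (hk : Module.finrank F K = p ^ k) (hU : UnrP p K) (h3K : H35N.Unr3 K)
    (hA : AnUnit p K) (V : ValuationSubring ℂ) (hV : V.valuation (p : ℂ) < 1) :
    LVP F V OmE (PsiP K psiE) := by
  obtain ⟨h3, -⟩ := val3 p hp h5 V hV
  obtain ⟨L, hLa, hLs, hLi⟩ := int_K p hp h5 K k hk hU V hV
  obtain ⟨L', hLa', hLs', hLi'⟩ := int_K p hp h5 K k hk hU _ (i5_above p hp V hV)
  have hLL : L 1 = L' 1 := ident L L' hLa hLa' (fun s hs => (hLs s hs).unique (hLs' s hs)) 1
    (by norm_num)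
  obtain ⟨Λ, hΛa, hΛs, -, hΛu⟩ := hA
  have e1 : Λ 1 = L 1 * (starRingEnd ℂ) (L ((starRingEnd ℂ) 1)) :=
    ident Λ (fun z => L z * (starRingEnd ℂ) (L ((starRingEnd ℂ) z))) hΛa
      (hLa.mul (H55B.I4_conj hLa)) (fun s hs => by
        rw [(hΛs s hs).2]
        exact (i5_lfun K h3K L hLs s hs).LSeries_eq) 1 (by norm_num)
  obtain ⟨P, g2, g3⟩ := H55C.period_exists
  have hu := hΛu P g2 g3 V hV
  have hv := periodE V h3 P g2 g3
  have hr : OmE * (starRingEnd ℂ) OmE ≠ 0 := by
    intro h0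
    rw [h0, zero_div, map_zero] at hv
    exact zero_ne_one hv
  have ht := tam_prodU (K₀ := K) h3K V h3
  have hs := discr_unit (K₀ := K) p hp hU V hV
  unfold H55D.shaAn at hu
  rw [H55D.Fin1_real, pow_zero, one_mul, PZ9_alg (Λ 1) _ _ _ _ (OmE * (starRingEnd ℂ) OmE) _ hr,
    H55C.complex_places] at hu
  have e2 : Λ 1 / (OmE * (starRingEnd ℂ) OmE) ^ Module.finrank F K =
      (L 1 / OmE ^ Module.finrank F K) * (starRingEnd ℂ) (L 1 / OmE ^ Module.finrank F K) := by
    rw [e1, map_one, map_div₀, map_pow, mul_pow, mul_div_mul_comm]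
  have hi2 : V.valuation ((starRingEnd ℂ) (L 1 / OmE ^ Module.finrank F K)) ≤ 1 := by
    refine i5_conj V _ ?_
    rw [hLL]
    exact hLi'
  have hcard : V.valuation ((Nat.card (E27.baseChange K).toAffine.Point : ℂ) ^ 2) ≤ 1 := by
    rw [map_pow]
    exact pow_le_one₀ zero_le (pt9_nat V _)
  rw [map_div₀, map_mul, map_mul, map_mul, map_pow V.valuation (_ / _) _, hv, hs, ht, one_pow, mul_one, mul_one,
    div_one, ← map_mul] at hu
  have h6 : V.valuation (Λ 1 / (OmE * (starRingEnd ℂ) OmE) ^ Module.finrank F K) = 1 := by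
    refine i5_two V _ _ ?_ hcard hu
    rw [e2, map_mul]
    exact mul_le_one' hLi hi2
  rw [e2] at h6
  exact ⟨L, hLa, hLs, i5_two V _ _ hLi hi2 h6⟩

/-- K does not contain F: the L-value is a unit if the analytic part holds. -/
theorem lvp_Q (p : ℕ) (hp : p.Prime) (h5 : 5 ≤ p) (K₀ K : Type) [Field K₀] [NumberField K₀] [Field K]
    [NumberField K] [Algebra F K] [Algebra K₀ K] (hQ : H13E.Quad K₀ K)
    (k : ℕ) (hk : Module.finrank F K = p ^ k) (hU : UnrP p K) (h3K : H35N.Unr3 K)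
    (hA : AnUnit p K₀) (V : ValuationSubring ℂ) (hV : V.valuation (p : ℂ) < 1) :
    LVP F V OmE (PsiP K psiE) := by
  obtain ⟨h3, -⟩ := val3 p hp h5 V hV
  obtain ⟨L, hLa, hLs, hLi⟩ := int_K p hp h5 K k hk hU V hV
  obtain ⟨Λ, hΛa, hΛs, -, hΛu⟩ := hA
  have e1 : Λ 1 = L 1 := ident Λ L hΛa hLa (fun s hs => by
    rw [(hΛs s hs).2]
    have h0 : Psi K ⊥ = 0 := (Psi K).map_zero
    have h1 := AI_LSeries (fun a => Psi K a) h0 s
      (tm_summable (fun a => Psi K a) Psi_norm_le s hs)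
    have h2 : ∑' a : Ideal (𝓞 K), tm (fun a => Psi K a) s a = L s := (hLs s hs).tsum_eq
    rw [h2] at h1
    have key : LSeriesHasSum (fun n => (((E27.baseChange K₀).LFunction n : ℤ) : ℂ)) s (L s) := by
      have e1 : (fun n => (((E27.baseChange K₀).LFunction n : ℤ) : ℂ)) =
          fun n => AI (fun a => Psi K a) n := by
        funext n
        exact LFunU0 hQ h3K n
      rw [e1]
      exact h1
    exact key.LSeries_eq) 1 (by norm_num)
  obtain ⟨P, g2, g3⟩ := H55C.period_exists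
  have hu := hΛu P g2 g3 V hV
  obtain ⟨X, hR0, -⟩ := H55B.exists_X
  have hr : R0 ≠ 0 := hR0
  obtain ⟨hv, hw⟩ := R0_Omr_P V h3 P g2 g3
  have ht := tam_prodU (K₀ := K₀) h3K V h3
  have hs := discr_unit (K₀ := K₀) p hp hU V hV
  unfold H55D.shaAn at hu
  rw [H55D.Fin1_alg (Λ 1) _ _ _ _ _ R0 _ _ hr] at hu
  have hcard : V.valuation ((Nat.card (E27.baseChange K₀).toAffine.Point : ℂ) ^ 2) ≤ 1 := by
    rw [map_pow]
    exact pow_le_one₀ zero_le (pt9_nat V _)
  rw [← H55D.Fin1_rank hQ, e1] at hu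
  have e3 : L 1 / R0 ^ Module.finrank F K =
      L 1 / OmE ^ Module.finrank F K * e (2 * om + 1) ^ Module.finrank F K := by
    unfold OmE
    have h3 : e (2 * om + 1) ≠ 0 := by
      intro h0
      have := pz7_sq3
      rw [h0] at this
      norm_num at this
    rw [mul_pow, div_mul_eq_div_div, div_right_comm, div_mul_cancel₀ _ (pow_ne_zero _ h3)]
  have h7 : V.valuation (e (2 * om + 1)) = 1 := pz7_val hp h5 V hV
  rw [map_div₀, map_mul, map_mul, map_mul, map_mul, map_pow V.valuation (_ / _) _,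
    map_pow V.valuation (_ / _) _, hv, hw, hs, ht, one_pow, one_pow, mul_one, mul_one, mul_one,
    div_one, ← map_mul, e3] at hu
  have h8 : V.valuation (L 1 / OmE ^ Module.finrank F K * e (2 * om + 1) ^ Module.finrank F K) =
      V.valuation (L 1 / OmE ^ Module.finrank F K) := by
    rw [map_mul, map_pow, h7, one_pow, mul_one]
  refine ⟨L, hLa, hLs, ?_⟩
  rw [← h8]
  exact i5_two V _ _ (by rw [h8]; exact hLi) hcard hu

end H55P
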