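import Mathlib
import Pool.Agent.Lib.H55P.I6

open NumberField IsDedekindDomain WeierstrassCurve

namespace H55P

open H55N
open H55B (F O om e emb E27)

/-! The exact criterion for y^2 + y = x^3, analytic side: final form for all subfields. -/

theorem deg_pow (p : ℕ) (hp : p.Prime) (M N L : IntermediateField F FB) (hL : PExt p M L) (hMN : M ≤ N)
    (hNL : N ≤ L) : ∃ j : ℕ, Module.finrank F N = Module.finrank F M * p ^ j := by
  have hLf : FiniteDimensional F L := hL.fin
  have hMf : FiniteDimensional F M := finDim_of_le hL.le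
  letI : Algebra M N := (IntermediateField.inclusion hMN).toRingHom.toAlgebra
  obtain ⟨j, hj⟩ := pext_deg p hp M N L hL hMN hNL
  have hst : IsScalarTower F M N := alg_tower M N hMN
  exact ⟨j, by rw [← Module.finrank_mul_finrank F M N, hj]⟩

/-- The Galois closure as an abstract extension with good ramification. -/
theorem extP_clos (p : ℕ) (hp : p.Prime) (L : IntermediateField F FB) (hL : PExt p ⊥ L)
    (K : IntermediateField F FB) (hKL : K ≤ L) [NumberField (clos (⊥ : IntermediateField F FB) K)]
    (h : ∀ v₀ : HeightOneSpectrum O, RamF K v₀.asIdeal → GoodP p v₀) :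
    ExtP p (clos (⊥ : IntermediateField F FB) K) := by
  have hLf : FiniteDimensional F L := hL.fin
  have hbn : NumberField (⊥ : IntermediateField F FB) := H16C.FR_numberField _
  have hC := clos_pext p hp ⊥ K L hL bot_le hKL
  have hCf : FiniteDimensional F (clos (⊥ : IntermediateField F FB) K) := hC.fin
  have hnorm : Normal F (clos (⊥ : IntermediateField F FB) K) := by
    rw [IntermediateField.normal_iff_forall_map_le']
    rintro s _ ⟨x, hx, rfl⟩
    have hs : s ∈ (⊥ : IntermediateField F FB).fixingSubgroup := by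
      rw [IntermediateField.fixingSubgroup_bot]
      exact Subgroup.mem_top s
    exact hC.norm s hs x hx
  refine ⟨⟨⟩, ?_, fun W v hv hg => ?_⟩
  · obtain ⟨k, hk⟩ := hC.deg
    rw [finrank_bot', one_mul] at hk
    exact ⟨k, hk⟩
  · by_contra he
    apply hg
    have hl : W.asIdeal.LiesOver v.asIdeal := ⟨hv⟩
    have hWp := W.isPrime
    have hr : RamF (clos (⊥ : IntermediateField F FB) K) v.asIdeal := by
      refine ⟨W.asIdeal, hWp, ?_⟩
      rw [Ideal.map_le_iff_le_comap]
      intro x hx
      exact s13_le_sq v.asIdeal v.ne_bot W.asIdeal he x hx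
    obtain ⟨v', h1, h2, -⟩ := bot_conv' W27O (clos (⊥ : IntermediateField F FB) K) v
    have h3 : Ram (⊥ : IntermediateField F FB) K v'.asIdeal :=
      clos_ram ⊥ K L bot_le hKL hL.norm v' (h2 hr)
    obtain ⟨v₁, g1, g2, -⟩ := bot_conv W27O K v'
    have h4 : v₁ = v := by
      apply HeightOneSpectrum.ext
      ext x
      rw [g1 x, h1 x]
    subst h4
    exact h v₁ (g2 h3)

/-- The field K is a subfield of an extension with good ramification. -/
theorem inP_of (p : ℕ) (hp : p.Prime) (K : Type) [Field K] [NumberField K] (ι : K →ₐ[ℚ] FB)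
    (L : IntermediateField F FB) (hL : PExt p ⊥ L) (hKL : KF K ι ≤ L)
    (h : ∀ v₀ : HeightOneSpectrum O, RamF (KF K ι) v₀.asIdeal → GoodP p v₀) : InP p K := by
  have hC := clos_pext p hp ⊥ (KF K ι) L hL bot_le hKL
  have hCf : FiniteDimensional F (clos (⊥ : IntermediateField F FB) (KF K ι)) := hC.fin
  have hCn : NumberField (clos (⊥ : IntermediateField F FB) (KF K ι)) := H16C.FR_numberField _
  let f : K →+* clos (⊥ : IntermediateField F FB) (KF K ι) :=
    (IntermediateField.inclusion (le_clos (⊥ : IntermediateField F FB) (KF K ι))).toRingHom.comp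
      (KFmap K ι)
  exact ⟨clos (⊥ : IntermediateField F FB) (KF K ι), inferInstance, hCn, inferInstance, f.toAlgebra,
    extP_clos p hp L hL (KF K ι) hKL h⟩

/-- THE EXACT CRITERION, analytic side: over every subfield of a Galois extension of F of degree a power of p in which p is
unramified the analytic part holds only if only good primes ramify. -/
theorem crit_sub (p : ℕ) (hp : p.Prime) (h5 : 5 ≤ p) (K : Type) [Field K] [NumberField K]
    (hK : SubU p K) (hA : AnUnit p K) : InP p K := by
  obtain ⟨Lt, _, _, _, _, hG, ⟨k, hk⟩, hUt⟩ := hK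
  have hfL : FiniteDimensional F Lt := Module.finite_of_finrank_pos (by rw [hk]; exact pow_pos hp.pos k)
  let j : Lt →ₐ[F] FB := IsAlgClosed.lift
  obtain ⟨L, hLdef⟩ : ∃ L : IntermediateField F FB, L = j.fieldRange := ⟨_, rfl⟩
  have hL : PExt p ⊥ L := by
    rw [hLdef]
    exact pext_range p hp Lt hG k hk j
  have hLf : FiniteDimensional F L := hL.fin
  have hLn : NumberField L := H16C.FR_numberField L
  have hUL : UnrP p L := by
    subst hLdef
    letI : Algebra j.fieldRange Lt :=
      (AlgEquiv.ofInjectiveField j).symm.toRingEquiv.toRingHom.toAlgebra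
    exact UnrP.down j.fieldRange Lt p hp hUt
  let ι₀ : K →+* FB := j.toRingHom.comp (algebraMap K Lt)
  let ι : K →ₐ[ℚ] FB := ι₀.toRatAlgHom
  have hKL : KF K ι ≤ L := by
    unfold KF
    rw [IntermediateField.adjoin_le_iff, hLdef]
    rintro _ ⟨x, rfl⟩
    exact ⟨algebraMap K Lt x, rfl⟩
  obtain ⟨K', hK'⟩ : ∃ K' : IntermediateField F FB, K' = KF K ι := ⟨_, rfl⟩
  have hK'L : K' ≤ L := hK' ▸ hKL
  have hK'f : FiniteDimensional F K' := finDim_of_le hK'L
  have hK'n : NumberField K' := H16C.FR_numberField K'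
  have hbf : FiniteDimensional F (⊥ : IntermediateField F FB) := inferInstance
  have hUK' : UnrP p K' := by
    letI : Algebra K' L := (IntermediateField.inclusion hK'L).toRingHom.toAlgebra
    exact UnrP.down K' L p hp hUL
  have h3K' : H35N.Unr3 K' := unr3_K p hp h5 L hL K' hK'L hUK'
  obtain ⟨i, hi⟩ : ∃ i : ℕ, Module.finrank F K' = p ^ i := by
    obtain ⟨i, hi⟩ := deg_pow p hp ⊥ K' L hL bot_le hK'L
    exact ⟨i, by rw [hi, finrank_bot', one_mul]⟩
  have hQF := tower_QF
  have hQA := alg_QFB
  refine inP_of p hp K ι L hL hKL ?_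
  rw [← hK']
  refine crit_K p hp h5 L hL K' hK'L hUK' fun V hV => ?_
  by_cases hroot : ∃ x : K, x ^ 2 + x + 1 = 0
  · obtain ⟨x, hx⟩ := hroot
    obtain ⟨f, hf⟩ := exists_F K ι x hx
    letI : Algebra F K := f.toAlgebra
    subst hK'
    obtain ⟨θ⟩ := kf_iso K ι f hf
    letI : Algebra K (KF K ι) := θ.toRingHom.toAlgebra
    have hst : IsScalarTower F K (KF K ι) :=
      IsScalarTower.of_algebraMap_eq fun y => (θ.commutes y).symm
    have hUK : UnrP p K := UnrP.down K (KF K ι) p hp hUK'
    have h3K : H35N.Unr3 K := unr3_down K (KF K ι) h3K'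
    have hiK : Module.finrank F K = p ^ i := by
      rw [← hi]
      exact θ.toLinearEquiv.finrank_eq
    exact LVP_congr (KF K ι) K θ.symm V OmE psiE
      (lvp_F p hp h5 K i hiK hUK h3K hA V hV)
  · push Not at hroot
    subst hK'
    letI : Algebra K (KF K ι) := (KFmap K ι).toAlgebra
    have hQ : H13E.Quad K (KF K ι) := kf_quad K ι hroot
    exact lvp_Q p hp h5 K (KF K ι) hQ i hi hUK' h3K' hA V hV

/-- Good extensions are unramified above p. -/
theorem subU_of_inP (p : ℕ) (hp : p.Prime) (h5 : 5 ≤ p) (K : Type) [Field K] [NumberField K]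
    (hK : InP p K) : SubU p K := by
  obtain ⟨Lt, i1, i2, i3, i4, hG, ⟨k, hk⟩, hunr⟩ := hK
  refine ⟨Lt, i1, i2, i3, i4, hG, ⟨k, hk⟩, ?_⟩
  have hfL : FiniteDimensional F Lt := Module.finite_of_finrank_pos (by rw [hk]; exact pow_pos hp.pos k)
  let j : Lt →ₐ[F] FB := IsAlgClosed.lift
  have hL : PExt p ⊥ j.fieldRange := pext_range p hp Lt hG k hk j
  have hLf : FiniteDimensional F j.fieldRange := hL.fin
  have hLn : NumberField j.fieldRange := H16C.FR_numberField _
  have hram : ∀ v₀ : HeightOneSpectrum O, RamF j.fieldRange v₀.asIdeal → GoodP p v₀ := by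
    intro v₀ h
    by_contra hng
    obtain ⟨W, hW, he⟩ := ramF_range Lt j v₀ h
    exact he (hunr W v₀ hW hng)
  have h1 : UnrP p j.fieldRange := unrP_sub p hp _ (sqfree_E p hp h5) fun v hv => (hram v hv).2.1
  letI : Algebra Lt j.fieldRange := (AlgEquiv.ofInjectiveField j).toRingEquiv.toRingHom.toAlgebra
  exact UnrP.down Lt j.fieldRange p hp h1

end H55P
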