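import Mathlib
import Pool.Agent.Lib.H35P.EVp

/-! Target of the elliptic part: H55P.s_exists, proved in Lib/H35P/EVp.lean. -/
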