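import Mathlib
import Pool.Agent.Lib.H55P.I7

open NumberField IsDedekindDomain WeierstrassCurve

namespace H55P

open H55N
open H55B (F O om e emb E27)

/-! The dichotomy: over every subfield of a Galois extension of degree a power of p, p unramified, either only good primes
ramify or the algebraic part of the L-value is divisible by all primes above p. -/

/-- The two valuations V and its conjugate together see the norm. -/
theorem crit_one (p : ℕ) (hp : p.Prime) (h5 : 5 ≤ p) (L : IntermediateField F FB) [NumberField L]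
    (hL : PExt p ⊥ L) (K : IntermediateField F FB) [NumberField K] (hKL : K ≤ L) (hU : UnrP p K)
    (V : ValuationSubring ℂ) (hV : V.valuation (p : ℂ) < 1) (h1 : LVP F V OmE (PsiP K psiE))
    (h2 : LVP F (V.comap (starRingEnd ℂ)) OmE (PsiP K psiE))
    (v₀ : HeightOneSpectrum O) (hr : RamF K v₀.asIdeal) : GoodP p v₀ := by
  have hbn : NumberField (⊥ : IntermediateField F FB) := H16C.FR_numberField _
  obtain ⟨v, g1, g2, g3⟩ := bot_conv' W27O K v₀
  have hram := g2 hr
  have hn := ram_norm p hp ⊥ L hL K bot_le hKL hU v hram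
  have hv3 : (3 : 𝓞 (⊥ : IntermediateField F FB)) ∉ v.asIdeal := fun h => three_norm p hp h5 v h hn
  have hV' := i5_above p hp V hV
  have key : ∀ W : ValuationSubring ℂ, W.valuation (p : ℂ) < 1 → LVP F W OmE (PsiP K psiE) →
      W.valuation (1 - (starRingEnd ℂ) (PsiP (⊥ : IntermediateField F FB) psiE v.asIdeal)) = 1 := by
    intro W hW h
    obtain ⟨hv3', hv2'⟩ := val3 p hp h5 W hW
    exact ((LVP_tower_iff p hp ⊥ L hL isHeckeE (m3_cop p hp h5) 0 (1 / 4) OmE perE W hW
      (goodE W hv3' hv2') (ntpE _ finrank_bot' p hp h5 W hW) K bot_le hKL hU).1 h).2 v hram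
  have k1 := key V hV h1
  have k2 := key _ hV' h2
  have k3 : V.valuation (1 - PsiP (⊥ : IntermediateField F FB) psiE v.asIdeal) = 1 := by
    have hx0 : 1 - (starRingEnd ℂ) (PsiP (⊥ : IntermediateField F FB) psiE v.asIdeal) ≠ 0 := by
      intro h0
      rw [h0, map_zero] at k1
      exact zero_ne_one k1
    have h3 := (H55C.B9_eq (V.comap (starRingEnd ℂ)) hx0).1 k2
    have hmem : ∀ z : ℂ, z ∈ V.comap (starRingEnd ℂ) ↔ (starRingEnd ℂ) z ∈ V := fun z => Iff.rfl
    rw [hmem, hmem, map_inv₀] at h3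
    have h4 := (H55C.B9_eq V ((map_ne_zero (starRingEnd ℂ)).2 hx0)).2 h3
    rwa [map_sub, map_one, Complex.conj_conj] at h4
  have k4 : V.valuation
      ((Nat.card (W27O⁄(𝓞 (⊥ : IntermediateField F FB) ⧸ v.asIdeal)).toAffine.Point : ℕ) : ℂ) = 1 := by
    rw [cardE _ v hv3, map_mul]
    show V.valuation (1 - PsiP (⊥ : IntermediateField F FB) psiE v.asIdeal) *
      V.valuation (1 - (starRingEnd ℂ) (PsiP (⊥ : IntermediateField F FB) psiE v.asIdeal)) = 1
    rw [k1, k3, one_mul]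
  have hcard : ¬ p ∣ Nat.card (W27O⁄(𝓞 (⊥ : IntermediateField F FB) ⧸ v.asIdeal)).toAffine.Point := by
    rintro ⟨t, ht⟩
    rw [ht, Nat.cast_mul, map_mul] at k4
    have h5 := mul_lt_one_of_lt_of_le hV (pt9_nat V t)
    rw [k4] at h5
    exact lt_irrefl _ h5
  refine ⟨fun h => hv3 ?_, fun h => ?_, ?_⟩
  · have := (g1 3).1 h
    rwa [map_ofNat] at this
  · have hm := (g1 p).1 h
    rw [map_natCast] at hm
    have h4 : Ideal.absNorm v.asIdeal ∣ p ^ Module.finrank ℚ (⊥ : IntermediateField F FB) := by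
      rw [← pt8_norm]
      apply map_dvd
      rw [Ideal.dvd_iff_le, Ideal.span_singleton_le_iff_mem]
      exact hm
    obtain ⟨k, hk, hk'⟩ := (Nat.dvd_prime_pow hp).1 h4
    have hne : k ≠ 0 := by
      rintro rfl
      rw [pow_zero, Ideal.absNorm_eq_one_iff] at hk'
      exact v.isPrime.ne_top hk'
    have h6 : p ∣ Ideal.absNorm v.asIdeal := by
      rw [hk']
      exact dvd_pow_self p hne
    have h7 : 1 ≤ Ideal.absNorm v.asIdeal := by
      refine Nat.one_le_iff_ne_zero.2 ?_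
      rw [Ne, Ideal.absNorm_eq_zero_iff]
      exact v.ne_bot
    have h8 : p ∣ 1 := (Nat.dvd_sub_iff_right h7 h6).1 hn
    exact hp.one_lt.ne' (Nat.dvd_one.1 h8)
  · rw [← g3]
    exact hcard

/-- K contains F: values at one valuation. -/
theorem an_F (p : ℕ) (hp : p.Prime) (h5 : 5 ≤ p) (K : Type) [Field K] [NumberField K] [Algebra F K]
    (k : ℕ) (hk : Module.finrank F K = p ^ k) (hU : UnrP p K) (h3K : H35N.Unr3 K) :
    ∃ Λ : ℂ → ℂ, AnalyticOnNhd ℂ Λ {s | 1 / 2 < s.re} ∧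
      (∀ s : ℂ, 3 / 2 < s.re →
        LSeriesSummable (fun n => (((E27.baseChange K).LFunction n : ℤ) : ℂ)) s ∧
        Λ s = (E27.baseChange K).LSeries s) ∧
      ∀ V : ValuationSubring ℂ, V.valuation (p : ℂ) < 1 →
        ∀ P : PeriodPair, P.g₂ = 0 → P.g₃ = -1 → V.valuation (lAn K P (Λ 1)) < 1 ∨
          (LVP F V OmE (PsiP K psiE) ∧ LVP F (V.comap (starRingEnd ℂ)) OmE (PsiP K psiE)) := by
  obtain ⟨V₀, hV₀⟩ := exists_above_p p hp
  obtain ⟨L, hLa, hLs, -⟩ := int_K p hp h5 K k hk hU V₀ hV₀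
  refine ⟨fun z => L z * (starRingEnd ℂ) (L ((starRingEnd ℂ) z)), hLa.mul (H55B.I4_conj hLa),
    fun s hs => ⟨(i5_lfun K h3K L hLs s hs).LSeriesSummable, (i5_lfun K h3K L hLs s hs).LSeries_eq.symm⟩,
    fun V hV P g2 g3 => ?_⟩
  obtain ⟨h3, -⟩ := val3 p hp h5 V hV
  have hint : ∀ W : ValuationSubring ℂ, W.valuation (p : ℂ) < 1 →
      W.valuation (L 1 / OmE ^ Module.finrank F K) ≤ 1 := by
    intro W hW
    obtain ⟨L', hLa', hLs', hLi'⟩ := int_K p hp h5 K k hk hU W hW
    have hLL : L 1 = L' 1 := ident L L' hLa hLa' (fun s hs => (hLs s hs).unique (hLs' s hs)) 1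
      (by norm_num)
    rw [hLL]
    exact hLi'
  have hi1 := hint V hV
  have hi2 := hint _ (i5_above p hp V hV)
  have hi2' : V.valuation ((starRingEnd ℂ) (L 1 / OmE ^ Module.finrank F K)) ≤ 1 := i5_conj V _ hi2
  by_cases hlt : V.valuation (lAn K P (L 1 * (starRingEnd ℂ) (L ((starRingEnd ℂ) 1)))) < 1
  · exact Or.inl hlt
  right
  have hv := periodE V h3 P g2 g3
  have hr : OmE * (starRingEnd ℂ) OmE ≠ 0 := by
    intro h0
    rw [h0, zero_div, map_zero] at hv
    exact zero_ne_one hv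
  have ht := tam_prodU (K₀ := K) h3K V h3
  have hs := discr_unit (K₀ := K) p hp hU V hV
  have e0 : lAn K P (L 1 * (starRingEnd ℂ) (L ((starRingEnd ℂ) 1))) =
      L 1 * (starRingEnd ℂ) (L ((starRingEnd ℂ) 1)) /
        (OmE * (starRingEnd ℂ) OmE) ^ NumberField.InfinitePlace.nrComplexPlaces K *
      (OmE * (starRingEnd ℂ) OmE / (H55C.Om P : ℂ)) ^ NumberField.InfinitePlace.nrComplexPlaces K *
      ((Real.sqrt |(NumberField.discr K : ℝ)| : ℝ) : ℂ) * (1 : ℂ) ^ 2 /
      ∏ᶠ w : HeightOneSpectrum (𝓞 K), (H55D.tam K w : ℂ) := by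
    unfold lAn
    rw [H55D.Fin1_real, pow_zero, one_mul, ← PZ9_alg _ _ 1 _ _ (OmE * (starRingEnd ℂ) OmE) _ hr]
    ring
  have e2 : L 1 * (starRingEnd ℂ) (L ((starRingEnd ℂ) 1)) /
      (OmE * (starRingEnd ℂ) OmE) ^ Module.finrank F K =
      (L 1 / OmE ^ Module.finrank F K) * (starRingEnd ℂ) (L 1 / OmE ^ Module.finrank F K) := by
    rw [map_one, map_div₀, map_pow, mul_pow, mul_div_mul_comm]
  have e3 : V.valuation (lAn K P (L 1 * (starRingEnd ℂ) (L ((starRingEnd ℂ) 1)))) =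
      V.valuation ((L 1 / OmE ^ Module.finrank F K) *
        (starRingEnd ℂ) (L 1 / OmE ^ Module.finrank F K)) := by
    rw [e0, H55C.complex_places, e2, map_div₀, map_mul, map_mul, map_mul, map_pow V.valuation (_ / _) _, hv, hs,
      ht, one_pow, mul_one, mul_one, one_pow, map_one, mul_one, div_one]
  rw [e3, not_lt] at hlt
  have h6 : V.valuation ((L 1 / OmE ^ Module.finrank F K) *
      (starRingEnd ℂ) (L 1 / OmE ^ Module.finrank F K)) = 1 := by
    refine le_antisymm ?_ hlt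
    rw [map_mul]
    exact mul_le_one' hi1 hi2'
  have h7 := i5_two V _ _ hi1 hi2' h6
  have h8 : V.valuation ((starRingEnd ℂ) (L 1 / OmE ^ Module.finrank F K)) = 1 := by
    rw [mul_comm] at h6
    exact i5_two V _ _ hi2' hi1 h6
  refine ⟨⟨L, hLa, hLs, h7⟩, L, hLa, hLs, ?_⟩
  have hx0 : (starRingEnd ℂ) (L 1 / OmE ^ Module.finrank F K) ≠ 0 := by
    intro h0
    rw [h0, map_zero] at h8
    exact zero_ne_one h8
  have hx1 : L 1 / OmE ^ Module.finrank F K ≠ 0 := by
    intro h0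
    rw [h0, map_zero] at hx0
    exact hx0 rfl
  have h9 := (H55C.B9_eq V hx0).1 h8
  have hmem : ∀ z : ℂ, z ∈ V.comap (starRingEnd ℂ) ↔ (starRingEnd ℂ) z ∈ V := fun z => Iff.rfl
  refine (H55C.B9_eq (V.comap (starRingEnd ℂ)) hx1).2 ?_
  rw [hmem, hmem, map_inv₀]
  exact h9

/-- K does not contain F: values at one valuation. -/
theorem an_Q (p : ℕ) (hp : p.Prime) (h5 : 5 ≤ p) (K₀ K : Type) [Field K₀] [NumberField K₀] [Field K]
    [NumberField K] [Algebra F K] [Algebra K₀ K] (hQ : H13E.Quad K₀ K)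
    (k : ℕ) (hk : Module.finrank F K = p ^ k) (hU : UnrP p K) (h3K : H35N.Unr3 K) :
    ∃ Λ : ℂ → ℂ, AnalyticOnNhd ℂ Λ {s | 1 / 2 < s.re} ∧
      (∀ s : ℂ, 3 / 2 < s.re →
        LSeriesSummable (fun n => (((E27.baseChange K₀).LFunction n : ℤ) : ℂ)) s ∧
        Λ s = (E27.baseChange K₀).LSeries s) ∧
      ∀ V : ValuationSubring ℂ, V.valuation (p : ℂ) < 1 →
        ∀ P : PeriodPair, P.g₂ = 0 → P.g₃ = -1 → V.valuation (lAn K₀ P (Λ 1)) < 1 ∨
          (LVP F V OmE (PsiP K psiE) ∧ LVP F (V.comap (starRingEnd ℂ)) OmE (PsiP K psiE)) := by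
  obtain ⟨V₀, hV₀⟩ := exists_above_p p hp
  obtain ⟨L, hLa, hLs, -⟩ := int_K p hp h5 K k hk hU V₀ hV₀
  have hser : ∀ s : ℂ, 3 / 2 < s.re →
      LSeriesHasSum (fun n => (((E27.baseChange K₀).LFunction n : ℤ) : ℂ)) s (L s) := by
    intro s hs
    have h0 : Psi K ⊥ = 0 := (Psi K).map_zero
    have h1 := AI_LSeries (fun a => Psi K a) h0 s
      (tm_summable (fun a => Psi K a) Psi_norm_le s hs)
    have h2 : ∑' a : Ideal (𝓞 K), tm (fun a => Psi K a) s a = L s := (hLs s hs).tsum_eq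
    rw [h2] at h1
    have e1 : (fun n => (((E27.baseChange K₀).LFunction n : ℤ) : ℂ)) =
        fun n => AI (fun a => Psi K a) n := by
      funext n
      exact LFunU0 hQ h3K n
    rw [e1]
    exact h1
  refine ⟨L, hLa, fun s hs => ⟨(hser s hs).LSeriesSummable, (hser s hs).LSeries_eq.symm⟩,
    fun V hV P g2 g3 => ?_⟩
  obtain ⟨h3, -⟩ := val3 p hp h5 V hV
  have hV' := i5_above p hp V hV
  obtain ⟨h3', -⟩ := val3 p hp h5 _ hV'
  have hint : ∀ W : ValuationSubring ℂ, W.valuation (p : ℂ) < 1 →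
      W.valuation (L 1 / OmE ^ Module.finrank F K) ≤ 1 := by
    intro W hW
    obtain ⟨L', hLa', hLs', hLi'⟩ := int_K p hp h5 K k hk hU W hW
    have hLL : L 1 = L' 1 := ident L L' hLa hLa' (fun s hs => (hLs s hs).unique (hLs' s hs)) 1
      (by norm_num)
    rw [hLL]
    exact hLi'
  -- L 1 is real
  have hreal : L 1 = (starRingEnd ℂ) (L 1) := by
    have h := ident L (fun z => (starRingEnd ℂ) (L ((starRingEnd ℂ) z))) hLa (H55B.I4_conj hLa)
      (fun s hs => by
        have hs' : 3 / 2 < ((starRingEnd ℂ) s).re := by simpa using hs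
        have h1 := (Complex.hasSum_conj').2 (hser _ hs')
        have h2 : ∀ n, (starRingEnd ℂ) (LSeries.term
            (fun n => (((E27.baseChange K₀).LFunction n : ℤ) : ℂ)) ((starRingEnd ℂ) s) n) =
            LSeries.term (fun n => (((E27.baseChange K₀).LFunction n : ℤ) : ℂ)) s n := by
          intro n
          rcases eq_or_ne n 0 with rfl | hn
          · simp
          · rw [LSeries.term_of_ne_zero hn, LSeries.term_of_ne_zero hn, map_div₀, map_intCast]
            congr 1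
            have h3 := Complex.cpow_conj (n : ℂ) ((starRingEnd ℂ) s) (by
              rw [Complex.natCast_arg]
              exact Real.pi_pos.ne)
            rw [Complex.conj_conj, map_natCast] at h3
            exact h3.symm
        have h3 : HasSum (fun n => LSeries.term
            (fun n => (((E27.baseChange K₀).LFunction n : ℤ) : ℂ)) s n)
            ((starRingEnd ℂ) (L ((starRingEnd ℂ) s))) := by
          simpa only [h2] using h1
        exact (hser s hs).unique h3) 1 (by norm_num)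
    simpa using h
  by_cases hlt : V.valuation (lAn K₀ P (L 1)) < 1
  · exact Or.inl hlt
  right
  obtain ⟨X, hR0, -⟩ := H55B.exists_X
  have hr : R0 ≠ 0 := hR0
  obtain ⟨hv, hw⟩ := R0_Omr_P V h3 P g2 g3
  have ht := tam_prodU (K₀ := K₀) h3K V h3
  have hs := discr_unit (K₀ := K₀) p hp hU V hV
  have e0 : lAn K₀ P (L 1) = L 1 * ((Real.sqrt |(NumberField.discr K₀ : ℝ)| : ℝ) : ℂ) * (1 : ℂ) ^ 2 /
      ((H55D.Omr P : ℂ) ^ NumberField.InfinitePlace.nrRealPlaces K₀ *
        (H55C.Om P : ℂ) ^ NumberField.InfinitePlace.nrComplexPlaces K₀ *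
      ∏ᶠ w : HeightOneSpectrum (𝓞 K₀), (H55D.tam K₀ w : ℂ)) := by
    unfold lAn
    ring
  have e3 : L 1 / R0 ^ Module.finrank F K =
      L 1 / OmE ^ Module.finrank F K * e (2 * om + 1) ^ Module.finrank F K := by
    unfold OmE
    have h3 : e (2 * om + 1) ≠ 0 := by
      intro h0
      have := pz7_sq3
      rw [h0] at this
      norm_num at this
    rw [mul_pow, div_mul_eq_div_div, div_right_comm, div_mul_cancel₀ _ (pow_ne_zero _ h3)]
  have h7 : V.valuation (e (2 * om + 1)) = 1 := pz7_val hp h5 V hV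
  have h7' : (V.comap (starRingEnd ℂ)).valuation (e (2 * om + 1)) = 1 := pz7_val hp h5 _ hV'
  have e4 : V.valuation (lAn K₀ P (L 1)) = V.valuation (L 1 / OmE ^ Module.finrank F K) := by
    rw [e0, H55D.Fin1_alg (L 1) _ _ _ _ _ R0 _ _ hr, ← H55D.Fin1_rank hQ,
      map_div₀, map_mul, map_mul, map_mul, map_mul, map_pow V.valuation (_ / _) _,
      map_pow V.valuation (_ / _) _, hv, hw, hs, ht, one_pow, one_pow, mul_one, mul_one, mul_one,
      div_one, one_pow, map_one, mul_one, e3, map_mul, map_pow, h7, one_pow, mul_one]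
  rw [e4, not_lt] at hlt
  have h8 : V.valuation (L 1 / OmE ^ Module.finrank F K) = 1 := le_antisymm (hint V hV) hlt
  refine ⟨⟨L, hLa, hLs, h8⟩, L, hLa, hLs, ?_⟩
  -- the conjugate valuation
  have h9 : V.valuation (L 1 / R0 ^ Module.finrank F K) = 1 := by
    rw [e3, map_mul, map_pow, h7, one_pow, mul_one, h8]
  have hx0 : L 1 / R0 ^ Module.finrank F K ≠ 0 := by
    intro h0
    rw [h0, map_zero] at h9
    exact zero_ne_one h9
  have h10 := (H55C.B9_eq V hx0).1 h9
  have hmem : ∀ z : ℂ, z ∈ V.comap (starRingEnd ℂ) ↔ (starRingEnd ℂ) z ∈ V := fun z => Iff.rfl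
  have hR : (starRingEnd ℂ) R0 = R0 := H13E.R_real
  have hc : (starRingEnd ℂ) (L 1 / R0 ^ Module.finrank F K) = L 1 / R0 ^ Module.finrank F K := by
    rw [map_div₀, map_pow, hR, ← hreal]
  have h11 : (V.comap (starRingEnd ℂ)).valuation (L 1 / R0 ^ Module.finrank F K) = 1 := by
    refine (H55C.B9_eq _ hx0).2 ?_
    rw [hmem, hmem, map_inv₀, hc]
    exact h10
  rw [e3, map_mul, map_pow, h7', one_pow, mul_one] at h11
  exact h11

/-- THE DICHOTOMY, analytic side. -/
theorem an_non (p : ℕ) (hp : p.Prime) (h5 : 5 ≤ p) (K : Type) [Field K] [NumberField K]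
    (hK : SubU p K) (hI : ¬ InP p K) : AnNon p K := by
  obtain ⟨Lt, _, _, _, _, hG, ⟨k, hk⟩, hUt⟩ := hK
  have hfL : FiniteDimensional F Lt := Module.finite_of_finrank_pos (by rw [hk]; exact pow_pos hp.pos k)
  let j : Lt →ₐ[F] FB := IsAlgClosed.lift
  obtain ⟨L, hLdef⟩ : ∃ L : IntermediateField F FB, L = j.fieldRange := ⟨_, rfl⟩
  have hL : PExt p ⊥ L := by
    rw [hLdef]
    exact pext_range p hp Lt hG k hk j
  have hLf : FiniteDimensional F L := hL.fin
  have hLn : NumberField L := H16C.FR_numberField L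
  have hUL : UnrP p L := by
    subst hLdef
    letI : Algebra j.fieldRange Lt :=
      (AlgEquiv.ofInjectiveField j).symm.toRingEquiv.toRingHom.toAlgebra
    exact UnrP.down j.fieldRange Lt p hp hUt
  let ι₀ : K →+* FB := j.toRingHom.comp (algebraMap K Lt)
  let ι : K →ₐ[ℚ] FB := ι₀.toRatAlgHom
  have hKL : KF K ι ≤ L := by
    unfold KF
    rw [IntermediateField.adjoin_le_iff, hLdef]
    rintro _ ⟨x, rfl⟩
    exact ⟨algebraMap K Lt x, rfl⟩
  obtain ⟨K', hK'⟩ : ∃ K' : IntermediateField F FB, K' = KF K ι := ⟨_, rfl⟩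
  have hK'L : K' ≤ L := hK' ▸ hKL
  have hK'f : FiniteDimensional F K' := finDim_of_le hK'L
  have hK'n : NumberField K' := H16C.FR_numberField K'
  have hUK' : UnrP p K' := by
    letI : Algebra K' L := (IntermediateField.inclusion hK'L).toRingHom.toAlgebra
    exact UnrP.down K' L p hp hUL
  have h3K' : H35N.Unr3 K' := unr3_K p hp h5 L hL K' hK'L hUK'
  obtain ⟨i, hi⟩ : ∃ i : ℕ, Module.finrank F K' = p ^ i := by
    obtain ⟨i, hi⟩ := deg_pow p hp ⊥ K' L hL bot_le hK'L
    exact ⟨i, by rw [hi, finrank_bot', one_mul]⟩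
  have hQF := tower_QF
  have hQA := alg_QFB
  -- units at one valuation are impossible
  have hcon : ∀ V : ValuationSubring ℂ, V.valuation (p : ℂ) < 1 →
      ¬ (LVP F V OmE (PsiP K' psiE) ∧ LVP F (V.comap (starRingEnd ℂ)) OmE (PsiP K' psiE)) := by
    rintro V hV ⟨h1, h2⟩
    apply hI
    refine inP_of p hp K ι L hL hKL ?_
    rw [← hK']
    exact fun v₀ hr => crit_one p hp h5 L hL K' hK'L hUK' V hV h1 h2 v₀ hr
  by_cases hroot : ∃ x : K, x ^ 2 + x + 1 = 0
  · obtain ⟨x, hx⟩ := hroot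
    obtain ⟨f, hf⟩ := exists_F K ι x hx
    letI : Algebra F K := f.toAlgebra
    subst hK'
    obtain ⟨θ⟩ := kf_iso K ι f hf
    letI : Algebra K (KF K ι) := θ.toRingHom.toAlgebra
    have hst : IsScalarTower F K (KF K ι) :=
      IsScalarTower.of_algebraMap_eq fun y => (θ.commutes y).symm
    have hUK : UnrP p K := UnrP.down K (KF K ι) p hp hUK'
    have h3K : H35N.Unr3 K := unr3_down K (KF K ι) h3K'
    have hiK : Module.finrank F K = p ^ i := by
      rw [← hi]
      exact θ.toLinearEquiv.finrank_eq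
    obtain ⟨Λ, a1, a2, a3⟩ := an_F p hp h5 K i hiK hUK h3K
    refine ⟨Λ, a1, a2, fun P g2 g3 V hV => ?_⟩
    rcases a3 V hV P g2 g3 with h | ⟨h1, h2⟩
    · exact h
    · exact absurd ⟨LVP_congr (KF K ι) K θ.symm V OmE psiE h1,
        LVP_congr (KF K ι) K θ.symm _ OmE psiE h2⟩ (hcon V hV)
  · push Not at hroot
    subst hK'
    letI : Algebra K (KF K ι) := (KFmap K ι).toAlgebra
    have hQ : H13E.Quad K (KF K ι) := kf_quad K ι hroot
    obtain ⟨Λ, a1, a2, a3⟩ := an_Q p hp h5 K (KF K ι) hQ i hi hUK' h3K'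
    refine ⟨Λ, a1, a2, fun P g2 g3 V hV => ?_⟩
    rcases a3 V hV P g2 g3 with h | h
    · exact h
    · exact absurd h (hcon V hV)

end H55P
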